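import Pool.Agent.Lib.MP_391708_nt.U.SpecU2

/-!
# Project U (MP_391708), part U2, module ABL: partial summation
-/

set_option autoImplicit false

namespace Pool.Agent.Lib.MP391708.U

open Finset Filter Topology Pool.Agent.Lib.MP391708.QPA
open scoped Classical

noncomputable section

namespace ABLM

theorem ex_add (x y : ℝ) : ex (x + y) = ex x * ex y := by
  unfold ex
  rw [← Complex.exp_add]
  congr 1
  push_cast
  ring

theorem ex_eq (x : ℝ) : ex x = Complex.exp (Complex.I * ((2 * Real.pi * x : ℝ) : ℂ)) := by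
  unfold ex
  congr 1
  push_cast
  ring

theorem norm_ex (x : ℝ) : ‖ex x‖ = 1 := by
  rw [ex_eq, Complex.norm_exp_I_mul_ofReal]

theorem ex_lip (x y : ℝ) : ‖ex x - ex y‖ ≤ 2 * Real.pi * |x - y| := by
  have h1 : ex x - ex y = ex y * (ex (x - y) - 1) := by
    rw [mul_sub, ← ex_add]
    congr 2
    · ring
    · ring
  rw [h1, norm_mul, norm_ex, one_mul, ex_eq]
  refine le_trans (Real.norm_exp_I_mul_ofReal_sub_one_le) ?_
  rw [Real.norm_eq_abs, abs_mul, abs_of_pos (by positivity : (0 : ℝ) < 2 * Real.pi)]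

/-- Abel summation. -/
theorem abel (φ c : ℕ → ℂ) (M₁ M₂ : ℕ) (h : M₁ ≤ M₂) :
    ∑ m ∈ Ioc M₁ M₂, φ m * c m
      = φ M₂ * (∑ m ∈ Ioc M₁ M₂, c m)
        + ∑ M ∈ Ico M₁ M₂, (φ M - φ (M + 1)) * ∑ m ∈ Ioc M₁ M, c m := by
  induction M₂, h using Nat.le_induction with
  | base => simp
  | succ n hn ih =>
    rw [← Finset.insert_Ioc_right_eq_Ioc_add_one hn, Finset.sum_insert (by simp),
      Finset.sum_insert (by simp), ih, Finset.sum_Ico_succ_top hn]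
    ring

/-- The telescoping sum. -/
theorem tele (M₁ M₂ : ℕ) (h : M₁ ≤ M₂) :
    ∑ M ∈ Ico M₁ M₂, (1 / (M : ℝ) - 1 / ((M : ℝ) + 1)) = 1 / (M₁ : ℝ) - 1 / (M₂ : ℝ) := by
  induction M₂, h using Nat.le_induction with
  | base => simp
  | succ n hn ih =>
    rw [Finset.sum_Ico_succ_top hn, ih]
    push_cast
    ring

/-- The differences of `φ(m) = e(t/m)/m`. -/
theorem dphi (t : ℝ) (M₁ M : ℕ) (h1 : 1 ≤ M₁) (hM : M₁ ≤ M) :
    ‖(1 / (M : ℂ)) * ex (t / M) - (1 / ((M + 1 : ℕ) : ℂ)) * ex (t / ((M + 1 : ℕ) : ℝ))‖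
      ≤ (1 + 2 * Real.pi * |t| / M₁) * (1 / (M : ℝ) - 1 / ((M : ℝ) + 1)) := by
  have hM₁ : (0 : ℝ) < M₁ := by exact_mod_cast h1
  have hM0 : (0 : ℝ) < M := by exact_mod_cast h1.trans hM
  have hMM : (M₁ : ℝ) ≤ M := by exact_mod_cast hM
  have hpi := Real.pi_pos
  have hd : 0 ≤ 1 / (M : ℝ) - 1 / ((M : ℝ) + 1) := by
    rw [sub_nonneg]
    exact one_div_le_one_div_of_le hM0 (by linarith)
  have e : (1 / (M : ℂ)) * ex (t / M) - (1 / ((M + 1 : ℕ) : ℂ)) * ex (t / ((M + 1 : ℕ) : ℝ))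
      = ((1 / (M : ℝ) - 1 / ((M : ℝ) + 1) : ℝ) : ℂ) * ex (t / M)
        + ((1 / ((M : ℝ) + 1) : ℝ) : ℂ) * (ex (t / M) - ex (t / ((M + 1 : ℕ) : ℝ))) := by
    push_cast
    ring
  rw [e]
  refine (norm_add_le _ _).trans ?_
  rw [norm_mul, norm_mul, norm_ex, Complex.norm_real, Complex.norm_real, Real.norm_eq_abs,
    Real.norm_eq_abs, abs_of_nonneg hd, abs_of_pos (by positivity : (0 : ℝ) < 1 / ((M : ℝ) + 1)),
    mul_one]
  have h2 : ‖ex (t / M) - ex (t / ((M + 1 : ℕ) : ℝ))‖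
      ≤ 2 * Real.pi * |t| * (1 / (M : ℝ) - 1 / ((M : ℝ) + 1)) := by
    refine (ex_lip _ _).trans ?_
    have e2 : t / (M : ℝ) - t / ((M + 1 : ℕ) : ℝ) = t * (1 / (M : ℝ) - 1 / ((M : ℝ) + 1)) := by
      push_cast
      ring
    rw [e2, abs_mul, abs_of_nonneg hd]
    apply le_of_eq
    ring
  have h3 : 1 / ((M : ℝ) + 1) ≤ 1 / (M₁ : ℝ) := one_div_le_one_div_of_le hM₁ (by linarith)
  have h4 : 1 / ((M : ℝ) + 1) * ‖ex (t / M) - ex (t / ((M + 1 : ℕ) : ℝ))‖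
      ≤ 1 / (M₁ : ℝ) * (2 * Real.pi * |t| * (1 / (M : ℝ) - 1 / ((M : ℝ) + 1))) :=
    mul_le_mul h3 h2 (norm_nonneg _) (by positivity)
  calc _ ≤ (1 / (M : ℝ) - 1 / ((M : ℝ) + 1))
        + 1 / (M₁ : ℝ) * (2 * Real.pi * |t| * (1 / (M : ℝ) - 1 / ((M : ℝ) + 1))) := by linarith
    _ = _ := by ring

end ABLM

open ABLM in
theorem specABL : SpecABL := by
  intro c M₁ M₂ B t h1 h12 hB
  have hM₁ : (0 : ℝ) < M₁ := by exact_mod_cast h1
  have hM₂ : (0 : ℝ) < M₂ := by exact_mod_cast h1.trans h12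
  have hMM : (M₁ : ℝ) ≤ M₂ := by exact_mod_cast h12
  have hpi := Real.pi_pos
  have hB0 : 0 ≤ B := by
    have := hB M₁ (by simp [h12])
    simpa using this
  have ha := abel (fun m => (1 / (m : ℂ)) * ex (t / m)) c M₁ M₂ h12
  rw [ha]
  refine (norm_add_le _ _).trans ?_
  have p1 : ‖(1 / (M₂ : ℂ)) * ex (t / M₂) * ∑ m ∈ Ioc M₁ M₂, c m‖ ≤ 1 / (M₂ : ℝ) * B := by
    rw [norm_mul, norm_mul, norm_ex, mul_one]
    apply mul_le_mul _ (hB M₂ (by simp [h12])) (norm_nonneg _) (by positivity)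
    rw [norm_div, norm_one, Complex.norm_natCast]
  have p2 : ‖∑ M ∈ Ico M₁ M₂, ((1 / (M : ℂ)) * ex (t / M)
      - (1 / ((M + 1 : ℕ) : ℂ)) * ex (t / ((M + 1 : ℕ) : ℝ))) * ∑ m ∈ Ioc M₁ M, c m‖
      ≤ (1 + 2 * Real.pi * |t| / M₁) * (1 / (M₁ : ℝ) - 1 / (M₂ : ℝ)) * B := by
    calc _ ≤ ∑ M ∈ Ico M₁ M₂, (1 + 2 * Real.pi * |t| / M₁) * (1 / (M : ℝ) - 1 / ((M : ℝ) + 1)) * B := by
          apply norm_sum_le_of_le
          intro M hM
          rw [Finset.mem_Ico] at hM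
          rw [norm_mul]
          have hM0 : (0 : ℝ) < M := by exact_mod_cast h1.trans hM.1
          have hd : 0 ≤ 1 / (M : ℝ) - 1 / ((M : ℝ) + 1) := by
            rw [sub_nonneg]
            exact one_div_le_one_div_of_le hM0 (by linarith)
          exact mul_le_mul (dphi t M₁ M h1 hM.1)
            (hB M (by rw [Finset.mem_Icc]; exact ⟨hM.1, hM.2.le⟩)) (norm_nonneg _)
            (mul_nonneg (by positivity) hd)
      _ = _ := by
          rw [← Finset.sum_mul, ← Finset.mul_sum, tele M₁ M₂ h12]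
  have h3 : 1 / (M₂ : ℝ) ≤ 1 / (M₁ : ℝ) := one_div_le_one_div_of_le hM₁ hMM
  have h4 : 0 ≤ 1 / (M₂ : ℝ) := by positivity
  have hK : 0 ≤ 1 + 2 * Real.pi * |t| / M₁ := by positivity
  calc _ ≤ 1 / (M₂ : ℝ) * B + (1 + 2 * Real.pi * |t| / M₁) * (1 / (M₁ : ℝ) - 1 / (M₂ : ℝ)) * B :=
        add_le_add p1 p2
    _ ≤ 1 / (M₁ : ℝ) * B + (1 + 2 * Real.pi * |t| / M₁) * (1 / (M₁ : ℝ)) * B := by
        apply add_le_add
        · exact mul_le_mul_of_nonneg_right h3 hB0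
        · apply mul_le_mul_of_nonneg_right _ hB0
          apply mul_le_mul_of_nonneg_left _ hK
          linarith
    _ = _ := by ring

end

end Pool.Agent.Lib.MP391708.U
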