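import Pool.Agent.Lib.MP_391708_nt.U.SpecU6a

/-!
# Project U, module AGB: the sum over the conductors for one `g`
-/

set_option autoImplicit false

namespace Pool.Agent.Lib.MP391708.U

open Finset Filter Topology Pool.Agent.Lib.MP391708.QPA
open scoped Classical

namespace AGBM

lemma bq_abs_le {b : ℕ → ℝ} (hb : ∀ u, |b u| ≤ 1) (g u : ℕ) : |BDH.bq g b u| ≤ 1 := by
  unfold BDH.bq
  split_ifs
  · exact hb u
  · rw [abs_zero]
    exact zero_le_one

lemma sum_sq_le {b : ℕ → ℝ} (hb : ∀ u, |b u| ≤ 1) (g X : ℕ) :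
    ∑ u ∈ Icc 1 X, (BDH.bq g b u) ^ 2 ≤ X := by
  calc ∑ u ∈ Icc 1 X, (BDH.bq g b u) ^ 2 ≤ ∑ _u ∈ Icc 1 X, (1 : ℝ) := by
        apply Finset.sum_le_sum
        intro u _
        exact (sq_le_one_iff_abs_le_one _).2 (bq_abs_le hb g u)
    _ = X := by rw [Finset.sum_const, Nat.card_Icc, nsmul_eq_mul, mul_one]; norm_num

lemma bad_le (hBADU : SpecBADU) {z : ℝ} {X g : ℕ} {b : ℕ → ℝ} (hz : 0 < z) (hg : 1 ≤ g)
    (hb : ∀ u, |b u| ≤ 1) (hr : ∀ u, b u ≠ 0 → Rough z u) :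
    ∑ u ∈ (Icc 1 X).filter (fun u => ¬ Nat.Coprime u g), |b u| ≤ 2 * Real.log g * X / z := by
  refine le_trans ?_ (hBADU z g X hz hg)
  rw [Finset.card_eq_sum_ones, Nat.cast_sum, Nat.cast_one, Finset.sum_filter, Finset.sum_filter]
  apply Finset.sum_le_sum
  intro u _
  by_cases h : Nat.Coprime u g
  · rw [if_neg (not_not.2 h), if_neg (fun h' => h'.2 h)]
  · rw [if_pos h]
    by_cases h0 : b u = 0
    · rw [h0, abs_zero]
      split_ifs <;> norm_num
    · rw [if_pos ⟨hr u h0, h⟩]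
      exact hb u

lemma char_le (hBADU : SpecBADU) {z t : ℝ} {X g r : ℕ} {b : ℕ → ℝ} (hz : 0 < z) (hg : 1 ≤ g)
    (hb : ∀ u, |b u| ≤ 1) (hr : ∀ u, b u ≠ 0 → Rough z u) (ψ : DirichletCharacter ℂ (r + 1))
    (h : ‖∑ u ∈ Icc 1 X, (b u : ℂ) * ψ (u : ZMod (r + 1))‖ ≤ t) :
    ‖∑ u ∈ Icc 1 X, ((BDH.bq g b u : ℝ) : ℂ) * ψ (u : ZMod (r + 1))‖ ≤
      t + 2 * Real.log g * X / z := by
  have h9 : ∑ u ∈ Icc 1 X, ((BDH.bq g b u : ℝ) : ℂ) * ψ (u : ZMod (r + 1)) =
      (∑ u ∈ Icc 1 X, (b u : ℂ) * ψ (u : ZMod (r + 1))) -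
      ∑ u ∈ (Icc 1 X).filter (fun u => ¬ Nat.Coprime u g),
        (b u : ℂ) * ψ (u : ZMod (r + 1)) := by
    rw [Finset.sum_filter, ← Finset.sum_sub_distrib]
    apply Finset.sum_congr rfl
    intro u _
    unfold BDH.bq
    by_cases h : Nat.Coprime u g
    · rw [if_pos h, if_neg (not_not.mpr h), sub_zero]
    · rw [if_neg h, if_pos h]
      simp
  have h10 : ‖∑ u ∈ (Icc 1 X).filter (fun u => ¬ Nat.Coprime u g),
        (b u : ℂ) * ψ (u : ZMod (r + 1))‖ ≤ 2 * Real.log g * X / z := by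
    refine le_trans (norm_sum_le _ _) (le_trans ?_ (bad_le (X := X) hBADU hz hg hb hr))
    apply Finset.sum_le_sum
    intro u _
    rw [norm_mul, Complex.norm_real, Real.norm_eq_abs]
    calc |b u| * ‖ψ (u : ZMod (r + 1))‖ ≤ |b u| * 1 :=
          mul_le_mul_of_nonneg_left (ψ.norm_le_one _) (abs_nonneg _)
      _ = _ := mul_one _
  rw [h9]
  exact (norm_sub_le _ _).trans (add_le_add h h10)

end AGBM

open AGBM

theorem specAGB (hBADU : SpecBADU) (hLSD : SpecLSD) : SpecAGB := by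
  obtain ⟨C, hC, hL⟩ := hLSD
  refine ⟨C, hC, ?_⟩
  intro z t X D R g b hz _ hX hR hg hb hr hψ
  obtain ⟨w, hw⟩ : ∃ w : ℝ, w = t + 2 * Real.log g * X / z := ⟨_, rfl⟩
  rw [← hw]
  have hnn : ∀ r : ℕ, 0 ≤ 1 / ((r + 1).totient : ℝ) * csum r (BDH.bq g b) X := fun r =>
    mul_nonneg (by positivity) (BDH.csum_nonneg r _ X)
  have h1 : ∑ r ∈ Ico 1 D, 1 / ((r + 1).totient : ℝ) * csum r (BDH.bq g b) X ≤
      ∑ r ∈ (Ico 1 D).filter (fun r => r + 1 ≤ R),
        1 / ((r + 1).totient : ℝ) * csum r (BDH.bq g b) X +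
      ∑ r ∈ (range D).filter (fun r => R ≤ r + 1),
        1 / ((r + 1).totient : ℝ) * csum r (BDH.bq g b) X := by
    rw [← Finset.sum_filter_add_sum_filter_not (Ico 1 D) (fun r => r + 1 ≤ R)]
    refine add_le_add le_rfl ?_
    apply Finset.sum_le_sum_of_subset_of_nonneg
    · intro r hr'
      rw [Finset.mem_filter, Finset.mem_Ico] at hr'
      rw [Finset.mem_filter, Finset.mem_range]
      exact ⟨hr'.1.2, by omega⟩
    · intro r _ _
      exact hnn r
  have h2 : ∑ r ∈ (Ico 1 D).filter (fun r => r + 1 ≤ R),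
      1 / ((r + 1).totient : ℝ) * csum r (BDH.bq g b) X ≤ R * w ^ 2 := by
    have h3 : ∀ r ∈ (Ico 1 D).filter (fun r => r + 1 ≤ R),
        1 / ((r + 1).totient : ℝ) * csum r (BDH.bq g b) X ≤ w ^ 2 := by
      intro r hr'
      rw [Finset.mem_filter, Finset.mem_Ico] at hr'
      have hφr : (0 : ℝ) < (r + 1).totient := by exact_mod_cast Nat.totient_pos.2 (by omega)
      have h4 := BDH.csum_le hr'.1.1 (b := BDH.bq g b) (X := X) (t := w) (fun ψ hψ1 => by
        rw [hw]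
        exact char_le hBADU hz hg hb hr ψ (hψ r hr'.1.1 hr'.2 ψ hψ1))
      calc 1 / ((r + 1).totient : ℝ) * csum r (BDH.bq g b) X ≤
            1 / ((r + 1).totient : ℝ) * (((r + 1).totient : ℝ) * w ^ 2) :=
            mul_le_mul_of_nonneg_left h4 (by positivity)
        _ = w ^ 2 := by field_simp
    refine (Finset.sum_le_sum h3).trans ?_
    rw [Finset.sum_const, nsmul_eq_mul]
    have h5 : (((Ico 1 D).filter (fun r => r + 1 ≤ R)).card : ℝ) ≤ R := by
      have h6 : (Ico 1 D).filter (fun r => r + 1 ≤ R) ⊆ range R := by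
        intro r hr'
        rw [Finset.mem_filter] at hr'
        rw [Finset.mem_range]
        omega
      have h7 := Finset.card_le_card h6
      rw [Finset.card_range] at h7
      exact_mod_cast h7
    exact mul_le_mul_of_nonneg_right h5 (sq_nonneg _)
  have h3 := hL X D R (BDH.bq g b) hX hR
  have h4 : C * ((X : ℝ) / R + D) * ∑ u ∈ Icc 1 X, (BDH.bq g b u) ^ 2 ≤
      C * ((X : ℝ) / R + D) * X :=
    mul_le_mul_of_nonneg_left (sum_sq_le hb g X) (by positivity)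
  linarith

end Pool.Agent.Lib.MP391708.U
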