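import Pool.Agent.Lib.MP_391708_nt.U.SpecU
import Pool.Agent.Lib.MP_391708_nt.QPA.WB
import Pool.Agent.Lib.MP_391708_nt.QPA.BDH

/-!
# Project U, part U6a: balanced functions (`Bal`): BDHU, WBU, BALU

`T = log N` throughout.
-/

set_option autoImplicit false

namespace Pool.Agent.Lib.MP391708.U

open Finset Filter Topology Pool.Agent.Lib.MP391708.QPA
open scoped Classical

noncomputable section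

/-- `b` is balanced at the level `B`: for every nonprincipal character of every modulus `≤ T^B`, and for the constant
character (modulus `1`), the sums over all intervals are at most `L/T^B`. -/
def Bal (N : ℕ) (L B : ℝ) (b : ℕ → ℝ) : Prop := ∀ r : ℕ, ((r : ℝ) + 1) ≤ (Real.log N) ^ B →
  ∀ ψ : DirichletCharacter ℂ (r + 1), (r = 0 ∨ ψ ≠ 1) → ∀ x₁ x₂ : ℕ,
    ‖∑ u ∈ Ioc x₁ x₂, (b u : ℂ) * ψ (u : ZMod (r + 1))‖ ≤ L / (Real.log N) ^ B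

/-- BDHU (from BDHF). Proof. `X = ⌊2L⌋`, `b' = b/T^C₀` on `(x, y]`, `0` elsewhere: `Vd (Ioc x y) b D₀ = T^(2C₀) Vd (Icc 1 X) b' D₀`.
`B₁ = B + 2C₀ + 5`, `z = T^B₁`, `t = L T^(-B₁)` (`Bal`; the character modulo `1` is the constant `1`; `T^(-C₀) ≤ 1`),
`R = ⌊T^(B + 2C₀ + 3)⌋`, `8 D₀ ≤ 8 N^(2/5) ≤ X`.  `log X ≤ 3T`.  With `P = B + 2C₀` BDHF gives
`≤ C (4T) (4 L² T^(-P-5) + T^(P+3) (L T^(-P-5) (1 + 12 T))² + (4 L T^(-P-3) + N^(2/5)) 2L) = O(T^(-P-2)) L²`. -/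
def SpecBDHU : Prop := ∀ B C₀ : ℝ, 0 < B → 0 ≤ C₀ → ∃ B₁ : ℝ, 0 < B₁ ∧ ∃ N₀ : ℕ, ∀ (N : ℕ) (L : ℝ) (b : ℕ → ℝ),
  N₀ ≤ N → (N : ℝ) ≤ L → L ≤ (N : ℝ) ^ 2 → (∀ u, |b u| ≤ (Real.log N) ^ C₀) →
  (∀ u, b u ≠ 0 → L < (u : ℝ) ∧ (u : ℝ) ≤ 2 * L ∧ Rough ((Real.log N) ^ B₁) u) → Bal N L B₁ b →
  ∀ x y D₀ : ℕ, 1 ≤ D₀ → (D₀ : ℝ) ≤ (N : ℝ) ^ (2 / 5 : ℝ) → Vd (Ioc x y) b D₀ ≤ L ^ 2 / (Real.log N) ^ B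

/-- WBU (from BDHU, WBX). Proof. `s = T^C₀` (constant): `#{u ∈ (x,x+H] : u ≡ c mod 4d} ≤ H/(4d) + 1 ≤ 2H/d`, so
`WB.Sv N (2 T^(C₀+1)) s` (`φ(d) ≤ d`).  `E = B + 2C₀ + 1`, `k = ⌈E log T/log 2⌉` (`≥ 2` for `N` large), so `T^E ≤ 2^k ≤ 2 T^E ≤ N^e ≤ √(L/K)`, `k ≤ T`.
`J = ⌈T^(4E)⌉`, `η = 1/4`, `G = L²/T^(B + 8E + 2)` (BDHU; `pc L η J i` is an `Ioc`; `N ≤ L ≤ N²` because `L = √(KL) √(L/K)`).  The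
three terms of WBX: `C 4T^(2C₀+2) T^(-E) L/T² = 4C L T^(-B-1)`, `T (2T^(4E))² L T^(-B-8E-2) = 4 L T^(-B-1)`,
`C 4T^(2C₀+2) 8 T^(3E) T^(-4E) L/T² = 32 C L T^(-B-1)`. -/
def SpecWBU : Prop := ∀ B C₀ e : ℝ, 0 < B → 0 ≤ C₀ → 0 < e → ∃ B₁ : ℝ, 0 < B₁ ∧ ∃ N₀ : ℕ,
  ∀ (N : ℕ) (K L : ℝ) (b : ℕ → ℝ), N₀ ≤ N → 1 ≤ K → K ≤ L → (N : ℝ) ^ 2 / 2 ≤ K * L →
  K * L ≤ 5 * (N : ℝ) ^ 2 → (N : ℝ) ^ e ≤ √(L / K) → √(L / K) ≤ (N : ℝ) ^ (2 / 5 : ℝ) →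
  (∀ u, |b u| ≤ (Real.log N) ^ C₀) →
  (∀ u, b u ≠ 0 → L < (u : ℝ) ∧ (u : ℝ) ≤ 5 / 4 * L ∧ Rough ((Real.log N) ^ B₁) u) → Bal N L B₁ b →
  |Wsum K L b| ≤ L / (Real.log N) ^ B

/-- RCH (from FL): characters and rough numbers, `z = w + 1`. Proof. For `(c,q) = 1` (`q = r + 1 ≤ T^W`) FL with `S = {l ∈ (x,x+H] : l ≡ c mod q}`,
`om = 1`, `v l = l`, `X = H/q`, `g(p) = 1/p` if `p ∤ q`, `0` if `p ∣ q`.  For squarefree `δ`: `(δ,q) > 1`: no `l ∈ S` is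
divisible by `δ` and `∏ g = 0`; `(δ,q) = 1`: one class modulo `qδ`, `|# - H/(qδ)| ≤ 1`.  So
`|∑_{l∈S} rInd z l - (H/q) ∏_{p<z,p∤q}(1-1/p)| ≤ C e^(-b) H/q + C (1 + log z) z^(8b+16)`, with `b = ⌈(B+1) log T⌉`: `C e^(-b) ≤ T^(-B)`, and
`q C (1 + log z) z^(8b+16) ≤ exp(C' (log T)²) ≤ N^(1/10)`.  Multiply by `ψ(c)` and sum over the reduced classes: the main terms are equal and
`∑_c ψ(c) = 0`; `ψ(l) = 0` in the other classes.  First statement: `q = 1`. -/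
def SpecRCH : Prop := ∀ B W : ℝ, 0 < B → 0 < W → ∃ N₀ : ℕ, ∀ (N w : ℕ), N₀ ≤ N → 2 ≤ w →
  (w : ℝ) ≤ (Real.log N) ^ W → ∀ x H : ℕ,
  |(∑ l ∈ Ioc x (x + H), rInd ((w : ℝ) + 1) l) - H * Wp ((w : ℝ) + 1)|
    ≤ H / (Real.log N) ^ B + (N : ℝ) ^ (1 / 10 : ℝ) ∧
  ∀ r : ℕ, ((r : ℝ) + 1) ≤ (Real.log N) ^ W → ∀ ψ : DirichletCharacter ℂ (r + 1), ψ ≠ 1 →
    ‖∑ l ∈ Ioc x (x + H), (rInd ((w : ℝ) + 1) l : ℂ) * ψ (l : ZMod (r + 1))‖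
      ≤ H / (Real.log N) ^ B + (N : ℝ) ^ (1 / 10 : ℝ)

/-- BALU (from RCH): `β - β^♯` is balanced. Proof. `B₂ = B₁ + 1`, `V₀ = B₁ + C₀ + 1`. `|Dav i| ≤ T^C₀ |pc i|/(ηL/J) ≤ 2T^C₀` (`||pc i| - ηL/J| ≤ 1`,
`ηL/J ≥ N^(1/2)`). `Vw w * Wp (w+1) = 1`, `Vw w ≤ w + 1 ≤ 2T^W` (`∏_{2≤n≤w} n/(n-1) = w`). RCH with `B' = B₁ + C₀ + W + 2` and `max W B₁`.
`ψ ≠ 1`: `|∑ β ψ| ≤ L/T^(B₁+1)`, and `∑ sharp ψ` is the sum over `i` of `Dav i * Vw w` times a sum over an interval inside `pc i`: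
`≤ 2T^C₀ 2T^W (2ηL/T^B' + J N^(1/10))`. Constant character: by differences it is enough to bound `F(x) = ∑_{u≤x} (β - β^♯)(u)`. A whole piece: the sum
of `β` is `Dav i * (ηL/J)`, the sum of `β^♯` is `Dav i * Vw w * (|pc i| Wp(w+1) + O(|pc i|/T^B' + N^(1/10)))`, so the difference is at most
`2T^C₀ (1 + 2T^W (2ηL/J/T^B' + N^(1/10)))`; sum over `i < J`. One incomplete piece: `∑|β| ≤ T^C₀ 2ηL/J`,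
`∑|β^♯| ≤ 2T^C₀ (|I| + 2T^W (|I|/T^B' + N^(1/10)))`, together `≤ 10 T^C₀ L/J ≤ 10 L T^(-B₁-1)`. -/
def SpecBALU : Prop := ∀ B₁ C₀ : ℝ, 0 < B₁ → 0 ≤ C₀ → ∃ B₂ V₀ : ℝ, 0 < B₂ ∧ 0 < V₀ ∧ ∀ W V : ℝ, 0 < W → V₀ ≤ V →
  ∃ N₀ : ℕ, ∀ (N w J : ℕ) (L η : ℝ) (β : ℕ → ℝ), N₀ ≤ N → 2 ≤ w → (w : ℝ) ≤ (Real.log N) ^ W →
  (Real.log N) ^ V₀ ≤ J → (J : ℝ) ≤ (Real.log N) ^ V → (N : ℝ) ≤ L → L ≤ (N : ℝ) ^ 2 →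
  (Real.log N) ^ (-W) ≤ η → η ≤ 1 / 4 → (∀ l, |β l| ≤ (Real.log N) ^ C₀) →
  (∀ l, β l ≠ 0 → L < (l : ℝ) ∧ (l : ℝ) ≤ (1 + η) * L) →
  (∀ r : ℕ, ((r : ℝ) + 1) ≤ (Real.log N) ^ B₁ → ∀ ψ : DirichletCharacter ℂ (r + 1), ψ ≠ 1 → ∀ x₁ x₂ : ℕ,
    ‖∑ l ∈ Ioc x₁ x₂, (β l : ℂ) * ψ (l : ZMod (r + 1))‖ ≤ L / (Real.log N) ^ B₂) →
  Bal N L B₁ (fun l => β l - sharp w L η J β l)

/-! ## sub-Props -/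

/-- TPH (no hypotheses). Proof. `BDH.div_totient_le`: `g/φ(g) ≤ ∑_{e∣g} 1/φ(e)`, so
`∑_{g≤M} 1/φ(g) ≤ ∑_{e≤M} 1/(e φ(e)) ∑_{m≤M/e} 1/m ≤ C (1 + log M)` by `BDH.sum_inv` and
`∑_{m≤M} 1/m ≤ 1 + log M` (`harmonic_le_one_add_log`). -/
def SpecTPH : Prop := ∃ C : ℝ, 0 < C ∧ ∀ M : ℕ, 1 ≤ M →
  ∑ g ∈ Icc 1 M, 1 / (g.totient : ℝ) ≤ C * (1 + Real.log M)

/-- BADU (no hypotheses). Proof. If `u` is `z`-rough and not coprime to `n`, some prime `p ≥ z` divides `u` and `n`; at most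
`X/p ≤ X/z` of the `u ≤ X` are divisible by `p`, and `n` has at most `log n/log 2 ≤ 2 log n` prime factors (`2^ω(n) ≤ n`). -/
def SpecBADU : Prop := ∀ (z : ℝ) (n X : ℕ), 0 < z → 1 ≤ n →
  (((Icc 1 X).filter (fun u => Rough z u ∧ ¬ Nat.Coprime u n)).card : ℝ) ≤ 2 * Real.log n * X / z

/-- NCC (no hypotheses): the classes which are not reduced. Proof. `A_c = ∑_{u ≡ c} b u` satisfies `A_c² ≤ (∑|b u|)(∑|b v|)`, the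
second factor is `≤ #{v ≤ X : v ≡ c mod 4d} ≤ X/(4d) + 1 ≤ X/(2d)` (`4d ≤ 8D₀ ≤ X`). So the sum over the `c` with `(c,4d) > 1` is at
most `X/(2d) #{u ≤ X : b u ≠ 0, (u,4d) > 1}` (`gcd(u,4d) = gcd(c,4d)`). Such a `u` has a prime factor `p ≥ z > 2` with
`p ∣ 4d`, so `p ∣ d`: at most `∑_{p∣d, p≥z} X/p` of them. For given `n ≥ z` there are `≤ 3D₀/n` multiples `d` of `n` in `(D₀,2D₀]`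
(none if `n > 2D₀`, otherwise `≤ D₀/n + 1`), each with `1/d ≤ 1/D₀`. Total `≤ (X²/2) 3 ∑_{n≥z} 1/n² ≤ 3X²/z`
(`∑_{z≤n≤M} 1/n² ≤ 1/(⌈z⌉-1) ≤ 2/z`). -/
def SpecNCC : Prop := ∀ (z : ℝ) (X D₀ : ℕ) (b : ℕ → ℝ), 2 < z → 1 ≤ D₀ → 8 * D₀ ≤ X → (∀ u, |b u| ≤ 1) →
  (∀ u, b u ≠ 0 → Rough z u) →
  ∑ d ∈ Ioc D₀ (2 * D₀), ∑ c ∈ (range (4 * d)).filter (fun c => ¬ Nat.Coprime c (4 * d)),
    (∑ u ∈ (Icc 1 X).filter (fun u => u % (4 * d) = c), b u) ^ 2 ≤ 8 * (X : ℝ) ^ 2 / z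

/-- LSD (from LS): the large moduli. Proof. `F(n) = ∑_{r<n} (r+1)/φ(r+1) csum r b X ≤ C (X + n²) ∑ b²` (LS; `F` is nondecreasing).
`1/φ(r+1) = ((r+1)/φ(r+1))/(r+1)`, so by partial summation the sum over `R ≤ r+1 ≤ D` is
`≤ F(D)/D + ∑_{R≤n<D} F(n) (1/n - 1/(n+1)) ≤ C ∑b² (X/D + D + ∑_{R≤n<D} (X/(n(n+1)) + 1)) ≤ C ∑b² (2X/R + 2D)`
(or dyadic blocks of `r+1`). -/
def SpecLSD : Prop := ∃ C : ℝ, 0 < C ∧ ∀ (X D R : ℕ) (b : ℕ → ℝ), 1 ≤ X → 1 ≤ R →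
  ∑ r ∈ (range D).filter (fun r => R ≤ r + 1), 1 / ((r + 1).totient : ℝ) * csum r b X
    ≤ C * ((X : ℝ) / R + D) * ∑ u ∈ Icc 1 X, (b u) ^ 2

/-- AGB (from BADU, LSD): the sum over the conductors, for one `g`. `t` bounds the character sums of `b` to the small moduli.
Proof. `b' = BDH.bq g b` (`b` on the integers coprime to `g`). For `r ≥ 1`, `r + 1 ≤ R`, `ψ ≠ 1` modulo `r+1`:
`|∑ b' ψ| ≤ |∑ b ψ| + #{u ≤ X : b u ≠ 0, (u,g) > 1} ≤ t + 2 log g X/z` (BADU), so `BDH.csum_le` gives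
`1/φ(r+1) csum r b' X ≤ (t + 2 log g X/z)²`; there are `≤ R` such `r`. For `r + 1 > R`: LSD with `R+1`, `∑ b'² ≤ X`. -/
def SpecAGB : Prop := ∃ C : ℝ, 0 < C ∧ ∀ (z t : ℝ) (X D R g : ℕ) (b : ℕ → ℝ), 0 < z → 0 ≤ t → 1 ≤ X → 1 ≤ R →
  1 ≤ g → (∀ u, |b u| ≤ 1) → (∀ u, b u ≠ 0 → Rough z u) →
  (∀ r : ℕ, 1 ≤ r → r + 1 ≤ R → ∀ ψ : DirichletCharacter ℂ (r + 1), ψ ≠ 1 →
    ‖∑ u ∈ Icc 1 X, (b u : ℂ) * ψ (u : ZMod (r + 1))‖ ≤ t) →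
  ∑ r ∈ Ico 1 D, 1 / ((r + 1).totient : ℝ) * csum r (BDH.bq g b) X
    ≤ R * (t + 2 * Real.log g * X / z) ^ 2 + C * ((X : ℝ) / R + D) * X

/-- BDHF (from TPH, BADU, NCC, AGB): the finite form of BDHB. Proof. Classes with `(c,4d) > 1`: NCC. Reduced classes:
`A_c² ≤ 2 (A_c - S/φ(4d))² + 2 S²/φ(4d)²`, `S = ∑ b`, `|S| ≤ t`; the second part contributes `2 t² ∑_d 1/φ(4d) ≤ C t²`
(`BDH.sumphi`, `m = 1`). `BDH.variance` and `BDH.char_split`: the first part is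
`≤ 2/φ(4d) (∑_{r≥1, r+1∣4d} csum r (bq (4d) b) X + E_d²)`, `|E_d| ≤ 2 log(4d) X/z` (BADU), `4d ≤ 8D₀`. `BDH.reduction` (`z > 2`): the
sum over `d` of the character part is `≤ C ∑_{g≤2D₀} 1/φ(g) ∑_{1≤r<8D₀} 1/φ(r+1) csum r (bq g b) X`: AGB with `D = 8D₀`, and TPH with
`M = 2D₀`. -/
def SpecBDHF : Prop := ∃ C : ℝ, 0 < C ∧ ∀ (z t : ℝ) (X D₀ R : ℕ) (b : ℕ → ℝ), 2 < z → 0 ≤ t → 1 ≤ D₀ → 8 * D₀ ≤ X →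
  1 ≤ R → (∀ u, |b u| ≤ 1) → (∀ u, b u ≠ 0 → 1 ≤ u ∧ u ≤ X ∧ Rough z u) → |∑ u ∈ Icc 1 X, b u| ≤ t →
  (∀ r : ℕ, 1 ≤ r → r + 1 ≤ R → ∀ ψ : DirichletCharacter ℂ (r + 1), ψ ≠ 1 →
    ‖∑ u ∈ Icc 1 X, (b u : ℂ) * ψ (u : ZMod (r + 1))‖ ≤ t) →
  Vd (Icc 1 X) b D₀ ≤ C * (1 + Real.log X) * ((X : ℝ) ^ 2 / z
    + R * (t + 2 * Real.log X * X / z) ^ 2 + ((X : ℝ) / R + D₀) * X)

/-- WBX (no hypotheses): WB with explicit dependence. Proof. The landed proof of `specWB` (`QPA/WB.lean`) with `w = (1/2)^k`: small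
`d`: `36 B² C₀ w L/(log N)²` (`Wd_small`, `sum_ratio`); large `d` (`Wd_large`, `ker_diff`, `S2`, `blocks`, `sum_inv_tot`):
`k J² G/L + η B² C₀ (M+2)/(w³ J) L/(log N)²`. -/
def SpecWBX : Prop := ∃ C : ℝ, 0 < C ∧ ∀ (B K L η e G : ℝ) (N J k : ℕ) (b s : ℕ → ℝ), 0 < B → WB.Siz N K L e →
  WB.Sv N B s → 0 < η → η ≤ 1 / 4 → 2 ≤ k → (2 : ℝ) ^ k ≤ √(L / K) → 1 ≤ J → 0 ≤ G → (∀ u, |b u| ≤ s u) →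
  (∀ u, b u ≠ 0 → L < (u : ℝ) ∧ (u : ℝ) ≤ (1 + η) * L) →
  (∀ i : ℕ, i < J → ∀ D₀ : ℕ, 1 ≤ D₀ → (D₀ : ℝ) ≤ √(L / K) → Vd (pc L η J i) b D₀ ≤ G) →
  |Wsum K L b| ≤ C * B ^ 2 * (1 / 2 : ℝ) ^ k * L / (Real.log N) ^ 2 + k * (J : ℝ) ^ 2 * G / L
    + C * B ^ 2 * (8 : ℝ) ^ k / J * L / (Real.log N) ^ 2

end

end Pool.Agent.Lib.MP391708.U
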