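import Pool.Agent.Lib.MP_391708_nt.U.SpecU5
import Pool.Agent.Lib.MP_391708_nt.QPA.Prod

/-!
# PRODU: `W_a(z) ≈ G_w(a) W(z)` for almost all `a`, with `w` a power of the logarithm
-/

set_option autoImplicit false

namespace Pool.Agent.Lib.MP391708.U

open Finset Filter Topology
open Pool.Agent.Lib.MP391708.QPA

namespace PRODUM

/-- powers of the logarithm are smaller than powers -/
lemma ev_log_pow (B c K : ℝ) (hc : 0 < c) :
    ∀ᶠ N : ℕ in atTop, K * (Real.log N) ^ B ≤ (N : ℝ) ^ c := by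
  have h1 := (isLittleO_log_rpow_rpow_atTop B hc).def (show 0 < 1 / (|K| + 1) by positivity)
  have h2 := tendsto_natCast_atTop_atTop (R := ℝ) |>.eventually h1
  filter_upwards [h2, eventually_ge_atTop 1] with N hN hN1
  have hN1' : (1 : ℝ) ≤ N := by exact_mod_cast hN1
  have h3 : 0 ≤ (Real.log N) ^ B := Real.rpow_nonneg (Real.log_nonneg hN1') _
  have h4 : 0 ≤ (N : ℝ) ^ c := by positivity
  rw [Real.norm_of_nonneg h3, Real.norm_of_nonneg h4, one_div_mul_eq_div, le_div_iff₀ (by positivity)] at hN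
  calc K * (Real.log N) ^ B ≤ (|K| + 1) * (Real.log N) ^ B := by
        apply mul_le_mul_of_nonneg_right _ h3
        linarith [le_abs_self K]
    _ = (Real.log N) ^ B * (|K| + 1) := by ring
    _ ≤ _ := hN

end PRODUM

open Pool.Agent.Lib.MP391708.QPA.Prod
open scoped Classical

/-- Module PRODX. -/
theorem specPRODX (hP : SpecRHOP) (hV : SpecPVA) : SpecPRODX := by
  intro δ B e0 hδ hB he0 he1
  obtain ⟨C, hC0, hC⟩ := hV (1 / 2) (by norm_num)
  set t : ℝ := min δ 1 / 4 with ht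
  have ht0 : 0 < t := by
    rw [ht]
    have : 0 < min δ 1 := lt_min hδ one_pos
    linarith
  have ht1 : t ≤ 1 / 4 := by
    rw [ht]
    have : min δ 1 ≤ 1 := min_le_right _ _
    linarith
  have htδ : 4 * t ≤ δ := by
    rw [ht]
    have : min δ 1 ≤ δ := min_le_left _ _
    linarith
  -- N large
  obtain ⟨N₀, hN₀⟩ := eventually_atTop.1
    ((((tendsto_rpow_atTop (show 0 < B + 1 by linarith)).comp
      (Real.tendsto_log_atTop.comp tendsto_natCast_atTop_atTop)).eventually_ge_atTop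
        (3 / t + 5)).and ((PRODUM.ev_log_pow B (3 / 4 - 1 / 5) (8 * C / t ^ 2) (by norm_num)).and
      (((Real.tendsto_log_atTop.comp tendsto_natCast_atTop_atTop).eventually_ge_atTop
        (12 / t ^ 2 + 1)).and (eventually_ge_atTop 1))))
  refine ⟨N₀, fun N A w hN hA hwlow hz => ?_⟩
  obtain ⟨hw3, hN2, hlog, hN1⟩ := hN₀ N hN
  simp only [Function.comp_apply] at hw3 hN2 hlog
  set T : ℝ := Real.log N with hT
  have hT1 : 1 ≤ T := by
    have : 0 ≤ 12 / t ^ 2 := by positivity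
    linarith
  have hwr : 3 / t + 5 ≤ (w : ℝ) := hw3.trans hwlow
  have hw5 : (5 : ℝ) ≤ w := by
    have : 0 ≤ 3 / t := by positivity
    linarith
  have hw4 : 4 ≤ w := by
    have : ((4 : ℕ) : ℝ) ≤ w := by push_cast; linarith
    exact_mod_cast this
  have hwpos : (0 : ℝ) < (w : ℝ) - 1 := by linarith
  have h3t : 3 / ((w : ℝ) - 1) ≤ t := by
    rw [div_le_iff₀ hwpos]
    have : 3 / t ≤ (w : ℝ) - 1 := by linarith
    rw [div_le_iff₀ ht0] at this
    linarith
  set z : ℝ := (N : ℝ) ^ e0 with hzdef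
  have hNr : (1 : ℝ) ≤ N := by exact_mod_cast hN1
  have hz1 : 1 ≤ z := Real.one_le_rpow hNr he0.le
  have hz2 : z ≤ (N : ℝ) ^ (1 / 10 : ℝ) := Real.rpow_le_rpow_of_exponent_le hNr he1
  have hTB : 0 < T ^ B := Real.rpow_pos_of_pos (by linarith) _
  -- bad set
  have hsub : (IA A).filter (fun a => ¬ |Wa z a - Gw w a * Wp z| ≤ δ * (Gw w a * Wp z)) ⊆
      (IA A).filter (fun a => t < |S w z a|) := by
    intro a ha
    rw [mem_filter] at ha ⊢
    refine ⟨ha.1, ?_⟩
    by_contra hcon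
    rw [not_lt] at hcon
    apply ha.2
    obtain ⟨hpos, hlog'⟩ := log_prod hP hw4 z a
    rw [Wa_eq hz a]
    set R := ∏ p ∈ P w z, fac a p with hR
    have h1 : |Real.log R| ≤ 2 * t := by
      have : Real.log R = (Real.log R + S w z a) - S w z a := by ring
      rw [this]
      refine (abs_sub _ _).trans ?_
      linarith
    have h2 : |R - 1| ≤ δ := by
      have h3 : |Real.exp (Real.log R) - 1| ≤ 2 * |Real.log R| :=
        Real.abs_exp_sub_one_le (by linarith)
      rw [Real.exp_log hpos] at h3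
      linarith
    have h3 : 0 ≤ Gw w a * Wp z := mul_nonneg (Gw_nonneg w a) (Wp_nonneg z)
    have h4 : Gw w a * Wp z * R - Gw w a * Wp z = Gw w a * Wp z * (R - 1) := by ring
    rw [h4, abs_mul, abs_of_nonneg h3, mul_comm δ]
    exact mul_le_mul_of_nonneg_left h2 h3
  have hcheb : (((IA A).filter (fun a => t < |S w z a|)).card : ℝ) * t ^ 2
      ≤ ∑ a ∈ IA A, (S w z a) ^ 2 := by
    calc _ = ∑ a ∈ (IA A).filter (fun a => t < |S w z a|), t ^ 2 := by
          rw [sum_const, nsmul_eq_mul]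
      _ ≤ ∑ a ∈ (IA A).filter (fun a => t < |S w z a|), (S w z a) ^ 2 := by
          refine sum_le_sum fun a ha => ?_
          have := (mem_filter.1 ha).2
          rw [← sq_abs (S w z a)]
          exact pow_le_pow_left₀ ht0.le this.le 2
      _ ≤ _ := sum_le_sum_of_subset_of_nonneg (filter_subset _ _) fun a _ _ => sq_nonneg _
  have hmom := moment hC0 hC hw4 (z := z) (by linarith) A
  have hA1 : (1 : ℝ) ≤ A := le_trans (Real.one_le_rpow hNr (by norm_num)) hA
  have hfin : (2 * (A : ℝ) + 1) / ((w : ℝ) - 1) + C * (z + 1) ^ 2 ≤ A / T ^ B * t ^ 2 := by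
    have h1 : (2 * (A : ℝ) + 1) / ((w : ℝ) - 1) ≤ A / T ^ B * t ^ 2 / 2 := by
      have e1 : (2 * (A : ℝ) + 1) / ((w : ℝ) - 1) ≤ 6 * A / w := by
        rw [div_le_div_iff₀ hwpos (by linarith)]
        nlinarith
      have e2 : T ^ (B + 1) = T ^ B * T := by
        rw [Real.rpow_add (by linarith), Real.rpow_one]
      have e3 : 12 / t ^ 2 ≤ T := by linarith
      rw [div_le_iff₀ (by positivity)] at e3
      refine e1.trans ?_
      have e4 : A / T ^ B * t ^ 2 / 2 = A * t ^ 2 / (2 * T ^ B) := by field_simp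
      rw [e4, div_le_div_iff₀ (by linarith) (by positivity)]
      rw [e2] at hwlow
      have e5 : (12 : ℝ) * T ^ B ≤ t ^ 2 * w := by
        calc (12 : ℝ) * T ^ B ≤ T * t ^ 2 * T ^ B := mul_le_mul_of_nonneg_right e3 hTB.le
          _ = t ^ 2 * (T ^ B * T) := by ring
          _ ≤ t ^ 2 * w := mul_le_mul_of_nonneg_left hwlow (by positivity)
      have e6 := mul_le_mul_of_nonneg_left e5 (show (0 : ℝ) ≤ A by linarith)
      linarith
    have h2 : C * (z + 1) ^ 2 ≤ A / T ^ B * t ^ 2 / 2 := by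
      have h3 : (z + 1) ^ 2 ≤ 4 * z ^ 2 := by nlinarith
      have h4 : z ^ 2 ≤ (N : ℝ) ^ (1 / 5 : ℝ) := by
        calc z ^ 2 ≤ ((N : ℝ) ^ (1 / 10 : ℝ)) ^ 2 := pow_le_pow_left₀ (by linarith) hz2 2
          _ = _ := by
            rw [← Real.rpow_natCast, ← Real.rpow_mul (by linarith)]
            norm_num
      have h5 : 8 * C / t ^ 2 * T ^ B * (N : ℝ) ^ (1 / 5 : ℝ) ≤ A := by
        refine le_trans ?_ hA
        calc _ ≤ (N : ℝ) ^ (3 / 4 - 1 / 5 : ℝ) * (N : ℝ) ^ (1 / 5 : ℝ) :=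
              mul_le_mul_of_nonneg_right hN2 (by positivity)
          _ = _ := by
            rw [← Real.rpow_add (by linarith)]
            norm_num
      have h6 : 8 * C * T ^ B * (N : ℝ) ^ (1 / 5 : ℝ) ≤ A * t ^ 2 := by
        have e : 8 * C / t ^ 2 * T ^ B * (N : ℝ) ^ (1 / 5 : ℝ)
            = 8 * C * T ^ B * (N : ℝ) ^ (1 / 5 : ℝ) / t ^ 2 := by ring
        rw [e, div_le_iff₀ (by positivity)] at h5
        exact h5
      have h7 : A / T ^ B * t ^ 2 / 2 = A * t ^ 2 / (2 * T ^ B) := by field_simp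
      rw [h7, le_div_iff₀ (by positivity)]
      calc C * (z + 1) ^ 2 * (2 * T ^ B) ≤ C * (4 * (N : ℝ) ^ (1 / 5 : ℝ)) * (2 * T ^ B) := by
            apply mul_le_mul_of_nonneg_right _ (by positivity)
            exact mul_le_mul_of_nonneg_left (h3.trans (by linarith)) hC0.le
        _ = 8 * C * T ^ B * (N : ℝ) ^ (1 / 5 : ℝ) := by ring
        _ ≤ _ := h6
    linarith
  have hcard : (((IA A).filter (fun a => ¬ |Wa z a - Gw w a * Wp z|
      ≤ δ * (Gw w a * Wp z))).card : ℝ) ≤ (((IA A).filter (fun a => t < |S w z a|)).card : ℝ) := by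
    exact_mod_cast card_le_card hsub
  have h7 : (((IA A).filter (fun a => t < |S w z a|)).card : ℝ) * t ^ 2 ≤ A / T ^ B * t ^ 2 :=
    hcheb.trans (hmom.trans hfin)
  exact hcard.trans (le_of_mul_le_mul_right h7 (by positivity))

/-- Module PRODU. -/
theorem specPRODU (hP : SpecRHOP) (hV : SpecPVA) : SpecPRODU := by
  intro δ B hδ hB
  refine ⟨B + 1, by linarith, fun W hW e0 he0 he1 => ?_⟩
  obtain ⟨N₁, h1⟩ := specPRODX hP hV δ B e0 hδ hB he0 he1
  obtain ⟨N₂, h2⟩ := eventually_atTop.1 (((Real.tendsto_log_atTop.comp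
    tendsto_natCast_atTop_atTop).eventually_ge_atTop (2 : ℝ)).and
    (PRODUM.ev_log_pow W e0 3 he0))
  refine ⟨max N₁ N₂, fun N A hN hA => ?_⟩
  obtain ⟨h3, h4⟩ := h2 N ((le_max_right _ _).trans hN)
  simp only [Function.comp_apply] at h3
  have h5 : (1 : ℝ) ≤ (Real.log N) ^ W := Real.one_le_rpow (by linarith) (by linarith)
  apply h1 N A (wN W N) ((le_max_left _ _).trans hN) hA
  · refine le_trans ?_ (Nat.le_ceil _)
    exact Real.rpow_le_rpow_of_exponent_le (by linarith) hW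
  · have h6 := Nat.ceil_lt_add_one (show 0 ≤ (Real.log N) ^ W by linarith)
    unfold wN
    linarith

end Pool.Agent.Lib.MP391708.U
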