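import Pool.Agent.Lib.MP_391708_nt.U.SpecU5
import Pool.Agent.Lib.MP_391708_nt.U.PRODU
import Pool.Agent.Lib.MP_391708_nt.QPA.F6

/-!
# F6U: the constant `h_a` against `G_w(a)`, with `w` a power of the logarithm
-/

set_option autoImplicit false

namespace Pool.Agent.Lib.MP391708.U

open Finset Filter Topology
open Pool.Agent.Lib.MP391708.QPA

namespace F6UM

/-- `log A → ∞` along the natural numbers -/
lemma tlog : Tendsto (fun A : ℕ => Real.log A) atTop atTop :=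
  Real.tendsto_log_atTop.comp tendsto_natCast_atTop_atTop

/-- the second term of TLU -/
lemma ev_exp (K ε : ℝ) (hε : 0 < ε) : ∀ᶠ A : ℕ in atTop,
    54 * (Real.log A) ^ (3 * K + 1) * Real.exp (-((Real.log A) ^ (1 / 2 : ℝ) / 10)) ≤ ε := by
  have h1 := tendsto_rpow_mul_exp_neg_mul_atTop_nhds_zero (2 * (3 * K + 1)) (1 / 10) (by norm_num)
  have h2 : Tendsto (fun A : ℕ => (Real.log A) ^ (1 / 2 : ℝ)) atTop atTop :=
    (tendsto_rpow_atTop (by norm_num)).comp tlog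
  have h3 := (h1.comp h2).const_mul 54
  rw [mul_zero] at h3
  filter_upwards [h3.eventually (gt_mem_nhds hε), tlog.eventually_ge_atTop 1] with A hA h4
  simp only [Function.comp_apply] at hA
  rw [← Real.rpow_mul (by linarith), show (1 / 2 : ℝ) * (2 * (3 * K + 1)) = 3 * K + 1 by ring,
    show -(1 / 10) * (Real.log A) ^ (1 / 2 : ℝ) = -((Real.log A) ^ (1 / 2 : ℝ) / 10) by ring] at hA
  rw [mul_assoc]
  exact hA.le

/-- `K log log A ≤ (log A)^(1/2)` -/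
lemma ev_loglog (K : ℝ) : ∀ᶠ A : ℕ in atTop,
    K * Real.log (Real.log A) ≤ (Real.log A) ^ (1 / 2 : ℝ) := by
  have h1 := (isLittleO_log_rpow_atTop (show (0 : ℝ) < 1 / 2 by norm_num)).def
    (show 0 < 1 / (|K| + 1) by positivity)
  have h2 := tlog.eventually h1
  filter_upwards [h2, tlog.eventually_ge_atTop 1] with A hA h4
  have h5 : 0 ≤ Real.log (Real.log A) := Real.log_nonneg h4
  have h6 : 0 ≤ (Real.log A) ^ (1 / 2 : ℝ) := Real.rpow_nonneg (by linarith) _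
  rw [Real.norm_of_nonneg h5, Real.norm_of_nonneg h6, one_div_mul_eq_div,
    le_div_iff₀ (by positivity)] at hA
  calc K * Real.log (Real.log A) ≤ (|K| + 1) * Real.log (Real.log A) := by
        apply mul_le_mul_of_nonneg_right _ h5
        linarith [le_abs_self K]
    _ = Real.log (Real.log A) * (|K| + 1) := by ring
    _ ≤ _ := hA

/-- the bound of TLU is small -/
lemma small (C₂ K η : ℝ) (hC₂ : 0 < C₂) (hη : 0 < η) : ∀ᶠ A : ℕ in atTop, ∀ w : ℕ, 3 ≤ w →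
    (w : ℝ) ≤ (Real.log A) ^ K →
    C₂ * (A : ℝ) ^ (9 / 16 : ℝ) * (A : ℝ) ^ (1 / 10 : ℝ) / (⌊(A : ℝ) ^ (7 / 10 : ℝ)⌋₊ : ℕ) * (3 * w)
      + (3 + Real.log (C₂ * (A : ℝ) ^ (9 / 16 : ℝ) + 1)) *
        Real.exp (-(Real.log ((A : ℝ) ^ (1 / 10 : ℝ)) / Real.log w)) * (3 * w) ^ 3 ≤ η := by
  filter_upwards [ev_exp K (η / 2) (by positivity), ev_loglog K,
    PRODUM.ev_log_pow K (3 / 80) (12 * C₂ / η) (by norm_num),
    tlog.eventually_ge_atTop (3 + Real.log (C₂ + 1)), eventually_ge_atTop 2] with A h1 h2 h3 h4 hA2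
  intro w hw hwK
  have hAR : (1 : ℝ) ≤ A := by exact_mod_cast (by omega : 1 ≤ A)
  have hA0 : (0 : ℝ) < A := by linarith
  have hC1 : 0 ≤ Real.log (C₂ + 1) := Real.log_nonneg (by linarith)
  set T : ℝ := Real.log A with hT
  have hT1 : 1 ≤ T := by linarith
  have hwr : (3 : ℝ) ≤ w := by exact_mod_cast hw
  have hlw : 0 < Real.log w := Real.log_pos (by linarith)
  -- first term
  have hfl : (A : ℝ) ^ (7 / 10 : ℝ) / 2 ≤ (⌊(A : ℝ) ^ (7 / 10 : ℝ)⌋₊ : ℝ) := by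
    have e1 : (1 : ℝ) ≤ (A : ℝ) ^ (7 / 10 : ℝ) := Real.one_le_rpow hAR (by norm_num)
    have e2 := Nat.lt_floor_add_one ((A : ℝ) ^ (7 / 10 : ℝ))
    have e3 : 1 ≤ ⌊(A : ℝ) ^ (7 / 10 : ℝ)⌋₊ := Nat.le_floor (by push_cast; exact e1)
    have e4 : (1 : ℝ) ≤ (⌊(A : ℝ) ^ (7 / 10 : ℝ)⌋₊ : ℝ) := by exact_mod_cast e3
    linarith
  have hp7 : 0 < (A : ℝ) ^ (7 / 10 : ℝ) := Real.rpow_pos_of_pos hA0 _
  have hterm1 : C₂ * (A : ℝ) ^ (9 / 16 : ℝ) * (A : ℝ) ^ (1 / 10 : ℝ) /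
      (⌊(A : ℝ) ^ (7 / 10 : ℝ)⌋₊ : ℕ) * (3 * w) ≤ η / 2 := by
    have e1 : C₂ * (A : ℝ) ^ (9 / 16 : ℝ) * (A : ℝ) ^ (1 / 10 : ℝ) /
        (⌊(A : ℝ) ^ (7 / 10 : ℝ)⌋₊ : ℕ) ≤
        C₂ * (A : ℝ) ^ (9 / 16 : ℝ) * (A : ℝ) ^ (1 / 10 : ℝ) / ((A : ℝ) ^ (7 / 10 : ℝ) / 2) :=
      div_le_div_of_nonneg_left (by positivity) (by positivity) hfl
    have e2 : (A : ℝ) ^ (9 / 16 : ℝ) * (A : ℝ) ^ (1 / 10 : ℝ) * (A : ℝ) ^ (3 / 80 : ℝ) =
        (A : ℝ) ^ (7 / 10 : ℝ) := by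
      rw [← Real.rpow_add hA0, ← Real.rpow_add hA0]
      norm_num
    have hp3 : 0 < (A : ℝ) ^ (3 / 80 : ℝ) := Real.rpow_pos_of_pos hA0 _
    have e3 : C₂ * (A : ℝ) ^ (9 / 16 : ℝ) * (A : ℝ) ^ (1 / 10 : ℝ) / ((A : ℝ) ^ (7 / 10 : ℝ) / 2)
        = 2 * C₂ / (A : ℝ) ^ (3 / 80 : ℝ) := by
      rw [← e2]
      have h9 : (A : ℝ) ^ (9 / 16 : ℝ) ≠ 0 := (Real.rpow_pos_of_pos hA0 _).ne'
      have h10 : (A : ℝ) ^ (1 / 10 : ℝ) ≠ 0 := (Real.rpow_pos_of_pos hA0 _).ne'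
      field_simp
    rw [e3] at e1
    have e4 : 12 * C₂ / η * w ≤ (A : ℝ) ^ (3 / 80 : ℝ) :=
      le_trans (mul_le_mul_of_nonneg_left hwK (by positivity)) h3
    calc _ ≤ 2 * C₂ / (A : ℝ) ^ (3 / 80 : ℝ) * (3 * w) :=
          mul_le_mul_of_nonneg_right e1 (by positivity)
      _ = 6 * C₂ * w / (A : ℝ) ^ (3 / 80 : ℝ) := by ring
      _ ≤ η / 2 := by
          rw [div_le_iff₀ hp3]
          have e5 : 12 * C₂ / η * w * η = 12 * C₂ * w := by field_simp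
          have e6 := mul_le_mul_of_nonneg_right e4 hη.le
          rw [e5] at e6
          linarith
  -- second term
  have hterm2 : (3 + Real.log (C₂ * (A : ℝ) ^ (9 / 16 : ℝ) + 1)) *
        Real.exp (-(Real.log ((A : ℝ) ^ (1 / 10 : ℝ)) / Real.log w)) * (3 * w) ^ 3 ≤ η / 2 := by
    have e1 : Real.log (C₂ * (A : ℝ) ^ (9 / 16 : ℝ) + 1) ≤ Real.log (C₂ + 1) + T := by
      rw [hT, ← Real.log_mul (by positivity) hA0.ne']
      apply Real.log_le_log (by positivity)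
      have e2 : (A : ℝ) ^ (9 / 16 : ℝ) ≤ A := by
        calc (A : ℝ) ^ (9 / 16 : ℝ) ≤ (A : ℝ) ^ (1 : ℝ) :=
              Real.rpow_le_rpow_of_exponent_le hAR (by norm_num)
          _ = A := Real.rpow_one _
      have e3 := mul_le_mul_of_nonneg_left e2 hC₂.le
      linarith
    have e2 : 3 + Real.log (C₂ * (A : ℝ) ^ (9 / 16 : ℝ) + 1) ≤ 2 * T := by linarith
    have e2' : 0 ≤ 3 + Real.log (C₂ * (A : ℝ) ^ (9 / 16 : ℝ) + 1) := by
      have : 0 ≤ Real.log (C₂ * (A : ℝ) ^ (9 / 16 : ℝ) + 1) := Real.log_nonneg (by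
        have : 0 ≤ C₂ * (A : ℝ) ^ (9 / 16 : ℝ) := by positivity
        linarith)
      linarith
    have e3 : Real.log w ≤ T ^ (1 / 2 : ℝ) := by
      refine le_trans ?_ h2
      rw [← Real.log_rpow (by linarith)]
      exact Real.log_le_log (by linarith) hwK
    have e4 : T ^ (1 / 2 : ℝ) / 10 ≤ Real.log ((A : ℝ) ^ (1 / 10 : ℝ)) / Real.log w := by
      rw [Real.log_rpow hA0, ← hT, le_div_iff₀ hlw]
      have e5 : T ^ (1 / 2 : ℝ) * T ^ (1 / 2 : ℝ) = T := by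
        rw [← Real.rpow_add (by linarith)]
        norm_num
      have e6 : 0 ≤ T ^ (1 / 2 : ℝ) := Real.rpow_nonneg (by linarith) _
      nlinarith [mul_le_mul_of_nonneg_left e3 e6]
    have e5 : Real.exp (-(Real.log ((A : ℝ) ^ (1 / 10 : ℝ)) / Real.log w)) ≤
        Real.exp (-(T ^ (1 / 2 : ℝ) / 10)) := Real.exp_le_exp.2 (by linarith)
    have e6 : (3 * (w : ℝ)) ^ 3 ≤ 27 * T ^ (3 * K) := by
      have e7 : (w : ℝ) ^ 3 ≤ (T ^ K) ^ 3 := pow_le_pow_left₀ (by linarith) hwK 3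
      have e8 : (T ^ K) ^ 3 = T ^ (3 * K) := by
        rw [← Real.rpow_natCast, ← Real.rpow_mul (by linarith)]
        norm_num
        ring_nf
      rw [e8] at e7
      calc (3 * (w : ℝ)) ^ 3 = 27 * (w : ℝ) ^ 3 := by ring
        _ ≤ _ := by linarith
    have hE0 : 0 < Real.exp (-(T ^ (1 / 2 : ℝ) / 10)) := Real.exp_pos _
    calc _ ≤ (2 * T) * Real.exp (-(T ^ (1 / 2 : ℝ) / 10)) * (27 * T ^ (3 * K)) := by
          apply mul_le_mul _ e6 (by positivity) (by positivity)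
          exact mul_le_mul e2 e5 (Real.exp_pos _).le (by linarith)
      _ = 54 * (T ^ (3 * K) * T) * Real.exp (-(T ^ (1 / 2 : ℝ) / 10)) := by ring
      _ = 54 * T ^ (3 * K + 1) * Real.exp (-(T ^ (1 / 2 : ℝ) / 10)) := by
          rw [Real.rpow_add (by linarith), Real.rpow_one]
      _ ≤ η / 2 := h1
  linarith

end F6UM

open scoped Classical

/-- Module F6X. -/
theorem specF6X (hE : SpecEUL) (hC : SpecCONV) (hA : SpecPVA) (hV : SpecPVE) (hP : SpecRHOP)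
    (h2 : SpecRHO2) (hT : SpecTLU) : SpecF6X := by
  obtain ⟨C, hCpos, hbody⟩ := F6.body hA
  obtain ⟨C₂, hC₂, hPVE⟩ := hV (1 / 16) (by norm_num)
  intro δ B K hδ hB hK
  set δ₁ : ℝ := min δ 1 with hδ₁
  have hδ₁0 : 0 < δ₁ := lt_min hδ one_pos
  have hδ₁1 : δ₁ ≤ 1 := min_le_right _ _
  have hδ₁δ : δ₁ ≤ δ := min_le_left _ _
  set η : ℝ := δ₁ / 8 with hη
  have hη0 : 0 < η := by positivity
  have hη1 : η ≤ 1 / 8 := by rw [hη]; linarith
  have hev : ∀ᶠ A : ℕ in atTop, (∀ w : ℕ, 3 ≤ w → (w : ℝ) ≤ (Real.log A) ^ K →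
      C₂ * (A : ℝ) ^ (9 / 16 : ℝ) * (A : ℝ) ^ (1 / 10 : ℝ) / (⌊(A : ℝ) ^ (7 / 10 : ℝ)⌋₊ : ℕ) * (3 * w)
      + (3 + Real.log (C₂ * (A : ℝ) ^ (9 / 16 : ℝ) + 1)) *
        Real.exp (-(Real.log ((A : ℝ) ^ (1 / 10 : ℝ)) / Real.log w)) * (3 * w) ^ 3 ≤ η) ∧
      1 * (1 + Real.log A) ≤ (A : ℝ) ^ (1 / 32 : ℝ) ∧
      4 * C / η ^ 2 * (Real.log A) ^ B ≤ (A : ℝ) ^ (1 / 16 : ℝ) ∧
      4 * (Real.log A) ^ B ≤ (A : ℝ) ^ (1 / 2 : ℝ) ∧ 1 ≤ A ∧
      4 * C / η ^ 2 ≤ (Real.log A) ^ (1 / 2 : ℝ) ∧ 16 / η + 16 ≤ Real.log A :=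
    (F6UM.small C₂ K η hC₂ hη0).and
      ((RHOMEAN.ev_log_rpow _ (by norm_num) 1 zero_le_one).and
      ((PRODUM.ev_log_pow B (1 / 16) _ (by norm_num)).and
      ((PRODUM.ev_log_pow B (1 / 2) _ (by norm_num)).and ((eventually_ge_atTop 1).and
      (((((tendsto_rpow_atTop (show (0 : ℝ) < 1 / 2 by norm_num)).comp
        F6UM.tlog)).eventually_ge_atTop _).and (F6UM.tlog.eventually_ge_atTop _))))))
  obtain ⟨A₀, hA₀⟩ := eventually_atTop.mp hev
  refine ⟨A₀, ?_⟩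
  intro A w hAA hwlow hwup
  obtain ⟨q1, q2, q3, q4, hA1, q5, q6⟩ := hA₀ A hAA
  have hAR : (1 : ℝ) ≤ A := by exact_mod_cast hA1
  have hApos : (0 : ℝ) < A := by linarith
  set T : ℝ := Real.log A with hTdef
  have h16η : 0 < 16 / η := by positivity
  have hT1 : 1 ≤ T := by linarith
  have hTB : 0 < T ^ B := Real.rpow_pos_of_pos (by linarith) _
  have hTw : T ≤ w := by
    refine le_trans ?_ hwlow
    calc T = T ^ (1 : ℝ) := (Real.rpow_one T).symm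
      _ ≤ T ^ (2 * B + 1) := Real.rpow_le_rpow_of_exponent_le hT1 (by linarith)
  have hw16 : 16 ≤ w := by
    have : ((16 : ℕ) : ℝ) ≤ w := by push_cast; linarith
    exact_mod_cast this
  have hw1 : 16 / ((w : ℝ) + 1) ≤ η := by
    rw [div_le_iff₀ (by positivity)]
    have e1 : 16 / η ≤ w := by linarith
    rw [div_le_iff₀ hη0] at e1
    nlinarith
  have hsw : T ^ B * T ^ (1 / 2 : ℝ) ≤ √(w : ℝ) := by
    apply Real.le_sqrt_of_sq_le
    refine le_trans (le_of_eq ?_) hwlow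
    rw [← Real.rpow_add (by linarith), ← Real.rpow_natCast, ← Real.rpow_mul (by linarith)]
    congr 1
    push_cast
    ring
  have hpw : ∀ r s : ℝ, (A : ℝ) ^ r * (A : ℝ) ^ s = (A : ℝ) ^ (r + s) := fun r s =>
    (Real.rpow_add hApos r s).symm
  set Y : ℕ := ⌊(A : ℝ) ^ (7 / 10 : ℝ)⌋₊ with hY
  have hYle : (Y : ℝ) ≤ (A : ℝ) ^ (7 / 10 : ℝ) := Nat.floor_le (by positivity)
  have hYlt : (A : ℝ) ^ (7 / 10 : ℝ) < (Y : ℝ) + 1 := Nat.lt_floor_add_one _
  have hY1 : 1 ≤ Y := by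
    rw [hY]
    exact Nat.le_floor (by push_cast; exact Real.one_le_rpow hAR (by norm_num))
  have hYR : (1 : ℝ) ≤ Y := by exact_mod_cast hY1
  have htl := q1 w (by omega) hwup
  set S : ℤ → ℝ := fun a => ∑ n ∈ F6.RY w Y, (jacobiSym (-a) n : ℝ) / n with hS
  have hb := hbody w A Y (by omega) hA1 hY1
  have hBd : ∀ a : ℤ, |a| ≤ (A : ℤ) → -a ≠ 0 → ¬ IsSquare (-a) → ∀ x y : ℕ,
      |∑ k ∈ (Ioc x y).filter Odd, (jacobiSym (-a) k : ℝ)| ≤ C₂ * (A : ℝ) ^ (9 / 16 : ℝ) := by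
    intro a haA ha0 hsq x y
    refine (hPVE (-a) ha0 hsq x y).trans ?_
    refine mul_le_mul_of_nonneg_left ?_ hC₂.le
    have e1 : ((-a).natAbs : ℝ) ≤ A := by
      rw [Int.natAbs_neg]
      have : (a.natAbs : ℤ) ≤ A := by
        rw [Int.natCast_natAbs]
        exact haA
      exact_mod_cast this
    rw [show (1 / 2 + 1 / 16 : ℝ) = 9 / 16 by norm_num]
    exact Real.rpow_le_rpow (by positivity) e1 (by norm_num)
  -- the exceptional set
  have hsub : (IA A).filter (fun a => ¬ ∃ h : ℝ, 0 < h ∧ Tendsto (fun v : ℕ => Gw v a) atTop (𝓝 h) ∧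
      |Gw w a - h| ≤ δ * h)
      ⊆ (IA A).filter (fun a => IsSquare (-a)) ∪ (IA A).filter (fun a => η < |S a|) := by
    intro a ha
    rw [Finset.mem_filter] at ha
    rw [Finset.mem_union, Finset.mem_filter, Finset.mem_filter]
    by_contra hcon
    push Not at hcon
    obtain ⟨hc1, hc2⟩ := hcon
    have hsq := hc1 ha.1
    have hSa := hc2 ha.1
    apply ha.2
    obtain ⟨h, hh0, hh⟩ := hC a hsq
    refine ⟨h, hh0, hh, ?_⟩
    obtain ⟨l, hl0, hl1, hl2⟩ := hE a hsq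
    have ha0 : -a ≠ 0 := by
      intro h0
      exact hsq (by rw [h0]; exact ⟨0, by ring⟩)
    have haA : |a| ≤ (A : ℤ) := by
      have := ha.1
      unfold IA at this
      rw [Finset.mem_Icc] at this
      exact abs_le.mpr this
    -- the bound for the character sums
    have htail : ∀ X : ℕ, Y ≤ X →
        |∑ k ∈ (Ioc Y X).filter (F6.Fr (F6.SP w)), (jacobiSym (-a) k : ℝ) / k| ≤ η := by
      intro X hX
      exact (hT (-a) (C₂ * (A : ℝ) ^ (9 / 16 : ℝ)) (by positivity) (hBd a haA ha0 hsq) w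
        ((A : ℝ) ^ (1 / 10 : ℝ)) Y X (by omega) (Real.one_le_rpow hAR (by norm_num)) hY1 hX).trans htl
    set L : ℝ := l * ∏ p ∈ F6.SP w, (1 - (jacobiSym (-a) p : ℝ) / p) with hL
    have hLlim := F6.limit_sift (-a) hl1 (F6.SP w) (fun p hp => (F6.mem_SP.mp hp).2)
    have hL1 : |L - 1| ≤ 2 * η := by
      have hlim2 : Tendsto (fun X : ℕ =>
          |∑ n ∈ (Ioc 0 X).filter (F6.Fr (F6.SP w)), (jacobiSym (-a) n : ℝ) / n - 1|) atTop
          (𝓝 |L - 1|) := (hLlim.sub_const 1).abs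
      refine le_of_tendsto hlim2 ?_
      filter_upwards [eventually_ge_atTop Y] with X hX
      have e1 : (Ioc 0 X).filter (F6.Fr (F6.SP w))
          = insert 1 (F6.RY w Y ∪ (Ioc Y X).filter (F6.Fr (F6.SP w))) := by
        ext n
        unfold F6.RY
        rw [Finset.mem_insert, Finset.mem_union, Finset.mem_filter, Finset.mem_filter,
          Finset.mem_filter, Finset.mem_Ioc, Finset.mem_Icc, Finset.mem_Ioc,
          F6.rough_iff (by omega) n]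
        constructor
        · rintro ⟨⟨h3, h4⟩, h5⟩
          rcases Nat.lt_or_ge n 2 with h6 | h6
          · left; omega
          · right
            rcases Nat.le_or_ge n Y with h7 | h7
            · left; exact ⟨⟨h6, h7⟩, h5⟩
            · rcases Nat.eq_or_lt_of_le h7 with h8 | h8
              · left; exact ⟨⟨h6, h8.symm.le⟩, h5⟩
              · right; exact ⟨⟨h8, h4⟩, h5⟩
        · rintro (h3 | ⟨⟨h3, h4⟩, h5⟩ | ⟨⟨h3, h4⟩, h5⟩)
          · subst h3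
            refine ⟨⟨by norm_num, hY1.trans hX⟩, odd_one, ?_⟩
            intro p hp hp1
            exact (F6.mem_SP.mp hp).2.1.one_lt.ne' (Nat.dvd_one.mp hp1)
          · exact ⟨⟨by omega, h4.trans hX⟩, h5⟩
          · exact ⟨⟨by omega, h4⟩, h5⟩
      have e2 : (1 : ℕ) ∉ F6.RY w Y ∪ (Ioc Y X).filter (F6.Fr (F6.SP w)) := by
        unfold F6.RY
        rw [Finset.mem_union, Finset.mem_filter, Finset.mem_filter, Finset.mem_Icc, Finset.mem_Ioc]
        omega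
      have e3 : Disjoint (F6.RY w Y) ((Ioc Y X).filter (F6.Fr (F6.SP w))) := by
        rw [Finset.disjoint_left]
        intro n hn hn'
        unfold F6.RY at hn
        rw [Finset.mem_filter, Finset.mem_Icc] at hn
        rw [Finset.mem_filter, Finset.mem_Ioc] at hn'
        omega
      rw [e1, Finset.sum_insert e2, Finset.sum_union e3]
      have e4 : (jacobiSym (-a) 1 : ℝ) / ((1 : ℕ) : ℝ) = 1 := by
        rw [jacobiSym.one_right]
        norm_num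
      rw [e4]
      have e5 : 1 + (∑ n ∈ F6.RY w Y, (jacobiSym (-a) n : ℝ) / n +
          ∑ n ∈ (Ioc Y X).filter (F6.Fr (F6.SP w)), (jacobiSym (-a) n : ℝ) / n) - 1
          = S a + ∑ n ∈ (Ioc Y X).filter (F6.Fr (F6.SP w)), (jacobiSym (-a) n : ℝ) / n := by
        rw [hS]; ring
      rw [e5]
      refine (abs_add_le _ _).trans ?_
      have := htail X hX
      linarith
    obtain ⟨hG, hcmp⟩ := F6.compare hP h2 a hh hl2 hw16
    rw [← hL] at hcmp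
    have hcmp' : |h * L - Gw w a| ≤ η * Gw w a :=
      hcmp.trans (mul_le_mul_of_nonneg_right hw1 hG.le)
    have f1 := abs_le.mp hcmp'
    have f2 := abs_le.mp hL1
    have f3 : h * L ≤ h * (1 + 2 * η) := mul_le_mul_of_nonneg_left (by linarith) hh0.le
    have f4 : h * (1 - 2 * η) ≤ h * L := mul_le_mul_of_nonneg_left (by linarith) hh0.le
    have hG2 : Gw w a ≤ 2 * h := by nlinarith
    have f5 : η * Gw w a ≤ η * (2 * h) := mul_le_mul_of_nonneg_left hG2 hη0.le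
    have f6 : 4 * (η * h) ≤ δ * h := by
      have : 4 * η ≤ δ := by rw [hη]; linarith
      nlinarith
    rw [abs_le]
    constructor <;> nlinarith
  have hcard := Finset.card_le_card hsub
  have hcard2 := hcard.trans (Finset.card_union_le _ _)
  have hsqc := F6.card_sq_le A
  have hM : (((IA A).filter (fun a => η < |S a|)).card : ℝ) ≤ A / T ^ B / 2 := by
    have e1 : (((IA A).filter (fun a => η < |S a|)).card : ℝ) * η ^ 2 ≤ ∑ a ∈ IA A, (S a) ^ 2 := by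
      calc (((IA A).filter (fun a => η < |S a|)).card : ℝ) * η ^ 2
          = ∑ a ∈ (IA A).filter (fun a => η < |S a|), η ^ 2 := by
            rw [Finset.sum_const, nsmul_eq_mul]
        _ ≤ ∑ a ∈ (IA A).filter (fun a => η < |S a|), (S a) ^ 2 := by
            refine Finset.sum_le_sum (fun a ha => ?_)
            rw [Finset.mem_filter] at ha
            rw [← sq_abs (S a)]
            exact pow_le_pow_left₀ hη0.le ha.2.le 2
        _ ≤ ∑ a ∈ IA A, (S a) ^ 2 :=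
            Finset.sum_le_sum_of_subset_of_nonneg (Finset.filter_subset _ _)
              (fun i _ _ => sq_nonneg _)
    have e2 : (Y : ℝ) ^ (5 / 4 : ℝ) ≤ (A : ℝ) ^ (7 / 8 : ℝ) := by
      calc (Y : ℝ) ^ (5 / 4 : ℝ) ≤ ((A : ℝ) ^ (7 / 10 : ℝ)) ^ (5 / 4 : ℝ) :=
            Real.rpow_le_rpow (by positivity) hYle (by norm_num)
        _ = (A : ℝ) ^ (7 / 8 : ℝ) := by
            rw [← Real.rpow_mul hApos.le]
            norm_num
    have hYA : (Y : ℝ) ≤ A := by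
      refine hYle.trans ?_
      calc (A : ℝ) ^ (7 / 10 : ℝ) ≤ (A : ℝ) ^ (1 : ℝ) :=
            Real.rpow_le_rpow_of_exponent_le hAR (by norm_num)
        _ = A := Real.rpow_one _
    have e3 : (1 + Real.log Y) ^ 2 ≤ (A : ℝ) ^ (1 / 16 : ℝ) := by
      have f1 : 0 ≤ 1 + Real.log Y := by
        have := Real.log_nonneg hYR
        linarith
      have f2 : 1 + Real.log Y ≤ (A : ℝ) ^ (1 / 32 : ℝ) := by
        have := Real.log_le_log (by linarith) hYA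
        linarith
      calc (1 + Real.log Y) ^ 2 ≤ ((A : ℝ) ^ (1 / 32 : ℝ)) ^ 2 := pow_le_pow_left₀ f1 f2 2
        _ = (A : ℝ) ^ (1 / 16 : ℝ) := by
            rw [← Real.rpow_natCast, ← Real.rpow_mul hApos.le]
            norm_num
    have e4 : (Y : ℝ) ^ (5 / 4 : ℝ) * (1 + Real.log Y) ^ 2 ≤ (A : ℝ) ^ (15 / 16 : ℝ) := by
      calc (Y : ℝ) ^ (5 / 4 : ℝ) * (1 + Real.log Y) ^ 2
          ≤ (A : ℝ) ^ (7 / 8 : ℝ) * (A : ℝ) ^ (1 / 16 : ℝ) :=
            mul_le_mul e2 e3 (by positivity) (by positivity)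
        _ = (A : ℝ) ^ (15 / 16 : ℝ) := by rw [hpw]; norm_num
    have e5 : C * (A : ℝ) ^ (15 / 16 : ℝ) ≤ A / T ^ B * η ^ 2 / 4 := by
      have f1 : (A : ℝ) ^ (15 / 16 : ℝ) * (A : ℝ) ^ (1 / 16 : ℝ) = A := by
        rw [hpw]
        norm_num
      have f2 : (A : ℝ) ^ (15 / 16 : ℝ) * (4 * C / η ^ 2 * T ^ B) ≤ A := by
        calc _ ≤ (A : ℝ) ^ (15 / 16 : ℝ) * (A : ℝ) ^ (1 / 16 : ℝ) :=
              mul_le_mul_of_nonneg_left q3 (by positivity)
          _ = A := f1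
      have f3 : A / T ^ B * η ^ 2 / 4 = A * η ^ 2 / (4 * T ^ B) := by field_simp
      rw [f3, le_div_iff₀ (by positivity)]
      have f4 : C * (A : ℝ) ^ (15 / 16 : ℝ) * (4 * T ^ B)
          = (A : ℝ) ^ (15 / 16 : ℝ) * (4 * C / η ^ 2 * T ^ B) * η ^ 2 := by
        field_simp
      rw [f4]
      exact mul_le_mul_of_nonneg_right f2 (by positivity)
    have e6 : C * (A / √(w : ℝ)) ≤ A / T ^ B * η ^ 2 / 4 := by
      have hT2 : 0 < T ^ (1 / 2 : ℝ) := Real.rpow_pos_of_pos (by linarith) _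
      have f1 : C * (A / √(w : ℝ)) ≤ C * (A / (T ^ B * T ^ (1 / 2 : ℝ))) := by
        apply mul_le_mul_of_nonneg_left _ hCpos.le
        exact div_le_div_of_nonneg_left hApos.le (by positivity) hsw
      refine f1.trans ?_
      have f2 : C * (A / (T ^ B * T ^ (1 / 2 : ℝ))) = A / T ^ B * (C / T ^ (1 / 2 : ℝ)) := by
        field_simp
      have f3 : C / T ^ (1 / 2 : ℝ) ≤ η ^ 2 / 4 := by
        rw [div_le_iff₀ hT2]
        rw [div_le_iff₀ (by positivity)] at q5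
        nlinarith
      rw [f2]
      calc A / T ^ B * (C / T ^ (1 / 2 : ℝ)) ≤ A / T ^ B * (η ^ 2 / 4) :=
            mul_le_mul_of_nonneg_left f3 (by positivity)
        _ = _ := by ring
    have e7 : (((IA A).filter (fun a => η < |S a|)).card : ℝ) * η ^ 2 ≤ (A / T ^ B / 2) * η ^ 2 := by
      have f1 : C * (A / √(w : ℝ) + (Y : ℝ) ^ (5 / 4 : ℝ) * (1 + Real.log Y) ^ 2)
          ≤ C * (A / √(w : ℝ)) + C * (A : ℝ) ^ (15 / 16 : ℝ) := by
        rw [mul_add]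
        have := mul_le_mul_of_nonneg_left e4 hCpos.le
        linarith
      have f2 : ∑ a ∈ IA A, (S a) ^ 2 ≤ C * (A / √(w : ℝ) + (Y : ℝ) ^ (5 / 4 : ℝ) *
        (1 + Real.log Y) ^ 2) := hb
      linarith
    exact le_of_mul_le_mul_right e7 (by positivity)
  have hSq : ((((IA A).filter (fun a => IsSquare (-a))).card : ℕ) : ℝ) ≤ A / T ^ B / 2 := by
    have e1 : ((((IA A).filter (fun a => IsSquare (-a))).card : ℕ) : ℝ) ≤ (Nat.sqrt A : ℝ) + 1 := by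
      exact_mod_cast hsqc
    have e2 : (Nat.sqrt A : ℝ) ≤ (A : ℝ) ^ (1 / 2 : ℝ) := by
      rw [← Real.sqrt_eq_rpow]
      exact Real.nat_sqrt_le_real_sqrt
    have e3 : (1 : ℝ) ≤ (A : ℝ) ^ (1 / 2 : ℝ) := Real.one_le_rpow hAR (by norm_num)
    have e4 : (A : ℝ) ^ (1 / 2 : ℝ) * (A : ℝ) ^ (1 / 2 : ℝ) = A := by
      rw [hpw]
      norm_num
    have e5 : 2 * (A : ℝ) ^ (1 / 2 : ℝ) ≤ A / T ^ B / 2 := by
      rw [div_div, le_div_iff₀ (by positivity)]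
      calc 2 * (A : ℝ) ^ (1 / 2 : ℝ) * (T ^ B * 2) = (A : ℝ) ^ (1 / 2 : ℝ) * (4 * T ^ B) := by ring
        _ ≤ (A : ℝ) ^ (1 / 2 : ℝ) * (A : ℝ) ^ (1 / 2 : ℝ) :=
            mul_le_mul_of_nonneg_left q4 (by positivity)
        _ = A := e4
    linarith
  have hfin : ((((IA A).filter (fun a => ¬ ∃ h : ℝ, 0 < h ∧
      Tendsto (fun v : ℕ => Gw v a) atTop (𝓝 h) ∧ |Gw w a - h| ≤ δ * h)).card : ℕ) : ℝ)
      ≤ ((((IA A).filter (fun a => IsSquare (-a))).card : ℕ) : ℝ)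
        + (((IA A).filter (fun a => η < |S a|)).card : ℝ) := by
    exact_mod_cast hcard2
  refine hfin.trans ?_
  linarith

/-- Module F6U. -/
theorem specF6U (hE : SpecEUL) (hC : SpecCONV) (hA : SpecPVA) (hV : SpecPVE) (hP : SpecRHOP)
    (h2 : SpecRHO2) (hT : SpecTLU) : SpecF6U := by
  intro δ B hδ hB
  refine ⟨2 * B + 1, by linarith, fun W hW => ?_⟩
  obtain ⟨A₁, h1⟩ := specF6X hE hC hA hV hP h2 hT δ B (W + 2) hδ hB (by linarith)
  obtain ⟨A₂, h2'⟩ := eventually_atTop.1 (F6UM.tlog.eventually_ge_atTop (1 : ℝ))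
  refine ⟨max A₁ A₂, fun A w hAA hwl hwu => ?_⟩
  have h3 := h2' A ((le_max_right _ _).trans hAA)
  exact h1 A w ((le_max_left _ _).trans hAA)
    ((Real.rpow_le_rpow_of_exponent_le h3 hW).trans hwl) hwu

end Pool.Agent.Lib.MP391708.U
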