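import Pool.Agent.Lib.MP_391708_nt.U.TAILU
import Pool.Agent.Lib.MP_391708_nt.QPA.FIN

/-!
# FINB, FINBX: one scale, `N^θ ≤ A ≤ N √(log N)`

Proof. `L = N/log N`, `N_i = ⌊N/2^i⌋`.  The `n ≤ N` are those of the blocks `(N_{i+1}, 2N_{i+1}]`, `i < I`, at most `I` others
and the `n ≤ N_I` (`FIN.blocks`).  For all `a` outside of `2I + 2` exceptional sets, each of cardinality
`≤ 4^(B+1) A/(log A)^(B+1)` (`log A ≤ 4 log N_i`): `h` exists, `|G_{w_i}(a) - h| ≤ (ε/20) h` for the `w_i = wN W N_i` and for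
`w = wN W N` (F6U with `W - 1`: `(log A)^(W-1) ≤ w_i ≤ (log A)^(W+1)`), `|cnt N_i - G_{w_i} model N_i| ≤ ε₁ G_{w_i} N_i/log N_i`,
`ε₁ = ε/(20(I+1))` (BLKU), and the number of prime values with `n ≤ N_I` is
`≤ C_T G_w(a) N_I/log N ≤ 2 C_T h 2^(-I) L ≤ (ε/20) h L` (TAILU).  `I ≤ (ε/20) h L` by GMAXU.  Models: MODP; `Li`: LI.
-/

set_option autoImplicit false

namespace Pool.Agent.Lib.MP391708.U

open Finset Filter Topology Pool.Agent.Lib.MP391708.QPA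
open scoped Classical

namespace FINBM

/-- the final inequality, all errors relative to `h L` -/
theorem final_rel {S SI Cn h M L Li ε q : ℝ} (hε : 0 < ε) (hε1 : ε ≤ 1) (hL : 0 < L) (hh : 0 < h)
    (hSI0 : 0 ≤ SI) (hSI : SI ≤ ε / 20 * (h * L)) (hb : |S - SI - Cn| ≤ ε / 20 * (h * L))
    (hCn : |Cn - h * M| ≤ ε / 5 * (h * L)) (hM : |M - (1 - q) / 2 * L| ≤ ε / 40 * L)
    (hLi : |Li - L| ≤ ε / 40 * L) (hq0 : 0 ≤ q) (hq : q ≤ ε / 20) :
    |S - 1 / 2 * h * Li| ≤ ε * (h * Li) := by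
  have hhL : 0 < h * L := by positivity
  have e2 : |h * (M - (1 - q) / 2 * L)| ≤ ε / 40 * (h * L) := by
    rw [abs_mul, abs_of_pos hh]
    calc h * |M - (1 - q) / 2 * L| ≤ h * (ε / 40 * L) := mul_le_mul_of_nonneg_left hM hh.le
      _ = ε / 40 * (h * L) := by ring
  have e3 : |h * (L - Li)| ≤ ε / 40 * (h * L) := by
    rw [abs_mul, abs_of_pos hh, abs_sub_comm]
    calc h * |Li - L| ≤ h * (ε / 40 * L) := mul_le_mul_of_nonneg_left hLi hh.le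
      _ = ε / 40 * (h * L) := by ring
  have e4 : q * (h * L) ≤ ε / 20 * (h * L) := mul_le_mul_of_nonneg_right hq hhL.le
  have e4' : 0 ≤ q * (h * L) := by positivity
  have e8 : S - 1 / 2 * h * Li = (S - SI - Cn) + SI + (Cn - h * M)
      + h * (M - (1 - q) / 2 * L) - q * (h * L) / 2 + h * (L - Li) / 2 := by ring
  have e9 : h * L / 2 ≤ h * Li := by
    have h1 := (abs_le.1 hLi).1
    have h2 : L / 2 ≤ Li := by nlinarith
    nlinarith
  have e10 : ε * (h * L / 2) ≤ ε * (h * Li) := mul_le_mul_of_nonneg_left e9 hε.le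
  have hεhL : 0 < ε * (h * L) := by positivity
  obtain ⟨a1, a2⟩ := abs_le.1 hb
  obtain ⟨b1, b2⟩ := abs_le.1 hCn
  obtain ⟨d1, d2⟩ := abs_le.1 e2
  obtain ⟨f1, f2⟩ := abs_le.1 e3
  rw [abs_le, e8]
  constructor <;> linarith

/-- `N^(9/10) ≤ ⌊N/2^I⌋` -/
theorem ev_X (I : ℕ) : ∀ᶠ N : ℕ in atTop, (N : ℝ) ^ (9 / 10 : ℝ) ≤ ((N / 2 ^ I : ℕ) : ℝ) := by
  have h1 : Tendsto (fun N : ℕ => (N : ℝ) ^ (1 / 10 : ℝ)) atTop atTop :=
    (tendsto_rpow_atTop (by norm_num)).comp tendsto_natCast_atTop_atTop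
  have h2 : (1 : ℝ) / 2 ^ (I + 1) < 1 / 2 ^ I := by
    apply one_div_lt_one_div_of_lt (by positivity)
    exact pow_lt_pow_right₀ (by norm_num) (by omega)
  filter_upwards [h1.eventually_ge_atTop ((2 : ℝ) ^ (I + 1)),
    (FIN.tendsto_div I).eventually_const_lt h2, eventually_gt_atTop 0] with N h1 h3 hN
  have hN0 : (0 : ℝ) < N := by exact_mod_cast hN
  rw [lt_div_iff₀ hN0] at h3
  refine le_trans ?_ h3.le
  rw [one_div, ← div_eq_inv_mul, le_div_iff₀ (by positivity)]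
  calc (N : ℝ) ^ (9 / 10 : ℝ) * 2 ^ (I + 1) ≤ (N : ℝ) ^ (9 / 10 : ℝ) * (N : ℝ) ^ (1 / 10 : ℝ) :=
        mul_le_mul_of_nonneg_left h1 (by positivity)
    _ = N := by
        rw [← Real.rpow_add hN0]
        norm_num

/-- one block: from `G_{w_i}` to `h` -/
theorem block_le {c G h m δ ε₁ l L : ℝ} (hδ1 : δ ≤ 1) (hε₁ : 0 ≤ ε₁) (hh : 0 < h)
    (hm : 0 ≤ m) (hl : 0 ≤ l) (hlL : l ≤ L) (h1 : |c - G * m| ≤ ε₁ * G * l) (h2 : |G - h| ≤ δ * h) :
    |c - h * m| ≤ 2 * ε₁ * (h * L) + δ * h * m := by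
  have hG : G ≤ 2 * h := by
    have := (abs_le.1 h2).2
    nlinarith
  have h3 : |c - h * m| ≤ |c - G * m| + |(G - h) * m| := by
    have : c - h * m = (c - G * m) + (G - h) * m := by ring
    rw [this]
    exact abs_add_le _ _
  have h4 : |(G - h) * m| ≤ δ * h * m := by
    rw [abs_mul, abs_of_nonneg hm]
    exact mul_le_mul_of_nonneg_right h2 hm
  have h5 : ε₁ * G * l ≤ 2 * ε₁ * (h * L) := by
    calc ε₁ * G * l ≤ ε₁ * (2 * h) * l :=
          mul_le_mul_of_nonneg_right (mul_le_mul_of_nonneg_left hG hε₁) hl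
      _ ≤ ε₁ * (2 * h) * L := mul_le_mul_of_nonneg_left hlL (by positivity)
      _ = 2 * ε₁ * (h * L) := by ring
  linarith

end FINBM

namespace FINBXM

/-- the blocks are admissible -/
theorem ev_blockS (k : ℕ) : ∀ᶠ N : ℕ in atTop,
    (N : ℝ) * √(Real.log N) ≤ ((N / 2 ^ k : ℕ) : ℝ) * Real.log ((N / 2 ^ k : ℕ) : ℝ) := by
  have hlogN : Tendsto (fun N : ℕ => √(Real.log (N : ℝ))) atTop atTop :=
    Real.tendsto_sqrt_atTop.comp (Real.tendsto_log_atTop.comp tendsto_natCast_atTop_atTop)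
  have h1 : (1 : ℝ) / 2 ^ (k + 1) < 1 / 2 ^ k := by
    apply one_div_lt_one_div_of_lt (by positivity)
    exact pow_lt_pow_right₀ (by norm_num) (by omega)
  filter_upwards [(FIN.tendsto_div k).eventually_const_lt h1,
    (FIN.tendsto_log_ratio k).eventually_const_lt (show (1 / 2 : ℝ) < 1 by norm_num),
    hlogN.eventually_ge_atTop ((2 : ℝ) ^ (k + 2)), eventually_gt_atTop 1] with N h2 h3 h4 hN
  have hN1 : (1 : ℝ) < N := by exact_mod_cast hN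
  have hN0 : (0 : ℝ) < N := by linarith
  have hlog : 0 < Real.log N := Real.log_pos hN1
  rw [lt_div_iff₀ hN0] at h2
  rw [lt_div_iff₀ hlog] at h3
  have h5 : √(Real.log N) * √(Real.log N) = Real.log N := Real.mul_self_sqrt hlog.le
  have h6 : 1 / 2 ^ (k + 1) * (N : ℝ) * (1 / 2 * Real.log N)
      ≤ ((N / 2 ^ k : ℕ) : ℝ) * Real.log ((N / 2 ^ k : ℕ) : ℝ) :=
    mul_le_mul h2.le h3.le (by positivity) (Nat.cast_nonneg _)
  refine le_trans ?_ h6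
  have h7 : 1 / 2 ^ (k + 1) * (N : ℝ) * (1 / 2 * Real.log N)
      = N * (1 / 2 ^ (k + 2) * (√(Real.log N) * √(Real.log N))) := by
    rw [h5]
    field_simp
    ring
  rw [h7]
  apply mul_le_mul_of_nonneg_left _ hN0.le
  have h8 : 1 / 2 ^ (k + 2) * (√(Real.log N) * √(Real.log N))
      = √(Real.log N) * (√(Real.log N) / 2 ^ (k + 2)) := by ring
  rw [h8]
  apply le_mul_of_one_le_right (Real.sqrt_nonneg _)
  rw [le_div_iff₀ (by positivity), one_mul]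
  exact h4

/-- the sizes of the `w_i` -/
theorem ev_wS (k : ℕ) (W : ℝ) (hW : 1 ≤ W) : ∀ᶠ N : ℕ in atTop, ∀ A : ℕ,
    (N : ℝ) ^ (5 / 6 : ℝ) ≤ A → (A : ℝ) ≤ N * √(Real.log N) →
    (Real.log A) ^ (W - 1) ≤ wN W (N / 2 ^ k) ∧
    (wN W (N / 2 ^ k) : ℝ) ≤ (Real.log A) ^ (W + 1) ∧
    Real.log A ≤ 4 * Real.log ((N / 2 ^ k : ℕ) : ℝ) ∧ 1 ≤ Real.log A := by
  have hlogN : Tendsto (fun N : ℕ => Real.log (N : ℝ)) atTop atTop :=
    Real.tendsto_log_atTop.comp tendsto_natCast_atTop_atTop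
  have h0 : ∀ᶠ N : ℕ in atTop,
      (1 / 2 : ℝ) < Real.log ((N / 2 ^ k : ℕ) : ℝ) / Real.log N :=
    (FIN.tendsto_log_ratio k).eventually_const_lt (by norm_num)
  filter_upwards [h0, hlogN.eventually_ge_atTop (2 * (4 : ℝ) ^ (W - 1) + 2),
    hlogN.eventually_ge_atTop (2 * (2 : ℝ) ^ (W + 1) + 2), eventually_ge_atTop 3,
    (FIN.tendsto_Nk k).eventually_gt_atTop 0]
    with N h0 h1 h2 hN3 hNk A hA1 hA2
  have hN1 : (1 : ℝ) < N := by exact_mod_cast (by omega : 1 < N)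
  have hN0 : (0 : ℝ) < N := by linarith
  have hlog : 0 < Real.log N := Real.log_pos hN1
  set l : ℝ := Real.log ((N / 2 ^ k : ℕ) : ℝ) with hl
  have hl1 : Real.log N < 2 * l := by
    rw [lt_div_iff₀ hlog] at h0
    linarith
  have hNk' : (0 : ℝ) < ((N / 2 ^ k : ℕ) : ℝ) := by exact_mod_cast hNk
  have hl2 : l ≤ Real.log N := by
    rw [hl]
    apply Real.log_le_log hNk'
    exact_mod_cast Nat.div_le_self N (2 ^ k)
  have h4W : (1 : ℝ) ≤ (4 : ℝ) ^ (W - 1) := Real.one_le_rpow (by norm_num) (by linarith)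
  have h2W : (1 : ℝ) ≤ (2 : ℝ) ^ (W + 1) := Real.one_le_rpow (by norm_num) (by linarith)
  have hl3 : (4 : ℝ) ^ (W - 1) ≤ l := by linarith
  have hl4 : 1 ≤ l := by linarith
  have hApos : (0 : ℝ) < A := (Real.rpow_pos_of_pos hN0 _).trans_le hA1
  have hsq : √(Real.log N) ≤ N := by
    have h3 : √(Real.log N) ≤ Real.log N := by
      rw [Real.sqrt_le_left hlog.le]
      nlinarith
    exact h3.trans ((Real.log_le_sub_one_of_pos hN0).trans (by linarith))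
  have hA3 : Real.log A ≤ 2 * Real.log N := by
    have h3 : (A : ℝ) ≤ (N : ℝ) ^ 2 := by
      rw [pow_two]
      exact hA2.trans (mul_le_mul_of_nonneg_left hsq hN0.le)
    have h4 := Real.log_le_log hApos h3
    rw [Real.log_pow] at h4
    exact_mod_cast h4
  have hA4 : 5 / 6 * Real.log N ≤ Real.log A := by
    have h3 := Real.log_le_log (Real.rpow_pos_of_pos hN0 _) hA1
    rwa [Real.log_rpow hN0] at h3
  have hA5 : 1 ≤ Real.log A := by linarith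
  have hA6 : Real.log A ≤ 4 * l := by linarith
  refine ⟨?_, ?_, hA6, hA5⟩
  · unfold wN
    refine le_trans ?_ (Nat.le_ceil _)
    calc (Real.log A) ^ (W - 1) ≤ (4 * l) ^ (W - 1) :=
          Real.rpow_le_rpow (by linarith) hA6 (by linarith)
      _ = (4 : ℝ) ^ (W - 1) * l ^ (W - 1) := Real.mul_rpow (by norm_num) (by linarith)
      _ ≤ l * l ^ (W - 1) := mul_le_mul_of_nonneg_right hl3 (by positivity)
      _ = l ^ W := by
          nth_rewrite 1 [← Real.rpow_one l]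
          rw [← Real.rpow_add (by linarith)]
          congr 1
          ring
  · have h5 : (wN W (N / 2 ^ k) : ℝ) ≤ l ^ W + 1 := by
      unfold wN
      exact (Nat.ceil_lt_add_one (by positivity)).le
    have h6 : (1 : ℝ) ≤ l ^ W := Real.one_le_rpow hl4 (by linarith)
    have h7 : l ^ W ≤ (2 * Real.log A) ^ W :=
      Real.rpow_le_rpow (by linarith) (by linarith) (by linarith)
    rw [Real.mul_rpow (by norm_num) (by linarith)] at h7
    have h8 : 2 * (2 : ℝ) ^ W = (2 : ℝ) ^ (W + 1) := by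
      rw [Real.rpow_add (by norm_num), Real.rpow_one]
      ring
    have h9 : (2 : ℝ) ^ (W + 1) ≤ Real.log A := by linarith
    have h10 : (0 : ℝ) < (Real.log A) ^ W := Real.rpow_pos_of_pos (by linarith) _
    calc (wN W (N / 2 ^ k) : ℝ) ≤ 2 * l ^ W := by linarith
      _ ≤ 2 * ((2 : ℝ) ^ W * (Real.log A) ^ W) := by linarith
      _ = (2 : ℝ) ^ (W + 1) * (Real.log A) ^ W := by rw [← h8]; ring
      _ ≤ Real.log A * (Real.log A) ^ W := mul_le_mul_of_nonneg_right h9 h10.le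
      _ = (Real.log A) ^ (W + 1) := by
          rw [Real.rpow_add (by linarith), Real.rpow_one]
          ring

/-- `G ≤ 2h` -/
theorem G_le {G h ε : ℝ} (hh : 0 < h) (hε1 : ε ≤ 1) (h1 : |G - h| ≤ ε / 20 * h) : G ≤ 2 * h := by
  have := (abs_le.1 h1).2
  nlinarith

/-- the number of blocks is small against `h L` -/
theorem I_le {N I c h ε G lN P c' : ℝ} (hN : 1 < N) (hlN : 0 < lN) (hP : 0 < P) (hI : 0 ≤ I)
    (hε : 0 < ε) (hG : c / P ≤ G) (hGh : G ≤ 2 * h) (hc' : c' = ε * c / (40 * (I + 1)))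
    (hc'0 : 0 < c') (hlogs : lN * P * N ^ (1 / 2 : ℝ) ≤ c' * N ^ (9 / 10 : ℝ)) :
    I ≤ ε / 20 * (h * (N / lN)) := by
  have hN0 : 0 < N := by linarith
  have h3 : c ≤ 2 * h * P := by
    rw [div_le_iff₀ hP] at hG
    exact hG.trans (mul_le_mul_of_nonneg_right hGh hP.le)
  have h4 : N ^ (9 / 10 : ℝ) ≤ N := by
    calc N ^ (9 / 10 : ℝ) ≤ N ^ (1 : ℝ) :=
          Real.rpow_le_rpow_of_exponent_le hN.le (by norm_num)
      _ = N := Real.rpow_one _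
  have h5 : (1 : ℝ) ≤ N ^ (1 / 2 : ℝ) := Real.one_le_rpow hN.le (by norm_num)
  have h6 : lN * P ≤ c' * N := by
    calc lN * P ≤ lN * P * N ^ (1 / 2 : ℝ) := le_mul_of_one_le_right (by positivity) h5
      _ ≤ c' * N ^ (9 / 10 : ℝ) := hlogs
      _ ≤ c' * N := mul_le_mul_of_nonneg_left h4 hc'0.le
  have h7 : c' * (40 * (I + 1)) = ε * c := by
    rw [hc']
    field_simp
  have h9 : I * (lN * P) ≤ (I + 1) * (c' * N) := by
    have h10 : (0 : ℝ) ≤ c' * N := by positivity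
    have h11 : I * (lN * P) ≤ I * (c' * N) := mul_le_mul_of_nonneg_left h6 hI
    linarith
  have h10 : (I + 1) * (c' * N) = ε * c * N / 40 := by
    rw [← h7]
    ring
  have h12 : ε * c * N / 40 ≤ ε * (2 * h * P) * N / 40 := by
    have := mul_le_mul_of_nonneg_right (mul_le_mul_of_nonneg_left h3 hε.le) hN0.le
    linarith
  have h13 : I * lN * P ≤ ε / 20 * (h * N) * P := by
    calc I * lN * P = I * (lN * P) := by ring
      _ ≤ (I + 1) * (c' * N) := h9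
      _ = ε * c * N / 40 := h10
      _ ≤ ε * (2 * h * P) * N / 40 := h12
      _ = ε / 20 * (h * N) * P := by ring
  have h14 : I * lN ≤ ε / 20 * (h * N) := le_of_mul_le_mul_right h13 hP
  have h15 : ε / 20 * (h * (N / lN)) = ε / 20 * (h * N) / lN := by ring
  rw [h15, le_div_iff₀ hlN]
  exact h14

/-- the initial segment -/
theorem SI_le {SI CT G h X N ε lN : ℝ} (hX0 : 0 ≤ X) (hlN : 0 < lN)
    (hCT : 0 < CT) (hG : G ≤ 2 * h) (hh : 0 < h) (hX : X ≤ N * (ε / (40 * CT)))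
    (h3 : SI ≤ CT * G * X / lN) : SI ≤ ε / 20 * (h * (N / lN)) := by
  refine h3.trans ?_
  rw [div_le_iff₀ hlN]
  calc CT * G * X ≤ CT * (2 * h) * (N * (ε / (40 * CT))) :=
        mul_le_mul (mul_le_mul_of_nonneg_left hG hCT.le) hX hX0 (by positivity)
    _ = ε / 20 * (h * (N / lN)) * lN := by
        field_simp
        ring

/-- the sum of the models -/
theorem M_le {M q L ε : ℝ} (hL : 0 < L) (hε1 : ε ≤ 1) (hq : 0 ≤ q)
    (h : |M - (1 - q) / 2 * L| ≤ ε / 40 * L) : M ≤ L := by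
  have h3 := (abs_le.1 h).2
  nlinarith

/-- `Li ≥ 0` -/
theorem Li_nonneg {Li L ε : ℝ} (hL : 0 < L) (hε1 : ε ≤ 1) (h : |Li - L| ≤ ε / 40 * L) : 0 ≤ Li := by
  have h3 := (abs_le.1 h).1
  nlinarith

/-- the blocks together -/
theorem sum_blocks {I : ℕ} (c m G l : ℕ → ℝ) {h ε ε₁ L : ℝ} (hε : 0 < ε) (hε1 : ε ≤ 1)
    (hε₁ : 0 < ε₁) (hI : (I : ℝ) * ε₁ ≤ ε / 20) (hh : 0 < h) (hL : 0 < L)
    (hm : ∀ i ∈ range I, 0 ≤ m i) (hl : ∀ i ∈ range I, 0 ≤ l i) (hlL : ∀ i ∈ range I, l i ≤ L)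
    (h1 : ∀ i ∈ range I, |c i - G i * m i| ≤ ε₁ * G i * l i)
    (h2 : ∀ i ∈ range I, |G i - h| ≤ ε / 20 * h) (hML : ∑ i ∈ range I, m i ≤ L) :
    |(∑ i ∈ range I, c i) - h * ∑ i ∈ range I, m i| ≤ ε / 5 * (h * L) := by
  rw [Finset.mul_sum, ← Finset.sum_sub_distrib]
  calc |∑ i ∈ range I, (c i - h * m i)|
      ≤ ∑ i ∈ range I, |c i - h * m i| := Finset.abs_sum_le_sum_abs _ _
    _ ≤ ∑ i ∈ range I, (2 * ε₁ * (h * L) + ε / 20 * h * m i) :=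
        Finset.sum_le_sum fun i hi => FINBM.block_le (by linarith) hε₁.le hh
          (hm i hi) (hl i hi) (hlL i hi) (h1 i hi) (h2 i hi)
    _ = 2 * (I * ε₁) * (h * L) + ε / 20 * h * ∑ i ∈ range I, m i := by
        rw [Finset.sum_add_distrib, Finset.sum_const, nsmul_eq_mul, Finset.card_range,
          ← Finset.mul_sum]
        ring
    _ ≤ 2 * (ε / 20) * (h * L) + ε / 20 * h * L := by
        apply add_le_add
        · apply mul_le_mul_of_nonneg_right _ (by positivity)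
          linarith
        · exact mul_le_mul_of_nonneg_left hML (by positivity)
    _ ≤ ε / 5 * (h * L) := by
        have : 0 ≤ ε * (h * L) := by positivity
        nlinarith

/-- the union bound -/
theorem card_four {α : Type} [DecidableEq α] (S B1 B2 B3 B4 : Finset α)
    (h : S ⊆ B1 ∪ (B2 ∪ (B3 ∪ B4))) {K I : ℝ} (h1 : (B1.card : ℝ) ≤ K) (h2 : (B2.card : ℝ) ≤ I * K)
    (h3 : (B3.card : ℝ) ≤ I * K) (h4 : (B4.card : ℝ) ≤ K) : (S.card : ℝ) ≤ (2 * I + 2) * K := by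
  have h0 : (S.card : ℝ) ≤ ((B1 ∪ (B2 ∪ (B3 ∪ B4))).card : ℝ) := by
    exact_mod_cast Finset.card_le_card h
  have h5 := Finset.card_union_le B1 (B2 ∪ (B3 ∪ B4))
  have h6 := Finset.card_union_le B2 (B3 ∪ B4)
  have h7 := Finset.card_union_le B3 B4
  have h8 : ((B1 ∪ (B2 ∪ (B3 ∪ B4))).card : ℝ)
      ≤ (B1.card : ℝ) + ((B2.card : ℝ) + ((B3.card : ℝ) + (B4.card : ℝ))) := by
    exact_mod_cast (by omega :
      (B1 ∪ (B2 ∪ (B3 ∪ B4))).card ≤ B1.card + (B2.card + (B3.card + B4.card)))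
  linarith

end FINBXM

/-- FINB in the wider range `A ≤ N √(log N)` -/
def SpecFINBX : Prop := ∀ θ ε B : ℝ, 5 / 6 < θ → 0 < ε → 0 < B → ∃ N₀ : ℕ, ∀ N A : ℕ, N₀ ≤ N →
  (N : ℝ) ^ θ ≤ A → (A : ℝ) ≤ N * √(Real.log N) →
    exc A (fun a => ∃ h : ℝ, 0 < h ∧ IsC a h ∧ Good1 ε N N a h) ≤ A / (Real.log A) ^ B

namespace FINBXM

/-- the deterministic part, for one `a` -/
theorem point (hP : SpecRHOP) (h2 : SpecRHO2) {N I : ℕ} {W ε ε' ε₁ CT c c' : ℝ} {a : ℤ}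
    (hN3 : 3 ≤ N) (hε : 0 < ε) (hε1 : ε ≤ 1) (hεε : ε ≤ ε') (hε₁ : 0 < ε₁)
    (hI : (I : ℝ) * ε₁ ≤ ε / 20) (hCT : 0 < CT) (hc : 0 < c) (hc'0 : 0 < c')
    (hc' : c' = ε * c / (40 * (I + 1))) (hw2 : 2 ≤ wN W N)
    (hlow : c / Real.log ((wN W N : ℝ) + 1) ≤ Gw (wN W N) a)
    (hq1 : (1 : ℝ) / 2 ^ I ≤ ε / 20) (hq2 : (1 : ℝ) / 2 ^ I ≤ ε / (40 * CT))
    (hevM : |(∑ i ∈ range I, model (N / 2 ^ (i + 1)) primeInd)
      - (1 - 1 / 2 ^ I) / 2 * ((N : ℝ) / Real.log N)| ≤ ε / 40 * ((N : ℝ) / Real.log N))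
    (hevLi : |(∫ t in (2 : ℝ)..(N : ℝ), 1 / Real.log t) - (N : ℝ) / Real.log N|
      ≤ ε / 40 * ((N : ℝ) / Real.log N))
    (hlogs : Real.log N * ((Real.log N) ^ W + 2) * (N : ℝ) ^ (1 / 2 : ℝ)
      ≤ c' * (N : ℝ) ^ (9 / 10 : ℝ))
    (hl : ∀ i ∈ range I, 0 ≤ ((N / 2 ^ (i + 1) : ℕ) : ℝ) / Real.log ((N / 2 ^ (i + 1) : ℕ) : ℝ) ∧
      ((N / 2 ^ (i + 1) : ℕ) : ℝ) / Real.log ((N / 2 ^ (i + 1) : ℕ) : ℝ)
        ≤ (N : ℝ) / Real.log N)
    (n1 : ∃ h : ℝ, 0 < h ∧ Tendsto (fun v : ℕ => Gw v a) atTop (𝓝 h) ∧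
      |Gw (wN W N) a - h| ≤ ε / 20 * h)
    (n2 : ∀ i ∈ range I, ∃ h : ℝ, 0 < h ∧ Tendsto (fun v : ℕ => Gw v a) atTop (𝓝 h) ∧
      |Gw (wN W (N / 2 ^ (i + 1))) a - h| ≤ ε / 20 * h)
    (n3 : ∀ i ∈ range I, |cnt (N / 2 ^ (i + 1)) a primeInd
        - Gw (wN W (N / 2 ^ (i + 1))) a * model (N / 2 ^ (i + 1)) primeInd|
      ≤ ε₁ * Gw (wN W (N / 2 ^ (i + 1))) a * ((N / 2 ^ (i + 1) : ℕ) : ℝ)
        / Real.log ((N / 2 ^ (i + 1) : ℕ) : ℝ))
    (n4 : (((Icc 1 (N / 2 ^ I)).filter (fun n => (val a n).Prime)).card : ℝ)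
      ≤ CT * Gw (wN W N) a * ((N / 2 ^ I : ℕ) : ℝ) / Real.log N) :
    ∃ h : ℝ, 0 < h ∧ IsC a h ∧ Good1 ε' N N a h := by
  obtain ⟨h, hh0, hht, hh1⟩ := n1
  have hN1 : (1 : ℝ) < N := by exact_mod_cast (by omega : 1 < N)
  have hN0 : (0 : ℝ) < N := by linarith
  have hlog : 0 < Real.log N := Real.log_pos hN1
  have hL : 0 < (N : ℝ) / Real.log N := by positivity
  refine ⟨h, hh0, ?_, ?_⟩
  · unfold IsC
    refine hht.congr ?_
    intro X
    exact FIN.Gw_eq hP h2 X a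
  · unfold Good1
    rw [FIN.count_eq]
    have hGh : Gw (wN W N) a ≤ 2 * h := G_le hh0 hε1 hh1
    have hGlow : c / ((Real.log N) ^ W + 2) ≤ Gw (wN W N) a := by
      refine le_trans ?_ hlow
      apply div_le_div_of_nonneg_left hc.le _ (TAILUM.log_wN W N hN3)
      apply Real.log_pos
      have : (2 : ℝ) ≤ (wN W N : ℝ) := by exact_mod_cast hw2
      linarith
    have hIh : (I : ℝ) ≤ ε / 20 * (h * ((N : ℝ) / Real.log N)) :=
      I_le hN1 hlog (by positivity) (Nat.cast_nonneg _) hε hGlow hGh hc' hc'0 hlogs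
    have hX : ((N / 2 ^ I : ℕ) : ℝ) ≤ N * (ε / (40 * CT)) := by
      have h4 : ((N / 2 ^ I : ℕ) : ℝ) ≤ N * (1 / 2 ^ I) := by
        rw [mul_one_div, le_div_iff₀ (by positivity)]
        exact_mod_cast Nat.div_mul_le_self N (2 ^ I)
      exact h4.trans (mul_le_mul_of_nonneg_left hq2 hN0.le)
    have hSI : ∑ n ∈ Ioc 0 (N / 2 ^ I), primeInd (val a n)
        ≤ ε / 20 * (h * ((N : ℝ) / Real.log N)) := by
      refine SI_le (Nat.cast_nonneg _) hlog hCT hGh hh0 hX ?_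
      refine le_trans (le_of_eq ?_) n4
      exact (FIN.count_eq a (N / 2 ^ I)).symm
    have hSI0 : 0 ≤ ∑ n ∈ Ioc 0 (N / 2 ^ I), primeInd (val a n) :=
      Finset.sum_nonneg (fun _ _ => FIN.primeInd_nonneg _)
    have hML : ∑ i ∈ range I, model (N / 2 ^ (i + 1)) primeInd ≤ (N : ℝ) / Real.log N :=
      M_le hL hε1 (by positivity) hevM
    have hCn : |(∑ i ∈ range I, cnt (N / 2 ^ (i + 1)) a primeInd)
        - h * ∑ i ∈ range I, model (N / 2 ^ (i + 1)) primeInd|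
        ≤ ε / 5 * (h * ((N : ℝ) / Real.log N)) := by
      refine sum_blocks _ _ (fun i => Gw (wN W (N / 2 ^ (i + 1))) a)
        (fun i => ((N / 2 ^ (i + 1) : ℕ) : ℝ) / Real.log ((N / 2 ^ (i + 1) : ℕ) : ℝ))
        hε hε1 hε₁ hI hh0 hL (fun i _ => BLK.model_nonneg FIN.primeInd_nonneg)
        (fun i hi => (hl i hi).1) (fun i hi => (hl i hi).2) ?_ ?_ hML
      · intro i hi
        have h3 := n3 i hi
        rw [mul_div_assoc] at h3
        exact h3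
      · intro i hi
        obtain ⟨h', _, hht', hh2⟩ := n2 i hi
        have heq : h' = h := tendsto_nhds_unique hht' hht
        rw [heq] at hh2
        exact hh2
    have hbk := (FIN.blocks a N I).trans hIh
    have hfin := FINBM.final_rel hε hε1 hL hh0 hSI0 hSI hbk hCn hevM hevLi (by positivity) hq1
    refine hfin.trans ?_
    apply mul_le_mul_of_nonneg_right hεε
    exact mul_nonneg hh0.le (Li_nonneg hL hε1 hevLi)

/-- a union over the blocks -/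
theorem card_union {I : ℕ} {K : ℝ} (S : Finset ℤ) (P : ℕ → ℤ → Prop)
    (h : ∀ i ∈ range I, ((S.filter (fun a => ¬ P i a)).card : ℝ) ≤ K) :
    (((range I).biUnion (fun i => S.filter (fun a => ¬ P i a))).card : ℝ) ≤ I * K := by
  calc (((range I).biUnion (fun i => S.filter (fun a => ¬ P i a))).card : ℝ)
      ≤ ∑ i ∈ range I, ((S.filter (fun a => ¬ P i a)).card : ℝ) := by
        exact_mod_cast Finset.card_biUnion_le
    _ ≤ ∑ i ∈ range I, K := Finset.sum_le_sum h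
    _ = I * K := by rw [Finset.sum_const, nsmul_eq_mul, Finset.card_range]

/-- the exceptional sets together -/
theorem exc_le {A I : ℕ} {K : ℝ} (P P1 P4 : ℤ → Prop) (P2 P3 : ℕ → ℤ → Prop)
    (h1 : exc A P1 ≤ K) (h2 : ∀ i ∈ range I, exc A (P2 i) ≤ K)
    (h3 : ∀ i ∈ range I, exc A (P3 i) ≤ K) (h4 : exc A P4 ≤ K)
    (h : ∀ a ∈ IA A, P1 a → (∀ i ∈ range I, P2 i a) → (∀ i ∈ range I, P3 i a) → P4 a → P a) :
    exc A P ≤ (2 * I + 2) * K := by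
  unfold exc
  refine card_four _ ((IA A).filter (fun a => ¬ P1 a))
    ((range I).biUnion (fun i => (IA A).filter (fun a => ¬ P2 i a)))
    ((range I).biUnion (fun i => (IA A).filter (fun a => ¬ P3 i a)))
    ((IA A).filter (fun a => ¬ P4 a)) ?_ h1 (card_union _ _ h2) (card_union _ _ h3) h4
  intro a ha
  rw [Finset.mem_filter] at ha
  by_contra hcon
  rw [Finset.mem_union, Finset.mem_union, Finset.mem_union, not_or, not_or, not_or] at hcon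
  obtain ⟨n1, n2, n3, n4⟩ := hcon
  apply ha.2
  refine h a ha.1 ?_ ?_ ?_ ?_
  · by_contra hc
    exact n1 (Finset.mem_filter.2 ⟨ha.1, hc⟩)
  · intro i hi
    by_contra hc
    exact n2 (Finset.mem_biUnion.2 ⟨i, hi, Finset.mem_filter.2 ⟨ha.1, hc⟩⟩)
  · intro i hi
    by_contra hc
    exact n3 (Finset.mem_biUnion.2 ⟨i, hi, Finset.mem_filter.2 ⟨ha.1, hc⟩⟩)
  · by_contra hc
    exact n4 (Finset.mem_filter.2 ⟨ha.1, hc⟩)

/-- the bound for one exceptional set -/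
theorem one_exc {A T B l : ℝ} (hA : 0 < A) (hT : 0 < T) (hB : 0 < B) (hl : T ≤ 4 * l) :
    A / l ^ (B + 1) ≤ (4 : ℝ) ^ (B + 1) * (A / T ^ (B + 1)) := by
  have hl0 : 0 < l := by linarith
  have h3 : T ^ (B + 1) ≤ (4 : ℝ) ^ (B + 1) * l ^ (B + 1) := by
    rw [← Real.mul_rpow (by norm_num) hl0.le]
    exact Real.rpow_le_rpow hT.le hl (by linarith)
  rw [← mul_div_assoc, div_le_div_iff₀ (by positivity) (by positivity)]
  calc A * T ^ (B + 1) ≤ A * ((4 : ℝ) ^ (B + 1) * l ^ (B + 1)) :=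
        mul_le_mul_of_nonneg_left h3 hA.le
    _ = (4 : ℝ) ^ (B + 1) * A * l ^ (B + 1) := by ring

/-- the parameters -/
theorem params {ε CT : ℝ} (hε : 0 < ε) (hCT : 0 < CT) : ∃ I : ℕ, (1 : ℝ) / 2 ^ I ≤ ε / 20 ∧
    (1 : ℝ) / 2 ^ I ≤ ε / (40 * CT) ∧ (I : ℝ) * (ε / (20 * (I + 1))) ≤ ε / 20 := by
  obtain ⟨I, hI⟩ : ∃ I : ℕ, (1 / 2 : ℝ) ^ I < min (ε / 20) (ε / (40 * CT)) :=
    exists_pow_lt_of_lt_one (lt_min (by positivity) (by positivity)) (by norm_num)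
  have hI' : (1 : ℝ) / 2 ^ I < min (ε / 20) (ε / (40 * CT)) := by
    rwa [one_div_pow] at hI
  refine ⟨I, (hI'.trans_le (min_le_left _ _)).le, (hI'.trans_le (min_le_right _ _)).le, ?_⟩
  have h3 : (I : ℝ) * (ε / (20 * (I + 1))) = ε / 20 * (I / (I + 1)) := by
    field_simp
  rw [h3]
  have h4 : (I : ℝ) / (I + 1) ≤ 1 := by
    rw [div_le_one (by positivity)]
    linarith
  exact mul_le_of_le_one_right (by positivity) h4

end FINBXM

open FINBM FINBXM TAILUM FIN in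
theorem specFINBX (hBLK : SpecBLKU) (hF6 : SpecF6U) (hT : SpecTAILU) (hG : SpecGMAXU)
    (hMODP : SpecMODP) (hLI : SpecLI) (hP : SpecRHOP) (h2 : SpecRHO2) : SpecFINBX := by
  intro θ ε' B hθ hε' hB
  obtain ⟨ε, hε, hε1, hεε⟩ : ∃ ε : ℝ, 0 < ε ∧ ε ≤ 1 ∧ ε ≤ ε' :=
    ⟨min ε' 1, lt_min hε' one_pos, min_le_right _ _, min_le_left _ _⟩
  obtain ⟨CT, hCT, hT⟩ := hT
  have hB1 : 0 < B + 1 := by linarith
  obtain ⟨W1, hW1, hT⟩ := hT (B + 1) hB1
  obtain ⟨c, CG, hc, hCG, hG⟩ := hG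
  obtain ⟨I, hq1, hq2, hIε₁⟩ := params hε hCT
  obtain ⟨ε₁, hε₁, hε₁0⟩ : ∃ ε₁ : ℝ, ε₁ = ε / (20 * (I + 1)) ∧ 0 < ε₁ := ⟨_, rfl, by positivity⟩
  rw [← hε₁] at hIε₁
  obtain ⟨W2, hW2, hBLK⟩ := hBLK θ ε₁ (B + 1) hθ hε₁0 hB1
  obtain ⟨W3, hW3, hF6⟩ := hF6 (ε / 20) (B + 1) (by positivity) hB1
  obtain ⟨W, hWW1, hWW2, hWW3⟩ : ∃ W : ℝ, W1 ≤ W ∧ W2 ≤ W ∧ W3 + 1 ≤ W :=
    ⟨max W1 (max W2 (W3 + 1)), le_max_left _ _, (le_max_left _ _).trans (le_max_right _ _),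
      (le_max_right _ _).trans (le_max_right _ _)⟩
  have hW1' : 1 ≤ W := by linarith
  obtain ⟨N1, hT⟩ := hT W hWW1
  obtain ⟨N2, hBLK⟩ := hBLK W hWW2
  obtain ⟨A3, hF6⟩ := hF6 (W - 1) (by linarith)
  obtain ⟨c', hc', hc'0⟩ : ∃ c' : ℝ, c' = ε * c / (40 * (I + 1)) ∧ 0 < c' := ⟨_, rfl, by positivity⟩
  -- eventual facts
  have hevB : ∀ᶠ N : ℕ in atTop, ∀ i ∈ range I,
      N2 ≤ N / 2 ^ (i + 1) ∧
      (N : ℝ) * √(Real.log N)
        ≤ ((N / 2 ^ (i + 1) : ℕ) : ℝ) * Real.log ((N / 2 ^ (i + 1) : ℕ) : ℝ) ∧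
      ((N / 2 ^ (i + 1) : ℕ) : ℝ) / Real.log ((N / 2 ^ (i + 1) : ℕ) : ℝ)
        ≤ (N : ℝ) / Real.log N ∧ ∀ A : ℕ,
      (N : ℝ) ^ (5 / 6 : ℝ) ≤ A → (A : ℝ) ≤ N * √(Real.log N) →
      (Real.log A) ^ (W - 1) ≤ wN W (N / 2 ^ (i + 1)) ∧
      (wN W (N / 2 ^ (i + 1)) : ℝ) ≤ (Real.log A) ^ (W + 1) ∧
      Real.log A ≤ 4 * Real.log ((N / 2 ^ (i + 1) : ℕ) : ℝ) ∧ 1 ≤ Real.log A := by
    rw [Filter.eventually_all_finset]
    intro i _
    exact ((tendsto_Nk (i + 1)).eventually_ge_atTop N2).and ((ev_blockS (i + 1)).and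
      ((ev_L i).and (ev_wS (i + 1) W hW1')))
  obtain ⟨R, hR⟩ : ∃ R : ℝ, R = (2 * (I : ℝ) + 2) * (4 : ℝ) ^ (B + 1) := ⟨_, rfl⟩
  have hθ0 : 0 < θ := by linarith
  obtain ⟨N₀, hN₀⟩ := eventually_atTop.1 (hevB.and ((ev_large θ hθ0 A3).and
    ((ev_large θ hθ0 ⌈Real.exp R⌉₊).and ((ev_wS 0 W hW1').and
    ((ev_model hMODP I (ε / 40) (by positivity)).and ((ev_li hLI (ε / 40) (by positivity)).and
    ((ev_X I).and ((logs c' W hc'0).and ((two_le_wN W (by linarith)).and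
      ((eventually_ge_atTop N1).and (eventually_ge_atTop 3)))))))))))
  clear hevB
  refine ⟨N₀, fun N A hN hA1 hA2 => ?_⟩
  obtain ⟨hblk, hlA3, hlAR, hw0, hevM, hevLi, hX, hlogs, hw2, hNN1, hN3⟩ := hN₀ N hN
  clear hN₀
  have hN1 : (1 : ℝ) < N := by exact_mod_cast (by omega : 1 < N)
  have hN0 : (0 : ℝ) < N := by linarith
  have hA56 : (N : ℝ) ^ (5 / 6 : ℝ) ≤ A :=
    (Real.rpow_le_rpow_of_exponent_le hN1.le hθ.le).trans hA1
  have hA34 : (N : ℝ) ^ (3 / 4 : ℝ) ≤ A :=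
    (Real.rpow_le_rpow_of_exponent_le hN1.le (by norm_num)).trans hA56
  have hApos : (0 : ℝ) < A := (Real.rpow_pos_of_pos hN0 _).trans_le hA1
  have hw0' := hw0 A hA56 hA2
  rw [pow_zero, Nat.div_one] at hw0'
  obtain ⟨hw0a, hw0b, hw0c, hlA1⟩ := hw0'
  have hT0 : 0 < Real.log A := by linarith
  have hRT : R ≤ Real.log A := by
    have h3 := hlAR A hA1
    have h4 : Real.exp R ≤ A := (Nat.le_ceil _).trans (by exact_mod_cast h3)
    rw [Real.le_log_iff_exp_le hApos]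
    exact h4
  have hKF : (A : ℝ) / (Real.log A) ^ (B + 1)
      ≤ (4 : ℝ) ^ (B + 1) * (A / (Real.log A) ^ (B + 1)) :=
    one_exc hApos hT0 hB (by linarith)
  have hW12 : W - 1 + 2 = W + 1 := by ring
  have hAdm : ∀ i ∈ range I, Adm θ (N / 2 ^ (i + 1)) A := by
    intro i hi
    refine ⟨le_trans ?_ hA1, hA2.trans (hblk i hi).2.1⟩
    apply Real.rpow_le_rpow (Nat.cast_nonneg _) _ hθ0.le
    exact_mod_cast Nat.div_le_self N _
  have hXN : N / 2 ^ I ≤ N := Nat.div_le_self N _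
  have hmain := exc_le (A := A) (I := I) (K := (4 : ℝ) ^ (B + 1) * (A / (Real.log A) ^ (B + 1)))
    (fun a => ∃ h : ℝ, 0 < h ∧ IsC a h ∧ Good1 ε' N N a h)
    (fun a => ∃ h : ℝ, 0 < h ∧ Tendsto (fun v : ℕ => Gw v a) atTop (𝓝 h) ∧
      |Gw (wN W N) a - h| ≤ ε / 20 * h)
    (fun a => (((Icc 1 (N / 2 ^ I)).filter (fun n => (val a n).Prime)).card : ℝ)
      ≤ CT * Gw (wN W N) a * ((N / 2 ^ I : ℕ) : ℝ) / Real.log N)
    (fun i a => ∃ h : ℝ, 0 < h ∧ Tendsto (fun v : ℕ => Gw v a) atTop (𝓝 h) ∧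
      |Gw (wN W (N / 2 ^ (i + 1))) a - h| ≤ ε / 20 * h)
    (fun i a => |cnt (N / 2 ^ (i + 1)) a primeInd
        - Gw (wN W (N / 2 ^ (i + 1))) a * model (N / 2 ^ (i + 1)) primeInd|
      ≤ ε₁ * Gw (wN W (N / 2 ^ (i + 1))) a * ((N / 2 ^ (i + 1) : ℕ) : ℝ)
        / Real.log ((N / 2 ^ (i + 1) : ℕ) : ℝ))
    ((hF6 A (wN W N) (hlA3 A hA1) hw0a (by rw [hW12]; exact hw0b)).trans hKF)
    (fun i hi => by
      obtain ⟨u1, u2, _, _⟩ := (hblk i hi).2.2.2 A hA56 hA2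
      exact (hF6 A (wN W (N / 2 ^ (i + 1))) (hlA3 A hA1) u1 (by rw [hW12]; exact u2)).trans hKF)
    (fun i hi => by
      obtain ⟨_, _, u3, _⟩ := (hblk i hi).2.2.2 A hA56 hA2
      exact (hBLK (N / 2 ^ (i + 1)) A (hblk i hi).1 (hAdm i hi)).trans
        (one_exc hApos hT0 hB u3))
    ((hT N A (N / 2 ^ I) hNN1 hA34 hX hXN).trans (one_exc hApos hT0 hB hw0c))
    (fun a _ n1 n2 n3 n4 => point hP h2 hN3 hε hε1 hεε hε₁0 hIε₁ hCT hc hc'0 hc' hw2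
      (hG (wN W N) hw2 a).1 hq1 hq2 hevM hevLi hlogs
      (fun i hi => by
        obtain ⟨_, _, u3, _⟩ := (hblk i hi).2.2.2 A hA56 hA2
        have : 0 < Real.log ((N / 2 ^ (i + 1) : ℕ) : ℝ) := by linarith
        exact ⟨by positivity, (hblk i hi).2.2.1⟩) n1 n2 n3 n4)
  refine hmain.trans ?_
  calc (2 * (I : ℝ) + 2) * ((4 : ℝ) ^ (B + 1) * (A / (Real.log A) ^ (B + 1)))
      = R * (A / (Real.log A) ^ (B + 1)) := by rw [hR]; ring
    _ ≤ Real.log A * (A / (Real.log A) ^ (B + 1)) :=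
        mul_le_mul_of_nonneg_right hRT (by positivity)
    _ = A / (Real.log A) ^ B := by
        rw [Real.rpow_add hT0, Real.rpow_one]
        field_simp

/-- FINB: the range `A ≤ 3N` -/
theorem specFINB (hBLK : SpecBLKU) (hF6 : SpecF6U) (hT : SpecTAILU) (hG : SpecGMAXU)
    (hMODP : SpecMODP) (hLI : SpecLI) (hP : SpecRHOP) (h2 : SpecRHO2) : SpecFINB := by
  intro θ ε B hθ hε hB
  obtain ⟨N₁, h⟩ := specFINBX hBLK hF6 hT hG hMODP hLI hP h2 θ ε B hθ hε hB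
  have hlogN : Tendsto (fun N : ℕ => √(Real.log (N : ℝ))) atTop atTop :=
    Real.tendsto_sqrt_atTop.comp (Real.tendsto_log_atTop.comp tendsto_natCast_atTop_atTop)
  obtain ⟨N₂, hN₂⟩ := eventually_atTop.1 (hlogN.eventually_ge_atTop (3 : ℝ))
  refine ⟨max N₁ N₂, fun N A hN hA1 hA2 => h N A ((le_max_left _ _).trans hN) hA1 ?_⟩
  have h3 := hN₂ N ((le_max_right _ _).trans hN)
  have h4 : (A : ℝ) ≤ 3 * N := by exact_mod_cast hA2
  have h5 : (N : ℝ) * 3 ≤ N * √(Real.log N) := mul_le_mul_of_nonneg_left h3 (Nat.cast_nonneg _)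
  linarith

end Pool.Agent.Lib.MP391708.U
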