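import Pool.Agent.Lib.MP_391708_nt.U.SpecU5
import Pool.Agent.Lib.MP_391708_nt.QPA.F6
import Pool.Agent.Lib.MP_391708_nt.QPA.BasM

/-!
# GMAXU, WLOW: bounds for the partial products
-/

set_option autoImplicit false

namespace Pool.Agent.Lib.MP391708.U

open Finset Filter Topology
open Pool.Agent.Lib.MP391708.QPA

namespace GMAXUM

open scoped Classical

noncomputable section

lemma prod_bd (w : ℕ) (hw : 2 ≤ w) :
    ∏ m ∈ Icc 3 w, (1 - 1 / ((m : ℝ) - 1) ^ 2) = w / (2 * ((w : ℝ) - 1)) := by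
  induction w, hw using Nat.le_induction with
  | base => norm_num
  | succ w hw ih =>
    rw [prod_Icc_succ_top (by omega), ih]
    have h2 : (2 : ℝ) ≤ w := by exact_mod_cast hw
    have h0 : (w : ℝ) ≠ 0 := by linarith
    have h1 : (w : ℝ) - 1 ≠ 0 := by linarith
    push_cast
    rw [add_sub_cancel_right]
    field_simp
    ring

/-- `Vw` as a product over the odd primes -/
lemma Vw_eq (w : ℕ) (hw : 2 ≤ w) : Vw w = 2 * ∏ p ∈ F6.SP w, (1 - 1 / (p : ℝ))⁻¹ := by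
  unfold Vw
  rw [BasM.PB_eq]
  have h1 : (range (w + 1)).filter Nat.Prime = insert 2 (F6.SP w) := by
    ext p
    rw [mem_insert, F6.mem_SP, mem_filter, mem_range]
    constructor
    · rintro ⟨h1, h2⟩
      by_cases h : p = 2
      · exact Or.inl h
      · exact Or.inr ⟨by omega, h2, h⟩
    · rintro (h | ⟨h1, h2, _⟩)
      · subst h; exact ⟨by omega, Nat.prime_two⟩
      · exact ⟨by omega, h2⟩
  have h2 : (2 : ℕ) ∉ F6.SP w := by
    rw [F6.mem_SP]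
    rintro ⟨_, _, h⟩
    exact h rfl
  rw [h1, prod_insert h2]
  norm_num

lemma Vw_mono {w v : ℕ} (h : w ≤ v) : Vw w ≤ Vw v := by
  unfold Vw
  rw [BasM.PB_eq, BasM.PB_eq]
  apply prod_le_prod_of_subset_of_one_le
  · intro p hp
    rw [mem_filter, mem_range] at hp ⊢
    exact ⟨by omega, hp.2⟩
  · intro p hp
    have h2 : (2 : ℝ) ≤ p := by exact_mod_cast (mem_filter.1 hp).2.two_le
    have h3 : 1 / (p : ℝ) ≤ 1 := by rw [div_le_one (by linarith)]; linarith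
    exact inv_nonneg.2 (by linarith)
  · intro p hp _
    have h2 : (2 : ℝ) ≤ p := by exact_mod_cast (mem_filter.1 hp).2.two_le
    have h3 : 1 / (p : ℝ) < 1 := by rw [div_lt_one (by linarith)]; linarith
    have h4 : 0 ≤ 1 / (p : ℝ) := by positivity
    rw [one_le_inv₀ (by linarith)]
    linarith

/-- `Vw ≤ C log (w+1)` for all `w ≥ 2` -/
lemma Vw_le : ∃ C : ℝ, 0 < C ∧ ∀ w : ℕ, 2 ≤ w → Vw w ≤ C * Real.log (w + 1) := by
  obtain ⟨C, hC0, hC⟩ := BasM.Vw_le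
  refine ⟨C, hC0, fun w hw => ?_⟩
  have h1 := hC (w + 1) (by omega)
  push_cast at h1
  exact (Vw_mono (Nat.le_succ w)).trans h1

lemma upper (w : ℕ) (hw : 2 ≤ w) (a : ℤ) (hP : SpecRHOP) (h2 : SpecRHO2) : Gw w a ≤ Vw w := by
  rw [F6.Gw_eq hP h2, Vw_eq w hw]
  have h1 : ∏ p ∈ F6.SP w, (1 - (jacobiSym (-a) p : ℝ) / ((p : ℝ) - 1))
      ≤ ∏ p ∈ F6.SP w, (1 - 1 / (p : ℝ))⁻¹ := by
    apply Finset.prod_le_prod
    · intro p hp
      obtain ⟨-, hp1, hp2⟩ := F6.mem_SP.1 hp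
      exact (F6.fac_pos (-a) hp1 hp2).le
    · intro p hp
      obtain ⟨-, hp1, hp2⟩ := F6.mem_SP.1 hp
      have h3 := F6.three_le hp1 hp2
      have e1 : (1 - 1 / (p : ℝ))⁻¹ = 1 + 1 / ((p : ℝ) - 1) := by
        have : (p : ℝ) - 1 ≠ 0 := by linarith
        have : (p : ℝ) ≠ 0 := by linarith
        field_simp
        ring
      rw [e1]
      have h4 := (abs_le.1 (F6.jac_le (-a) p)).1
      have h5 : -1 / ((p : ℝ) - 1) ≤ (jacobiSym (-a) p : ℝ) / ((p : ℝ) - 1) :=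
        div_le_div_of_nonneg_right h4 (by linarith)
      have h6 : -1 / ((p : ℝ) - 1) = -(1 / ((p : ℝ) - 1)) := by ring
      linarith
  have h3 : 0 ≤ ∏ p ∈ F6.SP w, (1 - 1 / (p : ℝ))⁻¹ := by
    apply prod_nonneg
    intro p hp
    obtain ⟨-, hp1, hp2⟩ := F6.mem_SP.1 hp
    have h3 := F6.three_le hp1 hp2
    have h4 : 1 / (p : ℝ) ≤ 1 := by rw [div_le_one (by linarith)]; linarith
    exact inv_nonneg.2 (by linarith)
  linarith

lemma lower (w : ℕ) (hw : 2 ≤ w) (a : ℤ) (hP : SpecRHOP) (h2 : SpecRHO2) : 1 / Vw w ≤ Gw w a := by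
  have hV := BasM.Vw_pos w
  rw [div_le_iff₀ hV, F6.Gw_eq hP h2, Vw_eq w hw]
  have h1 : (∏ p ∈ F6.SP w, (1 - 1 / (p : ℝ))) * ∏ p ∈ F6.SP w, (1 - 1 / ((p : ℝ) - 1) ^ 2)
      ≤ ∏ p ∈ F6.SP w, (1 - (jacobiSym (-a) p : ℝ) / ((p : ℝ) - 1)) := by
    rw [← prod_mul_distrib]
    apply Finset.prod_le_prod
    · intro p hp
      obtain ⟨-, hp1, hp2⟩ := F6.mem_SP.1 hp
      have h3 := F6.three_le hp1 hp2
      have h4 : 1 / (p : ℝ) ≤ 1 := by rw [div_le_one (by linarith)]; linarith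
      have h5 : 1 / ((p : ℝ) - 1) ^ 2 ≤ 1 := by
        rw [div_le_one (by nlinarith)]; nlinarith
      exact mul_nonneg (by linarith) (by linarith)
    · intro p hp
      obtain ⟨-, hp1, hp2⟩ := F6.mem_SP.1 hp
      have h3 := F6.three_le hp1 hp2
      have e1 : (1 - 1 / (p : ℝ)) * (1 - 1 / ((p : ℝ) - 1) ^ 2) = 1 - 1 / ((p : ℝ) - 1) := by
        have : (p : ℝ) - 1 ≠ 0 := by linarith
        have : (p : ℝ) ≠ 0 := by linarith
        field_simp
        ring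
      rw [e1]
      have h4 := (abs_le.1 (F6.jac_le (-a) p)).2
      have h5 : (jacobiSym (-a) p : ℝ) / ((p : ℝ) - 1) ≤ 1 / ((p : ℝ) - 1) :=
        div_le_div_of_nonneg_right h4 (by linarith)
      linarith
  have h3 : 1 / 2 ≤ ∏ p ∈ F6.SP w, (1 - 1 / ((p : ℝ) - 1) ^ 2) := by
    have h4 : ∏ m ∈ Icc 3 w, (1 - 1 / ((m : ℝ) - 1) ^ 2) ≤
        ∏ p ∈ F6.SP w, (1 - 1 / ((p : ℝ) - 1) ^ 2) := by
      have hsub : F6.SP w ⊆ Icc 3 w := by
        intro p hp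
        obtain ⟨h5, h6, h7⟩ := F6.mem_SP.1 hp
        rw [mem_Icc]
        have := h6.two_le
        omega
      rw [← prod_sdiff hsub]
      have h5 : ∏ m ∈ Icc 3 w \ F6.SP w, (1 - 1 / ((m : ℝ) - 1) ^ 2) ≤ 1 := by
        apply prod_le_one
        · intro m hm
          have h6 : (3 : ℝ) ≤ m := by exact_mod_cast (mem_Icc.1 (mem_sdiff.1 hm).1).1
          have h7 : 1 / ((m : ℝ) - 1) ^ 2 ≤ 1 := by
            rw [div_le_one (by nlinarith)]; nlinarith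
          linarith
        · intro m hm
          have : 0 ≤ 1 / ((m : ℝ) - 1) ^ 2 := by positivity
          linarith
      have h6 : 0 ≤ ∏ p ∈ F6.SP w, (1 - 1 / ((p : ℝ) - 1) ^ 2) := by
        apply prod_nonneg
        intro p hp
        obtain ⟨-, hp1, hp2⟩ := F6.mem_SP.1 hp
        have h3 := F6.three_le hp1 hp2
        have h5 : 1 / ((p : ℝ) - 1) ^ 2 ≤ 1 := by
          rw [div_le_one (by nlinarith)]; nlinarith
        linarith
      exact mul_le_of_le_one_left h6 h5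
    refine le_trans ?_ h4
    rw [prod_bd w hw]
    have h5 : (2 : ℝ) ≤ w := by exact_mod_cast hw
    rw [div_le_div_iff₀ (by norm_num) (by linarith)]
    linarith
  have h4 : 0 < ∏ p ∈ F6.SP w, (1 - 1 / (p : ℝ)) := by
    apply prod_pos
    intro p hp
    obtain ⟨-, hp1, hp2⟩ := F6.mem_SP.1 hp
    have h3 := F6.three_le hp1 hp2
    have h4 : 1 / (p : ℝ) < 1 := by rw [div_lt_one (by linarith)]; linarith
    linarith
  have h5 : ∏ p ∈ F6.SP w, (1 - 1 / (p : ℝ))⁻¹ = (∏ p ∈ F6.SP w, (1 - 1 / (p : ℝ)))⁻¹ :=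
    prod_inv_distrib _
  rw [h5]
  set Q := ∏ p ∈ F6.SP w, (1 - 1 / (p : ℝ)) with hQ
  have h6 : Q * (1 / 2) ≤ ∏ p ∈ F6.SP w, (1 - (jacobiSym (-a) p : ℝ) / ((p : ℝ) - 1)) :=
    le_trans (mul_le_mul_of_nonneg_left h3 h4.le) h1
  have h7 : Q * (1 / 2) * (2 * Q⁻¹) = 1 := by
    field_simp
  calc (1 : ℝ) = Q * (1 / 2) * (2 * Q⁻¹) := h7.symm
    _ ≤ _ := mul_le_mul_of_nonneg_right h6 (by positivity)

lemma Wp_ge (z : ℝ) (w : ℕ) (hzw : z ≤ w) : 1 / Vw w ≤ Wp z := by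
  have h1 : Wp z = (∏ p ∈ PB z, (1 - 1 / (p : ℝ))⁻¹)⁻¹ := by
    unfold Wp
    rw [prod_inv_distrib, inv_inv]
  have h2 : ∏ p ∈ PB z, (1 - 1 / (p : ℝ))⁻¹ ≤ Vw w := by
    unfold Vw
    apply prod_le_prod_of_subset_of_one_le
    · intro p hp
      rw [BasM.PB_eq, mem_filter, mem_range]
      unfold PB at hp
      rw [mem_filter, mem_range, Nat.lt_ceil] at hp
      refine ⟨?_, hp.2⟩
      have : (p : ℝ) < w := lt_of_lt_of_le hp.1 hzw
      have : p < w := by exact_mod_cast this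
      omega
    · intro p hp
      unfold PB at hp
      have h2 : (2 : ℝ) ≤ p := by exact_mod_cast (mem_filter.1 hp).2.two_le
      have h3 : 1 / (p : ℝ) ≤ 1 := by rw [div_le_one (by linarith)]; linarith
      exact inv_nonneg.2 (by linarith)
    · intro p hp _
      unfold PB at hp
      have h2 : (2 : ℝ) ≤ p := by exact_mod_cast (mem_filter.1 hp).2.two_le
      have h3 : 1 / (p : ℝ) < 1 := by rw [div_lt_one (by linarith)]; linarith
      have h4 : 0 ≤ 1 / (p : ℝ) := by positivity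
      rw [one_le_inv₀ (by linarith)]
      linarith
  have h3 : 0 < ∏ p ∈ PB z, (1 - 1 / (p : ℝ))⁻¹ := by
    apply prod_pos
    intro p hp
    unfold PB at hp
    have h2 : (2 : ℝ) ≤ p := by exact_mod_cast (mem_filter.1 hp).2.two_le
    have h3 : 1 / (p : ℝ) < 1 := by rw [div_lt_one (by linarith)]; linarith
    exact inv_pos.2 (by linarith)
  rw [h1, one_div]
  exact inv_anti₀ h3 h2

end

end GMAXUM

open GMAXUM in
/-- Module GMAXU. -/
theorem specGMAXU (h2 : SpecRHO2) (hP : SpecRHOP) : SpecGMAXU := by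
  obtain ⟨C, hC0, hC⟩ := Vw_le
  refine ⟨1 / C, C, by positivity, hC0, fun w hw a => ⟨?_, (upper w hw a hP h2).trans (hC w hw)⟩⟩
  refine le_trans ?_ (lower w hw a hP h2)
  have h1 := BasM.Vw_pos w
  rw [div_div]
  exact one_div_le_one_div_of_le h1 (hC w hw)

open GMAXUM in
/-- Module WLOW. -/
theorem specWLOW : SpecWLOW := by
  obtain ⟨C, hC0, hC⟩ := Vw_le
  refine ⟨1 / (3 * C), by positivity, fun z hz => ?_⟩
  have h1 : z ≤ (⌈z⌉₊ : ℝ) := Nat.le_ceil z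
  have h2 : 2 ≤ ⌈z⌉₊ := by
    have : (2 : ℝ) ≤ (⌈z⌉₊ : ℝ) := hz.trans h1
    exact_mod_cast this
  refine le_trans ?_ (Wp_ge z ⌈z⌉₊ h1)
  have h3 := hC ⌈z⌉₊ h2
  have h4 : (⌈z⌉₊ : ℝ) + 1 ≤ z ^ 3 := by
    have := Nat.ceil_lt_add_one (show 0 ≤ z by linarith)
    nlinarith [sq_nonneg z, sq_nonneg (z - 2)]
  have h5 : Real.log ((⌈z⌉₊ : ℝ) + 1) ≤ 3 * Real.log z := by
    have h6 := Real.log_le_log (by positivity) h4
    rw [Real.log_pow] at h6
    exact_mod_cast h6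
  have h6 := BasM.Vw_pos ⌈z⌉₊
  have h7 : 0 < Real.log z := Real.log_pos (by linarith)
  rw [div_div]
  apply one_div_le_one_div_of_le h6
  calc Vw ⌈z⌉₊ ≤ C * Real.log ((⌈z⌉₊ : ℝ) + 1) := h3
    _ ≤ C * (3 * Real.log z) := mul_le_mul_of_nonneg_left h5 hC0.le
    _ = 3 * C * Real.log z := by ring

end Pool.Agent.Lib.MP391708.U
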