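import Pool.Agent.Lib.MP_391708_nt.U.SpecU5

/-!
# IEU: inclusion and exclusion over the products of the primes of `S`
-/

set_option autoImplicit false

namespace Pool.Agent.Lib.MP391708.U

open Finset Filter Topology
open Pool.Agent.Lib.MP391708.QPA
open scoped Classical

/-- Module IEU. -/
theorem specIEU : SpecIEU := by
  intro S
  induction S using Finset.induction_on with
  | empty =>
    intro _ f x y
    rw [Finset.powerset_empty, Finset.sum_singleton, Finset.card_empty, Finset.prod_empty,
      Nat.div_one, Nat.div_one, pow_zero, one_mul]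
    have : (Ioc x y).filter (F6.Fr ∅) = (Ioc x y).filter Odd := by
      refine Finset.filter_congr (fun k _ => ?_)
      simp [F6.Fr]
    rw [this]
    simp only [one_mul]
  | insert p S hpS ih =>
    intro hS f x y
    obtain ⟨hp, hp2⟩ := hS p (Finset.mem_insert_self p S)
    have hS' : ∀ r ∈ S, r.Prime ∧ r ≠ 2 := fun r hr => hS r (Finset.mem_insert_of_mem hr)
    have h1 := F6.split f hpS hp hp2 (fun r hr => (hS' r hr).1) x y
    have h2 := ih hS' f x y
    have h3 := ih hS' (fun m => f (p * m)) (x / p) (y / p)
    rw [Finset.sum_powerset_insert hpS]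
    have h4 : ∑ T ∈ S.powerset, (-1 : ℝ) ^ (insert p T).card *
        ∑ m ∈ (Ioc (x / ∏ q ∈ insert p T, q) (y / ∏ q ∈ insert p T, q)).filter Odd,
          f ((∏ q ∈ insert p T, q) * m)
        = - ∑ T ∈ S.powerset, (-1 : ℝ) ^ T.card *
          ∑ m ∈ (Ioc (x / p / ∏ q ∈ T, q) (y / p / ∏ q ∈ T, q)).filter Odd,
            f (p * ((∏ q ∈ T, q) * m)) := by
      rw [← Finset.sum_neg_distrib]
      refine Finset.sum_congr rfl (fun T hT => ?_)
      have hpT : p ∉ T := fun h => hpS (Finset.mem_powerset.1 hT h)
      rw [Finset.card_insert_of_notMem hpT, Finset.prod_insert hpT, Nat.div_div_eq_div_mul,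
        Nat.div_div_eq_div_mul, pow_succ]
      simp only [mul_assoc]
      ring
    rw [h4, ← h3, ← h2]
    linarith

end Pool.Agent.Lib.MP391708.U
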