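import Pool.Agent.Lib.MP_391708_nt.QPA.Spec

/-!
# Project U (MP_391708): one exceptional set of shifts, all lengths at once

Interface of the parts.  All definitions are those of `QPA/Defs.lean` (`z = N^e0`, `IA A` the integers `|a| ≤ A`,
`cnt N a f = ∑_{N<n≤2N} f(|n²+a|)`, `model N f = ∑_{N²<m≤4N²} f(m)/(2√m)`, `Gw w a`, `Wa z a`, `Wp z`, `FF N e2 c`, `bil`,
`sharp`, `Dav`, `pc`, `Vd`, `Wsum`, `Adm θ N A : N^θ ≤ A ≤ N log N`).  `w = wN W N = ⌈(log N)^W⌉` replaces the fixed `w` of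
QPA, and every error is a power of `log N`, or a power of `N`.  Parameters: the target exponent `B` first, then
`∃ W₀, ∀ W ≥ W₀, ∃ N₀`.  The complete proofs are in the files `SpecU1.lean`, `SpecU3.lean`, ... of the parts.
-/

set_option autoImplicit false

namespace Pool.Agent.Lib.MP391708.U

open Finset Filter Topology Pool.Agent.Lib.MP391708.QPA
open scoped Classical

noncomputable section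

/-- `⌈(log N)^W⌉` -/
def wN (W : ℝ) (N : ℕ) : ℕ := ⌈(Real.log N) ^ W⌉₊

/-- the number of the `|a| ≤ A` without the property `P` -/
def exc (A : ℕ) (P : ℤ → Prop) : ℝ := (((IA A).filter (fun a => ¬ P a)).card : ℝ)

/-! ## U1 (helper5): Siegel-Walfisz -/

/-- SWP: Siegel-Walfisz for primes. -/
def SpecSWP : Prop := ∀ C B : ℝ, 0 < C → 0 < B → ∃ X₀ : ℝ, ∀ x : ℝ, X₀ ≤ x → ∀ r : ℕ,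
  ((r : ℝ) + 1) ≤ (Real.log x) ^ C → ∀ χ : DirichletCharacter ℂ (r + 1), χ ≠ 1 →
    ‖∑ p ∈ (Icc 1 ⌊x⌋₊).filter Nat.Prime, χ (p : ZMod (r + 1))‖ ≤ x / (Real.log x) ^ B

/-- EQU (from SWP): fix all the prime factors but one; `∑ FF(c - i)(m)/m ≤ (log N)^|c|`. -/
def SpecEQU : Prop := ∀ (e0 B C : ℝ) (Q : ℕ) (c : Multiset ℕ), 0 < e0 → 1 ≤ Q → 0 < B → 0 < C → c ≠ 0 →
  (∀ i ∈ c, Q ≤ i) → ∃ N₀ : ℕ, ∀ N : ℕ, N₀ ≤ N → ∀ r : ℕ, ((r : ℝ) + 1) ≤ (Real.log N) ^ C →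
  ∀ ψ : DirichletCharacter ℂ (r + 1), ψ ≠ 1 → ∀ x₁ x₂ : ℝ, (N : ℝ) ≤ x₂ → x₂ ≤ (N : ℝ) ^ 3 →
    ‖∑ l ∈ Icc 1 ⌊x₂⌋₊, (cut x₁ x₂ (fun m => FF N (e0 / Q) c m) l : ℂ) * ψ (l : ZMod (r + 1))‖
      ≤ x₂ / (Real.log N) ^ B

/-! ## U5 (helper62): products over primes -/

/-- GMAXU: `c/log(w+1) ≤ Gw w a ≤ C log(w+1)` for every `a`. -/
def SpecGMAXU : Prop := ∃ c C : ℝ, 0 < c ∧ 0 < C ∧ ∀ w : ℕ, 2 ≤ w → ∀ a : ℤ,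
  c / Real.log (w + 1) ≤ Gw w a ∧ Gw w a ≤ C * Real.log (w + 1)

/-- WLOW: `c/log z ≤ Wp z` (Mertens). -/
def SpecWLOW : Prop := ∃ c : ℝ, 0 < c ∧ ∀ z : ℝ, 2 ≤ z → c / Real.log z ≤ Wp z

/-- PRODU (as PROD, second moment `A/w`, `w ≥ (log N)^W`, for every `w` in the range; `W₀` depends on `B` only). -/
def SpecPRODU : Prop := ∀ δ B : ℝ, 0 < δ → 0 < B → ∃ W₀ : ℝ, 0 < W₀ ∧ ∀ W : ℝ, W₀ ≤ W →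
  ∀ e0 : ℝ, 0 < e0 → e0 ≤ 1 / 10 → ∃ N₀ : ℕ, ∀ N A : ℕ, N₀ ≤ N → (N : ℝ) ^ (3 / 4 : ℝ) ≤ A →
    exc A (fun a => |Wa ((N : ℝ) ^ e0) a - Gw (wN W N) a * Wp ((N : ℝ) ^ e0)|
      ≤ δ * (Gw (wN W N) a * Wp ((N : ℝ) ^ e0))) ≤ A / (Real.log N) ^ B

/-- F6U: the constant `h_a` against `Gw w a`, for every `w` with `(log A)^W ≤ w ≤ (log A)^(W+2)`. -/
def SpecF6U : Prop := ∀ δ B : ℝ, 0 < δ → 0 < B → ∃ W₀ : ℝ, 0 < W₀ ∧ ∀ W : ℝ, W₀ ≤ W →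
  ∃ A₀ : ℕ, ∀ A w : ℕ, A₀ ≤ A → (Real.log A) ^ W ≤ w → (w : ℝ) ≤ (Real.log A) ^ (W + 2) →
    exc A (fun a => ∃ h : ℝ, 0 < h ∧ Tendsto (fun v : ℕ => Gw v a) atTop (𝓝 h) ∧ |Gw w a - h| ≤ δ * h)
      ≤ A / (Real.log A) ^ B

/-! ## U3 (helper2): averages over `a` with power saving -/

/-- MOBU (as MOB). -/
def SpecMOBU : Prop := ∀ θ e0 δ : ℝ, 5 / 6 < θ → 0 < e0 → e0 ≤ 1 / 10 → 0 < δ → ∃ σ : ℝ, 0 < σ ∧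
  ∃ N₀ : ℕ, ∀ N A : ℕ, N₀ ≤ N → Adm θ N A →
    exc A (fun a => |∑ k ∈ (Icc 1 ⌊YY N⌋₊).filter (fun k => Rough ((N : ℝ) ^ e0) k),
      (ArithmeticFunction.moebius k : ℝ) * ((rho a k : ℝ) - 1) / k| ≤ δ) ≤ A * (N : ℝ) ^ (-σ)

/-- RHOU: `∑ ρ_a(k)/k` over the rough `k` in a window of logarithmic width `2e log N`, `k ≤ 4N`.  The constant `C` is
absolute.  The divisors `e' > 1` of `k` far from `A` by SML, LRG; those in `[A N^(-ε'), A N^ε']`, `ε' ≤ e0`, trivially. -/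
def SpecRHOU : Prop := ∃ C : ℝ, 0 < C ∧ ∀ θ e0 e : ℝ, 5 / 6 < θ → 0 < e0 → e0 ≤ 1 / 10 → 0 < e → e ≤ 1 →
  ∃ σ : ℝ, 0 < σ ∧ ∃ N₀ : ℕ, ∀ N A : ℕ, N₀ ≤ N → Adm θ N A → ∀ X₁ X₂ : ℝ, 1 ≤ X₁ → X₁ ≤ X₂ →
    X₂ ≤ X₁ * (N : ℝ) ^ (2 * e) → X₂ ≤ 4 * N →
    exc A (fun a => ∑ k ∈ (Icc ⌈X₁⌉₊ ⌊X₂⌋₊).filter (fun k => 2 ≤ k ∧ Rough ((N : ℝ) ^ e0) k),
      (rho a k : ℝ) / k ≤ C * e / e0) ≤ A * (N : ℝ) ^ (-σ)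

/-- NSFU (as NSF, the proof gives a power saving). -/
def SpecNSFU : Prop := ∀ θ e0 : ℝ, 5 / 6 < θ → 0 < e0 → e0 ≤ 1 / 10 → ∃ σ : ℝ, 0 < σ ∧
  ∃ N₀ : ℕ, ∀ N A : ℕ, N₀ ≤ N → Adm θ N A →
    ∑ a ∈ IA A, cnt N a (fun m => if NSq ((N : ℝ) ^ e0) m then 1 else 0) ≤ A * (N : ℝ) ^ (1 - σ)

/-- MTBU (as MTB, with power saving; uniform in `η`). -/
def SpecMTBU : Prop := ∀ (θ e e0 : ℝ) (Q : ℕ) (c : Multiset ℕ), 5 / 6 < θ → 0 < e → 0 < e0 →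
  e0 ≤ 1 / 10 → 1 ≤ Q → (∀ i ∈ c, Q ≤ i) → ∃ σ : ℝ, 0 < σ ∧ ∃ N₀ : ℕ, ∀ N A : ℕ, N₀ ≤ N →
  Adm θ N A → NearA N A (e0 / Q) e c → ∀ K η : ℝ, 0 < η → η ≤ 1 / 4 → (N : ℝ) ^ (1 / 2 : ℝ) ≤ K →
  K ≤ (N : ℝ) ^ (1 - e) →
    ∑ a ∈ IA A, |∑ k ∈ Ioc ⌊K⌋₊ ⌊(1 + η) * K⌋₊, FF N (e0 / Q) c k * ((rho a k : ℝ) - 1) / √(k : ℝ)|
      ≤ A * √K * (N : ℝ) ^ (-σ)

/-- WINB: windows below `1 - c`: for every `a`, from the fundamental lemma, then RHOU and PRODU for almost all `a`.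
The factor `C` depends on `c` only, `e0 ≤ e1(c)`. -/
def SpecWINB : Prop := ∀ θ c : ℝ, 5 / 6 < θ → 0 < c → c ≤ 1 / 10 → ∃ C e1 : ℝ, 0 < C ∧ 0 < e1 ∧
  ∀ e0 e B : ℝ, 0 < e0 → e0 ≤ e1 → 0 < e → e ≤ c / 2 → 0 < B → ∃ W₀ : ℝ, 0 < W₀ ∧ ∀ W : ℝ, W₀ ≤ W →
  ∃ N₀ : ℕ, ∀ N A : ℕ, N₀ ≤ N → Adm θ N A → ∀ x : ℝ, 1 / 2 ≤ x → x ≤ 1 - c →
    exc A (fun a => cnt N a (fun m => if Rough ((N : ℝ) ^ e0) m ∧ ¬ NSq ((N : ℝ) ^ e0) m ∧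
        (Win N x e m ∨ Win N (2 - x) e m) then 1 else 0)
      ≤ C * (e / e0 ^ 2) * Gw (wN W N) a * N / Real.log N) ≤ A / (Real.log N) ^ B

/-! ## U2 (helper2): Theorem V, and the windows near `1` -/

/-- V: roots of quadratic congruences with arbitrary coefficients, in mean square over `a`, beyond the level `N`.
`σ` depends on `θ` only; `σ₂` also on `e0` (pairs `k, k'` with a common factor `≥ N^e0`). -/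
def SpecV : Prop := ∀ θ : ℝ, 5 / 6 < θ → ∃ σ : ℝ, 0 < σ ∧ ∀ e0 : ℝ, 0 < e0 → e0 ≤ 1 / 10 →
  ∃ σ₂ : ℝ, 0 < σ₂ ∧ ∃ N₀ : ℕ, ∀ N A : ℕ, N₀ ≤ N → Adm θ N A → ∀ (K : ℝ) (δ : ℕ) (c : ℕ → ℝ),
  1 ≤ K → K ≤ 4 * N → 1 ≤ δ → (δ : ℝ) ≤ (N : ℝ) ^ σ → Squarefree δ →
  (∀ p : ℕ, p.Prime → p ∣ δ → (p : ℝ) < (N : ℝ) ^ e0) → (∀ k, |c k| ≤ 1) →
  (∀ k, c k ≠ 0 → K < (k : ℝ) ∧ (k : ℝ) ≤ 2 * K ∧ Squarefree k ∧ Rough ((N : ℝ) ^ e0) k) →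
    ∑ a ∈ IA A, (∑ k ∈ Ioc ⌊K⌋₊ ⌊2 * K⌋₊, c k *
      ((((Ioc N (2 * N)).filter (fun n => k * δ ∣ val a n)).card : ℝ) - (rho a (k * δ) : ℝ) * N / (k * δ))) ^ 2
    ≤ A * (N : ℝ) ^ 2 * ((N : ℝ) ^ (-σ₂) / (δ : ℝ) ^ 2 + (N : ℝ) ^ (-(4 * σ)))

/-- WINA (from V, FL, RHOU, PRODU): windows around `x ∈ [1-c, 1]`.  FL for the pairs `(k,n)`, `k ∣ n²+a`, `k` in the window rough and
squarefree, `v = (n²+a)/k`, `z = N^e0`, level `z^16 ≤ N^σ`. -/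
def SpecWINA : Prop := ∀ θ : ℝ, 5 / 6 < θ → ∃ c C e1 : ℝ, 0 < c ∧ c ≤ 1 / 10 ∧ 0 < C ∧ 0 < e1 ∧
  ∀ e0 e B : ℝ, 0 < e0 → e0 ≤ e1 → 0 < e → e ≤ c / 2 → 0 < B → ∃ W₀ : ℝ, 0 < W₀ ∧ ∀ W : ℝ, W₀ ≤ W →
  ∃ N₀ : ℕ, ∀ N A : ℕ, N₀ ≤ N → Adm θ N A → ∀ x : ℝ, 1 - c ≤ x → x ≤ 1 →
    exc A (fun a => cnt N a (fun m => if Rough ((N : ℝ) ^ e0) m ∧ ¬ NSq ((N : ℝ) ^ e0) m ∧
        (Win N x e m ∨ Win N (2 - x) e m) then 1 else 0)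
      ≤ C * (e / e0 ^ 2) * Gw (wN W N) a * N / Real.log N) ≤ A / (Real.log N) ^ B

/-- WINU (from WINA, WINB): all windows. -/
def SpecWINU : Prop := ∀ θ : ℝ, 5 / 6 < θ → ∃ C e1 e2 : ℝ, 0 < C ∧ 0 < e1 ∧ 0 < e2 ∧
  ∀ e0 e B : ℝ, 0 < e0 → e0 ≤ e1 → 0 < e → e ≤ e2 → 0 < B → ∃ W₀ : ℝ, 0 < W₀ ∧ ∀ W : ℝ, W₀ ≤ W →
  ∃ N₀ : ℕ, ∀ N A : ℕ, N₀ ≤ N → Adm θ N A → ∀ x : ℝ, 1 / 2 ≤ x → x ≤ 3 / 2 →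
    exc A (fun a => cnt N a (fun m => if Rough ((N : ℝ) ^ e0) m ∧ ¬ NSq ((N : ℝ) ^ e0) m ∧
        Win N x e m then 1 else 0)
      ≤ C * (e / e0 ^ 2) * Gw (wN W N) a * N / Real.log N) ≤ A / (Real.log N) ^ B

/-! ## U6a (helper63): see `SpecU6a.lean` (`Bal`, BDHU, WBU, BALU) -/

/-! ## U6b (helper10): Cauchy-Schwarz, general Type II theorem, main terms, Type I -/

/-- TWOU (from SEC with the weight `lam = 1_{d=1}`, applied to `b / log N`, RAV): no sieve weights on `k`, power saving error. -/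
def SpecTWOU : Prop := ∀ θ e e0 B : ℝ, 5 / 6 < θ → 0 < e → 0 < e0 → 0 < B → ∃ C σ : ℝ, 0 < C ∧ 0 < σ ∧
  ∃ N₀ : ℕ, ∀ N A : ℕ, N₀ ≤ N → Adm θ N A → ∀ K L : ℝ,
  (N : ℝ) ^ (2 / 3 : ℝ) ≤ K → K ≤ (N : ℝ) ^ (1 - e) → (N : ℝ) ^ 2 / 2 ≤ K * L → K * L ≤ 5 * (N : ℝ) ^ 2 →
  ∀ α b : ℕ → ℝ, (∀ k, |α k| ≤ B * rInd ((N : ℝ) ^ e0) k) →
  (∀ k, α k ≠ 0 → K < (k : ℝ) ∧ (k : ℝ) ≤ 5 / 4 * K) →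
  (∀ u, |b u| ≤ Real.log N) → (∀ u, b u ≠ 0 → Odd u ∧ L < (u : ℝ) ∧ (u : ℝ) ≤ 5 / 4 * L) →
  (∑ a ∈ IA A, |bil (8 * N) a α b|) ^ 2 ≤ C * (A : ℝ) ^ 2 * K * (|Wsum K L b| + L * (N : ℝ) ^ (-σ))

/-- MTAU (as MTA, from FL): `w = wN W N`, `J` pieces, `η ≥ (log N)^(-E)`; the error of FL is `(log N)^(-B₁)` relative,
uniformly for `|β| ≤ B`. -/
def SpecMTAU : Prop := ∀ θ e e0 B B₁ E H W : ℝ, 5 / 6 < θ → 0 < e → 0 < e0 → 0 < B → 0 < B₁ → 0 < E →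
  0 < H → 0 < W → ∃ N₀ : ℕ, ∀ N A J : ℕ, N₀ ≤ N → Adm θ N A → 1 ≤ J → (J : ℝ) ≤ (Real.log N) ^ H →
  ∀ K L η : ℝ, (Real.log N) ^ (-E) ≤ η → η ≤ 1 / 4 →
  (N : ℝ) ^ (1 / 2 : ℝ) ≤ K → K ≤ (N : ℝ) ^ (1 - e) → (N : ℝ) ^ 2 / 2 ≤ K * L →
  K * L ≤ 5 * (N : ℝ) ^ 2 → ∀ α β : ℕ → ℝ, (∀ k, |α k| ≤ B * rInd ((N : ℝ) ^ e0) k) →
  (∀ k, α k ≠ 0 → K < (k : ℝ) ∧ (k : ℝ) ≤ 5 / 4 * K) → (∀ l, |β l| ≤ B) →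
  ∑ a ∈ IA A, |bil (8 * N) a α (sharp (wN W N) L η J β)
      - Gw (wN W N) a * ∑ i ∈ range J, Dav L η J β i * ∑ k ∈ Ioc ⌊K⌋₊ ⌊5 / 4 * K⌋₊, α k * ((rho a k : ℝ) / k)
        * (√(k * (L * (1 + η * (i + 1) / J))) - √(k * (L * (1 + η * i / J))))|
    ≤ A * N / (Real.log N) ^ B₁

/-- TIU (from FLA, FLB, PRODU, MOBU, RHOU, WMER, RSUM): Type I, error relative to `Gw`. -/
def SpecTIU : Prop := ∀ θ ε : ℝ, 5 / 6 < θ → 0 < ε → ∃ e1 : ℝ, 0 < e1 ∧ ∀ e0 B : ℝ, 0 < e0 → e0 ≤ e1 →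
  0 < B → ∃ W₀ : ℝ, 0 < W₀ ∧ ∀ W : ℝ, W₀ ≤ W → ∃ N₀ : ℕ, ∀ N A : ℕ, N₀ ≤ N → Adm θ N A →
    exc A (fun a => |cnt N a (psiM N e0) - Gw (wN W N) a * model N (psiM N e0)|
      ≤ ε * Gw (wN W N) a * N / Real.log N) ≤ A / (Real.log N) ^ B

/-! ## U6d (helper99): assembly of Type II, one block -/

/-- BLK2U (from TWOU, WBU, BALU, EQU, MTAU, MTBU, SHM, FFB, GMAXU). -/
def SpecBLK2U : Prop := ∀ (θ e e0 E B : ℝ) (Q : ℕ) (c₁ c₂ : Multiset ℕ), 5 / 6 < θ → 0 < e → 0 < e0 →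
  e0 ≤ 1 / 10 → 0 < E → 0 < B → 1 ≤ Q → (∀ i ∈ c₁, Q ≤ i) → (∀ i ∈ c₂, Q ≤ i) → c₂ ≠ 0 →
  ∃ W₀ : ℝ, 0 < W₀ ∧ ∀ W : ℝ, W₀ ≤ W → ∃ N₀ : ℕ, ∀ N A : ℕ, N₀ ≤ N → Adm θ N A →
  NearA N A (e0 / Q) e c₁ → ∀ K L η : ℝ, (Real.log N) ^ (-E) ≤ η → η ≤ 1 / 4 →
  (N : ℝ) ^ (2 / 3 : ℝ) ≤ K → K ≤ (N : ℝ) ^ (1 - e) → (N : ℝ) ^ 2 / 2 ≤ K * L → K * L ≤ 5 * (N : ℝ) ^ 2 →
  ∑ a ∈ IA A, |bil (8 * N) a (cut K ((1 + η) * K) (fun m => FF N (e0 / Q) c₁ m))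
        (cut L ((1 + η) * L) (fun m => FF N (e0 / Q) c₂ m))
      - Gw (wN W N) a * ∑ k ∈ Ioc ⌊K⌋₊ ⌊(1 + η) * K⌋₊, ∑ l ∈ Ioc ⌊L⌋₊ ⌊(1 + η) * L⌋₊,
          FF N (e0 / Q) c₁ k * FF N (e0 / Q) c₂ l / (2 * √((k : ℝ) * l))|
    ≤ A * N / (Real.log N) ^ B

/-- TIIU (from BLK2U, EDGE, BT, FFB, GMAXU): blocks with `η = (log N)^(-E)`. -/
def SpecTIIU : Prop := ∀ (θ e e0 B : ℝ) (Q : ℕ) (c₁ c₂ : Multiset ℕ), 5 / 6 < θ → 0 < e → 0 < e0 →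
  e0 ≤ 1 / 10 → 0 < B → 1 ≤ Q → (∀ i ∈ c₁, Q ≤ i) → (∀ i ∈ c₂, Q ≤ i) → Mid (e0 / Q) e c₁ →
  ∃ W₀ : ℝ, 0 < W₀ ∧ ∀ W : ℝ, W₀ ≤ W → ∃ N₀ : ℕ, ∀ N A : ℕ, N₀ ≤ N → Adm θ N A →
  NearA N A (e0 / Q) e c₁ →
  ∑ a ∈ IA A, |cnt N a (fun m => FF N (e0 / Q) (c₁ + c₂) m)
      - Gw (wN W N) a * model N (fun m => FF N (e0 / Q) (c₁ + c₂) m)| ≤ A * N / (Real.log N) ^ B

/-- BLKU (from TIU, T2, TIIU, WINU, WINM, NSFU, NSFM, GMAXU, FFB): one block. -/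
def SpecBLKU : Prop := ∀ θ ε B : ℝ, 5 / 6 < θ → 0 < ε → 0 < B → ∃ W₀ : ℝ, 0 < W₀ ∧ ∀ W : ℝ, W₀ ≤ W →
  ∃ N₀ : ℕ, ∀ N A : ℕ, N₀ ≤ N → Adm θ N A →
    exc A (fun a => |cnt N a primeInd - Gw (wN W N) a * model N primeInd|
      ≤ ε * Gw (wN W N) a * N / Real.log N) ≤ A / (Real.log N) ^ B

/-! ## U6c (helper69): all scales, the exceptional set -/

/-- TAILU (from FL, RHOC, PRODU): upper bound for the primes in an initial segment, `X ≥ N^(9/10)`. -/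
def SpecTAILU : Prop := ∃ C : ℝ, 0 < C ∧ ∀ B : ℝ, 0 < B → ∃ W₀ : ℝ, 0 < W₀ ∧ ∀ W : ℝ, W₀ ≤ W →
  ∃ N₀ : ℕ, ∀ N A X : ℕ, N₀ ≤ N → (N : ℝ) ^ (3 / 4 : ℝ) ≤ A → (N : ℝ) ^ (9 / 10 : ℝ) ≤ X → X ≤ N →
    exc A (fun a => (((Icc 1 X).filter (fun n => (val a n).Prime)).card : ℝ)
      ≤ C * Gw (wN W N) a * X / Real.log N) ≤ A / (Real.log N) ^ B

/-- the formula of Q1 for the shift `a` at the length `M`, with the error `ε h Li(N)` -/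
def Good1 (ε : ℝ) (N M : ℕ) (a : ℤ) (h : ℝ) : Prop :=
  |(((Icc 1 M).filter (fun n : ℕ => Nat.Prime ((n : ℤ) ^ 2 + a).natAbs)).card : ℝ)
    - 1 / 2 * h * ∫ t in (2 : ℝ)..(M : ℝ), 1 / Real.log t| ≤ ε * (h * ∫ t in (2 : ℝ)..(N : ℝ), 1 / Real.log t)

/-- `h` is the constant of the problem for `a` -/
def IsC (a : ℤ) (h : ℝ) : Prop :=
  Tendsto (fun X : ℕ => ∏ w ∈ (range (X + 1)).filter (fun w => Nat.Prime w ∧ w ≠ 2),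
      (1 - (jacobiSym (-a) w : ℝ) / ((w : ℝ) - 1))) atTop (𝓝 h)

/-- FINB (from BLKU, F6U, TAILU, MODP, LI, RHOP, RHO2, GMAXU): one scale.  Here `N^θ ≤ A ≤ 3N`. -/
def SpecFINB : Prop := ∀ θ ε B : ℝ, 5 / 6 < θ → 0 < ε → 0 < B → ∃ N₀ : ℕ, ∀ N A : ℕ, N₀ ≤ N →
  (N : ℝ) ^ θ ≤ A → A ≤ 3 * N →
    exc A (fun a => ∃ h : ℝ, 0 < h ∧ IsC a h ∧ Good1 ε N N a h) ≤ A / (Real.log A) ^ B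

/-- UNI (from FINB, LI): all the scales `N ∈ [|a|, |a|^(6/5-δ)]` at once, for the `a` with `A/2 < |a| ≤ A`.
Union over the `N = ⌈(1+ε')^j⌉`, monotonicity of the counting function and of `Li`. -/
def SpecUNI : Prop := ∀ δ ε B : ℝ, 0 < δ → δ < 1 / 5 → 0 < ε → 0 < B → ∃ A₀ : ℕ, ∀ A : ℕ, A₀ ≤ A →
  exc A (fun a => (A : ℝ) / 2 < |(a : ℝ)| → ∃ h : ℝ, 0 < h ∧ IsC a h ∧
    ∀ N : ℕ, |(a : ℝ)| ≤ N → (N : ℝ) ≤ |(a : ℝ)| ^ (6 / 5 - δ) → Good1 ε N N a h)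
    ≤ A / (Real.log A) ^ B

/-- MAINU (from UNI): the theorem. -/
def SpecMAINU : Prop := ∃ E : Set ℤ,
  (∀ B : ℝ, ∃ A₀ : ℕ, ∀ A : ℕ, A₀ ≤ A →
    (((Icc (-(A : ℤ)) A).filter (fun a => a ∈ E)).card : ℝ) ≤ A / (Real.log A) ^ B) ∧
  ∀ δ ε : ℝ, 0 < δ → 0 < ε → ∃ a₀ : ℝ, ∀ a : ℤ, a ∉ E → a₀ ≤ |(a : ℝ)| →
    ∃ h : ℝ, 0 < h ∧ IsC a h ∧ ∀ N : ℕ, |(a : ℝ)| ≤ N → (N : ℝ) ≤ |(a : ℝ)| ^ (6 / 5 - δ) →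
      |(((Icc 1 N).filter (fun n : ℕ => Nat.Prime ((n : ℤ) ^ 2 + a).natAbs)).card : ℝ)
        - 1 / 2 * h * ∫ t in (2 : ℝ)..(N : ℝ), 1 / Real.log t|
        ≤ ε * (h * ∫ t in (2 : ℝ)..(N : ℝ), 1 / Real.log t)

end

end Pool.Agent.Lib.MP391708.U
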