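import Pool.Agent.Lib.MP_391708_nt.QPA.Mob
import Pool.Agent.Lib.MP_391708_nt.U.SpecU

/-!
# MOBU: the Möbius sum is small outside a set of power saving size
-/

set_option autoImplicit false

namespace Pool.Agent.Lib.MP391708.U

open Finset Filter Topology Pool.Agent.Lib.MP391708.QPA
open scoped Classical

/-- Chebyshev's inequality for the second moment. -/
theorem MOBUM.cheb (A : ℕ) (F : ℤ → ℝ) (δ B : ℝ) (hδ : 0 < δ)
    (h : ∑ a ∈ IA A, (F a) ^ 2 ≤ δ ^ 2 * B) : exc A (fun a => |F a| ≤ δ) ≤ B := by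
  have h3 : (((IA A).filter (fun a => ¬ |F a| ≤ δ)).card : ℝ) * δ ^ 2
      ≤ ∑ a ∈ IA A, (F a) ^ 2 := by
    calc _ = ∑ a ∈ (IA A).filter (fun a => ¬ |F a| ≤ δ), δ ^ 2 := by
          rw [sum_const, nsmul_eq_mul]
      _ ≤ ∑ a ∈ (IA A).filter (fun a => ¬ |F a| ≤ δ), (F a) ^ 2 := by
          refine sum_le_sum fun a ha => ?_
          have h4 := (mem_filter.1 ha).2
          rw [not_le] at h4
          rw [← sq_abs (F a)]
          exact pow_le_pow_left₀ hδ.le h4.le 2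
      _ ≤ _ := sum_le_sum_of_subset_of_nonneg (filter_subset _ _) fun a _ _ => sq_nonneg _
  have h4 := h3.trans h
  have h5 : δ ^ 2 * B = B * δ ^ 2 := by ring
  rw [h5] at h4
  exact le_of_mul_le_mul_right h4 (by positivity)

theorem specMOBU (hS : SpecSML) (hD : SpecRHOD) : SpecMOBU := by
  intro θ e0 δ hθ he0 he1 hδ
  obtain ⟨C, hC0, hC⟩ := Mob.moment hS hD
  set σ : ℝ := min e0 (1 / 10) / 2 with hσ
  have hσ0 : 0 < σ := by
    have : 0 < min e0 (1 / 10) := lt_min he0 (by norm_num)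
    linarith
  have hσ1 : σ < e0 := by
    have : min e0 (1 / 10) ≤ e0 := min_le_left _ _
    linarith
  have hσ2 : σ < 1 / 10 := by
    have : min e0 (1 / 10) ≤ 1 / 10 := min_le_right _ _
    linarith
  refine ⟨σ, hσ0, ?_⟩
  have lim1 : Tendsto (fun N : ℕ => (N : ℝ) ^ e0) atTop atTop :=
    (tendsto_rpow_atTop he0).comp tendsto_natCast_atTop_atTop
  obtain ⟨N₀, hN₀⟩ := eventually_atTop.1 ((((lim1.eventually_ge_atTop 3).and
    (Mob.log_pow_small (show 0 < e0 - σ by linarith) (show 0 < δ ^ 2 / (2 * C) by positivity))).and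
    (Mob.log_pow_small (show (0 : ℝ) < 1 / 10 - σ by linarith)
      (show 0 < δ ^ 2 / (2 * C) by positivity))).and (eventually_ge_atTop 2))
  refine ⟨N₀, fun N A hN hA => ?_⟩
  obtain ⟨⟨⟨hz, hs1⟩, hs2⟩, hN2⟩ := hN₀ N hN
  have hNr : (2 : ℝ) ≤ N := by exact_mod_cast hN2
  have hN0 : (0 : ℝ) < N := by linarith
  set z : ℝ := (N : ℝ) ^ e0 with hzdef
  have hAA : (N : ℝ) ^ (5 / 6 : ℝ) ≤ A :=
    (Real.rpow_le_rpow_of_exponent_le (by linarith) hθ.le).trans hA.1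
  have hA1 : (1 : ℝ) ≤ A := (Real.one_le_rpow (by linarith) (by norm_num)).trans hAA
  have hA1' : 1 ≤ A := by exact_mod_cast hA1
  have hYY1 : 1 ≤ YY N := Real.one_le_rpow (by linarith) (by norm_num)
  set Y : ℕ := ⌊YY N⌋₊ with hY
  have hY1 : 1 ≤ Y := Nat.le_floor (by exact_mod_cast hYY1)
  have hYN : (Y : ℝ) ≤ (N : ℝ) ^ (2 / 3 : ℝ) := by
    refine (Nat.floor_le (by linarith)).trans ?_
    unfold YY
    exact Real.rpow_le_rpow (by linarith) (by linarith) (by norm_num)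
  have hYr1 : (1 : ℝ) ≤ Y := by exact_mod_cast hY1
  have hYN' : (Y : ℝ) ≤ N := by
    refine hYN.trans ?_
    calc (N : ℝ) ^ (2 / 3 : ℝ) ≤ (N : ℝ) ^ (1 : ℝ) :=
          Real.rpow_le_rpow_of_exponent_le (by linarith) (by norm_num)
      _ = N := Real.rpow_one _
  have hLL : 1 + Real.log Y ≤ 1 + Real.log N := by
    have := Real.log_le_log (by linarith) hYN'
    linarith
  have hL0 : 0 ≤ 1 + Real.log Y := by
    have := Real.log_nonneg hYr1
    linarith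
  have hmom := hC z Y A (by linarith) hY1 hA1'
  have h1 : (A : ℝ) / z + (Y : ℝ) ^ (1 + 1 / 10 : ℝ)
      ≤ A * ((N : ℝ) ^ (-e0) + (N : ℝ) ^ (-(1 / 10) : ℝ)) := by
    rw [mul_add]
    apply add_le_add
    · rw [Real.rpow_neg hN0.le, ← hzdef, div_eq_mul_inv]
    · calc (Y : ℝ) ^ (1 + 1 / 10 : ℝ) ≤ ((N : ℝ) ^ (2 / 3 : ℝ)) ^ (1 + 1 / 10 : ℝ) :=
            Real.rpow_le_rpow (by linarith) hYN (by norm_num)
        _ = (N : ℝ) ^ (5 / 6 : ℝ) * (N : ℝ) ^ (-(1 / 10) : ℝ) := by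
            rw [← Real.rpow_mul hN0.le, ← Real.rpow_add hN0]
            norm_num
        _ ≤ _ := mul_le_mul_of_nonneg_right hAA (by positivity)
  have hp1 : (N : ℝ) ^ (-e0) = (N : ℝ) ^ (-σ) * (N : ℝ) ^ (-(e0 - σ)) := by
    rw [← Real.rpow_add hN0]
    congr 1
    ring
  have hp2 : (N : ℝ) ^ (-(1 / 10) : ℝ) = (N : ℝ) ^ (-σ) * (N : ℝ) ^ (-(1 / 10 - σ)) := by
    rw [← Real.rpow_add hN0]
    congr 1
    ring
  have hpσ : 0 < (N : ℝ) ^ (-σ) := Real.rpow_pos_of_pos hN0 _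
  have h2 : ∑ a ∈ IA A, (Mob.FS z Y a) ^ 2 ≤ δ ^ 2 * (A * (N : ℝ) ^ (-σ)) := by
    refine hmom.trans ?_
    calc C * (1 + Real.log Y) ^ 4 * (A / z + (Y : ℝ) ^ (1 + 1 / 10 : ℝ))
        ≤ C * (1 + Real.log N) ^ 4 * (A * ((N : ℝ) ^ (-e0) + (N : ℝ) ^ (-(1 / 10) : ℝ))) := by
          apply mul_le_mul
          · exact mul_le_mul_of_nonneg_left (pow_le_pow_left₀ hL0 hLL 4) hC0.le
          · exact h1
          · have : 0 ≤ (Y : ℝ) ^ (1 + 1 / 10 : ℝ) := by positivity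
            have : 0 ≤ (A : ℝ) / z := by positivity
            linarith
          · have : 0 ≤ 1 + Real.log N := hL0.trans hLL
            positivity
      _ = C * A * (N : ℝ) ^ (-σ) * ((1 + Real.log N) ^ 4 * (N : ℝ) ^ (-(e0 - σ))
            + (1 + Real.log N) ^ 4 * (N : ℝ) ^ (-(1 / 10 - σ))) := by
          rw [hp1, hp2]
          ring
      _ ≤ C * A * (N : ℝ) ^ (-σ) * (δ ^ 2 / (2 * C) + δ ^ 2 / (2 * C)) := by
          apply mul_le_mul_of_nonneg_left _ (by positivity)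
          exact add_le_add hs1 hs2
      _ = δ ^ 2 * (A * (N : ℝ) ^ (-σ)) := by
          field_simp
          ring
  exact MOBUM.cheb A (fun a => Mob.FS z Y a) δ _ hδ h2

end Pool.Agent.Lib.MP391708.U
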