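import Pool.Agent.Lib.MP_391708_nt.U.SpecU
import Pool.Agent.Lib.MP_391708_nt.QPA.BasM

/-!
# Project U: basic facts on `wN W N` and on powers of the logarithm
-/

set_option autoImplicit false

namespace Pool.Agent.Lib.MP391708.U

open Finset Filter Topology Pool.Agent.Lib.MP391708.QPA
open scoped Classical

namespace Bas

open BasM

lemma tendsto_log : Tendsto (fun N : ℕ => Real.log (N : ℝ)) atTop atTop :=
  Real.tendsto_log_atTop.comp tendsto_natCast_atTop_atTop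

/-- every constant is below every positive power of `log N` -/
lemma ev_lconst {b : ℝ} (hb : 0 < b) (C : ℝ) : ∀ᶠ N : ℕ in atTop, C ≤ (Real.log N) ^ b :=
  ((tendsto_rpow_atTop hb).comp tendsto_log).eventually_ge_atTop C

/-- `C (log N)^a ≤ (log N)^b` for `a < b` -/
lemma ev_lpow {a b : ℝ} (hab : a < b) (C : ℝ) : ∀ᶠ N : ℕ in atTop,
    C * (Real.log N) ^ a ≤ (Real.log N) ^ b := by
  filter_upwards [ev_lconst (sub_pos.2 hab) C, ev_log 1] with N hN h1
  have h0 : 0 < Real.log N := by linarith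
  calc C * (Real.log N) ^ a ≤ (Real.log N) ^ (b - a) * (Real.log N) ^ a :=
        mul_le_mul_of_nonneg_right hN (Real.rpow_nonneg h0.le _)
    _ = (Real.log N) ^ b := by rw [← Real.rpow_add h0]; congr 1; ring

/-- `C (log N)^a ≤ N^b` for `0 < b` -/
lemma ev_lN (a : ℝ) {b : ℝ} (hb : 0 < b) (C : ℝ) : ∀ᶠ N : ℕ in atTop,
    C * (Real.log N) ^ a ≤ (N : ℝ) ^ b := by
  have h : (fun x : ℝ => Real.log x ^ a) =o[atTop] fun x => x ^ b := isLittleO_log_rpow_rpow_atTop a hb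
  have h1 : (0 : ℝ) < 1 / (|C| + 1) := by positivity
  have h2 := h.def h1
  have h3 := (tendsto_natCast_atTop_atTop (R := ℝ)).eventually h2
  filter_upwards [h3, ev_log 1, eventually_ge_atTop 1] with N hN h1 hN1
  have h0 : 0 < Real.log N := by linarith
  have hNb : 0 ≤ (N : ℝ) ^ b := Real.rpow_nonneg (Nat.cast_nonneg N) b
  have hLa : 0 ≤ (Real.log N) ^ a := Real.rpow_nonneg h0.le a
  rw [Real.norm_of_nonneg hLa, Real.norm_of_nonneg hNb] at hN
  have hC : 0 < |C| + 1 := by positivity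
  have h4 : (|C| + 1) * (Real.log N) ^ a ≤ (N : ℝ) ^ b := by
    rw [div_mul_eq_mul_div, one_mul, le_div_iff₀ hC] at hN
    linarith
  nlinarith [le_abs_self C]

/-! ### the function `wN` -/

lemma le_wN (W : ℝ) (N : ℕ) : (Real.log N) ^ W ≤ wN W N := Nat.le_ceil _

lemma wN_lt {W : ℝ} {N : ℕ} (h : 0 ≤ Real.log N) : (wN W N : ℝ) < (Real.log N) ^ W + 1 :=
  Nat.ceil_lt_add_one (Real.rpow_nonneg h W)

/-- `w = wN W N` is large -/
lemma ev_wN {W : ℝ} (hW : 0 < W) (K : ℕ) : ∀ᶠ N : ℕ in atTop, K ≤ wN W N := by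
  filter_upwards [ev_lconst hW (K : ℝ)] with N hN
  exact_mod_cast hN.trans (le_wN W N)

/-- `w + 1 ≤ (log N)^(W+1)` -/
lemma ev_wN_le {W : ℝ} (hW : 0 < W) : ∀ᶠ N : ℕ in atTop, (wN W N : ℝ) + 1 ≤ (Real.log N) ^ (W + 1) := by
  filter_upwards [ev_lpow (show W < W + 1 by linarith) 3, ev_log 1, ev_lconst hW 1] with N h1 h2 h3
  have := wN_lt (W := W) (N := N) (by linarith)
  linarith

/-- `C log(w+1) ≤ (log N)^b` for `0 < b` -/
lemma ev_logw {W : ℝ} (hW : 0 < W) {b : ℝ} (hb : 0 < b) (C : ℝ) : ∀ᶠ N : ℕ in atTop,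
    C * Real.log ((wN W N : ℝ) + 1) ≤ (Real.log N) ^ b := by
  have h := (isLittleO_log_rpow_atTop hb).def
    (show (0 : ℝ) < 1 / ((|C| + 1) * (W + 1)) by positivity)
  have h' := tendsto_log.eventually h
  filter_upwards [h', ev_wN_le hW, ev_log 1] with N hN h1 h2
  have h0 : 0 < Real.log N := by linarith
  have hll : 0 ≤ Real.log (Real.log N) := Real.log_nonneg h2
  have hw1 : (1 : ℝ) ≤ (wN W N : ℝ) + 1 := by
    have : (0 : ℝ) ≤ wN W N := Nat.cast_nonneg _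
    linarith
  have hlw0 : 0 ≤ Real.log ((wN W N : ℝ) + 1) := Real.log_nonneg hw1
  have hlw : Real.log ((wN W N : ℝ) + 1) ≤ (W + 1) * Real.log (Real.log N) := by
    rw [← Real.log_rpow h0]
    exact Real.log_le_log (by linarith) h1
  rw [Real.norm_of_nonneg hll, Real.norm_of_nonneg (Real.rpow_nonneg h0.le b)] at hN
  have hC : 0 < (|C| + 1) * (W + 1) := by positivity
  rw [div_mul_eq_mul_div, one_mul, le_div_iff₀ hC] at hN
  have hx : (|C| + 1) * Real.log ((wN W N : ℝ) + 1) ≤ (|C| + 1) * ((W + 1) * Real.log (Real.log N)) :=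
    mul_le_mul_of_nonneg_left hlw (by positivity)
  nlinarith [le_abs_self C]

lemma exc_nonneg (A : ℕ) (P : ℤ → Prop) : 0 ≤ exc A P := Nat.cast_nonneg _

/-- monotonicity -/
lemma exc_mono {A : ℕ} {P P' : ℤ → Prop} (h : ∀ a ∈ IA A, P a → P' a) : exc A P' ≤ exc A P := by
  unfold exc
  exact_mod_cast card_le_card (fun a ha => by
    rw [mem_filter] at ha ⊢
    exact ⟨ha.1, fun hP => ha.2 (h a ha.1 hP)⟩)

/-- the union of two exceptional sets -/
lemma exc_and (A : ℕ) (P P' : ℤ → Prop) : exc A (fun a => P a ∧ P' a) ≤ exc A P + exc A P' := by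
  unfold exc
  have h : ∀ R : ℤ → Prop, (∀ a, R a ↔ P a ∧ P' a) → ((IA A).filter (fun a => ¬ R a)).card
      ≤ ((IA A).filter (fun a => ¬ P a)).card + ((IA A).filter (fun a => ¬ P' a)).card := by
    intro R hR
    refine (card_le_card ?_).trans (card_union_le _ _)
    intro a ha
    rw [mem_filter] at ha
    rw [mem_union, mem_filter, mem_filter]
    by_cases h : P a
    · exact Or.inr ⟨ha.1, fun h' => ha.2 ((hR a).2 ⟨h, h'⟩)⟩
    · exact Or.inl ⟨ha.1, h⟩
  exact_mod_cast h (fun a => P a ∧ P' a) (fun a => Iff.rfl)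

/-- Markov's inequality -/
lemma exc_markov {A : ℕ} {f : ℤ → ℝ} {M t : ℝ} (h0 : ∀ a ∈ IA A, 0 ≤ f a) (ht : 0 < t)
    (h : ∑ a ∈ IA A, f a ≤ M) : exc A (fun a => f a ≤ t) ≤ M / t := by
  unfold exc
  rw [le_div_iff₀ ht, ← nsmul_eq_mul, ← sum_const]
  calc ∑ _x ∈ (IA A).filter (fun a => ¬ f a ≤ t), t
      ≤ ∑ a ∈ (IA A).filter (fun a => ¬ f a ≤ t), f a :=
        sum_le_sum fun a ha => (not_le.1 (mem_filter.1 ha).2).le
    _ ≤ ∑ a ∈ IA A, f a :=
        sum_le_sum_of_subset_of_nonneg (filter_subset _ _) fun a ha _ => h0 a ha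
    _ ≤ M := h

/-- the number of the `|a| ≤ A` -/
lemma card_IA (A : ℕ) : ((IA A).card : ℝ) = 2 * A + 1 := by
  unfold IA
  rw [Int.card_Icc]
  have : ((A : ℤ) + 1 - -(A : ℤ)).toNat = 2 * A + 1 := by omega
  rw [this]
  push_cast
  ring

end Bas

end Pool.Agent.Lib.MP391708.U
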