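import Pool.Agent.Lib.MP_391708_nt.U.RCH
import Pool.Agent.Lib.MP_391708_nt.U.Bas
import Pool.Agent.Lib.MP_391708_nt.QPA.Mta
import Pool.Agent.Lib.MP_391708_nt.QPA.FLA
import Pool.Agent.Lib.MP_391708_nt.QPA.F6

/-!
# MTAU: the main term for `α * β^♯`, with `w = wN W N`
-/

set_option autoImplicit false

namespace Pool.Agent.Lib.MP391708.U

open Finset Filter Topology Pool.Agent.Lib.MP391708.QPA
open scoped Classical

namespace MTAUM

noncomputable section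

/-- the fundamental lemma with the constant `C` -/
def FLC (C : ℝ) : Prop := ∀ (b : ℕ) (z : ℝ), 2 ≤ z →
  ∀ (S : Finset ℕ) (v : ℕ → ℕ) (om : ℕ → ℝ) (X : ℝ) (g : ℕ → ℝ), 0 ≤ X → (∀ i ∈ S, 0 ≤ om i) →
  (∀ p : ℕ, p.Prime → 0 ≤ g p ∧ g p ≤ 2 / (p : ℝ) ∧ g p ≤ 2 / 3) →
  |(∑ i ∈ S, om i * rInd z (v i)) - X * ∏ p ∈ PB z, (1 - g p)|
    ≤ C * Real.exp (-(b : ℝ)) * X * (∏ p ∈ PB z, (1 - g p))
      + C * (1 + Real.log z) *
        ∑ δ ∈ (Icc 1 ⌊z ^ (8 * b + 16)⌋₊).filter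
          (fun δ => Squarefree δ ∧ ∀ p : ℕ, p.Prime → p ∣ δ → (p : ℝ) < z),
          |(∑ i ∈ S.filter (fun i => δ ∣ v i), om i) - X * ∏ p ∈ δ.primeFactors, g p|

/-- the error of the fundamental lemma -/
def Z (C : ℝ) (b : ℕ) (z : ℝ) : ℝ := C * (1 + Real.log z) * (z ^ (8 * b + 16)) ^ 2

lemma g_bd (hP : SpecRHOP) (h2 : SpecRHO2) (a : ℤ) (p : ℕ) (hp : p.Prime) :
    0 ≤ (rho a p : ℝ) / p ∧ (rho a p : ℝ) / p ≤ 2 / (p : ℝ) ∧ (rho a p : ℝ) / p ≤ 2 / 3 := by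
  have hp0 : (0 : ℝ) < p := by exact_mod_cast hp.pos
  by_cases h : p = 2
  · subst h
    rw [h2 a]
    norm_num
  · have h3 := F6.three_le hp h
    have h4 : (rho a p : ℝ) ≤ 2 := by
      have e1 : (rho a p : ℝ) = 1 + (jacobiSym (-a) p : ℝ) := by exact_mod_cast hP a p hp h
      have := (abs_le.1 (F6.jac_le (-a) p)).2
      linarith
    refine ⟨by positivity, div_le_div_of_nonneg_right h4 hp0.le, ?_⟩
    exact div_le_div₀ (by norm_num) h4 (by norm_num) h3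

/-- the error of one divisor `δ` -/
lemma term (hC : SpecRHOC) (hM : SpecRHOM) (a : ℤ) {w k : ℕ} (hk1 : 1 ≤ k)
    (hk : ∀ p ∈ Mta.S w, Nat.Coprime p k) (u H δ : ℕ) (hδ1 : 1 ≤ δ) (hδ : Squarefree δ)
    (hδ2 : ∀ p : ℕ, p.Prime → p ∣ δ → (p : ℝ) < (w : ℝ) + 1) :
    |(∑ i ∈ ((Ioc u (u + H)).filter (fun n => k ∣ val a n)).filter (fun n => δ ∣ val a n / k), (1 : ℝ))
      - (rho a k : ℝ) / k * H * ∏ p ∈ δ.primeFactors, (rho a p : ℝ) / p| ≤ rho a k * δ := by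
  have ht : δ.primeFactors ⊆ Mta.S w := by
    intro p hp
    have hp' := Nat.prime_of_mem_primeFactors hp
    rw [Mta.mem_S]
    refine ⟨hp', ?_⟩
    have h1 := hδ2 p hp' (Nat.dvd_of_mem_primeFactors hp)
    have : p < w + 1 := by exact_mod_cast h1
    omega
  have hprod := Nat.prod_primeFactors_of_squarefree hδ
  have hr := Mta.rho_mul_prod hM a hk1 hk ht
  rw [hprod] at hr
  have e1 : ((Ioc u (u + H)).filter (fun n => k ∣ val a n)).filter (fun n => δ ∣ val a n / k)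
      = (Ioc u (u + H)).filter (fun n => k * δ ∣ val a n) := by
    rw [filter_filter]
    apply filter_congr
    intro n _
    constructor
    · rintro ⟨h1, h2⟩
      exact (Nat.dvd_div_iff_mul_dvd h1).1 h2
    · intro h
      have h1 : k ∣ val a n := (dvd_mul_right _ _).trans h
      exact ⟨h1, (Nat.dvd_div_iff_mul_dvd h1).2 h⟩
  have hk0 : (k : ℝ) ≠ 0 := by
    have : k ≠ 0 := by omega
    exact_mod_cast this
  have hδ0 : (δ : ℝ) ≠ 0 := by
    have : δ ≠ 0 := by omega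
    exact_mod_cast this
  have e2 : (rho a k : ℝ) / k * H * ∏ p ∈ δ.primeFactors, (rho a p : ℝ) / p
      = (rho a (k * δ) : ℝ) * H / ((k * δ : ℕ) : ℝ) := by
    have hpr : ∏ p ∈ δ.primeFactors, (p : ℝ) = δ := by rw [← Nat.cast_prod, hprod]
    rw [prod_div_distrib, hpr, hr]
    push_cast
    field_simp
  have e3 : (rho a (k * δ) : ℝ) ≤ rho a k * δ := by
    rw [hr]
    have h5 : ∏ p ∈ δ.primeFactors, rho a p ≤ δ := by
      calc ∏ p ∈ δ.primeFactors, rho a p ≤ ∏ p ∈ δ.primeFactors, p :=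
            Finset.prod_le_prod' fun p _ => Mta.rho_le a p
        _ = δ := hprod
    have h6 : ((∏ p ∈ δ.primeFactors, rho a p : ℕ) : ℝ) ≤ δ := by exact_mod_cast h5
    rw [Nat.cast_mul]
    exact mul_le_mul_of_nonneg_left h6 (Nat.cast_nonneg _)
  rw [e1, e2, sum_const, nsmul_eq_mul, mul_one]
  exact (hC a (k * δ) u H (Nat.mul_pos (by omega) (by omega))).trans e3

/-- the count in an interval -/
lemma count_Ioc {C : ℝ} (hC0 : 0 < C) (hFL : FLC C) (hC : SpecRHOC) (hM : SpecRHOM) (hP : SpecRHOP)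
    (h2 : SpecRHO2) (a : ℤ) {w k : ℕ} (hw : 1 ≤ w) (hk1 : 1 ≤ k)
    (hk : ∀ p ∈ Mta.S w, Nat.Coprime p k) (u H b : ℕ) :
    |(∑ n ∈ Ioc u (u + H), if k ∣ val a n then rInd ((w : ℝ) + 1) (val a n / k) else 0)
      - Mta.R w a * ((rho a k : ℝ) / k) * H| ≤
      C * Real.exp (-(b : ℝ)) * ((rho a k : ℝ) / k * H) + rho a k * Z C b ((w : ℝ) + 1) := by
  have hw' : (1 : ℝ) ≤ w := by exact_mod_cast hw
  have hz : (2 : ℝ) ≤ (w : ℝ) + 1 := by linarith
  have hX : 0 ≤ (rho a k : ℝ) / k * H := by positivity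
  have h1 := hFL b ((w : ℝ) + 1) hz ((Ioc u (u + H)).filter (fun n => k ∣ val a n))
    (fun n => val a n / k) (fun _ => 1) ((rho a k : ℝ) / k * H) (fun p => (rho a p : ℝ) / p) hX
    (fun _ _ => zero_le_one) (fun p hp => g_bd hP h2 a p hp)
  have e1 : ∑ i ∈ (Ioc u (u + H)).filter (fun n => k ∣ val a n), (1 : ℝ) * rInd ((w : ℝ) + 1) (val a i / k)
      = ∑ n ∈ Ioc u (u + H), if k ∣ val a n then rInd ((w : ℝ) + 1) (val a n / k) else 0 := by
    rw [sum_filter]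
    refine sum_congr rfl fun n _ => ?_
    rw [one_mul]
  have e2 : ∏ p ∈ PB ((w : ℝ) + 1), (1 - (rho a p : ℝ) / p) = Mta.R w a := rfl
  rw [e1, e2] at h1
  obtain ⟨hR0, hR1⟩ := Mta.R_nonneg w a
  have h3 : C * Real.exp (-(b : ℝ)) * ((rho a k : ℝ) / k * H) * Mta.R w a
      ≤ C * Real.exp (-(b : ℝ)) * ((rho a k : ℝ) / k * H) := by
    apply mul_le_of_le_one_right (by positivity) hR1
  have hlog : 0 ≤ 1 + Real.log ((w : ℝ) + 1) := by
    have := Real.log_nonneg (by linarith : (1 : ℝ) ≤ (w : ℝ) + 1)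
    linarith
  have h4 : ∑ δ ∈ (Icc 1 ⌊((w : ℝ) + 1) ^ (8 * b + 16)⌋₊).filter
          (fun δ => Squarefree δ ∧ ∀ p : ℕ, p.Prime → p ∣ δ → (p : ℝ) < (w : ℝ) + 1),
          |(∑ i ∈ ((Ioc u (u + H)).filter (fun n => k ∣ val a n)).filter
              (fun i => δ ∣ val a i / k), (1 : ℝ)) -
            (rho a k : ℝ) / k * H * ∏ p ∈ δ.primeFactors, (rho a p : ℝ) / p|
      ≤ rho a k * (((w : ℝ) + 1) ^ (8 * b + 16)) ^ 2 := by
    have hD : (⌊((w : ℝ) + 1) ^ (8 * b + 16)⌋₊ : ℝ) ≤ ((w : ℝ) + 1) ^ (8 * b + 16) :=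
      Nat.floor_le (by positivity)
    calc _ ≤ ∑ δ ∈ (Icc 1 ⌊((w : ℝ) + 1) ^ (8 * b + 16)⌋₊).filter
          (fun δ => Squarefree δ ∧ ∀ p : ℕ, p.Prime → p ∣ δ → (p : ℝ) < (w : ℝ) + 1),
          (rho a k : ℝ) * ((w : ℝ) + 1) ^ (8 * b + 16) := by
          refine sum_le_sum fun δ hδ => ?_
          rw [mem_filter, mem_Icc] at hδ
          obtain ⟨⟨hδ1, hδ3⟩, hsq, hδ2⟩ := hδ
          refine (term hC hM a hk1 hk u H δ hδ1 hsq hδ2).trans ?_
          apply mul_le_mul_of_nonneg_left _ (Nat.cast_nonneg _)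
          exact le_trans (by exact_mod_cast hδ3) hD
      _ ≤ ∑ δ ∈ Icc 1 ⌊((w : ℝ) + 1) ^ (8 * b + 16)⌋₊,
          (rho a k : ℝ) * ((w : ℝ) + 1) ^ (8 * b + 16) :=
          sum_le_sum_of_subset_of_nonneg (filter_subset _ _) fun _ _ _ => by positivity
      _ = (⌊((w : ℝ) + 1) ^ (8 * b + 16)⌋₊ : ℝ) * ((rho a k : ℝ) * ((w : ℝ) + 1) ^ (8 * b + 16)) := by
          rw [sum_const, Nat.card_Icc, nsmul_eq_mul, Nat.add_sub_cancel]
      _ ≤ ((w : ℝ) + 1) ^ (8 * b + 16) * ((rho a k : ℝ) * ((w : ℝ) + 1) ^ (8 * b + 16)) :=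
          mul_le_mul_of_nonneg_right hD (by positivity)
      _ = _ := by ring
  have h5 := mul_le_mul_of_nonneg_left h4 (mul_nonneg hC0.le hlog)
  have e3 : Mta.R w a * ((rho a k : ℝ) / k) * H = (rho a k : ℝ) / k * H * Mta.R w a := by ring
  rw [e3]
  have e4 : (rho a k : ℝ) * Z C b ((w : ℝ) + 1) =
      C * (1 + Real.log ((w : ℝ) + 1)) * (rho a k * (((w : ℝ) + 1) ^ (8 * b + 16)) ^ 2) := by
    unfold Z
    ring
  rw [e4]
  linarith

/-- the count for one piece -/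
lemma count_piece {C : ℝ} (hC0 : 0 < C) (hFL : FLC C) (hC : SpecRHOC) (hM : SpecRHOM) (hP : SpecRHOP)
    (h2 : SpecRHO2) {N A : ℕ} {a : ℤ} (hN : 1 ≤ N)
    (ha : |(a : ℝ)| ≤ A) (hA : (A : ℝ) ≤ (N : ℝ) ^ 2 / 8) {w k : ℕ} (hw : 1 ≤ w) (hk1 : 1 ≤ k)
    (hk : ∀ p ∈ Mta.S w, Nat.Coprime p k) {x x' : ℝ} (hx : (N : ℝ) ^ 2 / 2 ≤ k * x) (hxx : x ≤ x')
    (hx' : k * x' ≤ 32 * (N : ℝ) ^ 2) (b : ℕ) :
    |Mta.Cn N a w k x x'
      - Mta.R w a * ((rho a k : ℝ) / k) * (√(k * x') - √(k * x))| ≤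
      rho a k * (C * Real.exp (-(b : ℝ)) * (8 * N) / k + Z C b ((w : ℝ) + 1) + 1 + 4 * A / N) := by
  unfold Mta.Cn
  have hN0 : (0 : ℝ) < N := by exact_mod_cast hN
  have hk0 : (0 : ℝ) < k := by exact_mod_cast hk1
  have habs := abs_le.1 ha
  have hN2 : 0 < (N : ℝ) ^ 2 := by positivity
  have hp1 : 0 < k * x - a := by linarith
  have hxx' : k * x ≤ k * x' := mul_le_mul_of_nonneg_left hxx hk0.le
  have hp2 : 0 < k * x' - a := by linarith
  set u : ℕ := ⌊√(k * x - a)⌋₊ with hu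
  set v : ℕ := ⌊√(k * x' - a)⌋₊ with hv
  have huv : u ≤ v := Nat.floor_le_floor (Real.sqrt_le_sqrt (by linarith))
  obtain ⟨H, hH⟩ := Nat.exists_eq_add_of_le huv
  have hv8 : v ≤ 8 * N := by
    have h1 : √(k * x' - a) ≤ ((8 * N : ℕ) : ℝ) := by
      apply Real.sqrt_le_iff.2
      refine ⟨Nat.cast_nonneg _, ?_⟩
      push_cast
      nlinarith
    have := Nat.floor_le_floor h1
    rwa [Nat.floor_natCast] at this
  have hcond : ∀ n : ℕ, k ∣ val a n →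
      ((x < ((val a n / k : ℕ) : ℝ) ∧ ((val a n / k : ℕ) : ℝ) ≤ x') ↔ n ∈ Ioc u v) := by
    intro n hd
    have hdiv : ((val a n / k : ℕ) : ℝ) = (val a n : ℝ) / k := by
      rw [Nat.cast_div hd hk0.ne']
    have hval : (val a n : ℝ) = |(n : ℝ) ^ 2 + a| := by
      unfold QPA.val
      rw [Nat.cast_natAbs]
      push_cast
      rfl
    rw [hdiv, hval, mem_Ioc, lt_div_iff₀ hk0, div_le_iff₀ hk0, mul_comm x, mul_comm x',
      hu, hv, Nat.floor_lt (Real.sqrt_nonneg _), Nat.le_floor_iff (Real.sqrt_nonneg _)]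
    have hn0 : (0 : ℝ) ≤ n := Nat.cast_nonneg n
    constructor
    · rintro ⟨h1, h2⟩
      have h3 : 0 < (n : ℝ) ^ 2 + a := by
        by_contra hcon
        rw [not_lt] at hcon
        rw [abs_of_nonpos hcon] at h1
        have : 0 ≤ (n : ℝ) ^ 2 := sq_nonneg _
        linarith
      rw [abs_of_pos h3] at h1 h2
      refine ⟨?_, ?_⟩
      · apply (Real.sqrt_lt_sqrt hp1.le (show k * x - a < (n : ℝ) ^ 2 by linarith)).trans_le
        rw [Real.sqrt_sq hn0]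
      · apply Real.le_sqrt_of_sq_le
        linarith
    · rintro ⟨h1, h2⟩
      have h3 : k * x - a < (n : ℝ) ^ 2 := by
        have := Real.sq_sqrt hp1.le
        have h4 := Real.sqrt_nonneg (k * x - a)
        nlinarith
      have h5 : (n : ℝ) ^ 2 ≤ k * x' - a := by
        have := Real.sq_sqrt hp2.le
        have h4 := Real.sqrt_nonneg (k * x' - a)
        nlinarith
      have h6 : 0 < (n : ℝ) ^ 2 + a := by linarith
      rw [abs_of_pos h6]
      exact ⟨by linarith, by linarith⟩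
  have e1 : (∑ n ∈ Icc 1 (8 * N), if k ∣ val a n ∧ x < ((val a n / k : ℕ) : ℝ) ∧
          ((val a n / k : ℕ) : ℝ) ≤ x' then rInd ((w : ℝ) + 1) (val a n / k) else 0) =
      ∑ n ∈ Ioc u (u + H), if k ∣ val a n then rInd ((w : ℝ) + 1) (val a n / k) else 0 := by
    rw [← hH]
    have hsub : Ioc u v ⊆ Icc 1 (8 * N) := by
      intro n hn
      rw [mem_Ioc] at hn
      rw [mem_Icc]
      omega
    rw [← sum_subset hsub]
    · refine sum_congr rfl fun n hn => ?_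
      by_cases hd : k ∣ val a n
      · rw [if_pos ⟨hd, (hcond n hd).2 hn⟩, if_pos hd]
      · rw [if_neg (fun h => hd h.1), if_neg hd]
    · intro n _ hn
      rw [if_neg]
      rintro ⟨hd, h2⟩
      exact hn ((hcond n hd).1 h2)
  rw [e1]
  have h1 := count_Ioc hC0 hFL hC hM hP h2 a hw hk1 hk u H b
  have hH8 : (H : ℝ) ≤ 8 * N := by
    have : H ≤ 8 * N := by omega
    exact_mod_cast this
  have hrho : 0 ≤ (rho a k : ℝ) := Nat.cast_nonneg _
  have h1' : C * Real.exp (-(b : ℝ)) * ((rho a k : ℝ) / k * H)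
      ≤ rho a k * (C * Real.exp (-(b : ℝ)) * (8 * N) / k) := by
    have e : rho a k * (C * Real.exp (-(b : ℝ)) * (8 * N) / k)
        = C * Real.exp (-(b : ℝ)) * ((rho a k : ℝ) / k * (8 * N)) := by ring
    rw [e]
    apply mul_le_mul_of_nonneg_left _ (by positivity)
    exact mul_le_mul_of_nonneg_left hH8 (by positivity)
  have hHr : |(H : ℝ) - (√(k * x' - a) - √(k * x - a))| ≤ 1 := by
    have a1 : (u : ℝ) ≤ √(k * x - a) := Nat.floor_le (Real.sqrt_nonneg _)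
    have a2 : √(k * x - a) < u + 1 := Nat.lt_floor_add_one _
    have a3 : (v : ℝ) ≤ √(k * x' - a) := Nat.floor_le (Real.sqrt_nonneg _)
    have a4 : √(k * x' - a) < v + 1 := Nat.lt_floor_add_one _
    have a5 : (v : ℝ) = u + H := by exact_mod_cast hH
    rw [abs_le]
    constructor <;> linarith
  have s1 := Mta.sqrt_shift (y := k * x) (a := a) hN0 (by linarith) hp1.le
  have s2 := Mta.sqrt_shift (y := k * x') (a := a) hN0 (by linarith) hp2.le
  have s3 : 2 * |(a : ℝ)| / N ≤ 2 * A / N := div_le_div_of_nonneg_right (by linarith) hN0.le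
  have h2' : |(H : ℝ) - (√(k * x') - √(k * x))| ≤ 1 + 4 * A / N := by
    have e : (H : ℝ) - (√(k * x') - √(k * x)) = ((H : ℝ) - (√(k * x' - a) - √(k * x - a)))
      + (√(k * x' - a) - √(k * x')) - (√(k * x - a) - √(k * x)) := by ring
    rw [e]
    have b1 := abs_sub ((H : ℝ) - (√(k * x' - a) - √(k * x - a)) + (√(k * x' - a) - √(k * x')))
      (√(k * x - a) - √(k * x))
    have b2 := abs_add_le ((H : ℝ) - (√(k * x' - a) - √(k * x - a))) (√(k * x' - a) - √(k * x'))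
    have b3 : 4 * (A : ℝ) / N = 2 * A / N + 2 * A / N := by ring
    linarith
  obtain ⟨hR0, hR1⟩ := Mta.R_nonneg w a
  have h3 : |Mta.R w a * ((rho a k : ℝ) / k) * H
      - Mta.R w a * ((rho a k : ℝ) / k) * (√(k * x') - √(k * x))| ≤ rho a k * (1 + 4 * A / N) := by
    rw [← mul_sub, abs_mul, abs_of_nonneg (by positivity : 0 ≤ Mta.R w a * ((rho a k : ℝ) / k))]
    apply mul_le_mul _ h2' (abs_nonneg _) hrho
    have hk1' : (1 : ℝ) ≤ k := by exact_mod_cast hk1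
    have h4 : (rho a k : ℝ) / k ≤ rho a k := div_le_self hrho hk1'
    calc Mta.R w a * ((rho a k : ℝ) / k) ≤ 1 * ((rho a k : ℝ) / k) :=
          mul_le_mul_of_nonneg_right hR1 (by positivity)
      _ ≤ _ := by rw [one_mul]; exact h4
  have h4 := abs_sub_le (∑ n ∈ Ioc u (u + H), if k ∣ val a n then rInd ((w : ℝ) + 1) (val a n / k) else 0)
    (Mta.R w a * ((rho a k : ℝ) / k) * H) (Mta.R w a * ((rho a k : ℝ) / k) * (√(k * x') - √(k * x)))
  calc _ ≤ _ := h4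
    _ ≤ (rho a k * (C * Real.exp (-(b : ℝ)) * (8 * N) / k) + rho a k * Z C b ((w : ℝ) + 1))
        + rho a k * (1 + 4 * A / N) := add_le_add (h1.trans (by linarith)) h3
    _ = _ := by ring

/-- the error for one `k` -/
lemma hone {C : ℝ} (hC0 : 0 < C) (hFL : FLC C) (hC : SpecRHOC) (hM : SpecRHOM) (hP : SpecRHOP)
    (h2 : SpecRHO2) {e0 B η K L : ℝ} {w J N A : ℕ} (hη : 0 < η)
    (hη4 : η ≤ 1 / 4) (hB : 0 < B) (hJ : 1 ≤ J) (hw : 1 ≤ w)
    (hz : (w : ℝ) + 1 ≤ (N : ℝ) ^ e0) (hNr : (2 : ℝ) ≤ N) (hK0 : 0 < K) (hL0 : 0 < L)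
    (hKL1 : (N : ℝ) ^ 2 / 2 ≤ K * L) (hKL2 : K * L ≤ 5 * (N : ℝ) ^ 2)
    (hA8 : (A : ℝ) ≤ (N : ℝ) ^ 2 / 8) (hAN : 4 * (A : ℝ) / N ≤ 4 * Real.log N)
    (α : ℕ → ℝ) (hα : ∀ k, |α k| ≤ B * rInd ((N : ℝ) ^ e0) k)
    (hαs : ∀ k, α k ≠ 0 → K < (k : ℝ) ∧ (k : ℝ) ≤ 5 / 4 * K) (b : ℕ) :
    ∀ a ∈ IA A, ∀ i ∈ range J, ∀ k ∈ Ioc ⌊K⌋₊ ⌊5 / 4 * K⌋₊,
      |α k * (Vw w * Mta.Cn N a w k (Mta.xl L η J i) (Mta.xr L η J i))
        - Gw w a * (α k * ((rho a k : ℝ) / k) * (√(k * (L * (1 + η * (i + 1) / J)))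
          - √(k * (L * (1 + η * i / J)))))|
      ≤ B * Vw w * (C * Real.exp (-(b : ℝ)) * (8 * N) / K + Z C b ((w : ℝ) + 1) + 1
          + 4 * Real.log N) * rho a k := by
  have hV := Mta.Vw_pos w
  have hJ0 : (0 : ℝ) < J := by exact_mod_cast hJ
  have hN0 : (0 : ℝ) < N := by linarith
  have hN1 : 1 ≤ N := by exact_mod_cast (show (1 : ℝ) ≤ N by linarith)
  have hlog0 : 0 < Real.log N := Real.log_pos (by linarith)
  have hw' : (1 : ℝ) ≤ w := by exact_mod_cast hw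
  have hlog : 0 ≤ 1 + Real.log ((w : ℝ) + 1) := by
    have := Real.log_nonneg (by linarith : (1 : ℝ) ≤ (w : ℝ) + 1)
    linarith
  have hZ : 0 ≤ Z C b ((w : ℝ) + 1) := by
    unfold Z
    exact mul_nonneg (mul_nonneg hC0.le hlog) (by positivity)
  intro a ha i hi k hk
  have hrhs : 0 ≤ B * Vw w * (C * Real.exp (-(b : ℝ)) * (8 * N) / K + Z C b ((w : ℝ) + 1) + 1
          + 4 * Real.log N) * rho a k := by positivity
  by_cases hak : α k = 0
  · rw [hak]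
    simpa using hrhs
  · have hks := hαs k hak
    have hk1 : 1 ≤ k := by
      have : (0 : ℝ) < k := hK0.trans hks.1
      exact_mod_cast this
    have hk0 : (0 : ℝ) < k := by exact_mod_cast hk1
    have hrough : Rough ((N : ℝ) ^ e0) k := by
      by_contra hcon
      have h1 := hα k
      rw [rInd, if_neg hcon, mul_zero] at h1
      exact hak (abs_nonpos_iff.1 h1)
    have hαB : |α k| ≤ B := by
      have h1 := hα k
      rwa [rInd, if_pos hrough, mul_one] at h1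
    have hcop : ∀ p ∈ Mta.S w, Nat.Coprime p k := by
      intro p hp
      have hp' := Mta.mem_S.1 hp
      rw [Nat.Prime.coprime_iff_not_dvd hp'.1]
      intro hd
      have h1 := hrough p hp'.1 hd
      have h2 : (p : ℝ) ≤ w := by exact_mod_cast hp'.2
      linarith
    have hiJ : (i : ℝ) + 1 ≤ J := by
      have := mem_range.1 hi
      exact_mod_cast this
    have hi0 : (0 : ℝ) ≤ i := Nat.cast_nonneg i
    have hxl : L ≤ Mta.xl L η J i := by
      unfold Mta.xl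
      have : 0 ≤ η * i / J := by positivity
      nlinarith
    have hxr : Mta.xr L η J i ≤ 5 / 4 * L := by
      unfold Mta.xr
      have h1 : η * (i + 1) / J ≤ 1 / 4 := by
        rw [div_le_iff₀ hJ0]
        nlinarith
      nlinarith
    have hxx : Mta.xl L η J i ≤ Mta.xr L η J i := by
      unfold Mta.xl Mta.xr
      apply mul_le_mul_of_nonneg_left _ hL0.le
      have : η * i / J ≤ η * (i + 1) / J := by
        apply div_le_div_of_nonneg_right _ hJ0.le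
        nlinarith
      linarith
    have h1 := count_piece hC0 hFL hC hM hP h2 (N := N) (A := A) (a := a) hN1
      (by
        unfold IA at ha
        rw [mem_Icc] at ha
        rw [abs_le]
        constructor
        · have := ha.1
          have h2 : (-(A : ℤ) : ℤ) ≤ a := this
          have h3 : ((-(A : ℤ) : ℤ) : ℝ) ≤ a := by exact_mod_cast h2
          push_cast at h3
          exact h3
        · exact_mod_cast ha.2)
      hA8 hw hk1 hcop (x := Mta.xl L η J i) (x' := Mta.xr L η J i)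
      (by
        calc (N : ℝ) ^ 2 / 2 ≤ K * L := hKL1
          _ ≤ k * Mta.xl L η J i := mul_le_mul hks.1.le hxl hL0.le hk0.le)
      hxx
      (by
        calc k * Mta.xr L η J i ≤ (5 / 4 * K) * (5 / 4 * L) :=
              mul_le_mul hks.2 hxr (by linarith) (by linarith)
          _ = 25 / 16 * (K * L) := by ring
          _ ≤ 25 / 16 * (5 * (N : ℝ) ^ 2) := by linarith
          _ ≤ _ := by nlinarith [sq_nonneg (N : ℝ)]) b
    have h2 : α k * (Vw w * Mta.Cn N a w k (Mta.xl L η J i) (Mta.xr L η J i))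
      - Gw w a * (α k * ((rho a k : ℝ) / k) * (√(k * (L * (1 + η * (i + 1) / J)))
        - √(k * (L * (1 + η * i / J))))) = α k * Vw w * (Mta.Cn N a w k (Mta.xl L η J i) (Mta.xr L η J i)
        - Mta.R w a * ((rho a k : ℝ) / k) * (√(k * Mta.xr L η J i) - √(k * Mta.xl L η J i))) := by
      rw [← Mta.Vw_R]
      unfold Mta.xl Mta.xr
      ring
    rw [h2, abs_mul, abs_mul, abs_of_pos hV]
    have hrho : 0 ≤ (rho a k : ℝ) := Nat.cast_nonneg _
    have h3 : C * Real.exp (-(b : ℝ)) * (8 * N) / k + Z C b ((w : ℝ) + 1) + 1 + 4 * A / N ≤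
        C * Real.exp (-(b : ℝ)) * (8 * N) / K + Z C b ((w : ℝ) + 1) + 1 + 4 * Real.log N := by
      have h4 : C * Real.exp (-(b : ℝ)) * (8 * N) / k ≤ C * Real.exp (-(b : ℝ)) * (8 * N) / K :=
        div_le_div_of_nonneg_left (by positivity) hK0 hks.1.le
      linarith
    calc |α k| * Vw w * _ ≤ B * Vw w * (rho a k *
          (C * Real.exp (-(b : ℝ)) * (8 * N) / k + Z C b ((w : ℝ) + 1) + 1 + 4 * A / N)) := by
          apply mul_le_mul (mul_le_mul_of_nonneg_right hαB hV.le) h1 (abs_nonneg _) (by positivity)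
      _ ≤ B * Vw w * (rho a k * (C * Real.exp (-(b : ℝ)) * (8 * N) / K + Z C b ((w : ℝ) + 1) + 1
          + 4 * Real.log N)) := by
          apply mul_le_mul_of_nonneg_left _ (by positivity)
          exact mul_le_mul_of_nonneg_left h3 hrho
      _ = _ := by ring

/-- the choice of `b` -/
lemma size (C Bs W e : ℝ) (hC : 0 < C) (hBs : 0 < Bs) (hW : 0 < W) (he : 0 < e) :
    ∀ᶠ T : ℝ in atTop, ∃ b : ℕ, C * Real.exp (-(b : ℝ)) ≤ 1 / T ^ Bs ∧
      ∀ z : ℝ, 2 ≤ z → z ≤ T ^ W → Z C b z ≤ Real.exp (e * T / 2) := by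
  filter_upwards [RCHM.evT ((1 + W * (16 * (Bs + 1) + 49)) / (5 * e)),
    eventually_ge_atTop (Real.exp 1), eventually_ge_atTop C, eventually_ge_atTop (2 : ℝ)]
    with T h1 h2 h3 h4
  have hT0 : 0 < T := by linarith
  have hlT : 1 ≤ Real.log T := by
    rw [Real.le_log_iff_exp_le hT0]
    exact h2
  set t := Real.log T with ht
  refine ⟨⌈(Bs + 1) * t⌉₊, ?_, ?_⟩
  · have h5 : (Bs + 1) * t ≤ (⌈(Bs + 1) * t⌉₊ : ℝ) := Nat.le_ceil _
    have h6 : Real.exp (-((⌈(Bs + 1) * t⌉₊ : ℕ) : ℝ)) ≤ Real.exp (-((Bs + 1) * t)) :=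
      Real.exp_le_exp.2 (by linarith)
    have h7 : Real.exp (-((Bs + 1) * t)) = 1 / (T ^ Bs * T) := by
      have e1 : T ^ Bs * T = Real.exp ((Bs + 1) * t) := by
        calc T ^ Bs * T = T ^ Bs * T ^ (1 : ℝ) := by rw [Real.rpow_one]
          _ = T ^ (Bs + 1) := (Real.rpow_add hT0 _ _).symm
          _ = Real.exp (Real.log T * (Bs + 1)) := Real.rpow_def_of_pos hT0 _
          _ = _ := by
            rw [← ht]
            congr 1
            ring
      rw [e1, Real.exp_neg, one_div]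
    have hTB : 0 < T ^ Bs := Real.rpow_pos_of_pos hT0 _
    calc C * Real.exp (-((⌈(Bs + 1) * t⌉₊ : ℕ) : ℝ)) ≤ T * (1 / (T ^ Bs * T)) := by
          rw [← h7]
          exact mul_le_mul h3 h6 (Real.exp_pos _).le hT0.le
      _ = 1 / T ^ Bs := by field_simp
  · intro z hz2 hzT
    have hz0 : 0 < z := by linarith
    have hlz0 : 0 ≤ Real.log z := Real.log_nonneg (by linarith)
    have hlz : Real.log z ≤ W * t := by
      calc Real.log z ≤ Real.log (T ^ W) := Real.log_le_log hz0 hzT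
        _ = W * t := Real.log_rpow hT0 W
    have hb : (⌈(Bs + 1) * t⌉₊ : ℝ) < (Bs + 1) * t + 1 :=
      Nat.ceil_lt_add_one (by positivity)
    set b : ℕ := ⌈(Bs + 1) * t⌉₊ with hbdef
    have h5 : 1 + Real.log z ≤ z := by
      have := Real.log_le_sub_one_of_pos hz0
      linarith
    have h6 : Z C b z ≤ T * (z * (z ^ (8 * b + 16)) ^ 2) := by
      unfold Z
      have h7 : C * (1 + Real.log z) ≤ T * z := mul_le_mul h3 h5 (by linarith) hT0.le
      calc C * (1 + Real.log z) * (z ^ (8 * b + 16)) ^ 2 ≤ T * z * (z ^ (8 * b + 16)) ^ 2 :=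
            mul_le_mul_of_nonneg_right h7 (by positivity)
        _ = _ := by ring
    have h7 : z * (z ^ (8 * b + 16)) ^ 2 = Real.exp ((16 * b + 33) * Real.log z) := by
      have e1 : z * (z ^ (8 * b + 16)) ^ 2 = z ^ (16 * b + 33) := by
        rw [← pow_mul]
        rw [show 16 * b + 33 = (8 * b + 16) * 2 + 1 by ring, pow_succ]
        ring
      rw [e1, ← Real.exp_log hz0, ← Real.exp_nat_mul, Real.log_exp]
      push_cast
      rfl
    have h8 : T = Real.exp t := (Real.exp_log hT0).symm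
    calc Z C b z ≤ T * (z * (z ^ (8 * b + 16)) ^ 2) := h6
      _ = Real.exp (t + (16 * b + 33) * Real.log z) := by
          rw [h7, Real.exp_add, ← h8]
      _ ≤ Real.exp (e * T / 2) := by
          apply Real.exp_le_exp.2
          have h9 : (16 * (b : ℝ) + 33) * Real.log z ≤ (16 * ((Bs + 1) * t + 1) + 33) * (W * t) :=
            mul_le_mul (by linarith) hlz hlz0 (by positivity)
          have h10 : t + (16 * ((Bs + 1) * t + 1) + 33) * (W * t)
              ≤ t * ((1 + W * (16 * (Bs + 1) + 49)) * (t + 1)) := by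
            have e1 : t * ((1 + W * (16 * (Bs + 1) + 49)) * (t + 1)) -
                (t + (16 * ((Bs + 1) * t + 1) + 33) * (W * t)) =
                t * t + W * t * (49 * t + 16 * (Bs + 1)) := by ring
            have e2 : 0 ≤ t * t + W * t * (49 * t + 16 * (Bs + 1)) := by positivity
            linarith
          have h11 : t * ((1 + W * (16 * (Bs + 1) + 49)) * (t + 1)) ≤ e * T / 2 := by
            have e1 : t * ((1 + W * (16 * (Bs + 1) + 49)) * (t + 1)) =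
                5 * e * (t * ((1 + W * (16 * (Bs + 1) + 49)) / (5 * e) * (t + 1))) := by
              field_simp
            rw [e1]
            calc 5 * e * (t * ((1 + W * (16 * (Bs + 1) + 49)) / (5 * e) * (t + 1)))
                ≤ 5 * e * (T / 10) := mul_le_mul_of_nonneg_left h1 (by positivity)
              _ = e * T / 2 := by ring
          linarith

end

end MTAUM

theorem specMTAU (hFL : SpecFL) (hC : SpecRHOC) (hM : SpecRHOM) (hP : SpecRHOP) (h2 : SpecRHO2)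
    (hA : SpecRAV) : SpecMTAU := by
  obtain ⟨C, hC0, hFL'⟩ := hFL
  intro θ e e0 B B₁ E H W hθ he he0 hB hB₁ hE hH hW
  obtain ⟨C', hC'0, hCr⟩ := hA (1 / 10) (by norm_num)
  obtain ⟨CV, hCV0, hCV⟩ := BasM.Vw_le
  set M : ℝ := 2 * B ^ 2 * (5 / 4) * (3 + 2 * C') with hMdef
  have hM0 : 0 < M := by positivity
  have lim2 : ∀ᶠ N : ℕ in atTop, Real.log N ≤ (N : ℝ) / 8 := by
    have h1 := (isLittleO_log_rpow_atTop (r := 1) one_pos).bound
      (show (0 : ℝ) < 1 / 8 by norm_num)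
    have h2 : ∀ᶠ x : ℝ in atTop, Real.log x ≤ x / 8 := by
      filter_upwards [h1, eventually_ge_atTop 1] with x a1 a2
      rw [Real.norm_of_nonneg (Real.log_nonneg a2), Real.rpow_one, Real.norm_of_nonneg (by linarith)]
        at a1
      linarith
    exact tendsto_natCast_atTop_atTop.eventually h2
  have hBs : 0 < B₁ + H + W + 2 := by positivity
  have hsz := Bas.tendsto_log.eventually (MTAUM.size C (B₁ + H + W + 2) (W + 1) e hC0 hBs
    (by positivity) he)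
  have hall : ∀ᶠ N : ℕ in atTop, (∃ b : ℕ, C * Real.exp (-(b : ℝ)) ≤ 1 / (Real.log N) ^ (B₁ + H + W + 2) ∧
      ∀ z : ℝ, 2 ≤ z → z ≤ (Real.log N) ^ (W + 1) → MTAUM.Z C b z ≤ Real.exp (e * Real.log N / 2)) ∧
      ((wN W N : ℝ) + 1 ≤ (Real.log N) ^ (W + 1)) ∧
      (1 * (Real.log N) ^ (W + 1) ≤ (N : ℝ) ^ e0) ∧ (Real.log N ≤ (N : ℝ) / 8) ∧
      (CV * Real.log ((wN W N : ℝ) + 1) ≤ (Real.log N) ^ (1 : ℝ)) ∧ (3 ≤ wN W N) ∧
      (2 * (Real.log N) ^ (E + H) ≤ (N : ℝ) ^ (1 : ℝ)) ∧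
      (5 * (Real.log N) ^ (1 : ℝ) ≤ (N : ℝ) ^ (e / 2)) ∧
      (1 * (Real.log N) ^ (B₁ + H + W + 2) ≤ (N : ℝ) ^ (e / 2)) ∧
      (10 * M ≤ (Real.log N) ^ (W + 1)) ∧ (1 ≤ Real.log N) ∧ (2 ≤ N) := by
    filter_upwards [hsz, Bas.ev_wN_le hW, Bas.ev_lN (W + 1) he0 1, lim2,
      Bas.ev_logw hW one_pos CV, Bas.ev_wN hW 3, Bas.ev_lN (E + H) one_pos 2,
      Bas.ev_lN 1 (half_pos he) 5, Bas.ev_lN (B₁ + H + W + 2) (half_pos he) 1,
      Bas.ev_lconst (show 0 < W + 1 by positivity) (10 * M), BasM.ev_log 1, eventually_ge_atTop 2]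
      with N a1 a2 a3 a4 a5 a6 a7 a8 a9 a10 a11 a12
    exact ⟨a1, a2, a3, a4, a5, a6, a7, a8, a9, a10, a11, a12⟩
  obtain ⟨N₀, hN₀⟩ := eventually_atTop.1 hall
  refine ⟨N₀, fun N A J hN hAdm hJ hJH K L η hηE hη4 hK1 hK2 hKL1 hKL2 α β hα hαs hβ => ?_⟩
  obtain ⟨⟨b, hb1, hb2⟩, hwle, hwz, hlog, hVl, hw3, hNJ, h5L, hLs, hML, hL1, hN2⟩ := hN₀ N hN
  set w : ℕ := wN W N with hwdef
  set Λ : ℝ := Real.log N with hΛ
  have hΛ0 : 0 < Λ := by linarith
  have hV := Mta.Vw_pos w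
  have hJ0 : (0 : ℝ) < J := by exact_mod_cast hJ
  have hη : 0 < η := lt_of_lt_of_le (Real.rpow_pos_of_pos hΛ0 _) hηE
  have hNr : (2 : ℝ) ≤ N := by exact_mod_cast hN2
  have hN0 : (0 : ℝ) < N := by linarith
  have hw1 : 1 ≤ w := by omega
  have hw1' : (1 : ℝ) ≤ w := by exact_mod_cast hw1
  have hVΛ : Vw w ≤ Λ := by
    have h1 := hCV w hw3
    have h3 : Real.log w ≤ Real.log ((w : ℝ) + 1) := Real.log_le_log (by linarith) (by linarith)
    rw [Real.rpow_one] at hVl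
    have := mul_le_mul_of_nonneg_left h3 hCV0.le
    linarith
  have hz : (w : ℝ) + 1 ≤ (N : ℝ) ^ e0 := by linarith
  have hK0 : 0 < K := lt_of_lt_of_le (by positivity) hK1
  have hL0 : 0 < L := by
    by_contra hcon
    rw [not_lt] at hcon
    have : K * L ≤ 0 := mul_nonpos_of_nonneg_of_nonpos hK0.le hcon
    have : 0 < (N : ℝ) ^ 2 / 2 := by positivity
    linarith
  have hKN : K ≤ N := by
    refine hK2.trans ?_
    calc (N : ℝ) ^ (1 - e) ≤ (N : ℝ) ^ (1 : ℝ) :=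
          Real.rpow_le_rpow_of_exponent_le (by linarith) (by linarith)
      _ = N := Real.rpow_one _
  have hLN : (N : ℝ) / 2 ≤ L := by
    have h1 : (N : ℝ) ^ 2 / 2 ≤ N * L := hKL1.trans (mul_le_mul_of_nonneg_right hKN hL0.le)
    nlinarith
  have hLJ : 1 ≤ η * L / J := by
    rw [le_div_iff₀ hJ0, one_mul]
    rw [Real.rpow_one, Real.rpow_add hΛ0] at hNJ
    have hE0 : 0 < Λ ^ E := Real.rpow_pos_of_pos hΛ0 _
    have h1 : Λ ^ (-E) * Λ ^ E = 1 := by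
      rw [← Real.rpow_add hΛ0, neg_add_cancel, Real.rpow_zero]
    have h3 : Λ ^ H ≤ Λ ^ (-E) * L := by
      calc Λ ^ H = Λ ^ (-E) * Λ ^ E * Λ ^ H := by rw [h1, one_mul]
        _ = Λ ^ (-E) * (Λ ^ E * Λ ^ H) := by ring
        _ ≤ Λ ^ (-E) * L := by
            apply mul_le_mul_of_nonneg_left _ (Real.rpow_nonneg hΛ0.le _)
            linarith
    calc (J : ℝ) ≤ Λ ^ H := hJH
      _ ≤ Λ ^ (-E) * L := h3
      _ ≤ η * L := mul_le_mul_of_nonneg_right hηE hL0.le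
  have hA1 : (1 : ℝ) ≤ A := (Real.one_le_rpow (by linarith) (by linarith)).trans hAdm.1
  have hA8 : (A : ℝ) ≤ (N : ℝ) ^ 2 / 8 := by
    refine hAdm.2.trans ?_
    nlinarith
  have hAN : 4 * (A : ℝ) / N ≤ 4 * Real.log N := by
    rw [div_le_iff₀ hN0]
    have := hAdm.2
    linarith
  have hA06 : (N : ℝ) ^ (1 / 2 + 1 / 10 : ℝ) ≤ A :=
    (Real.rpow_le_rpow_of_exponent_le (by linarith) (by linarith)).trans hAdm.1
  have hone := MTAUM.hone hC0 hFL' hC hM hP h2 hη hη4 hB hJ hw1 hz hNr hK0 hL0 hKL1 hKL2 hA8 hAN α hα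
    hαs b
  set T0 : ℝ := C * Real.exp (-(b : ℝ)) * (8 * N) / K + MTAUM.Z C b ((w : ℝ) + 1) + 1
    + 4 * Real.log N with hT0def
  have hlogw : 0 ≤ 1 + Real.log ((w : ℝ) + 1) := by
    have := Real.log_nonneg (by linarith : (1 : ℝ) ≤ (w : ℝ) + 1)
    linarith
  have hZ0 : 0 ≤ MTAUM.Z C b ((w : ℝ) + 1) := by
    unfold MTAUM.Z
    exact mul_nonneg (mul_nonneg hC0.le hlogw) (by positivity)
  have hT0 : 0 ≤ T0 := by
    rw [hT0def, ← hΛ]
    positivity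
  have hDav : ∀ i, |Dav L η J β i| ≤ 2 * B := Mta.abs_Dav_le hL0 hη hB.le hJ hLJ β hβ
  have ha1 : ∀ a ∈ IA A, |bil (8 * N) a α (sharp w L η J β)
      - Gw w a * ∑ i ∈ range J, Dav L η J β i * ∑ k ∈ Ioc ⌊K⌋₊ ⌊5 / 4 * K⌋₊, α k * ((rho a k : ℝ) / k)
        * (√(k * (L * (1 + η * (i + 1) / J))) - √(k * (L * (1 + η * i / J))))|
      ≤ ∑ k ∈ Ioc ⌊K⌋₊ ⌊5 / 4 * K⌋₊, 2 * B * J * (B * Vw w * T0) * (rho a k : ℝ) := by
    intro a ha
    rw [Mta.bil_eq hL0.le hη.le hK0.le N a w J α β hαs]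
    have e1 : Gw w a * ∑ i ∈ range J, Dav L η J β i * ∑ k ∈ Ioc ⌊K⌋₊ ⌊5 / 4 * K⌋₊,
        α k * ((rho a k : ℝ) / k)
          * (√(k * (L * (1 + η * (i + 1) / J))) - √(k * (L * (1 + η * i / J)))) =
        ∑ i ∈ range J, Dav L η J β i * ∑ k ∈ Ioc ⌊K⌋₊ ⌊5 / 4 * K⌋₊, Gw w a * (α k * ((rho a k : ℝ) / k)
          * (√(k * (L * (1 + η * (i + 1) / J))) - √(k * (L * (1 + η * i / J))))) := by
      rw [mul_sum]
      refine sum_congr rfl fun i _ => ?_
      rw [← mul_sum]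
      ring
    rw [e1, ← sum_sub_distrib]
    have e2 : ∀ i ∈ range J, |Dav L η J β i * ∑ k ∈ Ioc ⌊K⌋₊ ⌊5 / 4 * K⌋₊, α k *
          (Vw w * Mta.Cn N a w k (Mta.xl L η J i) (Mta.xr L η J i)) -
        Dav L η J β i * ∑ k ∈ Ioc ⌊K⌋₊ ⌊5 / 4 * K⌋₊, Gw w a * (α k * ((rho a k : ℝ) / k)
          * (√(k * (L * (1 + η * (i + 1) / J))) - √(k * (L * (1 + η * i / J)))))| ≤
        2 * B * ∑ k ∈ Ioc ⌊K⌋₊ ⌊5 / 4 * K⌋₊, B * Vw w * T0 * rho a k := by
      intro i hi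
      rw [← mul_sub, ← sum_sub_distrib, abs_mul]
      apply mul_le_mul (hDav i) _ (abs_nonneg _) (by positivity)
      exact (abs_sum_le_sum_abs _ _).trans (sum_le_sum fun k hk => hone a ha i hi k hk)
    refine (abs_sum_le_sum_abs _ _).trans ((sum_le_sum e2).trans (le_of_eq ?_))
    rw [sum_const, card_range, nsmul_eq_mul, mul_sum, mul_sum]
    refine sum_congr rfl fun k _ => ?_
    ring
  refine (sum_le_sum ha1).trans ?_
  rw [sum_comm]
  have hk2 : ∀ k ∈ Ioc ⌊K⌋₊ ⌊5 / 4 * K⌋₊, ∑ a ∈ IA A,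
      2 * B * J * (B * Vw w * T0) * (rho a k : ℝ) ≤
      2 * B * J * (B * Vw w * T0) * ((3 + 2 * C') * A) := by
    intro k hk
    rw [mem_Ioc] at hk
    rw [← mul_sum]
    apply mul_le_mul_of_nonneg_left _ (by positivity)
    have hk1 : 1 ≤ k := by omega
    have h1 := (abs_le.1 (hCr k A hk1)).2
    have hkK : (k : ℝ) ≤ 5 / 4 * K := (Nat.le_floor_iff (by positivity)).1 hk.2
    have h2 : (k : ℝ) ^ (1 / 2 + 1 / 10 : ℝ) ≤ 2 * A := by
      calc (k : ℝ) ^ (1 / 2 + 1 / 10 : ℝ) ≤ (2 * N : ℝ) ^ (1 / 2 + 1 / 10 : ℝ) :=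
            Real.rpow_le_rpow (Nat.cast_nonneg _) (by linarith) (by norm_num)
        _ = (2 : ℝ) ^ (1 / 2 + 1 / 10 : ℝ) * (N : ℝ) ^ (1 / 2 + 1 / 10 : ℝ) :=
            Real.mul_rpow (by norm_num) hN0.le
        _ ≤ 2 * A := by
            apply mul_le_mul _ hA06 (by positivity) (by norm_num)
            calc (2 : ℝ) ^ (1 / 2 + 1 / 10 : ℝ) ≤ (2 : ℝ) ^ (1 : ℝ) :=
                  Real.rpow_le_rpow_of_exponent_le (by norm_num) (by norm_num)
              _ = 2 := Real.rpow_one _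
    have h3 := mul_le_mul_of_nonneg_left h2 hC'0.le
    linarith
  refine (sum_le_sum hk2).trans ?_
  rw [sum_const, nsmul_eq_mul]
  have hcard : ((Ioc ⌊K⌋₊ ⌊5 / 4 * K⌋₊).card : ℝ) ≤ 5 / 4 * K := by
    rw [Nat.card_Ioc]
    calc ((⌊5 / 4 * K⌋₊ - ⌊K⌋₊ : ℕ) : ℝ) ≤ (⌊5 / 4 * K⌋₊ : ℝ) := by
          exact_mod_cast Nat.sub_le _ _
      _ ≤ _ := Nat.floor_le (by positivity)
  -- `K T0 ≤ 10 N / Λ ^ Bs`
  have hKT : K * T0 ≤ 10 * N / Λ ^ (B₁ + H + W + 2) := by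
    have hΛs : 0 < Λ ^ (B₁ + H + W + 2) := Real.rpow_pos_of_pos hΛ0 _
    have hZ := hb2 ((w : ℝ) + 1) (by linarith) hwle
    have hexp : Real.exp (e * Λ / 2) = (N : ℝ) ^ (e / 2) := by
      rw [Real.rpow_def_of_pos hN0, ← hΛ]
      congr 1
      ring
    rw [hexp] at hZ
    have hNe2 : 0 < (N : ℝ) ^ (e / 2) := Real.rpow_pos_of_pos hN0 _
    have h4 : MTAUM.Z C b ((w : ℝ) + 1) + 1 + 4 * Real.log N ≤ 2 * (N : ℝ) ^ (e / 2) := by
      rw [Real.rpow_one] at h5L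
      rw [← hΛ]
      linarith
    have h5 : K * (2 * (N : ℝ) ^ (e / 2)) ≤ 2 * N / Λ ^ (B₁ + H + W + 2) := by
      rw [le_div_iff₀ hΛs]
      have h6 : (N : ℝ) ^ (1 - e) * (N : ℝ) ^ (e / 2) * (N : ℝ) ^ (e / 2) = N := by
        rw [← Real.rpow_add hN0, ← Real.rpow_add hN0]
        rw [show 1 - e + e / 2 + e / 2 = 1 by ring, Real.rpow_one]
      calc K * (2 * (N : ℝ) ^ (e / 2)) * Λ ^ (B₁ + H + W + 2)
          ≤ (N : ℝ) ^ (1 - e) * (2 * (N : ℝ) ^ (e / 2)) * (N : ℝ) ^ (e / 2) := by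
            apply mul_le_mul _ (by linarith) hΛs.le (by positivity)
            exact mul_le_mul_of_nonneg_right hK2 (by positivity)
        _ = 2 * ((N : ℝ) ^ (1 - e) * (N : ℝ) ^ (e / 2) * (N : ℝ) ^ (e / 2)) := by ring
        _ = 2 * N := by rw [h6]
    have h7 : K * (C * Real.exp (-(b : ℝ)) * (8 * N) / K) ≤ 8 * N / Λ ^ (B₁ + H + W + 2) := by
      have e1 : K * (C * Real.exp (-(b : ℝ)) * (8 * N) / K) = C * Real.exp (-(b : ℝ)) * (8 * N) := by
        field_simp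
      rw [e1]
      calc C * Real.exp (-(b : ℝ)) * (8 * N) ≤ 1 / Λ ^ (B₁ + H + W + 2) * (8 * N) :=
            mul_le_mul_of_nonneg_right hb1 (by positivity)
        _ = _ := by ring
    have h8 : K * (MTAUM.Z C b ((w : ℝ) + 1) + 1 + 4 * Real.log N) ≤ K * (2 * (N : ℝ) ^ (e / 2)) :=
      mul_le_mul_of_nonneg_left h4 hK0.le
    calc K * T0 = K * (C * Real.exp (-(b : ℝ)) * (8 * N) / K) +
          K * (MTAUM.Z C b ((w : ℝ) + 1) + 1 + 4 * Real.log N) := by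
          rw [hT0def]
          ring
      _ ≤ 8 * N / Λ ^ (B₁ + H + W + 2) + 2 * N / Λ ^ (B₁ + H + W + 2) := by linarith
      _ = _ := by ring
  have hfin : 10 * M * (J : ℝ) * Vw w * Λ ^ B₁ ≤ Λ ^ (B₁ + H + W + 2) := by
    have e1 : Λ ^ (B₁ + H + W + 2) = Λ ^ (W + 1) * Λ ^ H * Λ * Λ ^ B₁ := by
      rw [show B₁ + H + W + 2 = (W + 1) + H + 1 + B₁ by ring, Real.rpow_add hΛ0, Real.rpow_add hΛ0,
        Real.rpow_add hΛ0 (W + 1) H, Real.rpow_one]
    rw [e1]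
    apply mul_le_mul_of_nonneg_right _ (Real.rpow_nonneg hΛ0.le _)
    apply mul_le_mul _ hVΛ hV.le (by positivity)
    exact mul_le_mul hML hJH hJ0.le (by positivity)
  have hΛ1 : 0 < Λ ^ B₁ := Real.rpow_pos_of_pos hΛ0 _
  have hΛs : 0 < Λ ^ (B₁ + H + W + 2) := Real.rpow_pos_of_pos hΛ0 _
  calc ((Ioc ⌊K⌋₊ ⌊5 / 4 * K⌋₊).card : ℝ) *
        (2 * B * J * (B * Vw w * T0) * ((3 + 2 * C') * A))
      ≤ (5 / 4 * K) * (2 * B * J * (B * Vw w * T0) * ((3 + 2 * C') * A)) :=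
        mul_le_mul_of_nonneg_right hcard (by positivity)
    _ = M * J * Vw w * A * (K * T0) := by
        rw [hMdef]
        ring
    _ ≤ M * J * Vw w * A * (10 * N / Λ ^ (B₁ + H + W + 2)) :=
        mul_le_mul_of_nonneg_left hKT (by positivity)
    _ = (10 * M * J * Vw w) * (A * N) / Λ ^ (B₁ + H + W + 2) := by ring
    _ ≤ A * N / Λ ^ B₁ := by
        rw [div_le_div_iff₀ hΛs hΛ1]
        calc 10 * M * J * Vw w * (A * N) * Λ ^ B₁ = (10 * M * J * Vw w * Λ ^ B₁) * (A * N) := by ring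
          _ ≤ Λ ^ (B₁ + H + W + 2) * (A * N) := mul_le_mul_of_nonneg_right hfin (by positivity)
          _ = _ := by ring

end Pool.Agent.Lib.MP391708.U
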