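import Pool.Agent.Lib.MP_391708_nt.QPA.NSF
import Pool.Agent.Lib.MP_391708_nt.U.SpecU

/-!
# NSFU: values divisible by the square of a prime `≥ z`, with power saving
-/

set_option autoImplicit false

namespace Pool.Agent.Lib.MP391708.U

open Finset Filter Topology Pool.Agent.Lib.MP391708.QPA
open scoped Classical

theorem specNSFU (hQG : SpecQG) : SpecNSFU := by
  intro θ e0 hθ he0 he01
  obtain ⟨C, hC, hQ⟩ := hQG (1 / 1000) (by norm_num)
  set σ : ℝ := min e0 (1 / 1000) / 2 with hσ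
  have hσ0 : 0 < σ := by
    have : 0 < min e0 (1 / 1000) := lt_min he0 (by norm_num)
    linarith
  have hσe : σ < e0 := by
    have : min e0 (1 / 1000) ≤ e0 := min_le_left _ _
    linarith
  have hσ1 : σ < 1 / 1000 := by
    have : min e0 (1 / 1000) ≤ 1 / 1000 := min_le_right _ _
    linarith
  refine ⟨σ, hσ0, ?_⟩
  obtain ⟨N₀, hN₀⟩ := eventually_atTop.mp
    ((RHOMEAN.ev_rpow (5 / 6 - σ) (by linarith) 4).and
      ((RHOMEAN.ev_rpow (e0 - σ) (by linarith) 24).and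
      ((RHOMEAN.ev_rpow (1 / 100) (by norm_num) (8 * C)).and
      ((RHOMEAN.ev_log_rpow (82 / 100) (by norm_num) 1 (by norm_num)).and
      ((RHOMEAN.ev_rpow (64 / 100 - σ) (by linarith) 420).and
      ((RHOMEAN.ev_log 1).and ((eventually_ge_atTop 1).and (RHOMEAN.ev_rpow e0 he0 1))))))))
  refine ⟨N₀, ?_⟩
  intro N A hN hAdm
  obtain ⟨ha, hb, hc, hd, hf, hL, hN1, hz1⟩ := hN₀ N hN
  obtain ⟨hA1, hA2⟩ := hAdm
  have hNR : (1 : ℝ) ≤ N := by exact_mod_cast hN1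
  have hNpos : (0 : ℝ) < N := by linarith
  set L : ℝ := Real.log N with hLdef
  set z : ℝ := (N : ℝ) ^ e0 with hzdef
  set B : ℝ := (N : ℝ) ^ (91 / 100 : ℝ) with hBdef
  have hLpos : 0 < L := by linarith
  have hzpos : 0 < z := by linarith
  have hBpos : 0 < B := by rw [hBdef]; positivity
  have hA56 : (N : ℝ) ^ (5 / 6 : ℝ) ≤ A :=
    (Real.rpow_le_rpow_of_exponent_le hNR hθ.le).trans hA1
  have hA0 : (1 : ℝ) ≤ A := (Real.one_le_rpow hNR (by norm_num)).trans hA56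
  have hApos : (0 : ℝ) < A := by linarith
  have hB2 : B ^ 2 = (N : ℝ) ^ (182 / 100 : ℝ) := by
    rw [hBdef, ← Real.rpow_natCast, ← Real.rpow_mul hNpos.le]
    norm_num
  have hpw : ∀ r s : ℝ, (N : ℝ) ^ r * (N : ℝ) ^ s = (N : ℝ) ^ (r + s) := fun r s =>
    (Real.rpow_add hNpos r s).symm
  have hN1' : (N : ℝ) ^ (1 : ℝ) = N := Real.rpow_one _
  have hN2' : (N : ℝ) ^ (2 : ℝ) = (N : ℝ) ^ 2 := by
    rw [← Real.rpow_natCast]
    norm_num
  have hLN : L < (N : ℝ) ^ (82 / 100 : ℝ) := by linarith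
  have hAB : (A : ℝ) < B ^ 2 := by
    rw [hB2]
    calc (A : ℝ) ≤ N * L := hA2
      _ < N * (N : ℝ) ^ (82 / 100 : ℝ) := mul_lt_mul_of_pos_left hLN hNpos
      _ = (N : ℝ) ^ (182 / 100 : ℝ) := by
        nth_rewrite 1 [← hN1']
        rw [hpw]
        norm_num
  have hAN : (A : ℝ) ≤ (N : ℝ) ^ 2 := by
    refine hAB.le.trans ?_
    rw [hB2, ← hN2']
    exact Real.rpow_le_rpow_of_exponent_le hNR (by norm_num)
  rw [NSF.sum_eq_card]
  refine (NSF.cover N A z B).trans ?_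
  have hBN : B ≤ N := by
    calc B ≤ (N : ℝ) ^ (1 : ℝ) := Real.rpow_le_rpow_of_exponent_le hNR (by norm_num)
      _ = N := hN1'
  have hPN : ⌊B⌋₊ ≤ N := Nat.floor_le_of_le hBN
  have hs := NSF.sum_small (A := A) hC (by norm_num) hQ hN1 hz1 hPN
  have hl := NSF.card_large hN1 hAN hAB hBpos
  set T : ℝ := A * (N : ℝ) ^ (1 - σ) with hT
  have hTpos : 0 < (N : ℝ) ^ (1 - σ) := Real.rpow_pos_of_pos hNpos _
  have h1 : (N : ℝ) ≤ T / 4 := by
    have e1 : 4 * (N : ℝ) ≤ T := by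
      calc 4 * (N : ℝ) ≤ (N : ℝ) ^ (5 / 6 - σ) * N := mul_le_mul_of_nonneg_right ha hNpos.le
        _ = (N : ℝ) ^ (5 / 6 : ℝ) * (N : ℝ) ^ (1 - σ) := by
            nth_rewrite 2 [← hN1']
            rw [hpw, hpw]
            congr 1
            ring
        _ ≤ T := mul_le_mul_of_nonneg_right hA56 hTpos.le
    linarith
  have h2 : 2 * (2 * (A : ℝ) + 1) * N / z ≤ T / 4 := by
    rw [div_le_iff₀ hzpos]
    have e2 : 2 * (2 * (A : ℝ) + 1) ≤ 6 * A := by linarith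
    have e3 : (N : ℝ) ^ (1 - σ) * z = N * (N : ℝ) ^ (e0 - σ) := by
      nth_rewrite 2 [← hN1']
      rw [hzdef, hpw, hpw]
      congr 1
      ring
    calc 2 * (2 * (A : ℝ) + 1) * N ≤ 6 * A * N := mul_le_mul_of_nonneg_right e2 hNpos.le
      _ = A * N * 24 / 4 := by ring
      _ ≤ A * N * (N : ℝ) ^ (e0 - σ) / 4 := by
          apply div_le_div_of_nonneg_right _ (by norm_num)
          exact mul_le_mul_of_nonneg_left hb (by positivity)
      _ = A * ((N : ℝ) ^ (1 - σ) * z) / 4 := by rw [e3]; ring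
      _ = T / 4 * z := by rw [hT]; ring
  have h3 : C * (N : ℝ) ^ (2 * (1 / 1000) : ℝ) * (N * (1 + L) + (⌊B⌋₊ : ℝ) ^ 2) ≤ T / 4 := by
    have e1 : (N : ℝ) * (1 + L) ≤ (N : ℝ) ^ (182 / 100 : ℝ) := by
      calc (N : ℝ) * (1 + L) ≤ N * (N : ℝ) ^ (82 / 100 : ℝ) :=
            mul_le_mul_of_nonneg_left (by linarith) hNpos.le
        _ = (N : ℝ) ^ (182 / 100 : ℝ) := by
            nth_rewrite 1 [← hN1']
            rw [hpw]
            norm_num
    have e2 : (⌊B⌋₊ : ℝ) ^ 2 ≤ (N : ℝ) ^ (182 / 100 : ℝ) := by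
      rw [← hB2]
      exact pow_le_pow_left₀ (by positivity) (Nat.floor_le hBpos.le) 2
    have e5 : (N : ℝ) ^ (1832 / 1000 : ℝ) ≤ T := by
      calc (N : ℝ) ^ (1832 / 1000 : ℝ) ≤ (N : ℝ) ^ (5 / 6 + (1 - σ)) :=
            Real.rpow_le_rpow_of_exponent_le hNR (by linarith)
        _ = (N : ℝ) ^ (5 / 6 : ℝ) * (N : ℝ) ^ (1 - σ) := by rw [hpw]
        _ ≤ T := mul_le_mul_of_nonneg_right hA56 hTpos.le
    calc C * (N : ℝ) ^ (2 * (1 / 1000) : ℝ) * (N * (1 + L) + (⌊B⌋₊ : ℝ) ^ 2)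
        ≤ C * (N : ℝ) ^ (2 * (1 / 1000) : ℝ) *
            ((N : ℝ) ^ (182 / 100 : ℝ) + (N : ℝ) ^ (182 / 100 : ℝ)) :=
          mul_le_mul_of_nonneg_left (add_le_add e1 e2) (by positivity)
      _ = ((N : ℝ) ^ (2 * (1 / 1000) : ℝ) * (N : ℝ) ^ (182 / 100 : ℝ)) * (8 * C) / 4 := by ring
      _ ≤ ((N : ℝ) ^ (2 * (1 / 1000) : ℝ) * (N : ℝ) ^ (182 / 100 : ℝ)) *
            (N : ℝ) ^ (1 / 100 : ℝ) / 4 := by
          apply div_le_div_of_nonneg_right _ (by norm_num)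
          exact mul_le_mul_of_nonneg_left hc (by positivity)
      _ = (N : ℝ) ^ (1832 / 1000 : ℝ) / 4 := by
          rw [hpw, hpw]
          norm_num
      _ ≤ T / 4 := div_le_div_of_nonneg_right e5 (by norm_num)
  have h4 : ((((Ioc N (2 * N)) ×ˢ (IA A)).filter (fun t => NSF.LC B t)).card : ℝ) ≤ T / 4 := by
    have e0' : 5 * (N : ℝ) ^ 2 / B ^ 2 = 5 * (N : ℝ) ^ (18 / 100 : ℝ) := by
      rw [hB2, ← hN2', div_eq_iff (by positivity), mul_assoc, hpw]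
      norm_num
    have e1 : 9 * (N : ℝ) ^ 2 * (A / B ^ 2) = 9 * A * (N : ℝ) ^ (18 / 100 : ℝ) := by
      have : 9 * (N : ℝ) ^ 2 * (A / B ^ 2) = 9 / 5 * A * (5 * (N : ℝ) ^ 2 / B ^ 2) := by ring
      rw [this, e0']
      ring
    set x : ℝ := (N : ℝ) ^ (18 / 100 : ℝ) with hx
    have hx1 : 1 ≤ x := Real.one_le_rpow hNR (by norm_num)
    rw [e0', e1] at hl
    have e2 : ((((Ioc N (2 * N)) ×ˢ (IA A)).filter (fun t => NSF.LC B t)).card : ℝ)
        ≤ (⌊5 * x⌋₊ : ℝ) * (2 * ((⌊9 * A * x⌋₊ : ℝ) + 1) + 1) := by exact_mod_cast hl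
    have e3 : (⌊5 * x⌋₊ : ℝ) ≤ 5 * x := Nat.floor_le (by positivity)
    have e4 : (⌊9 * (A : ℝ) * x⌋₊ : ℝ) ≤ 9 * A * x := Nat.floor_le (by positivity)
    have hAx : 1 ≤ (A : ℝ) * x := by nlinarith
    have e5 : (⌊5 * x⌋₊ : ℝ) * (2 * ((⌊9 * A * x⌋₊ : ℝ) + 1) + 1) ≤ (5 * x) * (21 * (A * x)) :=
      mul_le_mul e3 (by nlinarith) (by positivity) (by positivity)
    have e7 : x * x * (N : ℝ) ^ (64 / 100 - σ) = (N : ℝ) ^ (1 - σ) := by
      rw [hx, hpw, hpw]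
      congr 1
      ring
    calc ((((Ioc N (2 * N)) ×ˢ (IA A)).filter (fun t => NSF.LC B t)).card : ℝ)
        ≤ (5 * x) * (21 * (A * x)) := e2.trans e5
      _ = (A * (x * x)) * 420 / 4 := by ring
      _ ≤ (A * (x * x)) * (N : ℝ) ^ (64 / 100 - σ) / 4 := by
          apply div_le_div_of_nonneg_right _ (by norm_num)
          exact mul_le_mul_of_nonneg_left hf (by positivity)
      _ = A * (x * x * (N : ℝ) ^ (64 / 100 - σ)) / 4 := by ring
      _ = T / 4 := by rw [e7]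
  linarith

end Pool.Agent.Lib.MP391708.U
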