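import Pool.Agent.Lib.MP_391708_nt.QPA.MTB
import Pool.Agent.Lib.MP_391708_nt.QPA.RHOMEAN
import Pool.Agent.Lib.MP_391708_nt.U.MOBU

/-!
# RHOU: windows of rough numbers weighted by `ρ_a(k)/k`, power saving exceptional set
-/

set_option autoImplicit false

namespace Pool.Agent.Lib.MP391708.U

open Finset Filter Topology Pool.Agent.Lib.MP391708.QPA
open scoped Classical

namespace RHOUM

/-- the rough numbers `≥ 2` in `[X₁, X₂]` -/
noncomputable def KK (z X₁ X₂ : ℝ) : Finset ℕ :=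
  (Icc ⌈X₁⌉₊ ⌊X₂⌋₊).filter (fun k => 2 ≤ k ∧ Rough z k)

theorem mem_KK {z X₁ X₂ : ℝ} {k : ℕ} (h : k ∈ KK z X₁ X₂) :
    X₁ ≤ k ∧ (k : ℝ) ≤ X₂ ∧ 2 ≤ k ∧ Rough z k ∧ z ≤ k := by
  obtain ⟨h1, h2, h3⟩ := mem_filter.1 h
  obtain ⟨h4, h5⟩ := mem_Icc.1 h1
  have h6 : (k : ℝ) ≤ X₂ := by
    have h7 : k ≠ 0 := by omega
    exact (Nat.le_floor_iff' h7).1 h5
  exact ⟨Nat.ceil_le.1 h4, h6, h2, h3, RHOMEAN.le_of_rough h2 h3⟩

theorem win {C₀ : ℝ} (hC : 0 < C₀)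
    (hR : ∀ (z X₁ X₂ : ℝ), 2 ≤ z → z ≤ X₁ → X₁ ≤ X₂ →
      ∑ k ∈ Icc ⌈X₁⌉₊ ⌊X₂⌋₊, rInd z k / (k : ℝ) ≤ C₀ * (Real.log (X₂ / X₁) + 1) / Real.log z)
    {z X₁ X₂ R : ℝ} (hz : 2 ≤ z) (hX : 0 < X₁) (hR0 : 1 ≤ R) (hX2 : X₂ ≤ X₁ * R) :
    ∑ k ∈ KK z X₁ X₂, 1 / (k : ℝ) ≤ C₀ * (Real.log R + 1) / Real.log z := by
  have hlz : 0 < Real.log z := Real.log_pos (by linarith)
  have hlR : 0 ≤ Real.log R := Real.log_nonneg hR0
  by_cases hc : max X₁ z ≤ X₂
  · have h1 := hR z (max X₁ z) X₂ hz (le_max_right _ _) hc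
    have hm : 0 < max X₁ z := lt_max_of_lt_left hX
    have h2 : Real.log (X₂ / max X₁ z) ≤ Real.log R := by
      apply Real.log_le_log
      · exact div_pos (lt_of_lt_of_le hm hc) hm
      · rw [div_le_iff₀ hm]
        calc X₂ ≤ X₁ * R := hX2
          _ ≤ R * max X₁ z := by
            rw [mul_comm]
            exact mul_le_mul_of_nonneg_left (le_max_left _ _) (by linarith)
    calc ∑ k ∈ KK z X₁ X₂, 1 / (k : ℝ)
        ≤ ∑ k ∈ Icc ⌈max X₁ z⌉₊ ⌊X₂⌋₊, rInd z k / (k : ℝ) := by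
          have h3 : KK z X₁ X₂ ⊆ Icc ⌈max X₁ z⌉₊ ⌊X₂⌋₊ := by
            intro k hk
            obtain ⟨g1, g2, g3, g4, g5⟩ := mem_KK hk
            exact mem_Icc.2 ⟨Nat.ceil_le.2 (max_le g1 g5), Nat.le_floor g2⟩
          calc ∑ k ∈ KK z X₁ X₂, 1 / (k : ℝ) = ∑ k ∈ KK z X₁ X₂, rInd z k / (k : ℝ) := by
                refine sum_congr rfl fun k hk => ?_
                obtain ⟨g1, g2, g3, g4, g5⟩ := mem_KK hk
                rw [rInd, if_pos g4]
            _ ≤ _ := sum_le_sum_of_subset_of_nonneg h3 fun k _ _ => by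
                  unfold rInd
                  split_ifs <;> positivity
      _ ≤ C₀ * (Real.log (X₂ / max X₁ z) + 1) / Real.log z := h1
      _ ≤ _ := by
          apply div_le_div_of_nonneg_right _ hlz.le
          exact mul_le_mul_of_nonneg_left (by linarith) hC.le
  · have h3 : KK z X₁ X₂ = ∅ := by
      apply eq_empty_of_forall_notMem
      intro k hk
      obtain ⟨g1, g2, g3, g4, g5⟩ := mem_KK hk
      exact hc ((max_le g1 g5).trans g2)
    rw [h3, sum_empty]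
    positivity

/-- the sum of `1/k` over rough nonsquarefree `k ≤ M` -/
theorem nsf (z : ℝ) (hz : 2 ≤ z) (M : ℕ) (S : Finset ℕ)
    (hS : ∀ k ∈ S, 1 ≤ k ∧ k ≤ M ∧ ¬ Squarefree k ∧ Rough z k) :
    ∑ k ∈ S, 1 / (k : ℝ) ≤ 2 / z * (1 + Real.log M) := by
  set m0 : ℕ := ⌈z⌉₊ - 1 with hm0
  have hc : z ≤ ⌈z⌉₊ := Nat.le_ceil z
  have hc2 : (⌈z⌉₊ : ℝ) < z + 1 := Nat.ceil_lt_add_one (by linarith)
  have hc3 : 2 ≤ ⌈z⌉₊ := by
    have : (2 : ℝ) ≤ (⌈z⌉₊ : ℝ) := hz.trans hc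
    exact_mod_cast this
  have hm1 : 1 ≤ m0 := by omega
  have hmr : (m0 : ℝ) = (⌈z⌉₊ : ℝ) - 1 := by
    rw [hm0, Nat.cast_sub (by omega)]
    norm_num
  have hm2 : z / 2 ≤ m0 := by
    rw [hmr]
    linarith
  have hm3 : (m0 : ℝ) < z := by
    rw [hmr]
    linarith
  have hex : ∀ k ∈ S, ∃ n j : ℕ, m0 < n ∧ n ≤ M ∧ 1 ≤ j ∧ j ≤ M ∧ k = n ^ 2 * j := by
    intro k hk
    obtain ⟨h1, h2, h3, h4⟩ := hS k hk
    rw [Nat.squarefree_iff_prime_squarefree] at h3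
    push Not at h3
    obtain ⟨p, hp, j, hj⟩ := h3
    have hpk : p ∣ k := ⟨p * j, by rw [hj]; ring⟩
    have hpz : z ≤ p := h4 p hp hpk
    have hpm : m0 < p := by
      have : (m0 : ℝ) < p := lt_of_lt_of_le hm3 hpz
      exact_mod_cast this
    have hj1 : 1 ≤ j := by
      rcases Nat.eq_zero_or_pos j with h | h
      · rw [h] at hj
        omega
      · exact h
    have hp1 : 1 ≤ p := hp.one_lt.le
    have hpM : p ≤ M := by
      have h5 : p * p ≤ k := by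
        rw [hj]
        exact Nat.le_mul_of_pos_right _ hj1
      have h6 : p ≤ p * p := Nat.le_mul_self p
      omega
    have hjM : j ≤ M := by
      have h5 : j ≤ k := by
        rw [hj]
        exact Nat.le_mul_of_pos_left _ (Nat.mul_pos hp1 hp1)
      omega
    exact ⟨p, j, hpm, hpM, hj1, hjM, by rw [hj]; ring⟩
  choose! n j g1 g2 g3 g4 g5 using hex
  have h1 : ∑ k ∈ S, 1 / (k : ℝ)
      = ∑ x ∈ S.image (fun k => (n k, j k)), 1 / ((x.1 : ℝ) ^ 2 * x.2) := by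
    rw [sum_image]
    · refine sum_congr rfl fun k hk => ?_
      have h2 : (k : ℝ) = (n k : ℝ) ^ 2 * (j k : ℝ) := by exact_mod_cast g5 k hk
      rw [h2]
    · intro k hk k' hk' h
      have h2 := Prod.mk.inj h
      rw [g5 k hk, g5 k' hk', h2.1, h2.2]
  rw [h1]
  calc ∑ x ∈ S.image (fun k => (n k, j k)), 1 / ((x.1 : ℝ) ^ 2 * x.2)
      ≤ ∑ x ∈ (Ioc m0 (max m0 M)) ×ˢ (Icc 1 M), 1 / ((x.1 : ℝ) ^ 2 * x.2) := by
        refine sum_le_sum_of_subset_of_nonneg ?_ fun x _ _ => by positivity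
        intro x hx
        obtain ⟨k, hk, rfl⟩ := mem_image.1 hx
        exact mem_product.2 ⟨mem_Ioc.2 ⟨g1 k hk, (g2 k hk).trans (le_max_right _ _)⟩,
          mem_Icc.2 ⟨g3 k hk, g4 k hk⟩⟩
    _ = (∑ a ∈ Ioc m0 (max m0 M), ((a : ℝ) ^ 2)⁻¹) * ∑ b ∈ Icc 1 M, 1 / (b : ℝ) := by
        rw [sum_product, sum_mul]
        refine sum_congr rfl fun a _ => ?_
        rw [mul_sum]
        refine sum_congr rfl fun b _ => ?_
        rw [one_div, mul_inv, one_div]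
    _ ≤ (2 / z) * (1 + Real.log M) := by
        have h7 := sum_Ioc_inv_sq_le_sub (α := ℝ) (by omega : m0 ≠ 0) (le_max_left m0 M)
        have h10 : (m0 : ℝ)⁻¹ ≤ 2 / z := by
          rw [inv_le_comm₀ (by positivity) (by positivity), inv_div]
          exact hm2
        have h9 : (0 : ℝ) ≤ ((max m0 M : ℕ) : ℝ)⁻¹ := by positivity
        have h11 : ∑ b ∈ Icc 1 M, 1 / (b : ℝ) ≤ 1 + Real.log M := by
          have := harmonic_le_one_add_log M
          rw [harmonic_eq_sum_Icc] at this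
          push_cast at this
          simpa [one_div] using this
        apply mul_le_mul (by linarith) h11 (by positivity) (by positivity)

/-- the coefficients of the characters -/
noncomputable def gd (K : Finset ℕ) (d : ℕ) : ℝ := ∑ k ∈ K.filter (fun k => d ∣ k), 1 / (k : ℝ)

theorem gd_nonneg (K : Finset ℕ) (d : ℕ) : 0 ≤ gd K d := sum_nonneg fun k _ => by positivity

theorem gd_le (K T : Finset ℕ) (d : ℕ) (hK : ∀ k ∈ K, d ∣ k → k / d ∈ T) :
    gd K d ≤ 1 / (d : ℝ) * ∑ j ∈ T, 1 / (j : ℝ) := by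
  have h1 : gd K d = ∑ j ∈ (K.filter (fun k => d ∣ k)).image (fun k => k / d),
      1 / ((d : ℝ) * j) := by
    rw [sum_image, gd]
    · refine sum_congr rfl fun k hk => ?_
      have h2 := Nat.mul_div_cancel' (mem_filter.1 hk).2
      have h3 : ((d : ℝ)) * ((k / d : ℕ) : ℝ) = k := by exact_mod_cast h2
      rw [h3]
    · intro k hk k' hk' h
      have h2 := Nat.mul_div_cancel' (mem_filter.1 hk).2
      have h3 := Nat.mul_div_cancel' (mem_filter.1 hk').2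
      simp only at h
      rw [← h2, ← h3, h]
  rw [h1, mul_sum]
  calc ∑ j ∈ (K.filter (fun k => d ∣ k)).image (fun k => k / d), 1 / ((d : ℝ) * j)
      ≤ ∑ j ∈ T, 1 / ((d : ℝ) * j) := by
        refine sum_le_sum_of_subset_of_nonneg ?_ fun j _ _ => by positivity
        intro j hj
        obtain ⟨k, hk, rfl⟩ := mem_image.1 hj
        exact hK k (mem_filter.1 hk).1 (mem_filter.1 hk).2
    _ = _ := sum_congr rfl fun j _ => by rw [one_div, one_div, one_div, mul_inv]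

theorem gd_ne {K : Finset ℕ} {d : ℕ} (h : gd K d ≠ 0) : ∃ k ∈ K, d ∣ k := by
  obtain ⟨k, hk, _⟩ := exists_ne_zero_of_sum_ne_zero h
  exact ⟨k, (mem_filter.1 hk).1, (mem_filter.1 hk).2⟩

theorem rough_dvd {z : ℝ} {d k : ℕ} (h : Rough z k) (hd : d ∣ k) : Rough z d :=
  fun p hp hpd => h p hp (hpd.trans hd)

/-- the sum over squarefree `k` in terms of the characters -/
theorem expand (hD : SpecRHOD) (K : Finset ℕ) (J : ℕ) (hK : ∀ k ∈ K, k ≤ 2 ^ J)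
    (hs : ∀ k ∈ K, Odd k ∧ Squarefree k) (a : ℤ) :
    ∑ k ∈ K, (rho a k : ℝ) / k = ∑ k ∈ K, 1 / (k : ℝ)
      + ∑ f ∈ Ioc 1 (2 ^ J), gd K f * (jacobiSym (-a) f : ℝ) := by
  have h1 : ∀ f, gd K f * (jacobiSym (-a) f : ℝ)
      = ∑ k ∈ K, if f ∣ k then 1 / (k : ℝ) * (jacobiSym (-a) f : ℝ) else 0 := by
    intro f
    rw [gd, Finset.sum_mul, Finset.sum_filter]
  rw [Finset.sum_congr rfl (fun f _ => h1 f), Finset.sum_comm, ← sum_add_distrib]
  apply Finset.sum_congr rfl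
  intro k hk
  have hk1 : k ≠ 0 := (hs k hk).2.ne_zero
  have h2 := hD a k (hs k hk).1 (hs k hk).2
  have h4 : (rho a k : ℝ) = ∑ f ∈ k.divisors, (jacobiSym (-a) f : ℝ) := by
    exact_mod_cast h2
  have h5 : k.divisors = insert 1 ((Ioc 1 (2 ^ J)).filter (fun f => f ∣ k)) := by
    ext f
    simp only [Nat.mem_divisors, Finset.mem_insert, Finset.mem_filter, Finset.mem_Ioc]
    constructor
    · rintro ⟨h6, h7⟩
      have h8 : f ≤ k := Nat.le_of_dvd (Nat.pos_of_ne_zero h7) h6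
      have h9 : 0 < f := Nat.pos_of_dvd_of_pos h6 (Nat.pos_of_ne_zero h7)
      by_cases h10 : f = 1
      · exact Or.inl h10
      · exact Or.inr ⟨⟨by omega, h8.trans (hK k hk)⟩, h6⟩
    · rintro (h6 | ⟨_, h6⟩)
      · exact ⟨h6 ▸ one_dvd k, hk1⟩
      · exact ⟨h6, hk1⟩
  rw [h4, h5, Finset.sum_insert (by simp), jacobiSym.one_right, add_div, Finset.sum_div,
    Finset.sum_filter]
  push_cast
  congr 1
  apply Finset.sum_congr rfl
  intro f _
  split_ifs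
  · ring
  · rfl

theorem exc_add (A : ℕ) (P P₁ P₂ : ℤ → Prop) (h : ∀ a, P₁ a → P₂ a → P a) :
    exc A P ≤ exc A P₁ + exc A P₂ := by
  unfold exc
  have h1 : (IA A).filter (fun a => ¬ P a)
      ⊆ (IA A).filter (fun a => ¬ P₁ a) ∪ (IA A).filter (fun a => ¬ P₂ a) := by
    intro a ha
    obtain ⟨h2, h3⟩ := mem_filter.1 ha
    by_cases h4 : P₁ a
    · have h5 : ¬ P₂ a := fun h5 => h3 (h a h4 h5)
      exact mem_union_right _ (mem_filter.2 ⟨h2, h5⟩)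
    · exact mem_union_left _ (mem_filter.2 ⟨h2, h4⟩)
  exact_mod_cast (card_le_card h1).trans (card_union_le _ _)

/-- Markov's inequality. -/
theorem markov (A : ℕ) (G : ℤ → ℝ) (δ B : ℝ) (hδ : 0 < δ) (hG : ∀ a, 0 ≤ G a)
    (h : ∑ a ∈ IA A, G a ≤ δ * B) : exc A (fun a => G a ≤ δ) ≤ B := by
  have h3 : (((IA A).filter (fun a => ¬ G a ≤ δ)).card : ℝ) * δ ≤ ∑ a ∈ IA A, G a := by
    calc _ = ∑ a ∈ (IA A).filter (fun a => ¬ G a ≤ δ), δ := by rw [sum_const, nsmul_eq_mul]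
      _ ≤ ∑ a ∈ (IA A).filter (fun a => ¬ G a ≤ δ), G a := by
          refine sum_le_sum fun a ha => ?_
          have h4 := (mem_filter.1 ha).2
          rw [not_le] at h4
          exact h4.le
      _ ≤ _ := sum_le_sum_of_subset_of_nonneg (filter_subset _ _) fun a _ _ => hG a
  have h4 := h3.trans h
  rw [mul_comm δ B] at h4
  exact le_of_mul_le_mul_right h4 hδ

/-- far from `A` -/
def Far (N A : ℕ) (t : ℝ) (f : ℕ) : Prop :=
  (A : ℝ) * (N : ℝ) ^ t ≤ f ∨ (f : ℝ) ≤ A * (N : ℝ) ^ (-t)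

/-- the far coefficients -/
noncomputable def gF (N A : ℕ) (t : ℝ) (K : Finset ℕ) (f : ℕ) : ℝ :=
  if Far N A t f then gd K f else 0

/-- the near coefficients -/
noncomputable def gN (N A : ℕ) (t : ℝ) (K : Finset ℕ) (f : ℕ) : ℝ :=
  if Far N A t f then 0 else gd K f

theorem gF_add (N A : ℕ) (t : ℝ) (K : Finset ℕ) (f : ℕ) :
    gd K f = gF N A t K f + gN N A t K f := by
  unfold gF gN
  split_ifs <;> ring

/-- second moment of the far part -/
theorem far (hS : SpecSML) (hL : SpecLRG) (e0 t : ℝ) (he : 0 < e0) (ht : 0 < t) :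
    ∃ C : ℝ, 0 < C ∧ ∀ (N A J : ℕ) (z : ℝ) (K : Finset ℕ), 2 ≤ N → 2 ≤ z → z = (N : ℝ) ^ e0 →
    (N : ℝ) ^ (3 / 5 : ℝ) ≤ A → (A : ℝ) ≤ (N : ℝ) ^ 2 →
    (∀ k ∈ K, 1 ≤ k ∧ k ≤ 4 * N ∧ Odd k ∧ Squarefree k ∧ Rough z k) →
    ∑ a ∈ IA A, (∑ f ∈ Ioc 1 (2 ^ J), gF N A t K f * (jacobiSym (-a) f : ℝ)) ^ 2
      ≤ C * (J : ℝ) ^ 2 * (1 + Real.log (4 * N)) ^ 2 * A
        * (N : ℝ) ^ (-(min e0 (min (t / 2) (3 / 10)))) := by
  obtain ⟨C, hC, h1⟩ := MTB.block hS hL e0 t he ht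
  refine ⟨C, hC, ?_⟩
  intro N A J z K hN hz hze hA hA2 hK
  have hN2 : (2 : ℝ) ≤ N := by exact_mod_cast hN
  have hl4 : 0 ≤ Real.log (4 * N) := Real.log_nonneg (by linarith)
  set D : ℝ := 1 + Real.log (4 * N) with hD
  have hD0 : 0 ≤ D := by linarith
  have hg0 : ∀ f, 0 ≤ gF N A t K f := by
    intro f
    unfold gF
    split_ifs
    · exact gd_nonneg _ _
    · exact le_rfl
  have hgle : ∀ f, gF N A t K f ≤ gd K f := by
    intro f
    unfold gF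
    split_ifs
    · exact le_rfl
    · exact gd_nonneg _ _
  have hgne : ∀ f, gF N A t K f ≠ 0 → Far N A t f ∧ gd K f ≠ 0 := by
    intro f hf
    unfold gF at hf
    split_ifs at hf with h
    · exact ⟨h, hf⟩
    · exact absurd rfl hf
  have hblk : ∀ j ∈ range J, ∑ a ∈ IA A, (∑ f ∈ Ioc (2 ^ j) (2 * 2 ^ j),
      gF N A t K f * (jacobiSym (-a) f : ℝ)) ^ 2
      ≤ C * D ^ 2 * A * (N : ℝ) ^ (-(min e0 (min (t / 2) (3 / 10)))) := by
    intro j _
    refine h1 N A (2 ^ j) (gF N A t K) D hN Nat.one_le_two_pow hD0 hA hA2 hg0 ?_ ?_ ?_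
    · intro f hf
      refine (hgle f).trans ((gd_le K (Icc 1 (4 * N)) f ?_).trans ?_)
      · intro k hk hfk
        obtain ⟨g1, g2, _⟩ := hK k hk
        refine mem_Icc.2 ⟨Nat.div_pos (Nat.le_of_dvd g1 hfk) hf, (Nat.div_le_self _ _).trans g2⟩
      · have h11 : ∑ b ∈ Icc 1 (4 * N), 1 / (b : ℝ) ≤ D := by
          have := harmonic_le_one_add_log (4 * N)
          rw [harmonic_eq_sum_Icc] at this
          push_cast at this
          simpa [one_div] using this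
        rw [one_div, ← div_eq_inv_mul]
        exact div_le_div_of_nonneg_right h11 (Nat.cast_nonneg _)
    · intro f hf
      obtain ⟨k, hk, hfk⟩ := gd_ne (hgne f hf).2
      obtain ⟨g1, g2, g3, g4, g5⟩ := hK k hk
      exact ⟨Odd.of_dvd_nat g3 hfk, g4.squarefree_of_dvd hfk⟩
    · intro f hf hf1
      obtain ⟨k, hk, hfk⟩ := gd_ne (hgne f hf).2
      obtain ⟨g1, g2, g3, g4, g5⟩ := hK k hk
      refine ⟨?_, (hgne f hf).1⟩
      rw [← hze]
      exact RHOMEAN.le_of_rough hf1 (rough_dvd g5 hfk)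
  calc ∑ a ∈ IA A, (∑ f ∈ Ioc 1 (2 ^ J), gF N A t K f * (jacobiSym (-a) f : ℝ)) ^ 2
      ≤ ∑ a ∈ IA A, (J : ℝ) * ∑ j ∈ range J, (∑ f ∈ Ioc (2 ^ j) (2 * 2 ^ j),
          gF N A t K f * (jacobiSym (-a) f : ℝ)) ^ 2 := by
        refine sum_le_sum fun a _ => ?_
        rw [MTB.dyad (fun f => gF N A t K f * (jacobiSym (-a) f : ℝ)) J]
        have := sq_sum_le_card_mul_sum_sq (s := range J) (f := fun j =>
          ∑ f ∈ Ioc (2 ^ j) (2 * 2 ^ j), gF N A t K f * (jacobiSym (-a) f : ℝ))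
        rwa [card_range] at this
    _ = (J : ℝ) * ∑ j ∈ range J, ∑ a ∈ IA A, (∑ f ∈ Ioc (2 ^ j) (2 * 2 ^ j),
          gF N A t K f * (jacobiSym (-a) f : ℝ)) ^ 2 := by
        rw [← mul_sum, sum_comm]
    _ ≤ (J : ℝ) * ∑ j ∈ range J, (C * D ^ 2 * A * (N : ℝ) ^ (-(min e0 (min (t / 2) (3 / 10))))) :=
        mul_le_mul_of_nonneg_left (sum_le_sum hblk) (Nat.cast_nonneg _)
    _ = _ := by
        rw [sum_const, card_range, nsmul_eq_mul]
        ring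

/-- first moment of the nonsquarefree part -/
theorem nonsqf (hR : SpecRAV) : ∃ C : ℝ, 0 < C ∧ ∀ (N A : ℕ) (z : ℝ) (K : Finset ℕ), 2 ≤ N →
    2 ≤ z → (N : ℝ) ^ (3 / 5 : ℝ) ≤ A →
    (∀ k ∈ K, 1 ≤ k ∧ k ≤ 4 * N ∧ ¬ Squarefree k ∧ Rough z k) →
    ∑ a ∈ IA A, ∑ k ∈ K, (rho a k : ℝ) / k ≤ C * A / z * (1 + Real.log (4 * N)) := by
  obtain ⟨C, hC, h1⟩ := hR (1 / 10) (by norm_num)
  refine ⟨2 * (3 + 4 * C), by positivity, ?_⟩
  intro N A z K hN hz hA hK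
  have hN2 : (2 : ℝ) ≤ N := by exact_mod_cast hN
  have hN1 : (1 : ℝ) ≤ N := by linarith
  have hN0 : (0 : ℝ) < N := by linarith
  have hA1 : (1 : ℝ) ≤ A := (Real.one_le_rpow hN1 (by norm_num)).trans hA
  have h5 : ∀ k ∈ K, ∑ a ∈ IA A, (rho a k : ℝ) ≤ (3 + 4 * C) * A := by
    intro k hk
    obtain ⟨g1, g2, g3, g4⟩ := hK k hk
    have h7 := (abs_le.mp (h1 k A g1)).2
    have hkN : (k : ℝ) ≤ 4 * N := by exact_mod_cast g2
    have h8 : (k : ℝ) ^ (1 / 2 + 1 / 10 : ℝ) ≤ 4 * A := by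
      have hk0 : (0 : ℝ) ≤ k := Nat.cast_nonneg _
      calc (k : ℝ) ^ (1 / 2 + 1 / 10 : ℝ) ≤ (4 * N : ℝ) ^ (1 / 2 + 1 / 10 : ℝ) :=
            Real.rpow_le_rpow hk0 hkN (by norm_num)
        _ = 4 ^ (1 / 2 + 1 / 10 : ℝ) * (N : ℝ) ^ (1 / 2 + 1 / 10 : ℝ) :=
            Real.mul_rpow (by norm_num) hN0.le
        _ ≤ 4 * A := by
            apply mul_le_mul _ _ (by positivity) (by norm_num)
            · calc (4 : ℝ) ^ (1 / 2 + 1 / 10 : ℝ) ≤ 4 ^ (1 : ℝ) :=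
                    Real.rpow_le_rpow_of_exponent_le (by norm_num) (by norm_num)
                _ = 4 := Real.rpow_one 4
            · exact (Real.rpow_le_rpow_of_exponent_le hN1 (by norm_num)).trans hA
    have h9 : C * (k : ℝ) ^ (1 / 2 + 1 / 10 : ℝ) ≤ C * (4 * A) := mul_le_mul_of_nonneg_left h8 hC.le
    linarith
  calc ∑ a ∈ IA A, ∑ k ∈ K, (rho a k : ℝ) / k
      = ∑ k ∈ K, 1 / (k : ℝ) * ∑ a ∈ IA A, (rho a k : ℝ) := by
        rw [sum_comm]
        refine sum_congr rfl fun k _ => ?_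
        rw [mul_sum]
        refine sum_congr rfl fun a _ => ?_
        ring
    _ ≤ ∑ k ∈ K, 1 / (k : ℝ) * ((3 + 4 * C) * A) :=
        sum_le_sum fun k hk => mul_le_mul_of_nonneg_left (h5 k hk) (by positivity)
    _ = (∑ k ∈ K, 1 / (k : ℝ)) * ((3 + 4 * C) * A) := by rw [sum_mul]
    _ ≤ (2 / z * (1 + Real.log ((4 * N : ℕ) : ℝ))) * ((3 + 4 * C) * A) :=
        mul_le_mul_of_nonneg_right (nsf z hz (4 * N) K hK) (by positivity)
    _ = _ := by
        push_cast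
        ring

theorem near {C₀ : ℝ} (hC : 0 < C₀)
    (hR : ∀ (z X₁ X₂ : ℝ), 2 ≤ z → z ≤ X₁ → X₁ ≤ X₂ →
      ∑ k ∈ Icc ⌈X₁⌉₊ ⌊X₂⌋₊, rInd z k / (k : ℝ) ≤ C₀ * (Real.log (X₂ / X₁) + 1) / Real.log z)
    {N A J : ℕ} {t z X₁ X₂ R : ℝ} {K : Finset ℕ} (hz : 2 ≤ z) (hX : 0 < X₁) (hR0 : 1 ≤ R)
    (hX2 : X₂ ≤ X₁ * R) (hN : 2 ≤ N) (hA : 0 < A) (ht : 0 < t) (hK : K ⊆ KK z X₁ X₂) :
    ∑ f ∈ Ioc 1 (2 ^ J), gN N A t K f
      ≤ (C₀ * (2 * t * Real.log N + 1) / Real.log z)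
        * (1 + C₀ * (Real.log R + 1) / Real.log z) := by
  have hN2 : (2 : ℝ) ≤ N := by exact_mod_cast hN
  have hN0 : (0 : ℝ) < N := by linarith
  have hA0 : (0 : ℝ) < A := by exact_mod_cast hA
  set B : ℝ := C₀ * (Real.log R + 1) / Real.log z with hB
  have hlz : 0 < Real.log z := Real.log_pos (by linarith)
  have hlR : 0 ≤ Real.log R := Real.log_nonneg hR0
  have hB0 : 0 ≤ B := by positivity
  have hlow : 0 < (A : ℝ) * (N : ℝ) ^ (-t) := by positivity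
  have hgd : ∀ f : ℕ, 1 ≤ f → gd K f ≤ 1 / (f : ℝ) * (1 + B) := by
    intro f hf
    have hf0 : (0 : ℝ) < f := by exact_mod_cast hf
    refine (gd_le K (insert 1 (KK z (X₁ / f) (X₂ / f))) f ?_).trans ?_
    · intro k hk hfk
      obtain ⟨g1, g2, g3, g4, g5⟩ := mem_KK (hK hk)
      obtain ⟨m, rfl⟩ := hfk
      rw [Nat.mul_div_cancel_left m hf]
      push_cast at g1 g2
      by_cases hm : m = 1
      · exact mem_insert.2 (Or.inl hm)
      · have hm0 : m ≠ 0 := by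
          rintro rfl
          omega
        refine mem_insert_of_mem (mem_filter.2 ⟨mem_Icc.2 ⟨Nat.ceil_le.2 ?_, Nat.le_floor ?_⟩,
          by omega, rough_dvd g4 (Dvd.intro_left f rfl)⟩)
        · rw [div_le_iff₀ hf0]
          linarith
        · rw [le_div_iff₀ hf0]
          linarith
    · apply mul_le_mul_of_nonneg_left _ (by positivity)
      have h1 := win hC hR hz (div_pos hX hf0) hR0 (X₂ := X₂ / f) (by
        rw [div_mul_eq_mul_div]
        exact div_le_div_of_nonneg_right hX2 hf0.le)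
      by_cases h2 : 1 ∈ KK z (X₁ / f) (X₂ / f)
      · obtain ⟨_, _, g3, _⟩ := mem_KK h2
        omega
      · rw [sum_insert h2]
        push_cast
        linarith
  have hsub : ∑ f ∈ Ioc 1 (2 ^ J), gN N A t K f
      ≤ ∑ f ∈ KK z (A * (N : ℝ) ^ (-t)) (A * (N : ℝ) ^ t), 1 / (f : ℝ) * (1 + B) := by
    rw [← sum_filter_ne_zero]
    calc ∑ f ∈ (Ioc 1 (2 ^ J)).filter (fun f => gN N A t K f ≠ 0), gN N A t K f
        ≤ ∑ f ∈ (Ioc 1 (2 ^ J)).filter (fun f => gN N A t K f ≠ 0), 1 / (f : ℝ) * (1 + B) := by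
          refine sum_le_sum fun f hf => ?_
          have h1 := (mem_Ioc.1 (mem_filter.1 hf).1).1
          refine le_trans ?_ (hgd f h1.le)
          unfold gN
          split_ifs
          · exact gd_nonneg _ _
          · exact le_rfl
      _ ≤ _ := by
          refine sum_le_sum_of_subset_of_nonneg ?_ fun f _ _ => by positivity
          intro f hf
          have h1 := (mem_Ioc.1 (mem_filter.1 hf).1).1
          have h2 := (mem_filter.1 hf).2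
          unfold gN at h2
          split_ifs at h2 with h3
          · exact absurd rfl h2
          · unfold Far at h3
            push Not at h3
            obtain ⟨k, hk, hfk⟩ := gd_ne h2
            obtain ⟨g1, g2, g3, g4, g5⟩ := mem_KK (hK hk)
            exact mem_filter.2 ⟨mem_Icc.2 ⟨Nat.ceil_le.2 h3.2.le, Nat.le_floor h3.1.le⟩, h1,
              rough_dvd g4 hfk⟩
  refine hsub.trans ?_
  rw [← sum_mul]
  apply mul_le_mul_of_nonneg_right _ (by positivity)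
  have h1 := win hC hR hz hlow (R := (N : ℝ) ^ (2 * t)) (X₂ := A * (N : ℝ) ^ t)
    (Real.one_le_rpow (by linarith) (by positivity)) (by
      rw [mul_assoc, ← Real.rpow_add hN0]
      apply le_of_eq
      congr 2
      ring)
  rwa [Real.log_rpow hN0] at h1

end RHOUM

theorem specRHOU (hS : SpecSML) (hL : SpecLRG) (hRAV : SpecRAV) (hD : SpecRHOD)
    (hRS : SpecRSUM) : SpecRHOU := by
  obtain ⟨C₀, hC₀, hR⟩ := hRS
  obtain ⟨C₂, hC₂, h2⟩ := RHOUM.nonsqf hRAV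
  refine ⟨2 + 6 * C₀ + 9 * C₀ ^ 2, by positivity, ?_⟩
  intro θ e0 e hθ he0 he01 he he1
  set t : ℝ := e * e0 with ht
  have ht0 : 0 < t := by positivity
  obtain ⟨C₁, hC₁, h1⟩ := RHOUM.far hS hL e0 t he0 ht0
  set σ₁ := min e0 (min (t / 2) (3 / 10)) with hσ₁
  have hσ₁0 : 0 < σ₁ := lt_min he0 (lt_min (by linarith) (by norm_num))
  have hσe : σ₁ ≤ e0 := min_le_left _ _
  set δ : ℝ := e / e0 with hδ
  have hδ0 : 0 < δ := by positivity
  refine ⟨σ₁ / 2, by linarith, ?_⟩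
  obtain ⟨N₁, hN₁⟩ := MTB.small (C₁ * 6 ^ 2 * 3 ^ 2) (σ₁ / 2) (δ ^ 2 / 2) 4 (by positivity)
    (by positivity)
  obtain ⟨N₂, hN₂⟩ := MTB.small (C₂ * 3) (e0 - σ₁ / 2) (δ / 2) 1 (by linarith) (by positivity)
  obtain ⟨N₃, hN₃⟩ := eventually_atTop.1 (((RHOMEAN.ev_rpow e0 he0 3).and
    (RHOMEAN.ev_log (max 2 (max (1 / e) (1 / t))))).and (eventually_ge_atTop 4))
  refine ⟨max N₁ (max N₂ N₃), ?_⟩
  intro N A hN hAdm X₁ X₂ hX1 hX12 hX2 hX4
  have g1 := hN₁ N (le_trans (le_max_left _ _) hN)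
  have g2 := hN₂ N (le_trans ((le_max_left _ _).trans (le_max_right _ _)) hN)
  obtain ⟨⟨hz3, hlg⟩, hN4⟩ := hN₃ N (le_trans ((le_max_right _ _).trans (le_max_right _ _)) hN)
  have hN4' : (4 : ℝ) ≤ N := by exact_mod_cast hN4
  have hN1 : (1 : ℝ) ≤ N := by linarith
  have hN0 : (0 : ℝ) < N := by linarith
  have hl2 : 2 ≤ Real.log N := (le_max_left _ _).trans hlg
  have hle : 1 ≤ e * Real.log N := by
    have h3 : 1 / e ≤ Real.log N := ((le_max_left _ _).trans (le_max_right _ _)).trans hlg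
    rw [div_le_iff₀ he] at h3
    linarith
  have hlt : 1 ≤ t * Real.log N := by
    have h3 : 1 / t ≤ Real.log N := ((le_max_right _ _).trans (le_max_right _ _)).trans hlg
    rw [div_le_iff₀ ht0] at h3
    linarith
  set z : ℝ := (N : ℝ) ^ e0 with hzdef
  have hz2 : 2 ≤ z := by linarith
  have hz0 : 0 < z := by linarith
  have hlz : Real.log z = e0 * Real.log N := Real.log_rpow hN0 e0
  have hlz0 : 0 < Real.log z := Real.log_pos (by linarith)
  have hA1 : (N : ℝ) ^ (3 / 5 : ℝ) ≤ A :=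
    (Real.rpow_le_rpow_of_exponent_le hN1 (by linarith)).trans hAdm.1
  have hA2 : (A : ℝ) ≤ (N : ℝ) ^ 2 := by
    refine hAdm.2.trans ?_
    have : Real.log N ≤ N := (Real.log_le_sub_one_of_pos hN0).trans (by linarith)
    nlinarith
  have hA3 : (1 : ℝ) ≤ A := (Real.one_le_rpow hN1 (by norm_num)).trans hA1
  have hA0 : (0 : ℝ) < A := by linarith
  have hAn : 0 < A := by exact_mod_cast hA0
  have hl4 : Real.log (4 * N) ≤ 2 * Real.log N := by
    rw [Real.log_mul (by norm_num) hN0.ne']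
    have : Real.log 4 ≤ Real.log N := Real.log_le_log (by norm_num) hN4'
    linarith
  have hl40 : 0 ≤ Real.log (4 * N) := Real.log_nonneg (by linarith)
  have hD3 : 1 + Real.log (4 * N) ≤ 3 * Real.log N := by linarith
  set J : ℕ := ⌈4 * Real.log N⌉₊ + 1 with hJ
  have hJ6 : (J : ℝ) ≤ 6 * Real.log N := by
    have h3 : ((⌈4 * Real.log N⌉₊ : ℕ) : ℝ) < 4 * Real.log N + 1 :=
      Nat.ceil_lt_add_one (by linarith)
    rw [hJ]
    push_cast
    linarith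
  have hJN : 4 * N ≤ 2 ^ J := by
    have h3 := MTB.pow_large N (by omega)
    rw [hJ, pow_succ]
    omega
  set K := RHOUM.KK z X₁ X₂ with hKdef
  have hKm : ∀ k ∈ K, 1 ≤ k ∧ k ≤ 4 * N ∧ Odd k ∧ Rough z k := by
    intro k hk
    obtain ⟨a1, a2, a3, a4, a5⟩ := RHOUM.mem_KK hk
    refine ⟨by omega, ?_, ?_, a4⟩
    · have : (k : ℝ) ≤ 4 * N := a2.trans hX4
      exact_mod_cast this
    · by_contra hno
      have h3 : 2 ∣ k := even_iff_two_dvd.mp (Nat.not_odd_iff_even.mp hno)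
      have h4 := a4 2 Nat.prime_two h3
      push_cast at h4
      linarith
  set K₁ := K.filter Squarefree with hK₁
  set K₂ := K.filter (fun k => ¬ Squarefree k) with hK₂
  have hX0 : 0 < X₁ := by linarith
  have hR1 : (1 : ℝ) ≤ (N : ℝ) ^ (2 * e) := Real.one_le_rpow hN1 (by positivity)
  have hlR : Real.log ((N : ℝ) ^ (2 * e)) = 2 * e * Real.log N := Real.log_rpow hN0 _
  have hratio : ∀ s : ℝ, 1 ≤ s * Real.log N →
      C₀ * (2 * s * Real.log N + 1) / Real.log z ≤ 3 * C₀ * (s / e0) := by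
    intro s hs
    rw [hlz, div_le_iff₀ (by positivity)]
    calc C₀ * (2 * s * Real.log N + 1) ≤ C₀ * (3 * (s * Real.log N)) :=
          mul_le_mul_of_nonneg_left (by linarith) hC₀.le
      _ = 3 * C₀ * (s / e0) * (e0 * Real.log N) := by
          field_simp
  have hwin : ∑ k ∈ K, 1 / (k : ℝ) ≤ 3 * C₀ * δ := by
    have h3 := RHOUM.win hC₀ hR hz2 hX0 hR1 hX2
    rw [hlR] at h3
    exact h3.trans (hratio e hle)
  have hnear : ∑ f ∈ Ioc 1 (2 ^ J), RHOUM.gN N A t K₁ f ≤ 3 * C₀ * e * (1 + 3 * C₀ * δ) := by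
    have h3 := RHOUM.near hC₀ hR hz2 hX0 hR1 hX2 (N := N) (A := A) (J := J) (t := t) (K := K₁)
      (by omega) hAn ht0 (filter_subset _ _)
    rw [hlR] at h3
    refine h3.trans ?_
    have h4 := hratio t hlt
    have h5 := hratio e hle
    have h6 : t / e0 = e := by
      rw [ht]
      field_simp
    rw [h6] at h4
    apply mul_le_mul h4 (by linarith) (by positivity) (by positivity)
  -- the two exceptional sets
  have hE1 := MOBUM.cheb A
    (fun a => ∑ f ∈ Ioc 1 (2 ^ J), RHOUM.gF N A t K₁ f * (jacobiSym (-a) f : ℝ)) δ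
    (A * (N : ℝ) ^ (-(σ₁ / 2)) / 2) hδ0 (by
      have h3 := h1 N A J z K₁ (by omega) hz2 hzdef hA1 hA2 (by
        intro k hk
        obtain ⟨a1, a2⟩ := mem_filter.1 hk
        obtain ⟨b1, b2, b3, b4⟩ := hKm k a1
        exact ⟨b1, b2, b3, a2, b4⟩)
      refine h3.trans ?_
      have h5 : (N : ℝ) ^ (-σ₁) = (N : ℝ) ^ (-(σ₁ / 2)) * (N : ℝ) ^ (-(σ₁ / 2)) := by
        rw [← Real.rpow_add hN0]
        congr 1
        ring
      calc C₁ * (J : ℝ) ^ 2 * (1 + Real.log (4 * N)) ^ 2 * A * (N : ℝ) ^ (-σ₁)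
          ≤ C₁ * (6 * Real.log N) ^ 2 * (3 * Real.log N) ^ 2 * A * (N : ℝ) ^ (-σ₁) := by
            gcongr
        _ = (C₁ * 6 ^ 2 * 3 ^ 2 * (Real.log N) ^ 4 * (N : ℝ) ^ (-(σ₁ / 2)))
              * (A * (N : ℝ) ^ (-(σ₁ / 2))) := by
            rw [h5]
            ring
        _ ≤ (δ ^ 2 / 2) * (A * (N : ℝ) ^ (-(σ₁ / 2))) :=
            mul_le_mul_of_nonneg_right g1 (by positivity)
        _ = _ := by ring)
  have hE2 := RHOUM.markov A (fun a => ∑ k ∈ K₂, (rho a k : ℝ) / k) δ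
    (A * (N : ℝ) ^ (-(σ₁ / 2)) / 2) hδ0 (fun a => sum_nonneg fun k _ => by positivity) (by
      have h3 := h2 N A z K₂ (by omega) hz2 hA1 (by
        intro k hk
        obtain ⟨a1, a2⟩ := mem_filter.1 hk
        obtain ⟨b1, b2, b3, b4⟩ := hKm k a1
        exact ⟨b1, b2, a2, b4⟩)
      refine h3.trans ?_
      have h5 : z⁻¹ = (N : ℝ) ^ (-(σ₁ / 2)) * (N : ℝ) ^ (-(e0 - σ₁ / 2)) := by
        rw [← Real.rpow_add hN0, hzdef, ← Real.rpow_neg hN0.le]
        congr 1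
        ring
      calc C₂ * A / z * (1 + Real.log (4 * N))
          ≤ C₂ * A / z * (3 * Real.log N) := mul_le_mul_of_nonneg_left hD3 (by positivity)
        _ = (C₂ * 3 * (Real.log N) ^ 1 * (N : ℝ) ^ (-(e0 - σ₁ / 2)))
              * (A * (N : ℝ) ^ (-(σ₁ / 2))) := by
            rw [div_eq_mul_inv, h5]
            ring
        _ ≤ (δ / 2) * (A * (N : ℝ) ^ (-(σ₁ / 2))) :=
            mul_le_mul_of_nonneg_right g2 (by positivity)
        _ = _ := by ring)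
  refine (RHOUM.exc_add A _ _ _ ?_).trans ((add_le_add hE1 hE2).trans (le_of_eq (by ring)))
  intro a hF hG
  have hsplit : ∑ k ∈ (Icc ⌈X₁⌉₊ ⌊X₂⌋₊).filter (fun k => 2 ≤ k ∧ Rough ((N : ℝ) ^ e0) k),
      (rho a k : ℝ) / k = ∑ k ∈ K₁, (rho a k : ℝ) / k + ∑ k ∈ K₂, (rho a k : ℝ) / k :=
    (sum_filter_add_sum_filter_not K Squarefree _).symm
  have hexp := RHOUM.expand hD K₁ J (fun k hk => (hKm k (mem_filter.1 hk).1).2.1.trans hJN)
    (fun k hk => ⟨(hKm k (mem_filter.1 hk).1).2.2.1, (mem_filter.1 hk).2⟩) a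
  have hsum : ∑ f ∈ Ioc 1 (2 ^ J), RHOUM.gd K₁ f * (jacobiSym (-a) f : ℝ)
      = ∑ f ∈ Ioc 1 (2 ^ J), RHOUM.gF N A t K₁ f * (jacobiSym (-a) f : ℝ)
        + ∑ f ∈ Ioc 1 (2 ^ J), RHOUM.gN N A t K₁ f * (jacobiSym (-a) f : ℝ) := by
    rw [← sum_add_distrib]
    refine sum_congr rfl fun f _ => ?_
    rw [RHOUM.gF_add N A t K₁ f]
    ring
  have hnear2 : ∑ f ∈ Ioc 1 (2 ^ J), RHOUM.gN N A t K₁ f * (jacobiSym (-a) f : ℝ)
      ≤ ∑ f ∈ Ioc 1 (2 ^ J), RHOUM.gN N A t K₁ f := by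
    refine sum_le_sum fun f _ => ?_
    have h3 : 0 ≤ RHOUM.gN N A t K₁ f := by
      unfold RHOUM.gN
      split_ifs
      · exact le_rfl
      · exact RHOUM.gd_nonneg _ _
    have h4 : (jacobiSym (-a) f : ℝ) ≤ 1 := by
      have := jacobiSym.trichotomy (-a) f
      rcases this with h | h | h <;> rw [h] <;> norm_num
    calc _ ≤ RHOUM.gN N A t K₁ f * 1 := mul_le_mul_of_nonneg_left h4 h3
      _ = _ := mul_one _
  have hK₁le : ∑ k ∈ K₁, 1 / (k : ℝ) ≤ ∑ k ∈ K, 1 / (k : ℝ) :=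
    sum_le_sum_of_subset_of_nonneg (filter_subset _ _) fun k _ _ => by positivity
  have hFa := (abs_le.1 hF).2
  have heδ : e ≤ δ := by
    rw [hδ, le_div_iff₀ he0]
    nlinarith
  have h7 : 3 * C₀ * e * (1 + 3 * C₀ * δ) ≤ 3 * C₀ * δ + 9 * C₀ ^ 2 * δ := by
    have h8 : 3 * C₀ * e ≤ 3 * C₀ * δ := mul_le_mul_of_nonneg_left heδ (by positivity)
    have h9 : 9 * C₀ ^ 2 * δ * e ≤ 9 * C₀ ^ 2 * δ * 1 :=
      mul_le_mul_of_nonneg_left he1 (by positivity)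
    nlinarith
  rw [hsplit, hexp, hsum]
  have h10 : (2 + 6 * C₀ + 9 * C₀ ^ 2) * e / e0 = (2 + 6 * C₀ + 9 * C₀ ^ 2) * δ := by
    rw [hδ]
    ring
  rw [h10]
  linarith

end Pool.Agent.Lib.MP391708.U
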