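import Pool.Agent.Lib.MP_391708_nt.U.SpecU
import Pool.Agent.Lib.MP_391708_nt.QPA.FLA
import Pool.Agent.Lib.MP_391708_nt.QPA.TAIL

/-!
# TAILU: upper bound for the primes `n² + a` in an initial segment, all but few `a`

Proof. `z = N^(1/100)`, the fundamental lemma with `b = 0` for the `n ≤ X`, `g p = ρ_a(p)/p`: the remainders are
`≤ ρ_a(δ) ≤ 2^ω(δ) ≤ τ(δ) ≤ δ ≤ z^16` (RHOC), so the number of the `n ≤ X` with `n² + a` rough is
`≤ C X W_a(z) + C (1 + log z) z^32`.  A prime value is rough or `< z`, and there are `≤ 2z + 1` values `n` with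
`|n² + a| < z`.  PRODU with `δ = 1`: `W_a(z) ≤ 2 G_w(a) W(z) ≤ 2 G_w(a) C' 100/log N`.  The errors are
`≤ N^(1/2) ≤ (c/log(w+1)) N^(9/10)/log N ≤ G_w(a) X/log N` (GMAXU).
-/

set_option autoImplicit false

namespace Pool.Agent.Lib.MP391708.U

open Finset Filter Topology Pool.Agent.Lib.MP391708.QPA
open scoped Classical

namespace TAILUM

/-- the number of the `n` with `|n²+a| < z` -/
theorem small_le (a : ℤ) (X : ℕ) (z : ℝ) (hz : 0 ≤ z) :
    (((Icc 1 X).filter (fun n => (val a n : ℝ) < z)).card : ℝ) ≤ 2 * z + 1 := by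
  have hmap : ((Icc 1 X).filter (fun n => (val a n : ℝ) < z)).card
      ≤ (Icc (-((⌊z⌋₊ : ℕ) : ℤ)) ((⌊z⌋₊ : ℕ) : ℤ)).card := by
    refine Finset.card_le_card_of_injOn (fun n : ℕ => (n : ℤ) ^ 2 + a) ?_ ?_
    · intro n hn
      rw [Finset.mem_coe, Finset.mem_filter] at hn
      have h1 : val a n ≤ ⌊z⌋₊ := Nat.le_floor hn.2.le
      have h2 : |(n : ℤ) ^ 2 + a| ≤ ((⌊z⌋₊ : ℕ) : ℤ) := by
        rw [Int.abs_eq_natAbs]
        exact_mod_cast h1
      rw [Finset.mem_coe, Finset.mem_Icc]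
      exact abs_le.1 h2
    · intro n _ m _ hnm
      simp only [add_left_inj] at hnm
      have h3 : n ^ 2 = m ^ 2 := by exact_mod_cast hnm
      exact Nat.pow_left_injective (by norm_num : (2 : ℕ) ≠ 0) h3
  have hcard : ((Icc (-((⌊z⌋₊ : ℕ) : ℤ)) ((⌊z⌋₊ : ℕ) : ℤ)).card : ℝ) = 2 * (⌊z⌋₊ : ℝ) + 1 := by
    rw [Int.card_Icc]
    have : ((⌊z⌋₊ : ℕ) : ℤ) + 1 - -((⌊z⌋₊ : ℕ) : ℤ) = ((2 * ⌊z⌋₊ + 1 : ℕ) : ℤ) := by
      push_cast
      ring
    rw [this, Int.toNat_natCast]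
    push_cast
    ring
  have h5 : (((Icc 1 X).filter (fun n => (val a n : ℝ) < z)).card : ℝ)
      ≤ ((Icc (-((⌊z⌋₊ : ℕ) : ℤ)) ((⌊z⌋₊ : ℕ) : ℤ)).card : ℝ) := by exact_mod_cast hmap
  rw [hcard] at h5
  have := Nat.floor_le hz
  linarith

/-- the fundamental lemma for the values `n² + a`, `1 ≤ n ≤ X` -/
theorem fl_seg (hFL : SpecFL) (h1 : SpecRHO1) (hM : SpecRHOM) (hP : SpecRHOP) (h2 : SpecRHO2)
    (hS : SpecRHOS) (hC : SpecRHOC) : ∃ C : ℝ, 0 < C ∧ ∀ z : ℝ, 2 ≤ z → ∀ (a : ℤ) (X : ℕ),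
    ∑ n ∈ Ioc 0 X, rInd z (val a n)
      ≤ C * X * Wa z a + C * (1 + Real.log z) * (z ^ 16 * z ^ 16) := by
  obtain ⟨C, hC0, hFL⟩ := hFL
  refine ⟨C + 1, by linarith, ?_⟩
  intro z hz2 a X
  have hz0 : 0 < z := by linarith
  have hg : ∀ p : ℕ, p.Prime → 0 ≤ (rho a p : ℝ) / p ∧ (rho a p : ℝ) / p ≤ 2 / (p : ℝ) ∧
      (rho a p : ℝ) / p ≤ 2 / 3 := by
    intro p hp
    have hp0 : (0 : ℝ) < p := by exact_mod_cast hp.pos
    by_cases hp2 : p = 2
    · subst hp2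
      rw [h2 a]
      norm_num
    · have hp3 : (3 : ℝ) ≤ p := by
        have := hp.two_le
        exact_mod_cast (by omega : 3 ≤ p)
      have hle : rho a p ≤ 2 := by
        have h3 := hP a p hp hp2
        have h4 : jacobiSym (-a) p ≤ 1 := by
          rcases jacobiSym.trichotomy (-a) p with h | h | h <;> rw [h] <;> norm_num
        omega
      have hle' : (rho a p : ℝ) ≤ 2 := by exact_mod_cast hle
      refine ⟨by positivity, ?_, ?_⟩
      · exact div_le_div_of_nonneg_right hle' hp0.le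
      · rw [div_le_div_iff₀ hp0 (by norm_num)]
        nlinarith
  have key := hFL 0 z hz2 (Ioc 0 X) (val a) (fun _ => 1) X (fun p => (rho a p : ℝ) / p)
    (Nat.cast_nonneg _) (fun _ _ => zero_le_one) hg
  have e1 : ∑ i ∈ Ioc 0 X, (1 : ℝ) * rInd z (val a i) = ∑ n ∈ Ioc 0 X, rInd z (val a n) := by
    refine Finset.sum_congr rfl fun n _ => ?_
    rw [one_mul]
  have e2 : ∏ p ∈ PB z, (1 - (rho a p : ℝ) / p) = Wa z a := rfl
  rw [e1, e2] at key
  have e3 : Real.exp (-((0 : ℕ) : ℝ)) = 1 := by simp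
  rw [e3, mul_one] at key
  have e4 : 8 * 0 + 16 = 16 := rfl
  rw [e4] at key
  have hlog : 0 ≤ Real.log z := Real.log_nonneg (by linarith)
  have hterm : ∀ δ ∈ (Icc 1 ⌊z ^ 16⌋₊).filter
      (fun δ => Squarefree δ ∧ ∀ p : ℕ, p.Prime → p ∣ δ → (p : ℝ) < z),
      |(∑ i ∈ (Ioc 0 X).filter (fun i => δ ∣ val a i), (1 : ℝ))
        - X * ∏ p ∈ δ.primeFactors, ((rho a p : ℝ) / p)| ≤ z ^ 16 := by
    intro δ hδ
    rw [Finset.mem_filter, Finset.mem_Icc] at hδ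
    obtain ⟨⟨hδ1, hδ2⟩, hδs, _⟩ := hδ
    have hδ0 : δ ≠ 0 := by omega
    rw [FLA.prod_rho h1 hM a δ hδs]
    have h3 := hC a δ 0 X hδ1
    rw [zero_add] at h3
    rw [Finset.sum_const, nsmul_eq_mul, mul_one]
    have h6 : (rho a δ : ℝ) * X / (δ : ℝ) = X * ((rho a δ : ℝ) / δ) := by ring
    rw [h6] at h3
    refine h3.trans ?_
    have h7 : (rho a δ : ℝ) ≤ (2 : ℝ) ^ δ.primeFactors.card := by exact_mod_cast hS a δ hδs
    have h8 : ((2 : ℝ) ^ δ.primeFactors.card) ≤ δ.divisors.card := by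
      exact_mod_cast FLA.two_pow_le δ hδ0
    have h9 : (δ.divisors.card : ℝ) ≤ δ := by exact_mod_cast Nat.card_divisors_le_self δ
    have h10 : (δ : ℝ) ≤ z ^ 16 :=
      le_trans (by exact_mod_cast hδ2) (Nat.floor_le (by positivity))
    linarith
  have hsum := Finset.sum_le_sum hterm
  rw [Finset.sum_const, nsmul_eq_mul] at hsum
  have hcard : ((((Icc 1 ⌊z ^ 16⌋₊).filter
      (fun δ => Squarefree δ ∧ ∀ p : ℕ, p.Prime → p ∣ δ → (p : ℝ) < z)).card : ℕ) : ℝ)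
      ≤ z ^ 16 := by
    refine le_trans (Nat.cast_le.2 (Finset.card_filter_le _ _)) ?_
    rw [Nat.card_Icc, Nat.add_sub_cancel]
    exact Nat.floor_le (by positivity)
  have hsum2 := hsum.trans (mul_le_mul_of_nonneg_right hcard (by positivity))
  have h11 := mul_le_mul_of_nonneg_left hsum2 (show 0 ≤ C * (1 + Real.log z) by positivity)
  have h12 := (abs_le.1 key).2
  have hW : 0 ≤ Wa z a := by
    unfold Wa
    refine Finset.prod_nonneg fun p hp => ?_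
    rw [PB, Finset.mem_filter] at hp
    have := (hg p hp.2).2.2
    linarith
  have hXW : 0 ≤ (X : ℝ) * Wa z a := by positivity
  have h13 : 0 ≤ (1 + Real.log z) * (z ^ 16 * z ^ 16) := by positivity
  nlinarith

/-- a prime value is rough or small -/
theorem count_le (a : ℤ) (X : ℕ) (z : ℝ) (hz : 0 ≤ z) :
    (((Icc 1 X).filter (fun n => (val a n).Prime)).card : ℝ)
      ≤ ∑ n ∈ Ioc 0 X, rInd z (val a n) + (2 * z + 1) := by
  have h1 := small_le a X z hz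
  have hI : Icc 1 X = Ioc 0 X := by
    ext n
    simp only [Finset.mem_Icc, Finset.mem_Ioc]
    omega
  have h2 : (((Icc 1 X).filter (fun n => (val a n).Prime)).card : ℝ)
      ≤ ∑ n ∈ Icc 1 X, rInd z (val a n)
        + (((Icc 1 X).filter (fun n => (val a n : ℝ) < z)).card : ℝ) := by
    have h3 : (((Icc 1 X).filter (fun n => (val a n).Prime)).card : ℝ)
        = ∑ n ∈ Icc 1 X, primeInd (val a n) := by
      unfold primeInd
      rw [← Finset.sum_filter, Finset.sum_const, nsmul_eq_mul, mul_one]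
    have h4 : (((Icc 1 X).filter (fun n => (val a n : ℝ) < z)).card : ℝ)
        = ∑ n ∈ Icc 1 X, (if (val a n : ℝ) < z then (1 : ℝ) else 0) := by
      rw [← Finset.sum_filter, Finset.sum_const, nsmul_eq_mul, mul_one]
    rw [h3, h4, ← Finset.sum_add_distrib]
    exact Finset.sum_le_sum fun n _ => TAIL.prime_le z (val a n)
  rw [hI] at h1 h2 ⊢
  linarith

/-- the logarithms are small -/
theorem logs (c W : ℝ) (hc : 0 < c) : ∀ᶠ N : ℕ in atTop,
    Real.log N * ((Real.log N) ^ W + 2) * (N : ℝ) ^ (1 / 2 : ℝ) ≤ c * (N : ℝ) ^ (9 / 10 : ℝ) := by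
  have h1 : (fun x : ℝ => (Real.log x) ^ (W + 1)) =o[atTop] fun x => x ^ (1 / 10 : ℝ) :=
    isLittleO_log_rpow_rpow_atTop (W + 1) (by norm_num)
  have h2 : (fun x : ℝ => Real.log x) =o[atTop] fun x => x ^ (1 / 10 : ℝ) :=
    isLittleO_log_rpow_atTop (by norm_num)
  have h3 := (h1.comp_tendsto tendsto_natCast_atTop_atTop).def (show (0 : ℝ) < c / 4 by positivity)
  have h4 := (h2.comp_tendsto tendsto_natCast_atTop_atTop).def (show (0 : ℝ) < c / 4 by positivity)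
  filter_upwards [h3, h4, eventually_ge_atTop 3] with N h3 h4 hN
  have hN1 : (1 : ℝ) < N := by exact_mod_cast (by omega : 1 < N)
  have hN0 : (0 : ℝ) < N := by linarith
  have hlog : 0 < Real.log N := Real.log_pos hN1
  simp only [Function.comp] at h3 h4
  rw [Real.norm_of_nonneg (by positivity), Real.norm_of_nonneg (by positivity)] at h3
  rw [Real.norm_of_nonneg hlog.le, Real.norm_of_nonneg (by positivity)] at h4
  have h5 : Real.log N * ((Real.log N) ^ W + 2) = (Real.log N) ^ (W + 1) + 2 * Real.log N := by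
    rw [Real.rpow_add hlog, Real.rpow_one]
    ring
  rw [h5]
  have h6 : (N : ℝ) ^ (1 / 10 : ℝ) * (N : ℝ) ^ (1 / 2 : ℝ) ≤ (N : ℝ) ^ (9 / 10 : ℝ) := by
    rw [← Real.rpow_add hN0]
    exact Real.rpow_le_rpow_of_exponent_le hN1.le (by norm_num)
  calc ((Real.log N) ^ (W + 1) + 2 * Real.log N) * (N : ℝ) ^ (1 / 2 : ℝ)
      ≤ (c * (N : ℝ) ^ (1 / 10 : ℝ)) * (N : ℝ) ^ (1 / 2 : ℝ) := by
        apply mul_le_mul_of_nonneg_right _ (by positivity)
        linarith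
    _ = c * ((N : ℝ) ^ (1 / 10 : ℝ) * (N : ℝ) ^ (1 / 2 : ℝ)) := by ring
    _ ≤ c * (N : ℝ) ^ (9 / 10 : ℝ) := mul_le_mul_of_nonneg_left h6 hc.le

/-- `log(w+1) ≤ (log N)^W + 2` -/
theorem log_wN (W : ℝ) (N : ℕ) (hN : 3 ≤ N) :
    Real.log ((wN W N : ℝ) + 1) ≤ (Real.log N) ^ W + 2 := by
  have hN1 : (1 : ℝ) < N := by exact_mod_cast (by omega : 1 < N)
  have hlog : 0 < Real.log N := Real.log_pos hN1
  have h1 : (wN W N : ℝ) < (Real.log N) ^ W + 1 := by
    unfold wN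
    exact Nat.ceil_lt_add_one (by positivity)
  have h2 : Real.log ((wN W N : ℝ) + 1) ≤ (wN W N : ℝ) + 1 - 1 :=
    Real.log_le_sub_one_of_pos (by positivity)
  linarith

/-- `w ≥ 2` for large `N` -/
theorem two_le_wN (W : ℝ) (hW : 0 < W) : ∀ᶠ N : ℕ in atTop, 2 ≤ wN W N := by
  have h1 : Tendsto (fun N : ℕ => (Real.log (N : ℝ)) ^ W) atTop atTop :=
    (tendsto_rpow_atTop hW).comp (Real.tendsto_log_atTop.comp tendsto_natCast_atTop_atTop)
  filter_upwards [h1.eventually_ge_atTop 2] with N hN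
  unfold wN
  have h2 : (2 : ℝ) ≤ (⌈(Real.log (N : ℝ)) ^ W⌉₊ : ℝ) := hN.trans (Nat.le_ceil _)
  exact_mod_cast h2

end TAILUM

open TAILUM in
theorem specTAILU (hFL : SpecFL) (h1 : SpecRHO1) (hM : SpecRHOM) (hP : SpecRHOP) (h2 : SpecRHO2)
    (hS : SpecRHOS) (hC : SpecRHOC) (hW : SpecWMER) (hPROD : SpecPRODU) (hG : SpecGMAXU) :
    SpecTAILU := by
  obtain ⟨C, hC0, hseg⟩ := fl_seg hFL h1 hM hP h2 hS hC
  obtain ⟨C₂, hC₂, hWM⟩ := hW
  obtain ⟨c, C₃, hc, hC₃, hG⟩ := hG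
  refine ⟨200 * C * C₂ + 1, by positivity, ?_⟩
  intro B hB
  obtain ⟨W₀, hW₀, hPR⟩ := hPROD 1 B one_pos hB
  refine ⟨W₀, hW₀, fun W hWW => ?_⟩
  have hWpos : 0 < W := hW₀.trans_le hWW
  obtain ⟨N₁, hPR⟩ := hPR W hWW (1 / 100) (by norm_num) (by norm_num)
  obtain ⟨N₂, hN₂, hlog2⟩ := FLA.log_le C (32 / 100) (4 / 10) (by norm_num)
  have hz2 : ∀ᶠ N : ℕ in atTop, (2 : ℝ) ≤ (N : ℝ) ^ (1 / 100 : ℝ) :=
    ((tendsto_rpow_atTop (by norm_num : (0 : ℝ) < 1 / 100)).comp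
      tendsto_natCast_atTop_atTop).eventually_ge_atTop (2 : ℝ)
  obtain ⟨N₀, hN₀⟩ := eventually_atTop.1 ((logs c W hc).and ((two_le_wN W hWpos).and
    (hz2.and ((eventually_ge_atTop N₁).and ((eventually_ge_atTop N₂).and
      (eventually_ge_atTop 3))))))
  refine ⟨N₀, fun N A X hN hA hX1 hX2 => ?_⟩
  obtain ⟨hl, hw2, hz, hN1, hN2, hN3⟩ := hN₀ N hN
  have hNone : (1 : ℝ) < N := by exact_mod_cast (by omega : 1 < N)
  have hNpos : (0 : ℝ) < N := by linarith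
  have hlog : 0 < Real.log N := Real.log_pos hNone
  set z : ℝ := (N : ℝ) ^ (1 / 100 : ℝ) with hzdef
  have hz0 : 0 < z := by positivity
  refine le_trans ?_ (hPR N A hN1 hA)
  unfold exc
  apply Nat.cast_le.2
  apply Finset.card_le_card
  intro a ha
  rw [Finset.mem_filter] at ha ⊢
  refine ⟨ha.1, fun hgood => ha.2 ?_⟩
  beta_reduce at hgood ⊢
  rw [one_mul] at hgood
  -- the good case
  set G := Gw (wN W N) a with hGdef
  have hGa := hG (wN W N) hw2 a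
  have hlw : 0 < Real.log ((wN W N : ℝ) + 1) := by
    apply Real.log_pos
    have : (2 : ℝ) ≤ (wN W N : ℝ) := by exact_mod_cast hw2
    linarith
  have hG0 : 0 < G := lt_of_lt_of_le (by positivity) hGa.1
  have hWp0 : 0 ≤ Wp z := by
    unfold Wp
    refine Finset.prod_nonneg fun p hp => ?_
    rw [PB, Finset.mem_filter] at hp
    have hp1 : (1 : ℝ) ≤ p := by exact_mod_cast hp.2.one_lt.le
    have : 1 / (p : ℝ) ≤ 1 := by
      rw [div_le_one (by linarith)]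
      exact hp1
    linarith
  have hWa : Wa z a ≤ 2 * (G * Wp z) := by
    have := (abs_le.1 hgood).2
    linarith
  have hWM' := hWM z hz
  have hlz : Real.log z = Real.log N / 100 := by
    rw [hzdef, Real.log_rpow hNpos]
    ring
  have hcnt := count_le a X z hz0.le
  have hsg := hseg z hz a X
  have hX0 : (0 : ℝ) ≤ X := Nat.cast_nonneg _
  -- main term
  have hmain : C * X * Wa z a ≤ 200 * C * C₂ * G * X / Real.log N := by
    have h5 : Wp z ≤ 100 * C₂ / Real.log N := by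
      refine hWM'.trans (le_of_eq ?_)
      rw [hlz]
      field_simp
    calc C * X * Wa z a ≤ C * X * (2 * (G * Wp z)) :=
          mul_le_mul_of_nonneg_left hWa (by positivity)
      _ ≤ C * X * (2 * (G * (100 * C₂ / Real.log N))) := by
          apply mul_le_mul_of_nonneg_left _ (by positivity)
          apply mul_le_mul_of_nonneg_left _ (by norm_num)
          exact mul_le_mul_of_nonneg_left h5 hG0.le
      _ = 200 * C * C₂ * G * X / Real.log N := by ring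
  -- error terms
  have hz32 : z ^ 16 * z ^ 16 = (N : ℝ) ^ (32 / 100 : ℝ) := by
    rw [← pow_add, hzdef, ← Real.rpow_natCast, ← Real.rpow_mul hNpos.le]
    norm_num
  have herr1 : C * (1 + Real.log z) * (z ^ 16 * z ^ 16) ≤ (N : ℝ) ^ (4 / 10 : ℝ) := by
    rw [hz32]
    refine le_trans ?_ (hlog2 N hN2)
    apply mul_le_mul_of_nonneg_right _ (by positivity)
    apply mul_le_mul_of_nonneg_left _ hC0.le
    rw [hlz]
    linarith
  have herr2 : 2 * z + 1 ≤ 3 * z := by linarith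
  have herr3 : (N : ℝ) ^ (4 / 10 : ℝ) + 3 * z ≤ (N : ℝ) ^ (1 / 2 : ℝ) := by
    have h6 : (N : ℝ) ^ (1 / 2 : ℝ) = (N : ℝ) ^ (4 / 10 : ℝ) * z ^ 10 := by
      rw [hzdef, ← Real.rpow_natCast, ← Real.rpow_mul hNpos.le, ← Real.rpow_add hNpos]
      norm_num
    have h7 : (4 : ℝ) ≤ z ^ 10 := by
      calc (4 : ℝ) ≤ 2 ^ 10 := by norm_num
        _ ≤ z ^ 10 := pow_le_pow_left₀ (by norm_num) hz 10
    have h8 : z ≤ (N : ℝ) ^ (4 / 10 : ℝ) := by
      rw [hzdef]
      exact Real.rpow_le_rpow_of_exponent_le hNone.le (by norm_num)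
    rw [h6]
    have h9 : 0 < (N : ℝ) ^ (4 / 10 : ℝ) := by positivity
    nlinarith
  have herr4 : (N : ℝ) ^ (1 / 2 : ℝ) ≤ G * X / Real.log N := by
    have h10 := log_wN W N hN3
    have h11 : Real.log N * Real.log ((wN W N : ℝ) + 1) * (N : ℝ) ^ (1 / 2 : ℝ)
        ≤ c * (N : ℝ) ^ (9 / 10 : ℝ) := by
      refine le_trans ?_ hl
      apply mul_le_mul_of_nonneg_right _ (by positivity)
      exact mul_le_mul_of_nonneg_left h10 hlog.le
    rw [le_div_iff₀ hlog]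
    have h12 : c / Real.log ((wN W N : ℝ) + 1) * (N : ℝ) ^ (9 / 10 : ℝ) ≤ G * X :=
      mul_le_mul hGa.1 hX1 (by positivity) hG0.le
    refine le_trans ?_ h12
    rw [div_mul_eq_mul_div, le_div_iff₀ hlw]
    calc (N : ℝ) ^ (1 / 2 : ℝ) * Real.log N * Real.log ((wN W N : ℝ) + 1)
        = Real.log N * Real.log ((wN W N : ℝ) + 1) * (N : ℝ) ^ (1 / 2 : ℝ) := by ring
      _ ≤ c * (N : ℝ) ^ (9 / 10 : ℝ) := h11
  have hfin : (200 * C * C₂ + 1) * G * X / Real.log N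
      = 200 * C * C₂ * G * X / Real.log N + G * X / Real.log N := by ring
  rw [hfin]
  linarith

end Pool.Agent.Lib.MP391708.U
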