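import Pool.Agent.Lib.MP_391708_nt.U.Bas
import Pool.Agent.Lib.MP_391708_nt.QPA.TII

/-!
# Project U, module TIIU: Type II sums of types, log power errors

The blocks of `QPA/TII.lean` with `η = (log N)^(-E)`, `E = B + 3`.  The number of the interior blocks is at most a power of
`log N` (`TII.card_SI`), the others are estimated trivially.
-/

set_option autoImplicit false

namespace Pool.Agent.Lib.MP391708.U

open Finset Filter Topology Pool.Agent.Lib.MP391708.QPA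
open scoped Classical

namespace TIIU

open TII BasM Bas SHM BLK2

/-- the conclusion of BLK2U for one type pair -/
def BlkHU (θ e e0 : ℝ) (Q : ℕ) (c₁ c₂ : Multiset ℕ) : Prop := ∀ E B : ℝ, 0 < E → 0 < B →
  ∃ W₀ : ℝ, 0 < W₀ ∧ ∀ W : ℝ, W₀ ≤ W → ∃ N₀ : ℕ, ∀ N A : ℕ, N₀ ≤ N → Adm θ N A →
  NearA N A (e0 / Q) e c₁ → ∀ K L η : ℝ, (Real.log N) ^ (-E) ≤ η → η ≤ 1 / 4 →
  (N : ℝ) ^ (2 / 3 : ℝ) ≤ K → K ≤ (N : ℝ) ^ (1 - e) → (N : ℝ) ^ 2 / 2 ≤ K * L → K * L ≤ 5 * (N : ℝ) ^ 2 →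
  ∑ a ∈ IA A, |bil (8 * N) a (cut K ((1 + η) * K) (fun m => FF N (e0 / Q) c₁ m))
        (cut L ((1 + η) * L) (fun m => FF N (e0 / Q) c₂ m))
      - Gw (wN W N) a * ∑ k ∈ Ioc ⌊K⌋₊ ⌊(1 + η) * K⌋₊, ∑ l ∈ Ioc ⌊L⌋₊ ⌊(1 + η) * L⌋₊,
          FF N (e0 / Q) c₁ k * FF N (e0 / Q) c₂ l / (2 * √((k : ℝ) * l))|
    ≤ A * N / (Real.log N) ^ B

/-- `(1+η)^D ≥ 4` for `D ≥ 8/η` -/
lemma pow_ge_four {η : ℝ} (hη : 0 < η) (hη4 : η ≤ 1 / 4) : (4 : ℝ) ≤ (1 + η) ^ ⌈8 / η⌉₊ := by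
  have h1 : (8 : ℝ) / η ≤ ⌈8 / η⌉₊ := Nat.le_ceil _
  have h2 := one_add_mul_le_pow (show (-2 : ℝ) ≤ η by linarith) ⌈8 / η⌉₊
  have h3 : 8 ≤ (⌈8 / η⌉₊ : ℝ) * η := by
    rw [div_le_iff₀ hη] at h1
    exact h1
  linarith

/-- the number of the blocks -/
lemma card_bound {η l : ℝ} (hη : 0 < η) (hη4 : η ≤ 1 / 4) (hl : 0 ≤ l) :
    ((⌈8 / η⌉₊ : ℝ) + 1) * (1 / Real.log (1 + η) + 1) * l ≤ 40 * l / η ^ 2 := by
  have h1 : (⌈8 / η⌉₊ : ℝ) < 8 / η + 1 := Nat.ceil_lt_add_one (by positivity)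
  have h2 : η / 2 ≤ Real.log (1 + η) := by
    have h3 := Real.one_sub_inv_le_log_of_pos (show 0 < 1 + η by linarith)
    have h4 : η / 2 ≤ 1 - (1 + η)⁻¹ := by
      rw [show (1 : ℝ) - (1 + η)⁻¹ = η / (1 + η) by field_simp; ring]
      rw [div_le_div_iff₀ (by norm_num) (by linarith)]
      nlinarith
    linarith
  have h5 : 1 / Real.log (1 + η) ≤ 2 / η := by
    rw [div_le_div_iff₀ (by linarith) hη]
    linarith
  have h6 : (⌈8 / η⌉₊ : ℝ) + 1 ≤ 10 / η - 2 / η + 2 := by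
    have : 10 / η - 2 / η = 8 / η := by ring
    linarith
  have h7 : (2 : ℝ) ≤ 1 / 2 / η := by
    rw [le_div_iff₀ hη]; linarith
  have h8 : (⌈8 / η⌉₊ : ℝ) + 1 ≤ 9 / η := by
    have h9 : 10 / η - 2 / η + 1 / 2 / η = 8.5 / η := by ring
    have h10 : (8.5 : ℝ) / η ≤ 9 / η := by gcongr; norm_num
    linarith
  have h11 : 1 / Real.log (1 + η) + 1 ≤ 3 / η := by
    have h12 : (1 : ℝ) ≤ 1 / η := by rw [le_div_iff₀ hη]; linarith
    have h13 : 2 / η + 1 / η = 3 / η := by ring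
    linarith
  have h14 : 0 ≤ 1 / Real.log (1 + η) + 1 := by
    have : 0 < Real.log (1 + η) := by linarith
    positivity
  calc ((⌈8 / η⌉₊ : ℝ) + 1) * (1 / Real.log (1 + η) + 1) * l
      ≤ (9 / η) * (3 / η) * l := by gcongr
    _ = 27 * (l / η ^ 2) := by field_simp; ring
    _ ≤ 40 * (l / η ^ 2) := by
        have : 0 ≤ l / η ^ 2 := by positivity
        linarith
    _ = 40 * l / η ^ 2 := by ring

/-- cardinality of an interval of naturals given by reals -/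
lemma card_Ioc_floor {x y : ℝ} (hx : 0 ≤ x) (hxy : x ≤ y) :
    ((Ioc ⌊x⌋₊ ⌊y⌋₊).card : ℝ) ≤ y - x + 1 := by
  rw [Nat.card_Ioc]
  have h1 : (⌊y⌋₊ : ℝ) ≤ y := Nat.floor_le (by linarith)
  have h2 : x < ⌊x⌋₊ + 1 := Nat.lt_floor_add_one x
  have h3 : ⌊x⌋₊ ≤ ⌊y⌋₊ := Nat.floor_le_floor hxy
  rw [Nat.cast_sub h3]
  linarith

/-- the case `c₂ = 0`: all terms vanish -/
theorem zero_case {θ e e0 : ℝ} {Q : ℕ} {c₁ : Multiset ℕ} (he : 0 < e) (he0 : 0 < e0)
    (hQ : 1 ≤ Q) (hmid : Mid (e0 / Q) e c₁) (hFFB : SpecFFB) (B W : ℝ) :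
    ∃ N₀ : ℕ, ∀ N A : ℕ, N₀ ≤ N → Adm θ N A → NearA N A (e0 / Q) e c₁ →
    ∑ a ∈ IA A, |cnt N a (fun m => FF N (e0 / Q) (c₁ + 0) m)
        - Gw (wN W N) a * model N (fun m => FF N (e0 / Q) (c₁ + 0) m)|
      ≤ A * N / (Real.log N) ^ B := by
  have hQ0 : (0 : ℝ) < Q := by exact_mod_cast hQ
  have hev : ∀ᶠ N : ℕ in atTop, ∀ A : ℕ, Adm θ N A → NearA N A (e0 / Q) e c₁ →
      ∑ a ∈ IA A, |cnt N a (fun m => FF N (e0 / Q) (c₁ + 0) m)
        - Gw (wN W N) a * model N (fun m => FF N (e0 / Q) (c₁ + 0) m)|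
        ≤ A * N / (Real.log N) ^ B := by
    filter_upwards [eventually_ge_atTop 3, ev_log 1, ev_logpow (show (0 : ℝ) < 1 by norm_num) 4]
      with N hN3 hl1 hlp A hA _
    have hN1 : (1 : ℝ) < N := by exact_mod_cast (by omega : 1 < N)
    have hN0 : (0 : ℝ) < N := lt_trans one_pos hN1
    have hN3' : (3 : ℝ) ≤ N := by exact_mod_cast hN3
    have hl0 : 0 < Real.log N := by linarith
    rw [Real.rpow_one] at hlp
    have hA0 : (0 : ℝ) ≤ A := Nat.cast_nonneg A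
    have h4A : 4 * (A : ℝ) ≤ (N : ℝ) ^ 2 := by nlinarith [hA.2]
    have hz : ∀ m : ℕ, (N : ℝ) < m → FF N (e0 / Q) (c₁ + 0) m = 0 := by
      intro m hm
      rw [add_zero]
      by_contra hne
      obtain ⟨_, _, h2, _⟩ := (hFFB N (e0 / Q) c₁ m (by omega) (by positivity)).2.2 hne
      have h3 : (m : ℝ) ≤ (N : ℝ) ^ (1 : ℝ) :=
        h2.trans (Real.rpow_le_rpow_of_exponent_le hN1.le (hmid.2.trans (by linarith)))
      rw [Real.rpow_one] at h3
      linarith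
    have h1 : ∀ a ∈ IA A, |cnt N a (fun m => FF N (e0 / Q) (c₁ + 0) m)
        - Gw (wN W N) a * model N (fun m => FF N (e0 / Q) (c₁ + 0) m)| = 0 := by
      intro a ha
      have hc : cnt N a (fun m => FF N (e0 / Q) (c₁ + 0) m) = 0 := by
        unfold cnt
        refine sum_eq_zero fun n hn => hz _ ?_
        have h2 := (val_bounds ha n).1
        have h3 : (N : ℝ) < n := by exact_mod_cast (mem_Ioc.1 hn).1
        nlinarith
      have hm : model N (fun m => FF N (e0 / Q) (c₁ + 0) m) = 0 := by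
        unfold model
        refine sum_eq_zero fun m hm => ?_
        have h3 : ((N ^ 2 : ℕ) : ℝ) < m := by exact_mod_cast (mem_Ioc.1 hm).1
        push_cast at h3
        have h4 : (N : ℝ) < m := by nlinarith
        beta_reduce
        rw [hz m h4, zero_div]
      rw [hc, hm, mul_zero, sub_zero, abs_zero]
    rw [sum_eq_zero h1]
    have := Real.rpow_pos_of_pos hl0 B
    positivity
  obtain ⟨N₀, hN₀⟩ := eventually_atTop.1 hev
  exact ⟨N₀, fun N A hN hA hnear => hN₀ N hN A hA hnear⟩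

theorem core {θ e e0 B : ℝ} {Q : ℕ} {c₁ c₂ : Multiset ℕ} (hθ : 5 / 6 < θ)
    (he : 0 < e) (he0 : 0 < e0) (hBp : 0 < B)
    (hQ : 1 ≤ Q) (hc₁ : ∀ i ∈ c₁, Q ≤ i) (hc₂ : ∀ i ∈ c₂, Q ≤ i) (hc0 : c₂ ≠ 0)
    (hmid : Mid (e0 / Q) e c₁)
    (hB : BlkHU θ e e0 Q c₁ c₂) (hFFB : SpecFFB) (hGMAX : SpecGMAXU) :
    ∃ W₀ : ℝ, 0 < W₀ ∧ ∀ W : ℝ, W₀ ≤ W → ∃ N₀ : ℕ, ∀ N A : ℕ, N₀ ≤ N → Adm θ N A →
    NearA N A (e0 / Q) e c₁ →
    ∑ a ∈ IA A, |cnt N a (fun m => FF N (e0 / Q) (c₁ + c₂) m)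
        - Gw (wN W N) a * model N (fun m => FF N (e0 / Q) (c₁ + c₂) m)|
      ≤ A * N / (Real.log N) ^ B := by
  have hQ0 : (0 : ℝ) < Q := by exact_mod_cast hQ
  set F : ℝ := ((Multiset.card (c₁ + c₂)).factorial : ℝ) with hF
  have hF0 : 0 < F := by positivity
  set E : ℝ := B + 3 with hE
  have hE0 : 0 < E := by rw [hE]; linarith
  obtain ⟨W₀, hW₀, hw₀⟩ := hB E (B + 2 * E + 3) hE0 (by linarith)
  obtain ⟨cG, CG, hcG, hCG, hG⟩ := hGMAX
  refine ⟨W₀, hW₀, fun W hW => ?_⟩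
  have hWp : 0 < W := lt_of_lt_of_le hW₀ hW
  obtain ⟨N₁, hN₁⟩ := hw₀ W hW
  have hev : ∀ᶠ N : ℕ in atTop, ∀ A : ℕ, Adm θ N A → NearA N A (e0 / Q) e c₁ →
      ∑ a ∈ IA A, |cnt N a (fun m => FF N (e0 / Q) (c₁ + c₂) m)
        - Gw (wN W N) a * model N (fun m => FF N (e0 / Q) (c₁ + c₂) m)|
        ≤ A * N / (Real.log N) ^ B := by
    filter_upwards [eventually_ge_atTop 3, eventually_ge_atTop N₁, ev_log 1,
      ev_const (show (0 : ℝ) < θ by linarith) 1, ev_const he0 2,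
      ev_lN (E + 1) (show (0 : ℝ) < 1 by norm_num) 8,
      ev_lconst hE0 4, ev_wN hWp 2, ev_logw hWp (show (0 : ℝ) < 1 by norm_num) CG,
      ev_lconst (show (0 : ℝ) < 1 by norm_num) (120 + 100 * F)] with N hN3 hNN₁ hl1 hNA hz2 hlp hlE hw2 hwG hlF
      A hA hnear
    have hN1 : (1 : ℝ) < N := by exact_mod_cast (by omega : 1 < N)
    have hN0 : (0 : ℝ) < N := by linarith
    have hlog : 0 < Real.log N := lt_of_lt_of_le one_pos hl1
    set l := Real.log N with hl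
    rw [Real.rpow_one] at hlp hwG hlF
    set η : ℝ := l ^ (-E) with hη'
    have hη : 0 < η := Real.rpow_pos_of_pos hlog _
    have hηE : η * l ^ E = 1 := by
      rw [hη', ← Real.rpow_add hlog]; simp
    have hlE0 : 0 < l ^ E := Real.rpow_pos_of_pos hlog _
    have hη4 : η ≤ 1 / 4 := by
      rw [le_div_iff₀ (by norm_num)]
      nlinarith
    have hq : 1 < 1 + η := by linarith
    have hq0 : 0 < 1 + η := by linarith
    have hD := pow_ge_four hη hη4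
    set D := ⌈8 / η⌉₊ with hDd
    -- `8 log N ≤ η N`
    have hηN8 : 8 * l ≤ η * N := by
      have h1 : l ^ (E + 1) = l ^ E * l := by rw [Real.rpow_add hlog, Real.rpow_one]
      rw [h1] at hlp
      have h2 : η * (8 * (l ^ E * l)) ≤ η * N := mul_le_mul_of_nonneg_left hlp hη.le
      calc 8 * l = (η * l ^ E) * (8 * l) := by rw [hηE]; ring
        _ = η * (8 * (l ^ E * l)) := by ring
        _ ≤ η * N := h2
    have hηN : 2 ≤ η * N := by linarith
    have hA0 : (0 : ℝ) ≤ A := Nat.cast_nonneg A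
    have hA1 : (1 : ℝ) ≤ A := hNA.trans hA.1
    have h8A : 8 * (A : ℝ) ≤ η * (N : ℝ) ^ 2 := by nlinarith [hA.2]
    have hG0 : ∀ a, 0 ≤ Gw (wN W N) a := fun a => by
      have h1 : 0 < Real.log ((wN W N : ℝ) + 1) := Real.log_pos (by
        have : (2 : ℝ) ≤ wN W N := by exact_mod_cast hw2
        linarith)
      exact (div_nonneg hcG.le h1.le).trans (hG _ hw2 a).1
    have hGl : ∀ a, Gw (wN W N) a ≤ l := fun a => (hG _ hw2 a).2.trans hwG
    -- the functions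
    set g : ℕ → ℝ := fun m => FF N (e0 / Q) c₁ m with hg
    set f : ℕ → ℝ := fun m => FF N (e0 / Q) c₂ m with hf
    set h : ℕ → ℝ := fun m => FF N (e0 / Q) (c₁ + c₂) m with hh
    have hhc : ∀ m, h m = conv g f m := fun m => FF_conv N (e0 / Q) c₁ c₂ m
    have hFg := fun m => hFFB N (e0 / Q) c₁ m (by omega) (by positivity)
    have hFf := fun m => hFFB N (e0 / Q) c₂ m (by omega) (by positivity)
    have hg0 : ∀ m, 0 ≤ g m := fun m => (hFg m).1
    have hf0 : ∀ m, 0 ≤ f m := fun m => (hFf m).1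
    have hh0 : ∀ m, 0 ≤ h m := fun m => by
      rw [hhc]; exact conv_nonneg hg0 hf0 m
    have hhr : ∀ m, h m ≤ F := fun m =>
      (hFFB N (e0 / Q) (c₁ + c₂) m (by omega) (by positivity)).2.1
    have hgs : ∀ k, g k ≠ 0 → (N : ℝ) ^ (2 / 3 : ℝ) < k ∧ (k : ℝ) ≤ (N : ℝ) ^ (1 - e) := by
      intro k hk
      obtain ⟨_, h1, h2, _⟩ := (hFg k).2.2 hk
      constructor
      · refine lt_of_lt_of_le (Real.rpow_lt_rpow_of_exponent_lt hN1 (by linarith : (2 / 3 : ℝ) < 2 / 3 + e)) ?_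
        exact (Real.rpow_le_rpow_of_exponent_le hN1.le hmid.1).trans h1
      · exact h2.trans (Real.rpow_le_rpow_of_exponent_le hN1.le hmid.2)
    have hfs : ∀ k, f k ≠ 0 → (1 : ℝ) < k ∧
        (k : ℝ) ≤ (N : ℝ) ^ (e0 / Q * ((c₂.sum : ℝ) + (Multiset.card c₂ : ℝ))) := by
      intro k hk
      obtain ⟨_, h1, h2, _⟩ := (hFf k).2.2 hk
      refine ⟨lt_of_lt_of_le ?_ h1, h2⟩
      apply Real.one_lt_rpow hN1
      have h3 : 0 < c₂.sum := by
        obtain ⟨i, hi⟩ := Multiset.exists_mem_of_ne_zero hc0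
        have h4 := Multiset.single_le_sum (fun x _ => Nat.zero_le x) i hi
        have := hc₂ i hi
        omega
      have : (0 : ℝ) < c₂.sum := by exact_mod_cast h3
      positivity
    obtain ⟨T, hT⟩ := pow_unbounded_of_one_lt
      (max (N : ℝ) ((N : ℝ) ^ (e0 / Q * ((c₂.sum : ℝ) + (Multiset.card c₂ : ℝ))))) hq
    have hT1 : (N : ℝ) ≤ (1 + η) ^ T := (le_max_left _ _).trans hT.le
    have hT2 : (N : ℝ) ^ (e0 / Q * ((c₂.sum : ℝ) + (Multiset.card c₂ : ℝ))) ≤ (1 + η) ^ T :=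
      (le_max_right _ _).trans hT.le
    have hκ1 : 1 ≤ (N : ℝ) ^ (2 / 3 : ℝ) := Real.one_le_rpow hN1.le (by norm_num)
    have hκ0 : 0 < (N : ℝ) ^ (2 / 3 : ℝ) := by linarith
    have hgd : ∀ k, g k = ∑ i ∈ range T, cut ((N : ℝ) ^ (2 / 3 : ℝ) * (1 + η) ^ i)
        ((1 + η) * ((N : ℝ) ^ (2 / 3 : ℝ) * (1 + η) ^ i)) g k := fun k => by
      refine cut_tele hκ0 hq T g k fun hk => ?_
      obtain ⟨h1, h2⟩ := hgs k hk
      refine ⟨h1, h2.trans ?_⟩
      calc (N : ℝ) ^ (1 - e) ≤ (N : ℝ) ^ (1 : ℝ) := Real.rpow_le_rpow_of_exponent_le hN1.le (by linarith)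
        _ = 1 * N := by rw [Real.rpow_one, one_mul]
        _ ≤ (N : ℝ) ^ (2 / 3 : ℝ) * (1 + η) ^ T := mul_le_mul hκ1 hT1 hN0.le hκ0.le
    have hfd : ∀ k, f k = ∑ i ∈ range T, cut (1 * (1 + η) ^ i) ((1 + η) * (1 * (1 + η) ^ i)) f k :=
      fun k => by
      refine cut_tele one_pos hq T f k fun hk => ?_
      obtain ⟨h1, h2⟩ := hfs k hk
      exact ⟨h1, by rw [one_mul]; exact h2.trans hT2⟩
    -- abbreviations
    set G : ℕ → ℕ → ℝ := fun i => cut ((N : ℝ) ^ (2 / 3 : ℝ) * (1 + η) ^ i)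
        ((1 + η) * ((N : ℝ) ^ (2 / 3 : ℝ) * (1 + η) ^ i)) g with hGd
    set H : ℕ → ℕ → ℝ := fun i => cut (1 * (1 + η) ^ i) ((1 + η) * (1 * (1 + η) ^ i)) f with hHd
    set S := SI N A T (2 / 3) e (1 + η) with hS
    have hSsub : S ⊆ range T ×ˢ range T := filter_subset _ _
    have hext := ext_le (A := A) (T := T) (κ := 2 / 3) (e := e) hN3 hη hg0 hf0 (fun k hk => (hgs k hk).2) hgd hfd
    -- decomposition of the two sums
    have hcnt : ∀ a, cnt N a h = ∑ x ∈ S, ∑ n ∈ Ioc N (2 * N), conv (G x.1) (H x.2) (val a n)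
        + ∑ n ∈ Ioc N (2 * N), ∑ x ∈ (range T ×ˢ range T) \ S, conv (G x.1) (H x.2) (val a n) := by
      intro a
      rw [sum_comm (s := S), ← sum_add_distrib]
      unfold cnt
      refine sum_congr rfl fun n _ => ?_
      rw [hhc, conv_sum T hgd hfd, ← sum_sdiff hSsub, add_comm]
    have hmod : model N h = ∑ x ∈ S, ∑ m ∈ Ioc (N ^ 2) (4 * N ^ 2),
          conv (G x.1) (H x.2) m * (1 / (2 * √(m : ℝ)))
        + ∑ m ∈ Ioc (N ^ 2) (4 * N ^ 2), (∑ x ∈ (range T ×ˢ range T) \ S, conv (G x.1) (H x.2) m)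
          * (1 / (2 * √(m : ℝ))) := by
      rw [sum_comm (s := S), ← sum_add_distrib]
      unfold model
      refine sum_congr rfl fun m _ => ?_
      rw [hhc, conv_sum T hgd hfd, ← sum_sdiff hSsub, ← sum_mul, ← add_mul, add_comm, mul_one_div]
    -- bounds for the exterior parts
    set EC : ℤ → ℝ := fun a => ∑ n ∈ Ioc N (2 * N), ∑ x ∈ (range T ×ˢ range T) \ S,
      conv (G x.1) (H x.2) (val a n) with hEC
    set EM : ℝ := ∑ m ∈ Ioc (N ^ 2) (4 * N ^ 2), (∑ x ∈ (range T ×ˢ range T) \ S,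
      conv (G x.1) (H x.2) m) * (1 / (2 * √(m : ℝ))) with hEM
    have hEC0 : ∀ a, 0 ≤ EC a := fun a => sum_nonneg fun n _ => (hext (val a n)).1
    have hEM0 : 0 ≤ EM := sum_nonneg fun m _ => mul_nonneg (hext m).1 (by positivity)
    have hEC1 : ∀ a ∈ IA A, EC a ≤ 10 * F * η * N := by
      intro a ha
      have h2 : ∀ n ∈ Ioc N (2 * N), ∑ x ∈ (range T ×ˢ range T) \ S, conv (G x.1) (H x.2) (val a n)
          ≤ if n ∈ En N η then F else 0 := by
        intro n hn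
        refine (hext (val a n)).2.trans ?_
        by_cases hb : Bd N A (1 + η) (val a n)
        · rw [if_pos hb, if_pos (En_of hη hη4 h8A ha hn hb), ← hhc]
          exact hhr _
        · rw [if_neg hb]
          split_ifs
          · exact hF0.le
          · exact le_rfl
      refine (sum_le_sum h2).trans ?_
      rw [← sum_filter, sum_const, nsmul_eq_mul]
      have h3 : ((Ioc N (2 * N)).filter (fun n => n ∈ En N η)).card ≤ (En N η).card :=
        card_le_card fun n hn => (mem_filter.1 hn).2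
      have h4 := card_En hη hη4 (by linarith : 1 ≤ η * N)
      have h5 : (((Ioc N (2 * N)).filter (fun n => n ∈ En N η)).card : ℝ) ≤ 10 * η * N :=
        le_trans (by exact_mod_cast h3) h4
      calc _ ≤ (10 * η * N) * F := mul_le_mul_of_nonneg_right h5 hF0.le
        _ = 10 * F * η * N := by ring
    have hEMs : EM ≤ 10 * F * η * N := by
      have h1 : EM ≤ ∑ m ∈ Ioc ⌊(N : ℝ) ^ 2⌋₊ ⌊(1 + 3 * η) * (N : ℝ) ^ 2⌋₊ ∪
          Ioc ⌊(1 - 3 * η) * (4 * (N : ℝ) ^ 2)⌋₊ ⌊4 * (N : ℝ) ^ 2⌋₊, F * (1 / (2 * N)) := by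
        have h2 : ∀ m ∈ Ioc (N ^ 2) (4 * N ^ 2), (∑ x ∈ (range T ×ˢ range T) \ S,
            conv (G x.1) (H x.2) m) * (1 / (2 * √(m : ℝ)))
            ≤ if m ∈ Ioc ⌊(N : ℝ) ^ 2⌋₊ ⌊(1 + 3 * η) * (N : ℝ) ^ 2⌋₊ ∪
              Ioc ⌊(1 - 3 * η) * (4 * (N : ℝ) ^ 2)⌋₊ ⌊4 * (N : ℝ) ^ 2⌋₊ then
              F * (1 / (2 * N)) else 0 := by
          intro m hm
          have hmN : (N : ℝ) ≤ √(m : ℝ) := by
            rw [Real.le_sqrt hN0.le (Nat.cast_nonneg m)]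
            have := (mem_Ioc.1 hm).1
            exact_mod_cast this.le
          have h3 : 1 / (2 * √(m : ℝ)) ≤ 1 / (2 * (N : ℝ)) := by gcongr
          by_cases hb : Bd N A (1 + η) m
          · rw [if_pos (Em_of hη hη4 h8A hm hb)]
            have h4 := (hext m).2
            rw [if_pos hb, ← hhc] at h4
            exact mul_le_mul (h4.trans (hhr m)) h3 (by positivity) hF0.le
          · have h4 := (hext m).2
            rw [if_neg hb] at h4
            have h5 := le_antisymm h4 (hext m).1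
            rw [h5, zero_mul]
            split_ifs
            · positivity
            · exact le_rfl
        refine (sum_le_sum h2).trans ?_
        rw [← sum_filter]
        refine sum_le_sum_of_subset_of_nonneg ?_ ?_
        · intro m hm
          exact (mem_filter.1 hm).2
        · intro m _ _
          positivity
      refine h1.trans ?_
      rw [sum_const, nsmul_eq_mul]
      have hNsq : (0 : ℝ) ≤ (N : ℝ) ^ 2 := by positivity
      have h5 := card_Ioc_floor (x := (N : ℝ) ^ 2) (y := (1 + 3 * η) * (N : ℝ) ^ 2) hNsq (by nlinarith)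
      have h6 := card_Ioc_floor (x := (1 - 3 * η) * (4 * (N : ℝ) ^ 2)) (y := 4 * (N : ℝ) ^ 2)
        (mul_nonneg (by linarith) (by positivity)) (by nlinarith)
      have h7 := card_union_le (Ioc ⌊(N : ℝ) ^ 2⌋₊ ⌊(1 + 3 * η) * (N : ℝ) ^ 2⌋₊)
          (Ioc ⌊(1 - 3 * η) * (4 * (N : ℝ) ^ 2)⌋₊ ⌊4 * (N : ℝ) ^ 2⌋₊)
      have h8 : ((Ioc ⌊(N : ℝ) ^ 2⌋₊ ⌊(1 + 3 * η) * (N : ℝ) ^ 2⌋₊ ∪
          Ioc ⌊(1 - 3 * η) * (4 * (N : ℝ) ^ 2)⌋₊ ⌊4 * (N : ℝ) ^ 2⌋₊).card : ℝ) ≤ 20 * η * (N : ℝ) ^ 2 := by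
        have h9 : ((Ioc ⌊(N : ℝ) ^ 2⌋₊ ⌊(1 + 3 * η) * (N : ℝ) ^ 2⌋₊ ∪
          Ioc ⌊(1 - 3 * η) * (4 * (N : ℝ) ^ 2)⌋₊ ⌊4 * (N : ℝ) ^ 2⌋₊).card : ℝ)
            ≤ ((Ioc ⌊(N : ℝ) ^ 2⌋₊ ⌊(1 + 3 * η) * (N : ℝ) ^ 2⌋₊).card : ℝ)
              + ((Ioc ⌊(1 - 3 * η) * (4 * (N : ℝ) ^ 2)⌋₊ ⌊4 * (N : ℝ) ^ 2⌋₊).card : ℝ) := by
          exact_mod_cast h7
        have h10 : 2 ≤ η * (N : ℝ) ^ 2 := by nlinarith
        nlinarith
      calc _ ≤ (20 * η * (N : ℝ) ^ 2) * (F * (1 / (2 * N))) :=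
            mul_le_mul_of_nonneg_right h8 (by positivity)
        _ = 10 * F * η * N := by field_simp; ring
    -- the interior blocks
    have hint : ∀ x ∈ S, ∑ a ∈ IA A, |∑ n ∈ Ioc N (2 * N), conv (G x.1) (H x.2) (val a n)
        - Gw (wN W N) a * ∑ m ∈ Ioc (N ^ 2) (4 * N ^ 2), conv (G x.1) (H x.2) m * (1 / (2 * √(m : ℝ)))|
        ≤ A * N / l ^ (B + 2 * E + 3) := by
      intro x hx
      obtain ⟨_, h3, h4, h5⟩ := mem_filter.1 hx
      have hqq : 1 ≤ (1 + η) ^ x.1 := one_le_pow₀ hq.le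
      have hKL0 : 0 ≤ (N : ℝ) ^ (2 / 3 : ℝ) * (1 + η) ^ x.1 * (1 * (1 + η) ^ x.2) := by positivity
      have hq2 : 1 ≤ (1 + η) ^ 2 := one_le_pow₀ hq.le
      have h6 := hN₁ N A hNN₁ hA hnear ((N : ℝ) ^ (2 / 3 : ℝ) * (1 + η) ^ x.1) (1 * (1 + η) ^ x.2) η
        le_rfl hη4 (le_mul_of_one_le_right hκ0.le hqq) h5 (by nlinarith) (by nlinarith)
      refine le_trans (le_of_eq ?_) h6
      refine sum_congr rfl fun a ha => ?_
      rw [int_cnt hN3 hη hx ha, int_model hN3 hη hx rfl rfl]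
    have hcard := card_SI (T := T) (A := A) (e := e) hN3 (by norm_num : (0 : ℝ) ≤ 2 / 3) he hq hD hl1
    rw [← hS] at hcard
    have hcard2 : (S.card : ℝ) ≤ 40 * l / η ^ 2 := hcard.trans (card_bound hη hη4 hlog.le)
    have hηinv : 1 / η ^ 2 = l ^ (2 * E) := by
      rw [hη', ← Real.rpow_natCast, ← Real.rpow_mul hlog.le, one_div, ← Real.rpow_neg hlog.le]
      congr 1; push_cast; ring
    have hsum1 : ∑ a ∈ IA A, ∑ x ∈ S, |∑ n ∈ Ioc N (2 * N), conv (G x.1) (H x.2) (val a n)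
        - Gw (wN W N) a * ∑ m ∈ Ioc (N ^ 2) (4 * N ^ 2), conv (G x.1) (H x.2) m * (1 / (2 * √(m : ℝ)))|
        ≤ 40 * (A * N / l ^ (B + 2)) := by
      rw [sum_comm]
      refine (sum_le_sum hint).trans ?_
      rw [sum_const, nsmul_eq_mul]
      have hp : l ^ (B + 2 * E + 3) = l ^ (B + 2) * (l * l ^ (2 * E)) := by
        rw [← Real.rpow_one_add' hlog.le (by linarith), ← Real.rpow_add hlog]
        congr 1; ring
      have hp1 : 0 < l ^ (B + 2) := Real.rpow_pos_of_pos hlog _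
      have hp2 : 0 < l ^ (2 * E) := Real.rpow_pos_of_pos hlog _
      have h40 : 40 * l / η ^ 2 = 40 * (l * l ^ (2 * E)) := by
        rw [← hηinv]; ring
      rw [h40] at hcard2
      calc (S.card : ℝ) * (A * N / l ^ (B + 2 * E + 3))
          ≤ (40 * (l * l ^ (2 * E))) * (A * N / l ^ (B + 2 * E + 3)) := by
            apply mul_le_mul_of_nonneg_right hcard2
            have := Real.rpow_pos_of_pos hlog (B + 2 * E + 3)
            positivity
        _ = 40 * (A * N / l ^ (B + 2)) := by rw [hp]; field_simp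
    -- assembly
    have hfin : ∀ a ∈ IA A, |cnt N a h - Gw (wN W N) a * model N h|
        ≤ ∑ x ∈ S, |∑ n ∈ Ioc N (2 * N), conv (G x.1) (H x.2) (val a n)
        - Gw (wN W N) a * ∑ m ∈ Ioc (N ^ 2) (4 * N ^ 2), conv (G x.1) (H x.2) m * (1 / (2 * √(m : ℝ)))|
        + (10 * F * η * N + 10 * F * η * N * l) := by
      intro a ha
      rw [hcnt, hmod]
      have e1 : (∑ x ∈ S, ∑ n ∈ Ioc N (2 * N), conv (G x.1) (H x.2) (val a n) + EC a)
          - Gw (wN W N) a * (∑ x ∈ S, ∑ m ∈ Ioc (N ^ 2) (4 * N ^ 2),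
            conv (G x.1) (H x.2) m * (1 / (2 * √(m : ℝ))) + EM)
          = ∑ x ∈ S, (∑ n ∈ Ioc N (2 * N), conv (G x.1) (H x.2) (val a n)
            - Gw (wN W N) a * ∑ m ∈ Ioc (N ^ 2) (4 * N ^ 2), conv (G x.1) (H x.2) m * (1 / (2 * √(m : ℝ))))
            + EC a - EM * Gw (wN W N) a := by
        rw [sum_sub_distrib, ← mul_sum]
        ring
      rw [e1]
      refine (abs_sub _ _).trans ?_
      rw [← add_assoc]
      refine add_le_add ((abs_add_le _ _).trans (add_le_add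
        (abs_sum_le_sum_abs _ _) ?_)) ?_
      · rw [abs_of_nonneg (hEC0 a)]; exact hEC1 a ha
      · rw [abs_of_nonneg (mul_nonneg hEM0 (hG0 a))]
        exact mul_le_mul hEMs (hGl a) (hG0 a) (by positivity)
    refine (sum_le_sum hfin).trans ?_
    rw [sum_add_distrib, sum_const, nsmul_eq_mul, card_IA]
    have hlB2 : l ^ (B + 2) = l ^ B * l ^ 2 := by
      rw [Real.rpow_add hlog, show (2 : ℝ) = ((2 : ℕ) : ℝ) by norm_num, Real.rpow_natCast]
    have hlB : 0 < l ^ B := Real.rpow_pos_of_pos hlog _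
    have hηl : η = 1 / (l ^ B * l ^ 3) := by
      rw [hη', Real.rpow_neg hlog.le, hE, Real.rpow_add hlog, show (3 : ℝ) = ((3 : ℕ) : ℝ) by norm_num,
        Real.rpow_natCast, one_div]
    have hb1 : 40 * (A * N / l ^ (B + 2)) ≤ (A * N / l ^ B) * (40 / l) := by
      rw [hlB2]
      have h1 : 40 * ((A : ℝ) * N / (l ^ B * l ^ 2)) = (A * N / l ^ B) * (40 / l ^ 2) := by field_simp
      rw [h1]
      apply mul_le_mul_of_nonneg_left _ (by positivity)
      apply div_le_div_of_nonneg_left (by norm_num) hlog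
      nlinarith
    have hb2 : (2 * (A : ℝ) + 1) * (10 * F * η * N + 10 * F * η * N * l) ≤ (A * N / l ^ B) * (60 * F / l) := by
      have h1 : (2 * (A : ℝ) + 1) ≤ 3 * A := by linarith
      have h2 : 10 * F * η * N + 10 * F * η * N * l ≤ 20 * F * η * N * l := by
        have : 0 ≤ 10 * F * η * N := by positivity
        nlinarith
      calc (2 * (A : ℝ) + 1) * (10 * F * η * N + 10 * F * η * N * l)
          ≤ (3 * A) * (20 * F * η * N * l) := by
            apply mul_le_mul h1 h2 (by positivity) (by positivity)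
        _ = (A * N / l ^ B) * (60 * F / l ^ 2) := by rw [hηl]; field_simp; ring
        _ ≤ (A * N / l ^ B) * (60 * F / l) := by
            apply mul_le_mul_of_nonneg_left _ (by positivity)
            apply div_le_div_of_nonneg_left (by positivity) hlog
            nlinarith
    calc _ ≤ 40 * (A * N / l ^ (B + 2)) + (2 * (A : ℝ) + 1) * (10 * F * η * N + 10 * F * η * N * l) :=
          add_le_add hsum1 le_rfl
      _ ≤ (A * N / l ^ B) * (40 / l) + (A * N / l ^ B) * (60 * F / l) := add_le_add hb1 hb2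
      _ = (A * N / l ^ B) * ((40 + 60 * F) / l) := by ring
      _ ≤ (A * N / l ^ B) * 1 := by
          apply mul_le_mul_of_nonneg_left _ (by positivity)
          rw [div_le_one hlog]
          nlinarith
      _ = A * N / l ^ B := mul_one _
  obtain ⟨N₀, hN₀⟩ := eventually_atTop.1 hev
  exact ⟨N₀, fun N A hN hA hnear => hN₀ N hN A hA hnear⟩

end TIIU

open TIIU in
/-- **TIIU** -/
theorem specTIIU (hB : SpecBLK2U) (hFFB : SpecFFB) (hGMAX : SpecGMAXU) : SpecTIIU := by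
  intro θ e e0 B Q c₁ c₂ hθ he he0 he1 hBp hQ hc₁ hc₂ hmid
  by_cases hc0 : c₂ = 0
  · subst hc0
    exact ⟨1, one_pos, fun W _ => zero_case he he0 hQ hmid hFFB B W⟩
  · exact core hθ he he0 hBp hQ hc₁ hc₂ hc0 hmid
      (fun E B' hE hB' => hB θ e e0 E B' Q c₁ c₂ hθ he he0 he1 hE hB' hQ hc₁ hc₂ hc0) hFFB hGMAX

end Pool.Agent.Lib.MP391708.U
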