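import Pool.Agent.Lib.MP_391708_nt.QPA.TI
import Pool.Agent.Lib.MP_391708_nt.U.PRODU
import Pool.Agent.Lib.MP_391708_nt.U.RHOU

/-!
# TIU: the Type I part, error relative to `G_w(a)`, few exceptions
-/

set_option autoImplicit false

namespace Pool.Agent.Lib.MP391708.U

open Finset Filter Topology Pool.Agent.Lib.MP391708.QPA
open scoped Classical

theorem specTIU (hFLA : SpecFLA) (hFLB : SpecFLB) (hPROD : SpecPRODU) (hMOB : SpecMOBU)
    (hRHO : SpecRHOU) (hGM : SpecGMAXU) (hWM : SpecWMER) (hRS : SpecRSUM) : SpecTIU := by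
  obtain ⟨cA, hcA, hFLA⟩ := hFLA
  obtain ⟨cB, hcB, hFLB⟩ := hFLB
  obtain ⟨cR, hcR, hRHO⟩ := hRHO
  obtain ⟨cW, hcW, hWM⟩ := hWM
  obtain ⟨cS, hcS, hRS⟩ := hRS
  obtain ⟨cg, _, hcg, _, hGM⟩ := hGM
  intro θ ε hθ hε
  set R1 : ℝ := 1 + cR with hR1
  set T1 : ℝ := 1 + 2 * cS with hT1
  have hR1p : 0 < R1 := by positivity
  have hT1p : 0 < T1 := by positivity
  set K1 : ℝ := cW * (2 * cA * R1 + cB * T1) with hK1
  have hK1p : 0 < K1 := by positivity
  refine ⟨min (3 / 400) (ε / 4 / (18000000 * K1)), by positivity, ?_⟩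
  intro e0 B he0 he1 hB
  have he0a : e0 ≤ 3 / 400 := le_trans he1 (min_le_left _ _)
  have he0b : e0 ≤ ε / 4 / (18000000 * K1) := le_trans he1 (min_le_right _ _)
  set b : ℕ := ⌊1 / (100 * e0)⌋₊ with hb
  have hbe : e0 * (8 * b + 16) ≤ 1 / 5 := by
    have h1 : (b : ℝ) ≤ 1 / (100 * e0) := Nat.floor_le (by positivity)
    have h2 : e0 * b ≤ 1 / 100 := by
      calc e0 * b ≤ e0 * (1 / (100 * e0)) := mul_le_mul_of_nonneg_left h1 he0.le
        _ = 1 / 100 := by field_simp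
    linarith
  set δ : ℝ := min 1 (ε / 4 / (cW * (2 + T1 / e0) / e0)) with hδ
  have hδp : 0 < δ := by positivity
  have hδ2 : δ ≤ 1 := min_le_left _ _
  have hδ3 : δ * (cW * (2 + T1 / e0) / e0) ≤ ε / 4 := by
    have : δ ≤ ε / 4 / (cW * (2 + T1 / e0) / e0) := min_le_right _ _
    rwa [le_div_iff₀ (by positivity)] at this
  obtain ⟨W₀, hW₀, hPROD⟩ := hPROD δ (B + 1) hδp (by linarith)
  refine ⟨W₀, hW₀, fun W hW => ?_⟩
  obtain ⟨N₁, hPROD⟩ := hPROD W hW e0 he0 (by linarith)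
  obtain ⟨σ₂, hσ₂, N₂, hMOB⟩ := hMOB θ e0 δ hθ he0 (by linarith) hδp
  obtain ⟨σ₃, hσ₃, N₃, hRHO⟩ := hRHO θ e0 (1 / 3) hθ he0 (by linarith) (by norm_num) (by norm_num)
  obtain ⟨N₄, hFLA⟩ := hFLA b e0 he0 hbe
  obtain ⟨N₅, hFLB⟩ := hFLB b e0 he0 hbe
  obtain ⟨N₆, hN₆⟩ := eventually_atTop.1
    (((((tendsto_rpow_atTop he0).comp tendsto_natCast_atTop_atTop).eventually_gt_atTop (2 : ℝ)).and
      (PRODUM.ev_log_pow (W + 1) (1 / 12) (8 / (cg * ε)) (by norm_num))).and
      (((PRODUM.ev_log_pow B σ₂ 3 hσ₂).and (PRODUM.ev_log_pow B σ₃ 3 hσ₃)).and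
      ((PRODUM.ev_log_pow 1 (1 / 12) (4 / ε) (by norm_num)).and
      ((Real.tendsto_log_atTop.comp tendsto_natCast_atTop_atTop).eventually_ge_atTop (3 : ℝ)))))
  refine ⟨N₁ + N₂ + N₃ + N₄ + N₅ + N₆ + 3, fun N A hN hadm => ?_⟩
  have hN3 : 3 ≤ N := by omega
  have hN0 : (0 : ℝ) < N := by exact_mod_cast (by omega : 0 < N)
  have hN1 : (1 : ℝ) ≤ N := by exact_mod_cast (by omega : 1 ≤ N)
  obtain ⟨⟨hz2, hlogW⟩, ⟨hlog2, hlog3⟩, hlog1, hL3⟩ := hN₆ N (by omega)
  simp only [Function.comp_apply] at hz2 hL3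
  have hlogN : 0 < Real.log N := by linarith
  have hNA : (N : ℝ) ^ (3 / 4 : ℝ) ≤ A :=
    le_trans (Real.rpow_le_rpow_of_exponent_le hN1 (by linarith)) hadm.1
  have hA0 : (0 : ℝ) ≤ A := by positivity
  have hPROD := hPROD N A (by omega) hNA
  have hMOB := hMOB N A (by omega) hadm
  have hFLA := hFLA N (by omega)
  have hFLB := hFLB N (by omega)
  set z : ℝ := (N : ℝ) ^ e0 with hz
  set w : ℕ := wN W N with hw
  set K : Finset ℕ := (Icc 1 ⌊YY N⌋₊).filter (fun k => Rough z k) with hK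
  have hYY : YY N ≤ (N : ℝ) ^ (2 / 3 : ℝ) := by
    rw [YY]
    exact Real.rpow_le_rpow (by positivity) (by linarith) (by norm_num)
  have hYY1 : 1 ≤ YY N := by
    have : (3 : ℝ) ≤ N := by exact_mod_cast hN3
    exact Real.one_le_rpow (by linarith) (by norm_num)
  have hYY0 : 0 ≤ YY N := by linarith
  have hYN : YY N ≤ N := by
    refine hYY.trans ?_
    calc (N : ℝ) ^ (2 / 3 : ℝ) ≤ (N : ℝ) ^ (1 : ℝ) :=
          Real.rpow_le_rpow_of_exponent_le hN1 (by norm_num)
      _ = N := Real.rpow_one _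
  have hKcard : (K.card : ℝ) ≤ (N : ℝ) ^ (2 / 3 : ℝ) := by
    refine le_trans (Nat.cast_le.2 (Finset.card_filter_le _ _)) ?_
    rw [Nat.card_Icc, Nat.add_sub_cancel]
    exact (Nat.floor_le hYY0).trans hYY
  have hRHO := hRHO N A (by omega) hadm 1 (YY N) le_rfl hYY1 (by
    rw [one_mul]
    norm_num
    exact hYY) (by linarith)
  -- `w`
  have hwlow : 2 ≤ w := by
    have h1 : (Real.log N) ^ W ≤ (w : ℝ) := Nat.le_ceil _
    have h2 : (1 : ℝ) < (Real.log N) ^ W := Real.one_lt_rpow (by linarith) (by linarith)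
    have h3 : (1 : ℝ) < w := by linarith
    exact_mod_cast h3
  have hwup : Real.log ((w : ℝ) + 1) ≤ 2 * (Real.log N) ^ W := by
    have h1 : (w : ℝ) < (Real.log N) ^ W + 1 := Nat.ceil_lt_add_one (by positivity)
    have h2 : Real.log ((w : ℝ) + 1) ≤ (w : ℝ) + 1 - 1 :=
      Real.log_le_sub_one_of_pos (by positivity)
    have h3 : (1 : ℝ) ≤ (Real.log N) ^ W := Real.one_le_rpow (by linarith) (by linarith)
    linarith
  have hG : ∀ a : ℤ, cg / (2 * (Real.log N) ^ W) ≤ Gw w a := by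
    intro a
    refine le_trans ?_ (hGM w hwlow a).1
    apply div_le_div_of_nonneg_left hcg.le _ hwup
    apply Real.log_pos
    have : (2 : ℝ) ≤ w := by exact_mod_cast hwlow
    linarith
  have hT := TI.sum_rough hcS hRS N e0 he0 (by linarith) hN3 hz2 (YY N) hYN
  have hW0 : 0 ≤ Wp z := by
    rw [Wp]
    refine Finset.prod_nonneg fun p hp => ?_
    rw [PB, Finset.mem_filter] at hp
    have : (1 : ℝ) ≤ p := by exact_mod_cast hp.2.one_lt.le
    have : 1 / (p : ℝ) ≤ 1 := by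
      rw [div_le_one (by linarith only [this])]
      exact this
    linarith only [this]
  refine (RHOUM.exc_add A _
    (fun a => |Wa z a - Gw w a * Wp z| ≤ δ * (Gw w a * Wp z))
    (fun a => |∑ k ∈ K, (ArithmeticFunction.moebius k : ℝ) * ((rho a k : ℝ) - 1) / k| ≤ δ ∧
      ∑ k ∈ (Icc ⌈(1 : ℝ)⌉₊ ⌊YY N⌋₊).filter (fun k => 2 ≤ k ∧ Rough z k), (rho a k : ℝ) / k
        ≤ cR * (1 / 3) / e0) ?_).trans ?_
  · intro a hV hSR
    obtain ⟨hS1, hR⟩ := hSR
    have hGa : 0 ≤ Gw w a := le_trans (by positivity) (hG a)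
    have hGpos : 0 < Gw w a := lt_of_lt_of_le (by positivity) (hG a)
    have hT0 : 0 ≤ ∑ k ∈ K, 1 / (k : ℝ) := Finset.sum_nonneg fun _ _ => by positivity
    have hS0 : |∑ k ∈ K, (ArithmeticFunction.moebius k : ℝ) * (1 / k)| ≤ T1 / e0 := by
      refine (Finset.abs_sum_le_sum_abs _ _).trans (le_trans (Finset.sum_le_sum fun k _ => ?_) hT)
      rw [abs_mul, abs_of_nonneg (show (0 : ℝ) ≤ 1 / (k : ℝ) by positivity)]
      have h2 : |(ArithmeticFunction.moebius k : ℝ)| ≤ 1 := by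
        exact_mod_cast ArithmeticFunction.abs_moebius_le_one
      have h3 : (0 : ℝ) ≤ 1 / (k : ℝ) := by positivity
      nlinarith
    have hVle : 0 ≤ Wa z a := by
      have h1 := (abs_le.1 hV).1
      have h2 : δ * (Gw w a * Wp z) ≤ 1 * (Gw w a * Wp z) :=
        mul_le_mul_of_nonneg_right hδ2 (mul_nonneg hGa hW0)
      linarith only [h1, h2]
    have h1 := TI.mobius_diff K (fun k => ∑ n ∈ Ioc N (2 * N),
        (if k ∣ val a n then rInd z (val a n) else 0))
      (fun k => N * ((rho a k : ℝ) / k) * Wa z a) (fun k => (rho a k : ℝ) / k)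
      (cA * Real.exp (-(b : ℝ)) * N * Wa z a) ((N : ℝ) ^ (1 / 4 : ℝ)) (by positivity) (by positivity)
      (fun k => by positivity) (by
        intro k hk hks
        rw [hK, Finset.mem_filter, Finset.mem_Icc] at hk
        have h2 := hFLA a k hks hk.2 (le_trans ((Nat.le_floor_iff hYY0).1 hk.1.2) hYY)
        refine h2.trans (le_of_eq ?_)
        ring)
    rw [← TI.cnt_psi N a e0 hz2] at h1
    have e1 : ∑ k ∈ K, (ArithmeticFunction.moebius k : ℝ) * (N * ((rho a k : ℝ) / k) * Wa z a)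
        = N * Wa z a * ((∑ k ∈ K, (ArithmeticFunction.moebius k : ℝ) * ((rho a k : ℝ) - 1) / k)
          + ∑ k ∈ K, (ArithmeticFunction.moebius k : ℝ) * (1 / k)) := by
      rw [← Finset.sum_add_distrib, Finset.mul_sum]
      refine Finset.sum_congr rfl fun k _ => ?_
      ring
    rw [e1] at h1
    have h2 := TI.mobius_diff K (fun k => model N (fun m => if k ∣ m then rInd z m else 0))
      (fun k => N / (k : ℝ) * Wp z) (fun k => 1 / (k : ℝ))
      (cB * Real.exp (-(b : ℝ)) * N * Wp z) 1 (by positivity) (by positivity)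
      (fun k => by positivity) (by
        intro k hk hks
        rw [hK, Finset.mem_filter, Finset.mem_Icc] at hk
        have h2 := hFLB k hks hk.2 (le_trans ((Nat.le_floor_iff hYY0).1 hk.1.2) hYY)
        refine h2.trans (le_of_eq ?_)
        ring)
    rw [← TI.model_psi N e0 hz2] at h2
    have e2 : ∑ k ∈ K, (ArithmeticFunction.moebius k : ℝ) * (N / (k : ℝ) * Wp z)
        = N * Wp z * ∑ k ∈ K, (ArithmeticFunction.moebius k : ℝ) * (1 / k) := by
      rw [Finset.mul_sum]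
      refine Finset.sum_congr rfl fun k _ => ?_
      ring
    rw [e2] at h2
    have hRle : ∑ k ∈ K, (rho a k : ℝ) / k ≤ R1 / e0 := by
      have h3 : K ⊆ insert 1 ((Icc ⌈(1 : ℝ)⌉₊ ⌊YY N⌋₊).filter (fun k => 2 ≤ k ∧ Rough z k)) := by
        intro k hk
        rw [hK, Finset.mem_filter, Finset.mem_Icc] at hk
        by_cases hk1 : k = 1
        · exact mem_insert.2 (Or.inl hk1)
        · refine mem_insert_of_mem (mem_filter.2 ⟨mem_Icc.2 ⟨?_, hk.1.2⟩, by omega, hk.2⟩)
          rw [Nat.ceil_one]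
          exact hk.1.1
      have h4 : (rho a 1 : ℝ) / (1 : ℕ) = 1 := by
        simp [rho]
      have h5 : (1 : ℕ) ∉ (Icc ⌈(1 : ℝ)⌉₊ ⌊YY N⌋₊).filter (fun k => 2 ≤ k ∧ Rough z k) := by
        intro h
        have := (mem_filter.1 h).2.1
        omega
      calc ∑ k ∈ K, (rho a k : ℝ) / k ≤ ∑ k ∈ insert 1 ((Icc ⌈(1 : ℝ)⌉₊ ⌊YY N⌋₊).filter
            (fun k => 2 ≤ k ∧ Rough z k)), (rho a k : ℝ) / k :=
            Finset.sum_le_sum_of_subset_of_nonneg h3 (fun _ _ _ => by positivity)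
        _ = 1 + ∑ k ∈ (Icc ⌈(1 : ℝ)⌉₊ ⌊YY N⌋₊).filter (fun k => 2 ≤ k ∧ Rough z k),
              (rho a k : ℝ) / k := by
            rw [sum_insert h5, h4]
        _ ≤ 1 / e0 + cR / e0 := by
            have h6 : 1 ≤ 1 / e0 := by
              rw [le_div_iff₀ he0]
              linarith
            have h7 : cR * (1 / 3) / e0 ≤ cR / e0 :=
              div_le_div_of_nonneg_right (by linarith) he0.le
            linarith
        _ = R1 / e0 := by rw [hR1]; ring
    have h2' : |model N (psiM N e0) - N * Wp z * ∑ k ∈ K, (ArithmeticFunction.moebius k : ℝ) * (1 / k)|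
        ≤ cB * Real.exp (-(b : ℝ)) * N * Wp z * (T1 / e0) + K.card := by
      refine h2.trans ?_
      rw [mul_one]
      exact add_le_add (mul_le_mul_of_nonneg_left hT (by positivity)) le_rfl
    have h3 := TI.core N (Gw w a) (Wp z) (Wa z a)
      (∑ k ∈ K, (ArithmeticFunction.moebius k : ℝ) * ((rho a k : ℝ) - 1) / k)
      (∑ k ∈ K, (ArithmeticFunction.moebius k : ℝ) * (1 / k))
      (∑ k ∈ K, (rho a k : ℝ) / k) (R1 / e0) (T1 / e0) (K.card * (N : ℝ) ^ (1 / 4 : ℝ)) K.card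
      cA cB (Real.exp (-(b : ℝ))) δ (cnt N a (psiM N e0)) (model N (psiM N e0)) hN0.le hGa hW0
      hcA.le hcB.le (Real.exp_pos _).le (Finset.sum_nonneg fun _ _ => by positivity) hRle
      (by positivity) hδp.le hδ2 h1 h2' hV hS1 hS0
    refine h3.trans ?_
    -- the numbers
    have hWle : Wp z ≤ cW / (e0 * Real.log N) := by
      have := hWM z hz2.le
      rwa [hz, Real.log_rpow hN0, ← hz] at this
    have hGW : Gw w a * Wp z ≤ Gw w a * (cW / (e0 * Real.log N)) :=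
      mul_le_mul_of_nonneg_left hWle hGa
    have hex := TI.ex_bound e0 he0
    rw [← hb] at hex
    set ex : ℝ := Real.exp (-(b : ℝ)) with hexdef
    have hexp : 0 < ex := Real.exp_pos _
    have m1 : Gw w a * Wp z * N * (2 * cA * ex * (R1 / e0) + cB * ex * (T1 / e0) + δ * (2 + T1 / e0))
        ≤ ε / 2 * (Gw w a * (N / Real.log N)) := by
      have hb0 : 0 ≤ 2 * cA * ex * (R1 / e0) + cB * ex * (T1 / e0) + δ * (2 + T1 / e0) := by
        positivity
      calc Gw w a * Wp z * N * (2 * cA * ex * (R1 / e0) + cB * ex * (T1 / e0) + δ * (2 + T1 / e0))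
          ≤ Gw w a * (cW / (e0 * Real.log N)) * N *
            (2 * cA * ex * (R1 / e0) + cB * ex * (T1 / e0) + δ * (2 + T1 / e0)) :=
            mul_le_mul_of_nonneg_right (mul_le_mul_of_nonneg_right hGW hN0.le) hb0
        _ = (K1 * (ex / e0 ^ 2) + δ * (cW * (2 + T1 / e0) / e0)) * (Gw w a * (N / Real.log N)) := by
            rw [hK1]
            field_simp
        _ ≤ ε / 2 * (Gw w a * (N / Real.log N)) := by
            refine mul_le_mul_of_nonneg_right ?_ (by positivity)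
            have h4 : ex / e0 ^ 2 ≤ 18000000 * e0 := by
              rw [div_le_iff₀ (by positivity)]
              exact hex
            have h5 : K1 * (ex / e0 ^ 2) ≤ ε / 4 := by
              calc K1 * (ex / e0 ^ 2) ≤ K1 * (18000000 * e0) :=
                    mul_le_mul_of_nonneg_left h4 hK1p.le
                _ = e0 * (18000000 * K1) := by ring
                _ ≤ ε / 4 := by rwa [le_div_iff₀ (by positivity)] at he0b
            linarith only [h5, hδ3]
    have m2 : (K.card : ℝ) * (N : ℝ) ^ (1 / 4 : ℝ) + Gw w a * K.card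
        ≤ ε / 2 * (Gw w a * (N / Real.log N)) := by
      have h4 : (K.card : ℝ) * (N : ℝ) ^ (1 / 4 : ℝ) ≤ (N : ℝ) ^ (11 / 12 : ℝ) := by
        calc (K.card : ℝ) * (N : ℝ) ^ (1 / 4 : ℝ) ≤ (N : ℝ) ^ (2 / 3 : ℝ) * (N : ℝ) ^ (1 / 4 : ℝ) :=
              mul_le_mul_of_nonneg_right hKcard (by positivity)
          _ = (N : ℝ) ^ (11 / 12 : ℝ) := by
              rw [← Real.rpow_add hN0]
              norm_num
      have h11 : (N : ℝ) ^ (11 / 12 : ℝ) * (N : ℝ) ^ (1 / 12 : ℝ) = N := by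
        rw [← Real.rpow_add hN0]
        norm_num
      have hp11 : 0 < (N : ℝ) ^ (11 / 12 : ℝ) := Real.rpow_pos_of_pos hN0 _
      have h5 : (N : ℝ) ^ (11 / 12 : ℝ) ≤ ε / 4 * (Gw w a * (N / Real.log N)) := by
        have h6 : cg / (2 * (Real.log N) ^ W) * (N / Real.log N) ≤ Gw w a * (N / Real.log N) :=
          mul_le_mul_of_nonneg_right (hG a) (by positivity)
        refine le_trans ?_ (mul_le_mul_of_nonneg_left h6 (by positivity))
        have h7 : (Real.log N) ^ (W + 1) = (Real.log N) ^ W * Real.log N := by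
          rw [Real.rpow_add hlogN, Real.rpow_one]
        have hLW : 0 < (Real.log N) ^ W := Real.rpow_pos_of_pos hlogN _
        have h8 : ε / 4 * (cg / (2 * (Real.log N) ^ W) * (N / Real.log N))
            = N * (ε * cg) / (8 * (Real.log N) ^ (W + 1)) := by
          rw [h7]
          field_simp
          ring
        rw [h8, le_div_iff₀ (by positivity)]
        have h9 : 8 * (Real.log N) ^ (W + 1) ≤ (ε * cg) * (N : ℝ) ^ (1 / 12 : ℝ) := by
          have h10 := hlogW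
          rw [div_mul_eq_mul_div, div_le_iff₀ (by positivity)] at h10
          linarith
        calc (N : ℝ) ^ (11 / 12 : ℝ) * (8 * (Real.log N) ^ (W + 1))
            ≤ (N : ℝ) ^ (11 / 12 : ℝ) * ((ε * cg) * (N : ℝ) ^ (1 / 12 : ℝ)) :=
              mul_le_mul_of_nonneg_left h9 hp11.le
          _ = ((N : ℝ) ^ (11 / 12 : ℝ) * (N : ℝ) ^ (1 / 12 : ℝ)) * (ε * cg) := by ring
          _ = N * (ε * cg) := by rw [h11]
      have h6 : Gw w a * K.card ≤ ε / 4 * (Gw w a * (N / Real.log N)) := by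
        have h7 : (K.card : ℝ) ≤ ε / 4 * (N / Real.log N) := by
          have h8 : (K.card : ℝ) ≤ (N : ℝ) ^ (11 / 12 : ℝ) :=
            hKcard.trans (Real.rpow_le_rpow_of_exponent_le hN1 (by norm_num))
          refine h8.trans ?_
          rw [← mul_div_assoc, le_div_iff₀ hlogN]
          rw [Real.rpow_one, div_mul_eq_mul_div, div_le_iff₀ hε] at hlog1
          have h9 : Real.log N ≤ ε / 4 * (N : ℝ) ^ (1 / 12 : ℝ) := by linarith
          calc (N : ℝ) ^ (11 / 12 : ℝ) * Real.log N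
              ≤ (N : ℝ) ^ (11 / 12 : ℝ) * (ε / 4 * (N : ℝ) ^ (1 / 12 : ℝ)) :=
                mul_le_mul_of_nonneg_left h9 hp11.le
            _ = ε / 4 * ((N : ℝ) ^ (11 / 12 : ℝ) * (N : ℝ) ^ (1 / 12 : ℝ)) := by ring
            _ = ε / 4 * N := by rw [h11]
        calc Gw w a * K.card ≤ Gw w a * (ε / 4 * (N / Real.log N)) :=
              mul_le_mul_of_nonneg_left h7 hGa
          _ = _ := by ring
      linarith only [h4, h5, h6]
    have m3 : ε * Gw w a * N / Real.log N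
        = ε / 2 * (Gw w a * (N / Real.log N)) + ε / 2 * (Gw w a * (N / Real.log N)) := by ring
    rw [m3]
    linarith only [m1, m2]
  · have hE2 := RHOUM.exc_add A
      (fun a => |∑ k ∈ K, (ArithmeticFunction.moebius k : ℝ) * ((rho a k : ℝ) - 1) / k| ≤ δ ∧
        ∑ k ∈ (Icc ⌈(1 : ℝ)⌉₊ ⌊YY N⌋₊).filter (fun k => 2 ≤ k ∧ Rough z k), (rho a k : ℝ) / k
          ≤ cR * (1 / 3) / e0) _ _ (fun a h1 h2 => And.intro h1 h2)
    have hLB : 0 < (Real.log N) ^ B := Real.rpow_pos_of_pos hlogN _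
    have hsm : ∀ σ : ℝ, 3 * (Real.log N) ^ B ≤ (N : ℝ) ^ σ →
        (A : ℝ) * (N : ℝ) ^ (-σ) ≤ A / (Real.log N) ^ B / 3 := by
      intro σ hσ
      have hp : 0 < (N : ℝ) ^ σ := Real.rpow_pos_of_pos hN0 _
      rw [div_div, Real.rpow_neg hN0.le, ← div_eq_mul_inv]
      apply div_le_div_of_nonneg_left hA0 (by positivity)
      linarith
    have h1 : (A : ℝ) / (Real.log N) ^ (B + 1) ≤ A / (Real.log N) ^ B / 3 := by
      rw [div_div, Real.rpow_add hlogN, Real.rpow_one]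
      apply div_le_div_of_nonneg_left hA0 (by positivity)
      exact mul_le_mul_of_nonneg_left hL3 hLB.le
    have h2 := hsm σ₂ hlog2
    have h3 := hsm σ₃ hlog3
    have h4 : exc A (fun a => |Wa z a - Gw w a * Wp z| ≤ δ * (Gw w a * Wp z))
        ≤ A / (Real.log N) ^ (B + 1) := hPROD
    linarith [hE2, hMOB, hRHO]

end Pool.Agent.Lib.MP391708.U
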