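import Pool.Agent.Lib.MP_391708_nt.U.SpecU5

/-!
# TLU: the tail of the sifted character sum
-/

set_option autoImplicit false

namespace Pool.Agent.Lib.MP391708.U

open Finset Filter Topology
open Pool.Agent.Lib.MP391708.QPA

namespace TLUM

noncomputable section

/-- the sum over the odd numbers in `(x, y]` -/
def R (n₀ : ℤ) (x y : ℕ) : ℝ := ∑ m ∈ (Ioc x y).filter Odd, (jacobiSym n₀ m : ℝ) / m

lemma R_eq (n₀ : ℤ) (x y : ℕ) : R n₀ x y =
    ∑ m ∈ Ioc x y, (if Odd m then (jacobiSym n₀ m : ℝ) else 0) / m := by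
  unfold R
  rw [Finset.sum_filter]
  refine Finset.sum_congr rfl fun m _ => ?_
  split_ifs <;> simp

lemma R_le {n₀ : ℤ} {B : ℝ}
    (hB : ∀ x y : ℕ, |∑ k ∈ (Ioc x y).filter Odd, (jacobiSym n₀ k : ℝ)| ≤ B) (x y : ℕ)
    (h : x ≤ y) : |R n₀ x y| ≤ B / (x + 1) := by
  rw [R_eq]
  refine F6.abel (fun k => if Odd k then (jacobiSym n₀ k : ℝ) else 0) x (fun t => ?_) y h
  rw [← Finset.sum_filter]
  exact hB x t

lemma harm (x c b : ℕ) (hc : c ≤ b) : ∑ m ∈ Ioc x c, 1 / (m : ℝ) ≤ 1 + Real.log b := by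
  have h := harmonic_le_one_add_log b
  rw [harmonic_eq_sum_Icc] at h
  push_cast at h
  refine le_trans ?_ h
  have h2 : ∀ i : ℕ, (i : ℝ)⁻¹ = 1 / (i : ℝ) := fun i => by rw [one_div]
  rw [Finset.sum_congr rfl fun i _ => h2 i]
  refine Finset.sum_le_sum_of_subset_of_nonneg ?_ (fun i _ _ => by positivity)
  intro m hm
  rw [mem_Ioc] at hm
  rw [mem_Icc]
  omega

lemma R_le2 {n₀ : ℤ} {B : ℝ} (hB0 : 0 < B)
    (hB : ∀ x y : ℕ, |∑ k ∈ (Ioc x y).filter Odd, (jacobiSym n₀ k : ℝ)| ≤ B) (x y : ℕ)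
    (h : x ≤ y) : |R n₀ x y| ≤ 3 + Real.log (B + 1) := by
  have hlog : 0 ≤ Real.log (B + 1) := Real.log_nonneg (by linarith)
  set b := ⌈B⌉₊ with hb
  have hBb : B ≤ b := Nat.le_ceil B
  have hb1 : (b : ℝ) < B + 1 := Nat.ceil_lt_add_one hB0.le
  have hb0 : 0 < b := Nat.ceil_pos.2 hB0
  have hb0' : (0 : ℝ) < b := by exact_mod_cast hb0
  have hone : ∀ z : ℕ, b ≤ z → B / ((z : ℝ) + 1) ≤ 1 := by
    intro z hz
    have hz' : (b : ℝ) ≤ z := by exact_mod_cast hz
    rw [div_le_one (by positivity)]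
    linarith
  rcases Nat.le_or_ge b x with hx | hx
  · have h1 := R_le hB x y h
    have h2 := hone x hx
    linarith
  · set c := min y b with hc
    have hxc : x ≤ c := le_min h hx
    have hcy : c ≤ y := min_le_left _ _
    have e : R n₀ x y = R n₀ x c + R n₀ c y := by
      rw [R_eq, R_eq, R_eq, Finset.sum_Ioc_consecutive _ hxc hcy]
    have h1 : |R n₀ x c| ≤ 1 + Real.log (B + 1) := by
      rw [R_eq]
      refine (Finset.abs_sum_le_sum_abs _ _).trans ?_
      calc ∑ m ∈ Ioc x c, |(if Odd m then (jacobiSym n₀ m : ℝ) else 0) / m|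
          ≤ ∑ m ∈ Ioc x c, 1 / (m : ℝ) := by
            refine Finset.sum_le_sum fun m _ => ?_
            rw [abs_div, abs_of_nonneg (show (0 : ℝ) ≤ (m : ℝ) from Nat.cast_nonneg m)]
            apply div_le_div_of_nonneg_right _ (Nat.cast_nonneg m)
            split_ifs
            · exact F6.jac_le n₀ m
            · rw [abs_zero]; exact zero_le_one
        _ ≤ 1 + Real.log b := harm x c b (min_le_right _ _)
        _ ≤ _ := by
            have := Real.log_le_log hb0' hb1.le
            linarith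
    have h2 : |R n₀ c y| ≤ 1 := by
      rcases Nat.le_or_ge y b with hy | hy
      · have : c = y := by rw [hc, min_eq_left hy]
        rw [this]
        unfold R
        simp
      · have hcb : c = b := by rw [hc, min_eq_right hy]
        have h3 := R_le hB c y hcy
        exact h3.trans (hone c (by omega))
    rw [e]
    refine (abs_add_le _ _).trans ?_
    linarith

lemma prod_le (w : ℕ) (hw : 3 ≤ w) (c : ℝ) (hc : 0 ≤ c) :
    ∏ p ∈ F6.SP w, (1 + c / (p : ℝ)) ≤ Real.exp (c * (1 + Real.log w)) := by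
  calc ∏ p ∈ F6.SP w, (1 + c / (p : ℝ)) ≤ ∏ p ∈ F6.SP w, Real.exp (c / (p : ℝ)) := by
        apply Finset.prod_le_prod
        · intro p _; positivity
        · intro p _
          have := Real.add_one_le_exp (c / (p : ℝ))
          linarith
    _ = Real.exp (∑ p ∈ F6.SP w, c / (p : ℝ)) := (Real.exp_sum _ _).symm
    _ ≤ _ := by
        apply Real.exp_le_exp.2
        have e : ∑ p ∈ F6.SP w, c / (p : ℝ) = c * ∑ p ∈ F6.SP w, 1 / (p : ℝ) := by
          rw [Finset.mul_sum]
          refine Finset.sum_congr rfl fun p _ => ?_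
          rw [mul_one_div]
        rw [e]
        apply mul_le_mul_of_nonneg_left _ hc
        refine le_trans ?_ (harm 0 w w le_rfl)
        refine Finset.sum_le_sum_of_subset_of_nonneg ?_ (fun i _ _ => by positivity)
        intro p hp
        obtain ⟨h1, h2, h3⟩ := F6.mem_SP.1 hp
        rw [mem_Ioc]
        exact ⟨h2.pos, h1⟩

lemma exp_one_le : Real.exp 1 ≤ 3 := by
  have := Real.exp_one_lt_d9
  linarith

lemma prod_one (w : ℕ) (hw : 3 ≤ w) : ∏ p ∈ F6.SP w, (1 + 1 / (p : ℝ)) ≤ 3 * w := by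
  have hw' : (0 : ℝ) < w := by exact_mod_cast (by omega : 0 < w)
  refine (prod_le w hw 1 zero_le_one).trans ?_
  rw [one_mul, Real.exp_add, Real.exp_log hw']
  exact mul_le_mul_of_nonneg_right exp_one_le hw'.le

lemma prod_three (w : ℕ) (hw : 3 ≤ w) : ∏ p ∈ F6.SP w, (1 + 3 / (p : ℝ)) ≤ (3 * w) ^ 3 := by
  have hw' : (0 : ℝ) < w := by exact_mod_cast (by omega : 0 < w)
  refine (prod_le w hw 3 (by norm_num)).trans ?_
  have e : Real.exp (3 * (1 + Real.log w)) = (Real.exp 1 * w) ^ 3 := by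
    rw [show (3 : ℝ) * (1 + Real.log w) = ((3 : ℕ) : ℝ) * (1 + Real.log w) by norm_num,
      Real.exp_nat_mul, Real.exp_add, Real.exp_log hw']
  rw [e]
  apply pow_le_pow_left₀ (by positivity)
  exact mul_le_mul_of_nonneg_right exp_one_le hw'.le

end

end TLUM

open TLUM
open scoped Classical

/-- Module TLU. -/
theorem specTLU (hI : SpecIEU) : SpecTLU := by
  intro n₀ B hB0 hB w D Y X hw hD hY hYX
  have hSP : ∀ p ∈ F6.SP w, p.Prime ∧ p ≠ 2 := fun p hp => (F6.mem_SP.1 hp).2
  have hlw : 0 < Real.log w := Real.log_pos (by exact_mod_cast (by omega : 1 < w))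
  have hYr : (0 : ℝ) < Y := by exact_mod_cast (by omega : 0 < Y)
  set M : ℝ := 3 + Real.log (B + 1) with hM
  have hM0 : 0 ≤ M := by
    have : 0 ≤ Real.log (B + 1) := Real.log_nonneg (by linarith)
    rw [hM]; linarith
  rw [hI (F6.SP w) hSP (fun k => (jacobiSym n₀ k : ℝ) / k) Y X]
  set ε : ℝ := Real.exp (-(Real.log D / Real.log w)) with hε
  have hε0 : 0 < ε := Real.exp_pos _
  have hterm : ∀ T ∈ (F6.SP w).powerset, |(-1 : ℝ) ^ T.card *
      ∑ m ∈ (Ioc (Y / ∏ p ∈ T, p) (X / ∏ p ∈ T, p)).filter Odd,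
        (jacobiSym n₀ ((∏ p ∈ T, p) * m) : ℝ) / (((∏ p ∈ T, p) * m : ℕ) : ℝ)|
      ≤ B * D / Y * ∏ p ∈ T, (1 / (p : ℝ)) + M * ε * ∏ p ∈ T, (3 / (p : ℝ)) := by
    intro T hT
    have hTS : ∀ p ∈ T, p.Prime ∧ p ≠ 2 ∧ p ≤ w := fun p hp => by
      obtain ⟨h1, h2, h3⟩ := F6.mem_SP.1 (Finset.mem_powerset.1 hT hp)
      exact ⟨h2, h3, h1⟩
    set d : ℕ := ∏ p ∈ T, p with hd
    have hd0 : 0 < d := Finset.prod_pos fun p hp => (hTS p hp).1.pos
    have hdr : (0 : ℝ) < d := by exact_mod_cast hd0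
    have hdc : (d : ℝ) = ∏ p ∈ T, (p : ℝ) := by rw [hd]; push_cast; rfl
    have e1 : ∑ m ∈ (Ioc (Y / d) (X / d)).filter Odd, (jacobiSym n₀ (d * m) : ℝ) / ((d * m : ℕ) : ℝ)
        = (jacobiSym n₀ d : ℝ) / d * R n₀ (Y / d) (X / d) := by
      unfold R
      rw [Finset.mul_sum]
      refine Finset.sum_congr rfl fun m hm => ?_
      rw [mem_filter, mem_Ioc] at hm
      rw [F6.jac_mul n₀ hd0.ne' ((Nat.zero_le _).trans_lt hm.1.1).ne']
      push_cast
      rw [mul_div_mul_comm]
    have e2 : ∏ p ∈ T, (1 / (p : ℝ)) = 1 / d := by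
      rw [hdc, Finset.prod_div_distrib, Finset.prod_const_one]
    have e3 : ∏ p ∈ T, (3 / (p : ℝ)) = 3 ^ T.card / d := by
      rw [hdc, Finset.prod_div_distrib, Finset.prod_const]
    rw [e1, e2, e3, abs_mul, abs_pow, abs_neg, abs_one, one_pow, one_mul, abs_mul, abs_div,
      abs_of_pos hdr]
    have hjac : |(jacobiSym n₀ d : ℝ)| / d ≤ 1 / d :=
      div_le_div_of_nonneg_right (F6.jac_le n₀ d) hdr.le
    have hdiv : Y / d ≤ X / d := Nat.div_le_div_right hYX
    rcases le_or_gt (d : ℝ) D with hdD | hdD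
    · have h1 := R_le hB (Y / d) (X / d) hdiv
      have h2 : (Y : ℝ) ≤ (((Y / d : ℕ) : ℝ) + 1) * d := by
        have h3 : Y ≤ (Y / d + 1) * d := by
          have h4 := Nat.div_add_mod Y d
          have h5 := Nat.mod_lt Y hd0
          have h6 : (Y / d + 1) * d = d * (Y / d) + d := by ring
          omega
        exact_mod_cast h3
      have h3 : B / (((Y / d : ℕ) : ℝ) + 1) ≤ B * d / Y := by
        rw [div_le_div_iff₀ (by positivity) hYr]
        calc B * Y ≤ B * ((((Y / d : ℕ) : ℝ) + 1) * d) := mul_le_mul_of_nonneg_left h2 hB0.le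
          _ = _ := by ring
      have h4 : |(jacobiSym n₀ d : ℝ)| / d * |R n₀ (Y / d) (X / d)| ≤ 1 / d * (B * d / Y) :=
        mul_le_mul hjac (h1.trans h3) (abs_nonneg _) (by positivity)
      have h5 : 1 / d * (B * d / Y) ≤ B * D / Y * (1 / d) := by
        have h6 : (1 : ℝ) / d * (B * d / Y) = B / Y := by field_simp
        have h7 : B * D / Y * (1 / (d : ℝ)) = B / Y * (D / d) := by ring
        rw [h6, h7]
        have h8 : 1 ≤ D / (d : ℝ) := (one_le_div hdr).2 hdD
        have h9 : 0 ≤ B / Y := by positivity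
        nlinarith
      have h6 : 0 ≤ M * ε * (3 ^ T.card / (d : ℝ)) := by positivity
      linarith
    · have h1 := R_le2 hB0 hB (Y / d) (X / d) hdiv
      have h2 : |(jacobiSym n₀ d : ℝ)| / d * |R n₀ (Y / d) (X / d)| ≤ 1 / d * M :=
        mul_le_mul hjac h1 (abs_nonneg _) (by positivity)
      have h3 : 1 ≤ ε * 3 ^ T.card := by
        have h4 : Real.log d ≤ T.card * Real.log w := by
          rw [hdc, Real.log_prod (fun p hp => by
            have := (hTS p hp).1.pos
            positivity)]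
          calc ∑ p ∈ T, Real.log (p : ℝ) ≤ ∑ _p ∈ T, Real.log (w : ℝ) := by
                refine Finset.sum_le_sum fun p hp => ?_
                apply Real.log_le_log
                · exact_mod_cast (hTS p hp).1.pos
                · exact_mod_cast (hTS p hp).2.2
            _ = T.card * Real.log w := by rw [Finset.sum_const, nsmul_eq_mul]
        have h5 : Real.log D ≤ Real.log d := Real.log_le_log (by linarith) hdD.le
        have h6 : Real.log D / Real.log w ≤ T.card := by
          rw [div_le_iff₀ hlw]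
          linarith
        have h7 : Real.exp (T.card : ℝ) ≤ 3 ^ T.card := by
          have h8 : Real.exp (T.card : ℝ) = Real.exp 1 ^ T.card := by
            rw [← Real.exp_nat_mul, mul_one]
          rw [h8]
          exact pow_le_pow_left₀ (Real.exp_pos 1).le exp_one_le _
        calc (1 : ℝ) = ε * Real.exp (Real.log D / Real.log w) := by
              rw [hε, ← Real.exp_add, neg_add_cancel, Real.exp_zero]
          _ ≤ ε * 3 ^ T.card :=
              mul_le_mul_of_nonneg_left ((Real.exp_le_exp.2 h6).trans h7) hε0.le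
      have h4 : 1 / (d : ℝ) * M ≤ M * ε * (3 ^ T.card / d) := by
        have h5 : M * ε * (3 ^ T.card / (d : ℝ)) = 1 / d * M * (ε * 3 ^ T.card) := by ring
        rw [h5]
        exact le_mul_of_one_le_right (by positivity) h3
      have h5 : 0 ≤ B * D / Y * (1 / (d : ℝ)) := by positivity
      linarith
  refine (Finset.abs_sum_le_sum_abs _ _).trans ((Finset.sum_le_sum hterm).trans ?_)
  rw [Finset.sum_add_distrib, ← Finset.mul_sum, ← Finset.mul_sum, ← Finset.prod_one_add,
    ← Finset.prod_one_add]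
  have h1 := mul_le_mul_of_nonneg_left (prod_one w hw) (show 0 ≤ B * D / Y by positivity)
  have h2 := mul_le_mul_of_nonneg_left (prod_three w hw) (show 0 ≤ M * ε by positivity)
  linarith

end Pool.Agent.Lib.MP391708.U
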