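import Pool.Agent.Lib.MP_391708_nt.U.Bas
import Pool.Agent.Lib.MP_391708_nt.QPA.Two

/-!
# Project U, module TWOU: the Cauchy-Schwarz inequality without sieve weights
-/

set_option autoImplicit false

namespace Pool.Agent.Lib.MP391708.U

open Finset Filter Topology Pool.Agent.Lib.MP391708.QPA
open scoped Classical

theorem specTWOU (hSEC : SpecSEC) (hFIRST : SpecFIRST) : SpecTWOU := by
  intro θ e e0 B hθ he he0 hB
  obtain ⟨CF, hCF, N1, hF⟩ := hFIRST e0 he0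
  obtain ⟨τ, hτ0, hτ1, hτe, hτ2, hτ3⟩ := Two.params hθ he
  obtain ⟨σ, hσ, X0, hSECτ⟩ := hSEC τ hτ0
  have hgI : 0 ≤ gI := MeasureTheory.integral_nonneg (fun x => gB.nonneg)
  refine ⟨B ^ 2 * CF * (gI + 1), σ / 2, by positivity, by positivity, ?_⟩
  have hev : ∀ᶠ N : ℕ in atTop, 3 ≤ N ∧ N1 ≤ N ∧ X0 ≤ (N : ℝ) ^ (1 : ℝ) ∧ 3 ≤ (N : ℝ) ^ e0 ∧
      2 ≤ (N : ℝ) ^ (2 * e) ∧ 2 * Real.log N ^ 1 ≤ 1 * (N : ℝ) ^ (1 / 2 : ℝ) ∧
      75 ≤ (N : ℝ) ^ (2 * θ - 5 / 3 - 2 * τ) ∧ 15 ≤ (N : ℝ) ^ (θ / 2 - 1 / 3 - 2 * τ) ∧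
      10 ≤ (N : ℝ) ^ (e - 2 * τ) ∧ 1 * Real.log N ^ 2 ≤ 1 * (N : ℝ) ^ (σ / 2) ∧ 1 ≤ Real.log N := by
    filter_upwards [eventually_ge_atTop 3, eventually_ge_atTop N1, Two.ev_rpow (M := X0) one_pos,
      Two.ev_rpow (M := 3) he0, Two.ev_rpow (M := 2) (by linarith : 0 < 2 * e),
      Two.ev_log (c := 1 / 2) (κ := 1) (M := 2) (by norm_num) one_pos (by norm_num) 1,
      Two.ev_rpow (M := 75) hτ2, Two.ev_rpow (M := 15) hτ3, Two.ev_rpow (M := 10) hτe,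
      Two.ev_log (c := σ / 2) (κ := 1) (M := 1) (by positivity) one_pos one_pos 2,
      BasM.ev_log 1]
      with N a1 a2 a3 a4 a6 a7 a8 a9 a10 a11 a12
    exact ⟨a1, a2, a3, a4, a6, a7, a8, a9, a10, a11, a12⟩
  obtain ⟨N0, hN0⟩ := eventually_atTop.mp hev
  refine ⟨N0, ?_⟩
  intro N A hN hAdm K L hK1 hK2 hKL1 hKL2 α b hα hαs hb hbs
  obtain ⟨a1, a2, a3, a4, a6, a7, a8, a9, a10, a11, a12⟩ := hN0 N hN
  obtain ⟨hA1, hA2⟩ := hAdm
  have hn3 : (3 : ℝ) ≤ N := by exact_mod_cast a1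
  have hn0 : (0 : ℝ) < N := by linarith
  rw [pow_one, one_mul] at a7
  rw [Real.rpow_one] at a3
  rw [one_mul, one_mul] at a11
  obtain ⟨b1, b2, b3, b4, b5, b6, b7, b8⟩ := Two.sizes (A := A) hn3 hK1 hK2 hKL1 hKL2 hτ0 hτ1 a6 a8 a9
    a10 a7 hA1 hA2
  have hK0 : 0 < K := by linarith
  have hKL0 : 0 < K * L := by positivity
  have hAge : (1 : ℝ) ≤ A := by
    have : (1 : ℝ) ≤ (N : ℝ) ^ θ := Real.one_le_rpow (by linarith) (by linarith)
    linarith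
  have hAgeN : 1 ≤ A := by exact_mod_cast hAge
  set M : ℝ := Real.log N with hM
  have hM0 : 0 < M := by linarith
  set lam : ℕ → ℝ := fun d => if d = 1 then 1 else 0 with hlam
  have hlam1 : lam 1 = 1 := if_pos rfl
  have hlams : ∀ d, lam d ≠ 0 → d = 1 := fun d hd => by
    by_contra h
    exact hd (if_neg h)
  have hQF : QF 1 lam = 1 := by
    unfold QF
    rw [Nat.floor_one, Finset.Icc_self, sum_singleton, sum_singleton, hlam1]
    norm_num
  have hNKL : (N : ℝ) ≤ K * L := by nlinarith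
  -- SEC
  set b' : ℕ → ℝ := fun u => b u / M with hb'
  have hsec := hSECτ K L A 1 b' lam (8 * N) (a3.trans hNKL) b1 b3 hAge b4 b5 b6 b7
    (by push_cast; exact b8) le_rfl (Real.one_le_rpow (by linarith) hσ.le)
    (fun d => by
      simp only [hlam]
      split_ifs <;> norm_num)
    (fun d hd => by
      rw [hlams d hd]
      exact ⟨le_rfl, by norm_num, odd_one⟩)
    (fun u => by
      rw [hb']
      simp only []
      rw [abs_div, abs_of_pos hM0, div_le_one hM0]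
      exact hb u)
    (fun u hu => by
      apply hbs
      intro h0
      apply hu
      rw [hb']
      simp only []
      rw [h0, zero_div])
  rw [hQF, mul_one] at hsec
  set W : ℝ := |Wsum K L b| with hW
  have hW0 : 0 ≤ W := abs_nonneg _
  have hWb : |Wsum K L b'| * M ^ 2 = W := by
    rw [hW, Two.Wsum_div (b := b) hM0.ne', abs_mul, abs_of_pos (by positivity : 0 < M ^ 2), mul_comm]
  set S : ℝ := (K * L) ^ (-σ) with hSdef
  have hS0 : 0 < S := Real.rpow_pos_of_pos hKL0 _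
  have hQ2b : Q2 (8 * N) K A lam b' ≤ A * gI * |Wsum K L b'| + A * L * S := by
    have h1 := (abs_le.mp hsec).2
    have h2 : (A : ℝ) * gI * Wsum K L b' ≤ A * gI * |Wsum K L b'| :=
      mul_le_mul_of_nonneg_left (le_abs_self _) (by positivity)
    linarith
  have hSsmall : M ^ 2 * S ≤ (N : ℝ) ^ (-(σ / 2)) := by
    have h1 : S ≤ ((N : ℝ) ^ σ)⁻¹ := by
      rw [hSdef, Real.rpow_neg hKL0.le]
      apply inv_anti₀ (by positivity)
      exact Real.rpow_le_rpow hn0.le hNKL hσ.le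
    calc M ^ 2 * S ≤ (N : ℝ) ^ (σ / 2) * ((N : ℝ) ^ σ)⁻¹ := by
          apply mul_le_mul a11 h1 hS0.le (by positivity)
      _ = (N : ℝ) ^ (-(σ / 2)) := by
          rw [← Real.rpow_neg hn0.le, ← Real.rpow_add hn0]
          congr 1
          ring
  -- first factor
  have hb0 : b 0 = 0 := by
    by_contra h
    have := (hbs 0 h).1
    simp at this
  have hcs := Two.cauchy (X := 8 * N) (A := A) b1 hαs hb0
  have hfirst : ∑ a ∈ IA A, ∑ k ∈ Ioc ⌊K⌋₊ ⌊5 / 4 * K⌋₊, |α k| * (rho a k : ℝ) ≤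
      B * (CF * A * K) := by
    have h1 := hF N A a2 (by
      refine le_trans ?_ hA1
      apply Real.rpow_le_rpow_of_exponent_le (by linarith) (by linarith)) K (by
      refine le_trans ?_ hK1
      apply Real.rpow_le_rpow_of_exponent_le (by linarith) (by norm_num)) (by
      refine hK2.trans ?_
      calc (N : ℝ) ^ (1 - e) ≤ (N : ℝ) ^ (1 : ℝ) :=
            Real.rpow_le_rpow_of_exponent_le (by linarith) (by linarith)
        _ = N := Real.rpow_one _)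
    have h2 : CF * A * K / Real.log N ≤ CF * A * K := div_le_self (by positivity) a12
    refine le_trans ?_ (mul_le_mul_of_nonneg_left (h1.trans h2) hB.le)
    rw [mul_sum]
    refine sum_le_sum fun a _ => ?_
    rw [mul_sum]
    refine sum_le_sum fun k _ => ?_
    rw [← mul_assoc]
    exact mul_le_mul_of_nonneg_right (hα k) (by positivity)
  have hsecond := Two.second_le (X := 8 * N) (A := A) (K := K) (z := (N : ℝ) ^ e0) (y := 1) (B := B)
    (α := α) (b := b) (lam := lam) b1 hAgeN (by linarith) (by linarith) hB.le hα hlam1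
    (fun d hd => by rw [hlams d hd]; norm_num)
  rw [Two.Q2_div (b := b) hM0.ne'] at hsecond
  have hsecond' : ∑ a ∈ IA A, ∑ k ∈ Ioc ⌊K⌋₊ ⌊5 / 4 * K⌋₊, |α k| *
      ∑ ν ∈ Two.roots a k, (fan (8 * N) a k ν b) ^ 2 ≤
      B * (M ^ 2 * (A * gI * |Wsum K L b'| + A * L * S)) := by
    refine hsecond.trans ?_
    apply mul_le_mul_of_nonneg_left _ hB.le
    apply mul_le_mul_of_nonneg_left hQ2b (by positivity)
  have h0 : 0 ≤ ∑ a ∈ IA A, ∑ k ∈ Ioc ⌊K⌋₊ ⌊5 / 4 * K⌋₊, |α k| *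
      ∑ ν ∈ Two.roots a k, (fan (8 * N) a k ν b) ^ 2 :=
    sum_nonneg fun a _ => sum_nonneg fun k _ => mul_nonneg (abs_nonneg _)
      (sum_nonneg fun ν _ => sq_nonneg _)
  refine hcs.trans ?_
  have hR0 : 0 < (N : ℝ) ^ (-(σ / 2)) := Real.rpow_pos_of_pos hn0 _
  calc (∑ a ∈ IA A, ∑ k ∈ Ioc ⌊K⌋₊ ⌊5 / 4 * K⌋₊, |α k| * (rho a k : ℝ)) *
      (∑ a ∈ IA A, ∑ k ∈ Ioc ⌊K⌋₊ ⌊5 / 4 * K⌋₊, |α k| *
        ∑ ν ∈ Two.roots a k, (fan (8 * N) a k ν b) ^ 2)
      ≤ (B * (CF * A * K)) * (B * (M ^ 2 * (A * gI * |Wsum K L b'| + A * L * S))) := by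
        apply mul_le_mul hfirst hsecond' h0 (by positivity)
    _ = B ^ 2 * CF * ((A : ℝ) ^ 2 * K) * (gI * (|Wsum K L b'| * M ^ 2) + L * (M ^ 2 * S)) := by ring
    _ = B ^ 2 * CF * ((A : ℝ) ^ 2 * K) * (gI * W + L * (M ^ 2 * S)) := by rw [hWb]
    _ ≤ B ^ 2 * CF * ((A : ℝ) ^ 2 * K) * (gI * W + L * (N : ℝ) ^ (-(σ / 2))) := by gcongr
    _ ≤ B ^ 2 * CF * ((A : ℝ) ^ 2 * K) * ((gI + 1) * (W + L * (N : ℝ) ^ (-(σ / 2)))) := by
        apply mul_le_mul_of_nonneg_left _ (by positivity)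
        have h2 : 0 ≤ L * (N : ℝ) ^ (-(σ / 2)) := by positivity
        nlinarith [mul_nonneg hgI h2]
    _ = B ^ 2 * CF * (gI + 1) * (A : ℝ) ^ 2 * K * (W + L * (N : ℝ) ^ (-(σ / 2))) := by ring

end Pool.Agent.Lib.MP391708.U
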