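import Pool.Agent.Lib.MP_391708_nt.U.SpecU
import Pool.Agent.Lib.MP_391708_nt.QPA.EQ

/-! # Project U, module EQU: character sums over the functions `FF`, with log powers -/

set_option autoImplicit false

namespace Pool.Agent.Lib.MP391708.U

open Finset Filter Topology Pool.Agent.Lib.MP391708.QPA
open scoped Classical

theorem specEQU (hSWP : SpecSWP) : SpecEQU := by
  intro e0 B Cc Q c he0 hQ hB hCc hc hci
  obtain ⟨i, c', rfl⟩ : ∃ i c', c = i ::ₘ c' := by
    obtain ⟨i, hi⟩ := Multiset.exists_mem_of_ne_zero hc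
    obtain ⟨c', h⟩ := Multiset.exists_cons_of_mem hi
    exact ⟨i, c', h⟩
  have hQ0 : (0 : ℝ) < Q := by exact_mod_cast hQ
  have hFp : (0 : ℝ) < ((Multiset.card c').factorial : ℝ) := by
    exact_mod_cast Nat.factorial_pos _
  set F : ℝ := ((Multiset.card c').factorial : ℝ) with hFdef
  obtain ⟨X₀, hX₀⟩ := hSWP (Cc + 1) (B + 2) (by linarith) (by linarith)
  have hlogT : Tendsto (fun N : ℕ => Real.log N) atTop atTop :=
    Real.tendsto_log_atTop.comp tendsto_natCast_atTop_atTop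
  have hN : ∀ᶠ N : ℕ in atTop, (max X₀ 4) ≤ (N : ℝ) ^ (e0 / 2) ∧ 3 ≤ N ∧
      ((e0 / 2) ^ (Cc + 1))⁻¹ ≤ Real.log N ∧
      8 * F * ((e0 / 2) ^ (B + 2))⁻¹ ≤ Real.log N := by
    refine Filter.Eventually.and ?_ (Filter.Eventually.and (eventually_ge_atTop 3)
      (Filter.Eventually.and (hlogT.eventually_ge_atTop _) (hlogT.eventually_ge_atTop _)))
    exact ((tendsto_rpow_atTop (by positivity : 0 < e0 / 2)).comp
      tendsto_natCast_atTop_atTop).eventually_ge_atTop (max X₀ 4)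
  obtain ⟨N₀, hN₀⟩ := eventually_atTop.mp hN
  refine ⟨N₀, fun N hNN r hr ψ hψ x₁ x₂ hx hx' => ?_⟩
  obtain ⟨ht, hN3, hlg1, hlg2⟩ := hN₀ N hNN
  have hN3' : (3 : ℝ) ≤ N := by exact_mod_cast hN3
  have hNp : (0 : ℝ) < N := by linarith
  have hN1 : (1 : ℝ) ≤ N := by linarith
  have hlog : 1 ≤ Real.log N := by
    rw [Real.le_log_iff_exp_le hNp]
    linarith [Real.exp_one_lt_d9]
  have hlog0 : 0 < Real.log N := by linarith
  have hx20 : 0 ≤ x₂ := by linarith
  set t : ℝ := (N : ℝ) ^ (e0 / 2) with htd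
  have ht4 : 4 ≤ t := le_trans (le_max_right _ _) ht
  have htX : X₀ ≤ t := le_trans (le_max_left _ _) ht
  set z : ℝ := (N : ℝ) ^ e0 with hzd
  have hzt : z = t ^ 2 := by
    rw [hzd, htd, ← Real.rpow_natCast, ← Real.rpow_mul hNp.le]
    norm_num
  have hzt1 : t ≤ z - 1 := by rw [hzt]; nlinarith
  have hlogt : Real.log t = e0 / 2 * Real.log N := by rw [htd, Real.log_rpow hNp]
  have hQi : Q ≤ i := hci i (Multiset.mem_cons_self i c')
  have hzi : z ≤ (N : ℝ) ^ ((i : ℝ) * (e0 / Q)) := by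
    rw [hzd]
    apply Real.rpow_le_rpow_of_exponent_le hN1
    have h1 : (Q : ℝ) ≤ i := by exact_mod_cast hQi
    have h2 : e0 = Q * (e0 / Q) := by field_simp
    calc e0 = Q * (e0 / Q) := h2
      _ ≤ i * (e0 / Q) := mul_le_mul_of_nonneg_right h1 (by positivity)
  -- the saving
  set S : ℝ := (e0 / 2 * Real.log N) ^ (B + 2) with hSd
  have hS0 : 0 < S := by rw [hSd]; positivity
  have hrC : ∀ w : ℝ, t ≤ w → ((r : ℝ) + 1) ≤ (Real.log w) ^ (Cc + 1) := by
    intro w hw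
    have h4 : e0 / 2 * Real.log N ≤ Real.log w := by
      rw [← hlogt]
      exact Real.log_le_log (by linarith) hw
    calc ((r : ℝ) + 1) ≤ (Real.log N) ^ Cc := hr
      _ = (Real.log N) ^ Cc * 1 := by ring
      _ ≤ (Real.log N) ^ Cc * ((e0 / 2) ^ (Cc + 1) * Real.log N) := by
        apply mul_le_mul_of_nonneg_left _ (by positivity)
        rw [inv_le_iff_one_le_mul₀ (by positivity)] at hlg1
        linarith
      _ = (e0 / 2 * Real.log N) ^ (Cc + 1) := by
        rw [Real.mul_rpow (by positivity) hlog0.le, Real.rpow_add hlog0 Cc 1, Real.rpow_one]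
        ring
      _ ≤ (Real.log w) ^ (Cc + 1) := Real.rpow_le_rpow (by positivity) h4 (by linarith)
  -- the inner sums
  have hin : ∀ m : ℕ, 1 ≤ m →
      ‖∑ p ∈ (Ioc (max (⌈(N : ℝ) ^ ((i : ℝ) * (e0 / Q))⌉₊ - 1) ⌊x₁ / m⌋₊)
        (min (⌈(N : ℝ) ^ (((i : ℝ) + 1) * (e0 / Q))⌉₊ - 1) ⌊x₂ / m⌋₊)).filter Nat.Prime,
          ψ (p : ZMod (r + 1))‖ ≤ 2 * x₂ / S / m := by
    intro m hm
    have hm0 : (0 : ℝ) < m := by exact_mod_cast hm
    set u := max (⌈(N : ℝ) ^ ((i : ℝ) * (e0 / Q))⌉₊ - 1) ⌊x₁ / m⌋₊ with hu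
    set v := min (⌈(N : ℝ) ^ (((i : ℝ) + 1) * (e0 / Q))⌉₊ - 1) ⌊x₂ / m⌋₊ with hv
    by_cases huv : u ≤ v
    · have hut : t ≤ u := by
        have h1 : ⌈(N : ℝ) ^ ((i : ℝ) * (e0 / Q))⌉₊ ≤ u + 1 := by
          have := le_max_left (⌈(N : ℝ) ^ ((i : ℝ) * (e0 / Q))⌉₊ - 1) ⌊x₁ / m⌋₊
          omega
        have h2 : (N : ℝ) ^ ((i : ℝ) * (e0 / Q)) ≤ (u : ℝ) + 1 := by
          have := Nat.le_of_ceil_le h1
          push_cast at this
          exact this
        linarith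
      have hvx : (v : ℝ) ≤ x₂ / m :=
        (Nat.le_floor_iff (by positivity)).mp (min_le_right _ _)
      have hone : ∀ w : ℕ, t ≤ (w : ℝ) → (w : ℝ) ≤ x₂ / m →
          ‖∑ p ∈ (Icc 1 w).filter Nat.Prime, ψ (p : ZMod (r + 1))‖ ≤ x₂ / S / m := by
        intro w h1 h2
        have h3 := hX₀ (w : ℝ) (le_trans htX h1) r (hrC w h1) ψ hψ
        rw [Nat.floor_natCast] at h3
        have h4 : e0 / 2 * Real.log N ≤ Real.log w := by
          rw [← hlogt]
          exact Real.log_le_log (by linarith) h1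
        calc _ ≤ w / (Real.log w) ^ (B + 2) := h3
          _ ≤ (x₂ / m) / S := by
            apply div_le_div₀ (by positivity) h2 hS0
            exact Real.rpow_le_rpow (by positivity) h4 (by linarith)
          _ = _ := by ring
      have huv' : (u : ℝ) ≤ v := by exact_mod_cast huv
      rw [EQ.diff u v huv (fun p => ψ (p : ZMod (r + 1)))]
      calc _ ≤ ‖∑ p ∈ (Icc 1 v).filter Nat.Prime, ψ (p : ZMod (r + 1))‖
            + ‖∑ p ∈ (Icc 1 u).filter Nat.Prime, ψ (p : ZMod (r + 1))‖ := norm_sub_le _ _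
        _ ≤ x₂ / S / m + x₂ / S / m :=
          add_le_add (hone v (by linarith) hvx) (hone u hut (by linarith))
        _ = _ := by ring
    · have : Ioc u v = ∅ := Finset.Ioc_eq_empty (fun h => huv h.le)
      rw [this, Finset.filter_empty, Finset.sum_empty, norm_zero]
      positivity
  -- the sum over `m`
  have hFF : ∀ m : ℕ, 0 ≤ FF N (e0 / Q) c' m ∧ FF N (e0 / Q) c' m ≤ F := fun m =>
    ⟨FFB.FF_nonneg N (e0 / Q) c' m, FFB.FF_le N (e0 / Q) (by omega) c' m⟩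
  have hharm : ∑ m ∈ Icc 1 ⌊x₂⌋₊, (1 : ℝ) / (m : ℝ) ≤ 4 * Real.log N := by
    have h1 : ((harmonic ⌊x₂⌋₊ : ℚ) : ℝ) ≤ 1 + Real.log ⌊x₂⌋₊ := harmonic_le_one_add_log _
    have h2 : ((harmonic ⌊x₂⌋₊ : ℚ) : ℝ) = ∑ m ∈ Icc 1 ⌊x₂⌋₊, (1 : ℝ) / (m : ℝ) := by
      rw [harmonic_eq_sum_Icc]
      push_cast
      apply Finset.sum_congr rfl
      intro m _
      rw [one_div]
    have h3 : 1 ≤ ⌊x₂⌋₊ := Nat.le_floor (by push_cast; linarith)
    have h4 : Real.log ⌊x₂⌋₊ ≤ 3 * Real.log N := by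
      calc Real.log ⌊x₂⌋₊ ≤ Real.log ((N : ℝ) ^ 3) := by
            apply Real.log_le_log (by exact_mod_cast h3)
            exact le_trans (Nat.floor_le hx20) hx'
        _ = 3 * Real.log N := by rw [Real.log_pow]; norm_num
    rw [← h2]
    linarith
  have hψ1 : ∀ m : ℕ, ‖ψ (m : ZMod (r + 1))‖ ≤ 1 := fun m => DirichletCharacter.norm_le_one ψ _
  rw [EQ.total N (e0 / Q) i c' x₁ x₂ hx20 (fun l => ψ (l : ZMod (r + 1)))
    (fun m p => by push_cast; rw [map_mul])]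
  calc _ ≤ ∑ m ∈ Icc 1 ⌊x₂⌋₊, F * 1 * (2 * x₂ / S / m) := by
        refine le_trans (norm_sum_le _ _) (Finset.sum_le_sum fun m hm => ?_)
        rw [norm_mul, norm_mul, Complex.norm_real, Real.norm_eq_abs, abs_of_nonneg (hFF m).1]
        apply mul_le_mul _ (hin m (Finset.mem_Icc.mp hm).1) (norm_nonneg _) (by positivity)
        exact mul_le_mul (hFF m).2 (hψ1 m) (norm_nonneg _) hFp.le
    _ = 2 * F * x₂ / S * ∑ m ∈ Icc 1 ⌊x₂⌋₊, (1 : ℝ) / (m : ℝ) := by
        rw [Finset.mul_sum]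
        apply Finset.sum_congr rfl
        intro m _
        ring
    _ ≤ 2 * F * x₂ / S * (4 * Real.log N) := mul_le_mul_of_nonneg_left hharm (by positivity)
    _ ≤ x₂ / (Real.log N) ^ B := by
        rw [le_div_iff₀ (by positivity), div_mul_eq_mul_div, div_mul_eq_mul_div, div_le_iff₀ hS0]
        have h5 : S = (e0 / 2) ^ (B + 2) * ((Real.log N) ^ B * (Real.log N) ^ 2) := by
          rw [hSd, Real.mul_rpow (by positivity) hlog0.le, Real.rpow_add hlog0]
          norm_num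
        rw [h5]
        have h6 : 8 * F ≤ (e0 / 2) ^ (B + 2) * Real.log N := by
          rw [mul_inv_le_iff₀ (by positivity)] at hlg2
          linarith
        have h7 : 0 ≤ x₂ * ((Real.log N) ^ B * Real.log N) := by positivity
        nlinarith [mul_le_mul_of_nonneg_right h6 h7]

end Pool.Agent.Lib.MP391708.U
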