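import Pool.Agent.Lib.MP_391708_nt.U.SpecU
import Pool.Agent.Lib.SW.Spec

/-! # Project U, module SWP: Siegel-Walfisz for primes with real exponents -/

set_option autoImplicit false

namespace Pool.Agent.Lib.MP391708.U

open Finset Filter Topology

theorem specSWP (hSW : Pool.Agent.Lib.SW.SpecSW) : SpecSWP := by
  intro C B hC hB
  obtain ⟨x₀, hx₀⟩ := hSW ⌈C⌉₊ ⌈B⌉₊
  refine ⟨max x₀ (Real.exp 1), fun x hx r hr χ hχ => ?_⟩
  have h1 : x₀ ≤ x := le_trans (le_max_left _ _) hx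
  have h2 : Real.exp 1 ≤ x := le_trans (le_max_right _ _) hx
  have hx0 : 0 < x := lt_of_lt_of_le (Real.exp_pos 1) h2
  have hlog : 1 ≤ Real.log x := by
    rw [Real.le_log_iff_exp_le hx0]; exact h2
  have hr' : (((r + 1 : ℕ)) : ℝ) ≤ (Real.log x) ^ ⌈C⌉₊ := by
    push_cast
    refine le_trans hr ?_
    rw [← Real.rpow_natCast]
    exact Real.rpow_le_rpow_of_exponent_le hlog (Nat.le_ceil C)
  have h3 := (hx₀ x h1 (r + 1) hr' χ hχ).2.2
  refine le_trans h3 ?_
  apply div_le_div_of_nonneg_left hx0.le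
  · positivity
  · rw [← Real.rpow_natCast]
    exact Real.rpow_le_rpow_of_exponent_le hlog (Nat.le_ceil B)

end Pool.Agent.Lib.MP391708.U
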