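import Pool.Agent.Lib.SW.Main
import Pool.Agent.Lib.MP_391708_nt.U.SWP
import Pool.Agent.Lib.MP_391708_nt.U.EQU

/-! # Project U, part U1, without hypotheses -/

set_option autoImplicit false

namespace Pool.Agent.Lib.MP391708.U

theorem swp : SpecSWP := specSWP Pool.Agent.Lib.SW.siegelWalfisz
theorem equ : SpecEQU := specEQU swp

end Pool.Agent.Lib.MP391708.U
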