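import Pool.Agent.Lib.MP_391708_nt.U.SpecU2

/-!
# Project U (MP_391708), part U2: Brun's truncated sum
-/

set_option autoImplicit false

namespace Pool.Agent.Lib.MP391708.U

open Finset Filter Topology Pool.Agent.Lib.MP391708.QPA
open scoped Classical

noncomputable section

namespace BRUM

/-- `μ` of a squarefree number -/
theorem mob (t : ℕ) (ht : Squarefree t) :
    (ArithmeticFunction.moebius t : ℤ) = (-1) ^ t.primeFactors.card := by
  rw [ArithmeticFunction.moebius_apply_of_squarefree ht]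
  congr 1
  rw [← (ArithmeticFunction.cardDistinctFactors_eq_cardFactors_iff_squarefree ht.ne_zero).2 ht,
    ArithmeticFunction.cardDistinctFactors_apply]
  rfl

/-- the small prime factors -/
def P (w : ℝ) (k : ℕ) : Finset ℕ := k.primeFactors.filter (fun p : ℕ => (p : ℝ) < w)

theorem prime_of_subset {w : ℝ} {k : ℕ} {s : Finset ℕ} (hs : s ⊆ P w k) : ∀ p ∈ s, p.Prime :=
  fun _ hp => Nat.prime_of_mem_primeFactors (mem_filter.1 (hs hp)).1

theorem bru_sum (w : ℝ) (b k : ℕ) (hk : 1 ≤ k) :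
    bru w b k = ∑ s ∈ (P w k).powerset, (if s.card ≤ 2 * b then ((-1 : ℝ)) ^ s.card else 0) := by
  rw [← sum_filter, bru]
  refine sum_nbij' (fun t => t.primeFactors) (fun s => ∏ p ∈ s, p) ?_ ?_ ?_ ?_ ?_
  · intro t ht
    obtain ⟨h1, h2, h3, h4⟩ := mem_filter.1 ht
    refine mem_filter.2 ⟨mem_powerset.2 fun p hp => ?_, h4⟩
    have h5 := Nat.prime_of_mem_primeFactors hp
    have h6 := Nat.dvd_of_mem_primeFactors hp
    exact mem_filter.2 ⟨Nat.mem_primeFactors.2 ⟨h5, h6.trans (Nat.dvd_of_mem_divisors h1),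
      by omega⟩, h3 p h5 h6⟩
  · intro s hs
    obtain ⟨h1, h2⟩ := mem_filter.1 hs
    have h3 := mem_powerset.1 h1
    have h4 := prime_of_subset h3
    have h5 : (∏ p ∈ s, p).primeFactors = s := Nat.primeFactors_prod h4
    refine mem_filter.2 ⟨Nat.mem_divisors.2 ⟨?_, by omega⟩, ?_, ?_, by rw [h5]; exact h2⟩
    · exact (prod_dvd_prod_of_subset _ _ _ (h3.trans (filter_subset _ _))).trans
        (Nat.prod_primeFactors_dvd k)
    · refine Finset.squarefree_prod_of_pairwise_isCoprime (fun p hp q hq hpq => ?_)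
        (fun p hp => (h4 p hp).prime.squarefree)
      simp only [Function.onFun, ← Nat.coprime_iff_isRelPrime]
      exact (Nat.coprime_primes (h4 p hp) (h4 q hq)).2 hpq
    · intro p hp hpd
      have h6 : p ∈ s := by
        rw [← h5]
        exact Nat.mem_primeFactors.2 ⟨hp, hpd, prod_ne_zero_iff.2 fun q hq => (h4 q hq).ne_zero⟩
      exact (mem_filter.1 (h3 h6)).2
  · intro t ht
    exact Nat.prod_primeFactors_of_squarefree (mem_filter.1 ht).2.1
  · intro s hs
    exact Nat.primeFactors_prod (prime_of_subset (mem_powerset.1 (mem_filter.1 hs).1))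
  · intro t ht
    rw [mob t (mem_filter.1 ht).2.1]
    push_cast
    rfl

theorem bru_choose (w : ℝ) (b k : ℕ) (hk : 1 ≤ k) :
    bru w b k = ((∑ m ∈ range (2 * b + 1), ((-1) ^ m * (osm w k).choose m : ℤ) : ℤ) : ℝ) := by
  rw [bru_sum w b k hk, sum_powerset_apply_card (fun m => if m ≤ 2 * b then ((-1 : ℝ)) ^ m else 0)]
  have h0 : (P w k).card = osm w k := rfl
  rw [h0]
  push_cast
  have h1 : ∑ m ∈ range (osm w k + 1), (osm w k).choose m • (if m ≤ 2 * b then ((-1 : ℝ)) ^ m else 0)
      = ∑ m ∈ (range (osm w k + 1)).filter (fun m => m ≤ 2 * b),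
        ((-1 : ℝ)) ^ m * ((osm w k).choose m : ℝ) := by
    rw [sum_filter]
    refine sum_congr rfl fun m _ => ?_
    split_ifs <;> simp [mul_comm]
  rw [h1]
  refine sum_subset (fun m hm => ?_) (fun m hm hm' => ?_)
  · have := (mem_filter.1 hm).2
    exact mem_range.2 (by omega)
  · have h2 : osm w k < m := by
      by_contra h3
      have h4 := mem_range.1 hm
      exact hm' (mem_filter.2 ⟨mem_range.2 (by omega), by omega⟩)
    rw [Nat.choose_eq_zero_of_lt h2]
    simp

/-- Brun's sum for `j = osm w k ≥ 1` small primes -/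
theorem bru_succ (w : ℝ) (b k n : ℕ) (hk : 1 ≤ k) (hn : osm w k = n + 1) :
    bru w b k = (n.choose (2 * b) : ℝ) := by
  rw [bru_choose w b k hk, hn, Int.alternating_sum_range_choose_eq_choose]
  rw [pow_mul]
  norm_num

theorem bru_zero (w : ℝ) (b k : ℕ) (hk : 1 ≤ k) (hn : osm w k = 0) : bru w b k = 1 := by
  rw [bru_choose w b k hk, hn, sum_eq_single 0]
  · simp
  · intro m _ hm
    rw [Nat.choose_eq_zero_of_lt (by omega)]
    simp
  · intro h
    exact absurd (mem_range.2 (by omega)) h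

/-- the number of terms -/
theorem bru_le (w : ℝ) (b k : ℕ) : bru w b k ≤ ta k := by
  have h1 : ∀ t : ℕ, (ArithmeticFunction.moebius t : ℝ) ≤ 1 := fun t => by
    have h2 := ArithmeticFunction.abs_moebius_le_one (n := t)
    exact_mod_cast (abs_le.1 h2).2
  refine (sum_le_sum fun t _ => h1 t).trans ?_
  rw [sum_const, nsmul_eq_mul, mul_one]
  rw [ta]
  exact Nat.cast_le.2 (card_le_card (filter_subset _ _))

end BRUM

open BRUM in
/-- BRU: Brun's truncated sum. -/
theorem specBRU : SpecBRU := by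
  intro w b k hk
  refine ⟨?_, bru_le w b k, fun hR => bru_zero w b k hk ?_, fun hR hne => ?_⟩
  · rcases Nat.eq_zero_or_pos (osm w k) with h | h
    · rw [bru_zero w b k hk h]
      exact zero_le_one
    · obtain ⟨n, hn⟩ := Nat.exists_eq_succ_of_ne_zero h.ne'
      rw [bru_succ w b k n hk hn]
      exact Nat.cast_nonneg _
  · refine card_eq_zero.2 (filter_eq_empty_iff.2 fun p hp => not_lt.2 ?_)
    exact hR p (Nat.prime_of_mem_primeFactors hp) (Nat.dvd_of_mem_primeFactors hp)
  · have h : 0 < osm w k := by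
      unfold Rough at hR
      push Not at hR
      obtain ⟨p, hp, hpk, hpw⟩ := hR
      exact card_pos.2 ⟨p, mem_filter.2 ⟨Nat.mem_primeFactors.2 ⟨hp, hpk, by omega⟩, hpw⟩⟩
    obtain ⟨n, hn⟩ := Nat.exists_eq_succ_of_ne_zero h.ne'
    rw [bru_succ w b k n hk hn] at hne
    by_contra hlt
    apply hne
    rw [Nat.choose_eq_zero_of_lt (by omega)]
    simp

end

end Pool.Agent.Lib.MP391708.U
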