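import Pool.Agent.Lib.MP_391708_nt.U.SpecU2

/-!
# Project U (MP_391708), part U2, module FJB: the Fourier coefficients of the tent
-/

set_option autoImplicit false

namespace Pool.Agent.Lib.MP391708.U

open Finset Filter Topology Pool.Agent.Lib.MP391708.QPA
open scoped Classical

noncomputable section

namespace FJBM

/-- Jordan's inequality in the form needed. -/
theorem jordan (P h : ℝ) (h0 : 0 < h) (hP : h < P) :
    2 * min h (P - h) / P ≤ Real.sin (Real.pi * h / P) := by
  have hP0 : 0 < P := h0.trans hP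
  have hpi := Real.pi_pos
  rcases le_total h (P - h) with hc | hc
  · rw [min_eq_left hc]
    have hx' : Real.pi * h / P ≤ Real.pi / 2 := by
      rw [div_le_iff₀ hP0]
      nlinarith
    have := Real.mul_le_sin (x := Real.pi * h / P) (by positivity) hx'
    calc 2 * h / P = 2 / Real.pi * (Real.pi * h / P) := by field_simp
      _ ≤ _ := this
  · rw [min_eq_right hc]
    have hx' : Real.pi * (P - h) / P ≤ Real.pi / 2 := by
      rw [div_le_iff₀ hP0]
      nlinarith
    have h2 : 0 ≤ Real.pi * (P - h) / P := by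
      apply div_nonneg _ hP0.le
      exact mul_nonneg hpi.le (by linarith)
    have := Real.mul_le_sin (x := Real.pi * (P - h) / P) h2 hx'
    have e : Real.pi * (P - h) / P = Real.pi - Real.pi * h / P := by
      field_simp
    calc 2 * (P - h) / P = 2 / Real.pi * (Real.pi * (P - h) / P) := by field_simp
      _ ≤ _ := this
      _ = _ := by rw [e, Real.sin_pi_sub]

theorem ex_zero : ex 0 = 1 := by
  unfold ex
  simp

theorem ex_add (x y : ℝ) : ex (x + y) = ex x * ex y := by
  unfold ex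
  rw [← Complex.exp_add]
  congr 1
  push_cast
  ring

theorem ex_nat_mul (n : ℕ) (x : ℝ) : ex (n * x) = ex x ^ n := by
  unfold ex
  rw [← Complex.exp_nat_mul]
  congr 1
  push_cast
  ring

theorem ex_int (n : ℤ) : ex n = 1 := by
  unfold ex
  rw [Complex.exp_eq_one_iff]
  exact ⟨n, by push_cast; ring⟩

theorem ex_conj (x : ℝ) : (starRingEnd ℂ) (ex x) = ex (-x) := by
  unfold ex
  rw [← Complex.exp_conj]
  congr 1
  have h2 : (starRingEnd ℂ) 2 = 2 := Complex.conj_ofNat 2
  simp [h2]

theorem ex_eq (x : ℝ) : ex x = Complex.exp (Complex.I * ((2 * Real.pi * x : ℝ) : ℂ)) := by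
  unfold ex
  congr 1
  push_cast
  ring

theorem norm_ex (x : ℝ) : ‖ex x‖ = 1 := by
  rw [ex_eq, Complex.norm_exp_I_mul_ofReal]

/-- The geometric sum. -/
theorem geo (N m b : ℕ) (h0 : 0 < b) (hm : b < m) :
    ‖∑ i ∈ range N, ex (((b : ℤ) : ℝ) * i / m)‖ ≤ (m : ℝ) / (2 * min (b : ℝ) ((m : ℝ) - b)) := by
  have hP0 : (0 : ℝ) < m := by exact_mod_cast h0.trans hm
  have h0' : (0 : ℝ) < b := by exact_mod_cast h0
  have hP' : (b : ℝ) < m := by exact_mod_cast hm
  set z : ℂ := ex ((b : ℝ) / m) with hz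
  have hsum : ∑ i ∈ range N, ex (((b : ℤ) : ℝ) * i / m) = ∑ i ∈ range N, z ^ i := by
    apply Finset.sum_congr rfl
    intro i _
    rw [hz, ← ex_nat_mul]
    congr 1
    push_cast
    ring
  have hnz : ‖z‖ = 1 := norm_ex _
  have hm0 : 0 < min (b : ℝ) ((m : ℝ) - b) := lt_min h0' (by linarith)
  have hj := jordan m b h0' hP'
  have hz2 : 4 * min (b : ℝ) ((m : ℝ) - b) / m ≤ ‖z - 1‖ := by
    rw [hz, ex_eq, Complex.norm_exp_I_mul_ofReal_sub_one, norm_mul, Real.norm_eq_abs,
      Real.norm_eq_abs, abs_of_pos (by norm_num : (0 : ℝ) < 2)]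
    have e : 2 * Real.pi * ((b : ℝ) / m) / 2 = Real.pi * b / m := by ring
    rw [e]
    have := le_abs_self (Real.sin (Real.pi * b / m))
    calc 4 * min (b : ℝ) ((m : ℝ) - b) / m = 2 * (2 * min (b : ℝ) ((m : ℝ) - b) / m) := by ring
      _ ≤ 2 * |Real.sin (Real.pi * b / m)| := by linarith
  have hpos : 0 < 4 * min (b : ℝ) ((m : ℝ) - b) / m := by positivity
  have hne : z ≠ 1 := by
    intro hc
    rw [hc, sub_self, norm_zero] at hz2
    linarith
  rw [hsum, geom_sum_eq hne, norm_div]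
  have hnum : ‖z ^ N - 1‖ ≤ 2 := by
    calc ‖z ^ N - 1‖ ≤ ‖z ^ N‖ + ‖(1 : ℂ)‖ := norm_sub_le _ _
      _ = 2 := by rw [norm_pow, hnz]; norm_num
  calc ‖z ^ N - 1‖ / ‖z - 1‖ ≤ 2 / (4 * min (b : ℝ) ((m : ℝ) - b) / m) :=
        div_le_div₀ (by norm_num) hnum hpos hz2
    _ = _ := by
        field_simp
        norm_num

end FJBM

open FJBM in
theorem specFJB : SpecFJB := by
  intro N m hN hm
  have hN0 : (0 : ℝ) < N := by exact_mod_cast hN
  have hm0 : (0 : ℝ) < m := by exact_mod_cast hm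
  refine ⟨?_, ?_, ?_, ?_⟩
  · unfold fj
    have h1 : ∑ i ∈ range N, ex (((0 : ℤ) : ℝ) * i / m) = (N : ℂ) := by
      rw [Finset.sum_congr rfl (g := fun _ => (1 : ℂ))]
      · simp
      · intro i _
        rw [show ((0 : ℤ) : ℝ) * i / m = 0 by simp, ex_zero]
    rw [h1, Complex.norm_natCast]
    field_simp
  · intro b hb hbm
    have h0' : (0 : ℝ) < b := by exact_mod_cast hb
    have hP' : (b : ℝ) < m := by exact_mod_cast hbm
    have hmin : 0 < min (b : ℝ) ((m : ℝ) - b) := lt_min h0' (by linarith)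
    refine ⟨by unfold fj; positivity, ?_⟩
    unfold fj
    have hg := geo N m b hb hbm
    have h2 : ‖∑ i ∈ range N, ex (((b : ℤ) : ℝ) * i / m)‖ ^ 2
        ≤ ((m : ℝ) / (2 * min (b : ℝ) ((m : ℝ) - b))) ^ 2 :=
      pow_le_pow_left₀ (norm_nonneg _) hg 2
    calc ‖∑ i ∈ range N, ex (((b : ℤ) : ℝ) * i / m)‖ ^ 2 / ((m : ℝ) * N)
        ≤ ((m : ℝ) / (2 * min (b : ℝ) ((m : ℝ) - b))) ^ 2 / ((m : ℝ) * N) :=
          div_le_div_of_nonneg_right h2 (by positivity)
      _ = m / (4 * N * (min (b : ℝ) ((m : ℝ) - b)) ^ 2) := by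
          field_simp
          norm_num
  · intro b
    constructor
    · unfold fj
      congr 3
      apply Finset.sum_congr rfl
      intro i _
      have e : (((b - m : ℤ)) : ℝ) * i / m = (b : ℝ) * i / m + ((-(i : ℤ) : ℤ) : ℝ) := by
        push_cast
        field_simp
        ring
      rw [e, ex_add, ex_int, mul_one]
    · unfold fj
      congr 2
      rw [← Complex.norm_conj (∑ i ∈ range N, ex ((b : ℝ) * i / m)), map_sum]
      congr 1
      apply Finset.sum_congr rfl
      intro i _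
      rw [ex_conj]
      congr 1
      push_cast
      ring
  · intro b
    unfold fj
    push_cast
    rw [← Complex.mul_conj', map_sum, Finset.sum_mul_sum]
    rw [div_eq_mul_one_div, mul_comm]
    congr 1
    apply Finset.sum_congr rfl
    intro i _
    apply Finset.sum_congr rfl
    intro j _
    rw [ex_conj, ← ex_add]
    congr 1
    ring

end

end Pool.Agent.Lib.MP391708.U
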