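import Pool.Agent.Lib.MP_391708_nt.U.SpecU2

/-!
# Project U, module MAI: the part of the `k` not prime to `δ`
-/

set_option autoImplicit false

namespace Pool.Agent.Lib.MP391708.U

open Finset Filter Topology Pool.Agent.Lib.MP391708.QPA
open scoped Classical

noncomputable section

namespace MAIM

theorem ta_one_le {k : ℕ} (hk : 1 ≤ k) : 1 ≤ ta k := by
  unfold ta
  have : 0 < k.divisors.card := Finset.card_pos.2 ⟨1, Nat.one_mem_divisors.2 (by omega)⟩
  exact_mod_cast this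

theorem two_pow_le {k : ℕ} (hk : 1 ≤ k) : (2 : ℝ) ^ (k.primeFactors.card) ≤ ta k := by
  unfold ta
  rw [Nat.card_divisors (by omega)]
  have h1 : ∏ _p ∈ k.primeFactors, 2 ≤ ∏ p ∈ k.primeFactors, (k.factorization p + 1) := by
    apply Finset.prod_le_prod'
    intro p hp
    rw [Nat.mem_primeFactors] at hp
    have := (hp.1.dvd_iff_one_le_factorization hp.2.2).1 hp.2.1
    omega
  rw [Finset.prod_const] at h1
  exact_mod_cast h1

theorem four_pow_le {w : ℝ} {b k : ℕ} (hk : 1 ≤ k) (h : 2 * b < osm w k) :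
    1 ≤ (1 / 4 : ℝ) ^ b * ta k := by
  have h1 : osm w k ≤ k.primeFactors.card := Finset.card_le_card (Finset.filter_subset _ _)
  have h2 : (4 : ℝ) ^ b ≤ ta k := by
    calc (4 : ℝ) ^ b = 2 ^ (2 * b) := by rw [pow_mul]; norm_num
      _ ≤ 2 ^ (k.primeFactors.card) := pow_le_pow_right₀ (by norm_num) (by omega)
      _ ≤ ta k := two_pow_le hk
  rw [one_div, inv_pow]
  have h3 : (0 : ℝ) < 4 ^ b := by positivity
  rw [inv_mul_eq_div, le_div_iff₀ h3, one_mul]
  exact h2

theorem Th_le {lam : ℕ → ℝ} (hl : ∀ d, |lam d| ≤ 1) (k : ℕ) : |Th lam k| ≤ ta k ^ 2 := by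
  unfold Th
  rw [abs_pow]
  apply pow_le_pow_left₀ (abs_nonneg _)
  refine (Finset.abs_sum_le_sum_abs _ _).trans ?_
  refine (Finset.sum_le_sum (fun d _ => hl d)).trans ?_
  rw [Finset.sum_const, nsmul_eq_mul, mul_one]
  exact le_rfl

theorem ta_prime {p : ℕ} (hp : p.Prime) : ta p = 2 := by
  unfold ta
  rw [hp.divisors, Finset.card_pair hp.one_lt.ne]
  norm_num

theorem card_P (w : ℝ) {δ : ℕ} (hδ : δ ≠ 0) :
    ((δ.primeFactors.filter (fun p : ℕ => w ≤ p)).card : ℝ) ≤ ta δ := by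
  unfold ta
  have h : δ.primeFactors.filter (fun p : ℕ => w ≤ p) ⊆ δ.divisors := by
    intro p hp
    rw [Finset.mem_filter, Nat.mem_primeFactors] at hp
    exact Nat.mem_divisors.2 ⟨hp.1.2.1, hδ⟩
  exact_mod_cast Finset.card_le_card h

end MAIM

open MAIM in
/-- **Module MAI**. -/
theorem specMAI (hBRU : SpecBRU) (hTAUM : SpecTAUM) (hRHB : SpecRHB) (hRHOM : QPA.SpecRHOM) :
    SpecMAI := by
  intro N b δ w a lam hN hw hδ hl
  have hδ0 : δ ≠ 0 := hδ.ne_zero
  have hδ1 : 1 ≤ δ := Nat.pos_of_ne_zero hδ0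
  have hδr : (0 : ℝ) < δ := by exact_mod_cast hδ1
  have htδ : 1 ≤ ta δ := ta_one_le hδ1
  have h4N : 1 ≤ 4 * N := by omega
  have hN1 : (1 : ℝ) ≤ N := by exact_mod_cast hN
  have hlog : 0 ≤ Real.log (4 * N) := Real.log_nonneg (by linarith)
  set P := δ.primeFactors.filter (fun p : ℕ => w ≤ p) with hP
  -- one term
  have hone : ∀ k ∈ (Icc 1 (4 * N)).filter (fun k => Nat.Coprime k (2 * a).natAbs),
      |ck w b lam k| * |(rho a (k * δ) : ℝ) / (k * δ) - (rho a k : ℝ) * rho a δ / (k * δ)| ≤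
      2 * ta δ / δ * ((∑ p ∈ P, if p ∣ k then ta k ^ 4 / (k : ℝ) else 0)
        + (1 / 4 : ℝ) ^ b * (ta k ^ 5 / k)) := by
    intro k hk
    rw [Finset.mem_filter, Finset.mem_Icc] at hk
    obtain ⟨⟨hk1, -⟩, hcop⟩ := hk
    have hkr : (0 : ℝ) < k := by exact_mod_cast hk1
    have htk : 1 ≤ ta k := ta_one_le hk1
    have hA0 : 0 ≤ ∑ p ∈ P, (if p ∣ k then ta k ^ 4 / (k : ℝ) else 0) := by
      apply Finset.sum_nonneg
      intro p _
      split_ifs <;> positivity
    have hB0 : 0 ≤ (1 / 4 : ℝ) ^ b * (ta k ^ 5 / k) := by positivity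
    have hR0 : 0 ≤ 2 * ta δ / δ * ((∑ p ∈ P, if p ∣ k then ta k ^ 4 / (k : ℝ) else 0)
        + (1 / 4 : ℝ) ^ b * (ta k ^ 5 / k)) := by positivity
    by_cases hc0 : ck w b lam k = 0
    · rw [hc0, abs_zero, zero_mul]
      exact hR0
    by_cases hco : Nat.Coprime k δ
    · have h1 := hRHOM a k δ hco hk1 hδ1
      rw [h1]
      push_cast
      rw [sub_self, abs_zero, mul_zero]
      exact hR0
    -- the general bound
    obtain ⟨r1, r2, r3⟩ := hRHB a k δ hk1 hcop hδ
    have hbr : |(rho a (k * δ) : ℝ) / (k * δ) - (rho a k : ℝ) * rho a δ / (k * δ)| ≤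
        2 * (ta k * ta δ) / (k * δ) := by
      have h1 : (rho a k : ℝ) * rho a δ ≤ ta k * ta δ :=
        mul_le_mul r2 r3 (Nat.cast_nonneg _) (by linarith)
      have h2 : (0 : ℝ) ≤ (rho a k : ℝ) * rho a δ := by positivity
      have h3 : (0 : ℝ) ≤ (rho a (k * δ) : ℝ) := Nat.cast_nonneg _
      rw [← sub_div, abs_div, abs_of_pos (show (0 : ℝ) < k * δ by positivity)]
      apply div_le_div_of_nonneg_right _ (by positivity)
      rw [abs_le]
      constructor <;> linarith
    obtain ⟨b1, b2, b3, b4⟩ := hBRU w b k hk1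
    have hck : |ck w b lam k| ≤ ta k ^ 3 := by
      unfold ck
      rw [abs_mul, abs_of_nonneg b1]
      calc bru w b k * |Th lam k| ≤ ta k * ta k ^ 2 :=
            mul_le_mul b2 (Th_le hl k) (abs_nonneg _) (by linarith)
        _ = ta k ^ 3 := by ring
    have hgen : |ck w b lam k| * |(rho a (k * δ) : ℝ) / (k * δ) -
        (rho a k : ℝ) * rho a δ / (k * δ)| ≤ 2 * ta δ / δ * (ta k ^ 4 / k) := by
      calc _ ≤ ta k ^ 3 * (2 * (ta k * ta δ) / (k * δ)) :=
            mul_le_mul hck hbr (abs_nonneg _) (by positivity)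
        _ = 2 * ta δ / δ * (ta k ^ 4 / k) := by
            field_simp
    refine hgen.trans ?_
    apply mul_le_mul_of_nonneg_left _ (by positivity)
    by_cases hr : Rough w k
    · -- a common prime
      have hg : Nat.gcd k δ ≠ 1 := hco
      obtain ⟨p, hp, hpd⟩ := Nat.exists_prime_and_dvd hg
      have hpk : p ∣ k := hpd.trans (Nat.gcd_dvd_left _ _)
      have hpδ : p ∣ δ := hpd.trans (Nat.gcd_dvd_right _ _)
      have hpP : p ∈ P := by
        rw [hP, Finset.mem_filter, Nat.mem_primeFactors]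
        exact ⟨⟨hp, hpδ, hδ0⟩, hr p hp hpk⟩
      have h1 : (if p ∣ k then ta k ^ 4 / (k : ℝ) else 0) ≤
          ∑ p ∈ P, (if p ∣ k then ta k ^ 4 / (k : ℝ) else 0) := by
        apply Finset.single_le_sum (f := fun p => if p ∣ k then ta k ^ 4 / (k : ℝ) else 0) _ hpP
        intro q _
        split_ifs <;> positivity
      rw [if_pos hpk] at h1
      linarith
    · have hb0 : bru w b k ≠ 0 := by
        intro h
        apply hc0
        unfold ck
        rw [h, zero_mul]
      have h1 := four_pow_le hk1 (b4 hr hb0)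
      have h2 : ta k ^ 4 / (k : ℝ) ≤ (1 / 4 : ℝ) ^ b * (ta k ^ 5 / k) := by
        calc ta k ^ 4 / (k : ℝ) = 1 * (ta k ^ 4 / (k : ℝ)) := (one_mul _).symm
          _ ≤ ((1 / 4 : ℝ) ^ b * ta k) * (ta k ^ 4 / (k : ℝ)) :=
              mul_le_mul_of_nonneg_right h1 (by positivity)
          _ = (1 / 4 : ℝ) ^ b * (ta k ^ 5 / k) := by ring
      linarith
  refine (Finset.sum_le_sum hone).trans ?_
  have hext : ∑ k ∈ (Icc 1 (4 * N)).filter (fun k => Nat.Coprime k (2 * a).natAbs),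
      2 * ta δ / δ * ((∑ p ∈ P, if p ∣ k then ta k ^ 4 / (k : ℝ) else 0)
        + (1 / 4 : ℝ) ^ b * (ta k ^ 5 / k)) ≤
      ∑ k ∈ Icc 1 (4 * N), 2 * ta δ / δ * ((∑ p ∈ P, if p ∣ k then ta k ^ 4 / (k : ℝ) else 0)
        + (1 / 4 : ℝ) ^ b * (ta k ^ 5 / k)) := by
    apply Finset.sum_le_sum_of_subset_of_nonneg (Finset.filter_subset _ _)
    intro k _ _
    have ht : 0 ≤ ta k := Nat.cast_nonneg _
    have hA0 : 0 ≤ ∑ p ∈ P, (if p ∣ k then ta k ^ 4 / (k : ℝ) else 0) := by
      apply Finset.sum_nonneg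
      intro p _
      split_ifs <;> positivity
    positivity
  refine hext.trans ?_
  rw [← Finset.mul_sum]
  apply mul_le_mul_of_nonneg_left _ (by positivity)
  rw [Finset.sum_add_distrib, Finset.sum_comm, ← Finset.mul_sum]
  have hcast : ((4 * N : ℕ) : ℝ) = 4 * (N : ℝ) := by push_cast; ring
  apply add_le_add
  · have h1 : ∀ p ∈ P, ∑ k ∈ Icc 1 (4 * N), (if p ∣ k then ta k ^ 4 / (k : ℝ) else 0) ≤
        16 / w * (1 + Real.log (4 * N)) ^ 16 := by
      intro p hp
      rw [hP, Finset.mem_filter, Nat.mem_primeFactors] at hp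
      have hpp := hp.1.1
      have hw0 : 0 < w := by linarith
      have h2 := hTAUM 4 (4 * N) p h4N hpp.one_lt.le
      rw [ta_prime hpp, hcast] at h2
      rw [← Finset.sum_filter]
      have h3 : (2 : ℝ) ^ 4 / p ≤ 16 / w := by
        have h4 : (2 : ℝ) ^ 4 = 16 := by norm_num
        rw [h4]
        exact div_le_div_of_nonneg_left (by norm_num) hw0 hp.2
      have h5 : (2 : ℕ) ^ 4 = 16 := by norm_num
      rw [h5] at h2
      refine h2.trans ?_
      exact mul_le_mul_of_nonneg_right h3 (by positivity)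
    refine (Finset.sum_le_sum h1).trans ?_
    rw [Finset.sum_const, nsmul_eq_mul]
    have h2 := card_P w hδ0
    rw [← hP] at h2
    have h3 : 0 ≤ 16 / w * (1 + Real.log (4 * N)) ^ 16 := by
      have : 0 < w := by linarith
      positivity
    calc (P.card : ℝ) * (16 / w * (1 + Real.log (4 * N)) ^ 16)
        ≤ ta δ * (16 / w * (1 + Real.log (4 * N)) ^ 16) := mul_le_mul_of_nonneg_right h2 h3
      _ = 16 * ta δ / w * (1 + Real.log (4 * N)) ^ 16 := by ring
  · apply mul_le_mul_of_nonneg_left _ (by positivity)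
    have h2 := hTAUM 5 (4 * N) 1 h4N le_rfl
    have h3 : (Icc 1 (4 * N)).filter (fun k => 1 ∣ k) = Icc 1 (4 * N) := by
      apply Finset.filter_true_of_mem
      intro k _
      exact one_dvd k
    have h4 : ta 1 = 1 := by
      unfold ta
      rw [Nat.divisors_one]
      simp
    have h5 : (2 : ℕ) ^ 5 = 32 := by norm_num
    rw [h3, h4, hcast, h5] at h2
    simpa using h2

end

end Pool.Agent.Lib.MP391708.U
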