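import Pool.Agent.Lib.MP_391708_nt.U.SpecU2

/-!
# Project U (MP_391708), part U2, module RHB: `ρ_a(k δ) ≤ τ(k) τ(δ)`
-/

set_option autoImplicit false

namespace Pool.Agent.Lib.MP391708.U

open Finset Filter Topology Pool.Agent.Lib.MP391708.QPA
open scoped Classical

noncomputable section

namespace RHBM

/-- the cofactor of the gcd divides the other factor -/
theorem cof (k m n : ℕ) (hk : 1 ≤ k) (h : k ∣ m * n) : k / Nat.gcd k m ∣ n := by
  have hg : 0 < Nat.gcd k m := Nat.gcd_pos_of_pos_left _ hk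
  have hc := Nat.coprime_div_gcd_div_gcd hg
  refine hc.dvd_of_dvd_mul_left ?_
  have h1 : k = Nat.gcd k m * (k / Nat.gcd k m) := (Nat.mul_div_cancel' (Nat.gcd_dvd_left k m)).symm
  have h2 : m = Nat.gcd k m * (m / Nat.gcd k m) := (Nat.mul_div_cancel' (Nat.gcd_dvd_right k m)).symm
  have h3 : Nat.gcd k m * (k / Nat.gcd k m) ∣ Nat.gcd k m * (m / Nat.gcd k m * n) := by
    rw [← h1, ← mul_assoc, ← h2]
    exact h
  exact Nat.dvd_of_mul_dvd_mul_left hg h3

theorem key (k : ℕ) (a x y : ℤ) (hk : 1 ≤ k) (hc : Nat.Coprime k (2 * a).natAbs)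
    (hx : (k : ℤ) ∣ x ^ 2 + a) (hy : (k : ℤ) ∣ y ^ 2 + a) :
    ((Nat.gcd k (x - y).natAbs : ℕ) : ℤ) ∣ x - y ∧
    ((k / Nat.gcd k (x - y).natAbs : ℕ) : ℤ) ∣ x + y ∧
    Nat.Coprime (Nat.gcd k (x - y).natAbs) (k / Nat.gcd k (x - y).natAbs) := by
  have h1 : (k : ℤ) ∣ (x - y) * (x + y) := by
    have := dvd_sub hx hy
    have h2 : x ^ 2 + a - (y ^ 2 + a) = (x - y) * (x + y) := by ring
    rwa [h2] at this
  have h2 : k ∣ (x - y).natAbs * (x + y).natAbs := by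
    rw [← Int.natAbs_mul]
    exact Int.natCast_dvd.1 h1
  have h3 := cof k _ _ hk h2
  have hg1 : ((Nat.gcd k (x - y).natAbs : ℕ) : ℤ) ∣ x - y :=
    Int.natCast_dvd.2 (Nat.gcd_dvd_right k _)
  have hh1 : ((k / Nat.gcd k (x - y).natAbs : ℕ) : ℤ) ∣ x + y := Int.natCast_dvd.2 h3
  refine ⟨hg1, hh1, ?_⟩
  rw [Nat.coprime_iff_gcd_eq_one]
  by_contra hne
  obtain ⟨p, hp, hpd⟩ := Nat.exists_prime_and_dvd hne
  have hpg : p ∣ Nat.gcd k (x - y).natAbs := hpd.trans (Nat.gcd_dvd_left _ _)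
  have hph : p ∣ k / Nat.gcd k (x - y).natAbs := hpd.trans (Nat.gcd_dvd_right _ _)
  have hpk : p ∣ k := hpg.trans (Nat.gcd_dvd_left _ _)
  have hp1 : (p : ℤ) ∣ x - y := (Int.natCast_dvd_natCast.2 hpg).trans hg1
  have hp2 : (p : ℤ) ∣ x + y := (Int.natCast_dvd_natCast.2 hph).trans hh1
  have hp3 : (p : ℤ) ∣ 2 * y := by
    have := dvd_sub hp2 hp1
    have h4 : x + y - (x - y) = 2 * y := by ring
    rwa [h4] at this
  have hpp : Prime (p : ℤ) := Nat.prime_iff_prime_int.1 hp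
  have hpa : (p : ℤ) ∣ 2 * a := by
    rcases hpp.dvd_or_dvd hp3 with h5 | h5
    · exact h5.mul_right a
    · have h6 : (p : ℤ) ∣ y ^ 2 + a := (Int.natCast_dvd_natCast.2 hpk).trans hy
      have h7 : (p : ℤ) ∣ y ^ 2 := h5.trans (dvd_pow_self y two_ne_zero)
      exact ((dvd_add_right h7).1 h6).mul_left 2
  have hp4 : p ∣ (2 * a).natAbs := Int.natCast_dvd.1 hpa
  have hp5 := Nat.dvd_gcd hpk hp4
  rw [hc] at hp5
  exact hp.one_lt.ne' (Nat.dvd_one.1 hp5)

theorem rho_le (a : ℤ) (k : ℕ) (hk : 1 ≤ k) (hc : Nat.Coprime k (2 * a).natAbs) :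
    rho a k ≤ k.divisors.card := by
  unfold rho
  rcases ((range k).filter (fun ν : ℕ => (k : ℤ) ∣ (ν : ℤ) ^ 2 + a)).eq_empty_or_nonempty with h0 | ⟨y, hy⟩
  · rw [h0, card_empty]
    exact Nat.zero_le _
  · rw [mem_filter, mem_range] at hy
    refine card_le_card_of_injOn (fun ν : ℕ => Nat.gcd k ((ν : ℤ) - y).natAbs) ?_ ?_
    · intro ν _
      exact Nat.mem_divisors.2 ⟨Nat.gcd_dvd_left _ _, by omega⟩
    · intro ν hν μ hμ hνμ
      have hν1 : ν < k ∧ (k : ℤ) ∣ (ν : ℤ) ^ 2 + a := by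
        have := mem_filter.1 (mem_coe.1 hν)
        exact ⟨mem_range.1 this.1, this.2⟩
      have hμ1 : μ < k ∧ (k : ℤ) ∣ (μ : ℤ) ^ 2 + a := by
        have := mem_filter.1 (mem_coe.1 hμ)
        exact ⟨mem_range.1 this.1, this.2⟩
      have hνμ' : Nat.gcd k ((ν : ℤ) - y).natAbs = Nat.gcd k ((μ : ℤ) - y).natAbs := hνμ
      obtain ⟨a1, a2, a3⟩ := key k a ν y hk hc hν1.2 hy.2
      obtain ⟨b1, b2, b3⟩ := key k a μ y hk hc hμ1.2 hy.2
      rw [← hνμ'] at b1 b2 b3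
      have c1 : ((Nat.gcd k ((ν : ℤ) - y).natAbs : ℕ) : ℤ) ∣ (ν : ℤ) - μ := by
        have := dvd_sub a1 b1
        have h4 : (ν : ℤ) - y - ((μ : ℤ) - y) = (ν : ℤ) - μ := by ring
        rwa [h4] at this
      have c2 : ((k / Nat.gcd k ((ν : ℤ) - y).natAbs : ℕ) : ℤ) ∣ (ν : ℤ) - μ := by
        have := dvd_sub a2 b2
        have h4 : (ν : ℤ) + y - ((μ : ℤ) + y) = (ν : ℤ) - μ := by ring
        rwa [h4] at this
      have c3 : (k : ℤ) ∣ (ν : ℤ) - μ := by
        have h5 := Nat.Coprime.mul_dvd_of_dvd_of_dvd a3 (Int.natCast_dvd.1 c1) (Int.natCast_dvd.1 c2)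
        rw [Nat.mul_div_cancel' (Nat.gcd_dvd_left _ _)] at h5
        exact Int.natCast_dvd.2 h5
      have h6 := Int.eq_zero_of_abs_lt_dvd c3 (by
        rw [abs_lt]
        constructor
        · have := hμ1.1
          omega
        · have := hν1.1
          omega)
      omega

theorem ta_mul_le (m n : ℕ) : (m * n).divisors.card ≤ m.divisors.card * n.divisors.card := by
  rw [Nat.divisors_mul]
  exact Finset.card_mul_le

/-- `2 ^ ω(d) ≤ τ(d)` -/
theorem two_pow_le (d : ℕ) (hd : d ≠ 0) : 2 ^ d.primeFactors.card ≤ d.divisors.card := by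
  rw [Nat.card_divisors hd]
  refine Finset.pow_card_le_prod _ _ _ (fun p hp => ?_)
  have := (Nat.prime_of_mem_primeFactors hp).factorization_pos_of_dvd hd
    (Nat.dvd_of_mem_primeFactors hp)
  omega

end RHBM

open RHBM in
/-- RHB. -/
theorem specRHB (hM : QPA.SpecRHOM) (hS : QPA.SpecRHOS) : SpecRHB := by
  intro a k δ hk hc hδ
  have hδ0 : 1 ≤ δ := Nat.pos_of_ne_zero hδ.ne_zero
  have hd : ∀ e : ℕ, Squarefree e → rho a e ≤ e.divisors.card := by
    intro e he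
    exact (hS a e he).trans (two_pow_le e he.ne_zero)
  have hk1 := rho_le a k hk hc
  refine ⟨?_, ?_, ?_⟩
  · have hg : Nat.gcd δ k ∣ δ := Nat.gcd_dvd_left _ _
    obtain ⟨δ₂, hδ₂⟩ := hg
    have hg0 : 1 ≤ Nat.gcd δ k := Nat.gcd_pos_of_pos_left _ hδ0
    have hsq : Squarefree (Nat.gcd δ k * δ₂) := by rw [← hδ₂]; exact hδ
    have hco : Nat.Coprime (Nat.gcd δ k) δ₂ := Nat.coprime_of_squarefree_mul hsq
    have hδ20 : 1 ≤ δ₂ := by
      rcases Nat.eq_zero_or_pos δ₂ with h | h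
      · rw [h, mul_zero] at hδ₂
        omega
      · exact h
    have hco2 : Nat.Coprime k δ₂ := by
      rw [Nat.coprime_iff_gcd_eq_one]
      by_contra hne
      obtain ⟨p, hp, hpd⟩ := Nat.exists_prime_and_dvd hne
      have hpk : p ∣ k := hpd.trans (Nat.gcd_dvd_left _ _)
      have hpd2 : p ∣ δ₂ := hpd.trans (Nat.gcd_dvd_right _ _)
      have hpδ : p ∣ δ := by rw [hδ₂]; exact hpd2.mul_left _
      have := Nat.dvd_gcd (Nat.dvd_gcd hpδ hpk) hpd2
      rw [hco] at this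
      exact hp.one_lt.ne' (Nat.dvd_one.1 this)
    have hco3 : Nat.Coprime (k * Nat.gcd δ k) δ₂ := Nat.Coprime.mul_left hco2 hco
    have hco4 : Nat.Coprime (k * Nat.gcd δ k) (2 * a).natAbs :=
      Nat.Coprime.mul_left hc (hc.coprime_dvd_left (Nat.gcd_dvd_right δ k))
    have e1 : k * δ = k * Nat.gcd δ k * δ₂ := by rw [mul_assoc, ← hδ₂]
    have e2 : rho a (k * δ) = rho a (k * Nat.gcd δ k) * rho a δ₂ := by
      rw [e1]
      exact hM a _ _ hco3 (Nat.mul_pos hk hg0) hδ20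
    have e3 : δ.divisors.card = (Nat.gcd δ k).divisors.card * δ₂.divisors.card := by
      conv_lhs => rw [hδ₂]
      exact hco.card_divisors_mul
    have e4 : rho a (k * δ) ≤ k.divisors.card * δ.divisors.card := by
      rw [e2, e3, ← mul_assoc]
      exact Nat.mul_le_mul ((rho_le a _ (Nat.mul_pos hk hg0) hco4).trans (ta_mul_le _ _))
        (hd _ (hsq.squarefree_of_dvd (Dvd.intro_left _ rfl)))
    unfold ta
    exact_mod_cast e4
  · unfold ta
    exact_mod_cast hk1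
  · unfold ta
    exact_mod_cast hd δ hδ

end

end Pool.Agent.Lib.MP391708.U
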