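import Pool.Agent.Lib.MP_391708_nt.U.SpecU2
import Pool.Agent.Lib.MP_391708_nt.Div

/-!
# Project U, part U2, module RSU: root sums by the divisor bound
-/

set_option autoImplicit false

namespace Pool.Agent.Lib.MP391708.U

open Finset Filter Topology Pool.Agent.Lib.MP391708.QPA
open scoped Classical

noncomputable section

namespace RSUM

/-- `m ∣ ν² + a` in terms of `val` -/
theorem dvd_iff (a : ℤ) (m ν : ℕ) : (m : ℤ) ∣ (ν : ℤ) ^ 2 + a ↔ m ∣ val a ν := by
  unfold QPA.val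
  exact Int.natCast_dvd

theorem val_ne (a : ℤ) (ha : ¬ IsSquare (-a)) (n : ℕ) : val a n ≠ 0 := by
  unfold QPA.val
  rw [Int.natAbs_ne_zero]
  intro h
  apply ha
  exact ⟨(n : ℤ), by linarith⟩

theorem val_le (a : ℤ) (Z n : ℕ) (hn : n ≤ Z) :
    ((val a n : ℕ) : ℝ) ≤ ((Z : ℝ) + |(a : ℝ)|) ^ 2 := by
  unfold QPA.val
  have h2 : ((((n : ℤ) ^ 2 + a).natAbs : ℕ) : ℝ) = |((n : ℝ) ^ 2 + (a : ℝ))| := by
    rw [Nat.cast_natAbs, Int.cast_abs]
    push_cast
    rfl
  rw [h2]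
  have h3 : |((n : ℝ) ^ 2 + (a : ℝ))| ≤ (n : ℝ) ^ 2 + |(a : ℝ)| := by
    refine (abs_add_le _ _).trans ?_
    rw [abs_of_nonneg (by positivity : (0 : ℝ) ≤ (n : ℝ) ^ 2)]
  have h4 : (n : ℝ) ≤ Z := by exact_mod_cast hn
  have h5 : (n : ℝ) ^ 2 ≤ (Z : ℝ) ^ 2 := pow_le_pow_left₀ (by positivity) h4 2
  have h6 : |(a : ℝ)| ≤ |(a : ℝ)| ^ 2 := by
    have : (|(a : ℝ)|) = (|a| : ℤ) := by push_cast; rfl
    rw [this]
    have h7 : |a| ≤ |a| ^ 2 := by
      rcases eq_or_ne a 0 with h | h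
      · simp [h]
      · have : 1 ≤ |a| := Int.one_le_abs h
        nlinarith
    exact_mod_cast h7
  have h8 : (0 : ℝ) ≤ Z := by positivity
  have h9 : 0 ≤ |(a : ℝ)| := abs_nonneg _
  nlinarith

/-- the odd part -/
theorem odd_part (r : ℕ) (hr : Squarefree r) (a : ℤ) (hra : (r : ℤ) ∣ 2 * a) :
    ∃ r' : ℕ, 1 ≤ r' ∧ r' ∣ r ∧ r ≤ 2 * r' ∧ Squarefree r' ∧ (r' : ℤ) ∣ a := by
  have hr0 : r ≠ 0 := hr.ne_zero
  rcases Nat.even_or_odd' r with ⟨c, hc | hc⟩
  · refine ⟨c, ?_, ⟨2, by rw [hc]; ring⟩, by omega, hr.squarefree_of_dvd ⟨2, by rw [hc]; ring⟩, ?_⟩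
    · omega
    · rw [hc] at hra
      push_cast at hra
      exact Int.dvd_of_mul_dvd_mul_left (by norm_num) hra
  · refine ⟨r, by omega, dvd_refl _, by omega, hr, ?_⟩
    have hcop : IsCoprime (r : ℤ) 2 := by
      rw [show (2 : ℤ) = ((2 : ℕ) : ℤ) by norm_num, Nat.isCoprime_iff_coprime]
      rw [Nat.coprime_two_right]
      exact ⟨c, hc⟩
    exact hcop.dvd_of_dvd_mul_left hra

/-- the roots are divisible by `r'` -/
theorem root_dvd (r' ν : ℕ) (hr' : Squarefree r') (a : ℤ) (hra : (r' : ℤ) ∣ a)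
    (h : r' ∣ val a ν) : r' ∣ ν := by
  rw [← dvd_iff] at h
  have h1 : (r' : ℤ) ∣ (ν : ℤ) ^ 2 := (Int.dvd_add_left hra).1 h
  have h2 : r' ∣ ν ^ 2 := by exact_mod_cast h1
  exact (hr'.dvd_pow_iff_dvd (by norm_num)).1 h2

theorem harm (Z : ℕ) : ∑ j ∈ Icc 1 Z, (1 : ℝ) / j ≤ 1 + Real.log Z := by
  have h1 := harmonic_le_one_add_log Z
  rw [harmonic_eq_sum_Icc] at h1
  push_cast at h1
  refine le_trans (le_of_eq ?_) h1
  exact sum_congr rfl fun j _ => one_div _

/-- the multiples of `r'` -/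
theorem harm_mult (Z r' : ℕ) (hr : 1 ≤ r') :
    ∑ ν ∈ (Icc 1 Z).filter (fun ν => r' ∣ ν), (1 : ℝ) / ν ≤ 1 / r' * (1 + Real.log Z) := by
  have hsub : (Icc 1 Z).filter (fun ν => r' ∣ ν) ⊆ (Icc 1 Z).image (fun j => r' * j) := by
    intro ν hν
    rw [mem_filter, mem_Icc] at hν
    obtain ⟨⟨h1, h2⟩, ⟨j, hj⟩⟩ := hν
    rw [mem_image]
    refine ⟨j, ?_, hj.symm⟩
    rw [mem_Icc]
    constructor
    · rcases Nat.eq_zero_or_pos j with h | h
      · rw [h] at hj; omega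
      · exact h
    · calc j ≤ r' * j := Nat.le_mul_of_pos_left j hr
        _ = ν := hj.symm
        _ ≤ Z := h2
  refine (sum_le_sum_of_subset_of_nonneg hsub (fun _ _ _ => by positivity)).trans ?_
  rw [sum_image (fun x _ y _ h => Nat.eq_of_mul_eq_mul_left hr h)]
  have : ∑ j ∈ Icc 1 Z, (1 : ℝ) / ((r' * j : ℕ) : ℝ) = 1 / r' * ∑ j ∈ Icc 1 Z, (1 : ℝ) / j := by
    rw [mul_sum]
    refine sum_congr rfl fun j _ => ?_
    push_cast
    rw [one_div_mul_one_div]
  rw [this]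
  exact mul_le_mul_of_nonneg_left (harm Z) (by positivity)

theorem card_mult (Z r' : ℕ) (hr : 1 ≤ r') :
    (((Icc 1 Z).filter (fun ν => r' ∣ ν)).card : ℝ) ≤ Z / r' := by
  have hsub : (Icc 1 Z).filter (fun ν => r' ∣ ν) ⊆ (Icc 1 (Z / r')).image (fun j => r' * j) := by
    intro ν hν
    rw [mem_filter, mem_Icc] at hν
    obtain ⟨⟨h1, h2⟩, ⟨j, hj⟩⟩ := hν
    rw [mem_image]
    refine ⟨j, ?_, hj.symm⟩
    rw [mem_Icc]
    constructor
    · rcases Nat.eq_zero_or_pos j with h | h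
      · rw [h] at hj; omega
      · exact h
    · rw [Nat.le_div_iff_mul_le hr, mul_comm, ← hj]; exact h2
  have h1 : ((Icc 1 Z).filter (fun ν => r' ∣ ν)).card ≤ Z / r' := by
    refine (card_le_card hsub).trans (card_image_le.trans ?_)
    rw [Nat.card_Icc, Nat.add_sub_cancel]
  have h2 : (((Icc 1 Z).filter (fun ν => r' ∣ ν)).card : ℝ) ≤ ((Z / r' : ℕ) : ℝ) := by
    exact_mod_cast h1
  exact h2.trans Nat.cast_div_le

/-- exchange of the sums -/
theorem swap (a : ℤ) (Z : ℕ) (P : ℕ → Prop) [DecidablePred P] (w : ℕ → ℝ) :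
    ∑ m ∈ (Icc 1 Z).filter P, (rho a m : ℝ) * w m =
      ∑ ν ∈ range Z, ∑ m ∈ (Icc 1 Z).filter (fun m => P m ∧ ν < m ∧ m ∣ val a ν), w m := by
  have h1 : ∀ m ∈ (Icc 1 Z).filter P, (rho a m : ℝ) * w m =
      ∑ ν ∈ range Z, if ν < m ∧ m ∣ val a ν then w m else 0 := by
    intro m hm
    rw [mem_filter, mem_Icc] at hm
    rw [← sum_filter, sum_const, nsmul_eq_mul]
    congr 2
    unfold rho
    congr 1
    ext ν
    simp only [mem_filter, mem_range, dvd_iff]
    constructor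
    · rintro ⟨h1, h2⟩
      exact ⟨by omega, h1, h2⟩
    · rintro ⟨h1, h2, h3⟩
      exact ⟨h2, h3⟩
  rw [sum_congr rfl h1, sum_comm]
  refine sum_congr rfl fun ν _ => ?_
  rw [← sum_filter, filter_filter]

end RSUM

theorem specRSU : SpecRSU := by
  intro ε hε
  obtain ⟨C', hC', hdiv⟩ := Pool.Agent.Lib.MP_391708_nt.Div.card_divisors_le_rpow (ε / 4) (by positivity)
  refine ⟨C' * (3 + 4 / ε), by positivity, fun a ha Z hZ => ?_⟩
  set X : ℝ := (Z : ℝ) + |(a : ℝ)| with hX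
  have hZ1 : (1 : ℝ) ≤ Z := by exact_mod_cast hZ
  have hX1 : 1 ≤ X := by
    have := abs_nonneg (a : ℝ)
    rw [hX]; linarith
  have hX0 : 0 < X := by linarith
  have hZX : (Z : ℝ) ≤ X := by
    have := abs_nonneg (a : ℝ)
    rw [hX]; linarith
  set Y : ℝ := X ^ (ε / 2) with hY
  have hY1 : 1 ≤ Y := Real.one_le_rpow hX1 (by positivity)
  have hYY : X ^ ε = Y * Y := by
    rw [hY, ← Real.rpow_add hX0]
    congr 1
    ring
  have hT : ∀ n : ℕ, n ≤ Z → ta (val a n) ≤ C' * Y := by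
    intro n hn
    unfold ta
    refine (hdiv (val a n) (Nat.pos_of_ne_zero (RSUM.val_ne a ha n))).trans ?_
    refine mul_le_mul_of_nonneg_left ?_ hC'.le
    have h1 : ((val a n : ℕ) : ℝ) ^ (ε / 4) ≤ (X ^ 2) ^ (ε / 4) :=
      Real.rpow_le_rpow (by positivity) (RSUM.val_le a Z n hn) (by positivity)
    refine h1.trans (le_of_eq ?_)
    rw [hY, ← Real.rpow_natCast, ← Real.rpow_mul hX0.le]
    congr 1
    push_cast
    ring
  have hlog : 3 + 2 * Real.log Z ≤ (3 + 4 / ε) * Y := by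
    have h1 : Real.log Z ≤ Real.log X := Real.log_le_log (by linarith) hZX
    have h2 := Real.log_le_rpow_div hX0.le (by positivity : (0 : ℝ) < ε / 2)
    have h3 : X ^ (ε / 2) / (ε / 2) = 2 / ε * Y := by
      rw [hY]; field_simp
    rw [h3] at h2
    have h4 : (3 + 4 / ε) * Y = 3 * Y + 2 * (2 / ε * Y) := by ring
    rw [h4]
    linarith
  have hlogZ : 0 ≤ Real.log Z := Real.log_nonneg hZ1
  have hC3 : (3 : ℝ) ≤ 3 + 4 / ε := by
    have : 0 < 4 / ε := by positivity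
    linarith
  -- the number of divisors
  have hcardm : ∀ (ν : ℕ) (P : ℕ → Prop) [DecidablePred P], ν ≤ Z →
      (((Icc 1 Z).filter (fun m => P m ∧ ν < m ∧ m ∣ val a ν)).card : ℝ) ≤ C' * Y := by
    intro ν P _ hν
    refine le_trans ?_ (hT ν hν)
    unfold ta
    have : ((Icc 1 Z).filter (fun m => P m ∧ ν < m ∧ m ∣ val a ν)).card ≤ (val a ν).divisors.card := by
      refine card_le_card fun m hm => ?_
      rw [mem_filter] at hm
      rw [Nat.mem_divisors]
      exact ⟨hm.2.2.2, RSUM.val_ne a ha ν⟩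
    exact_mod_cast this
  have hCY : 0 < C' * Y := by positivity
  refine ⟨?_, fun r hr hra => ⟨?_, ?_⟩⟩
  · -- (i)
    have h1 := RSUM.swap a Z (fun _ => True) (fun _ => 1)
    have h2 : ∑ m ∈ Icc 1 Z, (rho a m : ℝ) = ∑ m ∈ (Icc 1 Z).filter (fun _ => True),
        (rho a m : ℝ) * 1 := by
      rw [filter_true]
      exact sum_congr rfl fun m _ => (mul_one _).symm
    rw [h2, h1]
    have h3 : ∀ ν ∈ range Z, ∑ m ∈ (Icc 1 Z).filter (fun m => True ∧ ν < m ∧ m ∣ val a ν), (1 : ℝ)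
        ≤ C' * Y := by
      intro ν hν
      rw [sum_const, nsmul_eq_mul, mul_one]
      exact hcardm ν _ (mem_range.1 hν).le
    refine (sum_le_sum h3).trans ?_
    rw [sum_const, card_range, nsmul_eq_mul, hYY]
    have h4 : C' * Y ≤ C' * (3 + 4 / ε) * (Y * Y) := by
      have : Y ≤ (3 + 4 / ε) * (Y * Y) := by nlinarith
      calc C' * Y ≤ C' * ((3 + 4 / ε) * (Y * Y)) := mul_le_mul_of_nonneg_left this hC'.le
        _ = _ := by ring
    rw [mul_comm]
    exact mul_le_mul_of_nonneg_right h4 (by positivity)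
  · -- (ii)
    obtain ⟨r', hr1, hrr, hr2, hsq, hra'⟩ := RSUM.odd_part r hr a hra
    have hr0 : (0 : ℝ) < r := by exact_mod_cast Nat.pos_of_ne_zero hr.ne_zero
    have hr0' : (0 : ℝ) < r' := by exact_mod_cast hr1
    have hrle : (r : ℝ) ≤ 2 * r' := by exact_mod_cast hr2
    have hinv : (1 : ℝ) / r' ≤ 2 / r := by
      rw [div_le_div_iff₀ hr0' hr0]; linarith
    have h1 := RSUM.swap a Z (fun m => r ∣ m) (fun m => 1 / (m : ℝ))
    have h2 : ∑ m ∈ (Icc 1 Z).filter (fun m => r ∣ m), (rho a m : ℝ) / m =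
        ∑ m ∈ (Icc 1 Z).filter (fun m => r ∣ m), (rho a m : ℝ) * (1 / (m : ℝ)) :=
      sum_congr rfl fun m _ => by ring
    rw [h2, h1]
    -- the term `ν`
    have hterm : ∀ ν ∈ range Z,
        ∑ m ∈ (Icc 1 Z).filter (fun m => r ∣ m ∧ ν < m ∧ m ∣ val a ν), 1 / (m : ℝ) ≤
          C' * Y * ((if ν = 0 then 1 / (r : ℝ) else 0) +
            (if 1 ≤ ν ∧ r' ∣ ν then 1 / (ν : ℝ) else 0)) := by
      intro ν hν
      have hνZ := (mem_range.1 hν).le
      by_cases h0 : ν = 0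
      · subst h0
        rw [if_pos rfl, if_neg (by omega), add_zero]
        have h3 : ∀ m ∈ (Icc 1 Z).filter (fun m => r ∣ m ∧ 0 < m ∧ m ∣ val a 0),
            1 / (m : ℝ) ≤ 1 / (r : ℝ) := by
          intro m hm
          rw [mem_filter] at hm
          have : r ≤ m := Nat.le_of_dvd hm.2.2.1 hm.2.1
          exact one_div_le_one_div_of_le hr0 (by exact_mod_cast this)
        refine (sum_le_sum h3).trans ?_
        rw [sum_const, nsmul_eq_mul]
        exact mul_le_mul_of_nonneg_right (hcardm 0 (fun m => r ∣ m) hνZ) (by positivity)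
      · have hν1 : 1 ≤ ν := by omega
        rw [if_neg h0, zero_add]
        by_cases h5 : r' ∣ ν
        · rw [if_pos ⟨hν1, h5⟩]
          have h3 : ∀ m ∈ (Icc 1 Z).filter (fun m => r ∣ m ∧ ν < m ∧ m ∣ val a ν),
              1 / (m : ℝ) ≤ 1 / (ν : ℝ) := by
            intro m hm
            rw [mem_filter] at hm
            exact one_div_le_one_div_of_le (by exact_mod_cast hν1) (by exact_mod_cast hm.2.2.1.le)
          refine (sum_le_sum h3).trans ?_
          rw [sum_const, nsmul_eq_mul]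
          exact mul_le_mul_of_nonneg_right (hcardm ν (fun m => r ∣ m) hνZ) (by positivity)
        · rw [if_neg (fun h => h5 h.2), mul_zero]
          apply le_of_eq
          apply sum_eq_zero
          intro m hm
          exfalso
          rw [mem_filter] at hm
          exact h5 (RSUM.root_dvd r' ν hsq a hra' ((hrr.trans hm.2.1).trans hm.2.2.2))
    refine (sum_le_sum hterm).trans ?_
    rw [← mul_sum, sum_add_distrib]
    have h6 : ∑ ν ∈ range Z, (if ν = 0 then 1 / (r : ℝ) else 0) ≤ 1 / r := by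
      rw [sum_ite_eq' (range Z) 0 (fun _ => 1 / (r : ℝ))]
      split_ifs
      · exact le_rfl
      · positivity
    have h7 : ∑ ν ∈ range Z, (if 1 ≤ ν ∧ r' ∣ ν then 1 / (ν : ℝ) else 0) ≤
        1 / r' * (1 + Real.log Z) := by
      refine le_trans ?_ (RSUM.harm_mult Z r' hr1)
      rw [← sum_filter]
      refine sum_le_sum_of_subset_of_nonneg ?_ (fun _ _ _ => by positivity)
      intro ν hν
      rw [mem_filter, mem_range] at hν
      rw [mem_filter, mem_Icc]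
      exact ⟨⟨hν.2.1, hν.1.le⟩, hν.2.2⟩
    have h8 : 1 / r' * (1 + Real.log Z) ≤ 2 / r * (1 + Real.log Z) :=
      mul_le_mul_of_nonneg_right hinv (by linarith)
    have h9 : 1 / (r : ℝ) + 2 / r * (1 + Real.log Z) = (3 + 2 * Real.log Z) / r := by
      field_simp; ring
    calc C' * Y * (∑ ν ∈ range Z, (if ν = 0 then 1 / (r : ℝ) else 0) +
          ∑ ν ∈ range Z, (if 1 ≤ ν ∧ r' ∣ ν then 1 / (ν : ℝ) else 0))
        ≤ C' * Y * ((3 + 2 * Real.log Z) / r) := by
          apply mul_le_mul_of_nonneg_left _ hCY.le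
          rw [← h9]
          linarith
      _ ≤ C' * Y * ((3 + 4 / ε) * Y / r) := by
          apply mul_le_mul_of_nonneg_left _ hCY.le
          exact div_le_div_of_nonneg_right hlog hr0.le
      _ = C' * (3 + 4 / ε) * X ^ ε / r := by rw [hYY]; ring
  · -- (iii)
    obtain ⟨r', hr1, hrr, hr2, hsq, hra'⟩ := RSUM.odd_part r hr a hra
    have hr0 : (0 : ℝ) < r := by exact_mod_cast Nat.pos_of_ne_zero hr.ne_zero
    have hr0' : (0 : ℝ) < r' := by exact_mod_cast hr1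
    have hrle : (r : ℝ) ≤ 2 * r' := by exact_mod_cast hr2
    have h1 : ∀ n ∈ (Icc 1 Z).filter (fun n => r ∣ val a n), ta (val a n) ≤ C' * Y := by
      intro n hn
      rw [mem_filter, mem_Icc] at hn
      exact hT n hn.1.2
    refine (sum_le_sum h1).trans ?_
    rw [sum_const, nsmul_eq_mul]
    have h2 : (((Icc 1 Z).filter (fun n => r ∣ val a n)).card : ℝ) ≤ Z / r' := by
      refine le_trans ?_ (RSUM.card_mult Z r' hr1)
      have : ((Icc 1 Z).filter (fun n => r ∣ val a n)).card ≤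
          ((Icc 1 Z).filter (fun ν => r' ∣ ν)).card := by
        refine card_le_card fun n hn => ?_
        rw [mem_filter] at hn ⊢
        exact ⟨hn.1, RSUM.root_dvd r' n hsq a hra' (hrr.trans hn.2)⟩
      exact_mod_cast this
    have h3 : (Z : ℝ) / r' ≤ 2 * Z / r := by
      rw [div_le_div_iff₀ hr0' hr0]; nlinarith
    have h4 : 2 * Y ≤ (3 + 4 / ε) * (Y * Y) := by nlinarith
    calc (((Icc 1 Z).filter (fun n => r ∣ val a n)).card : ℝ) * (C' * Y)
        ≤ (2 * Z / r) * (C' * Y) := mul_le_mul_of_nonneg_right (h2.trans h3) hCY.le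
      _ = C' * Z / r * (2 * Y) := by ring
      _ ≤ C' * Z / r * ((3 + 4 / ε) * (Y * Y)) := mul_le_mul_of_nonneg_left h4 (by positivity)
      _ = C' * (3 + 4 / ε) * X ^ ε * Z / r := by rw [hYY]; ring

end

end Pool.Agent.Lib.MP391708.U
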