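import Pool.Agent.Lib.MP_391708_nt.U.SpecU2
import Pool.Agent.Lib.MP_391708_nt.Div

set_option autoImplicit false

/-! # Module RWA. -/

namespace Pool.Agent.Lib.MP391708.U

open Finset Filter Topology Pool.Agent.Lib.MP391708.QPA
open scoped Classical

noncomputable section

namespace RWAM

theorem taum1 (hT : SpecTAUM) (j X : ℕ) (hX : 1 ≤ X) :
    ∑ k ∈ Icc 1 X, ta k ^ j / (k : ℝ) ≤ (1 + Real.log X) ^ 2 ^ j := by
  have h := hT j X 1 hX le_rfl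
  have h1 : (Icc 1 X).filter (fun k => 1 ∣ k) = Icc 1 X := by
    refine filter_true_of_mem fun k _ => one_dvd k
  have h2 : ta 1 = 1 := by simp [ta]
  rw [h1, h2, one_pow, Nat.cast_one, div_one, one_mul] at h
  exact h

theorem ta_nonneg (n : ℕ) : 0 ≤ ta n := Nat.cast_nonneg _

theorem block (hT : SpecTAUM) (j E : ℕ) (hE : 1 ≤ E) :
    ∑ k ∈ Ioc E (2 * E), ta k ^ j / (k : ℝ) ≤ (1 + Real.log ((2 * E : ℕ) : ℝ)) ^ 2 ^ j := by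
  refine le_trans ?_ (taum1 hT j (2 * E) (by omega))
  refine sum_le_sum_of_subset_of_nonneg ?_ ?_
  · intro k hk
    rw [mem_Ioc] at hk
    rw [mem_Icc]
    omega
  · intro k _ _
    exact div_nonneg (pow_nonneg (ta_nonneg k) _) (Nat.cast_nonneg _)

theorem log_pow (k : ℕ) : ∃ C : ℝ, 0 < C ∧ ∀ x : ℝ, 1 ≤ x →
    (1 + Real.log (2 * x)) ^ k ≤ C * x ^ (1 / 10 : ℝ) := by
  set δ : ℝ := 1 / (10 * ((k : ℝ) + 1)) with hδ
  have hk : (0 : ℝ) < (k : ℝ) + 1 := by positivity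
  have hδ0 : 0 < δ := by positivity
  refine ⟨(2 + 1 / δ) ^ k, by positivity, fun x hx => ?_⟩
  have hx0 : 0 < x := by linarith
  have h1 : Real.log x ≤ x ^ δ / δ := Real.log_le_rpow_div hx0.le hδ0
  have h2 : 1 ≤ x ^ δ := Real.one_le_rpow hx hδ0.le
  have h3 : Real.log (2 * x) = Real.log 2 + Real.log x := Real.log_mul (by norm_num) hx0.ne'
  have h4 : Real.log 2 ≤ 1 := by
    have := Real.log_two_lt_d9
    linarith
  have h5 : 1 + Real.log (2 * x) ≤ (2 + 1 / δ) * x ^ δ := by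
    rw [h3, add_mul, one_div, ← div_eq_inv_mul]
    linarith
  have h6 : 0 ≤ 1 + Real.log (2 * x) := by
    have := Real.log_nonneg (by linarith : (1 : ℝ) ≤ 2 * x)
    linarith
  calc (1 + Real.log (2 * x)) ^ k ≤ ((2 + 1 / δ) * x ^ δ) ^ k := pow_le_pow_left₀ h6 h5 k
    _ = (2 + 1 / δ) ^ k * x ^ (δ * k) := by
      rw [mul_pow, ← Real.rpow_natCast (x ^ δ) k, ← Real.rpow_mul hx0.le]
    _ ≤ (2 + 1 / δ) ^ k * x ^ (1 / 10 : ℝ) := by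
      refine mul_le_mul_of_nonneg_left ?_ (by positivity)
      refine Real.rpow_le_rpow_of_exponent_le hx ?_
      rw [hδ, div_mul_eq_mul_div, one_mul, div_le_div_iff₀ (by positivity) (by norm_num)]
      nlinarith

/-- part (i). -/
theorem part1 (hS : QPA.SpecSML) (hT : SpecTAUM) (j : ℕ) : ∃ C : ℝ, 0 < C ∧
    ∀ (N A E : ℕ) (γ : ℕ → ℝ), 1 ≤ A → 1 ≤ E → E ≤ 4 * N →
    (∀ e, γ e ≠ 0 → Odd e ∧ Squarefree e) → (∀ e, |γ e| ≤ ta e ^ j / e) →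
    (E : ℝ) ≤ (A : ℝ) ^ (3 / 4 : ℝ) →
    ∑ a ∈ IA A, (∑ e ∈ Ioc E (2 * E), γ e * (jacobiSym (-a) e : ℝ)) ^ 2
      ≤ C * (A * (1 + Real.log (8 * N)) ^ 4 ^ j / E + (A : ℝ) ^ (9 / 10 : ℝ)) := by
  obtain ⟨C₁, hC₁, h1⟩ := hS (1 / 20) (by norm_num)
  obtain ⟨C₂, hC₂, h2⟩ := log_pow (2 ^ j * 2)
  refine ⟨C₁ * (1 + C₂), by positivity, fun N A E γ hA hE hEN hγ hγ' hEA => ?_⟩
  have hA1 : (1 : ℝ) ≤ A := by exact_mod_cast hA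
  have hA0 : (0 : ℝ) < A := by linarith
  have hE1 : (1 : ℝ) ≤ E := by exact_mod_cast hE
  have hE0 : (0 : ℝ) < E := by linarith
  have h3 := h1 A E γ hA hE hγ
  have hEA' : (E : ℝ) ≤ A := hEA.trans (by
    calc (A : ℝ) ^ (3 / 4 : ℝ) ≤ (A : ℝ) ^ (1 : ℝ) :=
        Real.rpow_le_rpow_of_exponent_le hA1 (by norm_num)
      _ = A := Real.rpow_one _)
  have h2E : (1 : ℝ) ≤ ((2 * E : ℕ) : ℝ) := by
    push_cast
    linarith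
  have hlog0 : 0 ≤ 1 + Real.log ((2 * E : ℕ) : ℝ) := by
    have := Real.log_nonneg h2E
    linarith
  have hsq : ∑ k ∈ Ioc E (2 * E), (γ k) ^ 2 ≤ (1 + Real.log (8 * N)) ^ 4 ^ j / E := by
    have h4 : ∀ k ∈ Ioc E (2 * E), (γ k) ^ 2 ≤ (ta k ^ (2 * j) / (k : ℝ)) / E := by
      intro k hk
      rw [mem_Ioc] at hk
      have hk0 : (0 : ℝ) < k := by
        have : 0 < k := by omega
        exact_mod_cast this
      have hkE : (E : ℝ) ≤ k := by exact_mod_cast hk.1.le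
      rw [← sq_abs]
      calc |γ k| ^ 2 ≤ (ta k ^ j / k) ^ 2 := pow_le_pow_left₀ (abs_nonneg _) (hγ' k) 2
        _ = (ta k ^ (2 * j) / (k : ℝ)) / k := by
          rw [div_pow, ← pow_mul, mul_comm j 2, sq (k : ℝ), div_div]
        _ ≤ (ta k ^ (2 * j) / (k : ℝ)) / E := by
          refine div_le_div_of_nonneg_left ?_ hE0 hkE
          exact div_nonneg (pow_nonneg (ta_nonneg k) _) hk0.le
    calc ∑ k ∈ Ioc E (2 * E), (γ k) ^ 2 ≤ ∑ k ∈ Ioc E (2 * E), (ta k ^ (2 * j) / (k : ℝ)) / E :=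
          sum_le_sum h4
      _ = (∑ k ∈ Ioc E (2 * E), ta k ^ (2 * j) / (k : ℝ)) / E := by rw [sum_div]
      _ ≤ (1 + Real.log ((2 * E : ℕ) : ℝ)) ^ 2 ^ (2 * j) / E := by
          gcongr
          exact block hT (2 * j) E hE
      _ = (1 + Real.log ((2 * E : ℕ) : ℝ)) ^ 4 ^ j / E := by
          have : (2 : ℕ) ^ (2 * j) = 4 ^ j := by rw [pow_mul]; norm_num
          rw [this]
      _ ≤ (1 + Real.log (8 * N)) ^ 4 ^ j / E := by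
          have h5 : Real.log ((2 * E : ℕ) : ℝ) ≤ Real.log (8 * N) := by
            refine Real.log_le_log (by linarith) ?_
            have : 2 * E ≤ 8 * N := by omega
            exact_mod_cast this
          gcongr
  have habs : ∑ k ∈ Ioc E (2 * E), |γ k| ≤ (1 + Real.log ((2 * E : ℕ) : ℝ)) ^ 2 ^ j :=
    (sum_le_sum fun k _ => hγ' k).trans (block hT j E hE)
  have habs0 : 0 ≤ ∑ k ∈ Ioc E (2 * E), |γ k| := sum_nonneg fun k _ => abs_nonneg _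
  have habs2 : (∑ k ∈ Ioc E (2 * E), |γ k|) ^ 2 ≤ C₂ * (A : ℝ) ^ (1 / 10 : ℝ) := by
    calc (∑ k ∈ Ioc E (2 * E), |γ k|) ^ 2
        ≤ ((1 + Real.log ((2 * E : ℕ) : ℝ)) ^ 2 ^ j) ^ 2 := pow_le_pow_left₀ habs0 habs 2
      _ = (1 + Real.log ((2 * E : ℕ) : ℝ)) ^ (2 ^ j * 2) := by rw [← pow_mul]
      _ ≤ (1 + Real.log (2 * A)) ^ (2 ^ j * 2) := by
          refine pow_le_pow_left₀ hlog0 ?_ _
          have : Real.log ((2 * E : ℕ) : ℝ) ≤ Real.log (2 * A) := by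
            refine Real.log_le_log (by linarith) ?_
            push_cast
            linarith
          linarith
      _ ≤ _ := h2 A hA1
  have hEp : (E : ℝ) ^ (1 + 1 / 20 : ℝ) ≤ (A : ℝ) ^ (4 / 5 : ℝ) := by
    calc (E : ℝ) ^ (1 + 1 / 20 : ℝ) ≤ ((A : ℝ) ^ (3 / 4 : ℝ)) ^ (1 + 1 / 20 : ℝ) :=
          Real.rpow_le_rpow hE0.le hEA (by norm_num)
      _ = (A : ℝ) ^ ((3 / 4 : ℝ) * (1 + 1 / 20)) := (Real.rpow_mul hA0.le _ _).symm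
      _ ≤ (A : ℝ) ^ (4 / 5 : ℝ) := Real.rpow_le_rpow_of_exponent_le hA1 (by norm_num)
  have hsecond : (E : ℝ) ^ (1 + 1 / 20 : ℝ) * (∑ k ∈ Ioc E (2 * E), |γ k|) ^ 2 ≤
      C₂ * (A : ℝ) ^ (9 / 10 : ℝ) := by
    calc (E : ℝ) ^ (1 + 1 / 20 : ℝ) * (∑ k ∈ Ioc E (2 * E), |γ k|) ^ 2
        ≤ (A : ℝ) ^ (4 / 5 : ℝ) * (C₂ * (A : ℝ) ^ (1 / 10 : ℝ)) :=
          mul_le_mul hEp habs2 (by positivity) (by positivity)
      _ = C₂ * ((A : ℝ) ^ (4 / 5 : ℝ) * (A : ℝ) ^ (1 / 10 : ℝ)) := by ring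
      _ = C₂ * (A : ℝ) ^ (9 / 10 : ℝ) := by
          rw [← Real.rpow_add hA0]
          norm_num
  have hl8 : 0 ≤ 1 + Real.log (8 * N) := by
    have : (1 : ℝ) ≤ 8 * N := by
      have : 1 ≤ 8 * N := by omega
      exact_mod_cast this
    have := Real.log_nonneg this
    linarith
  have hT1 : 0 ≤ (A : ℝ) * ((1 + Real.log (8 * N)) ^ 4 ^ j / E) := by positivity
  have hT2 : 0 ≤ (A : ℝ) ^ (9 / 10 : ℝ) := by positivity
  calc ∑ a ∈ IA A, (∑ e ∈ Ioc E (2 * E), γ e * (jacobiSym (-a) e : ℝ)) ^ 2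
      ≤ C₁ * (A * (∑ k ∈ Ioc E (2 * E), (γ k) ^ 2)
      + (E : ℝ) ^ (1 + 1 / 20 : ℝ) * (∑ k ∈ Ioc E (2 * E), |γ k|) ^ 2) := h3
    _ ≤ C₁ * (A * ((1 + Real.log (8 * N)) ^ 4 ^ j / E) + C₂ * (A : ℝ) ^ (9 / 10 : ℝ)) := by
        gcongr
    _ ≤ C₁ * ((1 + C₂) * (A * ((1 + Real.log (8 * N)) ^ 4 ^ j / E)) +
        (1 + C₂) * (A : ℝ) ^ (9 / 10 : ℝ)) := by
        refine mul_le_mul_of_nonneg_left ?_ hC₁.le
        nlinarith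
    _ = _ := by ring

/-- the coefficients of the square. -/
def Ga (γ : ℕ → ℝ) (E m : ℕ) : ℝ :=
  ∑ p ∈ (Ioc E (2 * E) ×ˢ Ioc E (2 * E)).filter (fun p : ℕ × ℕ => p.1 * p.2 = m), γ p.1 * γ p.2

theorem Ga_odd {γ : ℕ → ℝ} (hγ : ∀ e, γ e ≠ 0 → Odd e ∧ Squarefree e) {E m : ℕ}
    (h : Ga γ E m ≠ 0) : Odd m := by
  obtain ⟨p, hp, hp'⟩ := exists_ne_zero_of_sum_ne_zero h
  rw [mem_filter] at hp
  rw [← hp.2]
  exact (hγ _ (left_ne_zero_of_mul hp')).1.mul (hγ _ (right_ne_zero_of_mul hp')).1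

theorem Ga_le {γ : ℕ → ℝ} {j : ℕ} (hγ : ∀ e, |γ e| ≤ ta e ^ j / e) {E m : ℕ} (hm : 1 ≤ m) :
    |Ga γ E m| ≤ ta m ^ (2 * j + 1) / m := by
  have hm0 : (0 : ℝ) < m := by exact_mod_cast hm
  have h1 : ∀ p ∈ (Ioc E (2 * E) ×ˢ Ioc E (2 * E)).filter (fun p : ℕ × ℕ => p.1 * p.2 = m),
      |γ p.1 * γ p.2| ≤ ta m ^ (2 * j) / m := by
    intro p hp
    rw [mem_filter] at hp
    have hd : ∀ d : ℕ, d ∣ m → ta d ≤ ta m := by
      intro d hd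
      have := Nat.divisors_subset_of_dvd (by omega : m ≠ 0) hd
      exact Nat.cast_le.2 (card_le_card this)
    have h2 : ta p.1 ≤ ta m := hd _ ⟨p.2, hp.2.symm⟩
    have h3 : ta p.2 ≤ ta m := hd _ ⟨p.1, by rw [mul_comm]; exact hp.2.symm⟩
    have h4 : ((p.1 : ℕ) : ℝ) * (p.2 : ℝ) = m := by exact_mod_cast hp.2
    rw [abs_mul]
    calc |γ p.1| * |γ p.2| ≤ (ta p.1 ^ j / p.1) * (ta p.2 ^ j / p.2) :=
          mul_le_mul (hγ _) (hγ _) (abs_nonneg _)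
            (div_nonneg (pow_nonneg (ta_nonneg _) _) (Nat.cast_nonneg _))
      _ = (ta p.1 ^ j * ta p.2 ^ j) / m := by rw [div_mul_div_comm, h4]
      _ ≤ (ta m ^ j * ta m ^ j) / m := by
          gcongr
          · exact pow_nonneg (ta_nonneg _) _
          · exact pow_nonneg (ta_nonneg _) _
          · exact ta_nonneg _
          · exact ta_nonneg _
      _ = _ := by
          rw [← pow_add, two_mul]
  have h5 : ((Ioc E (2 * E) ×ˢ Ioc E (2 * E)).filter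
      (fun p : ℕ × ℕ => p.1 * p.2 = m)).card ≤ m.divisors.card := by
    refine card_le_card_of_injOn (fun p => p.1) ?_ ?_
    · intro p hp
      rw [mem_coe, mem_filter] at hp
      rw [mem_coe, Nat.mem_divisors]
      exact ⟨⟨p.2, hp.2.symm⟩, by omega⟩
    · intro p hp p' hp' h
      rw [mem_coe, mem_filter, mem_product, mem_Ioc, mem_Ioc] at hp hp'
      have h' : p.1 = p'.1 := h
      refine Prod.ext h' ?_
      have h6 : p.1 * p.2 = p.1 * p'.2 := by rw [hp.2, h', hp'.2]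
      exact Nat.eq_of_mul_eq_mul_left (by omega) h6
  calc |Ga γ E m| ≤ ∑ p ∈ (Ioc E (2 * E) ×ˢ Ioc E (2 * E)).filter
        (fun p : ℕ × ℕ => p.1 * p.2 = m), |γ p.1 * γ p.2| := abs_sum_le_sum_abs _ _
    _ ≤ ∑ _p ∈ (Ioc E (2 * E) ×ˢ Ioc E (2 * E)).filter
        (fun p : ℕ × ℕ => p.1 * p.2 = m), ta m ^ (2 * j) / m := sum_le_sum h1
    _ = (((Ioc E (2 * E) ×ˢ Ioc E (2 * E)).filter
        (fun p : ℕ × ℕ => p.1 * p.2 = m)).card : ℝ) * (ta m ^ (2 * j) / m) := by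
        rw [sum_const, nsmul_eq_mul]
    _ ≤ ta m * (ta m ^ (2 * j) / m) := by
        refine mul_le_mul_of_nonneg_right ?_
          (div_nonneg (pow_nonneg (ta_nonneg _) _) (Nat.cast_nonneg _))
        exact Nat.cast_le.2 h5
    _ = _ := by
        rw [pow_succ]
        ring

theorem square (γ : ℕ → ℝ) (E : ℕ) (a : ℤ) :
    (∑ e ∈ Ioc E (2 * E), γ e * (jacobiSym (-a) e : ℝ)) ^ 2 =
      (∑ m ∈ Ioc (E ^ 2) (2 * E ^ 2), Ga γ E m * (jacobiSym (-a) m : ℝ)) +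
      ∑ m ∈ Ioc (2 * E ^ 2) (2 * (2 * E ^ 2)), Ga γ E m * (jacobiSym (-a) m : ℝ) := by
  have h1 : ∑ m ∈ Ioc (E ^ 2) (2 * (2 * E ^ 2)), Ga γ E m * (jacobiSym (-a) m : ℝ) =
      (∑ m ∈ Ioc (E ^ 2) (2 * E ^ 2), Ga γ E m * (jacobiSym (-a) m : ℝ)) +
      ∑ m ∈ Ioc (2 * E ^ 2) (2 * (2 * E ^ 2)), Ga γ E m * (jacobiSym (-a) m : ℝ) :=
    (sum_Ioc_consecutive _ (by omega) (by omega)).symm
  rw [← h1, sq, sum_mul_sum, ← sum_product',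
    ← sum_fiberwise_of_maps_to (t := Ioc (E ^ 2) (2 * (2 * E ^ 2)))
      (g := fun p : ℕ × ℕ => p.1 * p.2)]
  · refine sum_congr rfl fun m _ => ?_
    rw [Ga, sum_mul]
    refine sum_congr rfl fun p hp => ?_
    rw [mem_filter, mem_product, mem_Ioc, mem_Ioc] at hp
    have : NeZero p.1 := ⟨by omega⟩
    have : NeZero p.2 := ⟨by omega⟩
    rw [← hp.2, jacobiSym.mul_right]
    push_cast
    ring
  · intro p hp
    rw [mem_product, mem_Ioc, mem_Ioc] at hp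
    rw [mem_Ioc]
    constructor
    · rw [sq]
      exact Nat.mul_lt_mul'' hp.1.1 hp.2.1
    · calc p.1 * p.2 ≤ (2 * E) * (2 * E) := Nat.mul_le_mul hp.1.2 hp.2.2
        _ = _ := by ring

/-- part (ii). -/
theorem part2 (hL : QPA.SpecLRG) (j : ℕ) : ∃ C : ℝ, 0 < C ∧
    ∀ (N A E : ℕ) (γ : ℕ → ℝ), (N : ℝ) ^ (5 / 6 : ℝ) ≤ A → 1 ≤ A → 1 ≤ E → E ≤ 4 * N →
    (∀ e, γ e ≠ 0 → Odd e ∧ Squarefree e) → (∀ e, |γ e| ≤ ta e ^ j / e) →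
    (A : ℝ) ^ (3 / 4 : ℝ) < (E : ℝ) →
    ∑ a ∈ IA A, (∑ e ∈ Ioc E (2 * E), γ e * (jacobiSym (-a) e : ℝ)) ^ 4
      ≤ C * (A : ℝ) ^ (3 / 4 : ℝ) := by
  obtain ⟨C₂, hC₂, h2⟩ := hL (1 / 100) (by norm_num)
  obtain ⟨D₀, hD₀, h3⟩ := Pool.Agent.Lib.MP_391708_nt.Div.card_divisors_le_rpow
    (1 / (100 * (2 * (j : ℝ) + 1))) (by positivity)
  set D : ℝ := D₀ ^ (2 * j + 1) with hD
  have hD0 : 0 < D := by positivity
  refine ⟨32 * C₂ * D ^ 2, by positivity, fun N A E γ hNA hA hE hEN hγ hγ' hEA => ?_⟩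
  have hA1 : (1 : ℝ) ≤ A := by exact_mod_cast hA
  have hA0 : (0 : ℝ) < A := by linarith
  have hE1 : (1 : ℝ) ≤ E := by exact_mod_cast hE
  have hE0 : (0 : ℝ) < E := by linarith
  -- the divisor bound
  have hdiv : ∀ m : ℕ, 1 ≤ m → ta m ^ (2 * j + 1) ≤ D * (m : ℝ) ^ (1 / 100 : ℝ) := by
    intro m hm
    have hm0 : (0 : ℝ) ≤ m := Nat.cast_nonneg _
    calc ta m ^ (2 * j + 1) ≤ (D₀ * (m : ℝ) ^ (1 / (100 * (2 * (j : ℝ) + 1)))) ^ (2 * j + 1) :=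
          pow_le_pow_left₀ (ta_nonneg m) (h3 m hm) _
      _ = D * (m : ℝ) ^ (1 / 100 : ℝ) := by
          rw [mul_pow, ← Real.rpow_natCast ((m : ℝ) ^ (1 / (100 * (2 * (j : ℝ) + 1)))),
            ← Real.rpow_mul hm0]
          congr 2
          push_cast
          field_simp
  -- the size of `4 E^2`
  have hN : (N : ℝ) ≤ (A : ℝ) ^ (6 / 5 : ℝ) := by
    calc (N : ℝ) = ((N : ℝ) ^ (5 / 6 : ℝ)) ^ (6 / 5 : ℝ) := by
          rw [← Real.rpow_mul (Nat.cast_nonneg _)]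
          norm_num
      _ ≤ _ := Real.rpow_le_rpow (Real.rpow_nonneg (Nat.cast_nonneg _) _) hNA (by norm_num)
  have hE4 : (4 * (E : ℝ) ^ 2) ^ (1 / 50 : ℝ) ≤ 2 * (A : ℝ) ^ (6 / 125 : ℝ) := by
    have hEN' : (E : ℝ) ≤ 4 * N := by exact_mod_cast hEN
    have hb : 4 * (E : ℝ) ^ 2 ≤ 2 ^ (50 : ℕ) * ((A : ℝ) ^ (6 / 5 : ℝ)) ^ 2 := by
      have h4 : (E : ℝ) ≤ 4 * (A : ℝ) ^ (6 / 5 : ℝ) := by linarith
      have h5 : (E : ℝ) ^ 2 ≤ (4 * (A : ℝ) ^ (6 / 5 : ℝ)) ^ 2 := pow_le_pow_left₀ hE0.le h4 2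
      have h6 : 0 ≤ ((A : ℝ) ^ (6 / 5 : ℝ)) ^ 2 := by positivity
      nlinarith
    calc (4 * (E : ℝ) ^ 2) ^ (1 / 50 : ℝ)
        ≤ (2 ^ (50 : ℕ) * ((A : ℝ) ^ (6 / 5 : ℝ)) ^ 2) ^ (1 / 50 : ℝ) :=
          Real.rpow_le_rpow (by positivity) hb (by norm_num)
      _ = 2 * (A : ℝ) ^ (6 / 125 : ℝ) := by
          rw [Real.mul_rpow (by positivity) (by positivity), ← Real.rpow_natCast 2 50,
            ← Real.rpow_mul (by norm_num), ← Real.rpow_natCast ((A : ℝ) ^ (6 / 5 : ℝ)) 2,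
            ← Real.rpow_mul hA0.le, ← Real.rpow_mul hA0.le]
          norm_num
  -- the coefficients
  have hG : ∀ m : ℕ, E ^ 2 < m → m ≤ 2 * (2 * E ^ 2) →
      (Ga γ E m) ^ 2 ≤ D ^ 2 * (2 * (A : ℝ) ^ (6 / 125 : ℝ)) / ((E : ℝ) ^ 2 * (E : ℝ) ^ 2) := by
    intro m hm hm'
    have hm1 : 1 ≤ m := by omega
    have hmR : (0 : ℝ) < m := by exact_mod_cast hm1
    have hmE : (E : ℝ) ^ 2 ≤ m := by exact_mod_cast hm.le
    have hmE' : (m : ℝ) ≤ 4 * (E : ℝ) ^ 2 := by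
      have : m ≤ 4 * E ^ 2 := by omega
      exact_mod_cast this
    have h4 : |Ga γ E m| ≤ D * (m : ℝ) ^ (1 / 100 : ℝ) / (E : ℝ) ^ 2 := by
      calc |Ga γ E m| ≤ ta m ^ (2 * j + 1) / m := Ga_le hγ' hm1
        _ ≤ (D * (m : ℝ) ^ (1 / 100 : ℝ)) / m := by
            gcongr
            exact hdiv m hm1
        _ ≤ _ := by
            refine div_le_div_of_nonneg_left (by positivity) (by positivity) hmE
    rw [← sq_abs]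
    calc |Ga γ E m| ^ 2 ≤ (D * (m : ℝ) ^ (1 / 100 : ℝ) / (E : ℝ) ^ 2) ^ 2 :=
          pow_le_pow_left₀ (abs_nonneg _) h4 2
      _ = D ^ 2 * ((m : ℝ) ^ (1 / 50 : ℝ)) / ((E : ℝ) ^ 2 * (E : ℝ) ^ 2) := by
          have h5 : ((m : ℝ) ^ (1 / 100 : ℝ)) ^ 2 = (m : ℝ) ^ (1 / 50 : ℝ) := by
            rw [← Real.rpow_natCast, ← Real.rpow_mul hmR.le]
            norm_num
          rw [div_pow, mul_pow, h5]
          ring
      _ ≤ _ := by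
          have h6 : (m : ℝ) ^ (1 / 50 : ℝ) ≤ 2 * (A : ℝ) ^ (6 / 125 : ℝ) :=
            (Real.rpow_le_rpow hmR.le hmE' (by norm_num)).trans hE4
          gcongr
  -- the two blocks
  have hE2 : (0 : ℝ) < (E : ℝ) ^ 2 := by positivity
  have hEA2 : (A : ℝ) ^ (3 / 2 : ℝ) ≤ (E : ℝ) ^ 2 := by
    calc (A : ℝ) ^ (3 / 2 : ℝ) = ((A : ℝ) ^ (3 / 4 : ℝ)) ^ 2 := by
          rw [← Real.rpow_natCast, ← Real.rpow_mul hA0.le]
          norm_num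
      _ ≤ _ := pow_le_pow_left₀ (by positivity) hEA.le 2
  have hmain : ∀ c : ℝ, 1 ≤ c → c ≤ 2 → C₂ * (c * (E : ℝ) ^ 2 * √(A : ℝ) + (A : ℝ) ^ (2 + 1 / 100 : ℝ)) *
      (c * (E : ℝ) ^ 2 * (D ^ 2 * (2 * (A : ℝ) ^ (6 / 125 : ℝ)) / ((E : ℝ) ^ 2 * (E : ℝ) ^ 2))) ≤
      (2 * c * (c + 1)) * C₂ * D ^ 2 * (A : ℝ) ^ (3 / 4 : ℝ) := by
    intro c hc hc2
    have hr1 : (A : ℝ) ^ (2 + 1 / 100 : ℝ) ≤ (E : ℝ) ^ 2 * (A : ℝ) ^ (51 / 100 : ℝ) := by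
      calc (A : ℝ) ^ (2 + 1 / 100 : ℝ) = (A : ℝ) ^ (3 / 2 : ℝ) * (A : ℝ) ^ (51 / 100 : ℝ) := by
            rw [← Real.rpow_add hA0]
            norm_num
        _ ≤ _ := by gcongr
    have hr2 : √(A : ℝ) ≤ (A : ℝ) ^ (51 / 100 : ℝ) := by
      rw [Real.sqrt_eq_rpow]
      exact Real.rpow_le_rpow_of_exponent_le hA1 (by norm_num)
    have hr3 : (A : ℝ) ^ (51 / 100 : ℝ) * (A : ℝ) ^ (6 / 125 : ℝ) ≤ (A : ℝ) ^ (3 / 4 : ℝ) := by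
      rw [← Real.rpow_add hA0]
      exact Real.rpow_le_rpow_of_exponent_le hA1 (by norm_num)
    calc C₂ * (c * (E : ℝ) ^ 2 * √(A : ℝ) + (A : ℝ) ^ (2 + 1 / 100 : ℝ)) *
        (c * (E : ℝ) ^ 2 * (D ^ 2 * (2 * (A : ℝ) ^ (6 / 125 : ℝ)) / ((E : ℝ) ^ 2 * (E : ℝ) ^ 2)))
        ≤ C₂ * (c * (E : ℝ) ^ 2 * (A : ℝ) ^ (51 / 100 : ℝ) +
            (E : ℝ) ^ 2 * (A : ℝ) ^ (51 / 100 : ℝ)) *
          (c * (E : ℝ) ^ 2 * (D ^ 2 * (2 * (A : ℝ) ^ (6 / 125 : ℝ)) /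
            ((E : ℝ) ^ 2 * (E : ℝ) ^ 2))) := by
          gcongr
      _ = (2 * c * (c + 1)) * C₂ * D ^ 2 *
          ((A : ℝ) ^ (51 / 100 : ℝ) * (A : ℝ) ^ (6 / 125 : ℝ)) := by
          field_simp
      _ ≤ _ := by gcongr
  have hb1 : ∑ a ∈ IA A, (∑ m ∈ Ioc (E ^ 2) (2 * E ^ 2), Ga γ E m * (jacobiSym (-a) m : ℝ)) ^ 2 ≤
      4 * C₂ * D ^ 2 * (A : ℝ) ^ (3 / 4 : ℝ) := by
    have h4 := h2 A (E ^ 2) (Ga γ E) hA (Nat.one_le_pow _ _ hE) (fun k hk => Ga_odd hγ hk)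
    refine h4.trans ?_
    have h5 : ∑ k ∈ Ioc (E ^ 2) (2 * E ^ 2), (Ga γ E k) ^ 2 ≤
        1 * (E : ℝ) ^ 2 * (D ^ 2 * (2 * (A : ℝ) ^ (6 / 125 : ℝ)) /
          ((E : ℝ) ^ 2 * (E : ℝ) ^ 2)) := by
      calc ∑ k ∈ Ioc (E ^ 2) (2 * E ^ 2), (Ga γ E k) ^ 2
          ≤ ∑ _k ∈ Ioc (E ^ 2) (2 * E ^ 2), D ^ 2 * (2 * (A : ℝ) ^ (6 / 125 : ℝ)) /
          ((E : ℝ) ^ 2 * (E : ℝ) ^ 2) := by
            refine sum_le_sum fun k hk => ?_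
            rw [mem_Ioc] at hk
            exact hG k hk.1 (by omega)
        _ = _ := by
            rw [sum_const, nsmul_eq_mul, Nat.card_Ioc]
            have : 2 * E ^ 2 - E ^ 2 = E ^ 2 := by omega
            rw [this]
            push_cast
            ring
    have h6 := hmain 1 le_rfl (by norm_num)
    have h7 : C₂ * (((E ^ 2 : ℕ) : ℝ) * √(A : ℝ) + (A : ℝ) ^ (2 + 1 / 100 : ℝ)) *
        ∑ k ∈ Ioc (E ^ 2) (2 * E ^ 2), (Ga γ E k) ^ 2 ≤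
        C₂ * (1 * (E : ℝ) ^ 2 * √(A : ℝ) + (A : ℝ) ^ (2 + 1 / 100 : ℝ)) *
      (1 * (E : ℝ) ^ 2 * (D ^ 2 * (2 * (A : ℝ) ^ (6 / 125 : ℝ)) /
        ((E : ℝ) ^ 2 * (E : ℝ) ^ 2))) := by
      rw [one_mul, Nat.cast_pow]
      rw [one_mul] at h5
      gcongr
    refine h7.trans (h6.trans (le_of_eq ?_))
    norm_num
  have hb2 : ∑ a ∈ IA A, (∑ m ∈ Ioc (2 * E ^ 2) (2 * (2 * E ^ 2)),
      Ga γ E m * (jacobiSym (-a) m : ℝ)) ^ 2 ≤ 12 * C₂ * D ^ 2 * (A : ℝ) ^ (3 / 4 : ℝ) := by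
    have h4 := h2 A (2 * E ^ 2) (Ga γ E) hA
      (by have := Nat.one_le_pow 2 E hE; omega) (fun k hk => Ga_odd hγ hk)
    refine h4.trans ?_
    have h5 : ∑ k ∈ Ioc (2 * E ^ 2) (2 * (2 * E ^ 2)), (Ga γ E k) ^ 2 ≤
        2 * (E : ℝ) ^ 2 * (D ^ 2 * (2 * (A : ℝ) ^ (6 / 125 : ℝ)) /
          ((E : ℝ) ^ 2 * (E : ℝ) ^ 2)) := by
      calc ∑ k ∈ Ioc (2 * E ^ 2) (2 * (2 * E ^ 2)), (Ga γ E k) ^ 2
          ≤ ∑ _k ∈ Ioc (2 * E ^ 2) (2 * (2 * E ^ 2)), D ^ 2 * (2 * (A : ℝ) ^ (6 / 125 : ℝ)) /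
          ((E : ℝ) ^ 2 * (E : ℝ) ^ 2) := by
            refine sum_le_sum fun k hk => ?_
            rw [mem_Ioc] at hk
            exact hG k (by omega) hk.2
        _ = _ := by
            rw [sum_const, nsmul_eq_mul, Nat.card_Ioc]
            have : 2 * (2 * E ^ 2) - 2 * E ^ 2 = 2 * E ^ 2 := by omega
            rw [this]
            push_cast
            ring
    have h6 := hmain 2 (by norm_num) le_rfl
    have h7 : C₂ * (((2 * E ^ 2 : ℕ) : ℝ) * √(A : ℝ) + (A : ℝ) ^ (2 + 1 / 100 : ℝ)) *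
        ∑ k ∈ Ioc (2 * E ^ 2) (2 * (2 * E ^ 2)), (Ga γ E k) ^ 2 ≤
        C₂ * (2 * (E : ℝ) ^ 2 * √(A : ℝ) + (A : ℝ) ^ (2 + 1 / 100 : ℝ)) *
      (2 * (E : ℝ) ^ 2 * (D ^ 2 * (2 * (A : ℝ) ^ (6 / 125 : ℝ)) /
        ((E : ℝ) ^ 2 * (E : ℝ) ^ 2))) := by
      rw [Nat.cast_mul, Nat.cast_pow, Nat.cast_two]
      gcongr
    refine h7.trans (h6.trans (le_of_eq ?_))
    norm_num
  have h8 : ∀ a : ℤ, (∑ e ∈ Ioc E (2 * E), γ e * (jacobiSym (-a) e : ℝ)) ^ 4 ≤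
      2 * (∑ m ∈ Ioc (E ^ 2) (2 * E ^ 2), Ga γ E m * (jacobiSym (-a) m : ℝ)) ^ 2 +
      2 * (∑ m ∈ Ioc (2 * E ^ 2) (2 * (2 * E ^ 2)), Ga γ E m * (jacobiSym (-a) m : ℝ)) ^ 2 := by
    intro a
    have h9 : (∑ e ∈ Ioc E (2 * E), γ e * (jacobiSym (-a) e : ℝ)) ^ 4 =
        ((∑ e ∈ Ioc E (2 * E), γ e * (jacobiSym (-a) e : ℝ)) ^ 2) ^ 2 := by ring
    rw [h9, square γ E a]
    nlinarith [sq_nonneg ((∑ m ∈ Ioc (E ^ 2) (2 * E ^ 2), Ga γ E m * (jacobiSym (-a) m : ℝ)) -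
      ∑ m ∈ Ioc (2 * E ^ 2) (2 * (2 * E ^ 2)), Ga γ E m * (jacobiSym (-a) m : ℝ))]
  calc ∑ a ∈ IA A, (∑ e ∈ Ioc E (2 * E), γ e * (jacobiSym (-a) e : ℝ)) ^ 4
      ≤ ∑ a ∈ IA A, (2 * (∑ m ∈ Ioc (E ^ 2) (2 * E ^ 2), Ga γ E m * (jacobiSym (-a) m : ℝ)) ^ 2 +
      2 * (∑ m ∈ Ioc (2 * E ^ 2) (2 * (2 * E ^ 2)), Ga γ E m * (jacobiSym (-a) m : ℝ)) ^ 2) :=
        sum_le_sum fun a _ => h8 a
    _ = 2 * (∑ a ∈ IA A, (∑ m ∈ Ioc (E ^ 2) (2 * E ^ 2),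
          Ga γ E m * (jacobiSym (-a) m : ℝ)) ^ 2) +
        2 * (∑ a ∈ IA A, (∑ m ∈ Ioc (2 * E ^ 2) (2 * (2 * E ^ 2)),
          Ga γ E m * (jacobiSym (-a) m : ℝ)) ^ 2) := by
        rw [sum_add_distrib, mul_sum, mul_sum]
    _ ≤ 2 * (4 * C₂ * D ^ 2 * (A : ℝ) ^ (3 / 4 : ℝ)) +
        2 * (12 * C₂ * D ^ 2 * (A : ℝ) ^ (3 / 4 : ℝ)) := by
        gcongr
    _ = _ := by ring

end RWAM

open RWAM in
theorem specRWA (hS : QPA.SpecSML) (hL : QPA.SpecLRG) (hT : SpecTAUM) : SpecRWA := by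
  intro j
  obtain ⟨C₁, hC₁, h1⟩ := part1 hS hT j
  obtain ⟨C₂, hC₂, h2⟩ := part2 hL j
  refine ⟨max C₁ C₂, lt_max_of_lt_left hC₁, fun N A E γ hN hNA hAN hE hEN hγ hγ' => ?_⟩
  have hA : 1 ≤ A := by
    have hN1 : (1 : ℝ) ≤ (N : ℝ) ^ (5 / 6 : ℝ) := by
      refine Real.one_le_rpow ?_ (by norm_num)
      exact_mod_cast (by omega : 1 ≤ N)
    have : (1 : ℝ) ≤ A := hN1.trans hNA
    exact_mod_cast this
  have hA1 : (1 : ℝ) ≤ A := by exact_mod_cast hA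
  refine ⟨fun hEA => ?_, fun hEA => ?_⟩
  · refine (h1 N A E γ hA hE hEN hγ hγ' hEA).trans ?_
    refine mul_le_mul_of_nonneg_right (le_max_left _ _) ?_
    have hl8 : 0 ≤ 1 + Real.log (8 * N) := by
      have : (1 : ℝ) ≤ 8 * N := by
        have : 1 ≤ 8 * N := by omega
        exact_mod_cast this
      have := Real.log_nonneg this
      linarith
    positivity
  · refine (h2 N A E γ hNA hA hE hEN hγ hγ' hEA).trans ?_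
    exact mul_le_mul_of_nonneg_right (le_max_right _ _) (by positivity)

end

end Pool.Agent.Lib.MP391708.U
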