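import Pool.Agent.Lib.MP_391708_nt.U.SpecU2

/-!
# Project U (MP_391708), module SLM: the mean of Selberg's majorant
-/

set_option autoImplicit false

namespace Pool.Agent.Lib.MP391708.U

open Finset Filter Topology Pool.Agent.Lib.MP391708.QPA
open scoped Classical

namespace SLMM

/-- Harmonic sums against the logarithm. -/
lemma harm (a b : ℕ) (ha : 1 ≤ a) (hab : a ≤ b) :
    Real.log (((b : ℝ) + 1) / (a + 1)) ≤ ∑ j ∈ Ioc a b, (1 : ℝ) / j ∧
      ∑ j ∈ Ioc a b, (1 : ℝ) / j ≤ Real.log ((b : ℝ) / a) := by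
  have ha0 : (0 : ℝ) < a := by exact_mod_cast ha
  induction b, hab using Nat.le_induction with
  | base =>
    rw [Finset.Ioc_self, Finset.sum_empty, div_self (by positivity), div_self (by positivity),
      Real.log_one]
    exact ⟨le_rfl, le_rfl⟩
  | succ b hab ih =>
    have hb0 : (0 : ℝ) < b := lt_of_lt_of_le ha0 (by exact_mod_cast hab)
    rw [Finset.sum_Ioc_succ_top hab]
    push_cast
    constructor
    · have h1 : Real.log (((b : ℝ) + 1 + 1) / (a + 1)) =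
          Real.log (((b : ℝ) + 1) / (a + 1)) + Real.log (((b : ℝ) + 1 + 1) / (b + 1)) := by
        rw [← Real.log_mul (by positivity) (by positivity)]
        congr 1
        field_simp
      have h2 : Real.log (((b : ℝ) + 1 + 1) / (b + 1)) ≤ 1 / ((b : ℝ) + 1) := by
        have h3 := Real.log_le_sub_one_of_pos
          (show (0 : ℝ) < ((b : ℝ) + 1 + 1) / (b + 1) by positivity)
        have h4 : ((b : ℝ) + 1 + 1) / (b + 1) - 1 = 1 / ((b : ℝ) + 1) := by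
          field_simp
          ring
        rwa [h4] at h3
      rw [h1]
      linarith [ih.1]
    · have h1 : Real.log (((b : ℝ) + 1) / a) =
          Real.log ((b : ℝ) / a) + Real.log (((b : ℝ) + 1) / b) := by
        rw [← Real.log_mul (by positivity) (by positivity)]
        congr 1
        field_simp
      have h2 : 1 / ((b : ℝ) + 1) ≤ Real.log (((b : ℝ) + 1) / b) := by
        have h3 := Real.one_sub_inv_le_log_of_pos
          (show (0 : ℝ) < ((b : ℝ) + 1) / b by positivity)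
        have h4 : 1 - (((b : ℝ) + 1) / b)⁻¹ = 1 / ((b : ℝ) + 1) := by
          rw [inv_div]
          field_simp
          ring
        rwa [h4] at h3
      rw [h1]
      linarith [ih.2]

/-- The sum of the inverses of the multiples of `D`. -/
lemma inv_sum (D K₁ K₂ : ℕ) (hD : 1 ≤ D) (hDK : D ≤ K₁) (hK : K₁ ≤ K₂) :
    |∑ k ∈ (Ioc K₁ K₂).filter (fun k => D ∣ k), (1 : ℝ) / k -
      Real.log ((K₂ : ℝ) / K₁) / D| ≤ 2 / K₁ := by
  have hD0 : (0 : ℝ) < D := by exact_mod_cast hD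
  have hK10 : (0 : ℝ) < K₁ := by exact_mod_cast (hD.trans hDK)
  have hK20 : (0 : ℝ) < K₂ := lt_of_lt_of_le hK10 (by exact_mod_cast hK)
  have hA : ∑ k ∈ (Ioc K₁ K₂).filter (fun k => D ∣ k), (1 : ℝ) / k =
      (1 / (D : ℝ)) * ∑ j ∈ Ioc (K₁ / D) (K₂ / D), (1 : ℝ) / j := by
    rw [Finset.mul_sum]
    symm
    refine Finset.sum_nbij' (fun j => D * j) (fun k => k / D) ?_ ?_ ?_ ?_ ?_
    · intro j hj
      rw [Finset.mem_Ioc, Nat.div_lt_iff_lt_mul hD, Nat.le_div_iff_mul_le hD] at hj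
      rw [Finset.mem_filter, Finset.mem_Ioc]
      refine ⟨⟨?_, ?_⟩, Dvd.intro j rfl⟩
      · rw [mul_comm]; exact hj.1
      · rw [mul_comm]; exact hj.2
    · intro k hk
      rw [Finset.mem_filter, Finset.mem_Ioc] at hk
      obtain ⟨⟨h1, h2⟩, j, rfl⟩ := hk
      rw [Finset.mem_Ioc, Nat.div_lt_iff_lt_mul hD, Nat.le_div_iff_mul_le hD,
        Nat.mul_div_cancel_left _ hD, mul_comm j D]
      exact ⟨h1, h2⟩
    · intro j _
      exact Nat.mul_div_cancel_left _ hD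
    · intro k hk
      rw [Finset.mem_filter] at hk
      exact Nat.mul_div_cancel' hk.2
    · intro j _
      push_cast
      rw [div_mul_div_comm, one_mul]
  have h1 : 1 ≤ K₁ / D := (Nat.le_div_iff_mul_le hD).2 (by omega)
  have h2 : K₁ / D ≤ K₂ / D := Nat.div_le_div_right hK
  obtain ⟨h3, h4⟩ := harm (K₁ / D) (K₂ / D) h1 h2
  have hx1 : (0 : ℝ) < ((K₁ / D : ℕ) : ℝ) := by exact_mod_cast h1
  have hx2 : (0 : ℝ) < ((K₂ / D : ℕ) : ℝ) := by exact_mod_cast (h1.trans h2)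
  have hx1' : (1 : ℝ) ≤ ((K₁ / D : ℕ) : ℝ) := by exact_mod_cast h1
  have f1 : ((K₁ / D : ℕ) : ℝ) ≤ (K₁ : ℝ) / D := Nat.cast_div_le
  have f2 : ((K₂ / D : ℕ) : ℝ) ≤ (K₂ : ℝ) / D := Nat.cast_div_le
  have g1 : (K₁ : ℝ) / D < ((K₁ / D : ℕ) : ℝ) + 1 := by
    rw [div_lt_iff₀ hD0, mul_comm]
    exact_mod_cast Nat.lt_mul_div_succ K₁ hD
  have g2 : (K₂ : ℝ) / D < ((K₂ / D : ℕ) : ℝ) + 1 := by
    rw [div_lt_iff₀ hD0, mul_comm]
    exact_mod_cast Nat.lt_mul_div_succ K₂ hD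
  have hX1 : (1 : ℝ) ≤ (K₁ : ℝ) / D := hx1'.trans f1
  have hX10 : (0 : ℝ) < (K₁ : ℝ) / D := by linarith
  have hX20 : (0 : ℝ) < (K₂ : ℝ) / D := by positivity
  have hlogD : Real.log ((K₂ : ℝ) / K₁) = Real.log ((K₂ : ℝ) / D) - Real.log ((K₁ : ℝ) / D) := by
    rw [← Real.log_div hX20.ne' hX10.ne']
    congr 1
    field_simp
  have hup : ∑ j ∈ Ioc (K₁ / D) (K₂ / D), (1 : ℝ) / j ≤
      Real.log ((K₂ : ℝ) / K₁) + 2 * D / K₁ := by
    refine h4.trans ?_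
    rw [Real.log_div hx2.ne' hx1.ne', hlogD]
    have e1 : Real.log ((K₂ / D : ℕ) : ℝ) ≤ Real.log ((K₂ : ℝ) / D) := Real.log_le_log hx2 f2
    have e2 : Real.log ((K₁ : ℝ) / D) - Real.log ((K₁ / D : ℕ) : ℝ) ≤ 2 * D / K₁ := by
      rw [← Real.log_div hX10.ne' hx1.ne']
      refine (Real.log_le_sub_one_of_pos (by positivity)).trans ?_
      have e3 : (K₁ : ℝ) / D / ((K₁ / D : ℕ) : ℝ) - 1 ≤ 1 / ((K₁ / D : ℕ) : ℝ) := by
        rw [div_sub_one hx1.ne']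
        exact div_le_div_of_nonneg_right (by linarith) hx1.le
      refine e3.trans ?_
      rw [div_le_div_iff₀ hx1 hK10]
      have e4 : (K₁ : ℝ) < (((K₁ / D : ℕ) : ℝ) + 1) * D := by
        rwa [div_lt_iff₀ hD0] at g1
      nlinarith
    linarith
  have hlo : Real.log ((K₂ : ℝ) / K₁) - 2 * D / K₁ ≤
      ∑ j ∈ Ioc (K₁ / D) (K₂ / D), (1 : ℝ) / j := by
    refine le_trans ?_ h3
    have e0 : Real.log ((((K₂ / D : ℕ) : ℝ) + 1) / (((K₁ / D : ℕ) : ℝ) + 1)) =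
        Real.log (((K₂ / D : ℕ) : ℝ) + 1) - Real.log (((K₁ / D : ℕ) : ℝ) + 1) :=
      Real.log_div (by positivity) (by positivity)
    rw [e0, hlogD]
    have e1 : Real.log ((K₂ : ℝ) / D) ≤ Real.log (((K₂ / D : ℕ) : ℝ) + 1) :=
      Real.log_le_log hX20 g2.le
    have e2 : Real.log (((K₁ / D : ℕ) : ℝ) + 1) - Real.log ((K₁ : ℝ) / D) ≤ 2 * D / K₁ := by
      rw [← Real.log_div (by positivity) hX10.ne']
      refine (Real.log_le_sub_one_of_pos (by positivity)).trans ?_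
      rw [div_sub_one hX10.ne', div_le_div_iff₀ hX10 hK10]
      have e4 : ((K₁ / D : ℕ) : ℝ) + 1 - (K₁ : ℝ) / D ≤ 1 := by linarith
      have e5 : 2 * (D : ℝ) * ((K₁ : ℝ) / D) = 2 * K₁ := by field_simp
      rw [e5]
      nlinarith
    linarith
  rw [hA, abs_le]
  have q1 : (2 : ℝ) / K₁ = 1 / D * (2 * D / K₁) := by field_simp
  have q2 : Real.log ((K₂ : ℝ) / K₁) / D = 1 / D * Real.log ((K₂ : ℝ) / K₁) := by ring
  have hD1 : (0 : ℝ) ≤ 1 / D := by positivity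
  rw [q1, q2]
  constructor
  · nlinarith [mul_le_mul_of_nonneg_left hlo hD1]
  · nlinarith [mul_le_mul_of_nonneg_left hup hD1]

/-- The expansion of Selberg's majorant. -/
lemma th_expand (y : ℝ) (lam : ℕ → ℝ) (h2 : ∀ d, lam d ≠ 0 → 1 ≤ d ∧ (d : ℝ) ≤ y) (u : ℕ)
    (hu : 1 ≤ u) : Th lam u = ∑ d ∈ Icc 1 ⌊y⌋₊, ∑ e ∈ Icc 1 ⌊y⌋₊,
      lam d * lam e * (if Nat.lcm d e ∣ u then 1 else 0) := by
  have hsum : ∑ d ∈ u.divisors, lam d = ∑ d ∈ Icc 1 ⌊y⌋₊, (if d ∣ u then lam d else 0) := by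
    rw [← Finset.sum_filter]
    symm
    apply Finset.sum_subset
    · intro d hd
      exact Nat.mem_divisors.mpr ⟨(Finset.mem_filter.mp hd).2, by omega⟩
    · intro d hd hd2
      by_contra hne
      obtain ⟨g1, g2⟩ := h2 d hne
      apply hd2
      refine Finset.mem_filter.mpr ⟨Finset.mem_Icc.mpr ⟨g1, ?_⟩, Nat.dvd_of_mem_divisors hd⟩
      exact Nat.le_floor g2
  unfold Th
  rw [hsum, sq, Finset.sum_mul_sum]
  apply Finset.sum_congr rfl
  intro d _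
  apply Finset.sum_congr rfl
  intro e _
  by_cases hd : d ∣ u
  · by_cases he : e ∣ u
    · rw [if_pos hd, if_pos he, if_pos (Nat.lcm_dvd hd he)]; ring
    · rw [if_neg he, if_neg (fun h => he (dvd_trans (Nat.dvd_lcm_right d e) h))]; ring
  · rw [if_neg hd, if_neg (fun h => hd (dvd_trans (Nat.dvd_lcm_left d e) h))]; ring

end SLMM

open SLMM in
theorem specSLM (hS : SpecSELB) : SpecSLM := by
  obtain ⟨C, hC, h⟩ := hS
  refine ⟨max C 2, lt_of_lt_of_le (by norm_num) (le_max_right _ _), fun y hy => ?_⟩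
  obtain ⟨lam, h1, habs, h3, -, h5⟩ := h y 1 hy le_rfl
  have h2 : ∀ d, lam d ≠ 0 → 1 ≤ d ∧ (d : ℝ) ≤ y := fun d hd => ⟨(h3 d hd).1, (h3 d hd).2.1⟩
  refine ⟨lam, h1, habs, h2, fun K₁ K₂ hK₁ hK hyK => ?_⟩
  have hK10 : (0 : ℝ) < K₁ := by exact_mod_cast hK₁
  have hlogy : 0 < Real.log y := Real.log_pos (by linarith)
  have hlogK : 0 ≤ Real.log ((K₂ : ℝ) / K₁) := by
    apply Real.log_nonneg
    rw [le_div_iff₀ hK10, one_mul]
    exact_mod_cast hK
  have hfl : (⌊y⌋₊ : ℝ) ≤ y := Nat.floor_le (by linarith)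
  have hexp : ∑ k ∈ Ioc K₁ K₂, Th lam k / (k : ℝ) =
      ∑ d ∈ Icc 1 ⌊y⌋₊, ∑ e ∈ Icc 1 ⌊y⌋₊, lam d * lam e *
        ∑ k ∈ (Ioc K₁ K₂).filter (fun k => Nat.lcm d e ∣ k), (1 : ℝ) / k := by
    have e1 : ∀ k ∈ Ioc K₁ K₂, Th lam k / (k : ℝ) =
        ∑ d ∈ Icc 1 ⌊y⌋₊, ∑ e ∈ Icc 1 ⌊y⌋₊,
          lam d * lam e * (if Nat.lcm d e ∣ k then (1 : ℝ) / k else 0) := by
      intro k hk
      have hk1 : 1 ≤ k := by
        have := (Finset.mem_Ioc.1 hk).1
        omega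
      rw [th_expand y lam h2 k hk1, Finset.sum_div]
      refine Finset.sum_congr rfl fun d _ => ?_
      rw [Finset.sum_div]
      refine Finset.sum_congr rfl fun e _ => ?_
      split_ifs <;> ring
    rw [Finset.sum_congr rfl e1, Finset.sum_comm]
    refine Finset.sum_congr rfl fun d _ => ?_
    rw [Finset.sum_comm]
    refine Finset.sum_congr rfl fun e _ => ?_
    rw [← Finset.mul_sum, ← Finset.sum_filter]
  have hterm : ∀ d ∈ Icc 1 ⌊y⌋₊, ∀ e ∈ Icc 1 ⌊y⌋₊, lam d * lam e *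
        ∑ k ∈ (Ioc K₁ K₂).filter (fun k => Nat.lcm d e ∣ k), (1 : ℝ) / k ≤
      lam d * lam e / (Nat.lcm d e : ℝ) * Real.log ((K₂ : ℝ) / K₁) + 2 / K₁ := by
    intro d hd e he
    have hd1 := Finset.mem_Icc.mp hd
    have he1 := Finset.mem_Icc.mp he
    have hl : 1 ≤ Nat.lcm d e := Nat.lcm_pos hd1.1 he1.1
    have hlK : Nat.lcm d e ≤ K₁ := by
      have g1 : Nat.lcm d e ≤ d * e := Nat.le_of_dvd (Nat.mul_pos hd1.1 he1.1)
        (Nat.lcm_dvd_mul d e)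
      have g2 : ((d * e : ℕ) : ℝ) ≤ K₁ := by
        push_cast
        have g3 : (d : ℝ) ≤ y := le_trans (by exact_mod_cast hd1.2) hfl
        have g4 : (e : ℝ) ≤ y := le_trans (by exact_mod_cast he1.2) hfl
        refine le_trans ?_ hyK
        rw [sq]
        exact mul_le_mul g3 g4 (Nat.cast_nonneg _) (by linarith)
      exact g1.trans (by exact_mod_cast g2)
    have h6 := inv_sum (Nat.lcm d e) K₁ K₂ hl hlK hK
    have h7 : |lam d * lam e| ≤ 1 := by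
      rw [abs_mul]
      calc |lam d| * |lam e| ≤ 1 * 1 := mul_le_mul (habs d) (habs e) (abs_nonneg _) zero_le_one
        _ = 1 := one_mul 1
    have h8 : lam d * lam e * (∑ k ∈ (Ioc K₁ K₂).filter (fun k => Nat.lcm d e ∣ k), (1 : ℝ) / k -
        Real.log ((K₂ : ℝ) / K₁) / (Nat.lcm d e : ℝ)) ≤ 2 / K₁ := by
      refine (le_abs_self _).trans ?_
      rw [abs_mul]
      calc _ ≤ 1 * (2 / (K₁ : ℝ)) := mul_le_mul h7 h6 (abs_nonneg _) zero_le_one
        _ = 2 / K₁ := one_mul _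
    rw [mul_sub] at h8
    have h9 : lam d * lam e * (Real.log ((K₂ : ℝ) / K₁) / (Nat.lcm d e : ℝ)) =
        lam d * lam e / (Nat.lcm d e : ℝ) * Real.log ((K₂ : ℝ) / K₁) := by ring
    rw [h9] at h8
    linarith
  rw [hexp]
  refine (Finset.sum_le_sum fun d hd => Finset.sum_le_sum (hterm d hd)).trans ?_
  simp only [Finset.sum_add_distrib, ← Finset.sum_mul]
  have h10 : ∑ _d ∈ Icc 1 ⌊y⌋₊, ∑ _e ∈ Icc 1 ⌊y⌋₊, (2 : ℝ) / K₁ ≤ 2 * y ^ 2 / K₁ := by
    simp only [Finset.sum_const, Nat.card_Icc, Nat.add_sub_cancel, nsmul_eq_mul]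
    have h11 : (⌊y⌋₊ : ℝ) * (⌊y⌋₊ : ℝ) ≤ y ^ 2 := by
      rw [sq]
      exact mul_le_mul hfl hfl (Nat.cast_nonneg _) (by linarith)
    calc (⌊y⌋₊ : ℝ) * ((⌊y⌋₊ : ℝ) * (2 / K₁)) = (⌊y⌋₊ : ℝ) * (⌊y⌋₊ : ℝ) * (2 / K₁) := by ring
      _ ≤ y ^ 2 * (2 / K₁) := mul_le_mul_of_nonneg_right h11 (by positivity)
      _ = 2 * y ^ 2 / K₁ := by ring
  have h12 : ∑ d ∈ Icc 1 ⌊y⌋₊, ∑ e ∈ Icc 1 ⌊y⌋₊, lam d * lam e / (Nat.lcm d e : ℝ) = QF y lam :=
    rfl
  rw [h12]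
  have h13 : QF y lam ≤ C / Real.log y := by
    rw [Nat.totient_one, Nat.cast_one, div_one, mul_one] at h5
    exact h5
  have h14 : QF y lam * Real.log ((K₂ : ℝ) / K₁) ≤
      max C 2 * Real.log ((K₂ : ℝ) / K₁) / Real.log y := by
    calc QF y lam * Real.log ((K₂ : ℝ) / K₁) ≤ C / Real.log y * Real.log ((K₂ : ℝ) / K₁) :=
          mul_le_mul_of_nonneg_right h13 hlogK
      _ ≤ max C 2 / Real.log y * Real.log ((K₂ : ℝ) / K₁) := by
          refine mul_le_mul_of_nonneg_right ?_ hlogK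
          exact div_le_div_of_nonneg_right (le_max_left _ _) hlogy.le
      _ = max C 2 * Real.log ((K₂ : ℝ) / K₁) / Real.log y := by ring
  have h15 : 2 * y ^ 2 / K₁ ≤ max C 2 * y ^ 2 / K₁ := by
    refine div_le_div_of_nonneg_right ?_ hK10.le
    exact mul_le_mul_of_nonneg_right (le_max_right _ _) (by positivity)
  linarith

end Pool.Agent.Lib.MP391708.U
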