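import Pool.Agent.Lib.MP_391708_nt.U.SpecU2

/-!
# TAUM: divisor moments
-/

set_option autoImplicit false

namespace Pool.Agent.Lib.MP391708.U

open Finset Filter Topology Pool.Agent.Lib.MP391708.QPA
open scoped Classical

noncomputable section

namespace TAUMM

lemma ta_nonneg (n : ℕ) : 0 ≤ ta n := by unfold ta; positivity

lemma ta_mul (m n : ℕ) : ta (m * n) ≤ ta m * ta n := by
  unfold ta
  rw [Nat.divisors_mul]
  exact_mod_cast Finset.card_mul_le

lemma harm (X : ℕ) : ∑ k ∈ Icc 1 X, 1 / (k : ℝ) ≤ 1 + Real.log X := by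
  have h := harmonic_le_one_add_log X
  rw [harmonic_eq_sum_Icc] at h
  push_cast at h
  simpa using h

/-- the moments -/
lemma mom (j X : ℕ) (hX : 1 ≤ X) :
    ∑ k ∈ Icc 1 X, ta k ^ j / (k : ℝ) ≤ (1 + Real.log X) ^ 2 ^ j := by
  have hL : 0 ≤ 1 + Real.log X := by
    have := Real.log_natCast_nonneg X
    linarith
  induction j with
  | zero => simpa using harm X
  | succ j ih =>
    have hf : ∀ d : ℕ, 0 ≤ ta d ^ j / (d : ℝ) := fun d =>
      div_nonneg (pow_nonneg (ta_nonneg d) _) (Nat.cast_nonneg d)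
    have h1 : ∀ k ∈ Icc 1 X, ta k ^ (j + 1) / (k : ℝ)
        ≤ ∑ p ∈ ((Icc 1 X) ×ˢ (Icc 1 X)).filter (fun p => p.1 * p.2 = k),
          (ta p.1 ^ j / (p.1 : ℝ)) * (ta p.2 ^ j / (p.2 : ℝ)) := by
      intro k hk
      rw [mem_Icc] at hk
      have h2 : ((Icc 1 X) ×ˢ (Icc 1 X)).filter (fun p => p.1 * p.2 = k) = k.divisorsAntidiagonal := by
        ext ⟨d, e⟩
        simp only [mem_filter, mem_product, mem_Icc, Nat.mem_divisorsAntidiagonal]
        constructor
        · rintro ⟨-, h⟩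
          exact ⟨h, by omega⟩
        · rintro ⟨h, h0⟩
          have hd0 : d ≠ 0 := by rintro rfl; omega
          have he0 : e ≠ 0 := by rintro rfl; omega
          have hd : d ≤ k := by rw [← h]; exact Nat.le_mul_of_pos_right d (Nat.pos_of_ne_zero he0)
          have he : e ≤ k := by rw [← h]; exact Nat.le_mul_of_pos_left e (Nat.pos_of_ne_zero hd0)
          exact ⟨⟨⟨by omega, by omega⟩, ⟨by omega, by omega⟩⟩, h⟩
      rw [h2, Nat.sum_divisorsAntidiagonal (f := fun d e : ℕ =>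
        (ta d ^ j / (d : ℝ)) * (ta e ^ j / (e : ℝ)))]
      have h3 : ta k ^ (j + 1) / (k : ℝ) = ∑ _d ∈ k.divisors, ta k ^ j / (k : ℝ) := by
        rw [Finset.sum_const, nsmul_eq_mul, pow_succ]
        unfold ta
        ring
      rw [h3]
      refine Finset.sum_le_sum fun d hd => ?_
      have hdk := Nat.dvd_of_mem_divisors hd
      obtain ⟨e, rfl⟩ := hdk
      have hd0 : 0 < d := Nat.pos_of_mem_divisors hd
      rw [Nat.mul_div_cancel_left e hd0, div_mul_div_comm, ← mul_pow]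
      push_cast
      have h4 : ta (d * e) ^ j ≤ (ta d * ta e) ^ j :=
        pow_le_pow_left₀ (ta_nonneg _) (ta_mul d e) _
      exact div_le_div_of_nonneg_right h4 (by positivity)
    have h5 : ∑ k ∈ Icc 1 X, ta k ^ (j + 1) / (k : ℝ)
        ≤ (∑ k ∈ Icc 1 X, ta k ^ j / (k : ℝ)) * ∑ k ∈ Icc 1 X, ta k ^ j / (k : ℝ) := by
      refine le_trans (Finset.sum_le_sum h1) ?_
      rw [Finset.sum_mul_sum, ← Finset.sum_product']
      have h6 : ∑ k ∈ Icc 1 X, ∑ p ∈ ((Icc 1 X) ×ˢ (Icc 1 X)).filter (fun p => p.1 * p.2 = k),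
          (ta p.1 ^ j / (p.1 : ℝ)) * (ta p.2 ^ j / (p.2 : ℝ))
          = ∑ p ∈ ((Icc 1 X) ×ˢ (Icc 1 X)).filter (fun p => p.1 * p.2 ∈ Icc 1 X),
          (ta p.1 ^ j / (p.1 : ℝ)) * (ta p.2 ^ j / (p.2 : ℝ)) := by
        rw [← Finset.sum_fiberwise_of_maps_to (s := ((Icc 1 X) ×ˢ (Icc 1 X)).filter
          (fun p => p.1 * p.2 ∈ Icc 1 X)) (t := Icc 1 X) (g := fun p => p.1 * p.2)
          (fun p hp => (mem_filter.1 hp).2)]
        refine Finset.sum_congr rfl fun k hk => ?_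
        refine Finset.sum_congr ?_ fun _ _ => rfl
        ext p
        simp only [mem_filter]
        constructor
        · rintro ⟨h7, h8⟩
          exact ⟨⟨h7, by rw [h8]; exact hk⟩, h8⟩
        · rintro ⟨⟨h7, -⟩, h8⟩
          exact ⟨h7, h8⟩
      rw [h6]
      exact Finset.sum_le_sum_of_subset_of_nonneg (Finset.filter_subset _ _)
        (fun p _ _ => mul_nonneg (hf _) (hf _))
    refine le_trans h5 ?_
    have h7 : (1 + Real.log X) ^ 2 ^ (j + 1) = (1 + Real.log X) ^ 2 ^ j * (1 + Real.log X) ^ 2 ^ j := by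
      rw [← pow_add]; congr 1; rw [pow_succ]; ring
    rw [h7]
    exact mul_le_mul ih ih (Finset.sum_nonneg fun k _ => hf k) (by positivity)

end TAUMM

open TAUMM in
theorem specTAUM : SpecTAUM := by
  intro j X g hX hg
  have hL : 0 ≤ 1 + Real.log X := by
    have := Real.log_natCast_nonneg X
    linarith
  have hg0 : (0 : ℝ) < g := by exact_mod_cast hg
  have h1 : (Icc 1 X).filter (fun k => g ∣ k) = (Icc 1 (X / g)).image (fun k => g * k) := by
    ext k
    simp only [mem_filter, mem_Icc, mem_image]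
    constructor
    · rintro ⟨⟨h1, h2⟩, ⟨e, rfl⟩⟩
      refine ⟨e, ⟨?_, ?_⟩, rfl⟩
      · rcases Nat.eq_zero_or_pos e with h | h
        · subst h; omega
        · exact h
      · rw [Nat.le_div_iff_mul_le (by omega), mul_comm]; exact h2
    · rintro ⟨e, ⟨h1, h2⟩, rfl⟩
      rw [Nat.le_div_iff_mul_le (by omega), mul_comm] at h2
      exact ⟨⟨Nat.mul_pos (by omega) (by omega), h2⟩, Dvd.intro e rfl⟩
  rw [h1, Finset.sum_image (fun a _ b _ h => Nat.eq_of_mul_eq_mul_left (by omega) h)]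
  have h2 : ∀ e ∈ Icc 1 (X / g), ta (g * e) ^ j / ((g * e : ℕ) : ℝ)
      ≤ ta g ^ j / g * (ta e ^ j / (e : ℝ)) := by
    intro e he
    rw [mem_Icc] at he
    have he0 : (0 : ℝ) < e := by exact_mod_cast (by omega : 0 < e)
    rw [div_mul_div_comm, ← mul_pow]
    push_cast
    have h4 : ta (g * e) ^ j ≤ (ta g * ta e) ^ j := pow_le_pow_left₀ (ta_nonneg _) (ta_mul g e) _
    exact div_le_div_of_nonneg_right h4 (by positivity)
  refine le_trans (Finset.sum_le_sum h2) ?_
  rw [← Finset.mul_sum]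
  have h3 : 0 ≤ ta g ^ j / (g : ℝ) := div_nonneg (pow_nonneg (ta_nonneg g) _) hg0.le
  refine mul_le_mul_of_nonneg_left ?_ h3
  refine le_trans ?_ (mom j X hX)
  exact Finset.sum_le_sum_of_subset_of_nonneg (Icc_subset_Icc_right (Nat.div_le_self X g))
    (fun k _ _ => div_nonneg (pow_nonneg (ta_nonneg k) _) (Nat.cast_nonneg k))

end

end Pool.Agent.Lib.MP391708.U
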