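import Pool.Agent.Lib.MP_391708_nt.U.SpecU2

/-! # Project U, module TCE: the error term of one modulus -/

set_option autoImplicit false

namespace Pool.Agent.Lib.MP391708.U

open Finset Filter Topology Pool.Agent.Lib.MP391708.QPA
open scoped Classical

noncomputable section

namespace TCEM

theorem ex_add (x y : ℝ) : ex (x + y) = ex x * ex y := by
  unfold ex
  rw [← Complex.exp_add]
  congr 1
  push_cast
  ring

theorem ex_int (k : ℤ) : ex (k : ℝ) = 1 := by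
  unfold ex
  rw [Complex.exp_eq_one_iff]
  exact ⟨k, by push_cast; ring⟩

theorem norm_ex (t : ℝ) : ‖ex t‖ = 1 := by
  unfold ex
  have h : (2 * Real.pi * Complex.I * (t : ℂ)) = ((2 * Real.pi * t : ℝ) : ℂ) * Complex.I := by
    push_cast
    ring
  rw [h, Complex.norm_exp_ofReal_mul_I]

theorem rs_le (a h : ℤ) (m : ℕ) : ‖rs a h m‖ ≤ rho a m := by
  unfold rs rho
  refine (norm_sum_le _ _).trans ?_
  rw [Finset.sum_congr rfl (fun ν _ => norm_ex _)]
  simp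

theorem rs_zero (a : ℤ) (m : ℕ) : rs a 0 m = rho a m := by
  unfold rs rho
  have h : ∀ ν : ℕ, ex (((0 : ℤ) : ℝ) * ν / m) = 1 := by
    intro ν
    have h1 : (((0 : ℤ) : ℝ) * ν / m) = ((0 : ℤ) : ℝ) := by simp
    rw [h1, ex_int]
  rw [Finset.sum_congr rfl (fun ν _ => h ν)]
  simp

theorem rs_shift (a h : ℤ) (m : ℕ) (hm : 1 ≤ m) : rs a ((m : ℤ) - h) m = rs a (-h) m := by
  unfold rs
  refine Finset.sum_congr rfl fun ν _ => ?_
  have hm0 : (m : ℝ) ≠ 0 := by positivity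
  have h1 : (((m : ℤ) - h : ℤ) : ℝ) * ν / m = ((ν : ℤ) : ℝ) + ((-h : ℤ) : ℝ) * ν / m := by
    push_cast
    field_simp
    ring
  rw [h1, ex_add, ex_int, one_mul]

/-- the indicator of the divisibility as a sum over the roots -/
theorem ind_roots (a : ℤ) (m n : ℕ) (hm : 1 ≤ m) (c : ℝ) :
    (if m ∣ val a n then c else 0) =
      ∑ ν ∈ (range m).filter (fun ν : ℕ => (m : ℤ) ∣ (ν : ℤ) ^ 2 + a),
        if (m : ℤ) ∣ (n : ℤ) - ((ν : ℤ) : ℤ) then c else 0 := by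
  have hdv : m ∣ val a n ↔ (m : ℤ) ∣ (n : ℤ) ^ 2 + a := by
    unfold QPA.val
    rw [← Int.natCast_dvd_natCast, Int.dvd_natAbs]
  have hcong : ∀ ν : ℕ, (m : ℤ) ∣ (n : ℤ) - ν →
      ((m : ℤ) ∣ (n : ℤ) ^ 2 + a ↔ (m : ℤ) ∣ (ν : ℤ) ^ 2 + a) := by
    intro ν hν
    have h1 : (m : ℤ) ∣ ((n : ℤ) ^ 2 + a) - ((ν : ℤ) ^ 2 + a) := by
      have h2 : ((n : ℤ) ^ 2 + a) - ((ν : ℤ) ^ 2 + a) = (n - ν) * (n + ν) := by ring
      rw [h2]
      exact Dvd.dvd.mul_right hν _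
    constructor
    · intro h2
      have h3 := dvd_sub h2 h1
      rwa [sub_sub_cancel] at h3
    · intro h2
      have h3 := dvd_add h1 h2
      rwa [sub_add_cancel] at h3
  have hmod : (m : ℤ) ∣ (n : ℤ) - ((n % m : ℕ) : ℤ) := by
    have h1 : (n : ℤ) = (m : ℤ) * ((n / m : ℕ) : ℤ) + ((n % m : ℕ) : ℤ) := by
      exact_mod_cast (Nat.div_add_mod n m).symm
    refine ⟨((n / m : ℕ) : ℤ), ?_⟩
    linarith
  by_cases h : m ∣ val a n
  · rw [if_pos h, Finset.sum_eq_single (n % m)]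
    · rw [if_pos hmod]
    · intro ν hν hne
      rw [if_neg]
      intro hd
      apply hne
      have h1 : (m : ℤ) ∣ ((n % m : ℕ) : ℤ) - ν := by
        have h2 := dvd_sub hd hmod
        have h3 : (n : ℤ) - (ν : ℤ) - ((n : ℤ) - ((n % m : ℕ) : ℤ)) = ((n % m : ℕ) : ℤ) - ν := by
          ring
        rwa [h3] at h2
      have h4 : ν < m := mem_range.1 (mem_filter.1 hν).1
      have h5 : n % m < m := Nat.mod_lt _ hm
      have h6 : ((n % m : ℕ) : ℤ) - ν = 0 := by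
        apply Int.eq_zero_of_abs_lt_dvd h1
        rw [abs_lt]
        constructor
        · have : (ν : ℤ) < m := by exact_mod_cast h4
          have : (0 : ℤ) ≤ ((n % m : ℕ) : ℤ) := by positivity
          linarith
        · have : ((n % m : ℕ) : ℤ) < m := by exact_mod_cast h5
          have : (0 : ℤ) ≤ (ν : ℤ) := by positivity
          linarith
      have h7 : ((n % m : ℕ) : ℤ) = ν := by linarith
      exact_mod_cast h7.symm
    · intro hn
      exfalso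
      apply hn
      rw [mem_filter, mem_range]
      exact ⟨Nat.mod_lt _ hm, (hcong _ hmod).1 (hdv.1 h)⟩
  · rw [if_neg h]
    symm
    refine Finset.sum_eq_zero fun ν hν => ?_
    rw [if_neg]
    intro hd
    exact h (hdv.2 ((hcong ν hd).2 (mem_filter.1 hν).2))

/-- the term of the frequency `b` -/
def G (N m : ℕ) (a : ℤ) (b : ℕ) : ℂ :=
  (fj N m (b : ℤ) : ℂ) * ex (-((b : ℝ) * n0 N / m)) * rs a (b : ℤ) m

theorem tcnt_eq (hTNT : SpecTNT) (N m : ℕ) (a : ℤ) (hN : 1 ≤ N) (hm : 1 ≤ m) :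
    ((tcnt N a m : ℝ) : ℂ) = ∑ b ∈ range m, G N m a b := by
  have h1 : tcnt N a m = ∑ ν ∈ (range m).filter (fun ν : ℕ => (m : ℤ) ∣ (ν : ℤ) ^ 2 + a),
      ∑ n ∈ Icc 1 (4 * N), (if (m : ℤ) ∣ (n : ℤ) - ((ν : ℤ) : ℤ) then tn N n else 0) := by
    unfold tcnt
    rw [Finset.sum_comm]
    exact Finset.sum_congr rfl fun n _ => ind_roots a m n hm _
  rw [h1, Complex.ofReal_sum]
  refine (Finset.sum_congr rfl fun (ν : ℕ) _ => (hTNT N hN).2.2.2 m (ν : ℤ) hm).trans ?_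
  rw [Finset.sum_comm]
  refine Finset.sum_congr rfl fun b _ => ?_
  unfold G rs
  rw [Finset.mul_sum]
  refine Finset.sum_congr rfl fun ν _ => ?_
  rw [mul_assoc, ← ex_add]
  congr 2
  push_cast
  ring

theorem G_zero (hFJB : SpecFJB) (N m : ℕ) (a : ℤ) (hN : 1 ≤ N) (hm : 1 ≤ m) :
    G N m a 0 = (((N : ℝ) * rho a m / m : ℝ) : ℂ) := by
  unfold G
  have h1 : ex (-(((0 : ℕ) : ℝ) * n0 N / m)) = 1 := by
    have : (-(((0 : ℕ) : ℝ) * n0 N / m)) = ((0 : ℤ) : ℝ) := by simp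
    rw [this, ex_int]
  have h2 : fj N m ((0 : ℕ) : ℤ) = (N : ℝ) / m := by
    rw [Nat.cast_zero]
    exact (hFJB N m hN hm).1
  have h3 : rs a ((0 : ℕ) : ℤ) m = rho a m := by
    rw [Nat.cast_zero]
    exact rs_zero a m
  rw [h1, h2, h3]
  push_cast
  ring

theorem G_refl (hFJB : SpecFJB) (N m : ℕ) (a : ℤ) (hN : 1 ≤ N) (hm : 1 ≤ m) (h : ℕ) (hh : h ≤ m) :
    G N m a (m - h) = (fj N m h : ℂ) * ex ((h : ℝ) * n0 N / m) * rs a (-(h : ℤ)) m := by
  have hm0 : (m : ℝ) ≠ 0 := by positivity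
  unfold G
  have h0 : ((m - h : ℕ) : ℤ) = (m : ℤ) - h := by
    push_cast [Nat.cast_sub hh]
    ring
  have h0' : ((m - h : ℕ) : ℝ) = (m : ℝ) - h := by
    push_cast [Nat.cast_sub hh]
    ring
  have h1 : fj N m ((m : ℤ) - h) = fj N m h := by
    have h2 := ((hFJB N m hN hm).2.2.1 ((m : ℤ) - h)).1
    have h3 := ((hFJB N m hN hm).2.2.1 (h : ℤ)).2
    have h4 : (m : ℤ) - h - m = -(h : ℤ) := by ring
    rw [h4, h3] at h2
    exact h2.symm
  have h5 : ex (-(((m : ℝ) - h) * n0 N / m)) = ex ((h : ℝ) * n0 N / m) := by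
    have h6 : (-(((m : ℝ) - h) * n0 N / m)) = ((-(n0 N : ℤ) : ℤ) : ℝ) + (h : ℝ) * n0 N / m := by
      push_cast
      field_simp
      ring
    rw [h6, ex_add, ex_int, one_mul]
  rw [h0, h0', h1, h5, rs_shift a h m hm]

theorem sum_inv (m H : ℕ) :
    ∑ b ∈ Ioo H (m - H), (1 : ℝ) / (min (b : ℝ) ((m : ℝ) - b)) ^ 2 ≤ 4 / ((H : ℝ) + 1) := by
  have h1 : ∑ b ∈ Ioo H (m - H), ((b : ℝ) ^ 2)⁻¹ ≤ 2 / ((H : ℝ) + 1) := sum_Ioo_inv_sq_le H (m - H)
  have h2 : ∑ b ∈ Ioo H (m - H), (((m : ℝ) - b) ^ 2)⁻¹ = ∑ b ∈ Ioo H (m - H), ((b : ℝ) ^ 2)⁻¹ := by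
    refine Finset.sum_nbij' (fun b => m - b) (fun b => m - b) ?_ ?_ ?_ ?_ ?_
    · intro b hb
      rw [mem_Ioo] at hb ⊢
      omega
    · intro b hb
      rw [mem_Ioo] at hb ⊢
      omega
    · intro b hb
      rw [mem_Ioo] at hb
      show m - (m - b) = b
      omega
    · intro b hb
      rw [mem_Ioo] at hb
      show m - (m - b) = b
      omega
    · intro b hb
      rw [mem_Ioo] at hb
      have : b ≤ m := by omega
      rw [Nat.cast_sub this]
  calc ∑ b ∈ Ioo H (m - H), (1 : ℝ) / (min (b : ℝ) ((m : ℝ) - b)) ^ 2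
      ≤ ∑ b ∈ Ioo H (m - H), (((b : ℝ) ^ 2)⁻¹ + (((m : ℝ) - b) ^ 2)⁻¹) := by
        refine Finset.sum_le_sum fun b hb => ?_
        rcases min_choice (b : ℝ) ((m : ℝ) - b) with h | h
        · rw [h, one_div]
          have : 0 ≤ (((m : ℝ) - b) ^ 2)⁻¹ := by positivity
          linarith
        · rw [h, one_div]
          have : 0 ≤ ((b : ℝ) ^ 2)⁻¹ := by positivity
          linarith
    _ ≤ 4 / ((H : ℝ) + 1) := by
        rw [Finset.sum_add_distrib, h2]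
        have : (4 : ℝ) / ((H : ℝ) + 1) = 2 / ((H : ℝ) + 1) + 2 / ((H : ℝ) + 1) := by ring
        rw [this]
        exact add_le_add h1 h1

end TCEM

open TCEM in
theorem specTCE (hTNT : SpecTNT) (hFJB : SpecFJB) : SpecTCE := by
  intro N m H a hN hm hH
  have hN0 : (0 : ℝ) < N := by exact_mod_cast hN
  have hm0 : (0 : ℝ) < m := by exact_mod_cast hm
  have hG : ((Ger N a m : ℝ) : ℂ) - ∑ h ∈ Icc 1 H, ((fj N m h : ℂ) *
      ex (-((h : ℝ) * n0 N / m)) * rs a h m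
      + (fj N m h : ℂ) * ex ((h : ℝ) * n0 N / m) * rs a (-(h : ℤ)) m)
      = ∑ b ∈ Ioo H (m - H), G N m a b := by
    have h1 : ((Ger N a m : ℝ) : ℂ) = ∑ b ∈ Ico 1 m, G N m a b := by
      unfold Ger
      rw [Complex.ofReal_sub, tcnt_eq hTNT N m a hN hm, ← G_zero hFJB N m a hN hm,
        Finset.range_eq_Ico, Finset.sum_eq_sum_Ico_succ_bot (by omega : 0 < m)]
      ring
    have h2 : ∑ b ∈ Ico 1 m, G N m a b = ∑ b ∈ Ico 1 (H + 1), G N m a b
        + ∑ b ∈ Ico (H + 1) (m - H), G N m a b + ∑ b ∈ Ico (m - H) m, G N m a b := by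
      rw [Finset.sum_Ico_consecutive _ (by omega) (by omega),
        Finset.sum_Ico_consecutive _ (by omega) (by omega)]
    have h3 : ∑ b ∈ Ico (m - H) m, G N m a b = ∑ h ∈ Icc 1 H, G N m a (m - h) := by
      refine Finset.sum_nbij' (fun b => m - b) (fun h => m - h) ?_ ?_ ?_ ?_ ?_
      · intro b hb
        rw [mem_Ico] at hb
        rw [mem_Icc]
        omega
      · intro h hh
        rw [mem_Icc] at hh
        rw [mem_Ico]
        omega
      · intro b hb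
        rw [mem_Ico] at hb
        show m - (m - b) = b
        omega
      · intro h hh
        rw [mem_Icc] at hh
        show m - (m - h) = h
        omega
      · intro b hb
        rw [mem_Ico] at hb
        have : m - (m - b) = b := by omega
        rw [this]
    have h4 : ∑ h ∈ Icc 1 H, G N m a (m - h) = ∑ h ∈ Icc 1 H,
        ((fj N m h : ℂ) * ex ((h : ℝ) * n0 N / m) * rs a (-(h : ℤ)) m) := by
      refine Finset.sum_congr rfl fun h hh => ?_
      rw [mem_Icc] at hh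
      exact G_refl hFJB N m a hN hm h (by omega)
    have h5 : Ico 1 (H + 1) = Icc 1 H := by
      ext x
      rw [mem_Ico, mem_Icc]
      omega
    have h6 : Ico (H + 1) (m - H) = Ioo H (m - H) := by
      ext x
      rw [mem_Ico, mem_Ioo]
      omega
    rw [h1, h2, h3, h4, h5, h6, Finset.sum_add_distrib]
    unfold G
    ring
  rw [hG]
  have hb : ∀ b ∈ Ioo H (m - H), ‖G N m a b‖ ≤
      (rho a m : ℝ) * (m / (4 * N)) * (1 / (min (b : ℝ) ((m : ℝ) - b)) ^ 2) := by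
    intro b hb
    rw [mem_Ioo] at hb
    have h1 := (hFJB N m hN hm).2.1 b (by omega) (by omega)
    unfold G
    rw [norm_mul, norm_mul, norm_ex, mul_one, Complex.norm_real, Real.norm_eq_abs,
      abs_of_nonneg h1.1]
    have h2 := rs_le a (b : ℤ) m
    calc fj N m (b : ℤ) * ‖rs a (b : ℤ) m‖ ≤
        (m / (4 * N * (min (b : ℝ) ((m : ℝ) - b)) ^ 2)) * (rho a m : ℝ) :=
          mul_le_mul h1.2 h2 (norm_nonneg _) (by positivity)
      _ = (rho a m : ℝ) * (m / (4 * N)) * (1 / (min (b : ℝ) ((m : ℝ) - b)) ^ 2) := by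
          rw [div_mul_eq_div_div]
          ring
  calc ‖∑ b ∈ Ioo H (m - H), G N m a b‖ ≤ ∑ b ∈ Ioo H (m - H), ‖G N m a b‖ := norm_sum_le _ _
    _ ≤ ∑ b ∈ Ioo H (m - H), (rho a m : ℝ) * (m / (4 * N)) *
        (1 / (min (b : ℝ) ((m : ℝ) - b)) ^ 2) := Finset.sum_le_sum hb
    _ = (rho a m : ℝ) * (m / (4 * N)) * ∑ b ∈ Ioo H (m - H),
        (1 / (min (b : ℝ) ((m : ℝ) - b)) ^ 2) := by rw [Finset.mul_sum]
    _ ≤ (rho a m : ℝ) * (m / (4 * N)) * (4 / ((H : ℝ) + 1)) :=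
        mul_le_mul_of_nonneg_left (sum_inv m H) (by positivity)
    _ = (rho a m : ℝ) * m / (N * ((H : ℝ) + 1)) := by
        field_simp

end

end Pool.Agent.Lib.MP391708.U
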