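import Pool.Agent.Lib.MP_391708_nt.U.SpecU2

/-!
# Project U (MP_391708), part U2, module TYA: one dyadic block of moduli
-/

set_option autoImplicit false

namespace Pool.Agent.Lib.MP391708.U

open Finset Filter Topology Pool.Agent.Lib.MP391708.QPA
open scoped Classical

noncomputable section

namespace TYAM

theorem ev (c θ : ℝ) (hθ : 0 < θ) : ∃ N₀ : ℕ, 1 ≤ N₀ ∧ ∀ N : ℕ, N₀ ≤ N → c ≤ (N : ℝ) ^ θ := by
  have h1 := (tendsto_rpow_atTop hθ).comp tendsto_natCast_atTop_atTop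
  obtain ⟨N₀, h⟩ := Filter.eventually_atTop.1 (h1.eventually_ge_atTop c)
  exact ⟨max N₀ 1, le_max_right _ _, fun N hN => h N ((le_max_left _ _).trans hN)⟩

theorem rootw_small (hR : SpecROOTW) : ∃ s : ℝ, 0 < s ∧ s ≤ 1 / 2 ∧ ∃ N₀ : ℕ, ∀ N : ℕ, N₀ ≤ N →
    ∀ a : ℤ, ¬ IsSquare (-a) →
    |(a : ℝ)| ≤ (N : ℝ) ^ (11 / 10 : ℝ) → ∀ q : ℕ, 1 ≤ q → (q : ℝ) ≤ (N : ℝ) ^ s →
    ∀ h : ℤ, h ≠ 0 → |(h : ℝ)| ≤ (N : ℝ) ^ s → ∀ M₁ M₂ : ℕ, M₁ ≤ M₂ → (M₂ : ℝ) ≤ (N : ℝ) ^ (1 + s) →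
      ‖∑ m ∈ (Ioc M₁ M₂).filter (fun m => q ∣ m), rs a h m‖ ≤ (N : ℝ) ^ (1 - s) := by
  obtain ⟨σ, hσ, N₀, h⟩ := hR
  refine ⟨min σ (1 / 2), lt_min hσ (by norm_num), min_le_right _ _, max N₀ 1, ?_⟩
  intro N hN a ha haN q hq hqN g hg hgN M₁ M₂ hM hMN
  have hN1 : (1 : ℝ) ≤ N := by exact_mod_cast (le_max_right _ _).trans hN
  have hm : min σ (1 / 2 : ℝ) ≤ σ := min_le_left _ _
  refine (h N ((le_max_left _ _).trans hN) a ha haN q hq
    (hqN.trans (Real.rpow_le_rpow_of_exponent_le hN1 hm)) g hg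
    (hgN.trans (Real.rpow_le_rpow_of_exponent_le hN1 hm)) M₁ M₂ hM
    (hMN.trans (Real.rpow_le_rpow_of_exponent_le hN1 (by linarith)))).trans
    (Real.rpow_le_rpow_of_exponent_le hN1 (by linarith))

theorem rho_sum {C s : ℝ} (hC : 0 < C) (hs : 0 < s) (hs1 : s ≤ 1 / 2) (N M₂ : ℕ) (a : ℤ) (hN : 1 ≤ N)
    (hr : ∑ m ∈ Icc 1 M₂, (rho a m : ℝ) ≤ C * ((M₂ : ℝ) + |(a : ℝ)|) ^ (s / 256) * M₂)
    (hM : (M₂ : ℝ) ≤ (N : ℝ) ^ (11 / 10 : ℝ)) (ha : |(a : ℝ)| ≤ (N : ℝ) ^ (11 / 10 : ℝ)) :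
    ∑ m ∈ Icc 1 M₂, (rho a m : ℝ) ≤ 2 * C * (N : ℝ) ^ (s / 200) * M₂ := by
  have hN1 : (1 : ℝ) ≤ N := by exact_mod_cast hN
  have hN0 : (0 : ℝ) ≤ N := by linarith
  have h0 : (0 : ℝ) ≤ (N : ℝ) ^ (11 / 10 : ℝ) := Real.rpow_nonneg hN0 _
  have h1 : ((M₂ : ℝ) + |(a : ℝ)|) ^ (s / 256) ≤ 2 * (N : ℝ) ^ (s / 200) := by
    calc ((M₂ : ℝ) + |(a : ℝ)|) ^ (s / 256) ≤ (2 * (N : ℝ) ^ (11 / 10 : ℝ)) ^ (s / 256) :=
          Real.rpow_le_rpow (by positivity) (by linarith) (by positivity)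
      _ = 2 ^ (s / 256) * ((N : ℝ) ^ (11 / 10 : ℝ)) ^ (s / 256) :=
          Real.mul_rpow (by norm_num) h0
      _ = 2 ^ (s / 256) * (N : ℝ) ^ (11 / 10 * (s / 256)) := by rw [Real.rpow_mul hN0]
      _ ≤ 2 * (N : ℝ) ^ (s / 200) := by
          refine mul_le_mul ?_ (Real.rpow_le_rpow_of_exponent_le hN1 (by linarith))
            (Real.rpow_nonneg hN0 _) (by norm_num)
          calc (2 : ℝ) ^ (s / 256) ≤ 2 ^ (1 : ℝ) :=
                Real.rpow_le_rpow_of_exponent_le (by norm_num) (by linarith)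
            _ = 2 := Real.rpow_one _
  refine hr.trans ?_
  have h2 : C * ((M₂ : ℝ) + |(a : ℝ)|) ^ (s / 256) ≤ 2 * C * (N : ℝ) ^ (s / 200) := by
    have := mul_le_mul_of_nonneg_left h1 hC.le
    linarith
  exact mul_le_mul_of_nonneg_right h2 (Nat.cast_nonneg _)

theorem n0_le (N : ℕ) (hN : 1 ≤ N) : n0 N ≤ 2 * N := by
  unfold n0
  omega

theorem ex_add' (x y : ℝ) : ex (x + y) = ex x * ex y := by
  unfold ex
  rw [← Complex.exp_add]
  congr 1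
  push_cast
  ring

theorem T_bound (hF : SpecFJB) (hA : SpecABL) (N M₁ M₂ Q : ℕ) (a h : ℤ) (B Hr : ℝ) (hN : 1 ≤ N)
    (hM₁ : 1 ≤ M₁) (hM : M₁ ≤ M₂)
    (hB : ∀ M ∈ Icc M₁ M₂, ‖∑ m ∈ (Ioc M₁ M).filter (fun m => Q ∣ m), rs a h m‖ ≤ B)
    (hh : |(h : ℝ)| ≤ Hr) :
    ‖∑ m ∈ (Ioc M₁ M₂).filter (fun m => Q ∣ m),
      (fj N m h : ℂ) * ex (-((h : ℝ) * n0 N / m)) * rs a h m‖
      ≤ N * (B / M₁ * (2 + 19 * Hr * N / M₁)) := by
  have hN1 : (1 : ℝ) ≤ N := by exact_mod_cast hN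
  have hM1 : (1 : ℝ) ≤ M₁ := by exact_mod_cast hM₁
  have hB0 : 0 ≤ B := (norm_nonneg _).trans (hB M₁ (mem_Icc.2 ⟨le_refl _, hM⟩))
  have hH0 : 0 ≤ Hr := (abs_nonneg _).trans hh
  set c : ℕ → ℂ := fun m => if Q ∣ m then rs a h m else 0 with hc
  have e1 : ∑ m ∈ (Ioc M₁ M₂).filter (fun m => Q ∣ m),
      (fj N m h : ℂ) * ex (-((h : ℝ) * n0 N / m)) * rs a h m
      = 1 / (N : ℂ) * ∑ i ∈ range N, ∑ j ∈ range N, ∑ m ∈ Ioc M₁ M₂,
        (1 / (m : ℂ)) * ex (((h : ℝ) * ((i : ℝ) - j - n0 N)) / m) * c m := by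
    have e2 : ∑ i ∈ range N, ∑ j ∈ range N, ∑ m ∈ Ioc M₁ M₂,
        (1 / (m : ℂ)) * ex (((h : ℝ) * ((i : ℝ) - j - n0 N)) / m) * c m
        = ∑ m ∈ Ioc M₁ M₂, ∑ i ∈ range N, ∑ j ∈ range N,
        (1 / (m : ℂ)) * ex (((h : ℝ) * ((i : ℝ) - j - n0 N)) / m) * c m := by
      calc _ = ∑ i ∈ range N, ∑ m ∈ Ioc M₁ M₂, ∑ j ∈ range N,
            (1 / (m : ℂ)) * ex (((h : ℝ) * ((i : ℝ) - j - n0 N)) / m) * c m :=
          sum_congr rfl (fun i _ => sum_comm)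
        _ = _ := sum_comm
    rw [sum_filter, e2, mul_sum]
    refine sum_congr rfl (fun m hm => ?_)
    have hm1 : 1 ≤ m := by
      have := (mem_Ioc.1 hm).1
      omega
    by_cases hQ : Q ∣ m
    · have hcm : c m = rs a h m := by rw [hc]; exact if_pos hQ
      rw [if_pos hQ, (hF N m hN hm1).2.2.2 h, hcm]
      have e4 : ∀ i ∈ range N, ∀ j ∈ range N,
          (1 / (m : ℂ)) * ex (((h : ℝ) * ((i : ℝ) - j - n0 N)) / m) * rs a h m
          = ex ((h : ℝ) * ((i : ℝ) - j) / m) *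
            ((1 / (m : ℂ)) * ex (-((h : ℝ) * n0 N / m)) * rs a h m) := by
        intro i _ j _
        have e5 : ((h : ℝ) * ((i : ℝ) - j - n0 N)) / m
            = (h : ℝ) * ((i : ℝ) - j) / m + -((h : ℝ) * n0 N / m) := by ring
        rw [e5, ex_add']
        ring
      rw [sum_congr rfl (fun i hi => sum_congr rfl (fun j hj => e4 i hi j hj))]
      simp_rw [← sum_mul]
      rw [one_div, mul_inv, one_div, one_div]
      ring
    · have hcm : c m = 0 := by rw [hc]; exact if_neg hQ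
      rw [if_neg hQ, hcm]
      simp
  have e3 : ∀ i ∈ range N, ∀ j ∈ range N, ‖∑ m ∈ Ioc M₁ M₂,
        (1 / (m : ℂ)) * ex (((h : ℝ) * ((i : ℝ) - j - n0 N)) / m) * c m‖
        ≤ B / M₁ * (2 + 19 * Hr * N / M₁) := by
    intro i hi j hj
    have hi1 : (i : ℝ) ≤ N := by exact_mod_cast (mem_range.1 hi).le
    have hj1 : (j : ℝ) ≤ N := by exact_mod_cast (mem_range.1 hj).le
    have hi0 : (0 : ℝ) ≤ i := Nat.cast_nonneg _
    have hj0 : (0 : ℝ) ≤ j := Nat.cast_nonneg _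
    have hn0 : (0 : ℝ) ≤ n0 N := Nat.cast_nonneg _
    have hn1 : (n0 N : ℝ) ≤ 2 * N := by exact_mod_cast n0_le N hN
    have h1 := hA c M₁ M₂ B ((h : ℝ) * ((i : ℝ) - j - n0 N)) hM₁ hM (by
      intro M hM'
      rw [hc, ← sum_filter]
      exact hB M hM')
    refine h1.trans ?_
    have h2 : |(h : ℝ) * ((i : ℝ) - j - n0 N)| ≤ Hr * (3 * N) := by
      rw [abs_mul]
      refine mul_le_mul hh ?_ (abs_nonneg _) hH0
      rw [abs_le]
      constructor <;> linarith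
    have h3 : 2 * Real.pi * |(h : ℝ) * ((i : ℝ) - j - n0 N)| ≤ 19 * Hr * N := by
      have hp : Real.pi ≤ 3.15 := Real.pi_lt_d2.le
      have hp0 : 0 < Real.pi := Real.pi_pos
      calc 2 * Real.pi * |(h : ℝ) * ((i : ℝ) - j - n0 N)| ≤ 2 * 3.15 * (Hr * (3 * N)) := by
            refine mul_le_mul (by linarith) h2 (abs_nonneg _) (by norm_num)
        _ ≤ 19 * Hr * N := by
            have : 0 ≤ Hr * N := mul_nonneg hH0 (by linarith)
            nlinarith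
    refine mul_le_mul_of_nonneg_left ?_ (by positivity)
    have := div_le_div_of_nonneg_right h3 (by linarith : (0 : ℝ) ≤ M₁)
    linarith
  rw [e1, norm_mul]
  have h4 : ‖(1 / (N : ℂ))‖ = 1 / N := by
    rw [norm_div, norm_one, Complex.norm_natCast]
  rw [h4]
  have h5 : ‖∑ i ∈ range N, ∑ j ∈ range N, ∑ m ∈ Ioc M₁ M₂,
        (1 / (m : ℂ)) * ex (((h : ℝ) * ((i : ℝ) - j - n0 N)) / m) * c m‖
        ≤ ∑ i ∈ range N, ∑ j ∈ range N, B / M₁ * (2 + 19 * Hr * N / M₁) :=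
    (norm_sum_le _ _).trans (sum_le_sum fun i hi =>
      (norm_sum_le _ _).trans (sum_le_sum fun j hj => e3 i hi j hj))
  rw [sum_const, sum_const, card_range, nsmul_eq_mul, nsmul_eq_mul] at h5
  calc 1 / (N : ℝ) * _ ≤ 1 / (N : ℝ) * (N * (N * (B / M₁ * (2 + 19 * Hr * N / M₁)))) :=
        mul_le_mul_of_nonneg_left h5 (by positivity)
    _ = N * (B / M₁ * (2 + 19 * Hr * N / M₁)) := by
        field_simp

end TYAM

open TYAM in
/-- TYA. -/
theorem specTYA (hR : SpecROOTW) (hT : SpecTCE) (hF : SpecFJB) (hA : SpecABL) (hS : SpecRSU) :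
    SpecTYA := by
  obtain ⟨s, hs, hs2, N₁, hR⟩ := rootw_small hR
  obtain ⟨C, hC, hS⟩ := hS (s / 256) (by positivity)
  obtain ⟨N₂, hN₂, hbig⟩ := ev (42 + 8 * C) (s / 16) (by positivity)
  refine ⟨s / 64, by positivity, max N₁ N₂, ?_⟩
  intro N hN a ha haN Q hQ hQN M₁ M₂ hM₁ hM hM2 hMN
  have hNn : 1 ≤ N := hN₂.trans ((le_max_right _ _).trans hN)
  have hN1 : (1 : ℝ) ≤ N := by exact_mod_cast hNn
  have hN0 : (0 : ℝ) < N := by linarith
  have hBg := hbig N ((le_max_right _ _).trans hN)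
  have hmono : ∀ x y : ℝ, x ≤ y → (N : ℝ) ^ x ≤ (N : ℝ) ^ y :=
    fun x y h => Real.rpow_le_rpow_of_exponent_le hN1 h
  have hadd : ∀ x y : ℝ, (N : ℝ) ^ x * (N : ℝ) ^ y = (N : ℝ) ^ (x + y) :=
    fun x y => (Real.rpow_add hN0 x y).symm
  have hpos : ∀ x : ℝ, 0 < (N : ℝ) ^ x := fun x => Real.rpow_pos_of_pos hN0 x
  have hRN := hR N ((le_max_left _ _).trans hN) a ha haN Q hQ
    (hQN.trans (hmono _ _ (by linarith)))
  have hMN' : (M₂ : ℝ) ≤ (N : ℝ) ^ (11 / 10 : ℝ) := hMN.trans (hmono _ _ (by linarith))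
  have hrS : ∑ m ∈ Icc 1 M₂, (rho a m : ℝ) ≤ 2 * C * (N : ℝ) ^ (s / 200) * M₂ :=
    rho_sum hC hs hs2 N M₂ a hNn ((hS a ha M₂ (hM₁.trans hM)).1) hMN' haN
  have hM1R : (1 : ℝ) ≤ M₁ := by exact_mod_cast hM₁
  have hM2R : (0 : ℝ) ≤ M₂ := Nat.cast_nonneg _
  have hFm : ∀ m ∈ (Ioc M₁ M₂).filter (fun m => Q ∣ m), M₁ < m ∧ m ≤ M₂ := fun m hm =>
    mem_Ioc.1 (mem_filter.1 hm).1
  have herr : ∀ H : ℝ, 0 ≤ H → ∑ m ∈ (Ioc M₁ M₂).filter (fun m => Q ∣ m),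
      (rho a m : ℝ) * m / (N * (H + 1))
      ≤ 2 * C * (N : ℝ) ^ (s / 200) * ((M₂ : ℝ) ^ 2 / (N * (H + 1))) := by
    intro H hH
    have h1 : ∑ m ∈ (Ioc M₁ M₂).filter (fun m => Q ∣ m), (rho a m : ℝ) * m / (N * (H + 1))
        ≤ ∑ m ∈ (Ioc M₁ M₂).filter (fun m => Q ∣ m), (rho a m : ℝ) * (M₂ / (N * (H + 1))) := by
      refine sum_le_sum (fun m hm => ?_)
      rw [mul_div_assoc]
      refine mul_le_mul_of_nonneg_left ?_ (Nat.cast_nonneg _)
      exact div_le_div_of_nonneg_right (by exact_mod_cast (hFm m hm).2) (by positivity)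
    have h2 : ∑ m ∈ (Ioc M₁ M₂).filter (fun m => Q ∣ m), (rho a m : ℝ)
        ≤ ∑ m ∈ Icc 1 M₂, (rho a m : ℝ) := by
      refine sum_le_sum_of_subset_of_nonneg ?_ (fun _ _ _ => Nat.cast_nonneg _)
      intro m hm
      have := hFm m hm
      exact mem_Icc.2 ⟨by omega, this.2⟩
    rw [← sum_mul] at h1
    refine h1.trans ((mul_le_mul_of_nonneg_right (h2.trans hrS) (by positivity)).trans (le_of_eq ?_))
    ring
  have hfin : (42 + 8 * C) * (N : ℝ) ^ (1 - s / 64 - s / 16) ≤ (N : ℝ) ^ (1 - s / 64) := by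
    refine (mul_le_mul_of_nonneg_right hBg (hpos _).le).trans (le_of_eq ?_)
    rw [hadd]
    congr 1
    ring
  rcases le_or_gt ((M₁ : ℝ)) ((N : ℝ) ^ (1 - s / 8)) with hc | hc
  · -- the small moduli
    have h1 : ∀ m ∈ (Ioc M₁ M₂).filter (fun m => Q ∣ m),
        |Ger N a m| ≤ (rho a m : ℝ) * m / (N * (0 + 1)) := by
      intro m hm
      have h2 := hT N m 0 a hNn (by have := hFm m hm; omega) (by have := hFm m hm; omega)
      rw [Icc_eq_empty (by norm_num), sum_empty, sub_zero, Complex.norm_real, Real.norm_eq_abs,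
        Nat.cast_zero] at h2
      exact h2
    have h3 : (M₂ : ℝ) ^ 2 / (N * (0 + 1)) ≤ 4 * (N : ℝ) ^ (1 - s / 4) := by
      rw [zero_add, mul_one, div_le_iff₀ hN0]
      have h4 : (M₂ : ℝ) ≤ 2 * (N : ℝ) ^ (1 - s / 8) := by
        have : (M₂ : ℝ) ≤ 2 * M₁ := by exact_mod_cast hM2
        linarith
      have h5 : (N : ℝ) ^ (1 - s / 4) * N = (N : ℝ) ^ (1 - s / 8) * (N : ℝ) ^ (1 - s / 8) := by
        rw [hadd]
        nth_rewrite 2 [← Real.rpow_one (N : ℝ)]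
        rw [hadd]
        congr 1
        ring
      rw [mul_assoc, h5]
      nlinarith [hpos (1 - s / 8)]
    calc |∑ m ∈ (Ioc M₁ M₂).filter (fun m => Q ∣ m), Ger N a m|
        ≤ ∑ m ∈ (Ioc M₁ M₂).filter (fun m => Q ∣ m), |Ger N a m| := abs_sum_le_sum_abs _ _
      _ ≤ ∑ m ∈ (Ioc M₁ M₂).filter (fun m => Q ∣ m), (rho a m : ℝ) * m / (N * (0 + 1)) :=
          sum_le_sum h1
      _ ≤ 2 * C * (N : ℝ) ^ (s / 200) * ((M₂ : ℝ) ^ 2 / (N * (0 + 1))) := herr 0 le_rfl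
      _ ≤ 2 * C * (N : ℝ) ^ (s / 200) * (4 * (N : ℝ) ^ (1 - s / 4)) :=
          mul_le_mul_of_nonneg_left h3 (by positivity)
      _ = 8 * C * (N : ℝ) ^ (s / 200 + (1 - s / 4)) := by
          rw [← hadd]
          ring
      _ ≤ (42 + 8 * C) * (N : ℝ) ^ (1 - s / 64 - s / 16) :=
          mul_le_mul (by linarith) (hmono _ _ (by linarith)) (hpos _).le (by positivity)
      _ ≤ _ := hfin
  · -- the large moduli
    set y : ℝ := (N : ℝ) ^ (s / 8) with hy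
    have hy1 : 1 ≤ y := Real.one_le_rpow hN1 (by positivity)
    have hy0 : 0 < y := by linarith
    set H : ℕ := ⌊y⌋₊ with hH
    have hHy : (H : ℝ) ≤ y := Nat.floor_le hy0.le
    have hHy2 : y < (H : ℝ) + 1 := Nat.lt_floor_add_one y
    have h2y : 2 * y ≤ (N : ℝ) ^ (1 - s / 8) := by
      have h1 : (N : ℝ) ^ (1 - s / 8) = (N : ℝ) ^ (1 - s / 4) * y := by
        rw [hy, hadd]
        congr 1
        ring
      rw [h1]
      refine mul_le_mul_of_nonneg_right ?_ hy0.le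
      have h2 := hmono (s / 16) (1 - s / 4) (by linarith)
      linarith
    have h2H : ∀ m, M₁ < m → 2 * H < m := by
      intro m hm
      have h1 : (2 * H : ℝ) < M₁ := by linarith
      have h2 : 2 * H < M₁ := by exact_mod_cast h1
      omega
    have hNM : (N : ℝ) / M₁ ≤ y := by
      rw [div_le_iff₀ (by linarith)]
      have h1 : (N : ℝ) = y * (N : ℝ) ^ (1 - s / 8) := by
        rw [hy, hadd]
        have h2 : s / 8 + (1 - s / 8) = 1 := by ring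
        rw [h2, Real.rpow_one]
      rw [h1]
      refine mul_le_mul_of_nonneg_left hc.le hy0.le
    have hbd : (N : ℝ) * ((N : ℝ) ^ (1 - s) / M₁ * (2 + 19 * y * N / M₁))
        ≤ 21 * (N : ℝ) ^ (1 - s) * y ^ 3 := by
      have h1 : (N : ℝ) * ((N : ℝ) ^ (1 - s) / M₁ * (2 + 19 * y * N / M₁))
          = (N : ℝ) ^ (1 - s) * ((N : ℝ) / M₁ * (2 + 19 * y * ((N : ℝ) / M₁))) := by ring
      rw [h1]
      have h0 : 0 ≤ (N : ℝ) / M₁ := by positivity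
      have h2 : (N : ℝ) / M₁ * (2 + 19 * y * ((N : ℝ) / M₁)) ≤ y * (2 + 19 * y * y) := by
        refine mul_le_mul hNM ?_ (by positivity) hy0.le
        have := mul_le_mul_of_nonneg_left hNM (by positivity : 0 ≤ 19 * y)
        linarith
      have h3 : y * (2 + 19 * y * y) ≤ 21 * y ^ 3 := by
        have h4 : y ≤ y ^ 3 := by
          calc y = y ^ 1 := (pow_one y).symm
            _ ≤ y ^ 3 := pow_le_pow_right₀ hy1 (by norm_num)
        nlinarith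
      calc _ ≤ (N : ℝ) ^ (1 - s) * (21 * y ^ 3) :=
            mul_le_mul_of_nonneg_left (h2.trans h3) (hpos _).le
        _ = _ := by ring
    -- the sums over the roots
    have hroot : ∀ h : ℤ, h ≠ 0 → |(h : ℝ)| ≤ y →
        ‖∑ m ∈ (Ioc M₁ M₂).filter (fun m => Q ∣ m),
          (fj N m h : ℂ) * ex (-((h : ℝ) * n0 N / m)) * rs a h m‖
          ≤ 21 * (N : ℝ) ^ (1 - s) * y ^ 3 := by
      intro h hh0 hhy
      refine (T_bound hF hA N M₁ M₂ Q a h ((N : ℝ) ^ (1 - s)) y hNn hM₁ hM ?_ hhy).trans hbd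
      intro M hM'
      have hM'' := mem_Icc.1 hM'
      refine hRN h hh0 (hhy.trans (hmono _ _ (by linarith))) M₁ M hM''.1 ?_
      have h1 : (M : ℝ) ≤ M₂ := by exact_mod_cast hM''.2
      exact h1.trans (hMN.trans (hmono _ _ (by linarith)))
    have hroot2 : ∀ h ∈ Icc 1 H, ‖∑ m ∈ (Ioc M₁ M₂).filter (fun m => Q ∣ m),
        ((fj N m h : ℂ) * ex (-((h : ℝ) * n0 N / m)) * rs a h m
          + (fj N m h : ℂ) * ex ((h : ℝ) * n0 N / m) * rs a (-(h : ℤ)) m)‖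
        ≤ 42 * (N : ℝ) ^ (1 - s) * y ^ 3 := by
      intro h hh
      have hh1 := mem_Icc.1 hh
      have hhR : (h : ℝ) ≤ y := by
        have : (h : ℝ) ≤ H := by exact_mod_cast hh1.2
        linarith
      rw [sum_add_distrib]
      have h1 := hroot (h : ℤ) (by omega) (by
        rw [Int.cast_natCast, abs_of_nonneg (Nat.cast_nonneg h)]
        exact hhR)
      have h2 := hroot (-(h : ℤ)) (by omega) (by
        rw [Int.cast_neg, abs_neg, Int.cast_natCast, abs_of_nonneg (Nat.cast_nonneg h)]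
        exact hhR)
      have e1 : ∑ m ∈ (Ioc M₁ M₂).filter (fun m => Q ∣ m),
          (fj N m h : ℂ) * ex (-((((h : ℤ) : ℝ)) * n0 N / m)) * rs a h m
          = ∑ m ∈ (Ioc M₁ M₂).filter (fun m => Q ∣ m),
          (fj N m h : ℂ) * ex (-((h : ℝ) * n0 N / m)) * rs a h m := by
        refine sum_congr rfl (fun m _ => ?_)
        rw [Int.cast_natCast]
      have e2 : ∑ m ∈ (Ioc M₁ M₂).filter (fun m => Q ∣ m),
          (fj N m (-(h : ℤ)) : ℂ) * ex (-((((-(h : ℤ)) : ℤ) : ℝ) * n0 N / m)) * rs a (-(h : ℤ)) m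
          = ∑ m ∈ (Ioc M₁ M₂).filter (fun m => Q ∣ m),
          (fj N m h : ℂ) * ex ((h : ℝ) * n0 N / m) * rs a (-(h : ℤ)) m := by
        refine sum_congr rfl (fun m hm => ?_)
        have hm1 : 1 ≤ m := by
          have := hFm m hm
          omega
        rw [((hF N m hNn hm1).2.2.1 (h : ℤ)).2, Int.cast_neg, Int.cast_natCast]
        have e3 : -(-(h : ℝ) * n0 N / m) = (h : ℝ) * n0 N / m := by ring
        rw [e3]
      rw [e1] at h1
      rw [e2] at h2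
      refine (norm_add_le _ _).trans ((add_le_add h1 h2).trans (le_of_eq ?_))
      ring
    have hmain : ‖∑ m ∈ (Ioc M₁ M₂).filter (fun m => Q ∣ m), ∑ h ∈ Icc 1 H,
        ((fj N m h : ℂ) * ex (-((h : ℝ) * n0 N / m)) * rs a h m
          + (fj N m h : ℂ) * ex ((h : ℝ) * n0 N / m) * rs a (-(h : ℤ)) m)‖
        ≤ 42 * (N : ℝ) ^ (1 - s / 64 - s / 16) := by
      rw [sum_comm]
      refine (norm_sum_le _ _).trans ((sum_le_sum hroot2).trans ?_)
      rw [sum_const, Nat.card_Icc, nsmul_eq_mul, Nat.add_sub_cancel]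
      have h1 : y ^ 4 = (N : ℝ) ^ (s / 2) := by
        rw [hy, ← Real.rpow_natCast, ← Real.rpow_mul hN0.le]
        congr 1
        push_cast
        ring
      calc (H : ℝ) * (42 * (N : ℝ) ^ (1 - s) * y ^ 3) ≤ y * (42 * (N : ℝ) ^ (1 - s) * y ^ 3) :=
            mul_le_mul_of_nonneg_right hHy (by positivity)
        _ = 42 * ((N : ℝ) ^ (1 - s) * y ^ 4) := by ring
        _ = 42 * (N : ℝ) ^ (1 - s + s / 2) := by rw [h1, hadd]
        _ ≤ 42 * (N : ℝ) ^ (1 - s / 64 - s / 16) :=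
            mul_le_mul_of_nonneg_left (hmono _ _ (by linarith)) (by norm_num)
    have herr2 : ‖∑ m ∈ (Ioc M₁ M₂).filter (fun m => Q ∣ m), (((Ger N a m : ℝ) : ℂ)
        - ∑ h ∈ Icc 1 H, ((fj N m h : ℂ) * ex (-((h : ℝ) * n0 N / m)) * rs a h m
          + (fj N m h : ℂ) * ex ((h : ℝ) * n0 N / m) * rs a (-(h : ℤ)) m))‖
        ≤ 8 * C * (N : ℝ) ^ (1 - s / 64 - s / 16) := by
      refine (norm_sum_le _ _).trans ?_
      refine (sum_le_sum (fun m hm => hT N m H a hNn (by have := hFm m hm; omega)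
        (h2H m (hFm m hm).1))).trans ?_
      refine (herr H (Nat.cast_nonneg _)).trans ?_
      have h1 : (M₂ : ℝ) ^ 2 / (N * ((H : ℝ) + 1)) ≤ (N : ℝ) ^ (1 + s / 32 - s / 8) := by
        rw [div_le_iff₀ (by positivity)]
        have h2 : (M₂ : ℝ) ^ 2 ≤ (N : ℝ) ^ (1 + s / 64) * (N : ℝ) ^ (1 + s / 64) := by
          rw [pow_two]
          exact mul_le_mul hMN hMN hM2R (hpos _).le
        have h3 : (N : ℝ) ^ (1 + s / 64) * (N : ℝ) ^ (1 + s / 64)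
            = (N : ℝ) ^ (1 + s / 32 - s / 8) * (N * y) := by
          have h4 : (N : ℝ) * y = (N : ℝ) ^ (1 + s / 8) := by
            rw [hy]
            nth_rewrite 1 [← Real.rpow_one (N : ℝ)]
            rw [hadd]
          rw [h4, hadd, hadd]
          congr 1
          ring
        rw [h3] at h2
        refine h2.trans (mul_le_mul_of_nonneg_left ?_ (hpos _).le)
        exact mul_le_mul_of_nonneg_left hHy2.le hN0.le
      calc 2 * C * (N : ℝ) ^ (s / 200) * ((M₂ : ℝ) ^ 2 / (N * ((H : ℝ) + 1)))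
          ≤ 2 * C * (N : ℝ) ^ (s / 200) * (N : ℝ) ^ (1 + s / 32 - s / 8) :=
            mul_le_mul_of_nonneg_left h1 (by positivity)
        _ = 2 * C * (N : ℝ) ^ (s / 200 + (1 + s / 32 - s / 8)) := by rw [mul_assoc, hadd]
        _ ≤ 8 * C * (N : ℝ) ^ (1 - s / 64 - s / 16) :=
            mul_le_mul (by linarith) (hmono _ _ (by linarith)) (hpos _).le (by positivity)
    have htot : ‖∑ m ∈ (Ioc M₁ M₂).filter (fun m => Q ∣ m), (((Ger N a m : ℝ) : ℂ))‖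
        ≤ (42 + 8 * C) * (N : ℝ) ^ (1 - s / 64 - s / 16) := by
      rw [sum_sub_distrib] at herr2
      have h1 := norm_le_norm_add_norm_sub'
        (∑ m ∈ (Ioc M₁ M₂).filter (fun m => Q ∣ m), (((Ger N a m : ℝ) : ℂ)))
        (∑ m ∈ (Ioc M₁ M₂).filter (fun m => Q ∣ m), ∑ h ∈ Icc 1 H,
        ((fj N m h : ℂ) * ex (-((h : ℝ) * n0 N / m)) * rs a h m
          + (fj N m h : ℂ) * ex ((h : ℝ) * n0 N / m) * rs a (-(h : ℤ)) m))
      refine h1.trans ((add_le_add hmain herr2).trans (le_of_eq ?_))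
      ring
    rw [← Complex.ofReal_sum, Complex.norm_real, Real.norm_eq_abs] at htot
    exact htot.trans hfin

end

end Pool.Agent.Lib.MP391708.U
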