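import Pool.Agent.Lib.MP_391708_nt.U.SpecU2

/-!
# Project U (MP_391708), part U2: Type I estimate for every single `a`
-/

set_option autoImplicit false

namespace Pool.Agent.Lib.MP391708.U

open Finset Filter Topology Pool.Agent.Lib.MP391708.QPA
open scoped Classical

noncomputable section

namespace TYPEIM

/-- the substitution `m = k d` -/
theorem reindex (q d K₁ K₂ : ℕ) (hd : 1 ≤ d) (g : ℕ → ℝ) :
    ∑ k ∈ (Ioc K₁ K₂).filter (fun k => q ∣ k), g (k * d) =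
      ∑ m ∈ (Ioc (K₁ * d) (K₂ * d)).filter (fun m => q * d ∣ m), g m := by
  refine sum_nbij (fun k => k * d) ?_ ?_ ?_ (fun _ _ => rfl)
  · intro k hk
    obtain ⟨h1, h2⟩ := mem_filter.1 hk
    obtain ⟨h3, h4⟩ := mem_Ioc.1 h1
    exact mem_filter.2 ⟨mem_Ioc.2 ⟨Nat.mul_lt_mul_of_pos_right h3 hd, Nat.mul_le_mul_right d h4⟩,
      Nat.mul_dvd_mul_right h2 d⟩
  · intro k _ k' _ hkk
    exact Nat.eq_of_mul_eq_mul_right hd hkk
  · intro m hm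
    obtain ⟨h1, c, hc⟩ := mem_filter.1 hm
    obtain ⟨h3, h4⟩ := mem_Ioc.1 h1
    have h5 : m = (q * c) * d := by rw [hc]; ring
    refine ⟨q * c, ?_, h5.symm⟩
    rw [h5] at h3 h4
    exact mem_coe.2 (mem_filter.2 ⟨mem_Ioc.2 ⟨Nat.lt_of_mul_lt_mul_right h3,
      Nat.le_of_mul_le_mul_right h4 hd⟩, dvd_mul_right q c⟩)

/-- dyadic decomposition -/
theorem dyadic (g : ℕ → ℝ) (Q : ℕ) (B X : ℝ) (hB : 0 ≤ B)
    (H : ∀ M₁ M₂ : ℕ, 1 ≤ M₁ → M₁ ≤ M₂ → M₂ ≤ 2 * M₁ → (M₂ : ℝ) ≤ X →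
      |∑ m ∈ (Ioc M₁ M₂).filter (fun m => Q ∣ m), g m| ≤ B) (j : ℕ) :
    ∀ M₁ M₂ : ℕ, 1 ≤ M₁ → M₁ ≤ M₂ → M₂ ≤ 2 ^ j * M₁ → (M₂ : ℝ) ≤ X →
      |∑ m ∈ (Ioc M₁ M₂).filter (fun m => Q ∣ m), g m| ≤ j * B := by
  induction j with
  | zero =>
    intro M₁ M₂ _ h1 h2 _
    have h3 : M₂ = M₁ := by
      rw [pow_zero, one_mul] at h2
      exact le_antisymm h2 h1
    rw [h3, Ioc_self, filter_empty, sum_empty, abs_zero, Nat.cast_zero, zero_mul]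
  | succ j ih =>
    intro M₁ M₂ h0 h1 h2 h3
    rcases le_or_gt M₂ (2 * M₁) with h4 | h4
    · refine (H M₁ M₂ h0 h1 h4 h3).trans ?_
      push_cast
      nlinarith [Nat.cast_nonneg (α := ℝ) j]
    · have h5 : (M₂ : ℝ) ≤ X := h3
      have h6 : ((2 * M₁ : ℕ) : ℝ) ≤ X := (Nat.cast_le.2 h4.le).trans h5
      have h7 := H M₁ (2 * M₁) h0 (by omega) le_rfl h6
      have h8 := ih (2 * M₁) M₂ (by omega) h4.le (by rw [pow_succ] at h2; linarith) h3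
      have h9 : ∑ m ∈ (Ioc M₁ M₂).filter (fun m => Q ∣ m), g m =
          ∑ m ∈ (Ioc M₁ (2 * M₁)).filter (fun m => Q ∣ m), g m +
          ∑ m ∈ (Ioc (2 * M₁) M₂).filter (fun m => Q ∣ m), g m := by
        simp only [sum_filter]
        exact (sum_Ioc_consecutive _ (by omega) h4.le).symm
      rw [h9]
      refine (abs_add_le _ _).trans ?_
      push_cast
      linarith

/-- the number of dyadic pieces is small -/
theorem eventually_log {s : ℝ} (hs : 0 < s) :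
    ∀ᶠ N : ℕ in atTop, Real.log (4 * N) / Real.log 2 + 1 ≤ (N : ℝ) ^ s := by
  have hl : 0 < Real.log 2 := Real.log_pos (by norm_num)
  have h1 : ∀ᶠ x : ℝ in atTop, ‖Real.log x‖ ≤ (Real.log 2 / 2) * ‖x ^ s‖ :=
    (isLittleO_log_rpow_atTop hs).bound (by positivity)
  have h2 : ∀ᶠ x : ℝ in atTop, (6 : ℝ) ≤ x ^ s := (tendsto_rpow_atTop hs).eventually_ge_atTop 6
  have h3 := tendsto_natCast_atTop_atTop (R := ℝ) |>.eventually (h1.and (h2.and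
    (eventually_ge_atTop 1)))
  filter_upwards [h3] with N hN
  obtain ⟨h4, h5, h6⟩ := hN
  have h7 : (0 : ℝ) < N := by linarith
  rw [Real.norm_eq_abs, Real.norm_eq_abs, abs_of_nonneg (Real.log_nonneg h6),
    abs_of_nonneg (by positivity)] at h4
  rw [Real.log_mul (by norm_num) h7.ne', show (4 : ℝ) = 2 ^ 2 by norm_num, Real.log_pow, add_div]
  have h8 : Real.log N / Real.log 2 ≤ (N : ℝ) ^ s / 2 := by
    rw [div_le_iff₀ hl]
    linarith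
  have h9 : ((2 : ℕ) : ℝ) * Real.log 2 / Real.log 2 = 2 := by
    rw [mul_div_assoc, div_self hl.ne']
    norm_num
  rw [h9]
  linarith

end TYPEIM

open TYPEIM in
/-- TYPEI: Type I estimate for every `a`. -/
theorem specTYPEI (h : SpecTYA) : SpecTYPEI := by
  obtain ⟨σ, hσ, N₀, H⟩ := h
  have hσ2 : 0 < σ / 2 := half_pos hσ
  have e1 : ∀ᶠ N : ℕ in atTop, (4 : ℝ) ≤ (N : ℝ) ^ (σ / 2) :=
    ((tendsto_rpow_atTop hσ2).comp (tendsto_natCast_atTop_atTop (R := ℝ))).eventually_ge_atTop 4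
  obtain ⟨N₁, hN₁⟩ := eventually_atTop.1
    (e1.and ((eventually_log hσ2).and (eventually_ge_atTop (max N₀ 1))))
  refine ⟨σ / 2, hσ2, N₁, fun N hN a ha haN q d hq hd hqN hdN K₁ K₂ hK₁ hK₁₂ hK₂ => ?_⟩
  obtain ⟨h4, hlog, hN0⟩ := hN₁ N hN
  have hN₀ : N₀ ≤ N := (le_max_left _ _).trans hN0
  have hN1 : 1 ≤ N := (le_max_right _ _).trans hN0
  have hN1' : (1 : ℝ) ≤ N := Nat.one_le_cast.2 hN1
  have hNp : (0 : ℝ) < N := by linarith
  -- the modulus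
  have hQ : ((q * d : ℕ) : ℝ) ≤ (N : ℝ) ^ σ := by
    have e : (N : ℝ) ^ σ = (N : ℝ) ^ (σ / 2) * (N : ℝ) ^ (σ / 2) := by
      rw [← Real.rpow_add hNp, add_halves]
    rw [e, Nat.cast_mul]
    exact mul_le_mul hqN hdN (Nat.cast_nonneg _) (by positivity)
  have hd' : (d : ℝ) ≤ (N : ℝ) ^ (σ / 2) := hdN
  -- the range
  have hX : ((K₂ * d : ℕ) : ℝ) ≤ (N : ℝ) ^ (1 + σ) := by
    have e : (N : ℝ) ^ (1 + σ) = (N : ℝ) ^ (σ / 2) * N * (N : ℝ) ^ (σ / 2) := by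
      rw [show (1 : ℝ) + σ = σ / 2 + 1 + σ / 2 by ring, Real.rpow_add hNp, Real.rpow_add hNp,
        Real.rpow_one]
    rw [e, Nat.cast_mul]
    have h5 : (K₂ : ℝ) ≤ 4 * N := by exact_mod_cast hK₂
    have h6 : (K₂ : ℝ) ≤ (N : ℝ) ^ (σ / 2) * N := h5.trans (mul_le_mul_of_nonneg_right h4 hNp.le)
    exact mul_le_mul h6 hdN (Nat.cast_nonneg _) (by positivity)
  rw [reindex q d K₁ K₂ hd (Ger N a)]
  have hB : 0 ≤ (N : ℝ) ^ (1 - σ) := by positivity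
  have hj : K₂ * d ≤ 2 ^ (Nat.log 2 (4 * N) + 1) * (K₁ * d) := by
    have h7 : 4 * N < 2 ^ (Nat.log 2 (4 * N) + 1) := Nat.lt_pow_succ_log_self (by norm_num) _
    calc K₂ * d ≤ 2 ^ (Nat.log 2 (4 * N) + 1) * d := Nat.mul_le_mul_right d (hK₂.trans h7.le)
      _ = 2 ^ (Nat.log 2 (4 * N) + 1) * (1 * d) := by rw [one_mul]
      _ ≤ _ := Nat.mul_le_mul_left _ (Nat.mul_le_mul_right d hK₁)
  have key := dyadic (Ger N a) (q * d) ((N : ℝ) ^ (1 - σ)) ((N : ℝ) ^ (1 + σ)) hB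
    (fun M₁ M₂ g1 g2 g3 g4 => H N hN₀ a ha haN (q * d) (Nat.mul_pos hq hd) hQ M₁ M₂ g1 g2 g3 g4)
    (Nat.log 2 (4 * N) + 1) (K₁ * d) (K₂ * d) (Nat.mul_pos hK₁ hd) (Nat.mul_le_mul_right d hK₁₂)
    hj hX
  refine key.trans ?_
  have h8 : ((Nat.log 2 (4 * N) + 1 : ℕ) : ℝ) ≤ (N : ℝ) ^ (σ / 2) := by
    refine le_trans ?_ hlog
    have h9 : (2 : ℝ) ^ (Nat.log 2 (4 * N)) ≤ 4 * N := by
      exact_mod_cast Nat.pow_log_le_self 2 (by omega : 4 * N ≠ 0)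
    have h10 := Real.log_le_log (by positivity) h9
    rw [Real.log_pow] at h10
    have hl : 0 < Real.log 2 := Real.log_pos (by norm_num)
    have h11 : (Nat.log 2 (4 * N) : ℝ) ≤ Real.log (4 * N) / Real.log 2 := by
      rw [le_div_iff₀ hl]
      exact h10
    push_cast
    linarith
  calc ((Nat.log 2 (4 * N) + 1 : ℕ) : ℝ) * (N : ℝ) ^ (1 - σ)
      ≤ (N : ℝ) ^ (σ / 2) * (N : ℝ) ^ (1 - σ) := mul_le_mul_of_nonneg_right h8 hB
    _ = (N : ℝ) ^ (1 - σ / 2) := by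
        rw [← Real.rpow_add hNp]
        congr 1
        ring

end

end Pool.Agent.Lib.MP391708.U
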