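import Pool.Agent.Lib.MP_391708_nt.U.SpecU2
import Pool.Agent.Lib.MP_391708_nt.Div

/-! # Project U, module TYW: Type I estimate with short divisor sums and the condition `(k,2a) = 1` -/

set_option autoImplicit false

namespace Pool.Agent.Lib.MP391708.U

open Finset Filter Topology Pool.Agent.Lib.MP391708.QPA
open scoped Classical

noncomputable section

namespace TYWM

/-- the indicator of the coprime `k` -/
theorem ind_cop (A k : ℕ) (hA : A ≠ 0) :
    (if Nat.Coprime k A then (1 : ℝ) else 0) =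
      ∑ r ∈ A.divisors, if r ∣ k then (ArithmeticFunction.moebius r : ℝ) else 0 := by
  have h1 : (Nat.gcd k A).divisors = A.divisors.filter (fun r => r ∣ k) := by
    ext r
    rw [Nat.mem_divisors, mem_filter, Nat.mem_divisors]
    constructor
    · rintro ⟨h, h0⟩
      exact ⟨⟨h.trans (Nat.gcd_dvd_right _ _), hA⟩, h.trans (Nat.gcd_dvd_left _ _)⟩
    · rintro ⟨⟨h, -⟩, h'⟩
      exact ⟨Nat.dvd_gcd h' h, fun h0 => hA (Nat.eq_zero_of_gcd_eq_zero_right h0)⟩
  rw [← Finset.sum_filter, ← h1]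
  have h2 : ∑ r ∈ (Nat.gcd k A).divisors, ArithmeticFunction.moebius r =
      if Nat.gcd k A = 1 then 1 else 0 := by
    rw [← ArithmeticFunction.coe_mul_zeta_apply, ArithmeticFunction.moebius_mul_coe_zeta,
      ArithmeticFunction.one_apply]
  have h3 := congrArg (fun z : ℤ => (z : ℝ)) h2
  simp only [Int.cast_sum] at h3
  rw [h3]
  by_cases h : Nat.gcd k A = 1
  · rw [if_pos h, if_pos (show Nat.Coprime k A from h)]
    norm_num
  · rw [if_neg h, if_neg (show ¬ Nat.Coprime k A from h)]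
    norm_num

theorem split (A : ℕ) (hA : A ≠ 0) (K : Finset ℕ) (F : ℕ → ℝ) :
    |∑ k ∈ K.filter (fun k => Nat.Coprime k A), F k| ≤
      ∑ r ∈ A.divisors.filter (fun r => Squarefree r), |∑ k ∈ K.filter (fun k => r ∣ k), F k| := by
  have h1 : ∑ k ∈ K.filter (fun k => Nat.Coprime k A), F k =
      ∑ r ∈ A.divisors, (ArithmeticFunction.moebius r : ℝ) * ∑ k ∈ K.filter (fun k => r ∣ k), F k := by
    have h2 : ∀ k ∈ K, (if Nat.Coprime k A then F k else 0) =
        ∑ r ∈ A.divisors, (ArithmeticFunction.moebius r : ℝ) * (if r ∣ k then F k else 0) := by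
      intro k _
      have h3 : (if Nat.Coprime k A then F k else 0) =
          (if Nat.Coprime k A then (1 : ℝ) else 0) * F k := by
        split_ifs <;> ring
      rw [h3, ind_cop A k hA, Finset.sum_mul]
      refine Finset.sum_congr rfl fun r _ => ?_
      split_ifs <;> ring
    rw [Finset.sum_filter, Finset.sum_congr rfl h2, Finset.sum_comm]
    refine Finset.sum_congr rfl fun r _ => ?_
    rw [Finset.sum_filter, Finset.mul_sum]
  rw [h1, Finset.sum_filter]
  refine (Finset.abs_sum_le_sum_abs _ _).trans (Finset.sum_le_sum fun r _ => ?_)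
  rw [abs_mul]
  by_cases hr : Squarefree r
  · rw [if_pos hr]
    have h4 : |(ArithmeticFunction.moebius r : ℝ)| ≤ 1 := by
      have h5 : |ArithmeticFunction.moebius r| ≤ 1 := ArithmeticFunction.abs_moebius_le_one
      exact_mod_cast h5
    calc |(ArithmeticFunction.moebius r : ℝ)| * |∑ k ∈ K.filter (fun k => r ∣ k), F k|
        ≤ 1 * |∑ k ∈ K.filter (fun k => r ∣ k), F k| :=
          mul_le_mul_of_nonneg_right h4 (abs_nonneg _)
      _ = _ := one_mul _
  · rw [if_neg hr, ArithmeticFunction.moebius_eq_zero_of_not_squarefree hr]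
    simp

theorem sds_le (I : Finset ℕ) (x : ℕ → ℝ) (k : ℕ) : |sds I x k| ≤ ∑ q ∈ I, |x q| := by
  unfold sds
  refine (Finset.abs_sum_le_sum_abs _ _).trans (Finset.sum_le_sum fun q _ => ?_)
  split_ifs
  · exact le_rfl
  · rw [abs_zero]
    exact abs_nonneg _

/-- the small `r` -/
theorem small (I : Finset ℕ) (x : ℕ → ℝ) (K : Finset ℕ) (g : ℕ → ℝ) (r : ℕ) (B : ℝ)
    (hB : ∀ q ∈ I, |∑ k ∈ K.filter (fun k => Nat.lcm q r ∣ k), g k| ≤ B) :
    |∑ k ∈ K.filter (fun k => r ∣ k), sds I x k * g k| ≤ (∑ q ∈ I, |x q|) * B := by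
  have h1 : ∑ k ∈ K.filter (fun k => r ∣ k), sds I x k * g k =
      ∑ q ∈ I, x q * ∑ k ∈ K.filter (fun k => Nat.lcm q r ∣ k), g k := by
    rw [Finset.sum_filter]
    have h2 : ∀ k ∈ K, (if r ∣ k then sds I x k * g k else 0) =
        ∑ q ∈ I, x q * (if Nat.lcm q r ∣ k then g k else 0) := by
      intro k _
      unfold sds
      by_cases hr : r ∣ k
      · rw [if_pos hr, Finset.sum_mul]
        refine Finset.sum_congr rfl fun q _ => ?_
        by_cases hq : q ∣ k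
        · rw [if_pos hq, if_pos (Nat.lcm_dvd hq hr)]
        · rw [if_neg hq, if_neg (fun h => hq ((Nat.dvd_lcm_left q r).trans h))]
          ring
      · rw [if_neg hr]
        symm
        refine Finset.sum_eq_zero fun q _ => ?_
        rw [if_neg (fun h => hr ((Nat.dvd_lcm_right q r).trans h)), mul_zero]
    rw [Finset.sum_congr rfl h2, Finset.sum_comm]
    refine Finset.sum_congr rfl fun q _ => ?_
    rw [Finset.sum_filter, Finset.mul_sum]
  rw [h1, Finset.sum_mul]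
  refine (Finset.abs_sum_le_sum_abs _ _).trans (Finset.sum_le_sum fun q hq => ?_)
  rw [abs_mul]
  exact mul_le_mul_of_nonneg_left (hB q hq) (abs_nonneg _)

theorem val_ne (a : ℤ) (ha : ¬ IsSquare (-a)) (n : ℕ) : QPA.val a n ≠ 0 := by
  intro h
  apply ha
  unfold QPA.val at h
  rw [Int.natAbs_eq_zero] at h
  exact ⟨(n : ℤ), by linarith [sq (n : ℤ)]⟩

theorem tn_le (N n : ℕ) : 0 ≤ tn N n ∧ tn N n ≤ 1 := by
  unfold tn
  refine ⟨le_max_left _ _, max_le zero_le_one ?_⟩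
  have h : 0 ≤ |(n : ℝ) - (n0 N : ℝ)| / N := by positivity
  linarith

/-- the counts of the multiples of `r` -/
theorem cnt_le (N : ℕ) (a : ℤ)
    (ha : ¬ IsSquare (-a)) (d : ℕ) (K : Finset ℕ) (r : ℕ) :
    ∑ k ∈ K.filter (fun k => r ∣ k), tcnt N a (k * d) ≤
      ∑ n ∈ (Icc 1 (4 * N)).filter (fun n => r ∣ QPA.val a n), ta (QPA.val a n) := by
  have htn := tn_le N
  unfold tcnt
  rw [Finset.sum_comm, Finset.sum_filter]
  refine Finset.sum_le_sum fun n _ => ?_
  by_cases hr : r ∣ QPA.val a n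
  · rw [if_pos hr]
    unfold ta
    have h1 : ∑ k ∈ K.filter (fun k => r ∣ k), (if k * d ∣ QPA.val a n then tn N n else 0) ≤
        ∑ k ∈ K.filter (fun k => r ∣ k), (if k ∈ (QPA.val a n).divisors then (1 : ℝ) else 0) := by
      refine Finset.sum_le_sum fun k _ => ?_
      by_cases hk : k * d ∣ QPA.val a n
      · have h2 : k ∈ (QPA.val a n).divisors := by
          rw [Nat.mem_divisors]
          exact ⟨(Dvd.intro _ rfl).trans hk, val_ne a ha n⟩
        rw [if_pos hk, if_pos h2]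
        exact (htn n).2
      · rw [if_neg hk]
        split_ifs
        · exact zero_le_one
        · exact le_rfl
    refine h1.trans ?_
    rw [← Finset.sum_filter, Finset.sum_const, nsmul_eq_mul, mul_one]
    have h3 : ((K.filter (fun k => r ∣ k)).filter (fun k => k ∈ (QPA.val a n).divisors)).card ≤
        (QPA.val a n).divisors.card :=
      Finset.card_le_card fun k hk => (mem_filter.1 hk).2
    exact_mod_cast h3
  · rw [if_neg hr]
    refine (Finset.sum_eq_zero fun k hk => ?_).le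
    rw [if_neg]
    intro h
    apply hr
    exact ((mem_filter.1 hk).2).trans ((Dvd.intro _ rfl).trans h)

theorem rho_le (N : ℕ) (a : ℤ) (d : ℕ) (hd : 1 ≤ d) (K₁ K₂ : ℕ) (hK : K₂ ≤ 4 * N) (r : ℕ) :
    ∑ k ∈ (Ioc K₁ K₂).filter (fun k => r ∣ k), (rho a (k * d) : ℝ) / ((k * d : ℕ) : ℝ) ≤
      ∑ m ∈ (Icc 1 (4 * N * d)).filter (fun m => r ∣ m), (rho a m : ℝ) / m := by
  have h1 : ∑ k ∈ (Ioc K₁ K₂).filter (fun k => r ∣ k), (rho a (k * d) : ℝ) / ((k * d : ℕ) : ℝ) =
      ∑ m ∈ ((Ioc K₁ K₂).filter (fun k => r ∣ k)).image (fun k => k * d), (rho a m : ℝ) / m := by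
    rw [Finset.sum_image]
    intro k _ k' _ h
    exact Nat.eq_of_mul_eq_mul_right hd h
  rw [h1]
  refine Finset.sum_le_sum_of_subset_of_nonneg ?_ fun m _ _ => by positivity
  intro m hm
  rw [mem_image] at hm
  obtain ⟨k, hk, rfl⟩ := hm
  rw [mem_filter, mem_Ioc] at hk
  rw [mem_filter, mem_Icc]
  refine ⟨⟨Nat.one_le_iff_ne_zero.2 (Nat.mul_ne_zero (by omega) (by omega)), ?_⟩, hk.2.mul_right d⟩
  exact Nat.mul_le_mul_right d (hk.1.2.trans hK)



theorem ger_le (N : ℕ) (a : ℤ) (m : ℕ) :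
    |Ger N a m| ≤ tcnt N a m + N * ((rho a m : ℝ) / m) := by
  have h1 : 0 ≤ tcnt N a m := by
    unfold tcnt
    refine Finset.sum_nonneg fun n _ => ?_
    split_ifs
    · exact (tn_le N n).1
    · exact le_rfl
  have h2 : 0 ≤ (N : ℝ) * ((rho a m : ℝ) / m) := by positivity
  unfold Ger
  rw [mul_div_assoc, abs_le]
  constructor <;> linarith

/-- the large `r` -/
theorem large (N : ℕ) (a : ℤ) (ha : ¬ IsSquare (-a)) (I : Finset ℕ) (x : ℕ → ℝ) (d : ℕ)
    (hd : 1 ≤ d) (K₁ K₂ : ℕ) (hK : K₂ ≤ 4 * N) (r : ℕ) (Y B₁ B₂ : ℝ) (hY : ∑ q ∈ I, |x q| ≤ Y)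
    (h1 : ∑ n ∈ (Icc 1 (4 * N)).filter (fun n => r ∣ QPA.val a n), ta (QPA.val a n) ≤ B₁)
    (h2 : ∑ m ∈ (Icc 1 (4 * N * d)).filter (fun m => r ∣ m), (rho a m : ℝ) / m ≤ B₂) :
    |∑ k ∈ (Ioc K₁ K₂).filter (fun k => r ∣ k), sds I x k * Ger N a (k * d)| ≤
      Y * (B₁ + N * B₂) := by
  have hY0 : 0 ≤ Y := (Finset.sum_nonneg fun q _ => abs_nonneg (x q)).trans hY
  calc |∑ k ∈ (Ioc K₁ K₂).filter (fun k => r ∣ k), sds I x k * Ger N a (k * d)|
      ≤ ∑ k ∈ (Ioc K₁ K₂).filter (fun k => r ∣ k), |sds I x k * Ger N a (k * d)| :=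
        Finset.abs_sum_le_sum_abs _ _
    _ ≤ ∑ k ∈ (Ioc K₁ K₂).filter (fun k => r ∣ k),
        Y * (tcnt N a (k * d) + N * ((rho a (k * d) : ℝ) / ((k * d : ℕ) : ℝ))) := by
        refine Finset.sum_le_sum fun k _ => ?_
        rw [abs_mul]
        exact mul_le_mul ((sds_le I x k).trans hY) (ger_le N a (k * d)) (abs_nonneg _) hY0
    _ = Y * (∑ k ∈ (Ioc K₁ K₂).filter (fun k => r ∣ k), tcnt N a (k * d) +
        N * ∑ k ∈ (Ioc K₁ K₂).filter (fun k => r ∣ k),
          (rho a (k * d) : ℝ) / ((k * d : ℕ) : ℝ)) := by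
        rw [← Finset.mul_sum, Finset.sum_add_distrib, Finset.mul_sum]
    _ ≤ Y * (B₁ + N * B₂) := by
        refine mul_le_mul_of_nonneg_left (add_le_add ?_ ?_) hY0
        · exact (cnt_le N a ha d _ r).trans h1
        · exact mul_le_mul_of_nonneg_left ((rho_le N a d hd K₁ K₂ hK r).trans h2)
            (Nat.cast_nonneg N)

/-- `(c X²)^ε ≤ c X^(2ε)` -/
theorem pow_bd (X c Z ε : ℝ) (hX : 1 ≤ X) (hc : 1 ≤ c) (hZ0 : 0 ≤ Z) (hZ : Z ≤ c * X ^ (2 : ℝ))
    (hε0 : 0 < ε) (hε : ε ≤ 1) : Z ^ ε ≤ c * X ^ (2 * ε) := by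
  have hX0 : 0 < X := by linarith
  calc Z ^ ε ≤ (c * X ^ (2 : ℝ)) ^ ε := Real.rpow_le_rpow hZ0 hZ hε0.le
    _ = c ^ ε * X ^ (2 * ε) := by
        rw [Real.mul_rpow (by linarith) (by positivity), ← Real.rpow_mul hX0.le]
    _ ≤ c * X ^ (2 * ε) := by
        refine mul_le_mul_of_nonneg_right ?_ (by positivity)
        calc c ^ ε ≤ c ^ (1 : ℝ) := Real.rpow_le_rpow_of_exponent_le hc hε
          _ = c := Real.rpow_one c

end TYWM

open TYWM in
theorem specTYW (hTYPEI : SpecTYPEI) (hRSU : SpecRSU) : SpecTYW := by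
  obtain ⟨σ₀, hσ₀, N₁, hT⟩ := hTYPEI
  set s : ℝ := min σ₀ (1 / 2) with hs
  have hs0 : 0 < s := lt_min hσ₀ (by norm_num)
  have hs1 : s ≤ σ₀ := min_le_left _ _
  have hs2 : s ≤ 1 / 2 := min_le_right _ _
  have hε : (0 : ℝ) < s / 64 := by positivity
  obtain ⟨C, hC, hR⟩ := hRSU (s / 64) hε
  obtain ⟨C', hC', hD⟩ := Pool.Agent.Lib.MP_391708_nt.Div.card_divisors_le_rpow (s / 64) hε
  have hlim : ∀ᶠ n : ℕ in atTop, 1 + 50 * C * C' ≤ (n : ℝ) ^ (3 * s / 16) :=
    ((tendsto_rpow_atTop (by positivity : 0 < 3 * s / 16)).comp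
      tendsto_natCast_atTop_atTop).eventually_ge_atTop _
  obtain ⟨N₂, hN₂⟩ := eventually_atTop.1 hlim
  refine ⟨s / 8, by positivity, max (max N₁ N₂) 1, ?_⟩
  intro N hN a ha haN I x hI hx d hd hdN K₁ K₂ hK₁ hK₁₂ hK₂
  have hNN₁ : N₁ ≤ N := (le_max_left _ _).trans ((le_max_left _ _).trans hN)
  have hNN₂ : N₂ ≤ N := (le_max_right _ _).trans ((le_max_left _ _).trans hN)
  have hN1 : 1 ≤ N := (le_max_right _ _).trans hN
  have hbig := hN₂ N hNN₂
  set X : ℝ := (N : ℝ) with hX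
  have hX1 : 1 ≤ X := by
    rw [hX]
    exact_mod_cast hN1
  have hX0 : 0 < X := by linarith
  have ha0 : a ≠ 0 := by
    rintro rfl
    exact ha ⟨0, by norm_num⟩
  set A : ℕ := (2 * a).natAbs with hA
  have hA0 : A ≠ 0 := by
    rw [hA]
    exact Int.natAbs_ne_zero.2 (mul_ne_zero two_ne_zero ha0)
  have haX : |(a : ℝ)| ≤ X ^ (2 : ℝ) :=
    haN.trans (Real.rpow_le_rpow_of_exponent_le hX1 (by norm_num))
  have hXX : X ≤ X ^ (2 : ℝ) := by
    calc X = X ^ (1 : ℝ) := (Real.rpow_one X).symm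
      _ ≤ X ^ (2 : ℝ) := Real.rpow_le_rpow_of_exponent_le hX1 (by norm_num)
  have hAX : (A : ℝ) ≤ 2 * X ^ (2 : ℝ) := by
    have h1 : (A : ℝ) = 2 * |(a : ℝ)| := by
      rw [hA, Nat.cast_natAbs]
      push_cast
      rw [abs_mul, abs_two]
    rw [h1]
    linarith
  have hε1 : s / 64 ≤ 1 := by linarith
  -- the divisors of A
  have hτ : (A.divisors.card : ℝ) ≤ C' * (2 * X ^ (2 * (s / 64))) :=
    (hD A (Nat.pos_of_ne_zero hA0)).trans
      (mul_le_mul_of_nonneg_left (pow_bd X 2 A (s / 64) hX1 (by norm_num) (Nat.cast_nonneg _) hAX hε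
        hε1) hC'.le)
  -- the small r
  have hsmall : ∀ r : ℕ, 1 ≤ r → (r : ℝ) ≤ X ^ (s / 2) →
      |∑ k ∈ (Ioc K₁ K₂).filter (fun k => r ∣ k), sds I x k * Ger N a (k * d)| ≤
        X ^ (s / 8) * X ^ (1 - s) := by
    intro r hr hrX
    have h1 := small I x (Ioc K₁ K₂) (fun k => Ger N a (k * d)) r (X ^ (1 - s)) (by
      intro q hq
      obtain ⟨hq1, hq2⟩ := hI q hq
      have hl : ((Nat.lcm q r : ℕ) : ℝ) ≤ X ^ σ₀ := by
        have h2 : Nat.lcm q r ≤ q * r :=
          Nat.le_of_dvd (Nat.mul_pos hq1 hr) (Nat.lcm_dvd_mul q r)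
        calc ((Nat.lcm q r : ℕ) : ℝ) ≤ ((q * r : ℕ) : ℝ) := by exact_mod_cast h2
          _ = (q : ℝ) * r := by push_cast; ring
          _ ≤ X ^ (s / 8) * X ^ (s / 2) := mul_le_mul hq2 hrX (Nat.cast_nonneg _) (by positivity)
          _ = X ^ (s / 8 + s / 2) := (Real.rpow_add hX0 _ _).symm
          _ ≤ X ^ σ₀ := Real.rpow_le_rpow_of_exponent_le hX1 (by linarith)
      have hd' : (d : ℝ) ≤ X ^ σ₀ :=
        hdN.trans (Real.rpow_le_rpow_of_exponent_le hX1 (by linarith))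
      have hl1 : 1 ≤ Nat.lcm q r :=
        Nat.one_le_iff_ne_zero.2 (Nat.lcm_ne_zero (by omega) (by omega))
      exact (hT N hNN₁ a ha haN (Nat.lcm q r) d hl1 hd hl hd' K₁ K₂ hK₁ hK₁₂ hK₂).trans
        (Real.rpow_le_rpow_of_exponent_le hX1 (by linarith)))
    exact h1.trans (mul_le_mul_of_nonneg_right hx (by positivity))
  -- the large r
  have hlarge : ∀ r : ℕ, r ∈ A.divisors → Squarefree r → X ^ (s / 2) < (r : ℝ) →
      |∑ k ∈ (Ioc K₁ K₂).filter (fun k => r ∣ k), sds I x k * Ger N a (k * d)| ≤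
        X ^ (s / 8) * (25 * C * X ^ (2 * (s / 64)) * X / X ^ (s / 2)) := by
    intro r hrA hrs hrX
    have hr0 : (0 : ℝ) < r := lt_trans (by positivity) hrX
    have hra : (r : ℤ) ∣ 2 * a := Int.natCast_dvd.2 (Nat.dvd_of_mem_divisors hrA)
    have hZ1 : ((4 * N : ℕ) : ℝ) + |(a : ℝ)| ≤ 5 * X ^ (2 : ℝ) := by
      push_cast
      linarith
    have hZ2 : ((4 * N * d : ℕ) : ℝ) + |(a : ℝ)| ≤ 5 * X ^ (2 : ℝ) := by
      have h1 : (d : ℝ) ≤ X := by
        calc (d : ℝ) ≤ X ^ (s / 8) := hdN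
          _ ≤ X ^ (1 : ℝ) := Real.rpow_le_rpow_of_exponent_le hX1 (by linarith)
          _ = X := Real.rpow_one X
      have h2 : X * d ≤ X ^ (2 : ℝ) := by
        rw [Real.rpow_two, sq]
        exact mul_le_mul_of_nonneg_left h1 hX0.le
      push_cast
      nlinarith
    have hP1 := pow_bd X 5 _ (s / 64) hX1 (by norm_num) (by positivity) hZ1 hε hε1
    have hP2 := pow_bd X 5 _ (s / 64) hX1 (by norm_num) (by positivity) hZ2 hε hε1
    have hR1 := ((hR a ha (4 * N) (by omega)).2 r hrs hra).2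
    have hR2 := ((hR a ha (4 * N * d) (Nat.one_le_iff_ne_zero.2
      (Nat.mul_ne_zero (by omega) (by omega)))).2 r hrs hra).1
    have hB1 : ∑ n ∈ (Icc 1 (4 * N)).filter (fun n => r ∣ QPA.val a n), ta (QPA.val a n) ≤
        C * (5 * X ^ (2 * (s / 64))) * (4 * X) / r := by
      refine hR1.trans ?_
      have h1 : ((4 * N : ℕ) : ℝ) = 4 * X := by push_cast; ring
      refine div_le_div_of_nonneg_right ?_ hr0.le
      rw [← h1]
      exact mul_le_mul_of_nonneg_right (mul_le_mul_of_nonneg_left hP1 hC.le) (by positivity)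
    have hB2 : ∑ m ∈ (Icc 1 (4 * N * d)).filter (fun m => r ∣ m), (rho a m : ℝ) / m ≤
        C * (5 * X ^ (2 * (s / 64))) / r := by
      refine hR2.trans ?_
      refine div_le_div_of_nonneg_right ?_ hr0.le
      exact mul_le_mul_of_nonneg_left hP2 hC.le
    refine (large N a ha I x d hd K₁ K₂ hK₂ r (X ^ (s / 8)) _ _ hx hB1 hB2).trans ?_
    refine mul_le_mul_of_nonneg_left ?_ (by positivity)
    have h3 : C * (5 * X ^ (2 * (s / 64))) * (4 * X) / r +
        (N : ℝ) * (C * (5 * X ^ (2 * (s / 64))) / r) = 25 * C * X ^ (2 * (s / 64)) * X / r := by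
      rw [← hX]
      ring
    rw [h3]
    exact div_le_div_of_nonneg_left (by positivity) (by positivity) hrX.le
  -- the sum over r
  refine (split A hA0 (Ioc K₁ K₂) (fun k => sds I x k * Ger N a (k * d))).trans ?_
  set V₁ : ℝ := X ^ (s / 8) * X ^ (1 - s) with hV₁
  set V₂ : ℝ := X ^ (s / 8) * (25 * C * X ^ (2 * (s / 64)) * X / X ^ (s / 2)) with hV₂
  have hV₁0 : 0 ≤ V₁ := by positivity
  have hV₂0 : 0 ≤ V₂ := by positivity
  have hsum : ∑ r ∈ A.divisors.filter (fun r => Squarefree r),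
      |∑ k ∈ (Ioc K₁ K₂).filter (fun k => r ∣ k), sds I x k * Ger N a (k * d)| ≤
      X ^ (s / 2) * V₁ + (A.divisors.card : ℝ) * V₂ := by
    rw [← Finset.sum_filter_add_sum_filter_not (A.divisors.filter (fun r => Squarefree r))
      (fun r : ℕ => (r : ℝ) ≤ X ^ (s / 2))]
    refine add_le_add ?_ ?_
    · have h1 : ∀ r ∈ (A.divisors.filter (fun r => Squarefree r)).filter
          (fun r : ℕ => (r : ℝ) ≤ X ^ (s / 2)),
          |∑ k ∈ (Ioc K₁ K₂).filter (fun k => r ∣ k), sds I x k * Ger N a (k * d)| ≤ V₁ := by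
        intro r hr
        rw [mem_filter, mem_filter] at hr
        exact hsmall r (Nat.pos_of_mem_divisors hr.1.1) hr.2
      refine (Finset.sum_le_card_nsmul _ _ _ h1).trans ?_
      rw [nsmul_eq_mul]
      refine mul_le_mul_of_nonneg_right ?_ hV₁0
      have h2 : ((A.divisors.filter (fun r => Squarefree r)).filter
          (fun r : ℕ => (r : ℝ) ≤ X ^ (s / 2))).card ≤ (Icc 1 ⌊X ^ (s / 2)⌋₊).card := by
        refine Finset.card_le_card fun r hr => ?_
        rw [mem_filter, mem_filter] at hr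
        rw [mem_Icc]
        exact ⟨Nat.pos_of_mem_divisors hr.1.1, Nat.le_floor hr.2⟩
      rw [Nat.card_Icc, Nat.add_sub_cancel] at h2
      calc (((A.divisors.filter (fun r => Squarefree r)).filter
          (fun r : ℕ => (r : ℝ) ≤ X ^ (s / 2))).card : ℝ) ≤ (⌊X ^ (s / 2)⌋₊ : ℝ) := by
            exact_mod_cast h2
        _ ≤ X ^ (s / 2) := Nat.floor_le (by positivity)
    · have h1 : ∀ r ∈ (A.divisors.filter (fun r => Squarefree r)).filter
          (fun r : ℕ => ¬ (r : ℝ) ≤ X ^ (s / 2)),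
          |∑ k ∈ (Ioc K₁ K₂).filter (fun k => r ∣ k), sds I x k * Ger N a (k * d)| ≤ V₂ := by
        intro r hr
        rw [mem_filter, mem_filter] at hr
        exact hlarge r hr.1.1 hr.1.2 (not_le.1 hr.2)
      refine (Finset.sum_le_card_nsmul _ _ _ h1).trans ?_
      rw [nsmul_eq_mul]
      refine mul_le_mul_of_nonneg_right ?_ hV₂0
      have h2 : ((A.divisors.filter (fun r => Squarefree r)).filter
          (fun r : ℕ => ¬ (r : ℝ) ≤ X ^ (s / 2))).card ≤ A.divisors.card :=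
        Finset.card_le_card ((Finset.filter_subset _ _).trans (Finset.filter_subset _ _))
      exact_mod_cast h2
  refine hsum.trans ?_
  have e1 : X ^ (s / 2) * V₁ = X ^ (1 - 3 * s / 8) := by
    rw [hV₁, ← Real.rpow_add hX0, ← Real.rpow_add hX0]
    congr 1
    ring
  have e2 : C' * (2 * X ^ (2 * (s / 64))) * V₂ = 50 * C * C' * X ^ (1 - 5 * s / 16) := by
    have h1 : X ^ (1 - 5 * s / 16) =
        X ^ (2 * (s / 64)) * X ^ (s / 8) * X ^ (2 * (s / 64)) * X ^ (1 : ℝ) * X ^ (-(s / 2)) := by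
      rw [← Real.rpow_add hX0, ← Real.rpow_add hX0, ← Real.rpow_add hX0, ← Real.rpow_add hX0]
      congr 1
      ring
    rw [hV₂, h1, Real.rpow_neg hX0.le, Real.rpow_one, div_eq_mul_inv]
    ring
  have e3 : X ^ (1 - 3 * s / 8) ≤ X ^ (1 - 5 * s / 16) :=
    Real.rpow_le_rpow_of_exponent_le hX1 (by linarith)
  have e4 : X ^ (1 - s / 8) = X ^ (1 - 5 * s / 16) * X ^ (3 * s / 16) := by
    rw [← Real.rpow_add hX0]
    congr 1
    ring
  calc X ^ (s / 2) * V₁ + (A.divisors.card : ℝ) * V₂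
      ≤ X ^ (1 - 3 * s / 8) + C' * (2 * X ^ (2 * (s / 64))) * V₂ := by
        rw [e1]
        exact add_le_add le_rfl (mul_le_mul_of_nonneg_right hτ hV₂0)
    _ ≤ X ^ (1 - 5 * s / 16) + 50 * C * C' * X ^ (1 - 5 * s / 16) := by
        rw [e2]
        exact add_le_add e3 le_rfl
    _ = X ^ (1 - 5 * s / 16) * (1 + 50 * C * C') := by ring
    _ ≤ X ^ (1 - 5 * s / 16) * X ^ (3 * s / 16) :=
        mul_le_mul_of_nonneg_left hbig (by positivity)
    _ = X ^ (1 - s / 8) := e4.symm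

end

end Pool.Agent.Lib.MP391708.U
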