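import Pool.Agent.Lib.MP_391708_nt.U.SpecU2

/-!
# Module WIC: the combinatorics of the windows
-/

set_option autoImplicit false

namespace Pool.Agent.Lib.MP391708.U

open Finset Filter Topology Pool.Agent.Lib.MP391708.QPA

theorem specWIC : SpecWIC := by
  intro N n a x e hN hn ha he hW
  obtain ⟨k, hk, hk1, hk2⟩ := hW
  rw [Finset.mem_Ioc] at hn
  have hNr : (2 : ℝ) ≤ N := by exact_mod_cast hN
  have hN0 : (0 : ℝ) < N := by linarith
  have hN1 : (1 : ℝ) ≤ N := by linarith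
  have hn1 : (N : ℝ) < n := by exact_mod_cast hn.1
  have hn2 : (n : ℝ) ≤ 2 * N := by exact_mod_cast hn.2
  have ha1 := abs_le.1 ha
  have hm : ((QPA.val a n : ℕ) : ℝ) = (n : ℝ) ^ 2 + a := by
    have h1 : ((QPA.val a n : ℕ) : ℝ) = |((n : ℤ) ^ 2 + a : ℤ)| := by
      rw [QPA.val, Nat.cast_natAbs]
    rw [h1]
    push_cast
    rw [abs_of_nonneg]
    nlinarith [ha1.1]
  have hm1 : (N : ℝ) ^ 2 / 2 ≤ (QPA.val a n : ℕ) := by
    rw [hm]; nlinarith [ha1.1]
  have hm2 : ((QPA.val a n : ℕ) : ℝ) ≤ 5 * (N : ℝ) ^ 2 := by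
    rw [hm]; nlinarith [ha1.2]
  have hkpos : (0 : ℝ) < k := lt_of_lt_of_le (Real.rpow_pos_of_pos hN0 _) hk1
  obtain ⟨k', hk'⟩ := hk
  have hkk : (k : ℝ) * k' = (QPA.val a n : ℕ) := by rw [hk']; push_cast; ring
  have hk'd : k' ∣ QPA.val a n := ⟨k, by rw [hk', mul_comm]⟩
  have hkd : k ∣ QPA.val a n := ⟨k', hk'⟩
  have hpos : ∀ y : ℝ, (0 : ℝ) < (N : ℝ) ^ y := fun y => Real.rpow_pos_of_pos hN0 y
  have hN2 : (N : ℝ) ^ 2 = (N : ℝ) ^ (2 : ℝ) := by
    rw [← Real.rpow_natCast]; norm_num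
  -- bounds of the cofactor
  have hlow : (N : ℝ) ^ (2 - x - e) / 2 ≤ k' := by
    have h1 : (N : ℝ) ^ (2 - x - e) * (N : ℝ) ^ (x + e) = (N : ℝ) ^ 2 := by
      rw [← Real.rpow_add hN0, hN2]; congr 1; ring
    have h2 : (N : ℝ) ^ 2 / 2 ≤ (N : ℝ) ^ (x + e) * k' := by
      calc (N : ℝ) ^ 2 / 2 ≤ k * k' := by rw [hkk]; exact hm1
        _ ≤ (N : ℝ) ^ (x + e) * k' := mul_le_mul_of_nonneg_right hk2 (Nat.cast_nonneg _)
    have h3 := hpos (x + e)
    rw [← h1] at h2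
    have h4 : (N : ℝ) ^ (x + e) * ((N : ℝ) ^ (2 - x - e) / 2) ≤ (N : ℝ) ^ (x + e) * k' := by
      linarith
    exact le_of_mul_le_mul_left h4 h3
  have hup : (k' : ℝ) ≤ 5 * (N : ℝ) ^ (2 - x + e) := by
    have h1 : (N : ℝ) ^ (2 - x + e) * (N : ℝ) ^ (x - e) = (N : ℝ) ^ 2 := by
      rw [← Real.rpow_add hN0, hN2]; congr 1; ring
    have h2 : (N : ℝ) ^ (x - e) * k' ≤ 5 * (N : ℝ) ^ 2 := by
      calc (N : ℝ) ^ (x - e) * k' ≤ k * k' := mul_le_mul_of_nonneg_right hk1 (Nat.cast_nonneg _)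
        _ ≤ _ := by rw [hkk]; exact hm2
    have h3 := hpos (x - e)
    rw [← h1] at h2
    have h4 : (N : ℝ) ^ (x - e) * k' ≤ (N : ℝ) ^ (x - e) * (5 * (N : ℝ) ^ (2 - x + e)) := by
      linarith
    exact le_of_mul_le_mul_left h4 h3
  have hsmall : ∀ u v : ℝ, u * v = (QPA.val a n : ℕ) → 3 * (N : ℝ) < u → v ≤ 3 * N := by
    intro u v huv hu
    by_contra hv
    push Not at hv
    nlinarith
  rcases le_or_gt x 1 with hx | hx
  · have hmin : min x (2 - x) = x := min_eq_left (by linarith)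
    rw [hmin]
    by_cases hk3 : (k : ℝ) ≤ 3 * N
    · refine ⟨k, hkd, ?_, by exact_mod_cast hk3, ?_⟩
      · have := hpos (x - e); linarith
      · have := hpos (x + e); linarith
    · push Not at hk3
      have h3 := hsmall k k' hkk hk3
      refine ⟨k', hk'd, ?_, by exact_mod_cast h3, ?_⟩
      · have h4 : (N : ℝ) ^ (x - e) ≤ (N : ℝ) ^ (2 - x - e) :=
          Real.rpow_le_rpow_of_exponent_le hN1 (by linarith)
        have := hpos (x - e)
        linarith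
      · have := hpos (x + e)
        linarith
  · have hmin : min x (2 - x) = 2 - x := min_eq_right (by linarith)
    rw [hmin]
    by_cases hk3 : (k' : ℝ) ≤ 3 * N
    · refine ⟨k', hk'd, ?_, by exact_mod_cast hk3, hup⟩
      have := hpos (2 - x - e)
      linarith
    · push Not at hk3
      have h3 := hsmall k' k (by rw [mul_comm]; exact hkk) hk3
      refine ⟨k, hkd, ?_, by exact_mod_cast h3, ?_⟩
      · have h4 : (N : ℝ) ^ (2 - x - e) ≤ (N : ℝ) ^ (x - e) :=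
          Real.rpow_le_rpow_of_exponent_le hN1 (by linarith)
        have := hpos (2 - x - e)
        linarith
      · linarith

end Pool.Agent.Lib.MP391708.U
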