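import Pool.Agent.Lib.MP_391708_nt.U.SpecU2

/-!
# Project U (MP_391708), part U2: WINUP, the windows from WPT, WMS, SLM, PRODU, WMER, GMAXU, WIC
-/

set_option autoImplicit false

namespace Pool.Agent.Lib.MP391708.U

open Finset Filter Topology Pool.Agent.Lib.MP391708.QPA
open scoped Classical

noncomputable section

namespace WINUPM

theorem ev_log (R : ℝ) : ∀ᶠ N : ℕ in atTop, R ≤ Real.log N :=
  (Real.tendsto_log_atTop.comp tendsto_natCast_atTop_atTop).eventually_ge_atTop R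

theorem ev_rpow (R κ : ℝ) (hκ : 0 < κ) : ∀ᶠ N : ℕ in atTop, R ≤ (N : ℝ) ^ κ :=
  ((tendsto_rpow_atTop hκ).comp tendsto_natCast_atTop_atTop).eventually_ge_atTop R

theorem ev_logpow (c D κ : ℝ) (hc : 0 < c) (hκ : 0 < κ) :
    ∀ᶠ N : ℕ in atTop, c * (Real.log N) ^ D ≤ (N : ℝ) ^ κ := by
  have h := (isLittleO_log_rpow_rpow_atTop D hκ).def (inv_pos.2 hc)
  have h2 := tendsto_natCast_atTop_atTop (R := ℝ) |>.eventually h
  filter_upwards [h2] with N hN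
  rw [Real.norm_eq_abs, Real.norm_eq_abs, abs_of_nonneg (Real.rpow_nonneg (Nat.cast_nonneg N) κ)] at hN
  have h3 := (le_abs_self _).trans hN
  rwa [inv_mul_eq_div, le_div_iff₀' hc] at h3

theorem sq_count (A : ℕ) : (((IA A).filter (fun a => IsSquare (-a))).card : ℝ) ≤ √(A : ℝ) + 1 := by
  have h1 : (IA A).filter (fun a => IsSquare (-a)) ⊆
      (range (Nat.sqrt A + 1)).image (fun s : ℕ => -((s : ℤ) ^ 2)) := by
    intro a ha
    rw [mem_filter, IA, mem_Icc] at ha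
    obtain ⟨⟨h1, h2⟩, r, hr⟩ := ha
    rw [mem_image]
    refine ⟨r.natAbs, ?_, ?_⟩
    · rw [mem_range, Nat.lt_succ_iff, Nat.le_sqrt]
      have h3 : ((r.natAbs * r.natAbs : ℕ) : ℤ) = r * r := by
        push_cast
        rw [← sq, ← sq, sq_abs]
      have h4 : ((r.natAbs * r.natAbs : ℕ) : ℤ) ≤ A := by
        rw [h3, ← hr]
        linarith
      exact_mod_cast h4
    · rw [Int.natCast_natAbs, sq_abs, sq, ← hr, neg_neg]
  have h2 := (card_le_card h1).trans card_image_le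
  rw [card_range] at h2
  have h3 : ((Nat.sqrt A : ℕ) : ℝ) ≤ √(A : ℝ) := Real.nat_sqrt_le_real_sqrt
  have h4 : (((IA A).filter (fun a => IsSquare (-a))).card : ℝ) ≤ (Nat.sqrt A : ℝ) + 1 := by
    exact_mod_cast h2
  linarith

theorem exc_le (A : ℕ) (P P₂ P₃ : ℤ → Prop)
    (h : ∀ a ∈ IA A, ¬ IsSquare (-a) → P₂ a → P₃ a → P a) :
    exc A P ≤ (((IA A).filter (fun a => IsSquare (-a))).card : ℝ) + exc A P₂ + exc A P₃ := by
  have h1 : (IA A).filter (fun a => ¬ P a) ⊆ ((IA A).filter (fun a => IsSquare (-a)) ∪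
      (IA A).filter (fun a => ¬ P₂ a)) ∪ (IA A).filter (fun a => ¬ P₃ a) := by
    intro a ha
    rw [mem_filter] at ha
    rw [mem_union, mem_union, mem_filter, mem_filter, mem_filter]
    by_contra hcon
    push Not at hcon
    obtain ⟨⟨h2, h3⟩, h4⟩ := hcon
    exact ha.2 (h a ha.1 (h2 ha.1) (h3 ha.1) (h4 ha.1))
  have h2 := (card_le_card h1).trans (card_union_le _ _)
  have h3 := card_union_le ((IA A).filter (fun a => IsSquare (-a))) ((IA A).filter (fun a => ¬ P₂ a))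
  unfold exc
  have h4 : ((IA A).filter (fun a => ¬ P a)).card ≤ ((IA A).filter (fun a => IsSquare (-a))).card +
      ((IA A).filter (fun a => ¬ P₂ a)).card + ((IA A).filter (fun a => ¬ P₃ a)).card := by omega
  exact_mod_cast h4

theorem Wa_nonneg (z : ℝ) (a : ℤ) : 0 ≤ Wa z a := by
  unfold Wa
  refine prod_nonneg fun p hp => ?_
  rw [PB, mem_filter] at hp
  have hp0 : (0 : ℝ) < p := by exact_mod_cast hp.2.pos
  have h1 : rho a p ≤ p := by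
    unfold rho
    exact (card_filter_le _ _).trans (by rw [card_range])
  have h2 : (rho a p : ℝ) / p ≤ 1 := by
    rw [div_le_one hp0]
    exact_mod_cast h1
  linarith

/-- the window -/
theorem window (N : ℕ) (x e : ℝ) (hN : 20 ≤ (N : ℝ) ^ (2 / 5 : ℝ)) (hN1 : 1 ≤ N) (h1 : 1 / 2 ≤ x)
    (h2 : x ≤ 1) (he : 0 < e) (he2 : e ≤ 1 / 10) :
    ∃ K₁ K₂ : ℕ, 1 ≤ K₁ ∧ K₁ ≤ K₂ ∧ K₂ ≤ 4 * N ∧ (N : ℝ) ^ (x - e) / 20 ≤ K₁ ∧
      (K₂ : ℝ) ≤ 5 * (N : ℝ) ^ (x + e) ∧ ∀ k : ℕ, (N : ℝ) ^ (x - e) / 10 ≤ k → k ≤ 3 * N →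
        (k : ℝ) ≤ 5 * (N : ℝ) ^ (x + e) → k ∈ Ioc K₁ K₂ := by
  have hNr : (1 : ℝ) ≤ N := by exact_mod_cast hN1
  set T : ℝ := (N : ℝ) ^ (x - e) with hT
  have hT1 : (N : ℝ) ^ (2 / 5 : ℝ) ≤ T := Real.rpow_le_rpow_of_exponent_le hNr (by linarith)
  have hT2 : T ≤ N := by
    calc T ≤ (N : ℝ) ^ (1 : ℝ) := Real.rpow_le_rpow_of_exponent_le hNr (by linarith)
      _ = N := Real.rpow_one _
  have hT3 : T ≤ (N : ℝ) ^ (x + e) := Real.rpow_le_rpow_of_exponent_le hNr (by linarith)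
  have hT20 : 20 ≤ T := hN.trans hT1
  have hc1 : 2 ≤ ⌈T / 10⌉₊ := by
    have : (2 : ℝ) ≤ ⌈T / 10⌉₊ := (by linarith : (2 : ℝ) ≤ T / 10).trans (Nat.le_ceil _)
    exact_mod_cast this
  have hc2 : (⌈T / 10⌉₊ : ℝ) < T / 10 + 1 := Nat.ceil_lt_add_one (by linarith)
  have hc3 : T / 10 ≤ (⌈T / 10⌉₊ : ℝ) := Nat.le_ceil _
  have hK : ((⌈T / 10⌉₊ - 1 : ℕ) : ℝ) = (⌈T / 10⌉₊ : ℝ) - 1 := by
    rw [Nat.cast_sub (by omega), Nat.cast_one]
  have hx0 : (0 : ℝ) ≤ 5 * (N : ℝ) ^ (x + e) := by positivity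
  refine ⟨⌈T / 10⌉₊ - 1, min (3 * N) ⌊5 * (N : ℝ) ^ (x + e)⌋₊, by omega, le_min ?_ ?_,
    (min_le_left _ _).trans (by omega), ?_, ?_, ?_⟩
  · have h3 : ((⌈T / 10⌉₊ - 1 : ℕ) : ℝ) ≤ ((3 * N : ℕ) : ℝ) := by
      rw [hK]
      push_cast
      linarith
    exact_mod_cast h3
  · apply Nat.le_floor
    rw [hK]
    linarith
  · rw [hK]
    linarith
  · calc ((min (3 * N) ⌊5 * (N : ℝ) ^ (x + e)⌋₊ : ℕ) : ℝ) ≤ (⌊5 * (N : ℝ) ^ (x + e)⌋₊ : ℝ) := by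
          exact_mod_cast min_le_right _ _
      _ ≤ 5 * (N : ℝ) ^ (x + e) := Nat.floor_le hx0
  · intro k hk1 hk2 hk3
    rw [mem_Ioc]
    constructor
    · have := Nat.ceil_le.2 hk1
      omega
    · exact le_min hk2 (Nat.le_floor hk3)

end WINUPM

open WINUPM

theorem specWINUP (hWPT : SpecWPT) (hWMS : SpecWMS) (hSLM : SpecSLM) (hPROD : SpecPRODU)
    (hWMER : QPA.SpecWMER) (hG : SpecGMAXU) (hWIC : SpecWIC) : SpecWINUP := by
  intro θ hθ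
  obtain ⟨σ, C₁, hσ, hC₁, hW⟩ := hWPT
  obtain ⟨C₂, hC₂, hS⟩ := hSLM
  obtain ⟨C₃, hC₃, hM⟩ := hWMER
  obtain ⟨c₄, C₄, hc₄, hC₄, hGm⟩ := hG
  refine ⟨22 * C₁ * C₂ * C₃ + 1, min (σ / 64) (1 / 10), 1 / 10, by positivity, by positivity,
    by norm_num, ?_⟩
  intro e0 e B he0 he01 he he2 hB
  have he0a : e0 ≤ σ / 64 := he01.trans (min_le_left _ _)
  have he0b : e0 ≤ 1 / 10 := he01.trans (min_le_right _ _)
  obtain ⟨V₁, hV₁, hW⟩ := hW e0 he0 he0a 3 (by norm_num)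
  obtain ⟨V₂, hV₂, hMS⟩ := hWMS σ (B + 3) hσ (by linarith)
  obtain ⟨Nw, hW⟩ := hW (max V₁ V₂) (le_max_left _ _)
  obtain ⟨Nm, hMS⟩ := hMS (max V₁ V₂) (le_max_right _ _)
  set V : ℝ := max V₁ V₂ with hV
  obtain ⟨W₀, hW₀, hP⟩ := hPROD 1 (B + 3) one_pos (by linarith)
  refine ⟨W₀, hW₀, fun W hWW => ?_⟩
  obtain ⟨Np, hP⟩ := hP W hWW e0 he0 he0b
  have hWpos : 0 < W := lt_of_lt_of_le hW₀ hWW
  obtain ⟨N₀, hN₀⟩ := eventually_atTop.1 ((eventually_ge_atTop Nw).and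
    ((eventually_ge_atTop Nm).and ((eventually_ge_atTop Np).and
    ((eventually_ge_atTop 2).and ((ev_log 3).and
    ((ev_logpow 1 1 (1 / 10) one_pos (by norm_num)).and
    ((ev_logpow 2 1 1 two_pos one_pos).and
    ((ev_rpow 2 (e0 / 3) (by positivity)).and
    ((ev_rpow 20 (2 / 5) (by norm_num)).and
    ((ev_rpow (20 + 20 * e0 / e) (1 / 3) (by norm_num)).and
    ((ev_log (Real.log 100 / e)).and
    ((ev_log (e0 / (C₂ * e))).and
    ((ev_logpow 2 W 1 two_pos one_pos).and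
    ((ev_log (2 ^ (1 / W))).and
    ((ev_log (e0 ^ 2 / (c₄ * e))).and
    ((ev_logpow 6 B (5 / 12) (by norm_num) (by norm_num)).and
    (ev_rpow 6 1 one_pos)))))))))))))))))
  refine ⟨N₀, fun N A hN hAdm x hx1 hx2 => ?_⟩
  obtain ⟨n1, n2, n3, n4, n5, n6, n7, n8, n9, n10, n11, n12, n13, n14, n15, n16, n17⟩ := hN₀ N hN
  obtain ⟨hA1, hA2⟩ := hAdm
  have hN1 : 1 ≤ N := by omega
  have hNr : (1 : ℝ) ≤ N := by exact_mod_cast hN1
  have hNp : (0 : ℝ) < N := lt_of_lt_of_le one_pos hNr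
  rw [Real.rpow_one, one_mul] at n6
  rw [Real.rpow_one, Real.rpow_one] at n7
  rw [Real.rpow_one] at n13 n17
  set L : ℝ := Real.log N with hL
  have hL0 : 0 < L := lt_of_lt_of_le (by norm_num) n5
  -- the range of `A`
  have hA3 : (A : ℝ) ≤ (N : ℝ) ^ (11 / 10 : ℝ) := by
    calc (A : ℝ) ≤ N * L := hA2
      _ ≤ (N : ℝ) * (N : ℝ) ^ (1 / 10 : ℝ) := by gcongr
      _ = (N : ℝ) ^ (1 + 1 / 10 : ℝ) := by rw [Real.rpow_add hNp, Real.rpow_one]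
      _ = _ := by norm_num
  have hA4 : (A : ℝ) ≤ (N : ℝ) ^ 2 / 2 := by
    calc (A : ℝ) ≤ N * L := hA2
      _ ≤ (N : ℝ) * (N / 2) := by gcongr; linarith
      _ = _ := by ring
  have hA5 : (N : ℝ) ^ (5 / 6 : ℝ) ≤ A :=
    (Real.rpow_le_rpow_of_exponent_le hNr (by linarith)).trans hA1
  have hA6 : (N : ℝ) ^ (3 / 4 : ℝ) ≤ A :=
    (Real.rpow_le_rpow_of_exponent_le hNr (by norm_num)).trans hA5
  -- the window
  set x' : ℝ := min x (2 - x) with hx'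
  have hx'1 : 1 / 2 ≤ x' := le_min hx1 (by linarith)
  have hx'2 : x' ≤ 1 := by
    rcases le_total x 1 with h | h
    · exact (min_le_left _ _).trans h
    · exact (min_le_right _ _).trans (by linarith)
  obtain ⟨K₁, K₂, hK1, hK2, hK3, hK4, hK5, hK6⟩ := window N x' e n9 hN1 hx'1 hx'2 he he2
  -- Selberg's weights
  obtain ⟨lam, hl1, hl2, hl3, hl4⟩ := hS ((N : ℝ) ^ (e0 / 3)) n8
  have hK1r : (1 : ℝ) ≤ K₁ := by exact_mod_cast hK1
  have hK1p : (0 : ℝ) < K₁ := by linarith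
  have hK2p : (0 : ℝ) < K₂ := by
    have : K₁ ≤ K₂ := hK2
    have : (K₁ : ℝ) ≤ K₂ := by exact_mod_cast this
    linarith
  have hpow : (N : ℝ) ^ (2 / 5 : ℝ) / 20 ≤ K₁ := by
    refine le_trans ?_ hK4
    apply div_le_div_of_nonneg_right _ (by norm_num)
    exact Real.rpow_le_rpow_of_exponent_le hNr (by linarith)
  have hy2 : ((N : ℝ) ^ (e0 / 3)) ^ 2 ≤ (N : ℝ) ^ (1 / 15 : ℝ) := by
    rw [← Real.rpow_natCast, ← Real.rpow_mul hNp.le]
    apply Real.rpow_le_rpow_of_exponent_le hNr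
    push_cast
    linarith
  have hsplit : (N : ℝ) ^ (2 / 5 : ℝ) = (N : ℝ) ^ (1 / 15 : ℝ) * (N : ℝ) ^ (1 / 3 : ℝ) := by
    rw [← Real.rpow_add hNp]
    norm_num
  have h15 : 0 < (N : ℝ) ^ (1 / 15 : ℝ) := by positivity
  have hee : 0 < 20 * e0 / e := by positivity
  have hyK : ((N : ℝ) ^ (e0 / 3)) ^ 2 ≤ K₁ := by
    refine hy2.trans (le_trans ?_ hpow)
    rw [hsplit, le_div_iff₀ (by norm_num)]
    apply mul_le_mul_of_nonneg_left _ h15.le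
    linarith
  have hyK2 : ((N : ℝ) ^ (e0 / 3)) ^ 2 / K₁ ≤ e / e0 := by
    rw [div_le_div_iff₀ hK1p he0]
    have h1 : 20 * e0 ≤ e * (N : ℝ) ^ (1 / 3 : ℝ) := by
      have h2 : 20 * e0 / e ≤ (N : ℝ) ^ (1 / 3 : ℝ) := by linarith
      rw [div_le_iff₀ he] at h2
      linarith
    calc ((N : ℝ) ^ (e0 / 3)) ^ 2 * e0 ≤ (N : ℝ) ^ (1 / 15 : ℝ) * e0 := by gcongr
      _ = (N : ℝ) ^ (1 / 15 : ℝ) * (20 * e0) / 20 := by ring
      _ ≤ (N : ℝ) ^ (1 / 15 : ℝ) * (e * (N : ℝ) ^ (1 / 3 : ℝ)) / 20 := by gcongr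
      _ = e * ((N : ℝ) ^ (2 / 5 : ℝ) / 20) := by rw [hsplit]; ring
      _ ≤ e * K₁ := by gcongr
  have hlogK : Real.log ((K₂ : ℝ) / K₁) ≤ 3 * e * L := by
    have h1 : (K₂ : ℝ) / K₁ ≤ 100 * (N : ℝ) ^ (2 * e) := by
      rw [div_le_iff₀ hK1p]
      calc (K₂ : ℝ) ≤ 5 * (N : ℝ) ^ (x' + e) := hK5
        _ = 100 * (N : ℝ) ^ (2 * e) * ((N : ℝ) ^ (x' - e) / 20) := by
            rw [show x' + e = 2 * e + (x' - e) by ring, Real.rpow_add hNp]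
            ring
        _ ≤ 100 * (N : ℝ) ^ (2 * e) * K₁ := by gcongr
    have h2 : Real.log ((K₂ : ℝ) / K₁) ≤ Real.log (100 * (N : ℝ) ^ (2 * e)) :=
      Real.log_le_log (by positivity) h1
    rw [Real.log_mul (by norm_num) (by positivity), Real.log_rpow hNp] at h2
    rw [div_le_iff₀ he] at n11
    rw [← hL] at h2
    linarith
  have hlogy : Real.log ((N : ℝ) ^ (e0 / 3)) = e0 / 3 * L := Real.log_rpow hNp _
  have hTh : ∑ k ∈ Ioc K₁ K₂, Th lam k / (k : ℝ) ≤ 10 * C₂ * e / e0 := by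
    refine (hl4 K₁ K₂ hK1 hK2 hyK).trans ?_
    rw [hlogy]
    have h1 : C₂ * Real.log ((K₂ : ℝ) / K₁) / (e0 / 3 * L) ≤ 9 * C₂ * e / e0 := by
      calc C₂ * Real.log ((K₂ : ℝ) / K₁) / (e0 / 3 * L) ≤ C₂ * (3 * e * L) / (e0 / 3 * L) := by
            gcongr
        _ = 9 * C₂ * e / e0 := by field_simp; ring
    have h2 : C₂ * ((N : ℝ) ^ (e0 / 3)) ^ 2 / K₁ ≤ C₂ * e / e0 := by
      rw [mul_div_assoc, mul_div_assoc]
      gcongr
    calc _ ≤ 9 * C₂ * e / e0 + C₂ * e / e0 := add_le_add h1 h2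
      _ = _ := by ring
  -- the exceptional sets
  have hex := exc_le A (fun a => cnt N a (fun m => if Rough ((N : ℝ) ^ e0) m ∧
        ¬ NSq ((N : ℝ) ^ e0) m ∧ Win N x e m then 1 else 0)
      ≤ (22 * C₁ * C₂ * C₃ + 1) * (e / e0 ^ 2) * Gw (wN W N) a * N / Real.log N)
    (fun a => ∑ k ∈ (Ioc K₁ K₂).filter (fun k => Nat.Coprime k (2 * a).natAbs),
        ck ((Real.log N) ^ V) (bN σ V N) lam k * ((rho a k : ℝ) / k)
      ≤ ∑ k ∈ Ioc K₁ K₂, Th lam k / (k : ℝ) + 1 / (Real.log N) ^ (B + 3))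
    (fun a => |Wa ((N : ℝ) ^ e0) a - Gw (wN W N) a * Wp ((N : ℝ) ^ e0)|
      ≤ 1 * (Gw (wN W N) a * Wp ((N : ℝ) ^ e0))) ?_
  · have hE2 := hMS N A n2 hA5 hA3 lam hl2 K₁ K₂ hK1 hK2 hK3
    have hE3 := hP N A n3 hA6
    have hE1 := sq_count A
    have hA0 : (1 : ℝ) ≤ (N : ℝ) ^ (5 / 6 : ℝ) := Real.one_le_rpow hNr (by norm_num)
    have hAp : (0 : ℝ) < A := by linarith
    have hsA : (N : ℝ) ^ (5 / 12 : ℝ) ≤ √(A : ℝ) := by
      apply Real.le_sqrt_of_sq_le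
      rw [← Real.rpow_natCast, ← Real.rpow_mul hNp.le]
      refine le_trans (le_of_eq ?_) hA5
      norm_num
    have hLB : 0 < L ^ B := Real.rpow_pos_of_pos hL0 _
    have hs1 : √(A : ℝ) + 1 ≤ A / (3 * L ^ B) := by
      have hsq : √(A : ℝ) * √(A : ℝ) = A := Real.mul_self_sqrt hAp.le
      have h1 : 1 ≤ √(A : ℝ) := Real.one_le_sqrt.2 (hA0.trans hA5)
      have h2 : 6 * L ^ B ≤ √(A : ℝ) := n16.trans hsA
      rw [le_div_iff₀ (by positivity)]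
      calc (√(A : ℝ) + 1) * (3 * L ^ B) ≤ (√(A : ℝ) + √(A : ℝ)) * (3 * L ^ B) := by gcongr
        _ = √(A : ℝ) * (6 * L ^ B) := by ring
        _ ≤ √(A : ℝ) * √(A : ℝ) := by gcongr
        _ = A := hsq
    have hs2 : (A : ℝ) / L ^ (B + 3) ≤ A / (3 * L ^ B) := by
      apply div_le_div_of_nonneg_left hAp.le (by positivity)
      rw [Real.rpow_add hL0, mul_comm]
      apply mul_le_mul_of_nonneg_left _ hLB.le
      rw [show (3 : ℝ) = ((3 : ℕ) : ℝ) by norm_num, Real.rpow_natCast]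
      push_cast
      nlinarith [n5, sq_nonneg L]
    calc _ ≤ _ := hex
      _ ≤ A / (3 * L ^ B) + A / (3 * L ^ B) + A / (3 * L ^ B) :=
          add_le_add (add_le_add (hE1.trans hs1) (hE2.trans hs2)) (hE3.trans hs2)
      _ = A / L ^ B := by field_simp; ring
  -- a good shift
  intro a ha hsq h2 h3
  have haA : |(a : ℝ)| ≤ A := by
    rw [IA, mem_Icc] at ha
    rw [abs_le]
    constructor
    · exact_mod_cast ha.1
    · exact_mod_cast ha.2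
  have hB := hW N n1 a hsq (haA.trans hA3) lam hl1 hl2 hl3 K₁ K₂ hK1 hK2 hK3
  have hcnt : cnt N a (fun m => if Rough ((N : ℝ) ^ e0) m ∧ ¬ NSq ((N : ℝ) ^ e0) m ∧
      Win N x e m then 1 else 0) ≤ ∑ n ∈ Ioc N (2 * N), if Rough ((N : ℝ) ^ e0) (val a n) ∧
        ∃ k ∈ Ioc K₁ K₂, k ∣ val a n then (1 : ℝ) else 0 := by
    unfold cnt
    refine sum_le_sum fun n hn => ?_
    beta_reduce
    by_cases hc : Rough ((N : ℝ) ^ e0) (val a n) ∧ ¬ NSq ((N : ℝ) ^ e0) (val a n) ∧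
      Win N x e (val a n)
    · obtain ⟨k, hk1, hk2, hk3, hk4⟩ := hWIC N n a x e n4 hn (haA.trans hA4) he hc.2.2
      rw [if_pos hc, if_pos ⟨hc.1, k, hK6 k hk2 hk3 hk4, hk1⟩]
    · rw [if_neg hc]
      split_ifs <;> norm_num
  -- the size of the local factors
  have hW2 : 2 ≤ wN W N := by
    unfold wN
    have h4 : (2 : ℝ) ≤ (Real.log N) ^ W := by
      have h5 : ((2 : ℝ) ^ (1 / W)) ^ W ≤ (Real.log N) ^ W := by
        apply Real.rpow_le_rpow (by positivity) n14 hWpos.le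
      rwa [← Real.rpow_mul (by norm_num), one_div, inv_mul_cancel₀ hWpos.ne', Real.rpow_one] at h5
    have h6 : (2 : ℝ) ≤ ⌈(Real.log N) ^ W⌉₊ := h4.trans (Nat.le_ceil _)
    exact_mod_cast h6
  obtain ⟨hG1, -⟩ := hGm (wN W N) hW2 a
  have hwN : ((wN W N : ℕ) : ℝ) + 1 ≤ N := by
    have h4 : ((wN W N : ℕ) : ℝ) < (Real.log N) ^ W + 1 := by
      unfold wN
      exact Nat.ceil_lt_add_one (Real.rpow_nonneg hL0.le _)
    have h5 : 2 * (Real.log N) ^ W ≤ N := n13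
    linarith
  have hlogw : Real.log ((wN W N : ℕ) + 1) ≤ L := Real.log_le_log (by positivity) hwN
  have hlogw0 : 0 < Real.log ((wN W N : ℕ) + 1) := by
    apply Real.log_pos
    have : (2 : ℝ) ≤ (wN W N : ℕ) := by exact_mod_cast hW2
    linarith
  have hG2 : c₄ / L ≤ Gw (wN W N) a := by
    refine le_trans ?_ hG1
    exact div_le_div_of_nonneg_left hc₄.le hlogw0 hlogw
  have hG0 : 0 < Gw (wN W N) a := lt_of_lt_of_le (by positivity) hG2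
  have hz2 : 2 ≤ (N : ℝ) ^ e0 := n8.trans (Real.rpow_le_rpow_of_exponent_le hNr (by linarith))
  have hWp := hM ((N : ℝ) ^ e0) hz2
  rw [Real.log_rpow hNp, ← hL] at hWp
  have hWa : Wa ((N : ℝ) ^ e0) a ≤ 2 * (Gw (wN W N) a * (C₃ / (e0 * L))) := by
    have h4 := (abs_le.1 h3).2
    have h5 : Gw (wN W N) a * Wp ((N : ℝ) ^ e0) ≤ Gw (wN W N) a * (C₃ / (e0 * L)) := by gcongr
    linarith
  have hWa0 := Wa_nonneg ((N : ℝ) ^ e0) a
  set S' : ℝ := ∑ k ∈ (Ioc K₁ K₂).filter (fun k => Nat.Coprime k (2 * a).natAbs),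
        ck ((Real.log N) ^ V) (bN σ V N) lam k * ((rho a k : ℝ) / k) with hS'
  have hinvL : 1 / L ^ (B + 3) ≤ C₂ * e / e0 := by
    have h4 : L ≤ L ^ (B + 3) := by
      calc L = L ^ (1 : ℝ) := (Real.rpow_one _).symm
        _ ≤ L ^ (B + 3) := Real.rpow_le_rpow_of_exponent_le (by linarith) (by linarith)
    calc 1 / L ^ (B + 3) ≤ 1 / L := by
          apply div_le_div_of_nonneg_left zero_le_one hL0 h4
      _ ≤ C₂ * e / e0 := by
          rw [div_le_div_iff₀ hL0 he0]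
          rw [div_le_iff₀ (by positivity)] at n12
          linarith
  have hS'2 : S' ≤ 11 * C₂ * e / e0 := by
    have h4 : S' ≤ ∑ k ∈ Ioc K₁ K₂, Th lam k / (k : ℝ) + 1 / L ^ (B + 3) := h2
    calc S' ≤ 10 * C₂ * e / e0 + C₂ * e / e0 := h4.trans (add_le_add hTh hinvL)
      _ = 11 * C₂ * e / e0 := by ring
  have hmain : C₁ * N * Wa ((N : ℝ) ^ e0) a * S' ≤
      22 * C₁ * C₂ * C₃ * (e / e0 ^ 2) * Gw (wN W N) a * N / L := by
    calc C₁ * N * Wa ((N : ℝ) ^ e0) a * S' ≤ C₁ * N * Wa ((N : ℝ) ^ e0) a * (11 * C₂ * e / e0) := by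
          apply mul_le_mul_of_nonneg_left hS'2 (by positivity)
      _ ≤ C₁ * N * (2 * (Gw (wN W N) a * (C₃ / (e0 * L)))) * (11 * C₂ * e / e0) := by
          gcongr
      _ = 22 * C₁ * C₂ * C₃ * (e / e0 ^ 2) * Gw (wN W N) a * N / L := by
          field_simp
          ring
  have herr : (N : ℝ) / L ^ (3 : ℝ) ≤ (e / e0 ^ 2) * Gw (wN W N) a * N / L := by
    have h4 : 1 / L ≤ c₄ * e / e0 ^ 2 := by
      rw [div_le_div_iff₀ hL0 (by positivity)]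
      rw [div_le_iff₀ (by positivity)] at n15
      linarith
    have h5 : L ^ (3 : ℝ) = L ^ 3 := by
      rw [show (3 : ℝ) = ((3 : ℕ) : ℝ) by norm_num, Real.rpow_natCast]
    rw [h5]
    calc (N : ℝ) / L ^ 3 = (1 / L) * (1 / L) * N / L := by field_simp
      _ ≤ (c₄ * e / e0 ^ 2) * (1 / L) * N / L := by gcongr
      _ = (e / e0 ^ 2) * (c₄ / L) * N / L := by ring
      _ ≤ (e / e0 ^ 2) * Gw (wN W N) a * N / L := by gcongr
  calc _ ≤ _ := hcnt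
    _ ≤ _ := hB
    _ ≤ 22 * C₁ * C₂ * C₃ * (e / e0 ^ 2) * Gw (wN W N) a * N / L +
        (e / e0 ^ 2) * Gw (wN W N) a * N / L := add_le_add hmain herr
    _ = (22 * C₁ * C₂ * C₃ + 1) * (e / e0 ^ 2) * Gw (wN W N) a * N / L := by ring

end

end Pool.Agent.Lib.MP391708.U
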