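import Pool.Agent.Lib.MP_391708_nt.U.SpecU2

/-!
# Project U, module WMS: the main term for almost all `a`
-/

set_option autoImplicit false

namespace Pool.Agent.Lib.MP391708.U

open Finset Filter Topology Pool.Agent.Lib.MP391708.QPA
open scoped Classical

noncomputable section

namespace WMSM

lemma ta_pos {k : ℕ} (hk : 1 ≤ k) : 1 ≤ ta k := by
  unfold ta
  have h : 1 ≤ k.divisors.card := Finset.card_pos.2 ⟨1, Nat.one_mem_divisors.2 (by omega)⟩
  exact_mod_cast h

lemma ta_nonneg (k : ℕ) : 0 ≤ ta k := Nat.cast_nonneg _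

lemma ta_one : ta 1 = 1 := by
  unfold ta
  rw [Nat.divisors_one, Finset.card_singleton, Nat.cast_one]

lemma ta_sq {p : ℕ} (hp : p.Prime) : ta (p ^ 2) = 3 := by
  unfold ta
  rw [Nat.divisors_prime_pow hp, Finset.card_map, Finset.card_range]
  norm_num

lemma Th_nonneg (lam : ℕ → ℝ) (k : ℕ) : 0 ≤ Th lam k := sq_nonneg _

lemma Th_le {lam : ℕ → ℝ} (hlam : ∀ d, |lam d| ≤ 1) (k : ℕ) : Th lam k ≤ ta k ^ 2 := by
  unfold Th ta
  have h1 : |∑ d ∈ k.divisors, lam d| ≤ (k.divisors.card : ℝ) := by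
    calc |∑ d ∈ k.divisors, lam d| ≤ ∑ d ∈ k.divisors, |lam d| := Finset.abs_sum_le_sum_abs _ _
      _ ≤ ∑ _d ∈ k.divisors, (1 : ℝ) := Finset.sum_le_sum (fun d _ => hlam d)
      _ = (k.divisors.card : ℝ) := by rw [Finset.sum_const, nsmul_eq_mul, mul_one]
  rw [← sq_abs]
  exact pow_le_pow_left₀ (abs_nonneg _) h1 2

lemma four_pow_le {w : ℝ} {b k : ℕ} (hk : 1 ≤ k) (h : 2 * b < osm w k) : (4 : ℝ) ^ b ≤ ta k := by
  have h1 : 2 ^ k.primeFactors.card ≤ k.divisors.card := by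
    rw [Nat.card_divisors (by omega), ← Finset.prod_const]
    refine Finset.prod_le_prod' fun l hl => ?_
    have h1 := (Nat.prime_of_mem_primeFactors hl).dvd_iff_one_le_factorization (by omega) |>.1
      (Nat.dvd_of_mem_primeFactors hl)
    omega
  have h2 : osm w k ≤ k.primeFactors.card := Finset.card_le_card (Finset.filter_subset _ _)
  have h3 : 4 ^ b ≤ k.divisors.card := by
    calc 4 ^ b = 2 ^ (2 * b) := by
          rw [pow_mul]
          norm_num
      _ ≤ 2 ^ k.primeFactors.card := Nat.pow_le_pow_right (by norm_num) (by omega)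
      _ ≤ _ := h1
  unfold ta
  exact_mod_cast h3

lemma sum_inv_sq {z : ℝ} (hz0 : 0 < z) (M : ℕ) :
    ∑ n ∈ (Icc 1 M).filter (fun n : ℕ => z ≤ (n : ℝ)), ((n : ℝ) ^ 2)⁻¹ ≤ 2 / z := by
  have hc : 1 ≤ ⌈z⌉₊ := Nat.one_le_ceil_iff.2 hz0
  have h8 := sum_Ioo_inv_sq_le (α := ℝ) (⌈z⌉₊ - 1) (M + 1)
  have h9 : (((⌈z⌉₊ - 1 : ℕ) : ℝ) + 1) = (⌈z⌉₊ : ℝ) := by
    rw [Nat.cast_sub hc]
    push_cast
    ring
  rw [h9] at h8
  refine le_trans ?_ (h8.trans ?_)
  · apply Finset.sum_le_sum_of_subset_of_nonneg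
    · intro n hn
      rw [Finset.mem_filter, Finset.mem_Icc] at hn
      rw [Finset.mem_Ioo]
      have h10 : ⌈z⌉₊ ≤ n := Nat.ceil_le.2 hn.2
      omega
    · intro n _ _
      positivity
  · exact div_le_div_of_nonneg_left (by norm_num) hz0 (Nat.le_ceil z)

/-- one `k` -/
lemma point (hBRU : SpecBRU) (hRHB : SpecRHB) (w : ℝ) (b k : ℕ) {lam : ℕ → ℝ}
    (hlam : ∀ d, |lam d| ≤ 1) (a : ℤ) (hk : 1 ≤ k) (hcop : Nat.Coprime k (2 * a).natAbs) :
    ck w b lam k * ((rho a k : ℝ) / k) ≤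
      (if Odd k ∧ Squarefree k ∧ Rough w k then Th lam k / k else 0) * (rho a k : ℝ)
      + (if NSq w k then ta k ^ 3 / k else 0) + (1 / 4 : ℝ) ^ b * (ta k ^ 5 / k) := by
  have hk0 : (0 : ℝ) < k := by exact_mod_cast hk
  obtain ⟨h1, h2, h3, h4⟩ := hBRU w b k hk
  have h5 : (rho a k : ℝ) ≤ ta k := (hRHB a k 1 hk hcop squarefree_one).2.1
  have h6 : (0 : ℝ) ≤ (rho a k : ℝ) := Nat.cast_nonneg _
  have hta := ta_nonneg k
  have hT0 := Th_nonneg lam k
  have hT1 := Th_le hlam k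
  have he3 : 0 ≤ (1 / 4 : ℝ) ^ b * (ta k ^ 5 / k) := by positivity
  have he2 : 0 ≤ (if NSq w k then ta k ^ 3 / (k : ℝ) else 0) := by
    split_ifs
    · positivity
    · exact le_rfl
  by_cases hr : Rough w k
  · have hck : ck w b lam k = Th lam k := by
      unfold ck
      rw [h3 hr, one_mul]
    rw [hck]
    by_cases hs : Squarefree k
    · have hodd : Odd k := by
        rw [← Nat.coprime_two_right]
        apply Nat.Coprime.coprime_dvd_right _ hcop
        rw [Int.natAbs_mul]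
        exact Dvd.intro _ rfl
      rw [if_pos ⟨hodd, hs, hr⟩]
      have h7 : Th lam k * ((rho a k : ℝ) / k) = Th lam k / k * (rho a k : ℝ) := by ring
      linarith
    · have hn : NSq w k := by
        rw [Nat.squarefree_iff_prime_squarefree] at hs
        push Not at hs
        obtain ⟨p, hp, hpk⟩ := hs
        refine ⟨p, hp, hr p hp (dvd_trans (Dvd.intro _ rfl) hpk), ?_⟩
        rw [sq]
        exact hpk
      rw [if_neg (fun h => hs h.2.1), if_pos hn]
      have h7 : Th lam k * ((rho a k : ℝ) / k) ≤ ta k ^ 3 / k := by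
        rw [← mul_div_assoc]
        apply div_le_div_of_nonneg_right _ hk0.le
        calc Th lam k * (rho a k : ℝ) ≤ ta k ^ 2 * ta k := mul_le_mul hT1 h5 h6 (by positivity)
          _ = ta k ^ 3 := by ring
      linarith
  · rw [if_neg (fun h => hr h.2.2), zero_mul, zero_add]
    by_cases hb : bru w b k = 0
    · unfold ck
      rw [hb, zero_mul, zero_mul]
      linarith
    · have h7 := four_pow_le hk (h4 hr hb)
      have h8 : ck w b lam k * ((rho a k : ℝ) / k) ≤ (1 / 4 : ℝ) ^ b * (ta k ^ 5 / k) := by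
        have h9 : ck w b lam k ≤ ta k * ta k ^ 2 := mul_le_mul h2 hT1 hT0 hta
        have h10 : ck w b lam k * (rho a k : ℝ) ≤ ta k ^ 4 := by
          calc ck w b lam k * (rho a k : ℝ) ≤ (ta k * ta k ^ 2) * ta k :=
                mul_le_mul h9 h5 h6 (by positivity)
            _ = ta k ^ 4 := by ring
        have h11 : ta k ^ 4 ≤ (1 / 4 : ℝ) ^ b * ta k ^ 5 := by
          have h12 : (1 : ℝ) ≤ (1 / 4 : ℝ) ^ b * ta k := by
            calc (1 : ℝ) = (1 / 4 : ℝ) ^ b * 4 ^ b := by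
                  rw [← mul_pow]
                  norm_num
              _ ≤ _ := mul_le_mul_of_nonneg_left h7 (by positivity)
          calc ta k ^ 4 = 1 * ta k ^ 4 := (one_mul _).symm
            _ ≤ ((1 / 4 : ℝ) ^ b * ta k) * ta k ^ 4 :=
                mul_le_mul_of_nonneg_right h12 (by positivity)
            _ = _ := by ring
        rw [← mul_div_assoc, ← mul_div_assoc]
        exact div_le_div_of_nonneg_right (h10.trans h11) hk0.le
      linarith

/-- the `k` divisible by a large square -/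
lemma sumE2 (hTAUM : SpecTAUM) {w : ℝ} (hw : 0 < w) (X : ℕ) (hX : 1 ≤ X) :
    ∑ k ∈ Icc 1 X, (if NSq w k then ta k ^ 3 / (k : ℝ) else 0) ≤
      54 / w * (1 + Real.log X) ^ 8 := by
  have h1 : ∀ k ∈ Icc 1 X, (if NSq w k then ta k ^ 3 / (k : ℝ) else 0) ≤
      ∑ p ∈ ((Icc 1 X).filter (fun p : ℕ => w ≤ (p : ℝ))).filter Nat.Prime,
        (if p ^ 2 ∣ k then ta k ^ 3 / (k : ℝ) else 0) := by
    intro k hk
    rw [Finset.mem_Icc] at hk
    have hta := ta_nonneg k
    split_ifs with h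
    · obtain ⟨p, hp, hwp, hpk⟩ := h
      have h2 := Finset.single_le_sum (f := fun p : ℕ => if p ^ 2 ∣ k then ta k ^ 3 / (k : ℝ) else 0)
        (s := ((Icc 1 X).filter (fun p : ℕ => w ≤ (p : ℝ))).filter Nat.Prime) (fun p _ => by
          split_ifs
          · positivity
          · exact le_rfl) (a := p) (by
          rw [Finset.mem_filter, Finset.mem_filter, Finset.mem_Icc]
          refine ⟨⟨⟨hp.one_le, ?_⟩, hwp⟩, hp⟩
          have h3 : p ^ 2 ≤ k := Nat.le_of_dvd (by omega) hpk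
          have h4 : p ≤ p ^ 2 := Nat.le_self_pow (by norm_num) p
          omega)
      simp only [if_pos hpk] at h2
      exact h2
    · apply Finset.sum_nonneg
      intro p _
      split_ifs
      · positivity
      · exact le_rfl
  refine (Finset.sum_le_sum h1).trans ?_
  rw [Finset.sum_comm]
  have hL : 0 ≤ Real.log (X : ℝ) := Real.log_nonneg (by exact_mod_cast hX)
  have h5 : ∀ p ∈ ((Icc 1 X).filter (fun p : ℕ => w ≤ (p : ℝ))).filter Nat.Prime,
      ∑ k ∈ Icc 1 X, (if p ^ 2 ∣ k then ta k ^ 3 / (k : ℝ) else 0) ≤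
        27 * (1 + Real.log X) ^ 8 * ((p : ℝ) ^ 2)⁻¹ := by
    intro p hp
    rw [Finset.mem_filter] at hp
    rw [← Finset.sum_filter]
    have h6 := hTAUM 3 X (p ^ 2) hX (Nat.one_le_pow _ _ hp.2.pos)
    rw [ta_sq hp.2] at h6
    refine h6.trans (le_of_eq ?_)
    push_cast
    norm_num
    ring
  refine (Finset.sum_le_sum h5).trans ?_
  rw [← Finset.mul_sum]
  have h7 : ∑ p ∈ ((Icc 1 X).filter (fun p : ℕ => w ≤ (p : ℝ))).filter Nat.Prime,
      ((p : ℝ) ^ 2)⁻¹ ≤ 2 / w := by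
    refine le_trans ?_ (sum_inv_sq hw X)
    apply Finset.sum_le_sum_of_subset_of_nonneg (Finset.filter_subset _ _)
    intro n _ _
    positivity
  calc 27 * (1 + Real.log X) ^ 8 * _ ≤ 27 * (1 + Real.log (X : ℝ)) ^ 8 * (2 / w) :=
        mul_le_mul_of_nonneg_left h7 (by positivity)
    _ = _ := by ring

lemma ev_b (σ V D : ℝ) (hσ : 0 < σ) (hV : 0 < V) (hD : 0 < D) :
    ∀ᶠ N : ℕ in atTop, D * Real.log (Real.log N) ≤ (bN σ V N : ℝ) := by
  have hlog : Tendsto (fun N : ℕ => Real.log (N : ℝ)) atTop atTop :=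
    Real.tendsto_log_atTop.comp tendsto_natCast_atTop_atTop
  have h1 := (Real.isLittleO_pow_log_id_atTop (n := 2)).def (c := σ / (8 * V * (D + 1)))
    (by positivity)
  have h2 := hlog.eventually h1
  filter_upwards [h2, hlog.eventually_ge_atTop 3] with N h3 h4
  obtain ⟨T, hT⟩ : ∃ T : ℝ, T = Real.log (N : ℝ) := ⟨_, rfl⟩
  rw [← hT] at h3 h4
  unfold bN
  rw [← hT]
  have hT0 : 0 < T := by linarith
  have hlT : 1 ≤ Real.log T := by
    rw [Real.le_log_iff_exp_le hT0]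
    exact (Real.exp_one_lt_d9.le.trans (by norm_num)).trans h4
  rw [Real.norm_of_nonneg (by positivity), id, Real.norm_of_nonneg hT0.le] at h3
  have h5 : (D + 1) * Real.log T ≤ σ / 8 * T / (V * Real.log T) := by
    rw [le_div_iff₀ (by positivity)]
    calc (D + 1) * Real.log T * (V * Real.log T) = V * (D + 1) * (Real.log T) ^ 2 := by ring
      _ ≤ V * (D + 1) * (σ / (8 * V * (D + 1)) * T) :=
          mul_le_mul_of_nonneg_left h3 (by positivity)
      _ = σ / 8 * T := by field_simp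
  have h6 := Nat.lt_floor_add_one (σ / 8 * T / (V * Real.log T))
  linarith

lemma ev_err (σ B V : ℝ) (hσ : 0 < σ) (hB : 0 < B) (hV : B + 10 ≤ V) :
    ∀ᶠ N : ℕ in atTop, 3 ≤ Real.log (N : ℝ) ∧ 1 / (Real.log N) ^ (B + 1) +
      54 / (Real.log N) ^ V * (1 + Real.log ((4 * N : ℕ) : ℝ)) ^ 8 +
      (1 / 4 : ℝ) ^ (bN σ V N) * (1 + Real.log ((4 * N : ℕ) : ℝ)) ^ 32 ≤ 1 / (Real.log N) ^ B := by
  have hlog : Tendsto (fun N : ℕ => Real.log (N : ℝ)) atTop atTop :=
    Real.tendsto_log_atTop.comp tendsto_natCast_atTop_atTop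
  filter_upwards [ev_b σ V (B + 34) hσ (by linarith) (by linarith),
    hlog.eventually_ge_atTop (3 ^ 17), eventually_ge_atTop 4] with N h1 h2 h3
  have h4 : Real.log ((4 * N : ℕ) : ℝ) ≤ 2 * Real.log (N : ℝ) := by
    have h5 : (0 : ℝ) < N := by exact_mod_cast (by omega : 0 < N)
    have h6 : ((4 * N : ℕ) : ℝ) ≤ (N : ℝ) ^ 2 := by
      have : 4 * N ≤ N ^ 2 := by nlinarith
      exact_mod_cast this
    calc Real.log ((4 * N : ℕ) : ℝ) ≤ Real.log ((N : ℝ) ^ 2) :=
          Real.log_le_log (by push_cast; positivity) h6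
      _ = 2 * Real.log (N : ℝ) := by rw [Real.log_pow]; norm_num
  have h7 : 0 ≤ Real.log ((4 * N : ℕ) : ℝ) := Real.log_nonneg (by
    have : 1 ≤ 4 * N := by omega
    exact_mod_cast this)
  obtain ⟨L4, hL4⟩ : ∃ L : ℝ, L = Real.log ((4 * N : ℕ) : ℝ) := ⟨_, rfl⟩
  rw [← hL4] at h4 h7 ⊢
  obtain ⟨T, hT⟩ : ∃ T : ℝ, T = Real.log (N : ℝ) := ⟨_, rfl⟩
  rw [← hT] at h1 h2 h4 ⊢
  have hT3 : 3 ≤ T := le_trans (by norm_num) h2
  have hT0 : 0 < T := by linarith
  have hL : 1 + L4 ≤ 3 * T := by linarith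
  have hTB : 0 < T ^ B := Real.rpow_pos_of_pos hT0 _
  refine ⟨hT3, ?_⟩
  have e1 : 1 / T ^ (B + 1) ≤ 1 / 3 * (1 / T ^ B) := by
    rw [Real.rpow_add hT0, Real.rpow_one, div_mul_div_comm, mul_one]
    exact div_le_div_of_nonneg_left (by norm_num) (by positivity) (by nlinarith)
  have hsq : (3 : ℝ) ^ 34 ≤ T ^ 2 := by
    calc (3 : ℝ) ^ 34 = (3 ^ 17) ^ 2 := by norm_num
      _ ≤ T ^ 2 := pow_le_pow_left₀ (by norm_num) h2 2
  have e2 : 54 / T ^ V * (1 + L4) ^ 8 ≤ 1 / 3 * (1 / T ^ B) := by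
    have h8 : (1 + L4) ^ 8 ≤ (3 * T) ^ 8 := pow_le_pow_left₀ (by linarith) hL 8
    have h9 : T ^ (B + 10) ≤ T ^ V := Real.rpow_le_rpow_of_exponent_le (by linarith) hV
    have h10 : T ^ (B + 10) = T ^ B * T ^ 10 := by
      rw [Real.rpow_add hT0]
      norm_num
    calc 54 / T ^ V * (1 + L4) ^ 8 ≤ 54 / T ^ (B + 10) * (3 * T) ^ 8 := by
          apply mul_le_mul _ h8 (by positivity) (by positivity)
          exact div_le_div_of_nonneg_left (by norm_num) (by positivity) h9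
      _ = (354294 / T ^ 2) * (1 / T ^ B) := by
          rw [h10]
          field_simp
          ring
      _ ≤ 1 / 3 * (1 / T ^ B) := by
          apply mul_le_mul_of_nonneg_right _ (by positivity)
          rw [div_le_div_iff₀ (by positivity) (by norm_num)]
          linarith
  have e3 : (1 / 4 : ℝ) ^ (bN σ V N) * (1 + L4) ^ 32 ≤ 1 / 3 * (1 / T ^ B) := by
    have h8 : (1 + L4) ^ 32 ≤ (3 * T) ^ 32 := pow_le_pow_left₀ (by linarith) hL 32
    have h9 : (1 / 4 : ℝ) ^ (bN σ V N) ≤ 1 / (T ^ B * T ^ 34) := by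
      have h10 : T ^ B * T ^ 34 = Real.exp ((B + 34) * Real.log T) := by
        rw [mul_comm (B + 34), ← Real.rpow_def_of_pos hT0, Real.rpow_add hT0]
        norm_num
      have h11 : (1 / 4 : ℝ) ^ (bN σ V N) ≤ Real.exp (-(bN σ V N : ℝ)) := by
        have h13 : -(bN σ V N : ℝ) = (bN σ V N : ℕ) * (-1 : ℝ) := by ring
        rw [h13, Real.exp_nat_mul]
        apply pow_le_pow_left₀ (by norm_num)
        rw [Real.exp_neg]
        have h12 : Real.exp 1 ≤ 4 := Real.exp_one_lt_d9.le.trans (by norm_num)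
        rw [one_div]
        exact inv_anti₀ (Real.exp_pos 1) h12
      refine h11.trans ?_
      rw [h10, one_div, ← Real.exp_neg]
      apply Real.exp_le_exp.2
      linarith
    calc (1 / 4 : ℝ) ^ (bN σ V N) * (1 + L4) ^ 32 ≤ 1 / (T ^ B * T ^ 34) * (3 * T) ^ 32 :=
          mul_le_mul h9 h8 (by positivity) (by positivity)
      _ = (3 ^ 32 / T ^ 2) * (1 / T ^ B) := by
          rw [mul_pow]
          field_simp
      _ ≤ 1 / 3 * (1 / T ^ B) := by
          apply mul_le_mul_of_nonneg_right _ (by positivity)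
          rw [div_le_div_iff₀ (by positivity) (by norm_num)]
          linarith
  linarith

end WMSM

open WMSM in
/-- **WMS**. -/
theorem specWMS (hRHOW : SpecRHOW) (hBRU : SpecBRU) (hTAUM : SpecTAUM) (hRHB : SpecRHB) :
    SpecWMS := by
  intro σ B hσ hB
  obtain ⟨V₁, hV₁, hR⟩ := hRHOW 2 (B + 1) 1 (by linarith) one_pos
  refine ⟨max V₁ (B + 10), lt_max_of_lt_left hV₁, fun V hV => ?_⟩
  obtain ⟨N₁, hN₁⟩ := hR V (le_trans (le_max_left _ _) hV)
  obtain ⟨N₂, hN₂⟩ := eventually_atTop.1 (ev_err σ B V hσ hB (le_trans (le_max_right _ _) hV))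
  refine ⟨max (max N₁ N₂) 1, fun N A hN hA1 hA2 lam hlam K₁ K₂ hK1 hK12 hK2 => ?_⟩
  have hNN1 : N₁ ≤ N := le_trans (le_trans (le_max_left _ _) (le_max_left _ _)) hN
  have hNN2 : N₂ ≤ N := le_trans (le_trans (le_max_right _ _) (le_max_left _ _)) hN
  have hN1 : 1 ≤ N := le_trans (le_max_right _ _) hN
  obtain ⟨hT3, herr⟩ := hN₂ N hNN2
  have hT0 : 0 < Real.log (N : ℝ) := by linarith
  obtain ⟨w, hw⟩ : ∃ w : ℝ, w = (Real.log (N : ℝ)) ^ V := ⟨_, rfl⟩
  have hw0 : 0 < w := by rw [hw]; exact Real.rpow_pos_of_pos hT0 _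
  obtain ⟨b, hb⟩ : ∃ b : ℕ, b = bN σ V N := ⟨_, rfl⟩
  rw [← hw, ← hb] at herr
  obtain ⟨β, hβ⟩ : ∃ β : ℕ → ℝ, β = fun k => if k ∈ Ioc K₁ K₂ ∧ Odd k ∧ Squarefree k ∧ Rough w k
    then Th lam k / (k : ℝ) else 0 := ⟨_, rfl⟩
  have hβ1 : ∀ k, β k ≠ 0 → 1 ≤ k ∧ k ≤ 4 * N ∧ Odd k ∧ Squarefree k ∧
      Rough ((Real.log (N : ℝ)) ^ V) k := by
    intro k hk
    rw [hβ] at hk
    simp only [ne_eq, ite_eq_right_iff, Classical.not_imp] at hk
    obtain ⟨⟨h1, h2, h3, h4⟩, -⟩ := hk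
    rw [Finset.mem_Ioc] at h1
    refine ⟨by omega, by omega, h2, h3, ?_⟩
    rw [← hw]
    exact h4
  have hβ0 : ∀ k, 0 ≤ β k := by
    intro k
    rw [hβ]
    dsimp only
    have := Th_nonneg lam k
    split_ifs
    · positivity
    · exact le_rfl
  have hβ2 : ∀ k, |β k| ≤ (Real.log (N : ℝ)) ^ (1 : ℝ) * ta k ^ 2 / k := by
    intro k
    rw [abs_of_nonneg (hβ0 k), Real.rpow_one]
    have hta := ta_nonneg k
    have h1 : ta k ^ 2 / (k : ℝ) ≤ Real.log (N : ℝ) * ta k ^ 2 / k := by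
      apply div_le_div_of_nonneg_right _ (Nat.cast_nonneg k)
      nlinarith [sq_nonneg (ta k)]
    rw [hβ]
    dsimp only
    split_ifs
    · exact le_trans (div_le_div_of_nonneg_right (Th_le hlam k) (Nat.cast_nonneg k)) h1
    · exact le_trans (by positivity) h1
  have hex := hN₁ N A hNN1 hA1 hA2 β hβ1 hβ2
  have hTB : (Real.log (N : ℝ)) ^ B ≤ (Real.log (N : ℝ)) ^ (B + 1) :=
    Real.rpow_le_rpow_of_exponent_le (by linarith) (by linarith)
  have hTB0 : 0 < (Real.log (N : ℝ)) ^ B := Real.rpow_pos_of_pos hT0 _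
  refine (le_trans ?_ hex).trans (div_le_div_of_nonneg_left (Nat.cast_nonneg A) hTB0 hTB)
  unfold exc
  rw [← hw, ← hb]
  have hsub : (IA A).filter (fun a => ¬ (∑ k ∈ (Ioc K₁ K₂).filter
      (fun k => Nat.Coprime k (2 * a).natAbs), ck w b lam k * ((rho a k : ℝ) / k)
        ≤ ∑ k ∈ Ioc K₁ K₂, Th lam k / (k : ℝ) + 1 / (Real.log (N : ℝ)) ^ B)) ⊆
      (IA A).filter (fun a => ¬ (|∑ k ∈ Icc 1 (4 * N), β k * ((rho a k : ℝ) - 1)| ≤
        1 / (Real.log (N : ℝ)) ^ (B + 1))) := by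
    intro a ha
    rw [Finset.mem_filter] at ha ⊢
    refine ⟨ha.1, fun hgood => ha.2 ?_⟩
    have h1 : ∑ k ∈ (Ioc K₁ K₂).filter (fun k => Nat.Coprime k (2 * a).natAbs),
        ck w b lam k * ((rho a k : ℝ) / k) ≤
        ∑ k ∈ Icc 1 (4 * N), (β k * (rho a k : ℝ) + (if NSq w k then ta k ^ 3 / (k : ℝ) else 0)
          + (1 / 4 : ℝ) ^ b * (ta k ^ 5 / k)) := by
      have hnn : ∀ k, 0 ≤ β k * (rho a k : ℝ) + (if NSq w k then ta k ^ 3 / (k : ℝ) else 0)
          + (1 / 4 : ℝ) ^ b * (ta k ^ 5 / k) := by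
        intro k
        have hta := ta_nonneg k
        have h2 : 0 ≤ (if NSq w k then ta k ^ 3 / (k : ℝ) else 0) := by
          split_ifs
          · positivity
          · exact le_rfl
        have h3 := mul_nonneg (hβ0 k) (Nat.cast_nonneg (α := ℝ) (rho a k))
        have h4 : 0 ≤ (1 / 4 : ℝ) ^ b * (ta k ^ 5 / k) := by positivity
        linarith
      calc _ ≤ ∑ k ∈ (Ioc K₁ K₂).filter (fun k => Nat.Coprime k (2 * a).natAbs),
            (β k * (rho a k : ℝ) + (if NSq w k then ta k ^ 3 / (k : ℝ) else 0)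
              + (1 / 4 : ℝ) ^ b * (ta k ^ 5 / k)) := by
            apply Finset.sum_le_sum
            intro k hk
            rw [Finset.mem_filter] at hk
            have hk1 : 1 ≤ k := by
              have := Finset.mem_Ioc.1 hk.1
              omega
            have h2 := point hBRU hRHB w b k hlam a hk1 hk.2
            have h3 : β k = (if Odd k ∧ Squarefree k ∧ Rough w k then Th lam k / (k : ℝ)
                else 0) := by
              rw [hβ]
              dsimp only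
              by_cases h4 : Odd k ∧ Squarefree k ∧ Rough w k
              · rw [if_pos ⟨hk.1, h4⟩, if_pos h4]
              · rw [if_neg (fun h => h4 h.2), if_neg h4]
            rw [h3]
            exact h2
        _ ≤ _ := by
            apply Finset.sum_le_sum_of_subset_of_nonneg
            · intro k hk
              have h2 := Finset.mem_Ioc.1 (Finset.mem_filter.1 hk).1
              rw [Finset.mem_Icc]
              omega
            · intro k _ _
              exact hnn k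
    have h2 : ∑ k ∈ Icc 1 (4 * N), (β k * (rho a k : ℝ) +
        (if NSq w k then ta k ^ 3 / (k : ℝ) else 0) + (1 / 4 : ℝ) ^ b * (ta k ^ 5 / k)) =
        ∑ k ∈ Icc 1 (4 * N), β k * ((rho a k : ℝ) - 1) + ∑ k ∈ Icc 1 (4 * N), β k +
        ∑ k ∈ Icc 1 (4 * N), (if NSq w k then ta k ^ 3 / (k : ℝ) else 0) +
        (1 / 4 : ℝ) ^ b * ∑ k ∈ Icc 1 (4 * N), ta k ^ 5 / (k : ℝ) := by
      rw [Finset.mul_sum, ← Finset.sum_add_distrib, ← Finset.sum_add_distrib,
        ← Finset.sum_add_distrib]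
      apply Finset.sum_congr rfl
      intro k _
      ring
    have h3 : ∑ k ∈ Icc 1 (4 * N), β k ≤ ∑ k ∈ Ioc K₁ K₂, Th lam k / (k : ℝ) := by
      calc ∑ k ∈ Icc 1 (4 * N), β k ≤ ∑ k ∈ Icc 1 (4 * N),
            (if k ∈ Ioc K₁ K₂ then Th lam k / (k : ℝ) else 0) := by
            apply Finset.sum_le_sum
            intro k _
            rw [hβ]
            dsimp only
            have := Th_nonneg lam k
            by_cases h4 : k ∈ Ioc K₁ K₂
            · rw [if_pos h4]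
              split_ifs
              · exact le_rfl
              · positivity
            · rw [if_neg h4, if_neg (fun h => h4 h.1)]
        _ = ∑ k ∈ (Icc 1 (4 * N)).filter (fun k => k ∈ Ioc K₁ K₂), Th lam k / (k : ℝ) := by
            rw [Finset.sum_filter]
        _ ≤ _ := by
            apply Finset.sum_le_sum_of_subset_of_nonneg
            · intro k hk
              exact (Finset.mem_filter.1 hk).2
            · intro k _ _
              have := Th_nonneg lam k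
              positivity
    have h4 := sumE2 hTAUM hw0 (4 * N) (by omega)
    have h5 := hTAUM 5 (4 * N) 1 (by omega) le_rfl
    rw [ta_one] at h5
    have h6 : (Icc 1 (4 * N)).filter (fun k => 1 ∣ k) = Icc 1 (4 * N) :=
      Finset.filter_true_of_mem (fun k _ => one_dvd k)
    rw [h6] at h5
    have h7 : (1 : ℝ) ^ 5 / ((1 : ℕ) : ℝ) * (1 + Real.log ((4 * N : ℕ) : ℝ)) ^ 2 ^ 5 =
        (1 + Real.log ((4 * N : ℕ) : ℝ)) ^ 32 := by
      norm_num
    rw [h7] at h5
    have h8 : (1 / 4 : ℝ) ^ b * ∑ k ∈ Icc 1 (4 * N), ta k ^ 5 / (k : ℝ) ≤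
        (1 / 4 : ℝ) ^ b * (1 + Real.log ((4 * N : ℕ) : ℝ)) ^ 32 :=
      mul_le_mul_of_nonneg_left h5 (by positivity)
    have h9 := le_abs_self (∑ k ∈ Icc 1 (4 * N), β k * ((rho a k : ℝ) - 1))
    rw [h2] at h1
    linarith
  exact_mod_cast Finset.card_le_card hsub

end

end Pool.Agent.Lib.MP391708.U
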