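import Pool.Agent.Lib.MP_391708_nt.U.SpecU2
import Pool.Agent.Lib.MP_391708_nt.QPA.FLA

/-!
# Project U (MP_391708), module WPT (helper53): the sieve, for every `a`
-/

set_option autoImplicit false

namespace Pool.Agent.Lib.MP391708.U

open Finset Filter Topology Pool.Agent.Lib.MP391708.QPA
open scoped Classical

noncomputable section

namespace WPTM

/-! ### values -/

theorem val_ne {a : ℤ} (ha : ¬ IsSquare (-a)) (n : ℕ) : 1 ≤ val a n := by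
  rw [Nat.one_le_iff_ne_zero]
  intro h
  apply ha
  refine ⟨(n : ℤ), ?_⟩
  have h1 : (n : ℤ) ^ 2 + a = 0 := Int.natAbs_eq_zero.1 h
  linear_combination -h1

theorem val_le {N n : ℕ} {a : ℤ} (hN : 1 ≤ N) (hn : n ≤ 4 * N)
    (ha : |(a : ℝ)| ≤ (N : ℝ) ^ (11 / 10 : ℝ)) : val a n ≤ 20 * N ^ 2 := by
  have hN1 : (1 : ℝ) ≤ N := by exact_mod_cast hN
  have h1 : (N : ℝ) ^ (11 / 10 : ℝ) ≤ (N : ℝ) ^ (2 : ℝ) :=
    Real.rpow_le_rpow_of_exponent_le hN1 (by norm_num)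
  have h2 : (N : ℝ) ^ (2 : ℝ) = (N : ℝ) ^ (2 : ℕ) := by
    rw [← Real.rpow_natCast]; norm_num
  have h3 : ((val a n : ℕ) : ℝ) = |((n : ℝ) ^ 2 + (a : ℝ))| := by
    unfold QPA.val
    rw [Nat.cast_natAbs]
    push_cast
    rfl
  have hn' : (n : ℝ) ≤ 4 * N := by exact_mod_cast hn
  have h4 : ((val a n : ℕ) : ℝ) ≤ 20 * (N : ℝ) ^ 2 := by
    rw [h3]
    refine (abs_add_le _ _).trans ?_
    rw [abs_of_nonneg (by positivity)]
    have hn0 : (0 : ℝ) ≤ n := Nat.cast_nonneg n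
    have h5 : (n : ℝ) ^ 2 ≤ (4 * N) ^ 2 := pow_le_pow_left₀ hn0 hn' 2
    have h6 : |(a : ℝ)| ≤ (N : ℝ) ^ 2 := ha.trans (h1.trans h2.le)
    have h7 : (0 : ℝ) ≤ (N : ℝ) ^ 2 := by positivity
    have h8 : (4 * (N : ℝ)) ^ 2 = 16 * (N : ℝ) ^ 2 := by ring
    rw [h8] at h5
    calc (n : ℝ) ^ 2 + |(a : ℝ)| ≤ 16 * (N : ℝ) ^ 2 + (N : ℝ) ^ 2 := add_le_add h5 h6
      _ ≤ 20 * (N : ℝ) ^ 2 := by nlinarith
  exact_mod_cast h4

theorem sum_core {M v k : ℕ} (hk : 1 ≤ k) (hv : 1 ≤ v) (hvM : v ≤ M) (G : ℕ → ℝ) :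
    ∑ l ∈ Icc 1 M, (if v = k * l then G l else 0) = if k ∣ v then G (v / k) else 0 := by
  by_cases h : k ∣ v
  · rw [if_pos h]
    obtain ⟨l, rfl⟩ := h
    have hl : k * l / k = l := Nat.mul_div_cancel_left l hk
    rw [hl]
    have hl1 : 1 ≤ l := by
      rcases Nat.eq_zero_or_pos l with h0 | h0
      · rw [h0] at hv; omega
      · exact h0
    have hlM : l ≤ M := le_trans (Nat.le_mul_of_pos_left l hk) hvM
    rw [sum_eq_single l]
    · rw [if_pos rfl]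
    · intro j _ hj
      rw [if_neg]
      intro h1
      exact hj (Nat.eq_of_mul_eq_mul_left hk h1).symm
    · intro h1
      exact absurd (mem_Icc.2 ⟨hl1, hlM⟩) h1
  · rw [if_neg h]
    refine sum_eq_zero fun l _ => ?_
    rw [if_neg]
    rintro rfl
    exact h (dvd_mul_right _ _)

/-- the sifted weights -/
def om (N : ℕ) (a : ℤ) (F : Finset ℕ) (c : ℕ → ℝ) (l : ℕ) : ℝ :=
  ∑ k ∈ F, c k * ∑ n ∈ Icc 1 (4 * N), if val a n = k * l then tn N n else 0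

theorem sum_om {N : ℕ} {a : ℤ} {F : Finset ℕ} {c : ℕ → ℝ} (hF : ∀ k ∈ F, 1 ≤ k)
    (hv : ∀ n ∈ Icc 1 (4 * N), 1 ≤ val a n ∧ val a n ≤ 20 * N ^ 2) (G : ℕ → ℝ) :
    ∑ l ∈ Icc 1 (20 * N ^ 2), om N a F c l * G l =
      ∑ k ∈ F, c k * ∑ n ∈ Icc 1 (4 * N), if k ∣ val a n then tn N n * G (val a n / k) else 0 := by
  have h1 : ∀ l ∈ Icc 1 (20 * N ^ 2), om N a F c l * G l =
      ∑ k ∈ F, c k * ∑ n ∈ Icc 1 (4 * N), if val a n = k * l then tn N n * G l else 0 := by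
    intro l _
    unfold om
    rw [sum_mul]
    refine sum_congr rfl fun k _ => ?_
    rw [mul_assoc, sum_mul]
    congr 1
    refine sum_congr rfl fun n _ => ?_
    split_ifs
    · rfl
    · rw [zero_mul]
  rw [sum_congr rfl h1, sum_comm]
  refine sum_congr rfl fun k hk => ?_
  rw [← mul_sum, sum_comm]
  congr 1
  refine sum_congr rfl fun n hn => ?_
  exact sum_core (hF k hk) (hv n hn).1 (hv n hn).2 (fun l => tn N n * G l)

/-- the `n` for which some `k` is not coprime to `2 a` -/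
def Bad (z : ℝ) (a : ℤ) (n : ℕ) : Prop :=
  ∃ p : ℕ, p.Prime ∧ z ≤ (p : ℝ) ∧ p ∣ a.natAbs ∧ p ∣ n

theorem rough_dvd {z : ℝ} {m k : ℕ} (h : Rough z m) (hk : k ∣ m) : Rough z k :=
  fun p hp hpk => h p hp (hpk.trans hk)

theorem bad_of {z : ℝ} {a : ℤ} {n k : ℕ} (hz : 2 < z) (hr : Rough z (val a n)) (hk : k ∣ val a n)
    (hc : ¬ Nat.Coprime k (2 * a).natAbs) : Bad z a n := by
  obtain ⟨p, hp, hpk, hpa⟩ := Nat.Prime.not_coprime_iff_dvd.1 hc
  have hpz : z ≤ (p : ℝ) := hr p hp (hpk.trans hk)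
  have hp2 : p ≠ 2 := by
    rintro rfl
    have : (2 : ℝ) < 2 := lt_of_lt_of_le hz (by exact_mod_cast hpz)
    exact lt_irrefl _ this
  have h1 : p ∣ a.natAbs := by
    rw [Int.natAbs_mul] at hpa
    rcases hp.dvd_mul.1 hpa with h | h
    · exact absurd ((Nat.prime_dvd_prime_iff_eq hp Nat.prime_two).1 h) hp2
    · exact h
  refine ⟨p, hp, hpz, h1, ?_⟩
  have h2 : (p : ℤ) ∣ (n : ℤ) ^ 2 + a := Int.natCast_dvd.2 (hpk.trans hk)
  have h3 : (p : ℤ) ∣ a := Int.natCast_dvd.2 h1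
  have h4 : (p : ℤ) ∣ (n : ℤ) ^ 2 := (dvd_add_left h3).1 h2
  have h5 : (p : ℤ) ∣ (n : ℤ) := Int.Prime.dvd_pow' hp h4
  exact_mod_cast h5

theorem th_one {lam : ℕ → ℝ} {z y : ℝ} {k : ℕ} (h1 : lam 1 = 1)
    (hlam : ∀ d, lam d ≠ 0 → 1 ≤ d ∧ (d : ℝ) ≤ y) (hyz : y < z) (hk : 1 ≤ k) (hr : Rough z k) :
    Th lam k = 1 := by
  unfold Th
  rw [sum_eq_single 1]
  · rw [h1, one_pow]
  · intro d hd hd1
    by_contra h0
    obtain ⟨h2, h3⟩ := hlam d h0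
    obtain ⟨p, hp, hpd⟩ := Nat.exists_prime_and_dvd hd1
    have h4 := hr p hp (hpd.trans (Nat.dvd_of_mem_divisors hd))
    have h5 : (p : ℝ) ≤ d := by exact_mod_cast Nat.le_of_dvd (by omega) hpd
    linarith
  · intro h
    exact absurd (Nat.one_mem_divisors.2 (by omega)) h

theorem bad_count {z : ℝ} (hz : 0 < z) {a : ℤ} (ha : a ≠ 0) (N : ℕ) :
    (((Ioc N (2 * N)).filter (fun n => Bad z a n)).card : ℝ)
      ≤ (a.natAbs.divisors.card : ℝ) * (2 * N / z) := by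
  have h1 : (Ioc N (2 * N)).filter (fun n => Bad z a n) ⊆
      (a.natAbs.divisors.filter (fun p : ℕ => z ≤ (p : ℝ))).biUnion
        (fun p => (Ioc 0 (2 * N)).filter (fun n => p ∣ n)) := by
    intro n hn
    rw [mem_filter, mem_Ioc] at hn
    obtain ⟨hn, p, hp, hpz, hpa, hpn⟩ := hn
    rw [mem_biUnion]
    refine ⟨p, ?_, ?_⟩
    · rw [mem_filter, Nat.mem_divisors]
      exact ⟨⟨hpa, by rwa [Int.natAbs_ne_zero]⟩, hpz⟩
    · rw [mem_filter, mem_Ioc]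
      exact ⟨⟨by omega, hn.2⟩, hpn⟩
  have h2 := (card_le_card h1).trans card_biUnion_le
  have h3 : (((Ioc N (2 * N)).filter (fun n => Bad z a n)).card : ℝ) ≤
      ∑ p ∈ a.natAbs.divisors.filter (fun p : ℕ => z ≤ (p : ℝ)),
        (((Ioc 0 (2 * N)).filter (fun n => p ∣ n)).card : ℝ) := by exact_mod_cast h2
  refine h3.trans ?_
  have h4 : ∀ p ∈ a.natAbs.divisors.filter (fun p : ℕ => z ≤ (p : ℝ)),
      (((Ioc 0 (2 * N)).filter (fun n => p ∣ n)).card : ℝ) ≤ 2 * N / z := by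
    intro p hp
    rw [mem_filter] at hp
    rw [Nat.Ioc_filter_dvd_card_eq_div]
    refine Nat.cast_div_le.trans ?_
    push_cast
    exact div_le_div_of_nonneg_left (by positivity) hz hp.2
  refine (sum_le_sum h4).trans ?_
  rw [sum_const, nsmul_eq_mul]
  refine mul_le_mul_of_nonneg_right ?_ (by positivity)
  exact_mod_cast card_filter_le _ _

theorem rInd_nonneg (z : ℝ) (m : ℕ) : 0 ≤ rInd z m := by
  unfold rInd
  split_ifs <;> norm_num

/-- the weighted number of the `k` for one `n` -/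
def TT (N : ℕ) (a : ℤ) (F : Finset ℕ) (c : ℕ → ℝ) (z : ℝ) (n : ℕ) : ℝ :=
  ∑ k ∈ F, c k * if k ∣ val a n then tn N n * rInd z (val a n / k) else 0

theorem TT_nonneg {N : ℕ} {a : ℤ} {F : Finset ℕ} {c : ℕ → ℝ} {z : ℝ} (hc : ∀ k ∈ F, 0 ≤ c k)
    (htn : ∀ n, 0 ≤ tn N n) (n : ℕ) : 0 ≤ TT N a F c z n := by
  refine sum_nonneg fun k hk => mul_nonneg (hc k hk) ?_
  split_ifs
  · exact mul_nonneg (htn n) (rInd_nonneg _ _)
  · exact le_refl _

theorem point {N : ℕ} {a : ℤ} {F : Finset ℕ} {c : ℕ → ℝ} {z : ℝ} {K₁ K₂ n : ℕ} (hz : 2 < z)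
    (hF : F = (Ioc K₁ K₂).filter (fun k => Nat.Coprime k (2 * a).natAbs))
    (hc : ∀ k ∈ F, 0 ≤ c k) (hc1 : ∀ k ∈ F, Rough z k → c k = 1) (htn : ∀ n, 0 ≤ tn N n)
    (htn2 : 1 / 2 ≤ tn N n) :
    (if Rough z (val a n) ∧ ∃ k ∈ Ioc K₁ K₂, k ∣ val a n then (1 : ℝ) else 0) ≤
      2 * TT N a F c z n + (if Bad z a n then 1 else 0) := by
  have h0 := TT_nonneg (z := z) (a := a) hc htn n
  split_ifs with h1 h2 h2
  · linarith
  · obtain ⟨hr, k, hk, hkv⟩ := h1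
    have hcop : Nat.Coprime k (2 * a).natAbs := by
      by_contra h3
      exact h2 (bad_of hz hr hkv h3)
    have hkF : k ∈ F := by rw [hF, mem_filter]; exact ⟨hk, hcop⟩
    have h3 : c k * (if k ∣ val a n then tn N n * rInd z (val a n / k) else 0) ≤ TT N a F c z n := by
      refine single_le_sum (f := fun k => c k *
        if k ∣ val a n then tn N n * rInd z (val a n / k) else 0) (fun j hj => ?_) hkF
      refine mul_nonneg (hc j hj) ?_
      split_ifs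
      · exact mul_nonneg (htn n) (rInd_nonneg _ _)
      · exact le_refl _
    rw [if_pos hkv, hc1 k hkF (rough_dvd hr hkv)] at h3
    have h4 : rInd z (val a n / k) = 1 := by
      unfold rInd
      rw [if_pos]
      exact rough_dvd hr (Nat.div_dvd_of_dvd hkv)
    rw [h4] at h3
    linarith
  · linarith
  · linarith

/-- the left side in terms of the sifted sum -/
theorem lhs_le {N : ℕ} {a : ℤ} {F : Finset ℕ} {c : ℕ → ℝ} {z : ℝ} {K₁ K₂ : ℕ} (hz : 2 < z)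
    (hF : F = (Ioc K₁ K₂).filter (fun k => Nat.Coprime k (2 * a).natAbs)) (hN : 1 ≤ N)
    (hc : ∀ k ∈ F, 0 ≤ c k) (hc1 : ∀ k ∈ F, Rough z k → c k = 1) (htn : ∀ n, 0 ≤ tn N n)
    (htn2 : ∀ n ∈ Ioc N (2 * N), 1 / 2 ≤ tn N n) (ha : ¬ IsSquare (-a))
    (haN : |(a : ℝ)| ≤ (N : ℝ) ^ (11 / 10 : ℝ)) :
    (∑ n ∈ Ioc N (2 * N), if Rough z (val a n) ∧ ∃ k ∈ Ioc K₁ K₂, k ∣ val a n then (1 : ℝ) else 0) ≤
      2 * (∑ l ∈ Icc 1 (20 * N ^ 2), om N a F c l * rInd z l) +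
        (a.natAbs.divisors.card : ℝ) * (2 * N / z) := by
  have hF1 : ∀ k ∈ F, 1 ≤ k := by
    intro k hk
    rw [hF, mem_filter, mem_Ioc] at hk
    omega
  have hv : ∀ n ∈ Icc 1 (4 * N), 1 ≤ val a n ∧ val a n ≤ 20 * N ^ 2 := fun n hn =>
    ⟨val_ne ha n, val_le hN (mem_Icc.1 hn).2 haN⟩
  have ha0 : a ≠ 0 := by
    rintro rfl
    exact ha ⟨0, by simp⟩
  have h1 : ∑ l ∈ Icc 1 (20 * N ^ 2), om N a F c l * rInd z l =
      ∑ n ∈ Icc 1 (4 * N), TT N a F c z n := by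
    rw [sum_om hF1 hv]
    unfold TT
    rw [sum_comm]
    refine sum_congr rfl fun k _ => ?_
    rw [mul_sum]
  rw [h1]
  have h2 := sum_le_sum fun n (hn : n ∈ Ioc N (2 * N)) =>
    point hz hF hc hc1 htn (htn2 n hn)
  refine h2.trans ?_
  rw [sum_add_distrib, ← mul_sum, ← sum_filter, sum_const, nsmul_eq_mul, mul_one]
  have h3 : ∑ n ∈ Ioc N (2 * N), TT N a F c z n ≤ ∑ n ∈ Icc 1 (4 * N), TT N a F c z n := by
    refine sum_le_sum_of_subset_of_nonneg ?_ fun n _ _ => TT_nonneg hc htn n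
    intro n hn
    rw [mem_Ioc] at hn
    rw [mem_Icc]
    omega
  have h4 := bad_count (z := z) (by linarith) ha0 N
  linarith

/-- the sums over the multiples of `δ` -/
theorem sum_dvd {N : ℕ} {a : ℤ} {F : Finset ℕ} {c : ℕ → ℝ} (hF : ∀ k ∈ F, 1 ≤ k)
    (hv : ∀ n ∈ Icc 1 (4 * N), 1 ≤ val a n ∧ val a n ≤ 20 * N ^ 2) (δ : ℕ) :
    ∑ l ∈ (Icc 1 (20 * N ^ 2)).filter (fun l => δ ∣ l), om N a F c l =
      ∑ k ∈ F, c k * tcnt N a (k * δ) := by
  have h1 := sum_om (c := c) hF hv (fun l => if δ ∣ l then 1 else 0)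
  have h2 : ∑ l ∈ (Icc 1 (20 * N ^ 2)).filter (fun l => δ ∣ l), om N a F c l =
      ∑ l ∈ Icc 1 (20 * N ^ 2), om N a F c l * (if δ ∣ l then 1 else 0) := by
    rw [sum_filter]
    refine sum_congr rfl fun l _ => ?_
    split_ifs <;> simp
  rw [h2, h1]
  refine sum_congr rfl fun k hk => ?_
  congr 1
  unfold tcnt
  refine sum_congr rfl fun n _ => ?_
  by_cases h3 : k ∣ val a n
  · rw [if_pos h3]
    by_cases h4 : δ ∣ val a n / k
    · have h5 : k * δ ∣ val a n := (Nat.dvd_div_iff_mul_dvd h3).1 h4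
      rw [if_pos h4, if_pos h5, mul_one]
    · have h5 : ¬ k * δ ∣ val a n := fun h => h4 ((Nat.dvd_div_iff_mul_dvd h3).2 h)
      rw [if_neg h4, if_neg h5, mul_zero]
  · rw [if_neg h3, if_neg]
    exact fun h => h3 ((dvd_mul_right k δ).trans h)

/-- `Σ c_k tcnt(kδ) - X ρ(δ)/δ` -/
theorem rem_eq (N : ℕ) (a : ℤ) (F : Finset ℕ) (c : ℕ → ℝ) (δ : ℕ) :
    ∑ k ∈ F, c k * tcnt N a (k * δ) - (N * ∑ k ∈ F, c k * ((rho a k : ℝ) / k)) * ((rho a δ : ℝ) / δ) =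
      ∑ k ∈ F, c k * Ger N a (k * δ) + N * ∑ k ∈ F, c k *
        ((rho a (k * δ) : ℝ) / (k * δ) - (rho a k : ℝ) * rho a δ / (k * δ)) := by
  rw [mul_sum, mul_sum, sum_mul, ← sum_sub_distrib, ← sum_add_distrib]
  refine sum_congr rfl fun k _ => ?_
  unfold Ger
  have h1 : (rho a k : ℝ) * rho a δ / ((k : ℝ) * δ) = (rho a k : ℝ) / k * ((rho a δ : ℝ) / δ) :=
    (div_mul_div_comm _ _ _ _).symm
  rw [h1]
  push_cast
  ring

/-! ### asymptotics -/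

theorem log_pow_le (c r s : ℝ) (hs : 0 < s) :
    ∀ᶠ N : ℕ in atTop, c * (Real.log N) ^ r ≤ (N : ℝ) ^ s := by
  have h1 := (isLittleO_log_rpow_rpow_atTop r hs).bound (show (0 : ℝ) < 1 / (|c| + 1) by positivity)
  have h2 := (tendsto_natCast_atTop_atTop (R := ℝ)).eventually (h1.and (eventually_ge_atTop (1 : ℝ)))
  filter_upwards [h2] with N hN
  obtain ⟨h3, h4⟩ := hN
  have h5 : ‖(N : ℝ) ^ s‖ = (N : ℝ) ^ s := Real.norm_of_nonneg (Real.rpow_nonneg (by linarith) _)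
  have h6 : ‖(Real.log (N : ℝ)) ^ r‖ = (Real.log (N : ℝ)) ^ r :=
    Real.norm_of_nonneg (Real.rpow_nonneg (Real.log_nonneg h4) _)
  rw [h5, h6] at h3
  have h7 : 0 ≤ (Real.log (N : ℝ)) ^ r := Real.rpow_nonneg (Real.log_nonneg h4) _
  have hc : (0 : ℝ) < |c| + 1 := by positivity
  calc c * (Real.log N) ^ r ≤ (|c| + 1) * (Real.log N) ^ r :=
        mul_le_mul_of_nonneg_right (by linarith [le_abs_self c]) h7
    _ ≤ (|c| + 1) * (1 / (|c| + 1) * (N : ℝ) ^ s) := mul_le_mul_of_nonneg_left h3 hc.le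
    _ = (N : ℝ) ^ s := by field_simp

theorem log_ge (K : ℝ) : ∀ᶠ N : ℕ in atTop, K ≤ Real.log N :=
  (Real.tendsto_log_atTop.comp (tendsto_natCast_atTop_atTop (R := ℝ))).eventually_ge_atTop K

theorem loglog_sq (c d : ℝ) (hd : 0 < d) :
    ∀ᶠ N : ℕ in atTop, c * (Real.log (Real.log N)) ^ 2 ≤ d * Real.log N := by
  have h1 := (Real.isLittleO_pow_log_id_atTop (n := 2)).bound
    (show (0 : ℝ) < d / (|c| + 1) by positivity)
  have h2 := (Real.tendsto_log_atTop.comp (tendsto_natCast_atTop_atTop (R := ℝ))).eventually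
    (h1.and (eventually_ge_atTop (1 : ℝ)))
  filter_upwards [h2] with N hN
  obtain ⟨h3, h4⟩ := hN
  simp only [Function.comp_apply, id_eq] at h3 h4
  rw [Real.norm_of_nonneg (by positivity), Real.norm_of_nonneg (by linarith)] at h3
  have hc : (0 : ℝ) < |c| + 1 := by positivity
  calc c * (Real.log (Real.log N)) ^ 2 ≤ (|c| + 1) * (Real.log (Real.log N)) ^ 2 :=
        mul_le_mul_of_nonneg_right (by linarith [le_abs_self c]) (by positivity)
    _ ≤ (|c| + 1) * (d / (|c| + 1) * Real.log N) := mul_le_mul_of_nonneg_left h3 hc.le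
    _ = d * Real.log N := by field_simp

theorem lvl {σ V e0 : ℝ} {N : ℕ} (hσ : 0 < σ) (hV : 0 < V) (he : e0 ≤ σ / 64)
    (hL : Real.exp 1 ≤ Real.log N) :
    ((Real.log N) ^ V) ^ (2 * bN σ V N) * ((N : ℝ) ^ (e0 / 3)) ^ 2 ≤ (N : ℝ) ^ σ := by
  have hL1 : 1 < Real.log N := lt_of_lt_of_le (by have := Real.add_one_lt_exp (one_ne_zero); linarith) hL
  have hL0 : 0 < Real.log N := by linarith
  have hN0 : (0 : ℝ) < N := by
    by_contra h
    have : (N : ℝ) = 0 := le_antisymm (not_lt.1 h) (Nat.cast_nonneg N)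
    rw [this, Real.log_zero] at hL0
    exact lt_irrefl _ hL0
  have hLL : 0 < Real.log (Real.log N) := Real.log_pos hL1
  have hN1 : (1 : ℝ) ≤ N := by
    by_contra h
    have := Real.log_neg hN0 (not_le.1 h)
    linarith
  have h1 : (bN σ V N : ℝ) ≤ σ / 8 * Real.log N / (V * Real.log (Real.log N)) := by
    unfold bN
    exact Nat.floor_le (by positivity)
  have h2 : (bN σ V N : ℝ) * (V * Real.log (Real.log N)) ≤ σ / 8 * Real.log N :=
    (le_div_iff₀ (by positivity)).1 h1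
  have h3 : ((Real.log N) ^ V) ^ (2 * bN σ V N) ≤ (N : ℝ) ^ (σ / 4) := by
    rw [← Real.rpow_natCast, ← Real.rpow_mul hL0.le, Real.rpow_def_of_pos hL0,
      Real.rpow_def_of_pos hN0]
    apply Real.exp_le_exp.2
    push_cast
    nlinarith
  have h4 : ((N : ℝ) ^ (e0 / 3)) ^ 2 ≤ (N : ℝ) ^ (σ / 96) := by
    rw [← Real.rpow_natCast, ← Real.rpow_mul hN0.le]
    refine Real.rpow_le_rpow_of_exponent_le hN1 ?_
    push_cast
    linarith
  calc ((Real.log N) ^ V) ^ (2 * bN σ V N) * ((N : ℝ) ^ (e0 / 3)) ^ 2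
      ≤ (N : ℝ) ^ (σ / 4) * (N : ℝ) ^ (σ / 96) :=
        mul_le_mul h3 h4 (by positivity) (by positivity)
    _ = (N : ℝ) ^ (σ / 4 + σ / 96) := (Real.rpow_add hN0 _ _).symm
    _ ≤ (N : ℝ) ^ σ := Real.rpow_le_rpow_of_exponent_le hN1 (by linarith)

theorem quarter {σ V M : ℝ} {N : ℕ} (hσ : 0 < σ) (hV : 0 < V)
    (hL : Real.exp 1 ≤ Real.log N)
    (h : (M + 1) * (Real.log (Real.log N)) ^ 2 ≤ σ / (8 * V) * Real.log N) :
    (1 / 4 : ℝ) ^ bN σ V N ≤ ((Real.log N) ^ M)⁻¹ := by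
  have hL1 : 1 < Real.log N := lt_of_lt_of_le (by have := Real.add_one_lt_exp (one_ne_zero); linarith) hL
  have hL0 : 0 < Real.log N := by linarith
  have hLL : 1 ≤ Real.log (Real.log N) := by
    rw [Real.le_log_iff_exp_le hL0]
    exact hL
  have h1 : σ / 8 * Real.log N / (V * Real.log (Real.log N)) < (bN σ V N : ℝ) + 1 := by
    unfold bN
    exact Nat.lt_floor_add_one _
  have hLL0 : 0 < Real.log (Real.log N) := by linarith
  have h2 : M * Real.log (Real.log N) + 1 ≤ σ / 8 * Real.log N / (V * Real.log (Real.log N)) := by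
    rw [le_div_iff₀ (by positivity)]
    have h3 : σ / (8 * V) * Real.log N * V = σ / 8 * Real.log N := by
      field_simp
    rw [← h3]
    have h4 : (M * Real.log (Real.log N) + 1) * Real.log (Real.log N) ≤
        (M + 1) * (Real.log (Real.log N)) ^ 2 := by nlinarith
    calc (M * Real.log (Real.log N) + 1) * (V * Real.log (Real.log N))
        = (M * Real.log (Real.log N) + 1) * Real.log (Real.log N) * V := by ring
      _ ≤ σ / (8 * V) * Real.log N * V := mul_le_mul_of_nonneg_right (h4.trans h) hV.le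
  have h3 : M * Real.log (Real.log N) ≤ (bN σ V N : ℝ) := by linarith
  have h4 : (Real.log N) ^ M ≤ (4 : ℝ) ^ bN σ V N := by
    rw [Real.rpow_def_of_pos hL0]
    calc Real.exp (Real.log (Real.log N) * M) ≤ Real.exp (bN σ V N : ℝ) :=
          Real.exp_le_exp.2 (by linarith)
      _ = (Real.exp 1) ^ bN σ V N := by rw [← Real.exp_nat_mul, mul_one]
      _ ≤ 4 ^ bN σ V N := by
          refine pow_le_pow_left₀ (Real.exp_pos _).le ?_ _
          have := Real.exp_one_lt_d9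
          linarith
  rw [one_div, inv_pow]
  exact inv_anti₀ (Real.rpow_pos_of_pos hL0 _) h4


/-- the sum of the error terms over `δ` -/
theorem err_sum (hT : SpecTAUM) {N : ℕ} {z w q A P16 P32 : ℝ} (hz : 1 ≤ z) (hw : 0 < w) (hq : 0 ≤ q)
    (hA : 0 ≤ A) (h16 : 0 ≤ P16) (h32 : 0 ≤ P32) (Q : ℕ → Prop) :
    ∑ δ ∈ (Icc 1 ⌊z ^ 16⌋₊).filter Q, (A + N * (2 * ta δ / δ * (16 * ta δ / w * P16 + q * P32)))
      ≤ z ^ 16 * A + N * (32 * P16 / w * (1 + Real.log (z ^ 16)) ^ 4 +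
        2 * q * P32 * (1 + Real.log (z ^ 16)) ^ 2) := by
  have hz16 : 1 ≤ z ^ 16 := one_le_pow₀ hz
  have hX1 : 1 ≤ ⌊z ^ 16⌋₊ := (Nat.one_le_floor_iff _).2 hz16
  have hXz : ((⌊z ^ 16⌋₊ : ℕ) : ℝ) ≤ z ^ 16 := Nat.floor_le (by positivity)
  have hta : ∀ n, 0 ≤ ta n := fun n => Nat.cast_nonneg _
  have hlog0 : 0 ≤ Real.log ((⌊z ^ 16⌋₊ : ℕ) : ℝ) := Real.log_nonneg (by exact_mod_cast hX1)
  have hlog : Real.log ((⌊z ^ 16⌋₊ : ℕ) : ℝ) ≤ Real.log (z ^ 16) :=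
    Real.log_le_log (by exact_mod_cast hX1) hXz
  have hj : ∀ j : ℕ, ∑ δ ∈ (Icc 1 ⌊z ^ 16⌋₊).filter Q, ta δ ^ j / (δ : ℝ) ≤
      (1 + Real.log (z ^ 16)) ^ 2 ^ j := by
    intro j
    have h1 := hT j ⌊z ^ 16⌋₊ 1 hX1 le_rfl
    have h2 : ta 1 ^ j / ((1 : ℕ) : ℝ) = 1 := by simp [ta]
    rw [h2, one_mul, filter_true_of_mem (fun k _ => one_dvd k)] at h1
    have h3 : ∑ δ ∈ (Icc 1 ⌊z ^ 16⌋₊).filter Q, ta δ ^ j / (δ : ℝ) ≤
        ∑ δ ∈ Icc 1 ⌊z ^ 16⌋₊, ta δ ^ j / (δ : ℝ) :=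
      sum_le_sum_of_subset_of_nonneg (filter_subset _ _) fun i _ _ =>
        div_nonneg (pow_nonneg (hta i) _) (Nat.cast_nonneg _)
    exact h3.trans (h1.trans (pow_le_pow_left₀ (by linarith) (by linarith) _))
  have hcard : (((Icc 1 ⌊z ^ 16⌋₊).filter Q).card : ℝ) ≤ z ^ 16 := by
    have h1 : ((Icc 1 ⌊z ^ 16⌋₊).filter Q).card ≤ ⌊z ^ 16⌋₊ := by
      have := card_filter_le (Icc 1 ⌊z ^ 16⌋₊) Q
      rwa [Nat.card_Icc, Nat.add_sub_cancel] at this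
    exact le_trans (by exact_mod_cast h1) hXz
  have h1 : ∑ δ ∈ (Icc 1 ⌊z ^ 16⌋₊).filter Q,
      (A + N * (2 * ta δ / δ * (16 * ta δ / w * P16 + q * P32))) =
      (((Icc 1 ⌊z ^ 16⌋₊).filter Q).card : ℝ) * A +
        N * (32 * P16 / w * ∑ δ ∈ (Icc 1 ⌊z ^ 16⌋₊).filter Q, ta δ ^ 2 / (δ : ℝ) +
          2 * q * P32 * ∑ δ ∈ (Icc 1 ⌊z ^ 16⌋₊).filter Q, ta δ ^ 1 / (δ : ℝ)) := by
    rw [sum_add_distrib, sum_const, nsmul_eq_mul, ← mul_sum]
    congr 2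
    rw [mul_sum, mul_sum, ← sum_add_distrib]
    refine sum_congr rfl fun δ _ => ?_
    ring
  rw [h1]
  have h2 := hj 2
  have h3 := hj 1
  have h4 : (2 : ℕ) ^ 2 = 4 := by norm_num
  have h5 : (2 : ℕ) ^ 1 = 2 := by norm_num
  rw [h4] at h2
  rw [h5] at h3
  refine add_le_add (mul_le_mul_of_nonneg_right hcard hA) ?_
  refine mul_le_mul_of_nonneg_left ?_ (Nat.cast_nonneg _)
  refine add_le_add (mul_le_mul_of_nonneg_left h2 (by positivity))
    (mul_le_mul_of_nonneg_left h3 (by positivity))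

/-- the numerical estimate of the total error -/
theorem err_num {N : ℕ} {σ e0 B V C0 L w q z : ℝ} (he0 : 0 < e0)
    (he1 : e0 ≤ σ / 64) (hV : B + 60 ≤ V) (hC0 : 0 < C0) (hL : L = Real.log N)
    (hL1 : 1 ≤ L) (hN0 : (0 : ℝ) < N) (hw : w = L ^ V) (hz : z = (N : ℝ) ^ e0)
    (hq0 : 0 ≤ q) (hq : q ≤ (L ^ (B + 60))⁻¹)
    (hP6 : 12 * C0 * (1 + e0) * L ^ (B + 1) ≤ (N : ℝ) ^ (3 * σ / 4))
    (hKb : 12 * (C0 * (1 + e0) * 32 * 4 ^ 16 * (1 + σ) ^ 4) ≤ L)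
    (hKc : 12 * (C0 * (1 + e0) * 2 * 4 ^ 32 * (1 + σ) ^ 2) ≤ L) :
    C0 * (1 + Real.log z) * (z ^ 16 * (N : ℝ) ^ (1 - σ) + N *
      (32 * (1 + Real.log (4 * N)) ^ 16 / w * (1 + Real.log (z ^ 16)) ^ 4 +
        2 * q * (1 + Real.log (4 * N)) ^ 32 * (1 + Real.log (z ^ 16)) ^ 2)) ≤
      N / (4 * L ^ B) := by
  have hL0 : 0 < L := by linarith
  have hN1 : (1 : ℝ) ≤ N := by
    by_contra h
    have := Real.log_neg hN0 (not_le.1 h)
    linarith
  have hlz : Real.log z = e0 * L := by rw [hz, Real.log_rpow hN0, hL]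
  have hlz16 : Real.log (z ^ 16) = 16 * (e0 * L) := by
    rw [Real.log_pow, hlz]; norm_num
  have hlog4 : Real.log 4 ≤ 2 := by
    rw [Real.log_le_iff_le_exp (by norm_num)]
    have := Real.exp_one_gt_d9
    have h2 : Real.exp 2 = Real.exp 1 * Real.exp 1 := by rw [← Real.exp_add]; norm_num
    rw [h2]; nlinarith
  have hP : 1 + Real.log (4 * N) ≤ 4 * L := by
    rw [Real.log_mul (by norm_num) hN0.ne', ← hL]
    linarith
  have hP0 : 0 ≤ 1 + Real.log (4 * N) := by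
    have := Real.log_nonneg (show (1 : ℝ) ≤ 4 * N by linarith)
    linarith
  have he0L : 0 ≤ e0 * L := by positivity
  have hQ : 1 + Real.log (z ^ 16) ≤ (1 + σ) * L := by
    rw [hlz16]
    have : e0 * L ≤ σ / 64 * L := mul_le_mul_of_nonneg_right he1 hL0.le
    nlinarith
  have hQ0 : 0 ≤ 1 + Real.log (z ^ 16) := by rw [hlz16]; linarith
  have hR : 1 + Real.log z ≤ (1 + e0) * L := by rw [hlz]; nlinarith
  have hR0 : 0 ≤ 1 + Real.log z := by rw [hlz]; linarith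
  have hLB : 0 < L ^ B := Real.rpow_pos_of_pos hL0 _
  have hL60 : L ^ (B + 60) = L ^ B * L ^ 60 := by
    rw [Real.rpow_add hL0]
    congr 1
    rw [← Real.rpow_natCast]; norm_num
  have hw1 : L ^ B * L ^ 60 ≤ w := by
    rw [← hL60, hw]
    exact Real.rpow_le_rpow_of_exponent_le hL1 hV
  have hw0 : 0 < w := lt_of_lt_of_le (by positivity) hw1
  -- the three terms
  have hz16 : z ^ 16 ≤ (N : ℝ) ^ (σ / 4) := by
    rw [hz, ← Real.rpow_natCast, ← Real.rpow_mul hN0.le]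
    refine Real.rpow_le_rpow_of_exponent_le hN1 ?_
    push_cast
    linarith
  have t1 : z ^ 16 * (N : ℝ) ^ (1 - σ) ≤ (N : ℝ) ^ (1 - 3 * σ / 4) := by
    calc z ^ 16 * (N : ℝ) ^ (1 - σ) ≤ (N : ℝ) ^ (σ / 4) * (N : ℝ) ^ (1 - σ) :=
          mul_le_mul_of_nonneg_right hz16 (by positivity)
      _ = (N : ℝ) ^ (1 - 3 * σ / 4) := by rw [← Real.rpow_add hN0]; congr 1; ring
  have t2 : 32 * (1 + Real.log (4 * N)) ^ 16 / w * (1 + Real.log (z ^ 16)) ^ 4 ≤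
      32 * (4 * L) ^ 16 / (L ^ B * L ^ 60) * ((1 + σ) * L) ^ 4 := by
    refine mul_le_mul ?_ (pow_le_pow_left₀ hQ0 hQ 4) (by positivity) (by positivity)
    refine div_le_div₀ (by positivity) ?_ (by positivity) hw1
    exact mul_le_mul_of_nonneg_left (pow_le_pow_left₀ hP0 hP 16) (by norm_num)
  have t3 : 2 * q * (1 + Real.log (4 * N)) ^ 32 * (1 + Real.log (z ^ 16)) ^ 2 ≤
      2 * (L ^ B * L ^ 60)⁻¹ * (4 * L) ^ 32 * ((1 + σ) * L) ^ 2 := by
    rw [← hL60]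
    refine mul_le_mul ?_ (pow_le_pow_left₀ hQ0 hQ 2) (by positivity) (by positivity)
    refine mul_le_mul ?_ (pow_le_pow_left₀ hP0 hP 32) (by positivity) (by positivity)
    exact mul_le_mul_of_nonneg_left hq (by norm_num)
  have hpos : 0 ≤ z ^ 16 * (N : ℝ) ^ (1 - σ) + N *
      (32 * (1 + Real.log (4 * N)) ^ 16 / w * (1 + Real.log (z ^ 16)) ^ 4 +
        2 * q * (1 + Real.log (4 * N)) ^ 32 * (1 + Real.log (z ^ 16)) ^ 2) := by
    have hz0 : 0 ≤ z := by rw [hz]; positivity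
    positivity
  have hsum := add_le_add t1 (mul_le_mul_of_nonneg_left (add_le_add t2 t3) hN0.le)
  have h1 : C0 * (1 + Real.log z) ≤ C0 * ((1 + e0) * L) := mul_le_mul_of_nonneg_left hR hC0.le
  refine (mul_le_mul h1 hsum hpos (by positivity)).trans ?_
  have hsplit : C0 * ((1 + e0) * L) * ((N : ℝ) ^ (1 - 3 * σ / 4) + N *
      (32 * (4 * L) ^ 16 / (L ^ B * L ^ 60) * ((1 + σ) * L) ^ 4 +
        2 * (L ^ B * L ^ 60)⁻¹ * (4 * L) ^ 32 * ((1 + σ) * L) ^ 2)) =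
      C0 * (1 + e0) * L * (N : ℝ) ^ (1 - 3 * σ / 4) +
      N * ((C0 * (1 + e0) * 32 * 4 ^ 16 * (1 + σ) ^ 4) * L ^ 21 / (L ^ B * L ^ 60)) +
      N * ((C0 * (1 + e0) * 2 * 4 ^ 32 * (1 + σ) ^ 2) * L ^ 35 / (L ^ B * L ^ 60)) := by
    field_simp
    ring
  rw [hsplit]
  have a1 : C0 * (1 + e0) * L * (N : ℝ) ^ (1 - 3 * σ / 4) ≤ N / (12 * L ^ B) := by
    rw [le_div_iff₀ (by positivity)]
    have e1 : L ^ (B + 1) = L ^ B * L := by rw [Real.rpow_add hL0, Real.rpow_one]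
    rw [e1] at hP6
    have e2 : (N : ℝ) ^ (3 * σ / 4) * (N : ℝ) ^ (1 - 3 * σ / 4) = N := by
      rw [← Real.rpow_add hN0]
      have : 3 * σ / 4 + (1 - 3 * σ / 4) = 1 := by ring
      rw [this, Real.rpow_one]
    calc C0 * (1 + e0) * L * (N : ℝ) ^ (1 - 3 * σ / 4) * (12 * L ^ B)
        = (12 * C0 * (1 + e0) * (L ^ B * L)) * (N : ℝ) ^ (1 - 3 * σ / 4) := by ring
      _ ≤ (N : ℝ) ^ (3 * σ / 4) * (N : ℝ) ^ (1 - 3 * σ / 4) :=
          mul_le_mul_of_nonneg_right hP6 (by positivity)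
      _ = N := e2
  have a2 : ∀ (K : ℝ) (j : ℕ), 12 * K ≤ L → j + 1 ≤ 60 →
      N * (K * L ^ j / (L ^ B * L ^ 60)) ≤ N / (12 * L ^ B) := by
    intro K j hK hj
    rw [div_eq_mul_inv (N : ℝ)]
    refine mul_le_mul_of_nonneg_left ?_ hN0.le
    rw [← one_div, div_le_div_iff₀ (by positivity) (by positivity)]
    have e1 : L ^ (j + 1) ≤ L ^ 60 := pow_le_pow_right₀ hL1 hj
    have e2 : 12 * K * L ^ j ≤ L ^ 60 := by
      calc 12 * K * L ^ j ≤ L * L ^ j := mul_le_mul_of_nonneg_right hK (by positivity)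
        _ = L ^ (j + 1) := by ring
        _ ≤ L ^ 60 := e1
    calc K * L ^ j * (12 * L ^ B) = L ^ B * (12 * K * L ^ j) := by ring
      _ ≤ L ^ B * L ^ 60 := mul_le_mul_of_nonneg_left e2 hLB.le
      _ = 1 * (L ^ B * L ^ 60) := by ring
  have a3 := a2 _ 21 hKb (by norm_num)
  have a4 := a2 _ 35 hKc (by norm_num)
  have a5 : (N : ℝ) / (4 * L ^ B) = N / (12 * L ^ B) + N / (12 * L ^ B) + N / (12 * L ^ B) := by
    field_simp
    ring
  rw [a5]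
  linarith

end WPTM

open WPTM in
/-- **Module WPT**: upper bound for every `a`, the main term left as a sum. -/
theorem specWPT (hFL : QPA.SpecFL) (hTYW : SpecTYW) (hBRU : SpecBRU) (hMKF : SpecMKF)
    (hMAI : SpecMAI) (hTAUM : SpecTAUM) (hTNT : SpecTNT) (hM : QPA.SpecRHOM) (hS : QPA.SpecRHOS)
    (h2 : QPA.SpecRHO2) : SpecWPT := by
  obtain ⟨C0, hC0, hFL⟩ := hFL
  obtain ⟨σ, hσ, N₁, hTYW⟩ := hTYW
  refine ⟨σ, 2 * (1 + C0), hσ, by positivity, ?_⟩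
  intro e0 he0 he1 B hB
  refine ⟨B + 60, by linarith, ?_⟩
  intro V hV
  have hV0 : 0 < V := by linarith
  obtain ⟨Cd, hCd, hdiv⟩ := Pool.Agent.Lib.MP_391708_nt.Div.card_divisors_le_rpow (e0 / 4)
    (by positivity)
  have ev : ∀ᶠ N : ℕ in atTop, Real.exp 1 ≤ Real.log N ∧ 3 * (Real.log N) ^ (0 : ℝ) ≤ (N : ℝ) ^ e0 ∧
      1 * (Real.log N) ^ V ≤ (N : ℝ) ^ e0 ∧
      (B + 60 + 1) * (Real.log (Real.log N)) ^ 2 ≤ σ / (8 * V) * Real.log N ∧
      12 * C0 * (1 + e0) * (Real.log N) ^ (B + 1) ≤ (N : ℝ) ^ (3 * σ / 4) ∧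
      12 * (C0 * (1 + e0) * 32 * 4 ^ 16 * (1 + σ) ^ 4) ≤ Real.log N ∧
      12 * (C0 * (1 + e0) * 2 * 4 ^ 32 * (1 + σ) ^ 2) ≤ Real.log N ∧
      4 * Cd * (Real.log N) ^ B ≤ (N : ℝ) ^ (29 / 40 * e0) := by
    filter_upwards [log_ge (Real.exp 1), log_pow_le 3 0 e0 he0, log_pow_le 1 V e0 he0,
      loglog_sq (B + 60 + 1) (σ / (8 * V)) (by positivity),
      log_pow_le (12 * C0 * (1 + e0)) (B + 1) (3 * σ / 4) (by positivity),
      log_ge (12 * (C0 * (1 + e0) * 32 * 4 ^ 16 * (1 + σ) ^ 4)),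
      log_ge (12 * (C0 * (1 + e0) * 2 * 4 ^ 32 * (1 + σ) ^ 2)),
      log_pow_le (4 * Cd) B (29 / 40 * e0) (by positivity)] with N a1 a2 a3 a4 a5 a6 a7 a8
    exact ⟨a1, a2, a3, a4, a5, a6, a7, a8⟩
  obtain ⟨N₂, hN₂⟩ := eventually_atTop.1 ev
  refine ⟨max N₁ (max N₂ 3), ?_⟩
  intro N hN a ha haN lam hl1 hl hly K₁ K₂ hK1 hK12 hK2
  have hNN1 : N₁ ≤ N := le_trans (le_max_left _ _) hN
  have hNN2 : N₂ ≤ N := le_trans (le_trans (le_max_left _ _) (le_max_right _ _)) hN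
  have hN3 : 3 ≤ N := le_trans (le_trans (le_max_right _ _) (le_max_right _ _)) hN
  obtain ⟨hLe, hz3, hwz, hLL, hP6, hKb, hKc, hP8⟩ := hN₂ N hNN2
  rw [Real.rpow_zero, mul_one] at hz3
  rw [one_mul] at hwz
  have hN1 : 1 ≤ N := by omega
  have hN1r : (1 : ℝ) ≤ N := by exact_mod_cast hN1
  have hN0 : (0 : ℝ) < N := by linarith
  have hL1 : 1 ≤ Real.log N := le_trans (by have := Real.add_one_le_exp 1; linarith) hLe
  have hL0 : 0 < Real.log N := by linarith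
  set L : ℝ := Real.log N with hLdef
  set z : ℝ := (N : ℝ) ^ e0 with hz
  set w : ℝ := L ^ V with hw
  set b : ℕ := bN σ V N with hb
  set F : Finset ℕ := (Ioc K₁ K₂).filter (fun k => Nat.Coprime k (2 * a).natAbs) with hF
  set c : ℕ → ℝ := ck w b lam with hcdef
  have hw1 : 1 ≤ w := Real.one_le_rpow hL1 hV0.le
  have hw0 : 0 < w := by linarith
  have hz2 : (2 : ℝ) < z := by linarith
  have hz0 : 0 < z := by linarith
  have hyz : (N : ℝ) ^ (e0 / 3) < z :=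
    Real.rpow_lt_rpow_of_exponent_lt (by exact_mod_cast (by omega : 1 < N)) (by linarith)
  have hF1 : ∀ k ∈ F, 1 ≤ k := by
    intro k hk
    rw [hF, mem_filter, mem_Ioc] at hk
    omega
  have hTh0 : ∀ k, 0 ≤ Th lam k := fun k => by unfold Th; positivity
  have hc0 : ∀ k ∈ F, 0 ≤ c k := fun k hk =>
    mul_nonneg (hBRU w b k (hF1 k hk)).1 (hTh0 k)
  have hc1 : ∀ k ∈ F, Rough z k → c k = 1 := by
    intro k hk hr
    have hr' : Rough w k := fun p hp hpk => hwz.trans (hr p hp hpk)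
    rw [hcdef]
    unfold ck
    rw [(hBRU w b k (hF1 k hk)).2.2.1 hr', th_one hl1 hly hyz (hF1 k hk) hr, one_mul]
  obtain ⟨ht1, ht2, -, -⟩ := hTNT N hN1
  have htn : ∀ n, 0 ≤ tn N n := fun n => (ht1 n).1
  have hlhs := lhs_le hz2 hF hN1 hc0 hc1 htn ht2 ha haN
  have ha0 : a ≠ 0 := by
    rintro rfl
    exact ha ⟨0, by simp⟩
  have hv : ∀ n ∈ Icc 1 (4 * N), 1 ≤ QPA.val a n ∧ QPA.val a n ≤ 20 * N ^ 2 := fun n hn =>
    ⟨val_ne ha n, val_le hN1 (mem_Icc.1 hn).2 haN⟩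
  -- the local densities
  have hg : ∀ p : ℕ, p.Prime → 0 ≤ (rho a p : ℝ) / p ∧ (rho a p : ℝ) / p ≤ 2 / (p : ℝ) ∧
      (rho a p : ℝ) / p ≤ 2 / 3 := by
    intro p hp
    have hp0 : (0 : ℝ) < p := by exact_mod_cast hp.pos
    by_cases hp2 : p = 2
    · subst hp2
      rw [h2 a]
      norm_num
    · have hp3 : (3 : ℝ) ≤ p := by
        have := hp.two_le
        exact_mod_cast (by omega : 3 ≤ p)
      have hle : rho a p ≤ 2 := by
        have h3 := hS a p hp.prime.squarefree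
        rw [hp.primeFactors, card_singleton, pow_one] at h3
        exact h3
      have hle' : (rho a p : ℝ) ≤ 2 := by exact_mod_cast hle
      refine ⟨by positivity, div_le_div_of_nonneg_right hle' hp0.le, ?_⟩
      rw [div_le_div_iff₀ hp0 (by norm_num)]
      nlinarith
  have h1 : QPA.SpecRHO1 := by
    intro a
    unfold rho
    simp
  set X : ℝ := N * ∑ k ∈ F, c k * ((rho a k : ℝ) / k) with hX
  have hX0 : 0 ≤ X := by
    refine mul_nonneg hN0.le (sum_nonneg fun k hk => mul_nonneg (hc0 k hk) (by positivity))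
  have hom : ∀ l ∈ Icc 1 (20 * N ^ 2), 0 ≤ om N a F c l := by
    intro l _
    refine sum_nonneg fun k hk => mul_nonneg (hc0 k hk) (sum_nonneg fun n _ => ?_)
    split_ifs
    · exact htn n
    · exact le_refl _
  have hfl := hFL 0 z hz2.le (Icc 1 (20 * N ^ 2)) id (om N a F c) X (fun p => (rho a p : ℝ) / p)
    hX0 hom hg
  have hWa : ∏ p ∈ PB z, (1 - (rho a p : ℝ) / p) = Wa z a := rfl
  simp only [id_eq, Nat.cast_zero, neg_zero, Real.exp_zero, mul_one, mul_zero, zero_add] at hfl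
  rw [hWa] at hfl
  have hWa0 : 0 ≤ Wa z a := by
    unfold Wa
    refine prod_nonneg fun p hp => ?_
    have hpp : p.Prime := (mem_filter.1 hp).2
    have := (hg p hpp).2.2
    linarith
  -- the remainders
  have hq0 : (0 : ℝ) ≤ (1 / 4 : ℝ) ^ b := by positivity
  have hq := quarter (M := B + 60) hσ hV0 hLe hLL
  have hy1 : (1 : ℝ) ≤ (N : ℝ) ^ (e0 / 3) := Real.one_le_rpow hN1r (by positivity)
  obtain ⟨I, x, hI1, hI2, hI3⟩ := hMKF w ((N : ℝ) ^ (e0 / 3)) b lam hw1 hy1 hl hly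
  have hlvl := lvl (N := N) hσ hV0 he1 hLe
  have hrem : ∀ δ ∈ (Icc 1 ⌊z ^ 16⌋₊).filter
      (fun δ => Squarefree δ ∧ ∀ p : ℕ, p.Prime → p ∣ δ → (p : ℝ) < z),
      |(∑ i ∈ (Icc 1 (20 * N ^ 2)).filter (fun i => δ ∣ i), om N a F c i) -
        X * ∏ p ∈ δ.primeFactors, ((rho a p : ℝ) / p)| ≤
      (N : ℝ) ^ (1 - σ) + N * (2 * ta δ / δ * (16 * ta δ / w * (1 + Real.log (4 * N)) ^ 16 +
        (1 / 4 : ℝ) ^ b * (1 + Real.log (4 * N)) ^ 32)) := by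
    intro δ hδ
    rw [mem_filter, mem_Icc] at hδ
    obtain ⟨⟨hδ1, hδX⟩, hsq, -⟩ := hδ
    rw [sum_dvd hF1 hv δ, FLA.prod_rho h1 hM a δ hsq, hX, rem_eq]
    refine (abs_add_le _ _).trans (add_le_add ?_ ?_)
    · have h3 : ∑ k ∈ F, c k * Ger N a (k * δ) = ∑ k ∈ F, sds I x k * Ger N a (k * δ) := by
        refine sum_congr rfl fun k hk => ?_
        rw [hcdef, hI3 k (hF1 k hk)]
      rw [h3]
      refine hTYW N hNN1 a ha haN I x (fun q hq => ⟨(hI1 q hq).1, (hI1 q hq).2.trans hlvl⟩)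
        (hI2.trans hlvl) δ hδ1 ?_ K₁ K₂ hK1 hK12 hK2
      have h4 : (δ : ℝ) ≤ z ^ 16 := by
        have : (δ : ℝ) ≤ ((⌊z ^ 16⌋₊ : ℕ) : ℝ) := by exact_mod_cast hδX
        exact this.trans (Nat.floor_le (by positivity))
      refine h4.trans ?_
      rw [hz, ← Real.rpow_natCast, ← Real.rpow_mul hN0.le]
      refine Real.rpow_le_rpow_of_exponent_le hN1r ?_
      push_cast
      linarith
    · rw [abs_mul, abs_of_nonneg hN0.le]
      refine mul_le_mul_of_nonneg_left ?_ hN0.le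
      have h3 := hMAI N b δ w a lam hN1 hw1 hsq hl
      refine (abs_sum_le_sum_abs _ _).trans (le_trans ?_ h3)
      have h4 : F ⊆ (Icc 1 (4 * N)).filter (fun k => Nat.Coprime k (2 * a).natAbs) := by
        intro k hk
        rw [hF, mem_filter, mem_Ioc] at hk
        rw [mem_filter, mem_Icc]
        exact ⟨⟨by omega, by omega⟩, hk.2⟩
      refine le_trans (le_of_eq ?_) (sum_le_sum_of_subset_of_nonneg h4 fun k _ _ => by positivity)
      refine sum_congr rfl fun k _ => ?_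
      rw [abs_mul]
  have hz1' : (1 : ℝ) ≤ z := by linarith
  have hes := err_sum hTAUM (N := N) (z := z) (w := w)
    (q := (1 / 4 : ℝ) ^ b) (A := (N : ℝ) ^ (1 - σ)) (P16 := (1 + Real.log (4 * N)) ^ 16)
    (P32 := (1 + Real.log (4 * N)) ^ 32) hz1' hw0 hq0
    (by positivity) (by positivity) (by positivity)
    (fun δ => Squarefree δ ∧ ∀ p : ℕ, p.Prime → p ∣ δ → (p : ℝ) < z)
  have hsum := (sum_le_sum hrem).trans (le_of_eq_of_le (sum_congr (by ext; simp) fun _ _ => rfl) hes)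
  have hnum := err_num (N := N) (B := B) (z := z) he0 he1 hV hC0 hLdef hL1 hN0 hw hz hq0 hq hP6
    hKb hKc
  have hlogz : 0 ≤ Real.log z := Real.log_nonneg (by linarith)
  have hE : C0 * (1 + Real.log z) * ∑ δ ∈ (Icc 1 ⌊z ^ 16⌋₊).filter
      (fun δ => Squarefree δ ∧ ∀ p : ℕ, p.Prime → p ∣ δ → (p : ℝ) < z),
      |(∑ i ∈ (Icc 1 (20 * N ^ 2)).filter (fun i => δ ∣ i), om N a F c i) -
        X * ∏ p ∈ δ.primeFactors, ((rho a p : ℝ) / p)| ≤ N / (4 * L ^ B) :=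
    (mul_le_mul_of_nonneg_left hsum (by positivity)).trans hnum
  have hup : ∑ l ∈ Icc 1 (20 * N ^ 2), om N a F c l * rInd z l ≤
      (1 + C0) * (X * Wa z a) + N / (4 * L ^ B) := by
    have h3 := (abs_le.1 hfl).2
    have h4 := h3.trans (add_le_add le_rfl hE)
    linarith
  -- the bad `n`
  have hLB : 0 < L ^ B := Real.rpow_pos_of_pos hL0 _
  have hbad : (a.natAbs.divisors.card : ℝ) * (2 * N / z) ≤ N / (2 * L ^ B) := by
    have h3 := hdiv a.natAbs (Int.natAbs_pos.2 ha0)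
    have h4 : ((a.natAbs : ℕ) : ℝ) ≤ (N : ℝ) ^ (11 / 10 : ℝ) := by
      rw [Nat.cast_natAbs]
      push_cast
      exact haN
    have h5 : ((a.natAbs : ℕ) : ℝ) ^ (e0 / 4) ≤ (N : ℝ) ^ (11 / 40 * e0) := by
      refine (Real.rpow_le_rpow (Nat.cast_nonneg _) h4 (by positivity)).trans (le_of_eq ?_)
      rw [← Real.rpow_mul hN0.le]
      congr 1
      ring
    have h6 : (a.natAbs.divisors.card : ℝ) ≤ Cd * (N : ℝ) ^ (11 / 40 * e0) :=
      h3.trans (mul_le_mul_of_nonneg_left h5 hCd.le)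
    have h7 : z = (N : ℝ) ^ (11 / 40 * e0) * (N : ℝ) ^ (29 / 40 * e0) := by
      rw [hz, ← Real.rpow_add hN0]
      congr 1
      ring
    refine (mul_le_mul_of_nonneg_right h6 (by positivity)).trans ?_
    rw [← mul_div_assoc, div_le_div_iff₀ hz0 (by positivity), h7]
    have h8 : (0 : ℝ) < (N : ℝ) ^ (11 / 40 * e0) := by positivity
    calc Cd * (N : ℝ) ^ (11 / 40 * e0) * (2 * N) * (2 * L ^ B)
        = (N * (N : ℝ) ^ (11 / 40 * e0)) * (4 * Cd * L ^ B) := by ring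
      _ ≤ (N * (N : ℝ) ^ (11 / 40 * e0)) * (N : ℝ) ^ (29 / 40 * e0) :=
          mul_le_mul_of_nonneg_left hP8 (by positivity)
      _ = N * ((N : ℝ) ^ (11 / 40 * e0) * (N : ℝ) ^ (29 / 40 * e0)) := by ring
  have hfin : 2 * (1 + C0) * N * Wa z a * (∑ k ∈ F, c k * ((rho a k : ℝ) / k)) + N / L ^ B =
      2 * ((1 + C0) * (X * Wa z a) + N / (4 * L ^ B)) + N / (2 * L ^ B) := by
    rw [hX]
    field_simp
    ring
  rw [hfin]
  linarith

end

end Pool.Agent.Lib.MP391708.U
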