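import Pool.Agent.Lib.MP_391708_nt.U.TNT
import Pool.Agent.Lib.MP_391708_nt.U.FJB
import Pool.Agent.Lib.MP_391708_nt.U.ABL
import Pool.Agent.Lib.MP_391708_nt.U.RSU
import Pool.Agent.Lib.MP_391708_nt.U.TCE
import Pool.Agent.Lib.MP_391708_nt.U.TYA
import Pool.Agent.Lib.MP_391708_nt.U.TYPEI
import Pool.Agent.Lib.MP_391708_nt.U.TYW
import Pool.Agent.Lib.MP_391708_nt.U.BRU
import Pool.Agent.Lib.MP_391708_nt.U.TAUM
import Pool.Agent.Lib.MP_391708_nt.U.SLM
import Pool.Agent.Lib.MP_391708_nt.U.MKF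
import Pool.Agent.Lib.MP_391708_nt.U.RHB
import Pool.Agent.Lib.MP_391708_nt.U.MAI
import Pool.Agent.Lib.MP_391708_nt.U.RWA
import Pool.Agent.Lib.MP_391708_nt.U.RHOW
import Pool.Agent.Lib.MP_391708_nt.U.WPT
import Pool.Agent.Lib.MP_391708_nt.U.WMS
import Pool.Agent.Lib.MP_391708_nt.U.WIC
import Pool.Agent.Lib.MP_391708_nt.U.WINUP
import Pool.Agent.Lib.MP_391708_nt.U.PRODU
import Pool.Agent.Lib.MP_391708_nt.U.GMAXU
import Pool.Agent.Lib.MP_391708_nt.QPA.Selb
import Pool.Agent.Lib.MP_391708_nt.QPA.Wmer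
import Pool.Agent.Lib.MP_391708_nt.QPA.FL
import Pool.Agent.Lib.MP_391708_nt.QPA.Rho
import Pool.Agent.Lib.MP_391708_nt.QPA.PVA
import Pool.Agent.Lib.MP_391708_nt.QPA.PVE
import Pool.Agent.Lib.MP_391708_nt.QPA.SML
import Pool.Agent.Lib.MP_391708_nt.QPA.LRG

/-!
# Project U (MP_391708), part U2: assembly. Everything but ROOTW is proved.
-/

set_option autoImplicit false

namespace Pool.Agent.Lib.MP391708.U

/-- Type I estimates for every `a` -/
theorem typeI_of (hR : SpecROOTW) : SpecTYPEI :=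
  specTYPEI (specTYA hR (specTCE specTNT specFJB) specFJB specABL specRSU)

/-- the windows -/
theorem winu_of (hR : SpecROOTW) : SpecWINU := by
  have hRHB := specRHB QPA.specRHOM QPA.specRHOS
  have hRWA := specRWA (QPA.specSML QPA.specPVA) (QPA.specLRG QPA.specPVE) specTAUM
  have hWPT := specWPT QPA.specFL (specTYW (typeI_of hR) specRSU) specBRU specMKF
    (specMAI specBRU specTAUM hRHB QPA.specRHOM) specTAUM specTNT QPA.specRHOM QPA.specRHOS
    QPA.specRHO2
  have hWMS := specWMS (specRHOW hRWA specTAUM QPA.specRHOD) specBRU specTAUM hRHB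
  exact specWINUP hWPT hWMS (specSLM QPA.specSELB) (specPRODU QPA.specRHOP QPA.specPVA)
    QPA.specWMER (specGMAXU QPA.specRHO2 QPA.specRHOP) specWIC

end Pool.Agent.Lib.MP391708.U
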