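import Pool.Agent.Lib.MP_391708_nt.U.SpecU6a

/-! # Module BADU: rough numbers which are not coprime to n -/

set_option autoImplicit false

namespace Pool.Agent.Lib.MP391708.U

open Finset Filter Topology Pool.Agent.Lib.MP391708.QPA
open scoped Classical

namespace BADUM

theorem card_pf (n : ℕ) (hn : 1 ≤ n) : (n.primeFactors.card : ℝ) ≤ 2 * Real.log n := by
  have h1 : 2 ^ n.primeFactors.card ≤ n := by
    calc 2 ^ n.primeFactors.card = ∏ _p ∈ n.primeFactors, 2 := by rw [Finset.prod_const]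
      _ ≤ ∏ p ∈ n.primeFactors, p := Finset.prod_le_prod (fun _ _ => by norm_num)
          fun p hp => (Nat.prime_of_mem_primeFactors hp).two_le
      _ ≤ n := Nat.le_of_dvd hn (Nat.prod_primeFactors_dvd n)
  have h2 : ((2 : ℝ) ^ n.primeFactors.card) ≤ n := by exact_mod_cast h1
  have h3 := Real.log_le_log (by positivity) h2
  rw [Real.log_pow] at h3
  have h4 := Real.log_two_gt_d9
  have h5 : (0 : ℝ) ≤ n.primeFactors.card := Nat.cast_nonneg _
  nlinarith

theorem card_mul (X p : ℕ) (hp : 1 ≤ p) :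
    (((Icc 1 X).filter (fun u => p ∣ u)).card : ℝ) ≤ X / p := by
  have h : (Icc 1 X).filter (fun u => p ∣ u) = (Ioc 0 X).filter (fun u => p ∣ u) := by
    ext u
    simp only [Finset.mem_filter, Finset.mem_Icc, Finset.mem_Ioc]
    constructor
    · rintro ⟨⟨h1, h2⟩, h3⟩
      exact ⟨⟨h1, h2⟩, h3⟩
    · rintro ⟨⟨h1, h2⟩, h3⟩
      exact ⟨⟨h1, h2⟩, h3⟩
  rw [h, Nat.Ioc_filter_dvd_card_eq_div]
  exact Nat.cast_div_le

end BADUM

open BADUM in
theorem specBADU : SpecBADU := by
  intro z n X hz hn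
  have hsub : (Icc 1 X).filter (fun u => Rough z u ∧ ¬ Nat.Coprime u n) ⊆
      (n.primeFactors.filter (fun p : ℕ => z ≤ (p : ℝ))).biUnion
        (fun p => (Icc 1 X).filter (fun u => p ∣ u)) := by
    intro u hu
    rw [Finset.mem_filter] at hu
    obtain ⟨hu1, hr, hc⟩ := hu
    obtain ⟨p, hp, hpu, hpn⟩ := Nat.Prime.not_coprime_iff_dvd.1 hc
    rw [Finset.mem_biUnion]
    refine ⟨p, ?_, ?_⟩
    · rw [Finset.mem_filter, Nat.mem_primeFactors]
      exact ⟨⟨hp, hpn, by omega⟩, hr p hp hpu⟩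
    · rw [Finset.mem_filter]
      exact ⟨hu1, hpu⟩
  have hX : (0 : ℝ) ≤ X := Nat.cast_nonneg _
  calc (((Icc 1 X).filter (fun u => Rough z u ∧ ¬ Nat.Coprime u n)).card : ℝ)
      ≤ (((n.primeFactors.filter (fun p : ℕ => z ≤ (p : ℝ))).biUnion
        (fun p => (Icc 1 X).filter (fun u => p ∣ u))).card : ℝ) := by
        exact_mod_cast Finset.card_le_card hsub
    _ ≤ ((∑ p ∈ n.primeFactors.filter (fun p : ℕ => z ≤ (p : ℝ)),
          ((Icc 1 X).filter (fun u => p ∣ u)).card : ℕ) : ℝ) := by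
        exact_mod_cast Finset.card_biUnion_le
    _ = ∑ p ∈ n.primeFactors.filter (fun p : ℕ => z ≤ (p : ℝ)),
          (((Icc 1 X).filter (fun u => p ∣ u)).card : ℝ) := by push_cast; rfl
    _ ≤ ∑ _p ∈ n.primeFactors.filter (fun p : ℕ => z ≤ (p : ℝ)), (X : ℝ) / z := by
        refine Finset.sum_le_sum fun p hp => ?_
        rw [Finset.mem_filter, Nat.mem_primeFactors] at hp
        obtain ⟨⟨hp1, -, -⟩, hp2⟩ := hp
        exact (card_mul X p hp1.pos).trans (div_le_div_of_nonneg_left hX hz hp2)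
    _ = (n.primeFactors.filter (fun p : ℕ => z ≤ (p : ℝ))).card * ((X : ℝ) / z) := by
        rw [Finset.sum_const, nsmul_eq_mul]
    _ ≤ (2 * Real.log n) * ((X : ℝ) / z) := by
        refine mul_le_mul_of_nonneg_right ?_ (by positivity)
        refine le_trans ?_ (card_pf n hn)
        exact_mod_cast Finset.card_filter_le _ _
    _ = 2 * Real.log n * X / z := by ring

end Pool.Agent.Lib.MP391708.U
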