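import Pool.Agent.Lib.MP_391708_nt.U.SpecU6a

/-!
# Project U, module BALU: `β - β^♯` is balanced (helper21)
-/

set_option autoImplicit false

namespace Pool.Agent.Lib.MP391708.U

open Finset Filter Topology Pool.Agent.Lib.MP391708.QPA
open scoped Classical

noncomputable section

namespace BALUM

/-! ### pieces -/

/-- the boundaries of the pieces -/
def bd (L η : ℝ) (J i : ℕ) : ℕ := ⌊L * (1 + η * i / J)⌋₊

lemma pc_eq (L η : ℝ) (J i : ℕ) : pc L η J i = Ioc (bd L η J i) (bd L η J (i + 1)) := by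
  unfold pc bd
  push_cast
  rfl

lemma bd_mono {L η : ℝ} {J : ℕ} (hL : 0 ≤ L) (hη : 0 ≤ η) : Monotone (bd L η J) := by
  intro i j hij
  unfold bd
  apply Nat.floor_mono
  apply mul_le_mul_of_nonneg_left _ hL
  have h : (i : ℝ) ≤ j := by exact_mod_cast hij
  have h2 : η * i / J ≤ η * j / J := by gcongr
  linarith

lemma bd_diff {L η : ℝ} {J : ℕ} (hL : 0 ≤ L) (hη : 0 ≤ η) (i : ℕ) :
    |((bd L η J (i + 1) : ℝ) - bd L η J i) - η * L / J| ≤ 1 := by
  have h1 : 0 ≤ L * (1 + η * i / J) := by positivity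
  have h2 : 0 ≤ L * (1 + η * ((i + 1 : ℕ) : ℝ) / J) := by positivity
  have h3 := Nat.floor_le h1
  have h4 := Nat.floor_le h2
  have h5 := Nat.lt_floor_add_one (L * (1 + η * i / J))
  have h6 := Nat.lt_floor_add_one (L * (1 + η * ((i + 1 : ℕ) : ℝ) / J))
  have h7 : L * (1 + η * ((i + 1 : ℕ) : ℝ) / J) - L * (1 + η * i / J) = η * L / J := by
    push_cast
    ring
  unfold bd
  rw [abs_le]
  constructor <;> linarith

lemma bd_zero (L η : ℝ) (J : ℕ) : bd L η J 0 = ⌊L⌋₊ := by
  unfold bd
  simp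

lemma bd_J {L η : ℝ} {J : ℕ} (hJ : 0 < J) : bd L η J J = ⌊(1 + η) * L⌋₊ := by
  unfold bd
  have h : (J : ℝ) ≠ 0 := by positivity
  rw [mul_div_assoc, div_self h, mul_one, mul_comm]

lemma sum_pieces {M : Type} [AddCommMonoid M] {a : ℕ → ℕ} (ha : Monotone a) (c : M) (u n : ℕ) :
    ∑ i ∈ range n, (if u ∈ Ioc (a i) (a (i + 1)) then c else 0) =
      if u ∈ Ioc (a 0) (a n) then c else 0 := by
  induction n with
  | zero => simp
  | succ n ih =>
    rw [sum_range_succ, ih]
    have h1 : a 0 ≤ a n := ha (Nat.zero_le _)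
    have h2 : a n ≤ a (n + 1) := ha (Nat.le_succ _)
    simp only [mem_Ioc]
    by_cases h3 : a 0 < u ∧ u ≤ a n
    · rw [if_pos h3, if_neg (by omega), if_pos (by omega), add_zero]
    · by_cases h4 : a n < u ∧ u ≤ a (n + 1)
      · rw [if_neg h3, if_pos h4, if_pos (by omega), zero_add]
      · rw [if_neg h3, if_neg h4, if_neg (by omega), add_zero]

lemma ioc_form (a b : ℕ) : Ioc a b = Ioc a (a + (b - a)) := by
  rcases Nat.le_total a b with h | h
  · rw [Nat.add_sub_cancel' h]
  · rw [Ioc_eq_empty_of_le h, Nat.sub_eq_zero_of_le h, add_zero, Ioc_self]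

lemma inter_form (x₁ x₂ a b : ℕ) : Ioc x₁ x₂ ∩ Ioc a b =
    Ioc (max x₁ a) (max x₁ a + (min x₂ b - max x₁ a)) := by
  rw [← ioc_form]
  exact Ioc_inter_Ioc

lemma inter_len (x₁ x₂ a b : ℕ) : min x₂ b - max x₁ a ≤ b - a := by omega

/-! ### the factor `V_w` -/

lemma ceil_w (w : ℕ) : ⌈(w : ℝ) + 1⌉₊ = w + 1 := by
  have : (w : ℝ) + 1 = ((w + 1 : ℕ) : ℝ) := by push_cast; rfl
  rw [this, Nat.ceil_natCast]

lemma PB_w (w : ℕ) : PB ((w : ℝ) + 1) = (range (w + 1)).filter Nat.Prime := by
  rw [PB, ceil_w]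

lemma fac_pos {p : ℕ} (hp : p.Prime) : 0 < 1 - 1 / (p : ℝ) := by
  have h : (2 : ℝ) ≤ p := by exact_mod_cast hp.two_le
  have h2 : 1 / (p : ℝ) ≤ 1 / 2 := by
    apply one_div_le_one_div_of_le (by norm_num) h
  linarith

lemma Vw_pos (w : ℕ) : 0 < Vw w := by
  unfold Vw
  apply prod_pos
  intro p hp
  rw [PB_w, mem_filter] at hp
  exact inv_pos.2 (fac_pos hp.2)

lemma Vw_Wp (w : ℕ) : Vw w * Wp ((w : ℝ) + 1) = 1 := by
  unfold Vw Wp
  rw [← prod_mul_distrib]
  apply prod_eq_one
  intro p hp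
  rw [PB_w, mem_filter] at hp
  exact inv_mul_cancel₀ (fac_pos hp.2).ne'

lemma Vw_le (w : ℕ) (hw : 1 ≤ w) : Vw w ≤ w := by
  induction w, hw using Nat.le_induction with
  | base =>
    unfold Vw
    rw [PB_w, prod_eq_one]
    · simp
    · intro p hp
      rw [mem_filter, mem_range] at hp
      have := hp.2.two_le
      omega
  | succ w hw ih =>
    have hw' : (1 : ℝ) ≤ w := by exact_mod_cast hw
    unfold Vw at ih ⊢
    rw [PB_w] at ih
    rw [PB_w, range_add_one, filter_insert]
    by_cases h : (w + 1).Prime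
    · rw [if_pos h, prod_insert (by simp)]
      have h1 : (1 - 1 / ((w + 1 : ℕ) : ℝ))⁻¹ = ((w : ℝ) + 1) / w := by
        have h2 : (w : ℝ) + 1 ≠ 0 := by linarith
        have h3 : 1 - 1 / ((w + 1 : ℕ) : ℝ) = (w : ℝ) / (w + 1) := by
          push_cast
          field_simp
          ring
        rw [h3, inv_div]
      rw [h1]
      calc ((w : ℝ) + 1) / w * ∏ p ∈ (range (w + 1)).filter Nat.Prime, (1 - 1 / (p : ℝ))⁻¹
          ≤ ((w : ℝ) + 1) / w * w := mul_le_mul_of_nonneg_left ih (by positivity)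
        _ = ((w + 1 : ℕ) : ℝ) := by
          have h0 : (w : ℝ) ≠ 0 := by linarith
          push_cast
          field_simp
    · rw [if_neg h]
      refine ih.trans ?_
      push_cast
      linarith

/-! ### the averages -/

lemma dav_le {L η A : ℝ} {J : ℕ} {β : ℕ → ℝ} (hL : 0 ≤ L) (hη : 0 ≤ η) (hA : ∀ l, |β l| ≤ A)
    (hM : 1 ≤ η * L / J) (i : ℕ) : |Dav L η J β i| ≤ 2 * A := by
  have hA0 : 0 ≤ A := (abs_nonneg _).trans (hA 0)
  have h1 := bd_diff (J := J) hL hη i
  have hmono : bd L η J i ≤ bd L η J (i + 1) := bd_mono hL hη (Nat.le_succ i)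
  have h2 : |∑ l ∈ pc L η J i, β l| ≤ (η * L / J + 1) * A := by
    refine (abs_sum_le_sum_abs _ _).trans ?_
    refine (sum_le_sum (fun l _ => hA l)).trans ?_
    rw [sum_const, pc_eq, Nat.card_Ioc, nsmul_eq_mul, Nat.cast_sub hmono]
    rw [abs_le] at h1
    exact mul_le_mul_of_nonneg_right (by linarith) hA0
  unfold Dav
  rw [abs_div, abs_of_pos (by linarith : 0 < η * L / J), div_le_iff₀ (by linarith)]
  refine h2.trans ?_
  nlinarith

/-- decomposition of `β^♯` -/
lemma sharp_sum (w : ℕ) (L η : ℝ) (J : ℕ) (β : ℕ → ℝ) (g : ℕ → ℂ) (x₁ x₂ : ℕ) :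
    ∑ u ∈ Ioc x₁ x₂, (sharp w L η J β u : ℂ) * g u =
      ∑ i ∈ range J, ((Dav L η J β i * Vw w : ℝ) : ℂ) *
        ∑ u ∈ Ioc x₁ x₂ ∩ pc L η J i, (rInd ((w : ℝ) + 1) u : ℂ) * g u := by
  have h1 : ∀ u, (sharp w L η J β u : ℂ) * g u = ∑ i ∈ range J, if u ∈ pc L η J i then
      ((Dav L η J β i * Vw w : ℝ) : ℂ) * ((rInd ((w : ℝ) + 1) u : ℂ) * g u) else 0 := by
    intro u
    unfold sharp
    rw [Complex.ofReal_sum, sum_mul]
    refine sum_congr rfl fun i _ => ?_
    split_ifs
    · push_cast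
      ring
    · simp
  rw [sum_congr rfl (fun u _ => h1 u), sum_comm]
  refine sum_congr rfl fun i _ => ?_
  rw [sum_ite_mem, mul_sum]

/-- decomposition of `β` -/
lemma beta_sum {L η : ℝ} {J : ℕ} {β : ℕ → ℝ} (hL : 0 ≤ L) (hη : 0 ≤ η) (hJ : 0 < J)
    (hβ : ∀ l, β l ≠ 0 → L < (l : ℝ) ∧ (l : ℝ) ≤ (1 + η) * L) (x₁ x₂ : ℕ) :
    ∑ u ∈ Ioc x₁ x₂, β u = ∑ i ∈ range J, ∑ u ∈ Ioc x₁ x₂ ∩ pc L η J i, β u := by
  have h1 : ∀ u, β u = ∑ i ∈ range J, if u ∈ pc L η J i then β u else 0 := by
    intro u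
    have h2 : ∀ i, (if u ∈ pc L η J i then β u else 0) =
        if u ∈ Ioc (bd L η J i) (bd L η J (i + 1)) then β u else 0 := by
      intro i
      rw [pc_eq]
    rw [sum_congr rfl (fun i _ => h2 i), sum_pieces (bd_mono hL hη)]
    by_cases h0 : β u = 0
    · rw [h0]
      simp
    · obtain ⟨h3, h4⟩ := hβ u h0
      rw [if_pos]
      rw [mem_Ioc, bd_zero, bd_J hJ]
      exact ⟨(Nat.floor_lt hL).2 h3, Nat.le_floor h4⟩
  rw [sum_congr rfl (fun u _ => h1 u), sum_comm]
  refine sum_congr rfl fun i _ => ?_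
  rw [sum_ite_mem]

lemma sharp_sum_real (w : ℕ) (L η : ℝ) (J : ℕ) (β : ℕ → ℝ) (x₁ x₂ : ℕ) :
    ∑ u ∈ Ioc x₁ x₂, sharp w L η J β u =
      ∑ i ∈ range J, (Dav L η J β i * Vw w) *
        ∑ u ∈ Ioc x₁ x₂ ∩ pc L η J i, rInd ((w : ℝ) + 1) u := by
  have h := sharp_sum w L η J β (fun _ => 1) x₁ x₂
  simp only [mul_one] at h
  exact_mod_cast h

/-! ### the real inequalities -/

/-- the parameters: `T = log N`, `P = T^B₁`, `A = T^C₀`, `Q = T^W`, `U = T^V`, `D = N^(1/10)` -/
structure Par (T P A Q U D L M η J v : ℝ) : Prop where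
  T1 : 100 ≤ T
  P1 : 1 ≤ P
  A1 : 1 ≤ A
  Q1 : 1 ≤ Q
  U1 : 1 ≤ U
  D1 : P * A * Q * U * T ^ 10 ≤ D
  L1 : D * D ≤ L
  J1 : P * A * T ≤ J
  J2 : J ≤ U
  M1 : M * J = η * L
  e1 : 1 ≤ Q * η
  e2 : η ≤ 1 / 4
  v0 : 0 < v
  v1 : v ≤ Q

namespace Par

variable {T P A Q U D L M η J v : ℝ} (h : Par T P A Q U D L M η J v)

include h

lemma T0 : 0 < T := by linarith [h.T1]
lemma J0 : 1 ≤ J := by
  have h1 := h.J1
  have h2 : 1 ≤ P * A := one_le_mul_of_one_le_of_one_le h.P1 h.A1
  nlinarith [h.T1]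
lemma D0 : 1 ≤ D := by
  have h1 := h.D1
  have h2 : 1 ≤ P * A * Q * U * T ^ 10 := by
    have h3 : 1 ≤ T ^ 10 := one_le_pow₀ (by linarith [h.T1])
    exact one_le_mul_of_one_le_of_one_le (one_le_mul_of_one_le_of_one_le
      (one_le_mul_of_one_le_of_one_le (one_le_mul_of_one_le_of_one_le h.P1 h.A1) h.Q1) h.U1) h3
  linarith
lemma L0 : 1 ≤ L := by
  have := h.L1
  have := h.D0
  nlinarith

/-- the piece length is large -/
lemma M0 : 1 ≤ M := by
  have hJ := h.J0
  have hQ := h.Q1
  have hU := h.U1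
  have hD := h.D0
  have h1 : Q * (M * J) = Q * η * L := by rw [h.M1]; ring
  have h2 : L ≤ Q * (M * J) := by
    rw [h1]
    have := h.e1
    have := h.L0
    nlinarith
  -- `D * D ≤ Q * M * J ≤ Q * U * M`
  by_contra hcon
  push Not at hcon
  have h3 : M * J ≤ J := by nlinarith
  have h4 : Q * (M * J) ≤ Q * U := by
    apply mul_le_mul_of_nonneg_left (h3.trans h.J2) (by linarith)
  have h5 : Q * U ≤ D := by
    have h6 : Q * U ≤ P * A * Q * U * T ^ 10 := by
      have h7 : 1 ≤ P * A * T ^ 10 := one_le_mul_of_one_le_of_one_le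
        (one_le_mul_of_one_le_of_one_le h.P1 h.A1) (one_le_pow₀ (by linarith [h.T1]))
      have h8 : 0 ≤ Q * U := by positivity
      calc Q * U = 1 * (Q * U) := (one_mul _).symm
        _ ≤ (P * A * T ^ 10) * (Q * U) := mul_le_mul_of_nonneg_right h7 h8
        _ = _ := by ring
    exact h6.trans h.D1
  have h6 : D * D ≤ D := by
    have := h.L1
    linarith
  have h7 : 100 ≤ D := by
    have h8 : (100 : ℝ) ≤ P * A * Q * U * T ^ 10 := by
      have h9 : 1 ≤ P * A * Q * U := one_le_mul_of_one_le_of_one_le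
        (one_le_mul_of_one_le_of_one_le (one_le_mul_of_one_le_of_one_le h.P1 h.A1) h.Q1) h.U1
      have h10 : T ≤ T ^ 10 := le_self_pow₀ (by linarith [h.T1]) (by norm_num)
      have h11 := h.T1
      nlinarith
    linarith [h.D1]
  nlinarith

/-- the total error over all pieces, times `A` -/
lemma errJ : 4 * A * Q * (J * ((M + 1) / (P * A * Q * T ^ 2) + D)) ≤ 3 * (L / (P * T ^ 2)) := by
  have hJ := h.J0
  have hM := h.M0
  have hL := h.L0
  have hT := h.T0
  have hP : 0 < P := by linarith [h.P1]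
  have hA : 0 < A := by linarith [h.A1]
  have hQ : 0 < Q := by linarith [h.Q1]
  have hU : 0 < U := by linarith [h.U1]
  have h1 : J * (M + 1) ≤ L / 2 := by
    have h2 : J * (M + 1) ≤ 2 * (M * J) := by nlinarith
    have h3 : M * J ≤ 1 / 4 * L := by
      rw [h.M1]
      exact mul_le_mul_of_nonneg_right h.e2 (by linarith)
    linarith
  have h2 : 4 * A * Q * (J * ((M + 1) / (P * A * Q * T ^ 2))) ≤ 2 * (L / (P * T ^ 2)) := by
    have e : 4 * A * Q * (J * ((M + 1) / (P * A * Q * T ^ 2))) =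
        4 * (J * (M + 1)) / (P * T ^ 2) := by
      field_simp
    rw [e, ← mul_div_assoc]
    apply div_le_div_of_nonneg_right _ (by positivity)
    linarith
  have h3 : 4 * A * Q * (J * D) ≤ L / (P * T ^ 2) := by
    rw [le_div_iff₀ (by positivity)]
    have h4 : 4 * A * Q * (J * D) * (P * T ^ 2) ≤ 4 * A * Q * (U * D) * (P * T ^ 2) := by
      have := h.J2
      have hD := h.D0
      gcongr
    have h5 : 4 * A * Q * (U * D) * (P * T ^ 2) ≤ (P * A * Q * U * T ^ 10) * D := by
      have h6 : 4 * T ^ 2 ≤ T ^ 10 := by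
        have h7 : (4 : ℝ) ≤ T ^ 8 := by
          have h8 : T ≤ T ^ 8 := le_self_pow₀ (by linarith [h.T1]) (by norm_num)
          linarith [h.T1]
        have h8 : T ^ 10 = T ^ 8 * T ^ 2 := by ring
        rw [h8]
        have : 0 < T ^ 2 := by positivity
        nlinarith
      have hD := h.D0
      have h9 : 0 ≤ P * A * Q * U * D := by positivity
      calc 4 * A * Q * (U * D) * (P * T ^ 2) = (P * A * Q * U * D) * (4 * T ^ 2) := by ring
        _ ≤ (P * A * Q * U * D) * T ^ 10 := mul_le_mul_of_nonneg_left h6 h9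
        _ = _ := by ring
    have h6 : (P * A * Q * U * T ^ 10) * D ≤ D * D :=
      mul_le_mul_of_nonneg_right h.D1 (by linarith [h.D0])
    linarith [h.L1]
  have e2 : 4 * A * Q * (J * ((M + 1) / (P * A * Q * T ^ 2) + D)) =
      4 * A * Q * (J * ((M + 1) / (P * A * Q * T ^ 2))) + 4 * A * Q * (J * D) := by ring
  rw [e2]
  linarith

/-- `2 A J` is small -/
lemma AJ : 2 * A * J ≤ L / (P * T ^ 2) := by
  have hT := h.T0
  have hP : 0 < P := by linarith [h.P1]
  have hA : 0 < A := by linarith [h.A1]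
  have hU : 0 < U := by linarith [h.U1]
  rw [le_div_iff₀ (by positivity)]
  have h1 : 2 * A * J * (P * T ^ 2) ≤ 2 * A * U * (P * T ^ 2) := by
    have := h.J2
    gcongr
  have h2 : 2 * A * U * (P * T ^ 2) ≤ P * A * Q * U * T ^ 10 := by
    have h6 : 2 * T ^ 2 ≤ Q * T ^ 10 := by
      have h7 : (4 : ℝ) ≤ T ^ 8 := by
        have h8 : T ≤ T ^ 8 := le_self_pow₀ (by linarith [h.T1]) (by norm_num)
        linarith [h.T1]
      have h8 : T ^ 10 = T ^ 8 * T ^ 2 := by ring
      have h9 : 2 * T ^ 2 ≤ T ^ 10 := by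
        rw [h8]
        have : 0 < T ^ 2 := by positivity
        nlinarith
      have h10 : 0 ≤ T ^ 10 := by positivity
      nlinarith [h.Q1]
    calc 2 * A * U * (P * T ^ 2) = (P * A * U) * (2 * T ^ 2) := by ring
      _ ≤ (P * A * U) * (Q * T ^ 10) := mul_le_mul_of_nonneg_left h6 (by positivity)
      _ = _ := by ring
  have h3 : D ≤ L := by
    have := h.L1
    have := h.D0
    nlinarith
  linarith [h.D1]

/-- one incomplete piece -/
lemma AM : 3 * A * (M + 1) ≤ 3 / 2 * (L / (P * T)) := by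
  have hJ := h.J0
  have hM := h.M0
  have hL := h.L0
  have hT := h.T0
  have hP : 0 < P := by linarith [h.P1]
  have hA : 0 < A := by linarith [h.A1]
  have h1 : 3 * A * (M + 1) ≤ 6 * A * M := by nlinarith
  have h2 : 6 * A * M ≤ 3 / 2 * (L / (P * T)) := by
    rw [← mul_div_assoc, le_div_iff₀ (by positivity)]
    have h3 : (P * A * T) * M ≤ 1 / 4 * L := by
      have h4 : (P * A * T) * M ≤ J * M := mul_le_mul_of_nonneg_right h.J1 (by linarith)
      have h5 : M * J ≤ 1 / 4 * L := by
        rw [h.M1]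
        exact mul_le_mul_of_nonneg_right h.e2 (by linarith)
      linarith
    calc 6 * A * M * (P * T) = 6 * ((P * A * T) * M) := by ring
      _ ≤ 6 * (1 / 4 * L) := by linarith
      _ = 3 / 2 * L := by ring
  linarith

lemma fin1 : L / (P * T) + 3 * (L / (P * T ^ 2)) ≤ L / P := by
  have hL := h.L0
  have hT := h.T1
  have hP : 0 < P := by linarith [h.P1]
  have e1 : L / (P * T) = L / P * (1 / T) := by field_simp
  have e2 : L / (P * T ^ 2) = L / P * (1 / T) * (1 / T) := by field_simp
  rw [e1, e2]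
  have h1 : 1 / T ≤ 1 / 100 := one_div_le_one_div_of_le (by norm_num) hT
  have h2 : 0 ≤ 1 / T := by
    have := h.T0
    positivity
  have h3 : 0 ≤ L / P := by positivity
  have h4 : L / P * (1 / T) ≤ L / P * (1 / 100) := mul_le_mul_of_nonneg_left h1 h3
  have h5 : L / P * (1 / T) * (1 / T) ≤ L / P * (1 / 100) * 1 :=
    mul_le_mul h4 (by linarith) h2 (by positivity)
  linarith

lemma fin2 : 2 * (3 / 2 * (L / (P * T)) + 8 * (L / (P * T ^ 2))) ≤ L / P := by
  have hL := h.L0
  have hT := h.T1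
  have hP : 0 < P := by linarith [h.P1]
  have e1 : L / (P * T) = L / P * (1 / T) := by field_simp
  have e2 : L / (P * T ^ 2) = L / P * (1 / T) * (1 / T) := by field_simp
  rw [e1, e2]
  have h1 : 1 / T ≤ 1 / 100 := one_div_le_one_div_of_le (by norm_num) hT
  have h2 : 0 ≤ 1 / T := by
    have := h.T0
    positivity
  have h3 : 0 ≤ L / P := by positivity
  have h4 : L / P * (1 / T) ≤ L / P * (1 / 100) := mul_le_mul_of_nonneg_left h1 h3
  have h5 : L / P * (1 / T) * (1 / T) ≤ L / P * (1 / 100) * 1 :=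
    mul_le_mul h4 (by linarith) h2 (by positivity)
  linarith

end Par

lemma card_le {L η : ℝ} {J : ℕ} (hL : 0 ≤ L) (hη : 0 ≤ η) (x₁ x₂ i : ℕ) :
    ((min x₂ (bd L η J (i + 1)) - max x₁ (bd L η J i) : ℕ) : ℝ) ≤ η * L / J + 1 := by
  have h1 := bd_diff (J := J) hL hη i
  have hmono : bd L η J i ≤ bd L η J (i + 1) := bd_mono hL hη (Nat.le_succ i)
  have h2 : ((min x₂ (bd L η J (i + 1)) - max x₁ (bd L η J i) : ℕ) : ℝ) ≤
      ((bd L η J (i + 1) - bd L η J i : ℕ) : ℝ) := by
    exact_mod_cast inter_len x₁ x₂ _ _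
  rw [Nat.cast_sub hmono] at h2
  rw [abs_le] at h1
  linarith

/-- at most one incomplete piece -/
lemma count_le {L η : ℝ} {J : ℕ} (hL : 0 ≤ L) (hη : 0 ≤ η) (x : ℕ) :
    ((range J).filter (fun i => bd L η J i < x ∧ x < bd L η J (i + 1))).card ≤ 1 := by
  rw [card_le_one]
  have key : ∀ i j, i < j → bd L η J j < x → x < bd L η J (i + 1) → False := by
    intro i j hij h1 h2
    have h3 : bd L η J (i + 1) ≤ bd L η J j := bd_mono hL hη hij
    omega
  intro i hi j hj
  rw [mem_filter] at hi hj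
  rcases lt_trichotomy i j with h | h | h
  · exact (key i j h hj.2.1 hi.2.2).elim
  · exact h
  · exact (key j i h hi.2.1 hj.2.2).elim

end BALUM

open BALUM in
theorem specBALU (hRCH : SpecRCH) : SpecBALU := by
  intro B₁ C₀ hB₁ hC₀
  refine ⟨B₁ + 1, B₁ + C₀ + 1, by linarith, by linarith, ?_⟩
  intro W V hW hV
  obtain ⟨N₁, hN₁⟩ := hRCH (B₁ + C₀ + W + 2) (max W B₁) (by linarith) (lt_max_of_lt_left hW)
  have hlarge : ∀ᶠ N : ℕ in atTop, 100 ≤ Real.log N ∧
      (Real.log N) ^ (B₁ + C₀ + W + V + 10) ≤ (N : ℝ) ^ (1 / 10 : ℝ) := by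
    have h1 : Tendsto (fun N : ℕ => Real.log N) atTop atTop :=
      Real.tendsto_log_atTop.comp tendsto_natCast_atTop_atTop
    have h2 := (isLittleO_log_rpow_rpow_atTop (B₁ + C₀ + W + V + 10)
      (by norm_num : (0 : ℝ) < 1 / 10)).comp_tendsto
        (tendsto_natCast_atTop_atTop (R := ℝ))
    have h3 := h2.def one_pos
    filter_upwards [h1.eventually_ge_atTop 100, h3] with N hN1 hN2
    refine ⟨hN1, ?_⟩
    simp only [Function.comp_apply, one_mul] at hN2
    rwa [Real.norm_of_nonneg (Real.rpow_nonneg (by linarith) _),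
      Real.norm_of_nonneg (Real.rpow_nonneg (Nat.cast_nonneg _) _)] at hN2
  obtain ⟨N₂, hN₂⟩ := eventually_atTop.1 hlarge
  refine ⟨max (max N₁ N₂) 2, fun N w J L η β hN hw hwQ hJ1 hJ2 hL1 hL2 hη1 hη2 hβA hβs hchar => ?_⟩
  have hNN₁ : N₁ ≤ N := (le_max_left _ _).trans ((le_max_left _ _).trans hN)
  have hNN₂ : N₂ ≤ N := (le_max_right _ _).trans ((le_max_left _ _).trans hN)
  have hN2 : 2 ≤ N := (le_max_right _ _).trans hN
  obtain ⟨hT100, hTD⟩ := hN₂ N hNN₂
  have hNr : (2 : ℝ) ≤ N := by exact_mod_cast hN2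
  set T : ℝ := Real.log N with hTdef
  have hT0 : 0 < T := by linarith
  have hT1 : 1 ≤ T := by linarith
  set P : ℝ := T ^ B₁ with hP
  set A : ℝ := T ^ C₀ with hA
  set Q : ℝ := T ^ W with hQ
  set U : ℝ := T ^ V with hU
  set D : ℝ := (N : ℝ) ^ (1 / 10 : ℝ) with hD
  have hPT : T ^ (B₁ + 1) = P * T := by rw [Real.rpow_add hT0, Real.rpow_one]
  have hPAQT : T ^ (B₁ + C₀ + W + 2) = P * A * Q * T ^ 2 := by
    rw [Real.rpow_add hT0, Real.rpow_add hT0, Real.rpow_add hT0]
    norm_cast
  have hη0 : 0 < η := lt_of_lt_of_le (Real.rpow_pos_of_pos hT0 _) hη1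
  have hL0 : 0 < L := by linarith
  have hJ0 : 0 < J := by
    rcases Nat.eq_zero_or_pos J with h | h
    · rw [h, Nat.cast_zero] at hJ1
      exact absurd hJ1 (not_le.2 (Real.rpow_pos_of_pos hT0 _))
    · exact h
  have hJr : (0 : ℝ) < J := by exact_mod_cast hJ0
  set M : ℝ := η * L / J with hM
  have par : Par T P A Q U D L M η J (Vw w) := by
    refine ⟨hT100, Real.one_le_rpow hT1 hB₁.le, Real.one_le_rpow hT1 hC₀,
      Real.one_le_rpow hT1 hW.le, Real.one_le_rpow hT1 (by linarith), ?_, ?_, ?_, hJ2, ?_, ?_,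
      hη2, Vw_pos w, ?_⟩
    · have e : T ^ (B₁ + C₀ + W + V + 10) = P * A * Q * U * T ^ 10 := by
        rw [Real.rpow_add hT0, Real.rpow_add hT0, Real.rpow_add hT0, Real.rpow_add hT0]
        norm_cast
      rw [← e]
      exact hTD
    · have e : D * D = (N : ℝ) ^ (1 / 10 + 1 / 10 : ℝ) := by
        rw [Real.rpow_add (by linarith)]
      rw [e]
      refine le_trans ?_ hL1
      have h1 : (N : ℝ) ^ (1 / 10 + 1 / 10 : ℝ) ≤ (N : ℝ) ^ (1 : ℝ) :=
        Real.rpow_le_rpow_of_exponent_le (by linarith) (by norm_num)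
      rwa [Real.rpow_one] at h1
    · have e : T ^ (B₁ + C₀ + 1) = P * A * T := by
        rw [Real.rpow_add hT0, Real.rpow_add hT0, Real.rpow_one]
      rw [← e]
      exact hJ1
    · rw [hM]
      field_simp
    · have e : Q * T ^ (-W) = 1 := by
        rw [hQ, ← Real.rpow_add hT0, add_neg_cancel, Real.rpow_zero]
      rw [← e]
      exact mul_le_mul_of_nonneg_left hη1 (Real.rpow_nonneg hT0.le _)
    · exact (Vw_le w (by omega)).trans hwQ
  have hA0 : 0 < A := by linarith [par.A1]
  have hP0 : 0 < P := by linarith [par.P1]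
  have hQ0 : 0 < Q := by linarith [par.Q1]
  have hD0 : 0 < D := by linarith [par.D0]
  have hM1 : 1 ≤ M := par.M0
  have hv0 := par.v0
  have hdav : ∀ i, |Dav L η J β i| ≤ 2 * A := dav_le hL0.le hη0.le hβA hM1
  have hwW : (w : ℝ) ≤ T ^ (max W B₁) :=
    hwQ.trans (Real.rpow_le_rpow_of_exponent_le hT1 (le_max_left _ _))
  have hcard := fun x₁ x₂ i => card_le (J := J) hL0.le hη0.le x₁ x₂ i
  set R : ℝ := (M + 1) / (P * A * Q * T ^ 2) + D with hR
  have hRpos : 0 < R := by positivity
  have herr := par.errJ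
  rw [← hR] at herr
  -- the bound for a part of a piece
  have hdiv : ∀ H : ℕ, (H : ℝ) ≤ M + 1 → (H : ℝ) / T ^ (B₁ + C₀ + W + 2) + D ≤ R := by
    intro H hH
    rw [hPAQT, hR]
    gcongr
  intro r hr ψ hψ x₁ x₂
  by_cases hψ1 : ψ = 1
  · -- the constant character
    have hr0 : r = 0 := hψ.resolve_right (fun h => h hψ1)
    subst hr0
    subst hψ1
    have hF : ∀ x : ℕ, |∑ u ∈ Ioc 0 x, (β u - sharp w L η J β u)| ≤
        3 / 2 * (L / (P * T)) + 8 * (L / (P * T ^ 2)) := by
      intro x
      rw [sum_sub_distrib, beta_sum hL0.le hη0.le hJ0 hβs, sharp_sum_real, ← sum_sub_distrib]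
      have hG : ∀ i ∈ range J, |∑ u ∈ Ioc 0 x ∩ pc L η J i, β u -
          (Dav L η J β i * Vw w) * ∑ u ∈ Ioc 0 x ∩ pc L η J i, rInd ((w : ℝ) + 1) u| ≤
          2 * A * (1 + Q * R) +
            if bd L η J i < x ∧ x < bd L η J (i + 1) then 3 * A * (M + 1) else 0 := by
        intro i _
        have hmono : bd L η J i ≤ bd L η J (i + 1) := bd_mono hL0.le hη0.le (Nat.le_succ i)
        have ha : 0 ≤ 2 * A * (1 + Q * R) := by positivity
        rcases Nat.le_total x (bd L η J i) with h1 | h1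
        · -- empty
          have h2 : Ioc 0 x ∩ pc L η J i = ∅ := by
            rw [pc_eq]
            ext u
            simp only [mem_inter, mem_Ioc, notMem_empty, iff_false]
            omega
          rw [h2, sum_empty, sum_empty, mul_zero, sub_zero, abs_zero]
          have h3 : 0 ≤ (if bd L η J i < x ∧ x < bd L η J (i + 1) then 3 * A * (M + 1)
            else (0 : ℝ)) := by
            split_ifs
            · positivity
            · exact le_rfl
          linarith
        rcases Nat.le_total (bd L η J (i + 1)) x with h2 | h2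
        · -- complete
          have h3 : Ioc 0 x ∩ pc L η J i = pc L η J i := by
            rw [pc_eq]
            ext u
            simp only [mem_inter, mem_Ioc]
            omega
          rw [h3, if_neg (by omega), add_zero]
          have h4 : ∑ u ∈ pc L η J i, β u = Dav L η J β i * M := by
            unfold Dav
            rw [← hM, div_mul_cancel₀ _ (by linarith)]
          rw [h4, mul_assoc, ← mul_sub, abs_mul]
          have h5 : pc L η J i = Ioc (bd L η J i)
              (bd L η J i + (bd L η J (i + 1) - bd L η J i)) := by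
            rw [pc_eq]
            exact ioc_form _ _
          have h6 := (hN₁ N w hNN₁ hw hwW (bd L η J i)
            (bd L η J (i + 1) - bd L η J i)).1
          rw [← h5] at h6
          have hbd := bd_diff (J := J) hL0.le hη0.le i
          rw [← hM, ← Nat.cast_sub hmono] at hbd
          set c : ℕ := bd L η J (i + 1) - bd L η J i with hc
          have hcM : (c : ℝ) ≤ M + 1 := by
            rw [abs_le] at hbd
            linarith
          have h7 : |(∑ l ∈ pc L η J i, rInd ((w : ℝ) + 1) l) - c * Wp ((w : ℝ) + 1)| ≤ R :=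
            h6.trans (hdiv c hcM)
          have h8 : |M - Vw w * ∑ u ∈ pc L η J i, rInd ((w : ℝ) + 1) u| ≤ 1 + Q * R := by
            have e : M - Vw w * ∑ u ∈ pc L η J i, rInd ((w : ℝ) + 1) u =
                -((c : ℝ) - M) - Vw w * ((∑ l ∈ pc L η J i, rInd ((w : ℝ) + 1) l) -
                  c * Wp ((w : ℝ) + 1)) := by
              have h9 := Vw_Wp w
              linear_combination (-(c : ℝ)) * h9
            rw [e]
            refine (abs_sub _ _).trans ?_
            rw [abs_neg, abs_mul, abs_of_pos hv0]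
            have h10 : Vw w * |(∑ l ∈ pc L η J i, rInd ((w : ℝ) + 1) l) -
                c * Wp ((w : ℝ) + 1)| ≤ Q * R :=
              mul_le_mul par.v1 h7 (abs_nonneg _) hQ0.le
            linarith
          exact mul_le_mul (hdav i) h8 (abs_nonneg _) (by positivity)
        · -- incomplete (or a boundary case)
          have hmain : |∑ u ∈ Ioc 0 x ∩ pc L η J i, β u -
              (Dav L η J β i * Vw w) * ∑ u ∈ Ioc 0 x ∩ pc L η J i, rInd ((w : ℝ) + 1) u| ≤
              2 * A * (1 + Q * R) + 3 * A * (M + 1) := by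
            rw [pc_eq, inter_form]
            have hH := hcard 0 x i
            rw [← hM] at hH
            set H : ℕ := min x (bd L η J (i + 1)) - max 0 (bd L η J i) with hHdef
            set x0 : ℕ := max 0 (bd L η J i) with hx0
            have h6 := (hN₁ N w hNN₁ hw hwW x0 H).1
            have h7 : |(∑ l ∈ Ioc x0 (x0 + H), rInd ((w : ℝ) + 1) l) -
                H * Wp ((w : ℝ) + 1)| ≤ R := h6.trans (hdiv H hH)
            refine (abs_sub _ _).trans ?_
            have h8 : |∑ u ∈ Ioc x0 (x0 + H), β u| ≤ A * (M + 1) := by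
              refine (abs_sum_le_sum_abs _ _).trans ?_
              refine (sum_le_sum (fun l _ => hβA l)).trans ?_
              rw [sum_const, Nat.card_Ioc, nsmul_eq_mul, Nat.add_sub_cancel_left, mul_comm]
              exact mul_le_mul_of_nonneg_left hH hA0.le
            have h9 : |(Dav L η J β i * Vw w) * ∑ u ∈ Ioc x0 (x0 + H), rInd ((w : ℝ) + 1) u| ≤
                2 * A * ((M + 1) + Q * R) := by
              rw [mul_assoc, abs_mul]
              refine mul_le_mul (hdav i) ?_ (abs_nonneg _) (by positivity)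
              have e : Vw w * ∑ u ∈ Ioc x0 (x0 + H), rInd ((w : ℝ) + 1) u =
                  (H : ℝ) + Vw w * ((∑ l ∈ Ioc x0 (x0 + H), rInd ((w : ℝ) + 1) l) -
                    H * Wp ((w : ℝ) + 1)) := by
                have h9 := Vw_Wp w
                linear_combination (H : ℝ) * h9
              rw [e]
              refine (abs_add_le _ _).trans ?_
              rw [abs_mul, abs_of_pos hv0, abs_of_nonneg (Nat.cast_nonneg H)]
              have h10 : Vw w * |(∑ l ∈ Ioc x0 (x0 + H), rInd ((w : ℝ) + 1) l) -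
                  H * Wp ((w : ℝ) + 1)| ≤ Q * R :=
                mul_le_mul par.v1 h7 (abs_nonneg _) hQ0.le
              linarith
            have e : 2 * A * ((M + 1) + Q * R) = 2 * A * (M + 1) + 2 * A * (Q * R) := by ring
            have e' : 2 * A * (1 + Q * R) = 2 * A + 2 * A * (Q * R) := by ring
            rw [e] at h9
            rw [e']
            linarith
          by_cases h3 : bd L η J i < x ∧ x < bd L η J (i + 1)
          · rw [if_pos h3]
            exact hmain
          · rw [if_neg h3, add_zero]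
            -- `x = bd i` or `x = bd (i + 1)`
            rcases Nat.lt_or_ge (bd L η J i) x with h4 | h4
            · have h5 : x = bd L η J (i + 1) := by
                by_contra hne
                exact h3 ⟨h4, by omega⟩
              -- complete again
              have h3' : Ioc 0 x ∩ pc L η J i = pc L η J i := by
                rw [pc_eq]
                ext u
                simp only [mem_inter, mem_Ioc]
                omega
              rw [h3']
              have h4' : ∑ u ∈ pc L η J i, β u = Dav L η J β i * M := by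
                unfold Dav
                rw [← hM, div_mul_cancel₀ _ (by linarith)]
              rw [h4', mul_assoc, ← mul_sub, abs_mul]
              have h5' : pc L η J i = Ioc (bd L η J i)
                  (bd L η J i + (bd L η J (i + 1) - bd L η J i)) := by
                rw [pc_eq]
                exact ioc_form _ _
              have h6 := (hN₁ N w hNN₁ hw hwW (bd L η J i)
                (bd L η J (i + 1) - bd L η J i)).1
              rw [← h5'] at h6
              have hbd := bd_diff (J := J) hL0.le hη0.le i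
              rw [← hM, ← Nat.cast_sub hmono] at hbd
              set c : ℕ := bd L η J (i + 1) - bd L η J i with hc
              have hcM : (c : ℝ) ≤ M + 1 := by
                rw [abs_le] at hbd
                linarith
              have h7 : |(∑ l ∈ pc L η J i, rInd ((w : ℝ) + 1) l) - c * Wp ((w : ℝ) + 1)| ≤ R :=
                h6.trans (hdiv c hcM)
              have h8 : |M - Vw w * ∑ u ∈ pc L η J i, rInd ((w : ℝ) + 1) u| ≤ 1 + Q * R := by
                have e : M - Vw w * ∑ u ∈ pc L η J i, rInd ((w : ℝ) + 1) u =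
                    -((c : ℝ) - M) - Vw w * ((∑ l ∈ pc L η J i, rInd ((w : ℝ) + 1) l) -
                      c * Wp ((w : ℝ) + 1)) := by
                  have h9 := Vw_Wp w
                  linear_combination (-(c : ℝ)) * h9
                rw [e]
                refine (abs_sub _ _).trans ?_
                rw [abs_neg, abs_mul, abs_of_pos hv0]
                have h10 : Vw w * |(∑ l ∈ pc L η J i, rInd ((w : ℝ) + 1) l) -
                    c * Wp ((w : ℝ) + 1)| ≤ Q * R :=
                  mul_le_mul par.v1 h7 (abs_nonneg _) hQ0.le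
                linarith
              exact mul_le_mul (hdav i) h8 (abs_nonneg _) (by positivity)
            · have h5 : Ioc 0 x ∩ pc L η J i = ∅ := by
                rw [pc_eq]
                ext u
                simp only [mem_inter, mem_Ioc, notMem_empty, iff_false]
                omega
              rw [h5, sum_empty, sum_empty, mul_zero, sub_zero, abs_zero]
              exact ha
      refine (abs_sum_le_sum_abs _ _).trans ((sum_le_sum hG).trans ?_)
      rw [sum_add_distrib, sum_const, card_range, nsmul_eq_mul, ← sum_filter, sum_const,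
        nsmul_eq_mul]
      have hcnt : (((range J).filter
          (fun i => bd L η J i < x ∧ x < bd L η J (i + 1))).card : ℝ) ≤ 1 := by
        exact_mod_cast count_le hL0.le hη0.le x
      have h1 : (((range J).filter
          (fun i => bd L η J i < x ∧ x < bd L η J (i + 1))).card : ℝ) * (3 * A * (M + 1)) ≤
          1 * (3 * A * (M + 1)) := mul_le_mul_of_nonneg_right hcnt (by positivity)
      have h2 := par.AM
      have h3 := par.AJ
      have e : (J : ℝ) * (2 * A * (1 + Q * R)) = 2 * A * J + 1 / 2 * (4 * A * Q * (J * R)) := by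
        ring
      rw [e]
      have h4 : 0 < L / (P * T ^ 2) := by positivity
      linarith
    have hsum : ‖∑ u ∈ Ioc x₁ x₂, (((fun l => β l - sharp w L η J β l) u : ℝ) : ℂ) *
        (1 : DirichletCharacter ℂ (0 + 1)) (u : ZMod (0 + 1))‖ =
        |∑ u ∈ Ioc x₁ x₂, (β u - sharp w L η J β u)| := by
      have h1 : ∀ u : ℕ, (1 : DirichletCharacter ℂ (0 + 1)) (u : ZMod (0 + 1)) = 1 := by
        intro u
        apply MulChar.one_apply
        haveI : Subsingleton (ZMod (0 + 1)) := (inferInstance : Subsingleton (ZMod 1))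
        exact isUnit_of_subsingleton _
      simp only [h1, mul_one]
      rw [← Complex.ofReal_sum, Complex.norm_real, Real.norm_eq_abs]
    refine (le_of_eq hsum).trans ?_
    rcases Nat.le_total x₁ x₂ with h1 | h1
    · have h2 := sum_Ioc_consecutive (fun u => β u - sharp w L η J β u) (Nat.zero_le x₁) h1
      have h3 : ∑ u ∈ Ioc x₁ x₂, (β u - sharp w L η J β u) =
          ∑ u ∈ Ioc 0 x₂, (β u - sharp w L η J β u) -
            ∑ u ∈ Ioc 0 x₁, (β u - sharp w L η J β u) := by
        rw [← h2]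
        ring
      rw [h3]
      refine (abs_sub _ _).trans ?_
      have h4 := hF x₁
      have h5 := hF x₂
      have h6 := par.fin2
      linarith
    · rw [Ioc_eq_empty_of_le h1, sum_empty, abs_zero]
      positivity
  · -- non-trivial characters
    have h1 : ∑ u ∈ Ioc x₁ x₂, (((fun l => β l - sharp w L η J β l) u : ℝ) : ℂ) *
        ψ (u : ZMod (r + 1)) = ∑ u ∈ Ioc x₁ x₂, (β u : ℂ) * ψ (u : ZMod (r + 1)) -
        ∑ u ∈ Ioc x₁ x₂, (sharp w L η J β u : ℂ) * ψ (u : ZMod (r + 1)) := by
      rw [← sum_sub_distrib]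
      refine sum_congr rfl fun u _ => ?_
      push_cast
      ring
    rw [h1]
    refine (norm_sub_le _ _).trans ?_
    have h2 := hchar r hr ψ hψ1 x₁ x₂
    rw [hPT] at h2
    have hrW : ((r : ℝ) + 1) ≤ T ^ (max W B₁) :=
      hr.trans (Real.rpow_le_rpow_of_exponent_le hT1 (le_max_right _ _))
    have h3 : ‖∑ u ∈ Ioc x₁ x₂, (sharp w L η J β u : ℂ) * ψ (u : ZMod (r + 1))‖ ≤
        3 * (L / (P * T ^ 2)) := by
      rw [sharp_sum w L η J β (fun u => ψ (u : ZMod (r + 1))) x₁ x₂]
      refine (norm_sum_le _ _).trans ?_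
      have h4 : ∀ i ∈ range J, ‖((Dav L η J β i * Vw w : ℝ) : ℂ) *
          ∑ u ∈ Ioc x₁ x₂ ∩ pc L η J i, (rInd ((w : ℝ) + 1) u : ℂ) * ψ (u : ZMod (r + 1))‖ ≤
          (2 * A * Q) * R := by
        intro i _
        rw [norm_mul]
        have h5 : ‖((Dav L η J β i * Vw w : ℝ) : ℂ)‖ ≤ 2 * A * Q := by
          rw [Complex.norm_real, Real.norm_eq_abs, abs_mul, abs_of_pos hv0]
          exact mul_le_mul (hdav i) par.v1 hv0.le (by positivity)
        refine mul_le_mul h5 ?_ (norm_nonneg _) (by positivity)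
        rw [pc_eq, inter_form]
        exact ((hN₁ N w hNN₁ hw hwW _ _).2 r hrW ψ hψ1).trans (hdiv _ (hcard x₁ x₂ i))
      refine (sum_le_sum h4).trans ?_
      rw [sum_const, card_range, nsmul_eq_mul]
      have e : (J : ℝ) * (2 * A * Q * R) = 1 / 2 * (4 * A * Q * (J * R)) := by ring
      rw [e]
      have h4 : 0 < L / (P * T ^ 2) := by positivity
      linarith
    have h4 := par.fin1
    linarith

end

end Pool.Agent.Lib.MP391708.U
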