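import Pool.Agent.Lib.MP_391708_nt.U.SpecU6a

/-!
# Project U, module BDHF: the finite form of Barban-Davenport-Halberstam for balanced functions
-/

set_option autoImplicit false

namespace Pool.Agent.Lib.MP391708.U

open Finset Filter Topology Pool.Agent.Lib.MP391708.QPA
open scoped Classical

noncomputable section

namespace BDHFM

theorem card_cop (q : ℕ) :
    (((range q).filter (fun c => Nat.Coprime c q)).card : ℝ) = (q.totient : ℝ) := by
  rw [Nat.totient_eq_card_coprime]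
  congr 2
  ext c
  rw [Finset.mem_filter, Finset.mem_filter, Nat.coprime_comm]

/-- the reduced classes -/
theorem cop (q X : ℕ) (hq : 1 ≤ q) (b : ℕ → ℝ) :
    ∑ c ∈ (range q).filter (fun c => Nat.Coprime c q),
      (∑ u ∈ (Icc 1 X).filter (fun u => u % q = c), b u) ^ 2
    ≤ 2 * (∑ c ∈ (range q).filter (fun c => Nat.Coprime c q),
      ((∑ u ∈ (Icc 1 X).filter (fun u => u % q = c), b u)
        - (∑ u ∈ Icc 1 X, b u) / (q.totient : ℝ)) ^ 2)
      + 2 * (∑ u ∈ Icc 1 X, b u) ^ 2 * (1 / (q.totient : ℝ)) := by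
  have hφ : (0 : ℝ) < q.totient := by exact_mod_cast Nat.totient_pos.2 hq
  set S : ℝ := ∑ u ∈ Icc 1 X, b u with hS
  have h1 : ∀ c ∈ (range q).filter (fun c => Nat.Coprime c q),
      (∑ u ∈ (Icc 1 X).filter (fun u => u % q = c), b u) ^ 2 ≤
      2 * ((∑ u ∈ (Icc 1 X).filter (fun u => u % q = c), b u) - S / (q.totient : ℝ)) ^ 2
        + 2 * (S / (q.totient : ℝ)) ^ 2 := by
    intro c _
    nlinarith [sq_nonneg ((∑ u ∈ (Icc 1 X).filter (fun u => u % q = c), b u)
      - 2 * (S / (q.totient : ℝ)))]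
  refine (Finset.sum_le_sum h1).trans ?_
  rw [Finset.sum_add_distrib, ← Finset.mul_sum, Finset.sum_const, nsmul_eq_mul, card_cop]
  apply le_of_eq
  congr 1
  field_simp

end BDHFM

open BDHFM in
/-- **Module BDHF**. -/
theorem specBDHF (hTPH : SpecTPH) (hBADU : SpecBADU) (hNCC : SpecNCC) (hAGB : SpecAGB) :
    SpecBDHF := by
  obtain ⟨Ct, hCt, htph⟩ := hTPH
  obtain ⟨Ca, hCa, hagb⟩ := hAGB
  obtain ⟨Cs, hCs, hsp⟩ := BDH.sumphi
  refine ⟨8 + 4 * Cs + 2 * Cs * Ct + 16 * Cs * Ct * Ca, by positivity, ?_⟩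
  intro z t X D₀ R b hz ht hD h8 hR hb hsupp hS hψ
  have hX1 : 1 ≤ X := by omega
  have hX1' : (1 : ℝ) ≤ X := by exact_mod_cast hX1
  have hX0 : (0 : ℝ) < X := by linarith
  have hz0 : 0 < z := by linarith
  have hlog : 0 ≤ Real.log X := Real.log_nonneg hX1'
  have hR1 : (1 : ℝ) ≤ R := by exact_mod_cast hR
  have hD0 : (0 : ℝ) < D₀ := by exact_mod_cast hD
  have hrough : ∀ u, b u ≠ 0 → Rough z u := fun u hu => (hsupp u hu).2.2
  set E : ℝ := 2 * Real.log X * X / z with hE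
  have hE0 : 0 ≤ E := by positivity
  set T : ℝ := R * (t + E) ^ 2 with hT
  have hT0 : 0 ≤ T := by positivity
  set Q : ℝ := ((X : ℝ) / R + D₀) * X with hQ
  have hQ0 : 0 ≤ Q := by positivity
  have htT : t ^ 2 ≤ T := by
    have h1 : t ^ 2 ≤ (t + E) ^ 2 := pow_le_pow_left₀ ht (by linarith) 2
    have h2 : 0 ≤ (t + E) ^ 2 := by positivity
    nlinarith
  have hET : E ^ 2 ≤ T := by
    have h1 : E ^ 2 ≤ (t + E) ^ 2 := pow_le_pow_left₀ hE0 (by linarith) 2
    have h2 : 0 ≤ (t + E) ^ 2 := by positivity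
    nlinarith
  -- the sum over `g`
  have hAg : ∀ g ∈ (Icc 1 (2 * D₀)).filter (fun g => Rough z g),
      ∑ r ∈ Ico 1 (8 * D₀), 1 / ((r + 1).totient : ℝ) * csum r (BDH.bq g b) X ≤
        T + 8 * Ca * Q := by
    intro g hg
    rw [Finset.mem_filter, Finset.mem_Icc] at hg
    have hg1 : (1 : ℝ) ≤ g := by exact_mod_cast hg.1.1
    have hgX : (g : ℝ) ≤ X := by
      have : g ≤ X := by omega
      exact_mod_cast this
    have h1 := hagb z t X (8 * D₀) R g b hz0 ht hX1 hR hg.1.1 hb hrough hψ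
    refine h1.trans ?_
    have h2 : 2 * Real.log g * X / z ≤ E := by
      rw [hE]
      have h3 : Real.log g ≤ Real.log X := Real.log_le_log (by linarith) hgX
      gcongr
    have h4 : 0 ≤ 2 * Real.log g * X / z := by
      have := Real.log_nonneg hg1
      positivity
    have h5 : (R : ℝ) * (t + 2 * Real.log g * X / z) ^ 2 ≤ T := by
      rw [hT]
      apply mul_le_mul_of_nonneg_left _ (by linarith)
      exact pow_le_pow_left₀ (by linarith) (by linarith) 2
    have h6 : Ca * ((X : ℝ) / R + ((8 * D₀ : ℕ) : ℝ)) * X ≤ 8 * Ca * Q := by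
      rw [hQ]
      push_cast
      have h7 : (X : ℝ) / R + 8 * D₀ ≤ 8 * ((X : ℝ) / R + D₀) := by
        have : 0 ≤ (X : ℝ) / R := by positivity
        linarith
      calc Ca * ((X : ℝ) / R + 8 * D₀) * X ≤ Ca * (8 * ((X : ℝ) / R + D₀)) * X := by
            gcongr
        _ = 8 * Ca * (((X : ℝ) / R + D₀) * X) := by ring
    linarith
  have hB0 : 0 ≤ T + 8 * Ca * Q := by positivity
  have hred := BDH.reduction hsp hz hrough X D₀ hD
  have hred2 : Cs * ∑ g ∈ (Icc 1 (2 * D₀)).filter (fun g => Rough z g), 1 / (g.totient : ℝ) *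
        ∑ r ∈ Ico 1 (8 * D₀), 1 / ((r + 1).totient : ℝ) * csum r (BDH.bq g b) X ≤
      Cs * Ct * (1 + Real.log X) * (T + 8 * Ca * Q) := by
    have h1 : ∑ g ∈ (Icc 1 (2 * D₀)).filter (fun g => Rough z g), 1 / (g.totient : ℝ) *
        ∑ r ∈ Ico 1 (8 * D₀), 1 / ((r + 1).totient : ℝ) * csum r (BDH.bq g b) X ≤
        ∑ g ∈ (Icc 1 (2 * D₀)).filter (fun g => Rough z g), 1 / (g.totient : ℝ) *
          (T + 8 * Ca * Q) := by
      apply Finset.sum_le_sum
      intro g hg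
      exact mul_le_mul_of_nonneg_left (hAg g hg) (by positivity)
    have h2 : ∑ g ∈ (Icc 1 (2 * D₀)).filter (fun g => Rough z g), 1 / (g.totient : ℝ) *
          (T + 8 * Ca * Q) ≤ ∑ g ∈ Icc 1 (2 * D₀), 1 / (g.totient : ℝ) * (T + 8 * Ca * Q) := by
      apply Finset.sum_le_sum_of_subset_of_nonneg (Finset.filter_subset _ _)
      intro g _ _
      positivity
    have h2' : ∑ g ∈ Icc 1 (2 * D₀), 1 / (g.totient : ℝ) * (T + 8 * Ca * Q) =
        (∑ g ∈ Icc 1 (2 * D₀), 1 / (g.totient : ℝ)) * (T + 8 * Ca * Q) :=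
      (Finset.sum_mul _ _ _).symm
    rw [h2'] at h2
    have h3 := htph (2 * D₀) (by omega)
    have h4 : Real.log ((2 * D₀ : ℕ) : ℝ) ≤ Real.log X := by
      apply Real.log_le_log
      · have : 0 < 2 * D₀ := by omega
        exact_mod_cast this
      · have : 2 * D₀ ≤ X := by omega
        exact_mod_cast this
    have h5 : ∑ g ∈ Icc 1 (2 * D₀), 1 / (g.totient : ℝ) ≤ Ct * (1 + Real.log X) := by
      refine h3.trans ?_
      apply mul_le_mul_of_nonneg_left _ hCt.le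
      linarith
    calc _ ≤ Cs * ((∑ g ∈ Icc 1 (2 * D₀), 1 / (g.totient : ℝ)) * (T + 8 * Ca * Q)) :=
          mul_le_mul_of_nonneg_left (h1.trans h2) hCs.le
      _ ≤ Cs * ((Ct * (1 + Real.log X)) * (T + 8 * Ca * Q)) := by
          apply mul_le_mul_of_nonneg_left _ hCs.le
          exact mul_le_mul_of_nonneg_right h5 hB0
      _ = _ := by ring
  -- the sum over `d`
  have hSt : (∑ u ∈ Icc 1 X, b u) ^ 2 ≤ t ^ 2 := by
    rw [← sq_abs]
    exact pow_le_pow_left₀ (abs_nonneg _) hS 2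
  have hd : ∀ d ∈ Ioc D₀ (2 * D₀),
      ∑ c ∈ (range (4 * d)).filter (fun c => Nat.Coprime c (4 * d)),
        (∑ u ∈ (Icc 1 X).filter (fun u => u % (4 * d) = c), b u) ^ 2 ≤
      2 * (1 / ((4 * d).totient : ℝ) *
        (∑ r ∈ (range (4 * d)).filter (fun r => 1 ≤ r ∧ r + 1 ∣ 4 * d),
          csum r (BDH.bq (4 * d) b) X))
      + (2 * E ^ 2 + 2 * t ^ 2) * (1 / ((4 * d).totient : ℝ)) := by
    intro d hd
    rw [Finset.mem_Ioc] at hd
    have hNe : NeZero (4 * d) := ⟨by omega⟩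
    have hφ : (0 : ℝ) < (4 * d).totient := by exact_mod_cast Nat.totient_pos.2 (by omega)
    refine (cop (4 * d) X (by omega) b).trans ?_
    rw [BDH.variance (4 * d) b X]
    have h1 := BDH.char_split (4 * d) b X
    have h2 : (∑ u ∈ (Icc 1 X).filter (fun u => ¬ Nat.Coprime u (4 * d)), b u) ^ 2 ≤ E ^ 2 := by
      rw [← sq_abs]
      apply pow_le_pow_left₀ (abs_nonneg _)
      refine (Finset.abs_sum_le_sum_abs _ _).trans ?_
      have h3 : ∑ u ∈ (Icc 1 X).filter (fun u => ¬ Nat.Coprime u (4 * d)), |b u| ≤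
          ∑ u ∈ (Icc 1 X).filter (fun u => ¬ Nat.Coprime u (4 * d)),
            (if Rough z u then (1 : ℝ) else 0) := by
        apply Finset.sum_le_sum
        intro u _
        by_cases hu : b u = 0
        · rw [hu, abs_zero]
          split_ifs <;> norm_num
        · rw [if_pos (hrough u hu)]
          exact hb u
      refine h3.trans ?_
      rw [Finset.sum_boole, Finset.filter_filter]
      have h4 := hBADU z (4 * d) X hz0 (by omega)
      have h5 : (Icc 1 X).filter (fun u => ¬ Nat.Coprime u (4 * d) ∧ Rough z u) =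
          (Icc 1 X).filter (fun u => Rough z u ∧ ¬ Nat.Coprime u (4 * d)) := by
        apply Finset.filter_congr
        intro u _
        exact and_comm
      rw [h5]
      refine h4.trans ?_
      rw [hE]
      have h6 : Real.log ((4 * d : ℕ) : ℝ) ≤ Real.log X := by
        apply Real.log_le_log
        · have : 0 < 4 * d := by omega
          exact_mod_cast this
        · have : 4 * d ≤ X := by omega
          exact_mod_cast this
      gcongr
    have h7 : 1 / ((4 * d).totient : ℝ) * ((∑ χ ∈ (univ : Finset (DirichletCharacter ℂ (4 * d))).filter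
        (fun χ => χ ≠ 1), ‖∑ u ∈ Icc 1 X, (b u : ℂ) * χ (u : ZMod (4 * d))‖ ^ 2)
      + (∑ u ∈ (Icc 1 X).filter (fun u => ¬ Nat.Coprime u (4 * d)), b u) ^ 2) ≤
        1 / ((4 * d).totient : ℝ) *
        ((∑ r ∈ (range (4 * d)).filter (fun r => 1 ≤ r ∧ r + 1 ∣ 4 * d),
          csum r (BDH.bq (4 * d) b) X) + E ^ 2) := by
      apply mul_le_mul_of_nonneg_left _ (by positivity)
      exact add_le_add h1 h2
    have h8 : 2 * (∑ u ∈ Icc 1 X, b u) ^ 2 * (1 / ((4 * d).totient : ℝ)) ≤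
        2 * t ^ 2 * (1 / ((4 * d).totient : ℝ)) := by
      apply mul_le_mul_of_nonneg_right _ (by positivity)
      linarith
    calc _ ≤ 2 * (1 / ((4 * d).totient : ℝ) *
        ((∑ r ∈ (range (4 * d)).filter (fun r => 1 ≤ r ∧ r + 1 ∣ 4 * d),
          csum r (BDH.bq (4 * d) b) X) + E ^ 2)) + 2 * t ^ 2 * (1 / ((4 * d).totient : ℝ)) := by
          linarith
      _ = _ := by ring
  have hphi : ∑ d ∈ Ioc D₀ (2 * D₀), 1 / ((4 * d).totient : ℝ) ≤ Cs := by
    have h7 := hsp D₀ 1 hD le_rfl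
    have h8 : (Ioc D₀ (2 * D₀)).filter (fun d => 1 ∣ 4 * d) = Ioc D₀ (2 * D₀) := by
      apply Finset.filter_true_of_mem
      intro d _
      exact one_dvd _
    rw [h8, Nat.totient_one, Nat.cast_one, div_one] at h7
    exact h7
  have hncc := hNCC z X D₀ b hz hD h8 hb hrough
  have hVd : Vd (Icc 1 X) b D₀ = ∑ d ∈ Ioc D₀ (2 * D₀),
      ((∑ c ∈ (range (4 * d)).filter (fun c => Nat.Coprime c (4 * d)),
        (∑ u ∈ (Icc 1 X).filter (fun u => u % (4 * d) = c), b u) ^ 2)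
      + ∑ c ∈ (range (4 * d)).filter (fun c => ¬ Nat.Coprime c (4 * d)),
        (∑ u ∈ (Icc 1 X).filter (fun u => u % (4 * d) = c), b u) ^ 2) := by
    rw [Vd]
    apply Finset.sum_congr rfl
    intro d _
    exact (Finset.sum_filter_add_sum_filter_not _ _ _).symm
  rw [hVd, Finset.sum_add_distrib]
  have hfin := Finset.sum_le_sum hd
  rw [Finset.sum_add_distrib, ← Finset.mul_sum, ← Finset.mul_sum] at hfin
  have h9 : (2 * E ^ 2 + 2 * t ^ 2) * ∑ d ∈ Ioc D₀ (2 * D₀), 1 / ((4 * d).totient : ℝ) ≤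
      4 * Cs * T := by
    calc (2 * E ^ 2 + 2 * t ^ 2) * ∑ d ∈ Ioc D₀ (2 * D₀), 1 / ((4 * d).totient : ℝ)
        ≤ (2 * E ^ 2 + 2 * t ^ 2) * Cs := by
          apply mul_le_mul_of_nonneg_left hphi
          positivity
      _ ≤ (4 * T) * Cs := by
          apply mul_le_mul_of_nonneg_right _ hCs.le
          linarith
      _ = 4 * Cs * T := by ring
  have h10 : ∑ d ∈ Ioc D₀ (2 * D₀), 1 / ((4 * d).totient : ℝ) *
      ∑ r ∈ (range (4 * d)).filter (fun r => 1 ≤ r ∧ r + 1 ∣ 4 * d), csum r (BDH.bq (4 * d) b) X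
      ≤ Cs * Ct * (1 + Real.log X) * (T + 8 * Ca * Q) := hred.trans hred2
  have h11 : (X : ℝ) ^ 2 / z ≤ (1 + Real.log X) * ((X : ℝ) ^ 2 / z) := by
    have : 0 ≤ (X : ℝ) ^ 2 / z := by positivity
    nlinarith
  have h12 : T ≤ (1 + Real.log X) * T := by nlinarith
  have h13 : 8 * (X : ℝ) ^ 2 / z = 8 * ((X : ℝ) ^ 2 / z) := by ring
  rw [h13] at hncc
  calc _ ≤ (2 * (Cs * Ct * (1 + Real.log X) * (T + 8 * Ca * Q)) + 4 * Cs * T)
        + 8 * ((X : ℝ) ^ 2 / z) := by linarith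
    _ ≤ (2 * (Cs * Ct * (1 + Real.log X) * (T + 8 * Ca * Q)) + 4 * Cs * ((1 + Real.log X) * T))
        + 8 * ((1 + Real.log X) * ((X : ℝ) ^ 2 / z)) := by
        have h14 : 4 * Cs * T ≤ 4 * Cs * ((1 + Real.log X) * T) :=
          mul_le_mul_of_nonneg_left h12 (by positivity)
        linarith
    _ = (1 + Real.log X) * (8 * ((X : ℝ) ^ 2 / z) + (4 * Cs + 2 * Cs * Ct) * T
        + 16 * Cs * Ct * Ca * Q) := by ring
    _ ≤ (1 + Real.log X) * ((8 + 4 * Cs + 2 * Cs * Ct + 16 * Cs * Ct * Ca) *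
        ((X : ℝ) ^ 2 / z + T + Q)) := by
        apply mul_le_mul_of_nonneg_left _ (by linarith)
        have g1 : 0 ≤ (X : ℝ) ^ 2 / z := by positivity
        have g2 : 0 ≤ Cs * Ct := by positivity
        have g3 : 0 ≤ Cs * Ct * Ca := by positivity
        have e1 : 0 ≤ (4 * Cs + 2 * Cs * Ct + 16 * Cs * Ct * Ca) * ((X : ℝ) ^ 2 / z) := by
          positivity
        have e2 : 0 ≤ (8 + 16 * Cs * Ct * Ca) * T := by positivity
        have e3 : 0 ≤ (8 + 4 * Cs + 2 * Cs * Ct) * Q := by positivity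
        linarith
    _ = _ := by
        rw [hT, hQ]
        ring

end

end Pool.Agent.Lib.MP391708.U
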