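import Pool.Agent.Lib.MP_391708_nt.U.SpecU6a

/-!
# Project U, part U6a, module BDHU: the asymptotic form of BDHF
-/

set_option autoImplicit false

namespace Pool.Agent.Lib.MP391708.U

open Finset Filter Topology Pool.Agent.Lib.MP391708.QPA
open scoped Classical

noncomputable section

namespace BDHUM

lemma cut {K : Type} [Field K] (f : ℕ → K) (s : K) (A B I : Finset ℕ)
    (h1 : ∀ u ∈ A, u ∈ I → u ∈ B) (h2 : ∀ u ∈ B, u ∈ I) (h3 : ∀ u ∈ B, f u ≠ 0 → u ∈ A) :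
    ∑ u ∈ A, (if u ∈ I then f u / s else 0) = (∑ u ∈ B, f u) / s := by
  rw [← Finset.sum_filter, Finset.sum_div]
  refine Finset.sum_subset ?_ ?_
  · intro u hu
    rw [mem_filter] at hu
    exact h1 u hu.1 hu.2
  · intro u hu hn
    by_contra hne
    have hfu : f u ≠ 0 := fun h => hne (by rw [h, zero_div])
    exact hn (mem_filter.2 ⟨h3 u hu hfu, h2 u hu⟩)

/-- the conditions on `N` -/
lemma large (Q M : ℝ) : ∃ N₀ : ℕ, ∀ N : ℕ, N₀ ≤ N → M ≤ Real.log N ∧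
    4 * (N : ℝ) ^ (2 / 5 : ℝ) ≤ N ∧ 2 * (N : ℝ) ^ (2 / 5 : ℝ) * (Real.log N) ^ Q ≤ N := by
  have h1 : ∀ᶠ x : ℝ in atTop, M ≤ Real.log x := Real.tendsto_log_atTop.eventually_ge_atTop M
  have h2 : ∀ᶠ x : ℝ in atTop, 4 ≤ x ^ (3 / 5 : ℝ) :=
    (tendsto_rpow_atTop (by norm_num)).eventually_ge_atTop 4
  have h3 : ∀ᶠ x : ℝ in atTop, ‖Real.log x ^ Q‖ ≤ 1 / 2 * ‖x ^ (3 / 5 : ℝ)‖ :=
    (isLittleO_log_rpow_rpow_atTop Q (by norm_num : (0 : ℝ) < 3 / 5)).def (by norm_num)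
  have h4 : ∀ᶠ x : ℝ in atTop, 1 ≤ x := eventually_ge_atTop 1
  have h5 := tendsto_natCast_atTop_atTop.eventually (h1.and (h2.and (h3.and h4)))
  obtain ⟨N₀, hN₀⟩ := eventually_atTop.1 h5
  refine ⟨N₀, fun N hN => ?_⟩
  obtain ⟨a1, a2, a3, a4⟩ := hN₀ N hN
  have hN0 : (0 : ℝ) < N := by linarith
  have hp : (N : ℝ) ^ (2 / 5 : ℝ) * (N : ℝ) ^ (3 / 5 : ℝ) = N := by
    rw [← Real.rpow_add hN0]
    norm_num
  have hp0 : 0 < (N : ℝ) ^ (2 / 5 : ℝ) := Real.rpow_pos_of_pos hN0 _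
  refine ⟨a1, ?_, ?_⟩
  · calc 4 * (N : ℝ) ^ (2 / 5 : ℝ) = (N : ℝ) ^ (2 / 5 : ℝ) * 4 := mul_comm _ _
      _ ≤ (N : ℝ) ^ (2 / 5 : ℝ) * (N : ℝ) ^ (3 / 5 : ℝ) := mul_le_mul_of_nonneg_left a2 hp0.le
      _ = N := hp
  · have hq0 : 0 < (N : ℝ) ^ (3 / 5 : ℝ) := Real.rpow_pos_of_pos hN0 _
    rw [Real.norm_of_nonneg hq0.le] at a3
    have a5 := (le_abs_self _).trans a3
    calc 2 * (N : ℝ) ^ (2 / 5 : ℝ) * (Real.log N) ^ Q
        ≤ 2 * (N : ℝ) ^ (2 / 5 : ℝ) * (1 / 2 * (N : ℝ) ^ (3 / 5 : ℝ)) :=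
          mul_le_mul_of_nonneg_left a5 (by positivity)
      _ = (N : ℝ) ^ (2 / 5 : ℝ) * (N : ℝ) ^ (3 / 5 : ℝ) := by ring
      _ = N := hp

/-- the final computation -/
lemma final {C T β s L X R D z t V lX : ℝ} (hC : 0 < C) (hT : 1 ≤ T) (hβ : 1 ≤ β) (hs : 1 ≤ s)
    (hL : 0 < L) (hX0 : 0 ≤ X) (hX : X ≤ 2 * L) (hR0 : 0 < R) (hR1 : R ≤ β * s ^ 2 * T ^ 3)
    (hR2 : β * s ^ 2 * T ^ 3 ≤ 2 * R) (hz : z = β * s ^ 2 * T ^ 5)
    (ht : t = L / (β * s ^ 2 * T ^ 5)) (hlX0 : 0 ≤ lX) (hlX : lX ≤ 3 * T) (hD0 : 0 ≤ D)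
    (hD : D * (2 * (β * s ^ 2 * T ^ 3)) ≤ L) (hTC : 728 * C ≤ T)
    (hV : V ≤ s ^ 2 * (C * (1 + lX) * (X ^ 2 / z + R * (t + 2 * lX * X / z) ^ 2 +
      (X / R + D) * X))) : V ≤ L ^ 2 / β := by
  have hT0 : 0 < T := by linarith
  have hβ0 : 0 < β := by linarith
  have hs0 : 0 < s := by linarith
  obtain ⟨a, ha⟩ : ∃ a : ℝ, a = β * s ^ 2 * T ^ 3 := ⟨_, rfl⟩
  have ha0 : 0 < a := by rw [ha]; positivity
  have hz' : z = a * T ^ 2 := by rw [hz, ha]; ring
  have hz0 : 0 < z := by rw [hz']; positivity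
  rw [← ha] at hR1 hR2 hD
  have ht' : t = L / (a * T ^ 2) := by rw [ht, ha]; congr 1; ring
  -- first term
  have b1 : X ^ 2 / z ≤ 4 * L ^ 2 / a := by
    rw [hz', div_le_div_iff₀ (by positivity) ha0]
    have c1 : X ^ 2 ≤ 4 * L ^ 2 := by nlinarith
    have c2 : (1 : ℝ) ≤ T ^ 2 := by nlinarith
    calc X ^ 2 * a ≤ 4 * L ^ 2 * a := mul_le_mul_of_nonneg_right c1 ha0.le
      _ = 4 * L ^ 2 * (a * 1) := by ring
      _ ≤ 4 * L ^ 2 * (a * T ^ 2) := by gcongr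
  -- second term
  have b2 : R * (t + 2 * lX * X / z) ^ 2 ≤ 169 * L ^ 2 / a := by
    have c1 : t + 2 * lX * X / z ≤ 13 * L / (a * T) := by
      rw [ht', hz', ← add_div, div_le_div_iff₀ (by positivity) (by positivity)]
      have c2 : 2 * lX * X ≤ 2 * (3 * T) * (2 * L) := by gcongr
      have c3 : L + 2 * lX * X ≤ 13 * L * T := by nlinarith
      calc (L + 2 * lX * X) * (a * T) ≤ 13 * L * T * (a * T) :=
            mul_le_mul_of_nonneg_right c3 (by positivity)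
        _ = 13 * L * (a * T ^ 2) := by ring
    have c0 : 0 ≤ t + 2 * lX * X / z := by
      have : 0 ≤ t := by rw [ht']; positivity
      positivity
    calc R * (t + 2 * lX * X / z) ^ 2 ≤ a * (13 * L / (a * T)) ^ 2 := by gcongr
      _ = 169 * L ^ 2 / a * (1 / T ^ 2) := by
        field_simp
        ring
      _ ≤ 169 * L ^ 2 / a * 1 := by
        refine mul_le_mul_of_nonneg_left ?_ (by positivity)
        rw [div_le_one (by positivity)]
        nlinarith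
      _ = 169 * L ^ 2 / a := mul_one _
  -- third term
  have b3 : (X / R + D) * X ≤ 9 * L ^ 2 / a := by
    have c1 : X / R ≤ 4 * L / a := by
      rw [div_le_div_iff₀ hR0 ha0]
      calc X * a ≤ 2 * L * (2 * R) := by gcongr
        _ = 4 * L * R := by ring
    have c2 : X / R * X ≤ 4 * L / a * (2 * L) := by gcongr
    have c3 : D * X ≤ L ^ 2 / a := by
      rw [le_div_iff₀ ha0]
      calc D * X * a ≤ D * (2 * L) * a := by gcongr
        _ = L * (D * (2 * a)) := by ring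
        _ ≤ L * L := by gcongr
        _ = L ^ 2 := by ring
    calc (X / R + D) * X = X / R * X + D * X := by ring
      _ ≤ 4 * L / a * (2 * L) + L ^ 2 / a := add_le_add c2 c3
      _ = 9 * L ^ 2 / a := by ring
  have b4 : X ^ 2 / z + R * (t + 2 * lX * X / z) ^ 2 + (X / R + D) * X ≤ 182 * L ^ 2 / a := by
    calc X ^ 2 / z + R * (t + 2 * lX * X / z) ^ 2 + (X / R + D) * X
        ≤ 4 * L ^ 2 / a + 169 * L ^ 2 / a + 9 * L ^ 2 / a := by gcongr
      _ = 182 * L ^ 2 / a := by ring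
  have b5 : 1 + lX ≤ 4 * T := by linarith
  have b6 : 0 ≤ X ^ 2 / z + R * (t + 2 * lX * X / z) ^ 2 + (X / R + D) * X := by positivity
  calc V ≤ s ^ 2 * (C * (1 + lX) * (X ^ 2 / z + R * (t + 2 * lX * X / z) ^ 2 +
      (X / R + D) * X)) := hV
    _ ≤ s ^ 2 * (C * (4 * T) * (182 * L ^ 2 / a)) := by gcongr
    _ = 728 * C * T * L ^ 2 * s ^ 2 / a := by ring
    _ ≤ T * T * L ^ 2 * s ^ 2 / a := by gcongr
    _ = L ^ 2 / β * (1 / T) := by
      rw [ha]
      field_simp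
    _ ≤ L ^ 2 / β * 1 := by
      refine mul_le_mul_of_nonneg_left ?_ (by positivity)
      rw [div_le_one hT0]
      exact hT
    _ = L ^ 2 / β := mul_one _

end BDHUM

open BDHUM in
theorem specBDHU (hBDHF : SpecBDHF) : SpecBDHU := by
  intro B C₀ hB hC₀
  obtain ⟨C, hC, H⟩ := hBDHF
  obtain ⟨N₀, hN₀⟩ := large (B + 2 * C₀ + 3) (max (728 * C) 3)
  refine ⟨B + 2 * C₀ + 5, by linarith, N₀, ?_⟩
  intro N L b hN hNL hLN hb hsupp hBal x y D₀ hD1 hD2
  obtain ⟨hT1, hN4, hN2⟩ := hN₀ N hN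
  obtain ⟨T, hTdef⟩ : ∃ T : ℝ, T = Real.log N := ⟨_, rfl⟩
  rw [← hTdef] at hT1 hN2 hb hsupp ⊢
  have hT3 : 3 ≤ T := (le_max_right _ _).trans hT1
  have hTC : 728 * C ≤ T := (le_max_left _ _).trans hT1
  have hT0 : 0 < T := by linarith
  have hNpos : (0 : ℝ) < N := by
    rcases Nat.eq_zero_or_pos N with h | h
    · rw [h, Nat.cast_zero, Real.log_zero] at hTdef
      linarith
    · exact_mod_cast h
  have hL0 : 0 < L := by linarith
  obtain ⟨β, hβ⟩ : ∃ β : ℝ, β = T ^ B := ⟨_, rfl⟩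
  obtain ⟨s, hs⟩ : ∃ s : ℝ, s = T ^ C₀ := ⟨_, rfl⟩
  have hβ1 : 1 ≤ β := by
    rw [hβ]
    exact Real.one_le_rpow (by linarith) hB.le
  have hs1 : 1 ≤ s := by
    rw [hs]
    exact Real.one_le_rpow (by linarith) hC₀
  have hs0 : 0 < s := by linarith
  have hβ0 : 0 < β := by linarith
  have ha : T ^ (B + 2 * C₀ + 3) = β * s ^ 2 * T ^ 3 := by
    rw [hβ, hs, Real.rpow_add hT0, Real.rpow_add hT0, two_mul, Real.rpow_add hT0, sq]
    congr 1
    exact_mod_cast Real.rpow_natCast T 3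
  have hz : T ^ (B + 2 * C₀ + 5) = β * s ^ 2 * T ^ 5 := by
    rw [hβ, hs, Real.rpow_add hT0, Real.rpow_add hT0, two_mul, Real.rpow_add hT0, sq]
    congr 1
    exact_mod_cast Real.rpow_natCast T 5
  have hz3 : 2 < T ^ (B + 2 * C₀ + 5) := by
    calc (2 : ℝ) < T := by linarith
      _ = T ^ (1 : ℝ) := (Real.rpow_one T).symm
      _ ≤ T ^ (B + 2 * C₀ + 5) := Real.rpow_le_rpow_of_exponent_le (by linarith) (by linarith)
  have haz : T ^ (B + 2 * C₀ + 3) ≤ T ^ (B + 2 * C₀ + 5) :=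
    Real.rpow_le_rpow_of_exponent_le (by linarith) (by linarith)
  have ha1 : 1 ≤ T ^ (B + 2 * C₀ + 3) := Real.one_le_rpow (by linarith) (by linarith)
  -- the data
  obtain ⟨X, hX⟩ : ∃ X : ℕ, X = ⌊2 * L⌋₊ := ⟨_, rfl⟩
  obtain ⟨R, hR⟩ : ∃ R : ℕ, R = ⌊T ^ (B + 2 * C₀ + 3)⌋₊ := ⟨_, rfl⟩
  have hXle : (X : ℝ) ≤ 2 * L := by
    rw [hX]
    exact Nat.floor_le (by positivity)
  have hR1 : (R : ℝ) ≤ T ^ (B + 2 * C₀ + 3) := by
    rw [hR]
    exact Nat.floor_le (by positivity)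
  have hR0 : 1 ≤ R := by
    rw [hR]
    exact Nat.le_floor (by exact_mod_cast ha1)
  have hR2 : T ^ (B + 2 * C₀ + 3) ≤ 2 * R := by
    have h1 := Nat.lt_floor_add_one (T ^ (B + 2 * C₀ + 3))
    rw [← hR] at h1
    have h2 : (1 : ℝ) ≤ R := by exact_mod_cast hR0
    linarith
  have hmemX : ∀ u, b u ≠ 0 → 1 ≤ u ∧ u ≤ X := by
    intro u hu
    obtain ⟨h1, h2, -⟩ := hsupp u hu
    refine ⟨?_, ?_⟩
    · have : (0 : ℝ) < u := by linarith
      exact_mod_cast this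
    · rw [hX]
      exact Nat.le_floor h2
  obtain ⟨b', hb'⟩ : ∃ b' : ℕ → ℝ, b' = fun u => if u ∈ Ioc x y then b u / s else 0 := ⟨_, rfl⟩
  have hb'ne : ∀ u, b' u ≠ 0 → b u ≠ 0 := by
    intro u hu h
    rw [hb'] at hu
    simp only [h, zero_div, ite_self] at hu
    exact hu rfl
  have hb'1 : ∀ u, |b' u| ≤ 1 := by
    intro u
    rw [hb']
    by_cases hu : u ∈ Ioc x y
    · simp only [if_pos hu]
      rw [abs_div, abs_of_pos hs0, div_le_one hs0, hs]
      exact hb u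
    · simp only [if_neg hu, abs_zero]
      exact zero_le_one
  have hchar : ∀ r : ℕ, ((r : ℝ) + 1) ≤ T ^ (B + 2 * C₀ + 5) →
      ∀ ψ : DirichletCharacter ℂ (r + 1), (r = 0 ∨ ψ ≠ 1) →
      ‖∑ u ∈ Icc 1 X, (b' u : ℂ) * ψ (u : ZMod (r + 1))‖ ≤ L / T ^ (B + 2 * C₀ + 5) := by
    intro r hr ψ hψ
    have h1 : ∑ u ∈ Icc 1 X, (b' u : ℂ) * ψ (u : ZMod (r + 1)) =
        (∑ u ∈ Ioc x y, (b u : ℂ) * ψ (u : ZMod (r + 1))) / (s : ℂ) := by
      rw [← cut (fun u => (b u : ℂ) * ψ (u : ZMod (r + 1))) (s : ℂ) (Icc 1 X) (Ioc x y) (Ioc x y)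
        (fun _ _ h => h) (fun _ h => h) (fun u _ hu => by
          have h2 : b u ≠ 0 := by
            intro h3
            apply hu
            simp [h3]
          rw [mem_Icc]
          exact hmemX u h2)]
      refine Finset.sum_congr rfl fun u _ => ?_
      rw [hb']
      by_cases hu : u ∈ Ioc x y
      · simp only [if_pos hu]
        push_cast
        ring
      · simp only [if_neg hu]
        simp
    rw [h1, norm_div, Complex.norm_real, Real.norm_of_nonneg hs0.le]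
    have h4 := hBal r (by rw [← hTdef]; exact hr) ψ hψ x y
    rw [← hTdef] at h4
    exact (div_le_self (norm_nonneg _) hs1).trans h4
  have hV := H (T ^ (B + 2 * C₀ + 5)) (L / T ^ (B + 2 * C₀ + 5)) X D₀ R b' hz3 (by positivity) hD1
    (by
      rw [hX]
      refine Nat.le_floor ?_
      push_cast
      nlinarith) hR0 hb'1
    (fun u hu => by
      have h1 := hb'ne u hu
      exact ⟨(hmemX u h1).1, (hmemX u h1).2, (hsupp u h1).2.2⟩)
    (by
      have h1 := hchar 0 (by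
        rw [Nat.cast_zero, zero_add]
        exact ha1.trans haz) 1 (Or.inl rfl)
      have h2 : ∑ u ∈ Icc 1 X, (b' u : ℂ) * (1 : DirichletCharacter ℂ (0 + 1)) (u : ZMod (0 + 1)) =
          ((∑ u ∈ Icc 1 X, b' u : ℝ) : ℂ) := by
        push_cast
        refine Finset.sum_congr rfl fun u _ => ?_
        have h3 : ((u : ℕ) : ZMod (0 + 1)) = 1 := Subsingleton.elim (α := ZMod 1) _ _
        rw [h3, map_one, mul_one]
      rw [h2, Complex.norm_real, Real.norm_eq_abs] at h1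
      exact h1)
    (fun r _ hr ψ hψ => hchar r (by
      have h1 : ((r : ℝ) + 1) ≤ R := by exact_mod_cast hr
      exact h1.trans (hR1.trans haz)) ψ (Or.inr hψ))
  -- comparison of the two `Vd`
  have hVd : Vd (Ioc x y) b D₀ = s ^ 2 * Vd (Icc 1 X) b' D₀ := by
    unfold Vd
    rw [Finset.mul_sum]
    refine Finset.sum_congr rfl fun d _ => ?_
    rw [Finset.mul_sum]
    refine Finset.sum_congr rfl fun c _ => ?_
    have h1 : ∑ u ∈ (Icc 1 X).filter (fun u => u % (4 * d) = c), b' u =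
        (∑ u ∈ (Ioc x y).filter (fun u => u % (4 * d) = c), b u) / s := by
      rw [← cut b s ((Icc 1 X).filter (fun u => u % (4 * d) = c))
        ((Ioc x y).filter (fun u => u % (4 * d) = c)) (Ioc x y)
        (fun u h h' => mem_filter.2 ⟨h', (mem_filter.1 h).2⟩)
        (fun u h => (mem_filter.1 h).1)
        (fun u h hu => mem_filter.2 ⟨mem_Icc.2 (hmemX u hu), (mem_filter.1 h).2⟩), hb']
    rw [h1, div_pow, mul_div_cancel₀ _ (by positivity)]
  have hlX : Real.log X ≤ 3 * T := by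
    have hX1 : (1 : ℝ) ≤ X := by
      have : 1 ≤ X := by
        rw [hX]
        refine Nat.le_floor ?_
        push_cast
        have h1 : (1 : ℝ) ≤ N := by
          have : 1 ≤ N := by exact_mod_cast hNpos
          exact_mod_cast this
        linarith
      exact_mod_cast this
    have h2N : (2 : ℝ) ≤ N := by
      by_contra hcon
      push Not at hcon
      have h1 : Real.log N ≤ Real.log 2 := Real.log_le_log hNpos hcon.le
      have h2 : Real.log 2 < 1 := by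
        have := Real.log_two_lt_d9
        linarith
      rw [← hTdef] at h1
      linarith
    calc Real.log X ≤ Real.log ((N : ℝ) ^ 3) := by
          refine Real.log_le_log (by linarith) (hXle.trans ?_)
          calc 2 * L ≤ 2 * (N : ℝ) ^ 2 := by linarith
            _ ≤ N * (N : ℝ) ^ 2 := by gcongr
            _ = (N : ℝ) ^ 3 := by ring
      _ = 3 * T := by
          rw [Real.log_pow, hTdef]
          norm_num
  have hlX0 : 0 ≤ Real.log X := Real.log_natCast_nonneg X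
  rw [← hβ]
  rw [hz] at hV
  rw [ha] at hR1 hR2 hN2
  refine final hC (by linarith) hβ1 hs1 hL0 (Nat.cast_nonneg X) hXle (by exact_mod_cast hR0) hR1
    hR2 rfl rfl hlX0 hlX (Nat.cast_nonneg D₀) ?_ hTC (V := Vd (Ioc x y) b D₀) ?_
  · have ha0 : 0 < β * s ^ 2 * T ^ 3 := by positivity
    calc (D₀ : ℝ) * (2 * (β * s ^ 2 * T ^ 3))
        ≤ (N : ℝ) ^ (2 / 5 : ℝ) * (2 * (β * s ^ 2 * T ^ 3)) := by gcongr
      _ = 2 * (N : ℝ) ^ (2 / 5 : ℝ) * (β * s ^ 2 * T ^ 3) := by ring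
      _ ≤ N := hN2
      _ ≤ L := hNL
  · rw [hVd]
    exact mul_le_mul_of_nonneg_left hV (by positivity)

end

end Pool.Agent.Lib.MP391708.U
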