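import Pool.Agent.Lib.MP_391708_nt.U.SpecU6a

/-! # Project U, module LSD: the large moduli (partial summation over the large sieve) -/

set_option autoImplicit false

namespace Pool.Agent.Lib.MP391708.U

open Finset Filter Topology Pool.Agent.Lib.MP391708.QPA
open scoped Classical

noncomputable section

namespace LSDM

theorem base (a : ℕ → ℝ) (ha : ∀ r, 0 ≤ a r) (R : ℕ) (hR : 1 ≤ R) :
    ∑ r ∈ (range R).filter (fun r => R ≤ r + 1), a r / ((r : ℝ) + 1)
      ≤ (∑ r ∈ range R, a r) / R := by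
  obtain ⟨m, rfl⟩ : ∃ m, R = m + 1 := ⟨R - 1, by omega⟩
  have h1 : (range (m + 1)).filter (fun r => m + 1 ≤ r + 1) = {m} := by
    ext r
    simp only [mem_filter, mem_range, mem_singleton]
    omega
  rw [h1, sum_singleton]
  push_cast
  apply div_le_div_of_nonneg_right _ (by positivity)
  exact single_le_sum (fun i _ => ha i) (mem_range.2 (Nat.lt_succ_self m))

theorem key (a : ℕ → ℝ) (ha : ∀ r, 0 ≤ a r) (K X : ℝ) (hK : 0 ≤ K) (hX : 0 ≤ X)
    (hF : ∀ n : ℕ, 1 ≤ n → ∑ r ∈ range n, a r ≤ K * (X + (n : ℝ) ^ 2)) (R : ℕ) (hR : 1 ≤ R)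
    (k : ℕ) :
    ∑ r ∈ (range (R + k)).filter (fun r => R ≤ r + 1), a r / ((r : ℝ) + 1)
      ≤ (∑ r ∈ range (R + k), a r) / ((R : ℝ) + k)
        + K * (X * (1 / (R : ℝ) - 1 / ((R : ℝ) + k)) + k) := by
  induction k with
  | zero => simpa using base a ha R hR
  | succ k ih =>
    have hR' : (1 : ℝ) ≤ (R : ℝ) := by exact_mod_cast hR
    have hD : (0 : ℝ) < (R : ℝ) + k := by positivity
    have e1 : R + (k + 1) = (R + k) + 1 := by omega
    rw [e1, range_add_one, filter_insert, if_pos (by omega), sum_insert (by simp),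
      sum_insert (by simp)]
    have hFk := hF (R + k) (by omega)
    push_cast at hFk ⊢
    set F := ∑ r ∈ range (R + k), a r with hFdef
    have h1 : a (R + k) / ((R : ℝ) + k + 1) + (F / ((R : ℝ) + k)
        + K * (X * (1 / (R : ℝ) - 1 / ((R : ℝ) + k)) + k))
        ≤ (a (R + k) + F) / ((R : ℝ) + (k + 1))
          + K * (X * (1 / (R : ℝ) - 1 / ((R : ℝ) + (k + 1))) + (k + 1)) := by
      have h2 : F / ((R : ℝ) + k) - F / ((R : ℝ) + k + 1)
          = F / (((R : ℝ) + k) * ((R : ℝ) + k + 1)) := by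
        field_simp
        ring
      have h3 : F / (((R : ℝ) + k) * ((R : ℝ) + k + 1))
          ≤ K * (X + ((R : ℝ) + k) ^ 2) / (((R : ℝ) + k) * ((R : ℝ) + k + 1)) :=
        div_le_div_of_nonneg_right hFk (by positivity)
      have h4 : K * (X + ((R : ℝ) + k) ^ 2) / (((R : ℝ) + k) * ((R : ℝ) + k + 1))
          = K * (X * (1 / ((R : ℝ) + k) - 1 / ((R : ℝ) + k + 1)))
            + K * (((R : ℝ) + k) / ((R : ℝ) + k + 1)) := by
        field_simp
        ring
      have h5 : ((R : ℝ) + k) / ((R : ℝ) + k + 1) ≤ 1 := by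
        rw [div_le_one (by positivity)]
        linarith
      have h6 : K * (((R : ℝ) + k) / ((R : ℝ) + k + 1)) ≤ K * 1 :=
        mul_le_mul_of_nonneg_left h5 hK
      have h7 : (a (R + k) + F) / ((R : ℝ) + (k + 1))
          = a (R + k) / ((R : ℝ) + k + 1) + F / ((R : ℝ) + k + 1) := by
        rw [← add_assoc, add_div]
      rw [h7, ← add_assoc (R : ℝ) (k : ℝ) 1]
      nlinarith
    linarith

theorem main (a : ℕ → ℝ) (ha : ∀ r, 0 ≤ a r) (K X : ℝ) (hK : 0 ≤ K) (hX : 0 ≤ X)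
    (hF : ∀ n : ℕ, 1 ≤ n → ∑ r ∈ range n, a r ≤ K * (X + (n : ℝ) ^ 2)) (D R : ℕ)
    (hR : 1 ≤ R) :
    ∑ r ∈ (range D).filter (fun r => R ≤ r + 1), a r / ((r : ℝ) + 1)
      ≤ K * (X / R + 2 * D) := by
  have hR' : (1 : ℝ) ≤ (R : ℝ) := by exact_mod_cast hR
  rcases lt_or_ge D R with h | h
  · have h1 : (range D).filter (fun r => R ≤ r + 1) = ∅ := by
      ext r
      simp only [mem_filter, mem_range, notMem_empty, iff_false]
      omega
    rw [h1, sum_empty]
    positivity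
  · obtain ⟨k, rfl⟩ := Nat.exists_eq_add_of_le h
    refine (key a ha K X hK hX hF R hR k).trans ?_
    have hD : (0 : ℝ) < (R : ℝ) + k := by positivity
    have hFk := hF (R + k) (by omega)
    push_cast at hFk ⊢
    have h3 : (∑ r ∈ range (R + k), a r) / ((R : ℝ) + k)
        ≤ K * (X + ((R : ℝ) + k) ^ 2) / ((R : ℝ) + k) :=
      div_le_div_of_nonneg_right hFk hD.le
    have h4 : K * (X + ((R : ℝ) + k) ^ 2) / ((R : ℝ) + k)
        = K * (X * (1 / ((R : ℝ) + k))) + K * ((R : ℝ) + k) := by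
      field_simp
    have h5 : X / (R : ℝ) = X * (1 / (R : ℝ)) := by ring
    rw [h5]
    have h6 : 0 ≤ K * (R : ℝ) := by positivity
    nlinarith

end LSDM

open LSDM in
/-- LSD: the large moduli. -/
theorem specLSD (hLS : QPA.SpecLS) : SpecLSD := by
  obtain ⟨C, hC, h⟩ := hLS
  refine ⟨2 * C, by positivity, ?_⟩
  intro X D R b hX hR
  have hcs : ∀ r, 0 ≤ csum r b X := fun r => sum_nonneg fun ψ _ => by positivity
  have hS : 0 ≤ ∑ u ∈ Icc 1 X, (b u) ^ 2 := sum_nonneg fun u _ => by positivity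
  set S := ∑ u ∈ Icc 1 X, (b u) ^ 2 with hSdef
  have h1 := main (fun r => ((r : ℝ) + 1) / ((r + 1).totient : ℝ) * csum r b X)
    (fun r => mul_nonneg (by positivity) (hcs r)) (C * S) X (by positivity) (by positivity)
    (fun n hn => by
      refine (h n X b hn hX).trans (le_of_eq ?_)
      ring) D R hR
  have h2 : ∑ r ∈ (range D).filter (fun r => R ≤ r + 1),
      1 / ((r + 1).totient : ℝ) * csum r b X
      = ∑ r ∈ (range D).filter (fun r => R ≤ r + 1),
        ((r : ℝ) + 1) / ((r + 1).totient : ℝ) * csum r b X / ((r : ℝ) + 1) := by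
    refine sum_congr rfl fun r _ => ?_
    have h3 : (r : ℝ) + 1 ≠ 0 := by positivity
    field_simp
  rw [h2]
  refine h1.trans ?_
  have h4 : (0 : ℝ) ≤ (X : ℝ) / R := by positivity
  have h5 : 0 ≤ C * S := by positivity
  nlinarith [mul_nonneg h5 h4]

end

end Pool.Agent.Lib.MP391708.U
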