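import Pool.Agent.Lib.MP_391708_nt.U.SpecU6a

/-!
# Project U, module NCC: the classes which are not reduced
-/

set_option autoImplicit false

namespace Pool.Agent.Lib.MP391708.U

open Finset Filter Topology Pool.Agent.Lib.MP391708.QPA
open scoped Classical

noncomputable section

namespace NCCM

/-- the number of the integers in a class -/
lemma class_card (X m c : ℕ) (hm : 0 < m) (hX : m ≤ X) :
    (((Icc 1 X).filter (fun u => u % m = c)).card : ℝ) ≤ 2 * X / m := by
  have h1 : ((Icc 1 X).filter (fun u => u % m = c)).card ≤ X / m + 1 := by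
    have h2 : ((Icc 1 X).filter (fun u => u % m = c)).card ≤ (range (X / m + 1)).card := by
      apply Finset.card_le_card_of_injOn (fun u => u / m)
      · intro u hu
        simp only [coe_filter, mem_Icc, Set.mem_ofPred_eq] at hu
        simp only [coe_range, Set.mem_Iio]
        have := Nat.div_le_div_right (c := m) hu.1.2
        omega
      · intro u hu v hv huv
        simp only [coe_filter, mem_Icc, Set.mem_ofPred_eq] at hu hv
        have h3 := Nat.div_add_mod u m
        have h4 := Nat.div_add_mod v m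
        simp only at huv
        rw [hu.2, huv] at h3
        rw [hv.2] at h4
        omega
    rwa [Finset.card_range] at h2
  have hm' : (0 : ℝ) < m := by exact_mod_cast hm
  have h5 : ((X / m : ℕ) : ℝ) ≤ X / m := Nat.cast_div_le
  have h6 : (1 : ℝ) ≤ X / m := by
    rw [le_div_iff₀ hm', one_mul]
    exact_mod_cast hX
  have h7 : (((Icc 1 X).filter (fun u => u % m = c)).card : ℝ) ≤ ((X / m : ℕ) : ℝ) + 1 := by
    exact_mod_cast h1
  calc _ ≤ _ := h7
    _ ≤ (X : ℝ) / m + X / m := by linarith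
    _ = _ := by ring

lemma mult_card (X n : ℕ) : (((Icc 1 X).filter (fun u => n ∣ u)).card : ℝ) ≤ (X : ℝ) / n := by
  have h1 : (Icc 1 X).filter (fun u => n ∣ u) = (Ioc 0 X).filter (fun u => n ∣ u) := by
    congr 1
  rw [h1, Nat.Ioc_filter_dvd_card_eq_div]
  exact Nat.cast_div_le

lemma per_d (z : ℝ) (X d : ℕ) (b : ℕ → ℝ) (hz : 2 < z) (hd : 1 ≤ d) (hX : 4 * d ≤ X)
    (hb1 : ∀ u, |b u| ≤ 1) (hb2 : ∀ u, b u ≠ 0 → Rough z u) :
    ∑ c ∈ (range (4 * d)).filter (fun c => ¬ Nat.Coprime c (4 * d)),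
      (∑ u ∈ (Icc 1 X).filter (fun u => u % (4 * d) = c), b u) ^ 2 ≤
    X / (2 * d) * ∑ n ∈ (Icc 1 d).filter (fun n : ℕ => z ≤ (n : ℝ) ∧ n ∣ d), (X : ℝ) / n := by
  have hd0 : (0 : ℝ) < d := by exact_mod_cast hd
  have h1 : ∀ c, (∑ u ∈ (Icc 1 X).filter (fun u => u % (4 * d) = c), b u) ^ 2 ≤
      X / (2 * d) * ∑ u ∈ (Icc 1 X).filter (fun u => u % (4 * d) = c), |b u| := by
    intro c
    have h2 : |∑ u ∈ (Icc 1 X).filter (fun u => u % (4 * d) = c), b u| ≤
        ∑ u ∈ (Icc 1 X).filter (fun u => u % (4 * d) = c), |b u| :=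
      Finset.abs_sum_le_sum_abs _ _
    have h3 : ∑ u ∈ (Icc 1 X).filter (fun u => u % (4 * d) = c), |b u| ≤ X / (2 * d) := by
      calc _ ≤ ∑ _u ∈ (Icc 1 X).filter (fun u => u % (4 * d) = c), (1 : ℝ) :=
            Finset.sum_le_sum (fun u _ => hb1 u)
        _ = (((Icc 1 X).filter (fun u => u % (4 * d) = c)).card : ℝ) := by
            rw [Finset.sum_const, nsmul_eq_mul, mul_one]
        _ ≤ 2 * X / ((4 * d : ℕ) : ℝ) := class_card X (4 * d) c (by omega) hX
        _ = X / (2 * d) := by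
            push_cast
            field_simp
            ring
    have h4 : 0 ≤ ∑ u ∈ (Icc 1 X).filter (fun u => u % (4 * d) = c), |b u| :=
      Finset.sum_nonneg (fun _ _ => abs_nonneg _)
    calc (∑ u ∈ (Icc 1 X).filter (fun u => u % (4 * d) = c), b u) ^ 2
        = |∑ u ∈ (Icc 1 X).filter (fun u => u % (4 * d) = c), b u| *
          |∑ u ∈ (Icc 1 X).filter (fun u => u % (4 * d) = c), b u| := by
          rw [abs_mul_abs_self, sq]
      _ ≤ (X / (2 * d)) * ∑ u ∈ (Icc 1 X).filter (fun u => u % (4 * d) = c), |b u| :=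
          mul_le_mul (h2.trans h3) h2 (abs_nonneg _) (by positivity)
  have h5 : ∑ c ∈ (range (4 * d)).filter (fun c => ¬ Nat.Coprime c (4 * d)),
      ∑ u ∈ (Icc 1 X).filter (fun u => u % (4 * d) = c), |b u| =
      ∑ u ∈ (Icc 1 X).filter (fun u => ¬ Nat.Coprime u (4 * d)), |b u| := by
    have hcop : ∀ u : ℕ, Nat.Coprime (u % (4 * d)) (4 * d) ↔ Nat.Coprime u (4 * d) := by
      intro u
      unfold Nat.Coprime
      rw [Nat.gcd_comm u (4 * d), Nat.gcd_rec (4 * d) u]
    rw [← Finset.sum_fiberwise_of_maps_to (s := (Icc 1 X).filter (fun u => ¬ Nat.Coprime u (4 * d)))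
      (t := (range (4 * d)).filter (fun c => ¬ Nat.Coprime c (4 * d))) (g := fun u => u % (4 * d))
      (f := fun u => |b u|)]
    · apply Finset.sum_congr rfl
      intro c hc
      rw [Finset.mem_filter] at hc
      apply Finset.sum_congr _ (fun _ _ => rfl)
      ext u
      simp only [Finset.mem_filter]
      constructor
      · rintro ⟨h6, h7⟩
        refine ⟨⟨h6, ?_⟩, h7⟩
        rw [← hcop, h7]
        exact hc.2
      · rintro ⟨⟨h6, _⟩, h7⟩
        exact ⟨h6, h7⟩
    · intro u hu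
      rw [Finset.mem_filter] at hu ⊢
      refine ⟨Finset.mem_range.2 (Nat.mod_lt _ (by omega)), ?_⟩
      rw [hcop]
      exact hu.2
  have h6 : ∑ u ∈ (Icc 1 X).filter (fun u => ¬ Nat.Coprime u (4 * d)), |b u| ≤
      ∑ n ∈ (Icc 1 d).filter (fun n : ℕ => z ≤ (n : ℝ) ∧ n ∣ d), (X : ℝ) / n := by
    have h7 : ∀ u ∈ (Icc 1 X).filter (fun u => ¬ Nat.Coprime u (4 * d)), |b u| ≤
        ∑ n ∈ (Icc 1 d).filter (fun n : ℕ => z ≤ (n : ℝ) ∧ n ∣ d), (if n ∣ u then (1 : ℝ) else 0) := by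
      intro u hu
      rw [Finset.mem_filter] at hu
      by_cases hbu : b u = 0
      · rw [hbu, abs_zero]
        exact Finset.sum_nonneg (fun _ _ => by split_ifs <;> norm_num)
      · have h8 := hu.2
        rw [Nat.Prime.not_coprime_iff_dvd] at h8
        obtain ⟨p, hp, h9, h10⟩ := h8
        have h11 := hb2 u hbu p hp h9
        have h12 : p ∣ d := by
          rcases (Nat.Prime.dvd_mul hp).1 h10 with h | h
          · exfalso
            have h13 : p ∣ 2 ^ 2 := h
            have h14 : p ∣ 2 := hp.dvd_of_dvd_pow h13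
            have h15 : p ≤ 2 := Nat.le_of_dvd (by norm_num) h14
            have h16 : (p : ℝ) ≤ 2 := by exact_mod_cast h15
            linarith
          · exact h
        have h17 := Finset.single_le_sum (f := fun n : ℕ => if n ∣ u then (1 : ℝ) else 0)
          (s := (Icc 1 d).filter (fun n : ℕ => z ≤ (n : ℝ) ∧ n ∣ d)) (fun n _ => by
            split_ifs <;> norm_num) (a := p) (by
            rw [Finset.mem_filter, Finset.mem_Icc]
            exact ⟨⟨hp.one_le, Nat.le_of_dvd hd h12⟩, h11, h12⟩)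
        simp only [if_pos h9] at h17
        exact (hb1 u).trans h17
    refine (Finset.sum_le_sum h7).trans ?_
    rw [Finset.sum_comm]
    apply Finset.sum_le_sum
    intro n _
    rw [← Finset.sum_filter, Finset.sum_const, nsmul_eq_mul, mul_one]
    refine le_trans ?_ (mult_card X n)
    exact_mod_cast Finset.card_le_card
      (Finset.filter_subset_filter _ (Finset.filter_subset _ _))
  calc _ ≤ ∑ c ∈ (range (4 * d)).filter (fun c => ¬ Nat.Coprime c (4 * d)),
        X / (2 * d) * ∑ u ∈ (Icc 1 X).filter (fun u => u % (4 * d) = c), |b u| :=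
        Finset.sum_le_sum (fun c _ => h1 c)
    _ = X / (2 * d) * ∑ u ∈ (Icc 1 X).filter (fun u => ¬ Nat.Coprime u (4 * d)), |b u| := by
        rw [← Finset.mul_sum, h5]
    _ ≤ _ := mul_le_mul_of_nonneg_left h6 (by positivity)

end NCCM

open NCCM in
/-- **NCC**. -/
theorem specNCC : SpecNCC := by
  intro z X D₀ b hz hD hX hb1 hb2
  have hz0 : 0 < z := by linarith
  have hD0 : (0 : ℝ) < D₀ := by exact_mod_cast hD
  have h1 : ∀ d ∈ Ioc D₀ (2 * D₀),
      ∑ c ∈ (range (4 * d)).filter (fun c => ¬ Nat.Coprime c (4 * d)),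
        (∑ u ∈ (Icc 1 X).filter (fun u => u % (4 * d) = c), b u) ^ 2 ≤
      X / (2 * D₀) * ∑ n ∈ (Icc 1 (2 * D₀)).filter (fun n : ℕ => z ≤ (n : ℝ)),
        (if n ∣ d then (X : ℝ) / n else 0) := by
    intro d hd
    rw [Finset.mem_Ioc] at hd
    refine (per_d z X d b hz (by omega) (by omega) hb1 hb2).trans ?_
    have hdD : (D₀ : ℝ) ≤ d := by exact_mod_cast hd.1.le
    have h2 : (X : ℝ) / (2 * d) ≤ X / (2 * D₀) :=
      div_le_div_of_nonneg_left (by positivity) (by positivity) (by linarith)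
    have h3 : ∑ n ∈ (Icc 1 d).filter (fun n : ℕ => z ≤ (n : ℝ) ∧ n ∣ d), (X : ℝ) / n ≤
        ∑ n ∈ (Icc 1 (2 * D₀)).filter (fun n : ℕ => z ≤ (n : ℝ)),
          (if n ∣ d then (X : ℝ) / n else 0) := by
      rw [← Finset.sum_filter]
      apply Finset.sum_le_sum_of_subset_of_nonneg
      · intro n hn
        simp only [Finset.mem_filter, Finset.mem_Icc] at hn ⊢
        exact ⟨⟨⟨hn.1.1, by omega⟩, hn.2.1⟩, hn.2.2⟩
      · intro n _ _
        positivity
    exact mul_le_mul h2 h3 (Finset.sum_nonneg (fun _ _ => by positivity)) (by positivity)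
  refine (Finset.sum_le_sum h1).trans ?_
  rw [← Finset.mul_sum, Finset.sum_comm]
  have h4 : ∀ n ∈ (Icc 1 (2 * D₀)).filter (fun n : ℕ => z ≤ (n : ℝ)),
      ∑ d ∈ Ioc D₀ (2 * D₀), (if n ∣ d then (X : ℝ) / n else 0) ≤
        2 * D₀ * X * ((n : ℝ) ^ 2)⁻¹ := by
    intro n hn
    rw [Finset.mem_filter, Finset.mem_Icc] at hn
    have hn0 : (0 : ℝ) < n := by linarith [hn.2]
    rw [← Finset.sum_filter, Finset.sum_const, nsmul_eq_mul]
    have h5 : ((((Ioc D₀ (2 * D₀)).filter (fun d => n ∣ d)).card : ℕ) : ℝ) ≤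
        ((2 * D₀ : ℕ) : ℝ) / n := by
      refine le_trans ?_ (mult_card (2 * D₀) n)
      have h6 : (Ioc D₀ (2 * D₀)).filter (fun d => n ∣ d) ⊆
          (Icc 1 (2 * D₀)).filter (fun d => n ∣ d) := by
        apply Finset.filter_subset_filter
        intro d hd
        rw [Finset.mem_Ioc] at hd
        rw [Finset.mem_Icc]
        omega
      exact_mod_cast Finset.card_le_card h6
    calc _ ≤ ((2 * D₀ : ℕ) : ℝ) / n * (X / n) :=
          mul_le_mul_of_nonneg_right h5 (by positivity)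
      _ = _ := by
          push_cast
          field_simp
  have h7 : ∑ n ∈ (Icc 1 (2 * D₀)).filter (fun n : ℕ => z ≤ (n : ℝ)), ((n : ℝ) ^ 2)⁻¹ ≤ 2 / z := by
    have hc : 1 ≤ ⌈z⌉₊ := Nat.one_le_ceil_iff.2 hz0
    have h8 := sum_Ioo_inv_sq_le (α := ℝ) (⌈z⌉₊ - 1) (2 * D₀ + 1)
    have h9 : (((⌈z⌉₊ - 1 : ℕ) : ℝ) + 1) = (⌈z⌉₊ : ℝ) := by
      rw [Nat.cast_sub hc]
      push_cast
      ring
    rw [h9] at h8
    refine le_trans ?_ (h8.trans ?_)
    · apply Finset.sum_le_sum_of_subset_of_nonneg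
      · intro n hn
        rw [Finset.mem_filter, Finset.mem_Icc] at hn
        rw [Finset.mem_Ioo]
        have h10 : ⌈z⌉₊ ≤ n := Nat.ceil_le.2 hn.2
        omega
      · intro n _ _
        positivity
    · exact div_le_div_of_nonneg_left (by norm_num) hz0 (Nat.le_ceil z)
  calc _ ≤ X / (2 * D₀) * ∑ n ∈ (Icc 1 (2 * D₀)).filter (fun n : ℕ => z ≤ (n : ℝ)),
        2 * D₀ * X * ((n : ℝ) ^ 2)⁻¹ :=
        mul_le_mul_of_nonneg_left (Finset.sum_le_sum h4) (by positivity)
    _ = (X : ℝ) ^ 2 * ∑ n ∈ (Icc 1 (2 * D₀)).filter (fun n : ℕ => z ≤ (n : ℝ)), ((n : ℝ) ^ 2)⁻¹ := by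
        rw [← Finset.mul_sum]
        field_simp
    _ ≤ (X : ℝ) ^ 2 * (2 / z) := mul_le_mul_of_nonneg_left h7 (by positivity)
    _ ≤ 8 * (X : ℝ) ^ 2 / z := by
        rw [mul_div_assoc', div_le_div_iff_of_pos_right hz0]
        nlinarith [sq_nonneg (X : ℝ)]

end

end Pool.Agent.Lib.MP391708.U
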