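import Pool.Agent.Lib.MP_391708_nt.U.SpecU6a
import Pool.Agent.Lib.MP_391708_nt.QPA.BDHTot

/-! # Module TPH: the sum of 1/φ -/

set_option autoImplicit false

namespace Pool.Agent.Lib.MP391708.U

open Finset Filter Topology Pool.Agent.Lib.MP391708.QPA
open scoped Classical

namespace TPHM

theorem inner (e M : ℕ) (he : 1 ≤ e) :
    ∑ g ∈ (Icc 1 M).filter (fun g => e ∣ g), 1 / (g : ℝ) ≤
      1 / (e : ℝ) * ∑ m ∈ Icc 1 M, 1 / (m : ℝ) := by
  have he0 : (0 : ℝ) < e := by exact_mod_cast he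
  have hsub : (Icc 1 M).filter (fun g => e ∣ g) ⊆ (Icc 1 M).image (fun m => e * m) := by
    intro g hg
    rw [Finset.mem_filter, Finset.mem_Icc] at hg
    obtain ⟨⟨h1, h2⟩, m, hm⟩ := hg
    rw [Finset.mem_image]
    refine ⟨m, ?_, hm.symm⟩
    rw [Finset.mem_Icc]
    constructor
    · rcases Nat.eq_zero_or_pos m with h0 | h0
      · rw [h0, mul_zero] at hm
        omega
      · exact h0
    · calc m ≤ e * m := Nat.le_mul_of_pos_left m he
        _ = g := hm.symm
        _ ≤ M := h2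
  calc ∑ g ∈ (Icc 1 M).filter (fun g => e ∣ g), 1 / (g : ℝ)
      ≤ ∑ g ∈ (Icc 1 M).image (fun m => e * m), 1 / (g : ℝ) :=
        Finset.sum_le_sum_of_subset_of_nonneg hsub fun i _ _ => by positivity
    _ = ∑ m ∈ Icc 1 M, 1 / ((e * m : ℕ) : ℝ) := by
        rw [Finset.sum_image]
        intro a _ b _ hab
        exact Nat.eq_of_mul_eq_mul_left he hab
    _ = 1 / (e : ℝ) * ∑ m ∈ Icc 1 M, 1 / (m : ℝ) := by
        rw [Finset.mul_sum]
        refine Finset.sum_congr rfl fun m _ => ?_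
        push_cast
        rw [one_div, one_div, one_div, mul_inv]

theorem harm (M : ℕ) : ∑ m ∈ Icc 1 M, 1 / (m : ℝ) ≤ 1 + Real.log M := by
  have h := harmonic_le_one_add_log M
  rw [harmonic_eq_sum_Icc] at h
  push_cast at h
  simp only [one_div]
  exact h

end TPHM

open TPHM in
theorem specTPH : SpecTPH := by
  obtain ⟨C, hC, h⟩ := BDH.sum_inv
  refine ⟨C, hC, fun M hM => ?_⟩
  have hlog : 0 ≤ 1 + Real.log M := by
    have : 0 ≤ Real.log M := Real.log_natCast_nonneg M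
    linarith
  calc ∑ g ∈ Icc 1 M, 1 / (g.totient : ℝ)
      ≤ ∑ g ∈ Icc 1 M, ∑ e ∈ g.divisors, 1 / (g : ℝ) * (1 / (e.totient : ℝ)) := by
        refine Finset.sum_le_sum fun g hg => ?_
        have hg1 : 0 < g := (Finset.mem_Icc.1 hg).1
        have hg0 : (0 : ℝ) < g := by exact_mod_cast hg1
        have h1 := BDH.div_totient_le hg1
        rw [← Finset.mul_sum]
        calc 1 / (g.totient : ℝ) = 1 / (g : ℝ) * ((g : ℝ) / (g.totient : ℝ)) := by
              field_simp
          _ ≤ _ := mul_le_mul_of_nonneg_left h1 (by positivity)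
    _ = ∑ e ∈ Icc 1 M, ∑ g ∈ (Icc 1 M).filter (fun g => e ∣ g),
          1 / (g : ℝ) * (1 / (e.totient : ℝ)) := by
        refine Finset.sum_comm' fun g e => ?_
        rw [Finset.mem_filter, Finset.mem_Icc, Finset.mem_Icc, Nat.mem_divisors]
        constructor
        · rintro ⟨⟨h1, h2⟩, h3, h4⟩
          exact ⟨⟨⟨h1, h2⟩, h3⟩, Nat.pos_of_dvd_of_pos h3 h1, (Nat.le_of_dvd h1 h3).trans h2⟩
        · rintro ⟨⟨⟨h1, h2⟩, h3⟩, -, -⟩
          exact ⟨⟨h1, h2⟩, h3, by omega⟩
    _ ≤ ∑ e ∈ Icc 1 M, 1 / ((e : ℝ) * (e.totient : ℝ)) * (1 + Real.log M) := by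
        refine Finset.sum_le_sum fun e he => ?_
        have he1 : 1 ≤ e := (Finset.mem_Icc.1 he).1
        have he0 : (0 : ℝ) < e := by exact_mod_cast he1
        have hφ : (0 : ℝ) < e.totient := by exact_mod_cast Nat.totient_pos.2 he1
        rw [← Finset.sum_mul]
        have h1 := (inner e M he1).trans (mul_le_mul_of_nonneg_left (harm M)
          (by positivity : (0 : ℝ) ≤ 1 / (e : ℝ)))
        calc _ ≤ (1 / (e : ℝ) * (1 + Real.log M)) * (1 / (e.totient : ℝ)) :=
              mul_le_mul_of_nonneg_right h1 (by positivity)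
          _ = _ := by
              field_simp
    _ = (∑ e ∈ Icc 1 M, 1 / ((e : ℝ) * (e.totient : ℝ))) * (1 + Real.log M) := by
        rw [Finset.sum_mul]
    _ ≤ C * (1 + Real.log M) := mul_le_mul_of_nonneg_right (h M) hlog

end Pool.Agent.Lib.MP391708.U
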