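import Pool.Agent.Lib.MP_391708_nt.U.SpecU6a

/-!
# Project U, module WBU: the bound for `Wsum` for balanced functions
-/

set_option autoImplicit false

namespace Pool.Agent.Lib.MP391708.U

open Finset Filter Topology Pool.Agent.Lib.MP391708.QPA
open scoped Classical

noncomputable section

namespace WBUM

/-- a residue class in an interval -/
lemma card_class (x H M c : ℕ) (hM : 0 < M) :
    (((Ioc x (x + H)).filter (fun u => u % M = c)).card : ℝ) ≤ (H : ℝ) / M + 1 := by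
  have hM0 : (0 : ℝ) < M := by exact_mod_cast hM
  have h := Nat.Ioc_filter_modEq_card x (x + H) hM c
  have h1 : (((Ioc x (x + H)).filter (fun u => u % M = c)).card : ℝ) ≤
      (((Ioc x (x + H)).filter (fun u => u ≡ c [MOD M])).card : ℝ) := by
    norm_cast
    refine Finset.card_le_card ?_
    intro u hu
    rw [Finset.mem_filter] at hu ⊢
    refine ⟨hu.1, ?_⟩
    have hc : c < M := by rw [← hu.2]; exact Nat.mod_lt _ hM
    unfold Nat.ModEq
    rw [hu.2, Nat.mod_eq_of_lt hc]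
  refine h1.trans ?_
  have h2 : (((Ioc x (x + H)).filter (fun u => u ≡ c [MOD M])).card : ℤ) =
      max (⌊(((x + H : ℕ) : ℚ) - c) / M⌋ - ⌊((x : ℚ) - c) / M⌋) 0 := h
  have h3 : ((((Ioc x (x + H)).filter (fun u => u ≡ c [MOD M])).card : ℤ) : ℚ) ≤ (H : ℚ) / M + 1 := by
    rw [h2]
    push_cast
    apply max_le
    · have e1 := Int.floor_le ((((x + H : ℕ) : ℚ) - c) / M)
      have e2 := Int.lt_floor_add_one (((x : ℚ) - c) / M)
      have e3 : (((x + H : ℕ) : ℚ) - c) / M = ((x : ℚ) - c) / M + H / M := by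
        push_cast; ring
      rw [e3] at e1
      push_cast at e1 e2 ⊢
      have e4 : (((x : ℚ) + H) - c) / M = ((x : ℚ) - c) / M + H / M := by ring
      rw [e4]
      linarith
    · positivity
  have h4 : ((((Ioc x (x + H)).filter (fun u => u ≡ c [MOD M])).card : ℕ) : ℚ) ≤ (H : ℚ) / M + 1 := by
    exact_mod_cast h3
  have h5 : (((((Ioc x (x + H)).filter (fun u => u ≡ c [MOD M])).card : ℕ) : ℚ) : ℝ) ≤
      (((H : ℚ) / M + 1 : ℚ) : ℝ) := by exact_mod_cast h4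
  push_cast at h5
  exact h5

lemma sv (N : ℕ) (T C₀ : ℝ) (hN : (1 : ℝ) ≤ N) (hT : T = Real.log N) (hT0 : 0 < T) :
    WB.Sv N (2 * T ^ (C₀ + 1)) (fun _ => T ^ C₀) := by
  intro d c x H hd _ hH
  have hd0 : (0 : ℝ) < d := by exact_mod_cast hd
  have hφ : (0 : ℝ) < d.totient := by exact_mod_cast Nat.totient_pos.2 hd
  have hφd : (d.totient : ℝ) ≤ d := by exact_mod_cast Nat.totient_le d
  have hdH : (d : ℝ) ≤ H := by
    have h1 : (1 : ℝ) ≤ √(N : ℝ) := by rw [Real.one_le_sqrt]; exact hN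
    have h2 : (d : ℝ) * 1 ≤ d * √(N : ℝ) := mul_le_mul_of_nonneg_left h1 hd0.le
    linarith
  rw [Finset.sum_const, nsmul_eq_mul, ← hT]
  have h1 := card_class x H (4 * d) c (by omega)
  have h2 : (H : ℝ) / ((4 * d : ℕ) : ℝ) + 1 ≤ 2 * H / d.totient := by
    have e1 : (H : ℝ) / ((4 * d : ℕ) : ℝ) ≤ H / d := by
      apply div_le_div_of_nonneg_left (Nat.cast_nonneg _) hd0
      push_cast
      linarith
    have e2 : (1 : ℝ) ≤ H / d := by rw [le_div_iff₀ hd0]; linarith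
    have e3 : 2 * (H : ℝ) / d ≤ 2 * H / d.totient :=
      div_le_div_of_nonneg_left (by positivity) hφ hφd
    have e4 : 2 * (H : ℝ) / d = H / d + H / d := by ring
    linarith
  have hTC : 0 ≤ T ^ C₀ := Real.rpow_nonneg hT0.le _
  calc (((Ioc x (x + H)).filter (fun u => u % (4 * d) = c)).card : ℝ) * T ^ C₀
      ≤ (2 * H / d.totient) * T ^ C₀ := mul_le_mul_of_nonneg_right (h1.trans h2) hTC
    _ = 2 * T ^ (C₀ + 1) * H / (d.totient * T) := by
        rw [Real.rpow_add hT0, Real.rpow_one]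
        field_simp

/-- the exponent `k` -/
lemma exists_k (E T : ℝ) (hE : 1 ≤ E) (hT : 2 < T) : ∃ k : ℕ, 2 ≤ k ∧ T ^ E ≤ 2 ^ k ∧
    (2 : ℝ) ^ k ≤ 2 * T ^ E ∧ (k : ℝ) ≤ E * Real.log T / Real.log 2 + 1 := by
  have hT0 : 0 < T := by linarith
  have hl2 : 0 < Real.log 2 := Real.log_pos one_lt_two
  have hlT : Real.log 2 < Real.log T := Real.log_lt_log (by norm_num) hT
  obtain ⟨x, hx⟩ : ∃ x : ℝ, x = E * Real.log T / Real.log 2 := ⟨_, rfl⟩
  have hx1 : 1 < x := by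
    rw [hx, lt_div_iff₀ hl2]
    nlinarith
  have hxT : (2 : ℝ) ^ x = T ^ E := by
    rw [Real.rpow_def_of_pos (by norm_num : (0 : ℝ) < 2), Real.rpow_def_of_pos hT0, hx]
    congr 1
    field_simp
  have hceil := Nat.ceil_lt_add_one (show 0 ≤ x by linarith)
  have hle := Nat.le_ceil x
  refine ⟨⌈x⌉₊, ?_, ?_, ?_, ?_⟩
  · have : (1 : ℝ) < (⌈x⌉₊ : ℝ) := lt_of_lt_of_le hx1 hle
    have h2 : 1 < ⌈x⌉₊ := by exact_mod_cast this
    omega
  · rw [← hxT, ← Real.rpow_natCast]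
    exact Real.rpow_le_rpow_of_exponent_le one_le_two hle
  · rw [← hxT, ← Real.rpow_natCast]
    calc (2 : ℝ) ^ (⌈x⌉₊ : ℝ) ≤ 2 ^ (x + 1) :=
          Real.rpow_le_rpow_of_exponent_le one_le_two hceil.le
      _ = 2 * 2 ^ x := by rw [Real.rpow_add (by norm_num), Real.rpow_one]; ring
  · rw [← hx]; exact hceil.le

/-- everything that holds for large `N` -/
lemma large (E e M : ℝ) (he : 0 < e) : ∃ N₀ : ℕ, ∀ N : ℕ, N₀ ≤ N →
    M ≤ Real.log N ∧ 2 * Real.log N ^ E ≤ (N : ℝ) ^ e ∧ 4 ≤ (N : ℝ) ^ e ∧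
    E * Real.log (Real.log N) / Real.log 2 + 1 ≤ Real.log N ∧ (10 : ℝ) ≤ N := by
  have hlog : Tendsto (fun N : ℕ => Real.log (N : ℝ)) atTop atTop :=
    Real.tendsto_log_atTop.comp tendsto_natCast_atTop_atTop
  have h1 : ∀ᶠ N : ℕ in atTop, M ≤ Real.log N := hlog.eventually_ge_atTop M
  have h2 : ∀ᶠ N : ℕ in atTop, 2 * Real.log N ^ E ≤ (N : ℝ) ^ e := by
    have h3 := (isLittleO_log_rpow_rpow_atTop E he).bound (show (0 : ℝ) < 1 / 2 by norm_num)
    have h4 := tendsto_natCast_atTop_atTop.eventually h3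
    filter_upwards [h4, hlog.eventually_ge_atTop 0] with N hN hN0
    have e1 : 0 ≤ Real.log (N : ℝ) ^ E := Real.rpow_nonneg hN0 _
    have e2 : 0 ≤ (N : ℝ) ^ e := Real.rpow_nonneg (Nat.cast_nonneg _) _
    rw [Real.norm_of_nonneg e1, Real.norm_of_nonneg e2] at hN
    linarith
  have h3 : ∀ᶠ N : ℕ in atTop, 4 ≤ (N : ℝ) ^ e :=
    ((tendsto_rpow_atTop he).comp tendsto_natCast_atTop_atTop).eventually_ge_atTop 4
  have h4 : ∀ᶠ N : ℕ in atTop, E * Real.log (Real.log N) / Real.log 2 + 1 ≤ Real.log N := by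
    have h5 : ∀ᶠ T : ℝ in atTop, E * Real.log T / Real.log 2 + 1 ≤ T := by
      have hl2 : 0 < Real.log 2 := Real.log_pos one_lt_two
      have h6 := Real.isLittleO_log_id_atTop.bound
        (show (0 : ℝ) < Real.log 2 / (2 * (|E| + 1)) by positivity)
      filter_upwards [h6, eventually_ge_atTop (2 : ℝ)] with T hT hT2
      simp only [id] at hT
      have e0 : 0 ≤ Real.log T := Real.log_nonneg (by linarith)
      rw [Real.norm_of_nonneg e0, Real.norm_of_nonneg (by linarith)] at hT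
      have e1 : E * Real.log T / Real.log 2 ≤ T / 2 := by
        rw [div_le_iff₀ hl2]
        calc E * Real.log T ≤ (|E| + 1) * Real.log T :=
              mul_le_mul_of_nonneg_right (by linarith [le_abs_self E]) e0
          _ ≤ (|E| + 1) * (Real.log 2 / (2 * (|E| + 1)) * T) :=
              mul_le_mul_of_nonneg_left hT (by positivity)
          _ = T / 2 * Real.log 2 := by field_simp
      linarith
    exact hlog.eventually h5
  have h5 : ∀ᶠ N : ℕ in atTop, (10 : ℝ) ≤ N := by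
    filter_upwards [eventually_ge_atTop 10] with N hN
    exact_mod_cast hN
  obtain ⟨N₀, hN₀⟩ := eventually_atTop.1 (h1.and (h2.and (h3.and (h4.and h5))))
  exact ⟨N₀, fun N hN => hN₀ N hN⟩

end WBUM

theorem specWBU (hBDHU : SpecBDHU) (hWBX : SpecWBX) : SpecWBU := by
  intro B C₀ e hB hC₀ he
  obtain ⟨C, hC, hWBX⟩ := hWBX
  obtain ⟨E, hE⟩ : ∃ E : ℝ, E = B + 2 * C₀ + 1 := ⟨_, rfl⟩
  have hE1 : 1 ≤ E := by rw [hE]; linarith
  obtain ⟨B₁, hB₁, N₁, hB⟩ := hBDHU (B + 8 * E + 2) C₀ (by linarith) hC₀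
  obtain ⟨N₂, hN₂⟩ := WBUM.large E e (36 * C + 4) he
  refine ⟨B₁, hB₁, max N₁ N₂, ?_⟩
  intro N K L b hN hK1 hKL hlo hhi hRe hRN hb hsupp hbal
  obtain ⟨hT1, hT2, hT3, hT4, hN10⟩ := hN₂ N ((le_max_right _ _).trans hN)
  obtain ⟨T, hT⟩ : ∃ T : ℝ, T = Real.log N := ⟨_, rfl⟩
  rw [← hT] at hT1 hT2 hT4
  have hT4' : 4 < T := by linarith
  have hT0 : 0 < T := by linarith
  have hTge1 : 1 ≤ T := by linarith
  have hK0 : 0 < K := by linarith
  have hL0 : 0 < L := by linarith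
  have hN0 : (0 : ℝ) < N := by linarith
  obtain ⟨k, hk2, hk3, hk4, hk5⟩ := WBUM.exists_k E T hE1 (by linarith)
  have hkT : (k : ℝ) ≤ T := hk5.trans hT4
  have hS : WB.Siz N K L e := ⟨by linarith, hK1, hKL, hlo, by linarith, hRN⟩
  have hsv : WB.Sv N (2 * T ^ (C₀ + 1)) (fun _ => T ^ C₀) := WBUM.sv N T C₀ (by linarith) hT hT0
  have hRk : (2 : ℝ) ^ k ≤ √(L / K) := (hk4.trans hT2).trans hRe
  -- the size of `L`
  have hRT := hS.RT
  have hTN := hS.TN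
  have hNL : (N : ℝ) ≤ L := by
    have h1 : 4 ≤ √(L / K) := by linarith
    have h2 : (0 : ℝ) ≤ √(K * L) := Real.sqrt_nonneg _
    nlinarith
  have hLN : L ≤ (N : ℝ) ^ 2 := by
    have h1 : √(K * L) ≤ 3 * N := by
      rw [Real.sqrt_le_left (by positivity)]
      nlinarith
    have h2 : 3 * (N : ℝ) ^ (2 / 5 : ℝ) ≤ N := by
      have h3 : (N : ℝ) = (N : ℝ) ^ (3 / 5 : ℝ) * (N : ℝ) ^ (2 / 5 : ℝ) := by
        rw [← Real.rpow_add hN0]; norm_num
      have h4 : (3 : ℝ) ≤ (N : ℝ) ^ (3 / 5 : ℝ) := by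
        have h6 : (3 : ℝ) ^ (5 / 3 : ℝ) ≤ 3 ^ (2 : ℝ) :=
          Real.rpow_le_rpow_of_exponent_le (by norm_num) (by norm_num)
        have h7 : (3 : ℝ) ^ (2 : ℝ) = 9 := by norm_num
        calc (3 : ℝ) = ((3 : ℝ) ^ (5 / 3 : ℝ)) ^ (3 / 5 : ℝ) := by
              rw [← Real.rpow_mul (by norm_num)]; norm_num
          _ ≤ (N : ℝ) ^ (3 / 5 : ℝ) :=
              Real.rpow_le_rpow (by positivity) (by linarith) (by norm_num)
      calc 3 * (N : ℝ) ^ (2 / 5 : ℝ) ≤ (N : ℝ) ^ (3 / 5 : ℝ) * (N : ℝ) ^ (2 / 5 : ℝ) :=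
            mul_le_mul_of_nonneg_right h4 (Real.rpow_nonneg hN0.le _)
        _ = N := h3.symm
    calc L = √(L / K) * √(K * L) := hRT.symm
      _ ≤ (N : ℝ) ^ (2 / 5 : ℝ) * (3 * N) :=
          mul_le_mul hRN h1 (Real.sqrt_nonneg _) (Real.rpow_nonneg hN0.le _)
      _ = 3 * (N : ℝ) ^ (2 / 5 : ℝ) * N := by ring
      _ ≤ N * N := mul_le_mul_of_nonneg_right h2 hN0.le
      _ = (N : ℝ) ^ 2 := by ring
  -- the pieces
  have hTE1 : (1 : ℝ) ≤ T ^ (4 * E) := Real.one_le_rpow hTge1 (by linarith)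
  obtain ⟨J, hJ⟩ : ∃ J : ℕ, J = ⌈T ^ (4 * E)⌉₊ := ⟨_, rfl⟩
  have hJlo : T ^ (4 * E) ≤ J := by rw [hJ]; exact Nat.le_ceil _
  have hJhi : (J : ℝ) ≤ 2 * T ^ (4 * E) := by
    have := (Nat.ceil_lt_add_one (show 0 ≤ T ^ (4 * E) by linarith)).le
    rw [← hJ] at this
    linarith
  have hJ1 : 1 ≤ J := by
    have : (1 : ℝ) ≤ J := hTE1.trans hJlo
    exact_mod_cast this
  have hJ0 : (0 : ℝ) < J := by exact_mod_cast hJ1
  obtain ⟨G, hG⟩ : ∃ G : ℝ, G = L ^ 2 / T ^ (B + 8 * E + 2) := ⟨_, rfl⟩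
  have hG0 : 0 ≤ G := by rw [hG]; positivity
  have hvd : ∀ i : ℕ, i < J → ∀ D₀ : ℕ, 1 ≤ D₀ → (D₀ : ℝ) ≤ √(L / K) →
      Vd (pc L (1 / 4) J i) b D₀ ≤ G := by
    intro i _ D₀ hD1 hD2
    rw [hG, hT]
    unfold pc
    refine hB N L b ((le_max_left _ _).trans hN) hNL hLN hb ?_ hbal _ _ D₀ hD1 (hD2.trans hRN)
    intro u hu
    obtain ⟨h1, h2, h3⟩ := hsupp u hu
    exact ⟨h1, by linarith, h3⟩
  have hmain := hWBX (2 * T ^ (C₀ + 1)) K L (1 / 4) e G N J k b (fun _ => T ^ C₀)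
    (by positivity) hS hsv (by norm_num) le_rfl hk2 hRk hJ1 hG0 (by rw [hT]; exact hb)
    (fun u hu => by
      obtain ⟨h1, h2, _⟩ := hsupp u hu
      exact ⟨h1, by linarith⟩) hvd
  refine hmain.trans ?_
  rw [← hT]
  have hT2C : (2 * T ^ (C₀ + 1)) ^ 2 / T ^ 2 = 4 * T ^ (2 * C₀) := by
    rw [mul_pow, Real.rpow_add hT0, Real.rpow_one, mul_pow]
    have : (T ^ C₀) ^ 2 = T ^ (2 * C₀) := by
      rw [← Real.rpow_natCast, ← Real.rpow_mul hT0.le]
      congr 1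
      push_cast
      ring
    rw [this]
    field_simp
    norm_num
  have hTE : 0 < T ^ E := Real.rpow_pos_of_pos hT0 _
  have hTC : 0 < T ^ (2 * C₀) := Real.rpow_pos_of_pos hT0 _
  have hTB1 : T ^ (2 * C₀) / T ^ E = 1 / T ^ (B + 1) := by
    rw [← Real.rpow_sub hT0, hE, one_div, ← Real.rpow_neg hT0.le]
    congr 1
    ring
  have t1 : C * (2 * T ^ (C₀ + 1)) ^ 2 * (1 / 2 : ℝ) ^ k * L / T ^ 2 ≤
      4 * C * (L / T ^ (B + 1)) := by
    have e1 : (1 / 2 : ℝ) ^ k ≤ 1 / T ^ E := by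
      rw [one_div_pow]
      exact one_div_le_one_div_of_le hTE hk3
    calc C * (2 * T ^ (C₀ + 1)) ^ 2 * (1 / 2 : ℝ) ^ k * L / T ^ 2
        = C * ((2 * T ^ (C₀ + 1)) ^ 2 / T ^ 2) * L * (1 / 2 : ℝ) ^ k := by ring
      _ = C * (4 * T ^ (2 * C₀)) * L * (1 / 2 : ℝ) ^ k := by rw [hT2C]
      _ ≤ C * (4 * T ^ (2 * C₀)) * L * (1 / T ^ E) :=
          mul_le_mul_of_nonneg_left e1 (by positivity)
      _ = 4 * C * L * (T ^ (2 * C₀) / T ^ E) := by ring
      _ = 4 * C * (L / T ^ (B + 1)) := by rw [hTB1]; ring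
  have t2 : k * (J : ℝ) ^ 2 * G / L ≤ 4 * (L / T ^ (B + 1)) := by
    have e1 : (J : ℝ) ^ 2 ≤ (2 * T ^ (4 * E)) ^ 2 := pow_le_pow_left₀ hJ0.le hJhi 2
    have e2 : (2 * T ^ (4 * E)) ^ 2 = 4 * T ^ (8 * E) := by
      rw [mul_pow, ← Real.rpow_natCast (T ^ (4 * E)), ← Real.rpow_mul hT0.le]
      norm_num
      congr 1
      ring
    have e3 : T * T ^ (8 * E) / T ^ (B + 8 * E + 2) = 1 / T ^ (B + 1) := by
      nth_rewrite 1 [← Real.rpow_one T]
      rw [← Real.rpow_add hT0, ← Real.rpow_sub hT0, one_div, ← Real.rpow_neg hT0.le]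
      congr 1
      ring
    calc k * (J : ℝ) ^ 2 * G / L ≤ T * (4 * T ^ (8 * E)) * G / L := by
          rw [← e2]
          gcongr
      _ = 4 * L * (T * T ^ (8 * E) / T ^ (B + 8 * E + 2)) := by
          rw [hG]; field_simp
      _ = 4 * (L / T ^ (B + 1)) := by rw [e3]; ring
  have t3 : C * (2 * T ^ (C₀ + 1)) ^ 2 * (8 : ℝ) ^ k / J * L / T ^ 2 ≤
      32 * C * (L / T ^ (B + 1)) := by
    have e1 : (8 : ℝ) ^ k ≤ 8 * T ^ (3 * E) := by
      have h1 : (8 : ℝ) ^ k = ((2 : ℝ) ^ k) ^ 3 := by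
        rw [← pow_mul, mul_comm k 3, pow_mul]; norm_num
      have h2 : (2 * T ^ E) ^ 3 = 8 * T ^ (3 * E) := by
        rw [mul_pow, ← Real.rpow_natCast (T ^ E), ← Real.rpow_mul hT0.le]
        norm_num
        congr 1
        ring
      rw [h1, ← h2]
      exact pow_le_pow_left₀ (by positivity) hk4 3
    have e2 : (8 : ℝ) ^ k / J ≤ 8 / T ^ E := by
      rw [div_le_div_iff₀ hJ0 hTE]
      have h3 : T ^ (3 * E) * T ^ E = T ^ (4 * E) := by
        rw [← Real.rpow_add hT0]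
        congr 1
        ring
      calc (8 : ℝ) ^ k * T ^ E ≤ 8 * T ^ (3 * E) * T ^ E :=
            mul_le_mul_of_nonneg_right e1 hTE.le
        _ = 8 * T ^ (4 * E) := by rw [mul_assoc, h3]
        _ ≤ 8 * J := by linarith
    calc C * (2 * T ^ (C₀ + 1)) ^ 2 * (8 : ℝ) ^ k / J * L / T ^ 2
        = C * ((2 * T ^ (C₀ + 1)) ^ 2 / T ^ 2) * L * ((8 : ℝ) ^ k / J) := by ring
      _ = C * (4 * T ^ (2 * C₀)) * L * ((8 : ℝ) ^ k / J) := by rw [hT2C]
      _ ≤ C * (4 * T ^ (2 * C₀)) * L * (8 / T ^ E) :=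
          mul_le_mul_of_nonneg_left e2 (by positivity)
      _ = 32 * C * L * (T ^ (2 * C₀) / T ^ E) := by ring
      _ = 32 * C * (L / T ^ (B + 1)) := by rw [hTB1]; ring
  have hfin : (36 * C + 4) * (L / T ^ (B + 1)) ≤ L / T ^ B := by
    have h1 : L / T ^ B = T * (L / T ^ (B + 1)) := by
      rw [Real.rpow_add hT0, Real.rpow_one]
      field_simp
    rw [h1]
    exact mul_le_mul_of_nonneg_right hT1 (by positivity)
  linarith

end

end Pool.Agent.Lib.MP391708.U
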