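import Pool.Agent.Lib.MP_391708_nt.U.SpecU6a

/-!
# Project U, module WBX: the bound for `Wsum`, explicit form
-/

set_option autoImplicit false

namespace Pool.Agent.Lib.MP391708.U

open Finset Filter Topology Pool.Agent.Lib.MP391708.QPA Pool.Agent.Lib.MP391708.QPA.WB
open scoped Classical

set_option maxHeartbeats 1000000 in
theorem specWBX : SpecWBX := by
  obtain ⟨C₀, hC₀, hratio⟩ := sum_ratio
  obtain ⟨M, hM, hlip⟩ := kB_lip
  refine ⟨36 * C₀ + C₀ * (M + 2), by positivity, ?_⟩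
  intro B K L η e G N J k b s hB hS hsv hη hη4 hk2 hRk hJ1 hG0 hbs hb hvd
  have hk0 : (0 : ℝ) < k := by
    have : (2 : ℝ) ≤ k := by exact_mod_cast hk2
    linarith
  set w : ℝ := (1 / 2 : ℝ) ^ k with hw
  have hw0 : 0 < w := by positivity
  have hw2 : w * 2 ^ k = 1 := by rw [hw, ← mul_pow]; norm_num
  have h2k : (4 : ℝ) ≤ 2 ^ k := by
    calc (4 : ℝ) = 2 ^ 2 := by norm_num
      _ ≤ 2 ^ k := pow_le_pow_right₀ (by norm_num) hk2
  have hw4 : w ≤ 1 / 4 := by nlinarith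
  have hJ0 : (0 : ℝ) < J := by exact_mod_cast hJ1
  set R := √(L / K) with hR
  have hR2k : (2 : ℝ) ^ k ≤ R := hRk
  have hs : ∀ u, 0 ≤ s u := fun u => (abs_nonneg _).trans (hbs u)
  have hL := hS.Lpos
  have hK := hS.Kpos
  have hlg := hS.lg
  have hRT := hS.RT
  have hR0 : 0 < R := by linarith
  have hRK : R ^ 2 * K = L := by
    rw [hR, Real.sq_sqrt (by positivity)]; field_simp
  set D₁ := ⌊w * R⌋₊ with hD₁
  set D₂ := ⌊R / 4⌋₊ with hD₂
  have hwR : 1 ≤ w * R := by nlinarith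
  have hD₁1 : 1 ≤ D₁ := by
    rw [hD₁]; exact (Nat.one_le_floor_iff _).2 hwR
  have hD₁w : (D₁ : ℝ) ≤ w * R := Nat.floor_le (by positivity)
  have hD₂w : (D₂ : ℝ) ≤ R / 4 := Nat.floor_le (by positivity)
  have hD12 : D₁ ≤ D₂ := Nat.floor_mono (by nlinarith)
  have hDd : ∀ d ∈ Ioc D₁ D₂, w * R ≤ d := by
    intro d hd
    have h1 : D₁ + 1 ≤ d := (Finset.mem_Ioc.1 hd).1
    have h2 : ((D₁ : ℝ) + 1) ≤ d := by exact_mod_cast h1
    have h3 := Nat.lt_floor_add_one (w * R)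
    linarith
  have hD2k : D₂ ≤ D₁ * 2 ^ k := by
    have h1 : (D₂ : ℝ) ≤ (D₁ : ℝ) * 2 ^ k := by
      have h3 := Nat.lt_floor_add_one (w * R)
      have h4 : (1 : ℝ) ≤ D₁ := by exact_mod_cast hD₁1
      have h5 : w * R ≤ 2 * D₁ := by linarith
      have h6 : (w * R) * 2 ^ k ≤ 2 * D₁ * 2 ^ k := by gcongr
      have h7 : (w * R) * 2 ^ k = R := by
        calc (w * R) * 2 ^ k = (w * 2 ^ k) * R := by ring
          _ = R := by rw [hw2, one_mul]
      linarith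
    exact_mod_cast h1
  have h8k : (8 : ℝ) ^ k = 1 / w ^ 3 := by
    rw [hw, ← pow_mul, mul_comm k 3, pow_mul, one_div, ← inv_pow]
    norm_num
  -- small d
  have hsmall : ∑ d ∈ Icc 1 D₁, |Wd K L d b| ≤ (36 * B ^ 2 * C₀ * w) * L / (Real.log N) ^ 2 := by
    calc ∑ d ∈ Icc 1 D₁, |Wd K L d b|
        ≤ ∑ d ∈ Icc 1 D₁, 36 * B ^ 2 * √(K * L) / (Real.log N) ^ 2 * ((d : ℝ) / (d.totient : ℝ)) := by
          apply Finset.sum_le_sum
          intro d hd
          rw [Finset.mem_Icc] at hd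
          apply Wd_small hS hsv hB hbs hd.1
          have h1 : (d : ℝ) ≤ D₂ := by exact_mod_cast hd.2.trans hD12
          exact h1.trans hD₂w
      _ = 36 * B ^ 2 * √(K * L) / (Real.log N) ^ 2 * ∑ d ∈ Icc 1 D₁, ((d : ℝ) / (d.totient : ℝ)) := by
          rw [Finset.mul_sum]
      _ ≤ 36 * B ^ 2 * √(K * L) / (Real.log N) ^ 2 * (C₀ * (w * R)) := by
          have h1 := hratio D₁
          have h2 : C₀ * (D₁ : ℝ) ≤ C₀ * (w * R) := by gcongr
          apply mul_le_mul_of_nonneg_left (h1.trans h2) (by positivity)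
      _ = (36 * B ^ 2 * C₀ * w) * (R * √(K * L)) / (Real.log N) ^ 2 := by ring
      _ = (36 * B ^ 2 * C₀ * w) * L / (Real.log N) ^ 2 := by rw [hRT]
  -- large d
  set ε : ℝ := (M + 2) / w ^ 2 * (η * L / J) / L ^ 2 with hε
  have hε0 : 0 ≤ ε := by positivity
  have hlarge1 : ∀ d ∈ Ioc D₁ D₂, |Wd K L d b| ≤ J / L * ∑ i ∈ range J, Qc (pc L η J i) b d
      + ε * (4 * B ^ 2 * L ^ 2 / (Real.log N) ^ 2 * (1 / (d.totient : ℝ))) := by
    intro d hd
    have hd' := Finset.mem_Ioc.1 hd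
    have hd1 : 1 ≤ d := by omega
    have hdR : (d : ℝ) ≤ R / 4 := by
      have h1 : (d : ℝ) ≤ D₂ := by exact_mod_cast hd'.2
      exact h1.trans hD₂w
    have hwd := hDd d hd
    have hdw : w ^ 2 * L ≤ (d : ℝ) ^ 2 * K := by
      rw [← hRK]
      have h1 : (w * R) ^ 2 ≤ (d : ℝ) ^ 2 := by
        apply pow_le_pow_left₀ (by positivity) hwd
      nlinarith
    have h1 := Wd_large (K := K) (ε := ε) (J := J) hbs hL hη.le hη4 hε0 hd1 hJ1 hb (by
      intro i hi j hj u hu v hv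
      have hu' := mem_pc hu
      have hv' := mem_pc hv
      have e1 := xp_succ L η J i
      have e2 := xp_succ L η J j
      have e3 := xp_le hL.le hη.le (J := J) (i := i + 1) (by omega) hJ1
      have e4 := xp_le hL.le hη.le (J := J) (i := j + 1) (by omega) hJ1
      exact ker_diff hM hlip hK hL hw0 (by linarith) hd1 hdw (le_xp hL.le hη.le J i) hu'.1.le
        (by linarith [hu'.2]) (le_xp hL.le hη.le J j) hv'.1.le (by linarith [hv'.2])
        (by nlinarith [hu'.2]) (by nlinarith [hv'.2]))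
    have h2 := S2 hS hsv hB hs hd1 hdR hη4
    have h5 : (0 : ℝ) < d.totient := by exact_mod_cast Nat.totient_pos.2 hd1
    have h3 : 4 * B ^ 2 * L ^ 2 / ((d.totient : ℝ) * (Real.log N) ^ 2)
        = 4 * B ^ 2 * L ^ 2 / (Real.log N) ^ 2 * (1 / (d.totient : ℝ)) := by
      field_simp
    rw [h3] at h2
    have h4 := mul_le_mul_of_nonneg_left h2 hε0
    linarith
  have hlarge : ∑ d ∈ Ioc D₁ D₂, |Wd K L d b| ≤ k * (J : ℝ) ^ 2 * G / L
      + (B ^ 2 * C₀ * (M + 2)) * (8 : ℝ) ^ k / J * (L / (Real.log N) ^ 2) := by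
    refine (Finset.sum_le_sum hlarge1).trans ?_
    rw [Finset.sum_add_distrib, ← Finset.mul_sum, ← Finset.mul_sum, ← Finset.mul_sum, Finset.sum_comm]
    apply add_le_add
    · have h1 : ∀ i ∈ range J, ∑ d ∈ Ioc D₁ D₂, Qc (pc L η J i) b d ≤ k * G := by
        intro i hi
        exact blocks hD₁1 hw hR0.le hD₁w hD2k (hvd i (Finset.mem_range.1 hi))
      calc J / L * ∑ i ∈ range J, ∑ d ∈ Ioc D₁ D₂, Qc (pc L η J i) b d
          ≤ J / L * ∑ i ∈ range J, k * G := by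
            apply mul_le_mul_of_nonneg_left (Finset.sum_le_sum h1) (by positivity)
        _ = k * (J : ℝ) ^ 2 * G / L := by
            rw [Finset.sum_const, Finset.card_range, nsmul_eq_mul]
            ring
    · have h1 := sum_inv_tot hC₀ hratio hw0 hR0 hDd hD₂w
      calc ε * (4 * B ^ 2 * L ^ 2 / (Real.log N) ^ 2 * ∑ d ∈ Ioc D₁ D₂, 1 / (d.totient : ℝ))
          ≤ ε * (4 * B ^ 2 * L ^ 2 / (Real.log N) ^ 2 * (C₀ / (4 * w))) := by gcongr
        _ = η * ((B ^ 2 * C₀ * (M + 2) / w ^ 3) / J) * (L / (Real.log N) ^ 2) := by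
            rw [hε]; field_simp
        _ ≤ 1 * ((B ^ 2 * C₀ * (M + 2) / w ^ 3) / J) * (L / (Real.log N) ^ 2) := by
            gcongr
            linarith
        _ = (B ^ 2 * C₀ * (M + 2)) * (8 : ℝ) ^ k / J * (L / (Real.log N) ^ 2) := by
            rw [h8k]; ring
  -- the total
  have hsum : Wsum K L b = ∑ d ∈ Icc 1 D₁, Wd K L d b + ∑ d ∈ Ioc D₁ D₂, Wd K L d b := by
    unfold Wsum
    rw [← Finset.sum_union]
    · apply Finset.sum_congr _ (fun _ _ => rfl)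
      ext d
      simp only [Finset.mem_union, Finset.mem_Icc, Finset.mem_Ioc]
      constructor
      · rintro ⟨h1, h2⟩
        by_cases h3 : d ≤ D₁
        · exact Or.inl ⟨h1, h3⟩
        · exact Or.inr ⟨by omega, h2⟩
      · rintro (⟨h1, h2⟩ | ⟨h1, h2⟩)
        · exact ⟨h1, h2.trans hD12⟩
        · exact ⟨by omega, h2⟩
    · rw [Finset.disjoint_left]
      intro d h1 h2
      rw [Finset.mem_Icc] at h1
      rw [Finset.mem_Ioc] at h2
      omega
  rw [hsum]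
  calc |∑ d ∈ Icc 1 D₁, Wd K L d b + ∑ d ∈ Ioc D₁ D₂, Wd K L d b|
      ≤ |∑ d ∈ Icc 1 D₁, Wd K L d b| + |∑ d ∈ Ioc D₁ D₂, Wd K L d b| := abs_add_le _ _
    _ ≤ ∑ d ∈ Icc 1 D₁, |Wd K L d b| + ∑ d ∈ Ioc D₁ D₂, |Wd K L d b| :=
        add_le_add (Finset.abs_sum_le_sum_abs _ _) (Finset.abs_sum_le_sum_abs _ _)
    _ ≤ (36 * B ^ 2 * C₀ * w) * L / (Real.log N) ^ 2 + (k * (J : ℝ) ^ 2 * G / L
      + (B ^ 2 * C₀ * (M + 2)) * (8 : ℝ) ^ k / J * (L / (Real.log N) ^ 2)) :=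
        add_le_add hsmall hlarge
    _ ≤ (36 * C₀ + C₀ * (M + 2)) * B ^ 2 * w * L / (Real.log N) ^ 2 + k * (J : ℝ) ^ 2 * G / L
      + (36 * C₀ + C₀ * (M + 2)) * B ^ 2 * (8 : ℝ) ^ k / J * L / (Real.log N) ^ 2 := by
        have e1 : (36 * B ^ 2 * C₀ * w) * L / (Real.log N) ^ 2 ≤
            (36 * C₀ + C₀ * (M + 2)) * B ^ 2 * w * L / (Real.log N) ^ 2 := by
          have : (36 * C₀ + C₀ * (M + 2)) * B ^ 2 * w * L / (Real.log N) ^ 2 =
            (36 * B ^ 2 * C₀ * w) * L / (Real.log N) ^ 2 +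
              (C₀ * (M + 2)) * B ^ 2 * w * L / (Real.log N) ^ 2 := by ring
          rw [this]
          have : 0 ≤ (C₀ * (M + 2)) * B ^ 2 * w * L / (Real.log N) ^ 2 := by positivity
          linarith
        have e2 : (B ^ 2 * C₀ * (M + 2)) * (8 : ℝ) ^ k / J * (L / (Real.log N) ^ 2) ≤
            (36 * C₀ + C₀ * (M + 2)) * B ^ 2 * (8 : ℝ) ^ k / J * L / (Real.log N) ^ 2 := by
          have : (36 * C₀ + C₀ * (M + 2)) * B ^ 2 * (8 : ℝ) ^ k / J * L / (Real.log N) ^ 2 =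
            (B ^ 2 * C₀ * (M + 2)) * (8 : ℝ) ^ k / J * (L / (Real.log N) ^ 2) +
              (36 * C₀) * B ^ 2 * (8 : ℝ) ^ k / J * L / (Real.log N) ^ 2 := by ring
          rw [this]
          have : 0 ≤ (36 * C₀) * B ^ 2 * (8 : ℝ) ^ k / J * L / (Real.log N) ^ 2 := by positivity
          linarith
        linarith

end Pool.Agent.Lib.MP391708.U
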