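import Pool.Agent.Lib.MP_391708_nt.QPA.LS
import Pool.Agent.Lib.MP_391708_nt.QPA.FL
import Pool.Agent.Lib.MP_391708_nt.U.TPH
import Pool.Agent.Lib.MP_391708_nt.U.BADU
import Pool.Agent.Lib.MP_391708_nt.U.NCC
import Pool.Agent.Lib.MP_391708_nt.U.LSD
import Pool.Agent.Lib.MP_391708_nt.U.AGB
import Pool.Agent.Lib.MP_391708_nt.U.BDHF
import Pool.Agent.Lib.MP_391708_nt.U.BDHU
import Pool.Agent.Lib.MP_391708_nt.U.WBX
import Pool.Agent.Lib.MP_391708_nt.U.WBU
import Pool.Agent.Lib.MP_391708_nt.U.RCH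
import Pool.Agent.Lib.MP_391708_nt.U.BALU

/-! # Project U, part U6a, without hypotheses -/

set_option autoImplicit false

namespace Pool.Agent.Lib.MP391708.U

theorem bdhu : SpecBDHU :=
  specBDHU (specBDHF specTPH specBADU specNCC (specAGB specBADU (specLSD QPA.specLS)))

theorem wbu : SpecWBU := specWBU bdhu specWBX

theorem rch : SpecRCH := specRCH QPA.specFL

theorem balu : SpecBALU := specBALU rch

end Pool.Agent.Lib.MP391708.U
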