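import Pool.Agent.Lib.MP_391708_nt.U.UNI
import Pool.Agent.Lib.MP_391708_nt.U.FINB

/-!
# UNIR: all the scales at once, the range `|a| ≤ N (log N)^(1/4)`, `N ≤ |a|^(6/5-δ)`
-/

set_option autoImplicit false

namespace Pool.Agent.Lib.MP391708.U

open Finset Filter Topology Pool.Agent.Lib.MP391708.QPA
open scoped Classical

/-- UNIR (from FINBX, LI): all the scales `N`, `|a| ≤ N (log N)^(1/4)`, `N ≤ |a|^(6/5-δ)`. -/
def SpecUNIR : Prop := ∀ δ ε B : ℝ, 0 < δ → δ < 1 / 5 → 0 < ε → 0 < B → ∃ A₀ : ℕ, ∀ A : ℕ, A₀ ≤ A →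
  exc A (fun a => (A : ℝ) / 2 < |(a : ℝ)| → ∃ h : ℝ, 0 < h ∧ IsC a h ∧
    ∀ N : ℕ, |(a : ℝ)| ≤ N * (Real.log N) ^ (1 / 4 : ℝ) → (N : ℝ) ≤ |(a : ℝ)| ^ (6 / 5 - δ) → Good1 ε N N a h)
    ≤ A / (Real.log A) ^ B

namespace UNIRM

open UNIM

lemma ev_log : ∃ M₀ : ℕ, ∀ M : ℕ, M₀ ≤ M →
    4 * (Real.log (2 * (M : ℝ))) ^ (1 / 4 : ℝ) ≤ √(Real.log M) := by
  have hlog : Tendsto (fun N : ℕ => Real.log (N : ℝ)) atTop atTop :=
    Real.tendsto_log_atTop.comp tendsto_natCast_atTop_atTop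
  have h3 : Tendsto (fun N : ℕ => (Real.log (N : ℝ)) ^ (1 / 4 : ℝ)) atTop atTop :=
    (tendsto_rpow_atTop (by norm_num)).comp hlog
  have h4 := (h3.eventually_ge_atTop 8).and (eventually_ge_atTop 2)
  rw [eventually_atTop] at h4
  obtain ⟨M₀, hM₀⟩ := h4
  refine ⟨M₀, fun M hM => ?_⟩
  obtain ⟨k1, k2⟩ := hM₀ M hM
  have hM2 : (2 : ℝ) ≤ M := by exact_mod_cast k2
  have hl : 0 < Real.log M := Real.log_pos (by linarith)
  have e1 : Real.log (2 * (M : ℝ)) ≤ 2 * Real.log M := by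
    rw [Real.log_mul (by norm_num) (by positivity)]
    have := Real.log_le_log (by norm_num) hM2
    linarith
  have e0 : 0 ≤ Real.log (2 * (M : ℝ)) := Real.log_nonneg (by linarith)
  have e2 : (Real.log (2 * (M : ℝ))) ^ (1 / 4 : ℝ) ≤ 2 * (Real.log M) ^ (1 / 4 : ℝ) := by
    calc (Real.log (2 * (M : ℝ))) ^ (1 / 4 : ℝ) ≤ (2 * Real.log M) ^ (1 / 4 : ℝ) :=
          Real.rpow_le_rpow e0 e1 (by norm_num)
      _ = 2 ^ (1 / 4 : ℝ) * (Real.log M) ^ (1 / 4 : ℝ) := Real.mul_rpow (by norm_num) hl.le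
      _ ≤ 2 * (Real.log M) ^ (1 / 4 : ℝ) := by
          apply mul_le_mul_of_nonneg_right _ (by positivity)
          calc (2 : ℝ) ^ (1 / 4 : ℝ) ≤ 2 ^ (1 : ℝ) :=
                Real.rpow_le_rpow_of_exponent_le (by norm_num) (by norm_num)
            _ = 2 := Real.rpow_one _
  have e3 : √(Real.log M) = (Real.log M) ^ (1 / 4 : ℝ) * (Real.log M) ^ (1 / 4 : ℝ) := by
    rw [← Real.rpow_add hl, Real.sqrt_eq_rpow]
    norm_num
  rw [e3]
  have h5 : 0 ≤ (Real.log M) ^ (1 / 4 : ℝ) := by positivity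
  nlinarith

lemma log_quarter_le {N : ℕ} (h : 1 ≤ N) : (Real.log N) ^ (1 / 4 : ℝ) ≤ N := by
  have h1 : (1 : ℝ) ≤ N := by exact_mod_cast h
  have h0 : 0 ≤ Real.log N := Real.log_nonneg h1
  have h2 := Real.log_le_sub_one_of_pos (show (0 : ℝ) < N by linarith)
  rcases le_total (Real.log N) 1 with h3 | h3
  · exact (Real.rpow_le_one h0 h3 (by norm_num)).trans h1
  · calc (Real.log N) ^ (1 / 4 : ℝ) ≤ (Real.log N) ^ (1 : ℝ) :=
          Real.rpow_le_rpow_of_exponent_le h3 (by norm_num)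
      _ = Real.log N := Real.rpow_one _
      _ ≤ N := by linarith

end UNIRM

open UNIM UNIRM in
theorem specUNIR (hFINB : SpecFINBX) (hLI : SpecLI) : SpecUNIR := by
  intro δ ε B hδ hδ5 hε hB
  -- parameters
  set τ : ℝ := 6 / 5 - δ with hτ
  have hτ1 : 1 < τ := by rw [hτ]; linarith
  have hτ2 : τ < 6 / 5 := by rw [hτ]; linarith
  set θ : ℝ := (5 / 6 + 1 / τ) / 2 with hθ
  have hτi : 5 / 6 < 1 / τ := by
    rw [lt_div_iff₀ (by linarith)]; linarith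
  have hθ1 : 5 / 6 < θ := by rw [hθ]; linarith
  have hθ2 : θ < 1 / τ := by rw [hθ]; linarith
  have hθτ : τ * θ < 1 := by
    rw [lt_div_iff₀ (by linarith)] at hθ2; linarith
  set ν : ℝ := min ε 1 / 2 with hν
  have hν0 : 0 < ν := by rw [hν]; positivity
  have hν1 : ν ≤ 1 / 2 := by rw [hν]; have := min_le_right ε 1; linarith
  have hν2 : ν ≤ ε / 2 := by rw [hν]; have := min_le_left ε 1; linarith
  set η : ℝ := ν / 10 with hη
  have hη0 : 0 < η := by rw [hη]; positivity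
  have hη1 : η ≤ 1 / 20 := by rw [hη]; linarith
  obtain ⟨N₀, hN₀⟩ := hFINB θ (ε / 4) (B + 2) hθ1 (by positivity) (by linarith)
  obtain ⟨N₁, hN₁⟩ := Li_ratio hLI hν0 hν1
  obtain ⟨A₁, hA₁⟩ := grid_card hη0
  obtain ⟨M₀, hM₀⟩ := ev_log
  -- `(2 A^τ)^θ ≤ A` for large `A`
  have hpow : ∀ᶠ A : ℕ in atTop, (2 * (A : ℝ) ^ τ) ^ θ ≤ A := by
    have h1 : Tendsto (fun A : ℕ => (A : ℝ) ^ (1 - τ * θ)) atTop atTop :=
      (tendsto_rpow_atTop (by linarith)).comp tendsto_natCast_atTop_atTop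
    filter_upwards [h1.eventually_ge_atTop ((2 : ℝ) ^ θ), eventually_ge_atTop 1] with A h2 h3
    have hA1 : (1 : ℝ) ≤ A := by exact_mod_cast h3
    have hA0 : (0 : ℝ) < A := by linarith
    rw [Real.mul_rpow (by norm_num) (by positivity), ← Real.rpow_mul hA0.le]
    calc (2 : ℝ) ^ θ * (A : ℝ) ^ (τ * θ) ≤ (A : ℝ) ^ (1 - τ * θ) * (A : ℝ) ^ (τ * θ) :=
          mul_le_mul_of_nonneg_right h2 (by positivity)
      _ = A := by rw [← Real.rpow_add hA0]; simp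
  rw [eventually_atTop] at hpow
  obtain ⟨A₂, hA₂⟩ := hpow
  set R : ℕ := max N₀ (max N₁ (max M₀ 10)) with hR
  refine ⟨max A₁ (max A₂ ((5 * R) ^ 2)), fun A hA => ?_⟩
  have g1 : A₁ ≤ A := (le_max_left _ _).trans hA
  have hA' := (le_max_right _ _).trans hA
  have g2 : A₂ ≤ A := (le_max_left _ _).trans hA'
  have g3 : (5 * R) ^ 2 ≤ A := (le_max_right _ _).trans hA'
  have r0 : N₀ ≤ R := le_max_left _ _
  have r1 : N₁ ≤ R := (le_max_left _ _).trans (le_max_right _ _)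
  have r2 : M₀ ≤ R := (le_max_left _ _).trans ((le_max_right _ _).trans (le_max_right _ _))
  have r3 : 10 ≤ R := (le_max_right _ _).trans ((le_max_right _ _).trans (le_max_right _ _))
  have g5 : 100 ≤ A := by nlinarith
  have g6 : ∀ M : ℕ, A ≤ (5 * M) ^ 2 → R ≤ M := by
    intro M hM
    by_contra hc
    rw [not_le] at hc
    have : (5 * M) ^ 2 < (5 * R) ^ 2 := Nat.pow_lt_pow_left (by omega) (by norm_num)
    omega
  have g7 : ∀ M : ℕ, (A : ℝ) ≤ (5 * (M : ℝ)) ^ 2 → R ≤ M := fun M hM => g6 M (by exact_mod_cast hM)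
  obtain ⟨J, hJ1, hJ2⟩ := hA₁ A g1
  have hAR : (100 : ℝ) ≤ A := by exact_mod_cast g5
  have hAτ : (A : ℝ) ≤ (A : ℝ) ^ τ := by
    calc (A : ℝ) = (A : ℝ) ^ (1 : ℝ) := (Real.rpow_one _).symm
      _ ≤ _ := Real.rpow_le_rpow_of_exponent_le (by linarith) hτ1.le
  have hAτ2 : (A : ℝ) ^ τ ≤ (A : ℝ) ^ (2 : ℝ) :=
    Real.rpow_le_rpow_of_exponent_le (by linarith) (by linarith)
  -- the bad sets
  let Q : ℕ → ℤ → Prop := fun j a => ((A : ℝ) ≤ G η j * √(Real.log (G η j)) ∧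
      (G η j : ℝ) ≤ 2 * (A : ℝ) ^ τ ∧ R ≤ G η j) →
    ∃ h : ℝ, 0 < h ∧ IsC a h ∧ Good1 (ε / 4) (G η j) (G η j) a h
  have hQ : ∀ j, exc A (Q j) ≤ A / (Real.log A) ^ (B + 2) := by
    intro j
    have hl : 0 < Real.log (A : ℝ) := Real.log_pos (by linarith)
    by_cases hc : (A : ℝ) ≤ G η j * √(Real.log (G η j)) ∧
      (G η j : ℝ) ≤ 2 * (A : ℝ) ^ τ ∧ R ≤ G η j
    · have h1 := hN₀ (G η j) A (r0.trans hc.2.2) (by
        refine le_trans (Real.rpow_le_rpow (Nat.cast_nonneg _) hc.2.1 (by linarith)) (hA₂ A g2))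
        hc.1
      exact le_trans (exc_mono A (fun a _ h _ => h)) h1
    · rw [exc_zero A (P := Q j) (fun a _ h' => absurd h' hc)]
      positivity
  -- the union
  have hU : exc A (fun a => (A : ℝ) / 2 < |(a : ℝ)| → ∃ h : ℝ, 0 < h ∧ IsC a h ∧
      ∀ N : ℕ, |(a : ℝ)| ≤ N * (Real.log N) ^ (1 / 4 : ℝ) → (N : ℝ) ≤ |(a : ℝ)| ^ (6 / 5 - δ) →
        Good1 ε N N a h)
      ≤ ∑ j ∈ range (J + 1), exc A (Q j) := by
    apply exc_union
    intro a haI hall ha2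
    have haA : |(a : ℝ)| ≤ A := by
      have h1 := haI
      unfold IA at h1
      rw [Finset.mem_Icc] at h1
      rw [abs_le]
      exact ⟨by exact_mod_cast h1.1, by exact_mod_cast h1.2⟩
    -- the two grid points around `N`
    have key : ∀ N : ℕ, |(a : ℝ)| ≤ N * (Real.log N) ^ (1 / 4 : ℝ) → (N : ℝ) ≤ |(a : ℝ)| ^ (6 / 5 - δ) →
        ∃ M K : ℕ, 2 ≤ M ∧ M ≤ N ∧
        N ≤ K ∧ Li K ≤ (1 + ν) * Li M ∧ (∃ h : ℝ, 0 < h ∧ IsC a h ∧ Good1 (ε / 4) M M a h) ∧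
        (∃ h : ℝ, 0 < h ∧ IsC a h ∧ Good1 (ε / 4) K K a h) := by
      intro N hN1 hN2
      have hNA : (A : ℝ) / 2 < N * (Real.log N) ^ (1 / 4 : ℝ) := lt_of_lt_of_le ha2 hN1
      have hN1' : 1 ≤ N := by
        rcases Nat.eq_zero_or_pos N with h0 | h0
        · rw [h0] at hNA
          simp at hNA
          linarith
        · exact h0
      have hNpos : (1 : ℝ) ≤ N := by exact_mod_cast hN1'
      have hNsq : (A : ℝ) ≤ 2 * (N : ℝ) ^ 2 := by
        have := log_quarter_le hN1'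
        nlinarith
      have hNτ : (N : ℝ) ≤ (A : ℝ) ^ τ :=
        hN2.trans (Real.rpow_le_rpow (abs_nonneg _) haA (by rw [← hτ]; linarith))
      obtain ⟨j, hj1, hj2, hj3⟩ := grid hη0 hN1'
      have hj2' : (N : ℝ) ≤ G η (j + 1) := by exact_mod_cast hj2
      have hj1' : (G η j : ℝ) ≤ N := by exact_mod_cast hj1
      have hG1 : 1 ≤ G η j := Nat.one_le_iff_ne_zero.mpr (by
        have : (1 : ℝ) ≤ (1 + η) ^ j := one_le_pow₀ (by linarith)
        have := (this.trans (Nat.le_ceil _) : (1 : ℝ) ≤ (⌈(1 + η) ^ j⌉₊ : ℝ))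
        intro h0
        unfold G at h0
        rw [h0] at this
        norm_num at this)
      have hG1' : (1 : ℝ) ≤ G η j := by exact_mod_cast hG1
      have hN3G : (N : ℝ) ≤ 3 * G η j := by nlinarith
      have hRM : R ≤ G η j := by
        apply g7
        nlinarith
      have hRM' : (10 : ℝ) ≤ G η j := by exact_mod_cast r3.trans hRM
      have hN2G : (N : ℝ) ≤ 2 * G η j := by nlinarith
      have hGK : (G η (j + 1) : ℝ) ≤ 2 * (A : ℝ) ^ τ := by nlinarith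
      have hGM : (G η j : ℝ) ≤ 2 * (A : ℝ) ^ τ := by linarith
      have hAM : (A : ℝ) ≤ G η j * √(Real.log (G η j)) := by
        have e1 : (Real.log N) ^ (1 / 4 : ℝ) ≤ (Real.log (2 * (G η j : ℝ))) ^ (1 / 4 : ℝ) :=
          Real.rpow_le_rpow (Real.log_nonneg hNpos) (Real.log_le_log (by linarith) hN2G)
            (by norm_num)
        have e2 := hM₀ (G η j) (r2.trans hRM)
        have e3 : (N : ℝ) * (Real.log N) ^ (1 / 4 : ℝ)
            ≤ (2 * G η j) * (Real.log (2 * (G η j : ℝ))) ^ (1 / 4 : ℝ) :=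
          mul_le_mul hN2G e1 (Real.rpow_nonneg (Real.log_nonneg hNpos) _) (by linarith)
        have e4 : (G η j : ℝ) * (4 * (Real.log (2 * (G η j : ℝ))) ^ (1 / 4 : ℝ))
            ≤ G η j * √(Real.log (G η j)) :=
          mul_le_mul_of_nonneg_left e2 (by linarith)
        linarith
      have hMK : (G η j : ℝ) ≤ G η (j + 1) := hj1'.trans hj2'
      have hAK : (A : ℝ) ≤ G η (j + 1) * √(Real.log (G η (j + 1))) := by
        refine hAM.trans (mul_le_mul hMK ?_ (Real.sqrt_nonneg _) (by linarith))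
        exact Real.sqrt_le_sqrt (Real.log_le_log (by linarith) hMK)
      refine ⟨G η j, G η (j + 1), by omega, hj1, hj2, ?_, ?_, ?_⟩
      · exact hN₁ _ _ (r1.trans hRM) (hj1.trans hj2) hj3
      · exact hall j (Finset.mem_range_succ_iff.mpr (hJ2 j (hGM.trans (by linarith))))
          ⟨hAM, hGM, hRM⟩
      · exact hall (j + 1) (Finset.mem_range_succ_iff.mpr
          (hJ2 (j + 1) (hGK.trans (by linarith)))) ⟨hAK, hGK, hRM.trans (hj1.trans hj2)⟩
    -- the constant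
    have habs : ((a.natAbs : ℕ) : ℝ) = |(a : ℝ)| := by
      rw [Nat.cast_natAbs]; push_cast; rfl
    have ha1 : (1 : ℝ) ≤ |(a : ℝ)| := by linarith
    have hlog1 : 1 ≤ Real.log ((a.natAbs : ℕ) : ℝ) := by
      rw [habs, Real.le_log_iff_exp_le (by linarith)]
      have := Real.exp_one_lt_d9
      linarith
    obtain ⟨-, -, -, -, -, -, ⟨h, hh, hI, -⟩, -⟩ := key a.natAbs (by
      have h1 : 1 ≤ (Real.log ((a.natAbs : ℕ) : ℝ)) ^ (1 / 4 : ℝ) :=
        Real.one_le_rpow hlog1 (by norm_num)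
      have h2 : 0 ≤ ((a.natAbs : ℕ) : ℝ) := Nat.cast_nonneg _
      nlinarith [habs]) (by
      rw [habs]
      calc |(a : ℝ)| = |(a : ℝ)| ^ (1 : ℝ) := (Real.rpow_one _).symm
        _ ≤ _ := Real.rpow_le_rpow_of_exponent_le ha1 (by rw [← hτ]; linarith))
    refine ⟨h, hh, hI, fun N hN1 hN2 => ?_⟩
    obtain ⟨M, K, hM2, hMN, hNK, hL, ⟨h', -, hI', hg'⟩, ⟨h'', -, hI'', hg''⟩⟩ := key N hN1 hN2
    obtain rfl := isC_unique hI hI'
    obtain rfl := isC_unique hI hI''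
    exact interp hε hν2 hν1 hh hM2 hMN hNK hL hg' hg''
  refine hU.trans ((Finset.sum_le_sum (fun j _ => hQ j)).trans ?_)
  rw [Finset.sum_const, Finset.card_range, nsmul_eq_mul]
  have hl : 0 < Real.log (A : ℝ) := Real.log_pos (by linarith)
  rw [Real.rpow_add hl]
  have hlB : 0 < (Real.log (A : ℝ)) ^ B := Real.rpow_pos_of_pos hl _
  have hl2 : 0 < (Real.log (A : ℝ)) ^ (2 : ℝ) := Real.rpow_pos_of_pos hl _
  push_cast
  calc ((J : ℝ) + 1) * (A / ((Real.log A) ^ B * (Real.log A) ^ (2 : ℝ)))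
      ≤ (Real.log A) ^ (2 : ℝ) * (A / ((Real.log A) ^ B * (Real.log A) ^ (2 : ℝ))) :=
        mul_le_mul_of_nonneg_right hJ1 (by positivity)
    _ = A / (Real.log A) ^ B := by field_simp

end Pool.Agent.Lib.MP391708.U
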