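import Pool.Agent.Lib.MP_391708_nt.QPA.All
import Pool.Agent.Lib.MP_391708_nt.U.U1
import Pool.Agent.Lib.MP_391708_nt.U.U2
import Pool.Agent.Lib.MP_391708_nt.U.U6a
import Pool.Agent.Lib.MP_391708_nt.U.R.AllR
import Pool.Agent.Lib.MP_391708_nt.U.GMAXU
import Pool.Agent.Lib.MP_391708_nt.U.PRODU
import Pool.Agent.Lib.MP_391708_nt.U.F6U
import Pool.Agent.Lib.MP_391708_nt.U.IEU
import Pool.Agent.Lib.MP_391708_nt.U.TLU
import Pool.Agent.Lib.MP_391708_nt.U.MOBU
import Pool.Agent.Lib.MP_391708_nt.U.MTBU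
import Pool.Agent.Lib.MP_391708_nt.U.RHOU
import Pool.Agent.Lib.MP_391708_nt.U.NSFU
import Pool.Agent.Lib.MP_391708_nt.U.TWOU
import Pool.Agent.Lib.MP_391708_nt.U.MTAU
import Pool.Agent.Lib.MP_391708_nt.U.TIU
import Pool.Agent.Lib.MP_391708_nt.U.BLK2U
import Pool.Agent.Lib.MP_391708_nt.U.TIIU
import Pool.Agent.Lib.MP_391708_nt.U.BLKU
import Pool.Agent.Lib.MP_391708_nt.U.TAILU
import Pool.Agent.Lib.MP_391708_nt.U.FINB
import Pool.Agent.Lib.MP_391708_nt.U.UNIR
import Pool.Agent.Lib.MP_391708_nt.U.MAINUR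

/-!
# Project U (MP_391708): assembly
-/

set_option autoImplicit false

namespace Pool.Agent.Lib.MP391708.U

open Pool.Agent.Lib.MP391708.QPA

/-- one block -/
theorem blku : SpecBLKU := by
  have hBT := specBT specSELB
  have hRSUM := specRSUM hBT
  have hQG := specQG
  have hRAV := specRAV hQG
  have hSML := specSML specPVA
  have hLRG := specLRG specPVE
  have hCOUNT := specCOUNT
  have hSEC := specSEC (specKER (specBIL specDLS) specPOI hCOUNT) hCOUNT
  have hG := specGMAXU specRHO2 specRHOP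
  have hTI := specTIU (specFLA specFL specRHO1 specRHOM specRHOP specRHO2 specRHOS specRHOC)
    (specFLB specFL) (specPRODU specRHOP specPVA) (specMOBU hSML specRHOD)
    (specRHOU hSML hLRG hRAV specRHOD hRSUM) hG specWMER hRSUM
  have hBLK2 := specBLK2U (specTWOU hSEC (specFIRST hRAV hBT)) wbu balu equ
    (specMTAU specFL specRHOC specRHOM specRHOP specRHO2 hRAV)
    (specMTBU hSML hLRG hRAV specRHOD) specSHM specFFB hG
  exact specBLKU hTI specT2 (specTIIU hBLK2 specFFB hG) (winu_of R.rootw) (specWINM hBT hRSUM)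
    (specNSFU hQG) specNSFM hG

/-- one scale -/
theorem finbx : SpecFINBX := by
  have hG := specGMAXU specRHO2 specRHOP
  have hF6 := specF6U specEUL (specCONV specEUL specRHOP specRHO2) specPVA specPVE specRHOP
    specRHO2 (specTLU specIEU)
  have hTAIL := specTAILU specFL specRHO1 specRHOM specRHOP specRHO2 specRHOS specRHOC specWMER
    (specPRODU specRHOP specPVA) hG
  exact specFINBX blku hF6 hTAIL hG (specMODP (specPNT specPNTAP)) specLI specRHOP specRHO2

/-- the theorem -/
theorem mainu : SpecMAINUR := specMAINUR (specUNIR finbx specLI)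

end Pool.Agent.Lib.MP391708.U
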