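import Pool.Agent.Lib.MP_391708_nt.U.SpecU
import Pool.Agent.Lib.MP_391708_nt.QPA.H.SpecH

/-!
# Project UK (MP_391708): Type II in the wider range `θ > 1/2`, `κ ≥ 2/3`, `θ + κ > 3/2`

The Props of `SpecU.lean` with `κ` in place of `2/3` and `1/2 < θ` in place of `5/6 < θ`.
-/

set_option autoImplicit false

namespace Pool.Agent.Lib.MP391708.U

open Finset Filter Topology Pool.Agent.Lib.MP391708.QPA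
open scoped Classical

noncomputable section

/-- TWOV (from SEC, FIRSTH). -/
def SpecTWOV : Prop := ∀ θ κ e e0 B : ℝ, 1 / 2 < θ → 2 / 3 ≤ κ → 3 / 2 < θ + κ → 0 < e → 0 < e0 → 0 < B →
  ∃ C σ : ℝ, 0 < C ∧ 0 < σ ∧ ∃ N₀ : ℕ, ∀ N A : ℕ, N₀ ≤ N → Adm θ N A → ∀ K L : ℝ,
  (N : ℝ) ^ κ ≤ K → K ≤ (N : ℝ) ^ (1 - e) → (N : ℝ) ^ 2 / 2 ≤ K * L → K * L ≤ 5 * (N : ℝ) ^ 2 →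
  ∀ α b : ℕ → ℝ, (∀ k, |α k| ≤ B * rInd ((N : ℝ) ^ e0) k) →
  (∀ k, α k ≠ 0 → K < (k : ℝ) ∧ (k : ℝ) ≤ 5 / 4 * K) →
  (∀ u, |b u| ≤ Real.log N) → (∀ u, b u ≠ 0 → Odd u ∧ L < (u : ℝ) ∧ (u : ℝ) ≤ 5 / 4 * L) →
  (∑ a ∈ IA A, |bil (8 * N) a α b|) ^ 2 ≤ C * (A : ℝ) ^ 2 * K * (|Wsum K L b| + L * (N : ℝ) ^ (-σ))

/-- MTAV: MTAU for `θ > 1/2` (RAV with the exponent `min (θ - 1/2) (1/10)`, as in `QPA/H/MTAH.lean`). -/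
def SpecMTAV : Prop := ∀ θ e e0 B B₁ E H W : ℝ, 1 / 2 < θ → 0 < e → 0 < e0 → 0 < B → 0 < B₁ → 0 < E →
  0 < H → 0 < W → ∃ N₀ : ℕ, ∀ N A J : ℕ, N₀ ≤ N → Adm θ N A → 1 ≤ J → (J : ℝ) ≤ (Real.log N) ^ H →
  ∀ K L η : ℝ, (Real.log N) ^ (-E) ≤ η → η ≤ 1 / 4 →
  (N : ℝ) ^ (1 / 2 : ℝ) ≤ K → K ≤ (N : ℝ) ^ (1 - e) → (N : ℝ) ^ 2 / 2 ≤ K * L →
  K * L ≤ 5 * (N : ℝ) ^ 2 → ∀ α β : ℕ → ℝ, (∀ k, |α k| ≤ B * rInd ((N : ℝ) ^ e0) k) →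
  (∀ k, α k ≠ 0 → K < (k : ℝ) ∧ (k : ℝ) ≤ 5 / 4 * K) → (∀ l, |β l| ≤ B) →
  ∑ a ∈ IA A, |bil (8 * N) a α (sharp (wN W N) L η J β)
      - Gw (wN W N) a * ∑ i ∈ range J, Dav L η J β i * ∑ k ∈ Ioc ⌊K⌋₊ ⌊5 / 4 * K⌋₊, α k * ((rho a k : ℝ) / k)
        * (√(k * (L * (1 + η * (i + 1) / J))) - √(k * (L * (1 + η * i / J))))|
    ≤ A * N / (Real.log N) ^ B₁

/-- MTBV: MTBU for `θ > 1/2` (BKH in place of `MTB.block`, RAV with the exponent `min (θ - 1/2) (1/10)`, as in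
`QPA/H/MTBH.lean`). -/
def SpecMTBV : Prop := ∀ (θ e e0 : ℝ) (Q : ℕ) (c : Multiset ℕ), 1 / 2 < θ → 0 < e → 0 < e0 →
  e0 ≤ 1 / 10 → 1 ≤ Q → (∀ i ∈ c, Q ≤ i) → ∃ σ : ℝ, 0 < σ ∧ ∃ N₀ : ℕ, ∀ N A : ℕ, N₀ ≤ N →
  Adm θ N A → NearA N A (e0 / Q) e c → ∀ K η : ℝ, 0 < η → η ≤ 1 / 4 → (N : ℝ) ^ (1 / 2 : ℝ) ≤ K →
  K ≤ (N : ℝ) ^ (1 - e) →
    ∑ a ∈ IA A, |∑ k ∈ Ioc ⌊K⌋₊ ⌊(1 + η) * K⌋₊, FF N (e0 / Q) c k * ((rho a k : ℝ) - 1) / √(k : ℝ)|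
      ≤ A * √K * (N : ℝ) ^ (-σ)

/-- BLK2V (from TWOV, WBU, BALU, EQU, MTAV, MTBV, SHM, FFB, GMAXU). -/
def SpecBLK2V : Prop := ∀ (θ κ e e0 E B : ℝ) (Q : ℕ) (c₁ c₂ : Multiset ℕ), 1 / 2 < θ → 2 / 3 ≤ κ →
  3 / 2 < θ + κ → 0 < e → 0 < e0 →
  e0 ≤ 1 / 10 → 0 < E → 0 < B → 1 ≤ Q → (∀ i ∈ c₁, Q ≤ i) → (∀ i ∈ c₂, Q ≤ i) → c₂ ≠ 0 →
  ∃ W₀ : ℝ, 0 < W₀ ∧ ∀ W : ℝ, W₀ ≤ W → ∃ N₀ : ℕ, ∀ N A : ℕ, N₀ ≤ N → Adm θ N A →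
  NearA N A (e0 / Q) e c₁ → ∀ K L η : ℝ, (Real.log N) ^ (-E) ≤ η → η ≤ 1 / 4 →
  (N : ℝ) ^ κ ≤ K → K ≤ (N : ℝ) ^ (1 - e) → (N : ℝ) ^ 2 / 2 ≤ K * L → K * L ≤ 5 * (N : ℝ) ^ 2 →
  ∑ a ∈ IA A, |bil (8 * N) a (cut K ((1 + η) * K) (fun m => FF N (e0 / Q) c₁ m))
        (cut L ((1 + η) * L) (fun m => FF N (e0 / Q) c₂ m))
      - Gw (wN W N) a * ∑ k ∈ Ioc ⌊K⌋₊ ⌊(1 + η) * K⌋₊, ∑ l ∈ Ioc ⌊L⌋₊ ⌊(1 + η) * L⌋₊,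
          FF N (e0 / Q) c₁ k * FF N (e0 / Q) c₂ l / (2 * √((k : ℝ) * l))|
    ≤ A * N / (Real.log N) ^ B

/-- TIIV (from BLK2V, FFB, GMAXU): the Type II theorem, `MidK κ`. -/
def SpecTIIV : Prop := ∀ (θ κ e e0 B : ℝ) (Q : ℕ) (c₁ c₂ : Multiset ℕ), 1 / 2 < θ → 2 / 3 ≤ κ →
  3 / 2 < θ + κ → 0 < e → 0 < e0 →
  e0 ≤ 1 / 10 → 0 < B → 1 ≤ Q → (∀ i ∈ c₁, Q ≤ i) → (∀ i ∈ c₂, Q ≤ i) → MidK κ (e0 / Q) e c₁ →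
  ∃ W₀ : ℝ, 0 < W₀ ∧ ∀ W : ℝ, W₀ ≤ W → ∃ N₀ : ℕ, ∀ N A : ℕ, N₀ ≤ N → Adm θ N A →
  NearA N A (e0 / Q) e c₁ →
  ∑ a ∈ IA A, |cnt N a (fun m => FF N (e0 / Q) (c₁ + c₂) m)
      - Gw (wN W N) a * model N (fun m => FF N (e0 / Q) (c₁ + c₂) m)| ≤ A * N / (Real.log N) ^ B

end

end Pool.Agent.Lib.MP391708.U
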