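import Pool.Agent.Lib.MP_391708_nt.U.BLK2U
import Pool.Agent.Lib.MP_391708_nt.U.SpecV

/-!
# Project UK, module BLK2V: one block of the Type II sums, `θ + κ > 3/2`
-/

set_option autoImplicit false

namespace Pool.Agent.Lib.MP391708.U

open Finset Filter Topology Pool.Agent.Lib.MP391708.QPA
open scoped Classical

namespace BLK2VM

open BasM SHM BLK2 Bas BLK2UM

/-- the sum for `b = β - sharp` is small -/
lemma part1V (hTWO : SpecTWOV) (hWB : SpecWBU) (hBAL : SpecBALU) (hEQ : SpecEQU) (hFFB : SpecFFB)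
    {θ κ e e0 F E B : ℝ} {Q : ℕ} {c₁ c₂ : Multiset ℕ} (hθ : 1 / 2 < θ) (hκ : 2 / 3 ≤ κ) (hθκ : 3 / 2 < θ + κ) (he : 0 < e) (he0 : 0 < e0)
    (hB : 0 < B) (hQ : 1 ≤ Q) (hc₁ : ∀ i ∈ c₁, Q ≤ i) (hc₂ : ∀ i ∈ c₂, Q ≤ i)
    (hc0 : c₂ ≠ 0) (hF : 0 < F) (hF1 : ((Multiset.card c₁).factorial : ℝ) ≤ F)
    (hF2 : ((Multiset.card c₂).factorial : ℝ) ≤ F) :
    ∃ W₀ V₀ : ℝ, 0 < W₀ ∧ 0 < V₀ ∧ ∀ W V : ℝ, W₀ ≤ W → V₀ ≤ V → ∀ᶠ N : ℕ in atTop, ∀ A J : ℕ,
      Adm θ N A → (Real.log N) ^ V₀ ≤ J → (J : ℝ) ≤ (Real.log N) ^ V → ∀ K L η : ℝ,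
      (Real.log N) ^ (-E) ≤ η → η ≤ 1 / 4 → (N : ℝ) ^ κ ≤ K → K ≤ (N : ℝ) ^ (1 - e) →
      (N : ℝ) ^ 2 / 2 ≤ K * L → K * L ≤ 5 * (N : ℝ) ^ 2 →
      ∑ a ∈ IA A, |bil (8 * N) a (cut K ((1 + η) * K) (fun m => FF N (e0 / Q) c₁ m))
        (fun u => cut L ((1 + η) * L) (fun m => FF N (e0 / Q) c₂ m) u
          - sharp (wN W N) L η J (cut L ((1 + η) * L) (fun m => FF N (e0 / Q) c₂ m)) u)|
        ≤ A * N / (Real.log N) ^ B := by
  obtain ⟨C, σ, hC, hσ, N₁, hN₁⟩ := hTWO θ κ e e0 F hθ hκ hθκ he he0 hF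
  obtain ⟨B₁, hB₁, N₂, hN₂⟩ := hWB (2 * B + 1) 1 (e / 2) (by linarith) zero_le_one (by positivity)
  obtain ⟨V₀, hV₀, hbal⟩ := balU hEQ hBAL hFFB he0 hQ hc₂ hc0 hB₁
  obtain ⟨CV, hCV, hCV'⟩ := Vw_le
  refine ⟨B₁, V₀, hB₁, hV₀, fun W V hW hV => ?_⟩
  have hW0 : 0 < W := by linarith
  set W' : ℝ := max (W + 1) E with hW'
  have hWa : W + 1 ≤ W' := le_max_left _ _
  have hWb : E ≤ W' := le_max_right _ _
  filter_upwards [eventually_ge_atTop N₁, eventually_ge_atTop N₂, eventually_ge_atTop 3,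
    geo he hκ, hbal W' V (by linarith) hV, ev_wN hW0 3, ev_wN_le hW0, ev_log 1,
    ev_log (2 * F), ev_logw hW0 one_pos (4 * F * CV), ev_lN V (show (0 : ℝ) < 1 / 2 by norm_num) 1,
    ev_lN E (show (0 : ℝ) < 1 / 2 by norm_num) 1, ev_lN (2 * B + 1) hσ 1, ev_log (10 * C),
    ev_const he0 3, ev_pow (show (3 / 2 : ℝ) < 2 by norm_num) 1, ev_lN B₁ he0 1] with N hNN₁ hNN₂ hN3 hgeo
    hba hw3 hwle hl1 hl2F hlw hNV hNE hNσ hlC hz3 h32 hNB A J hA hJ1 hJ2 K L η hη1 hη4 hK1 hK2 hKL1 hKL2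
  obtain ⟨hK, hKL, hLN, hLN2, hg1, hg2, hg3⟩ := hgeo K L hK1 hK2 hKL1 hKL2
  have hN1 : (1 : ℝ) < N := by exact_mod_cast (by omega : 1 < N)
  have hN0 : (0 : ℝ) < N := by linarith
  have hlog : 0 < Real.log N := by linarith
  have hL0 : 0 < L := by linarith
  have hK0 : 0 < K := by linarith
  have hη : 0 < η := lt_of_lt_of_le (Real.rpow_pos_of_pos hlog _) hη1
  have hL2' : L ≤ (N : ℝ) ^ 2 := by
    have : (N : ℝ) ^ (2 : ℝ) = (N : ℝ) ^ 2 := by rw [← Real.rpow_natCast]; norm_num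
    rw [← this]
    linarith
  have hJp : (0 : ℝ) < J := lt_of_lt_of_le (Real.rpow_pos_of_pos hlog _) hJ1
  have hJn : 1 ≤ J := by
    have : 0 < J := by exact_mod_cast hJp
    omega
  set w : ℕ := wN W N with hw
  have hV := Vw_pos w
  have hVw : 2 * F * Vw w ≤ Real.log N / 2 := by
    have h1 := hCV' w hw3
    have hw3' : (3 : ℝ) ≤ w := by exact_mod_cast hw3
    have h2 : Real.log w ≤ Real.log ((w : ℝ) + 1) := Real.log_le_log (by linarith) (by linarith)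
    rw [Real.rpow_one] at hlw
    have h3 : 2 * F * Vw w ≤ 2 * F * (CV * Real.log ((w : ℝ) + 1)) := by
      have h4 : Vw w ≤ CV * Real.log ((w : ℝ) + 1) := h1.trans (mul_le_mul_of_nonneg_left h2 hCV.le)
      exact mul_le_mul_of_nonneg_left h4 (by positivity)
    linarith
  set f : ℕ → ℝ := fun m => FF N (e0 / Q) c₂ m with hf
  set β : ℕ → ℝ := cut L ((1 + η) * L) f with hβ
  set g : ℕ → ℝ := fun m => FF N (e0 / Q) c₁ m with hg
  set b : ℕ → ℝ := fun u => β u - sharp w L η J β u with hb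
  have hff : ∀ m, 0 ≤ f m ∧ f m ≤ F * rInd ((N : ℝ) ^ e0) m := fun m => by
    obtain ⟨h1, h2⟩ := FF_facts hFFB he0 hQ hc₂ (by omega : 2 ≤ N) m
    exact ⟨h1, h2.trans (mul_le_mul_of_nonneg_right hF2 (rInd_nonneg _ _))⟩
  have hgg : ∀ m, 0 ≤ g m ∧ g m ≤ F * rInd ((N : ℝ) ^ e0) m := fun m => by
    obtain ⟨h1, h2⟩ := FF_facts hFFB he0 hQ hc₁ (by omega : 2 ≤ N) m
    exact ⟨h1, h2.trans (mul_le_mul_of_nonneg_right hF1 (rInd_nonneg _ _))⟩
  have hFr : ∀ m, 0 ≤ F * rInd ((N : ℝ) ^ e0) m := fun m => mul_nonneg hF.le (rInd_nonneg _ _)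
  have hβ0 : ∀ u, 0 ≤ β u := fun u => cut_nonneg (fun m => (hff m).1) u
  have hβ1 : ∀ u, β u ≤ F * rInd ((N : ℝ) ^ e0) u := fun u => cut_le (fun m => (hff m).2) hFr u
  have hβF : ∀ u, β u ≤ F := fun u => (hβ1 u).trans (by
    have := rInd_le_one ((N : ℝ) ^ e0) u
    nlinarith)
  have hstep : 1 ≤ η * L / J := by
    rw [le_div_iff₀ hJp, one_mul]
    have h1 : (J : ℝ) ≤ (N : ℝ) ^ (1 / 2 : ℝ) := hJ2.trans (by linarith)
    have h2 : (N : ℝ) ^ (-(1 / 2 : ℝ)) ≤ η := by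
      refine le_trans ?_ hη1
      rw [Real.rpow_neg hN0.le, Real.rpow_neg hlog.le]
      exact inv_anti₀ (Real.rpow_pos_of_pos hlog _) (by linarith)
    calc (J : ℝ) ≤ (N : ℝ) ^ (1 / 2 : ℝ) := h1
      _ = (N : ℝ) ^ (-(1 / 2 : ℝ)) * N := by
          nth_rewrite 3 [← Real.rpow_one (N : ℝ)]
          rw [← Real.rpow_add hN0]; norm_num
      _ ≤ η * L := mul_le_mul h2 hLN hN0.le hη.le
  have hD : ∀ i < J, 0 ≤ Dav L η J β i ∧ Dav L η J β i ≤ 2 * F / 1 := by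
    intro i _
    rw [div_one]
    exact Dav_triv hL0 hη hJn hβ0 hβF hstep
  have hsh : ∀ u, 0 ≤ sharp w L η J β u ∧
      sharp w L η J β u ≤ 2 * F / 1 * (Vw w * rInd ((w : ℝ) + 1) u) :=
    fun u => sharp_bound hL0.le hη.le hD (by positivity) u
  have hbF : ∀ u, |b u| ≤ Real.log N := by
    intro u
    obtain ⟨h1, h2⟩ := hsh u
    have h3 := hβ0 u
    have h4 := hβF u
    have h5 : 2 * F / 1 * (Vw w * rInd ((w : ℝ) + 1) u) ≤ Real.log N / 2 := by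
      refine le_trans ?_ hVw
      rw [div_one, ← mul_assoc]
      have := rInd_le_one ((w : ℝ) + 1) u
      have h6 : 0 ≤ 2 * F * Vw w := by positivity
      nlinarith
    rw [abs_le]
    constructor <;> simp only [hb] <;> linarith
  have hbsupp : ∀ u, b u ≠ 0 → Rough ((Real.log N) ^ B₁) u ∧ Odd u ∧ L < (u : ℝ)
      ∧ (u : ℝ) ≤ (1 + η) * L := by
    intro u hu
    have hwB : (Real.log N) ^ B₁ ≤ (w : ℝ) := by
      refine le_trans ?_ (le_wN W N)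
      exact Real.rpow_le_rpow_of_exponent_le hl1 hW
    have hw3' : (3 : ℝ) ≤ w := by exact_mod_cast hw3
    have hrou : Rough ((w : ℝ) + 1) u → Rough ((Real.log N) ^ B₁) u ∧ Odd u := by
      intro h
      exact ⟨fun p hp hpu => le_trans (by linarith) (h p hp hpu), odd_of_rough (by linarith) h⟩
    by_cases h : β u = 0
    · have h2 : sharp w L η J β u ≠ 0 := by
        intro h3; apply hu; simp only [hb]; rw [h, h3, sub_zero]
      have h3 : ∃ i < J, u ∈ pc L η J i := by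
        by_contra h4
        push Not at h4
        exact h2 (sharp_zero h4)
      obtain ⟨i, hi, hui⟩ := h3
      rw [sharp_eq hL0.le hη.le hi hui] at h2
      have h4 : rInd ((w : ℝ) + 1) u ≠ 0 := fun h5 => h2 (by rw [h5, mul_zero])
      have h5 : Rough ((w : ℝ) + 1) u := by
        by_contra h6; exact h4 (if_neg h6)
      exact ⟨(hrou h5).1, (hrou h5).2, pc_range hL0.le hη.le hJn hi hui⟩
    · have h5 : Rough ((N : ℝ) ^ e0) u := by
        by_contra h6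
        have h7 : rInd ((N : ℝ) ^ e0) u = 0 := if_neg h6
        have h8 := hβ1 u
        rw [h7, mul_zero] at h8
        exact h (le_antisymm h8 (hβ0 u))
      exact ⟨fun p hp hpu => le_trans (by linarith) (h5 p hp hpu), odd_of_rough (by linarith) h5, cut_ne h⟩
  -- the bound for `Wsum`
  have hWs : |Wsum K L b| ≤ L / (Real.log N) ^ (2 * B + 1) := by
    refine hN₂ N K L b hNN₂ hK hKL hKL1 hKL2 hg1 hg2 (fun u => by rw [Real.rpow_one]; exact hbF u)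
      (fun u hu => ?_) ?_
    · obtain ⟨h1, h2, h3, h4⟩ := hbsupp u hu
      exact ⟨h3, h4.trans (by nlinarith), h1⟩
    · refine hba w J L η (by omega) ?_ hJ1 hJ2 hLN hL2' ?_ hη4
      · have h1 : (w : ℝ) ≤ (Real.log N) ^ (W + 1) := by linarith
        exact h1.trans (Real.rpow_le_rpow_of_exponent_le hl1 hWa)
      · refine le_trans ?_ hη1
        exact Real.rpow_le_rpow_of_exponent_le hl1 (by linarith)
  -- Cauchy-Schwarz
  have hfin := hN₁ N A hNN₁ hA K L hK1 hK2 hKL1 hKL2 (cut K ((1 + η) * K) g) b ?_ ?_ hbF ?_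
  · have hT : 0 < (Real.log N) ^ B := Real.rpow_pos_of_pos hlog _
    have hT2 : (Real.log N) ^ (2 * B + 1) = ((Real.log N) ^ B) ^ 2 * Real.log N := by
      rw [Real.rpow_add hlog, Real.rpow_one, mul_comm 2 B, Real.rpow_mul hlog.le]
      norm_num
    have h0 : (N : ℝ) ^ (-σ) ≤ 1 / (Real.log N) ^ (2 * B + 1) := by
      rw [Real.rpow_neg hN0.le, ← one_div]
      exact one_div_le_one_div_of_le (by positivity) (by linarith)
    have h1 : |Wsum K L b| + L * (N : ℝ) ^ (-σ) ≤ 2 * L / (Real.log N) ^ (2 * B + 1) := by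
      have h2 : L * (N : ℝ) ^ (-σ) ≤ L / (Real.log N) ^ (2 * B + 1) := by
        calc L * (N : ℝ) ^ (-σ) ≤ L * (1 / (Real.log N) ^ (2 * B + 1)) :=
              mul_le_mul_of_nonneg_left h0 hL0.le
          _ = _ := by ring
      calc |Wsum K L b| + L * (N : ℝ) ^ (-σ)
          ≤ L / (Real.log N) ^ (2 * B + 1) + L / (Real.log N) ^ (2 * B + 1) := add_le_add hWs h2
        _ = _ := by ring
    have h2 : (∑ a ∈ IA A, |bil (8 * N) a (cut K ((1 + η) * K) g) b|) ^ 2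
        ≤ (A * N / (Real.log N) ^ B) ^ 2 := by
      refine hfin.trans ?_
      calc C * (A : ℝ) ^ 2 * K * (|Wsum K L b| + L * (N : ℝ) ^ (-σ))
          ≤ C * (A : ℝ) ^ 2 * K * (2 * L / (Real.log N) ^ (2 * B + 1)) := by gcongr
        _ = 2 * C * (A : ℝ) ^ 2 / (((Real.log N) ^ B) ^ 2 * Real.log N) * (K * L) := by rw [hT2]; ring
        _ ≤ 2 * C * (A : ℝ) ^ 2 / (((Real.log N) ^ B) ^ 2 * Real.log N) * (5 * (N : ℝ) ^ 2) := by gcongr
        _ = 10 * C / Real.log N * (A * N / (Real.log N) ^ B) ^ 2 := by field_simp; ring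
        _ ≤ 1 * (A * N / (Real.log N) ^ B) ^ 2 := by
            gcongr
            rw [div_le_one hlog]; exact hlC
        _ = _ := one_mul _
    exact (pow_le_pow_iff_left₀ (sum_nonneg fun _ _ => abs_nonneg _) (by positivity) (by norm_num)).1 h2
  · intro k
    rw [abs_of_nonneg (cut_nonneg (fun m => (hgg m).1) k)]
    exact cut_le (g := fun m => F * rInd ((N : ℝ) ^ e0) m) (fun m => (hgg m).2) hFr k
  · intro k hk
    obtain ⟨h1, h2⟩ := cut_ne hk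
    exact ⟨h1, h2.trans (by nlinarith)⟩
  · intro u hu
    obtain ⟨h1, h2, h3, h4⟩ := hbsupp u hu
    exact ⟨h2, h3, h4.trans (by nlinarith)⟩

/-- the main term -/
lemma part3V (hMTB : SpecMTBV) (hSHM : SpecSHM) (hFFB : SpecFFB) (hGMAX : SpecGMAXU)
    {θ κ e e0 F B : ℝ} {Q : ℕ} {c₁ c₂ : Multiset ℕ} (hθ : 1 / 2 < θ) (hκ : 2 / 3 ≤ κ) (hθκ : 3 / 2 < θ + κ) (he : 0 < e) (he0 : 0 < e0)
    (he1 : e0 ≤ 1 / 10) (hQ : 1 ≤ Q) (hc₁ : ∀ i ∈ c₁, Q ≤ i) (hc₂ : ∀ i ∈ c₂, Q ≤ i)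
    (hF : 0 < F) (hF1 : ((Multiset.card c₁).factorial : ℝ) ≤ F)
    (hF2 : ((Multiset.card c₂).factorial : ℝ) ≤ F) :
    ∀ W : ℝ, 0 < W → ∀ᶠ N : ℕ in atTop, ∀ A J : ℕ, Adm θ N A → NearA N A (e0 / Q) e c₁ → 1 ≤ J →
      (Real.log N) ^ (B + 2) ≤ J → ∀ K L η : ℝ, 0 < η → η ≤ 1 / 4 → (N : ℝ) ^ κ ≤ K →
      K ≤ (N : ℝ) ^ (1 - e) → (N : ℝ) ^ 2 / 2 ≤ K * L → K * L ≤ 5 * (N : ℝ) ^ 2 →
      ∑ a ∈ IA A, |Gw (wN W N) a * ∑ i ∈ range J,
          Dav L η J (cut L ((1 + η) * L) (fun m => FF N (e0 / Q) c₂ m)) i *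
          ∑ k ∈ Ioc ⌊K⌋₊ ⌊5 / 4 * K⌋₊, cut K ((1 + η) * K) (fun m => FF N (e0 / Q) c₁ m) k
            * ((rho a k : ℝ) / k)
            * (√(k * (L * (1 + η * (i + 1) / J))) - √(k * (L * (1 + η * i / J))))
        - Gw (wN W N) a * ∑ k ∈ Ioc ⌊K⌋₊ ⌊(1 + η) * K⌋₊, ∑ l ∈ Ioc ⌊L⌋₊ ⌊(1 + η) * L⌋₊,
            FF N (e0 / Q) c₁ k * FF N (e0 / Q) c₂ l / (2 * √((k : ℝ) * l))|
        ≤ A * N / (Real.log N) ^ B := by
  intro W hW
  obtain ⟨CH, hCH, hCH'⟩ := hSHM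
  obtain ⟨σ, hσ, N₁, hN₁⟩ := hMTB θ e e0 Q c₁ hθ he he0 he1 hQ hc₁
  obtain ⟨cG, CG, hcG, hCG, hG⟩ := hGMAX
  set M : ℝ := 2 * F * (CH + 1) with hM
  have hM0 : 0 < M := by positivity
  filter_upwards [eventually_ge_atTop N₁, eventually_ge_atTop 3, geo he hκ,
    ev_wN hW 2, ev_logw hW one_pos CG, ev_log 1, ev_lN (B + 1) hσ (6 * M), ev_log (72 * CH * F ^ 2),
    ev_const (show 0 < θ by linarith) 1] with N hNN₁ hN3 hgeo hw2 hlw hl1 hNσ hlC hNθ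
    A J hA hnear hJn hJB K L η hη hη4 hK1 hK2 hKL1 hKL2
  obtain ⟨hK, hKL, hLN, hLN2, hg1, hg2, hg3⟩ := hgeo K L hK1 hK2 hKL1 hKL2
  have hN1 : (1 : ℝ) < N := by exact_mod_cast (by omega : 1 < N)
  have hN0 : (0 : ℝ) < N := by linarith
  have hlog : 0 < Real.log N := by linarith
  have hL0 : 0 < L := by linarith
  have hK0 : 0 < K := by linarith
  have hJ0 : (0 : ℝ) < J := by exact_mod_cast hJn
  have hA1 : (1 : ℝ) ≤ A := hNθ.trans hA.1
  have hsK : 0 < √K := Real.sqrt_pos.2 hK0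
  have hsL : 0 < √L := Real.sqrt_pos.2 hL0
  have hsK2 : √K * √K = K := Real.mul_self_sqrt hK0.le
  have hsL2 : √L * √L = L := Real.mul_self_sqrt hL0.le
  set w : ℕ := wN W N with hw
  have hw2' : (2 : ℝ) ≤ w := by exact_mod_cast hw2
  have hG0 : ∀ a, 0 ≤ Gw w a := fun a =>
    le_trans (by
      have : 0 < Real.log ((w : ℝ) + 1) := Real.log_pos (by linarith)
      positivity) (hG w hw2 a).1
  have hGT : ∀ a, Gw w a ≤ Real.log N := fun a => by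
    have h1 := (hG w hw2 a).2
    rw [Real.rpow_one] at hlw
    linarith
  set f : ℕ → ℝ := fun m => FF N (e0 / Q) c₂ m with hf
  set β : ℕ → ℝ := cut L ((1 + η) * L) f with hβ
  set g : ℕ → ℝ := fun m => FF N (e0 / Q) c₁ m with hg
  have hff : ∀ m, 0 ≤ f m ∧ f m ≤ F := fun m => by
    obtain ⟨h1, h2⟩ := FF_facts hFFB he0 hQ hc₂ (by omega : 2 ≤ N) m
    refine ⟨h1, h2.trans ?_⟩
    have h3 := rInd_le_one ((N : ℝ) ^ e0) m
    have h4 := rInd_nonneg ((N : ℝ) ^ e0) m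
    nlinarith
  have hgg : ∀ m, 0 ≤ g m ∧ g m ≤ F := fun m => by
    obtain ⟨h1, h2⟩ := FF_facts hFFB he0 hQ hc₁ (by omega : 2 ≤ N) m
    refine ⟨h1, h2.trans ?_⟩
    have h3 := rInd_le_one ((N : ℝ) ^ e0) m
    have h4 := rInd_nonneg ((N : ℝ) ^ e0) m
    nlinarith
  have hβ0 : ∀ u, 0 ≤ β u := fun u => cut_nonneg (fun m => (hff m).1) u
  -- the sums
  set S' : ℝ := ∑ i ∈ range J, Dav L η J β i
    * (√(L * (1 + η * (i + 1) / J)) - √(L * (1 + η * i / J))) with hS'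
  set S : ℝ := ∑ l ∈ Ioc ⌊L⌋₊ ⌊(1 + η) * L⌋₊, f l / (2 * √(l : ℝ)) with hS
  set R₁ : ℝ := ∑ k ∈ Ioc ⌊K⌋₊ ⌊(1 + η) * K⌋₊, g k / √(k : ℝ) with hR₁
  set R : ℤ → ℝ := fun a => ∑ k ∈ Ioc ⌊K⌋₊ ⌊(1 + η) * K⌋₊, g k * (rho a k : ℝ) / √(k : ℝ) with hR
  have hblk : ∀ (X : ℝ) (φ : ℕ → ℝ), 1 ≤ X → (∀ m, 0 ≤ φ m ∧ φ m ≤ F) →
      ∑ l ∈ Ioc ⌊X⌋₊ ⌊(1 + η) * X⌋₊, φ l ≤ 2 * F * X := by
    intro X φ hX hφ
    have h1 := card_Ioc_floor (show 0 ≤ X by linarith) (show X ≤ (1 + η) * X by nlinarith)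
    calc ∑ l ∈ Ioc ⌊X⌋₊ ⌊(1 + η) * X⌋₊, φ l ≤ ∑ _l ∈ Ioc ⌊X⌋₊ ⌊(1 + η) * X⌋₊, F :=
          sum_le_sum fun l _ => (hφ l).2
      _ = ((Ioc ⌊X⌋₊ ⌊(1 + η) * X⌋₊).card : ℝ) * F := by rw [sum_const, nsmul_eq_mul]
      _ ≤ (2 * X) * F := mul_le_mul_of_nonneg_right (h1.trans (by nlinarith)) hF.le
      _ = 2 * F * X := by ring
  have hsumβ : ∑ l ∈ Ioc ⌊L⌋₊ ⌊(1 + η) * L⌋₊, f l ≤ 2 * F * L := hblk L f (by linarith) hff
  have hsumg : ∑ k ∈ Ioc ⌊K⌋₊ ⌊(1 + η) * K⌋₊, g k ≤ 2 * F * K := hblk K g hK hgg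
  have hR1 : 0 ≤ R₁ ∧ R₁ ≤ 2 * F * √K := by
    refine ⟨sum_nonneg fun k _ => div_nonneg (hgg k).1 (Real.sqrt_nonneg _), ?_⟩
    have h1 : R₁ ≤ (∑ k ∈ Ioc ⌊K⌋₊ ⌊(1 + η) * K⌋₊, g k) / √K := by
      rw [hR₁, sum_div]
      refine sum_le_sum fun k hk => ?_
      obtain ⟨h3, h4⟩ := mem_blk hK0.le hη.le hk
      exact div_le_div_of_nonneg_left (hgg k).1 hsK (Real.sqrt_le_sqrt h3.le)
    refine h1.trans ?_
    rw [div_le_iff₀ hsK]
    refine hsumg.trans (le_of_eq ?_)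
    rw [mul_assoc (2 * F) √K √K, hsK2]
  have hSS : 0 ≤ S ∧ S ≤ 2 * F * √L := by
    refine ⟨sum_nonneg fun k _ => div_nonneg (hff k).1 (by positivity), ?_⟩
    have h1 : S ≤ (∑ k ∈ Ioc ⌊L⌋₊ ⌊(1 + η) * L⌋₊, f k) / √L := by
      rw [hS, sum_div]
      refine sum_le_sum fun k hk => ?_
      obtain ⟨h3, h4⟩ := mem_blk hL0.le hη.le hk
      have h5 : √L ≤ √(k : ℝ) := Real.sqrt_le_sqrt h3.le
      exact div_le_div_of_nonneg_left (hff k).1 hsL (by linarith)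
    refine h1.trans ?_
    rw [div_le_iff₀ hsL]
    refine hsumβ.trans (le_of_eq ?_)
    rw [mul_assoc (2 * F) √L √L, hsL2]
  have hdiff : |S' - S| ≤ 2 * F * CH * √L / J := by
    have h1 := hCH' L η J β (by linarith) hη hη4 hJn hβ0
    have h2 : ∑ l ∈ Ioc ⌊L⌋₊ ⌊(1 + η) * L⌋₊, β l / (2 * √(l : ℝ)) = S := by
      refine sum_congr rfl fun l hl => ?_
      obtain ⟨h3, h4⟩ := mem_blk hL0.le hη.le hl
      rw [hβ, cut_of h3 h4]
    have h3 : ∑ l ∈ Ioc ⌊L⌋₊ ⌊(1 + η) * L⌋₊, β l = ∑ l ∈ Ioc ⌊L⌋₊ ⌊(1 + η) * L⌋₊, f l := by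
      refine sum_congr rfl fun l hl => ?_
      obtain ⟨h3, h4⟩ := mem_blk hL0.le hη.le hl
      rw [hβ, cut_of h3 h4]
    rw [h2, h3] at h1
    refine h1.trans ?_
    calc CH / J * (∑ l ∈ Ioc ⌊L⌋₊ ⌊(1 + η) * L⌋₊, f l) / √L
        ≤ CH / J * (2 * F * L) / √L := by gcongr
      _ = CH / J * (2 * F * (√L * √L)) / √L := by rw [hsL2]
      _ = 2 * F * CH * √L / J := by field_simp
  have hS'b : |S'| ≤ M * √L := by
    have h1 : |S'| ≤ |S' - S| + |S| := by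
      have := abs_add_le (S' - S) S
      rwa [sub_add_cancel] at this
    rw [abs_of_nonneg hSS.1] at h1
    have h2 : 2 * F * CH * √L / J ≤ 2 * F * CH * √L := by
      apply div_le_self (by positivity)
      exact_mod_cast hJn
    have h4 : M * √L = 2 * F * CH * √L + 2 * F * √L := by rw [hM]; ring
    linarith [hSS.2]
  have hRR : ∑ a ∈ IA A, |R a - R₁| ≤ A * √K * (N : ℝ) ^ (-σ) := by
    have h1 := hN₁ N A hNN₁ hA hnear K η hη hη4 ?_ hK2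
    · refine le_trans (le_of_eq ?_) h1
      refine sum_congr rfl fun a _ => ?_
      congr 1
      rw [hR, hR₁]
      simp only
      rw [← sum_sub_distrib]
      refine sum_congr rfl fun k _ => ?_
      rw [hg]
      ring
    · refine le_trans ?_ hK1
      exact Real.rpow_le_rpow_of_exponent_le hN1.le (by linarith)
  have hsq : √K * √L ≤ 3 * N := by
    rw [← Real.sqrt_mul hK0.le]
    rw [Real.sqrt_le_left (by positivity)]
    nlinarith
  -- assembly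
  have hterm : ∀ a, |Gw w a * ∑ i ∈ range J, Dav L η J β i *
          ∑ k ∈ Ioc ⌊K⌋₊ ⌊5 / 4 * K⌋₊, cut K ((1 + η) * K) g k * ((rho a k : ℝ) / k)
            * (√(k * (L * (1 + η * (i + 1) / J))) - √(k * (L * (1 + η * i / J))))
        - Gw w a * ∑ k ∈ Ioc ⌊K⌋₊ ⌊(1 + η) * K⌋₊, ∑ l ∈ Ioc ⌊L⌋₊ ⌊(1 + η) * L⌋₊,
            g k * f l / (2 * √((k : ℝ) * l))|
      ≤ Real.log N * (M * √L) * |R a - R₁|
        + (2 * F * CH * √L / J) * (2 * F * √K) * Real.log N := by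
    intro a
    rw [main_eq (g := g) hK0 hη.le hη4 β (f := f), main_eq2, ← hS', ← hS, ← hR₁]
    have e1 : (∑ k ∈ Ioc ⌊K⌋₊ ⌊(1 + η) * K⌋₊, g k * (rho a k : ℝ) / √(k : ℝ)) = R a := rfl
    rw [e1]
    have e2 : Gw w a * (S' * R a) - Gw w a * (S * R₁)
        = Gw w a * S' * (R a - R₁) + (S' - S) * R₁ * Gw w a := by ring
    rw [e2]
    refine (abs_add_le _ _).trans (add_le_add ?_ ?_)
    · rw [abs_mul, abs_mul, abs_of_nonneg (hG0 a)]
      exact mul_le_mul_of_nonneg_right (mul_le_mul (hGT a) hS'b (abs_nonneg _) hlog.le) (abs_nonneg _)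
    · rw [abs_mul, abs_mul, abs_of_nonneg hR1.1, abs_of_nonneg (hG0 a)]
      have h5 : |S' - S| * R₁ ≤ (2 * F * CH * √L / J) * (2 * F * √K) :=
        mul_le_mul hdiff hR1.2 hR1.1 (by positivity)
      exact mul_le_mul h5 (hGT a) (hG0 a) (by positivity)
  refine (sum_le_sum fun a _ => hterm a).trans ?_
  rw [sum_add_distrib, ← mul_sum, sum_const, nsmul_eq_mul, card_IA]
  have hA0 : (0 : ℝ) ≤ A := Nat.cast_nonneg A
  have hT : 0 < (Real.log N) ^ B := Real.rpow_pos_of_pos hlog _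
  have hTB1 : (Real.log N) ^ (B + 1) = (Real.log N) ^ B * Real.log N := by
    rw [Real.rpow_add hlog, Real.rpow_one]
  have hTB2 : (Real.log N) ^ (B + 2) = (Real.log N) ^ B * Real.log N * Real.log N := by
    rw [show B + 2 = B + 1 + 1 by ring, Real.rpow_add hlog, Real.rpow_one, hTB1]
  have h1 : Real.log N * (M * √L) * ∑ a ∈ IA A, |R a - R₁| ≤ 1 / 2 * (A * N / (Real.log N) ^ B) := by
    have hNs : 0 < (N : ℝ) ^ σ := Real.rpow_pos_of_pos hN0 _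
    calc Real.log N * (M * √L) * ∑ a ∈ IA A, |R a - R₁|
        ≤ Real.log N * (M * √L) * (A * √K * (N : ℝ) ^ (-σ)) := by gcongr
      _ = Real.log N * M * A * (N : ℝ) ^ (-σ) * (√K * √L) := by ring
      _ ≤ Real.log N * M * A * (N : ℝ) ^ (-σ) * (3 * N) := by gcongr
      _ = (6 * M * ((Real.log N) ^ B * Real.log N)) / (N : ℝ) ^ σ * (1 / 2 * (A * N / (Real.log N) ^ B)) := by
          rw [Real.rpow_neg hN0.le]; field_simp; ring
      _ ≤ 1 * (1 / 2 * (A * N / (Real.log N) ^ B)) := by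
          refine mul_le_mul_of_nonneg_right ?_ (by positivity)
          rw [div_le_one hNs, ← hTB1]
          exact hNσ
      _ = _ := one_mul _
  have h2 : (2 * (A : ℝ) + 1) * ((2 * F * CH * √L / J) * (2 * F * √K) * Real.log N)
      ≤ 1 / 2 * (A * N / (Real.log N) ^ B) := by
    have h3 : (1 : ℝ) / J ≤ 1 / ((Real.log N) ^ B * Real.log N * Real.log N) := by
      rw [← hTB2]
      exact one_div_le_one_div_of_le (Real.rpow_pos_of_pos hlog _) hJB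
    calc (2 * (A : ℝ) + 1) * ((2 * F * CH * √L / J) * (2 * F * √K) * Real.log N)
        ≤ (3 * A) * ((2 * F * CH * √L / J) * (2 * F * √K) * Real.log N) := by
          refine mul_le_mul_of_nonneg_right (by linarith) (by positivity)
      _ = 12 * CH * F ^ 2 * A * Real.log N * (1 / J) * (√K * √L) := by ring
      _ ≤ 12 * CH * F ^ 2 * A * Real.log N * (1 / ((Real.log N) ^ B * Real.log N * Real.log N)) * (3 * N) := by
          gcongr
      _ = 72 * CH * F ^ 2 / Real.log N * (1 / 2 * (A * N / (Real.log N) ^ B)) := by field_simp; ring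
      _ ≤ 1 * (1 / 2 * (A * N / (Real.log N) ^ B)) := by
          refine mul_le_mul_of_nonneg_right ?_ (by positivity)
          rw [div_le_one hlog]
          exact hlC
      _ = _ := one_mul _
  refine (add_le_add h1 h2).trans (le_of_eq ?_)
  ring

end BLK2VM

open BLK2VM BLK2UM BLK2 BasM SHM Bas in
theorem specBLK2V (hTWO : SpecTWOV) (hWB : SpecWBU) (hBAL : SpecBALU) (hEQ : SpecEQU)
    (hMTA : SpecMTAV) (hMTB : SpecMTBV) (hSHM : SpecSHM) (hFFB : SpecFFB) (hGMAX : SpecGMAXU) :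
    SpecBLK2V := by
  intro θ κ e e0 E B Q c₁ c₂ hθ hκ hθκ he he0 he1 hE hB hQ hc₁ hc₂ hc0
  set F : ℝ := ((Multiset.card c₁).factorial : ℝ) + ((Multiset.card c₂).factorial : ℝ) with hF
  have hF0 : 0 < F := by positivity
  have hF1 : ((Multiset.card c₁).factorial : ℝ) ≤ F := by
    rw [hF]; linarith [Nat.cast_nonneg (α := ℝ) (Multiset.card c₂).factorial]
  have hF2 : ((Multiset.card c₂).factorial : ℝ) ≤ F := by
    rw [hF]; linarith [Nat.cast_nonneg (α := ℝ) (Multiset.card c₁).factorial]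
  obtain ⟨W₀, V₀, hW₀, hV₀, hp1⟩ := part1V hTWO hWB hBAL hEQ hFFB (F := F) (E := E) (B := B + 1) hθ hκ hθκ he
    he0 (by linarith) hQ hc₁ hc₂ hc0 hF0 hF1 hF2
  have hp3 := part3V hMTB hSHM hFFB hGMAX (F := F) (B := B + 1) (c₂ := c₂) hθ hκ hθκ he he0 he1 hQ hc₁ hc₂ hF0
    hF1 hF2
  refine ⟨W₀, hW₀, fun W hW => ?_⟩
  have hW0 : 0 < W := by linarith
  set V : ℝ := max V₀ (B + 3) with hV
  have hVa : V₀ ≤ V := le_max_left _ _
  have hVb : B + 3 ≤ V := le_max_right _ _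
  have hV0 : 0 < V := by linarith
  obtain ⟨N₃, hN₃⟩ := hMTA θ e e0 F (B + 1) E (V + 1) W hθ he he0 hF0 (by linarith) hE (by linarith) hW0
  have hev : ∀ᶠ N : ℕ in atTop, ∀ A : ℕ, Adm θ N A → NearA N A (e0 / Q) e c₁ → ∀ K L η : ℝ,
      (Real.log N) ^ (-E) ≤ η → η ≤ 1 / 4 → (N : ℝ) ^ κ ≤ K → K ≤ (N : ℝ) ^ (1 - e) →
      (N : ℝ) ^ 2 / 2 ≤ K * L → K * L ≤ 5 * (N : ℝ) ^ 2 →
      ∑ a ∈ IA A, |bil (8 * N) a (cut K ((1 + η) * K) (fun m => FF N (e0 / Q) c₁ m))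
            (cut L ((1 + η) * L) (fun m => FF N (e0 / Q) c₂ m))
          - Gw (wN W N) a * ∑ k ∈ Ioc ⌊K⌋₊ ⌊(1 + η) * K⌋₊, ∑ l ∈ Ioc ⌊L⌋₊ ⌊(1 + η) * L⌋₊,
              FF N (e0 / Q) c₁ k * FF N (e0 / Q) c₂ l / (2 * √((k : ℝ) * l))|
        ≤ A * N / (Real.log N) ^ B := by
    filter_upwards [hp1 W (V + 1) hW (by linarith), hp3 W hW0, eventually_ge_atTop N₃,
      eventually_ge_atTop 3, ev_wN hV0 1, ev_wN_le hV0, ev_log 3] with
      N hp1' hp3' hNN₃ hN3 hJn hJle hl3 A hA hnear K L η hη1 hη4 hK1 hK2 hKL1 hKL2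
    have hN1 : (1 : ℝ) < N := by exact_mod_cast (by omega : 1 < N)
    have hlog : 0 < Real.log N := by linarith
    have hη : 0 < η := lt_of_lt_of_le (Real.rpow_pos_of_pos hlog _) hη1
    have hK0 : 0 < K := lt_of_lt_of_le (by positivity) hK1
    set J : ℕ := wN V N with hJ
    have hJV : (Real.log N) ^ V ≤ J := le_wN V N
    have hJ1 : (Real.log N) ^ V₀ ≤ J :=
      (Real.rpow_le_rpow_of_exponent_le (by linarith) hVa).trans hJV
    have hJ2 : (J : ℝ) ≤ (Real.log N) ^ (V + 1) := by linarith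
    have hJ3 : (Real.log N) ^ (B + 1 + 2) ≤ J :=
      (Real.rpow_le_rpow_of_exponent_le (by linarith) (by linarith)).trans hJV
    have hfac : ∀ (c : Multiset ℕ), (∀ i ∈ c, Q ≤ i) → ((Multiset.card c).factorial : ℝ) ≤ F →
        ∀ m, 0 ≤ FF N (e0 / Q) c m ∧ FF N (e0 / Q) c m ≤ F * rInd ((N : ℝ) ^ e0) m := fun c hc hcF m => by
      obtain ⟨h1, h2⟩ := FF_facts hFFB he0 hQ hc (by omega : 2 ≤ N) m
      exact ⟨h1, h2.trans (mul_le_mul_of_nonneg_right hcF (rInd_nonneg _ _))⟩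
    have hFr : ∀ m, 0 ≤ F * rInd ((N : ℝ) ^ e0) m := fun m => mul_nonneg hF0.le (rInd_nonneg _ _)
    set α : ℕ → ℝ := cut K ((1 + η) * K) (fun m => FF N (e0 / Q) c₁ m) with hα
    set β : ℕ → ℝ := cut L ((1 + η) * L) (fun m => FF N (e0 / Q) c₂ m) with hβ
    have h1 := hp1' A J hA hJ1 hJ2 K L η hη1 hη4 hK1 hK2 hKL1 hKL2
    have h3 := hp3' A J hA hnear hJn hJ3 K L η hη hη4 hK1 hK2 hKL1 hKL2
    have h2 := hN₃ N A J hNN₃ hA hJn hJ2 K L η hη1 hη4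
      ((Real.rpow_le_rpow_of_exponent_le hN1.le (by linarith)).trans hK1) hK2 hKL1 hKL2 α β
      (fun k => by
        rw [abs_of_nonneg (cut_nonneg (fun m => (hfac c₁ hc₁ hF1 m).1) k)]
        exact cut_le (g := fun m => F * rInd ((N : ℝ) ^ e0) m) (fun m => (hfac c₁ hc₁ hF1 m).2) hFr k)
      (fun k hk => by
        obtain ⟨h1, h2⟩ := cut_ne hk
        exact ⟨h1, h2.trans (by nlinarith)⟩)
      (fun l => by
        rw [abs_of_nonneg (cut_nonneg (fun m => (hfac c₂ hc₂ hF2 m).1) l)]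
        refine (cut_le (g := fun m => F * rInd ((N : ℝ) ^ e0) m) (fun m => (hfac c₂ hc₂ hF2 m).2)
          hFr l).trans ?_
        have := rInd_le_one ((N : ℝ) ^ e0) l
        nlinarith)
    have hsplit : ∀ a, bil (8 * N) a α β = bil (8 * N) a α (fun u => β u - sharp (wN W N) L η J β u)
        + bil (8 * N) a α (sharp (wN W N) L η J β) := by
      intro a
      rw [← bil_add]
      congr 1
      funext l
      ring
    have hsum := add_le_add (add_le_add h1 h2) h3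
    rw [← sum_add_distrib, ← sum_add_distrib] at hsum
    have hT : 0 < (Real.log N) ^ B := Real.rpow_pos_of_pos hlog _
    have htot : (A : ℝ) * N / (Real.log N) ^ (B + 1) + A * N / (Real.log N) ^ (B + 1)
        + A * N / (Real.log N) ^ (B + 1) ≤ A * N / (Real.log N) ^ B := by
      rw [Real.rpow_add hlog, Real.rpow_one]
      have h4 : (A : ℝ) * N / ((Real.log N) ^ B * Real.log N) + A * N / ((Real.log N) ^ B * Real.log N)
        + A * N / ((Real.log N) ^ B * Real.log N) = 3 / Real.log N * (A * N / (Real.log N) ^ B) := by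
        field_simp; ring
      rw [h4]
      have h5 : 3 / Real.log N ≤ 1 := by rw [div_le_one hlog]; exact hl3
      have h6 : 0 ≤ (A : ℝ) * N / (Real.log N) ^ B := by positivity
      nlinarith
    refine le_trans (sum_le_sum fun a _ => ?_) (hsum.trans htot)
    rw [hsplit a]
    refine le_trans (le_of_eq ?_) ((abs_add_le _ _).trans (add_le_add_left (abs_add_le _ _) _))
    congr 1
    ring
  obtain ⟨N₀, hN₀⟩ := eventually_atTop.1 hev
  exact ⟨N₀, fun N A hN hA hnear K L η h1 h2 h3 h4 h5 h6 => hN₀ N hN A hA hnear K L η h1 h2 h3 h4 h5 h6⟩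

end Pool.Agent.Lib.MP391708.U
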