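import Pool.Agent.Lib.MP_391708_nt.QPA.Defs

/-!
# Project U (MP_391708), part U2: sums over the roots of `ν² ≡ -a (mod m)`
-/

set_option autoImplicit false

namespace Pool.Agent.Lib.MP391708.U

open Finset Filter Topology Pool.Agent.Lib.MP391708.QPA
open scoped Classical

noncomputable section

/-- `e(t) = exp(2πit)` -/
def ex (t : ℝ) : ℂ := Complex.exp (2 * Real.pi * Complex.I * (t : ℂ))

/-- `∑_{ν mod m, ν² ≡ -a} e(hν/m)` -/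
def rs (a h : ℤ) (m : ℕ) : ℂ :=
  ∑ ν ∈ (range m).filter (fun ν : ℕ => (m : ℤ) ∣ (ν : ℤ) ^ 2 + a), ex ((h : ℝ) * ν / m)

/-- ROOTW (helper65): the roots of `ν² ≡ -a (mod m)` are equidistributed with a power saving, for every single `a` with `-a` not
a square, `|a| ≤ N^(11/10)`, `m ≤ N^(1+σ)` in a progression `0 mod q`. -/
def SpecROOTW : Prop := ∃ σ : ℝ, 0 < σ ∧ ∃ N₀ : ℕ, ∀ N : ℕ, N₀ ≤ N → ∀ a : ℤ, ¬ IsSquare (-a) →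
  |(a : ℝ)| ≤ (N : ℝ) ^ (11 / 10 : ℝ) → ∀ q : ℕ, 1 ≤ q → (q : ℝ) ≤ (N : ℝ) ^ σ →
  ∀ h : ℤ, h ≠ 0 → |(h : ℝ)| ≤ (N : ℝ) ^ σ → ∀ M₁ M₂ : ℕ, M₁ ≤ M₂ → (M₂ : ℝ) ≤ (N : ℝ) ^ (1 + σ) →
    ‖∑ m ∈ (Ioc M₁ M₂).filter (fun m => q ∣ m), rs a h m‖ ≤ (N : ℝ) ^ (1 - σ)

end

end Pool.Agent.Lib.MP391708.U
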