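import Pool.Agent.Lib.MP_391708_nt.U.SpecUK

/-!
# Project UK (MP_391708), part 2: primes in `(N, 2N]` (the case `k = 1`), the final theorem

Modules as in `SpecUK.lean`: file `U/K/XXX.lean`, `theorem specXXX (hYYY : SpecYYY) .. : SpecXXX`, namespace
`Pool.Agent.Lib.MP391708.U.K`.
-/

set_option autoImplicit false

namespace Pool.Agent.Lib.MP391708.U.K

open Finset Filter Topology Pool.Agent.Lib.MP391708.QPA Pool.Agent.Lib.MP391708.QPA.H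
open scoped Classical

noncomputable section

/-- FINR (from BLKV, P3M, TAILV, F6U, MODP, RHOP, RHO2, GMAXU, 200 lines): FINQ for `k = 1`, one scale `M`. `FINK.exists_kappa θ (1/10)` of `QPA/FINK.lean` gives
`κ` with `θ + κ > 3/2`, `2/3 ≤ κ ≤ 4/5` and `cK κ ≤ c₀(θ) + 1/10 ≤ 2/5`, as `c₀(θ) = (5/2-3θ)²/(6(3/2-θ)²(θ-1/2)) ≤ (4/25)/(6·(4/9)·(1/5)) = 3/10`.
With `F = 1_P - 2·p3Ind (YK M κ)`: MODP and P3M give `model M F ≥ (1/2 - 1/20) M/log M - (2/5 + 1/10) M/(2 log M) = (1/5) M/log M`; BLKV with `ε = 1/20`: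
`cnt M 1_P ≥ cnt M F ≥ (3/20) G M/log M`. TAILV with `e0 = 1/100`: `C`; `η = min (1/10) (1/(40 C))`, `H = ⌈ηM⌉₊ + 1`, the number of the
`n ∈ (M, M+H]` with `M^(1/100)`-rough value is `≤ C G 2ηM/log M ≤ (1/20) G M/log M`; a prime value is `≥ M²/2`, so it is rough. F6U with `1/10`.
Hence `cntk 1 N a ≥ (1/10) G M/log M ≥ (9/100) h M/log M ≥ (1/50) h N/log N` for `M ≤ N ≤ (1+η)M + 1` (as in FINQ; a prime is squarefree with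
exactly one prime factor). `c = 1/50`. -/
def SpecFINR : Prop := ∀ θ : ℝ, 7 / 10 < θ → θ ≤ 5 / 6 → ∃ c η : ℝ, 0 < c ∧ 0 < η ∧ η ≤ 1 / 10 ∧
  ∀ B : ℝ, 0 < B → ∃ N₀ : ℕ, ∀ M A : ℕ, N₀ ≤ M → (M : ℝ) ^ θ ≤ A → (A : ℝ) ≤ M * √(Real.log M) →
    exc A (fun a => ∃ h : ℝ, 0 < h ∧ IsC a h ∧ ∀ N : ℕ, M ≤ N → (N : ℝ) ≤ (1 + η) * M + 1 →
      c * (h * (N / Real.log N)) ≤ cntk 1 N a) ≤ A / (Real.log A) ^ B

/-- UNIS (from FINR): as UNIQ, with `10/7` in place of `2`; `θ = min (5/6) ((7/10 + 1/(10/7-δ))/2)`, so `θ > 7/10` and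
`θ (10/7 - δ) < 1`. (If UNIQ is written with a general exponent `τ` and the conclusion of FINQ as hypothesis, both are special cases.) -/
def SpecUNIS : Prop := ∀ δ : ℝ, 0 < δ → δ < 3 / 7 → ∃ c : ℝ, 0 < c ∧ ∀ B : ℝ, 0 < B →
  ∃ A₀ : ℕ, ∀ A : ℕ, A₀ ≤ A →
  exc A (fun a => (A : ℝ) / 2 < |(a : ℝ)| → ∃ h : ℝ, 0 < h ∧ IsC a h ∧
    ∀ N : ℕ, |(a : ℝ)| ≤ N * (Real.log N) ^ (1 / 4 : ℝ) → (N : ℝ) ≤ |(a : ℝ)| ^ (10 / 7 - δ) →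
      c * (h * (N / Real.log N)) ≤ cntk 1 N a) ≤ A / (Real.log A) ^ B

/-- the exponent of the range -/
def eK (k : ℕ) : ℝ := if k = 1 then 10 / 7 else 2

/-- MAINW (from DIAG, UNIR, UNIP, UNIQ, UNIS): MAINV with the case `k = 1`: for `k = 1` the third property is that of UNIS (`δ` replaced by `min δ (1/7)`).
Same proof as MAINV. -/
def SpecMAINW : Prop := ∃ E : Set ℤ,
  (∀ B : ℝ, ∃ A₀ : ℕ, ∀ A : ℕ, A₀ ≤ A →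
    (((Icc (-(A : ℤ)) A).filter (fun a => a ∈ E)).card : ℝ) ≤ A / (Real.log A) ^ B) ∧
  ∀ (k : ℕ) (δ : ℝ), 1 ≤ k → 0 < δ → ∃ c : ℝ, 0 < c ∧ ∀ ε θ : ℝ, 0 < ε → 7 / 10 < θ → θ ≤ 5 / 6 →
    ∃ a₀ : ℝ, ∀ a : ℤ, a ∉ E → a₀ ≤ |(a : ℝ)| → ∃ h : ℝ, 0 < h ∧ IsC a h ∧
      ∀ N : ℕ, |(a : ℝ)| ≤ N * (Real.log N) ^ (1 / 4 : ℝ) →
        ((N : ℝ) ≤ |(a : ℝ)| ^ (6 / 5 - δ) → Good1 ε N N a h) ∧
        ((N : ℝ) ≤ |(a : ℝ)| ^ (1 / θ) → LowP (cP θ - ε) N a h) ∧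
        ((N : ℝ) ≤ |(a : ℝ)| ^ (eK k - δ) → c * (h * (N / Real.log N)) ≤ cntk k N a)

end

end Pool.Agent.Lib.MP391708.U.K
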