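import Pool.Agent.Lib.MP_391708_nt.U.MAINU
import Pool.Agent.Lib.MP_391708_nt.U.UNIR

/-!
# MAINUR: one exceptional set, the range `|a| ≤ N (log N)^(1/4)`, `N ≤ |a|^(6/5-δ)`
-/

set_option autoImplicit false

namespace Pool.Agent.Lib.MP391708.U

open Finset Filter Topology Pool.Agent.Lib.MP391708.QPA
open scoped Classical

/-- MAINUR (from UNIR): the theorem. -/
def SpecMAINUR : Prop := ∃ E : Set ℤ,
  (∀ B : ℝ, ∃ A₀ : ℕ, ∀ A : ℕ, A₀ ≤ A →
    (((Icc (-(A : ℤ)) A).filter (fun a => a ∈ E)).card : ℝ) ≤ A / (Real.log A) ^ B) ∧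
  ∀ δ ε : ℝ, 0 < δ → 0 < ε → ∃ a₀ : ℝ, ∀ a : ℤ, a ∉ E → a₀ ≤ |(a : ℝ)| →
    ∃ h : ℝ, 0 < h ∧ IsC a h ∧ ∀ N : ℕ, |(a : ℝ)| ≤ N * (Real.log N) ^ (1 / 4 : ℝ) →
      (N : ℝ) ≤ |(a : ℝ)| ^ (6 / 5 - δ) →
      |(((Icc 1 N).filter (fun n : ℕ => Nat.Prime ((n : ℤ) ^ 2 + a).natAbs)).card : ℝ)
        - 1 / 2 * h * ∫ t in (2 : ℝ)..(N : ℝ), 1 / Real.log t|
        ≤ ε * (h * ∫ t in (2 : ℝ)..(N : ℝ), 1 / Real.log t)

namespace MAINURM


/-- the property of the shift `a` with the parameters `d`, `e` -/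
def GdR (d e : ℝ) (a : ℤ) : Prop := ∃ h : ℝ, 0 < h ∧ IsC a h ∧
  ∀ N : ℕ, |(a : ℝ)| ≤ N * (Real.log N) ^ (1 / 4 : ℝ) → (N : ℝ) ≤ |(a : ℝ)| ^ (6 / 5 - d) → Good1 e N N a h

lemma GdR.mono {d d' e e' : ℝ} {a : ℤ} (hd : d ≤ d') (he : e ≤ e') (ha : (2 : ℝ) ≤ |(a : ℝ)|)
    (h : GdR d e a) : GdR d' e' a := by
  obtain ⟨c, hc, hI, hN⟩ := h
  refine ⟨c, hc, hI, fun N h1 h2 => ?_⟩
  have h3 : |(a : ℝ)| ^ (6 / 5 - d') ≤ |(a : ℝ)| ^ (6 / 5 - d) :=
    Real.rpow_le_rpow_of_exponent_le (by linarith) (by linarith)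
  have h4 := hN N h1 (h2.trans h3)
  refine le_trans h4 ?_
  have h5 : 0 ≤ ∫ t in (2 : ℝ)..(N : ℝ), 1 / Real.log t := by
    have h2N : 2 ≤ N := by
      by_contra hc
      have hN1 : N = 0 ∨ N = 1 := by omega
      rcases hN1 with rfl | rfl
      · simp at h1
        rw [h1] at ha
        norm_num at ha
      · simp at h1
        rw [h1] at ha
        norm_num at ha
    apply intervalIntegral.integral_nonneg (by exact_mod_cast h2N)
    intro u hu
    have : 0 ≤ Real.log u := Real.log_nonneg (by linarith [hu.1])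
    positivity
  exact mul_le_mul_of_nonneg_right he (by positivity)

end MAINURM

open MAINUM MAINURM in
theorem specMAINUR (hU : SpecUNIR) : SpecMAINUR := by
  -- thresholds
  have hT : ∀ k : ℕ, ∃ A₀ : ℕ, ∀ A : ℕ, A₀ ≤ A →
      exc A (fun a => (A : ℝ) / 2 < |(a : ℝ)| → GdR (1 / ((k : ℝ) + 6)) (1 / ((k : ℝ) + 1)) a)
        ≤ A / (Real.log A) ^ ((k : ℝ) + 1) := by
    intro k
    have h1 : (1 : ℝ) / ((k : ℝ) + 6) < 1 / 5 := by
      apply one_div_lt_one_div_of_lt (by norm_num)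
      have : (0 : ℝ) ≤ k := Nat.cast_nonneg k
      linarith
    exact hU (1 / ((k : ℝ) + 6)) (1 / ((k : ℝ) + 1)) ((k : ℝ) + 1) (by positivity) h1
      (by positivity) (by positivity)
  choose T hT using hT
  -- `S k` is at least `T k` and at least `k + 3`
  let S : ℕ → ℕ := fun k => max (T k) (k + 3)
  have hS1 : ∀ k, T k ≤ S k := fun k => le_max_left _ _
  have hS2 : ∀ k, k + 3 ≤ S k := fun k => le_max_right _ _
  let E : Set ℤ := {a | ∃ k : ℕ, S k ≤ a.natAbs ∧
    ¬ GdR (1 / ((k : ℝ) + 6)) (1 / ((k : ℝ) + 1)) a}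
  have habs : ∀ a : ℤ, ((a.natAbs : ℕ) : ℝ) = |(a : ℝ)| := by
    intro a
    rw [Nat.cast_natAbs]; push_cast; rfl
  refine ⟨E, ?_, ?_⟩
  · intro B
    -- one step
    have step : ∀ k₀ M : ℕ, S k₀ ≤ M → nE E M ≤ M / (Real.log M) ^ ((k₀ : ℝ) + 1) + nE E (M / 2) := by
      intro k₀ M hM
      set K := Nat.findGreatest (fun k => S k ≤ M) M with hK
      have hk₀M : k₀ ≤ M := by have := hS2 k₀; omega
      have hK1 : S K ≤ M := Nat.findGreatest_spec (P := fun k => S k ≤ M) hk₀M hM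
      have hK2 : k₀ ≤ K := Nat.le_findGreatest hk₀M hM
      have h1 := nE_half E M (fun a => (M : ℝ) / 2 < |(a : ℝ)| →
        GdR (1 / ((K : ℝ) + 6)) (1 / ((K : ℝ) + 1)) a) (by
          rintro a ⟨k, hk1, hk2⟩ ha1 ha2 hc
          have hkM : S k ≤ M := by
            have h2 : ((a.natAbs : ℕ) : ℝ) ≤ M := by rw [habs]; exact ha2
            have h3 : a.natAbs ≤ M := by exact_mod_cast h2
            omega
          have hkK : k ≤ K := by
            apply Nat.le_findGreatest (P := fun k => S k ≤ M) _ hkM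
            have := hS2 k
            omega
          apply hk2
          refine GdR.mono ?_ ?_ ?_ (hc ha1)
          · apply one_div_le_one_div_of_le (by positivity)
            have : (k : ℝ) ≤ K := by exact_mod_cast hkK
            linarith
          · apply one_div_le_one_div_of_le (by positivity)
            have : (k : ℝ) ≤ K := by exact_mod_cast hkK
            linarith
          · rw [← habs]
            have := hS2 k
            have h4 : 2 ≤ a.natAbs := by omega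
            exact_mod_cast h4)
      have h2 := hT K M ((hS1 K).trans hK1)
      refine h1.trans (add_le_add (h2.trans ?_) le_rfl)
      have h3M : 3 ≤ M := by have := hS2 k₀; omega
      have hl := one_le_log h3M
      apply div_le_div_of_nonneg_left (Nat.cast_nonneg M) (Real.rpow_pos_of_pos (by linarith) _)
      apply Real.rpow_le_rpow_of_exponent_le hl
      have : (k₀ : ℝ) ≤ K := by exact_mod_cast hK2
      linarith
    obtain ⟨k₀, hk₀⟩ := exists_nat_ge (max B 1)
    obtain ⟨A₁, hA₁⟩ := growth (max B 1)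
    refine ⟨max A₁ ((S k₀ + 1) ^ 2), fun A hA => ?_⟩
    have hAA : A₁ ≤ A := (le_max_left _ _).trans hA
    have hAS : (S k₀ + 1) ^ 2 ≤ A := (le_max_right _ _).trans hA
    have hS3 : 3 ≤ S k₀ := by have := hS2 k₀; omega
    have h3A : 3 ≤ A := by nlinarith
    have hsq : (S k₀ : ℝ) + 1 ≤ √(A : ℝ) := by
      apply Real.le_sqrt_of_sq_le
      exact_mod_cast hAS
    have hS3' : (3 : ℝ) ≤ S k₀ := by exact_mod_cast hS3
    have hB1 : (1 : ℝ) ≤ max B 1 := le_max_right _ _
    have hls : 0 < Real.log (√(A : ℝ)) := Real.log_pos (by linarith)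
    have hb := nE_bound E (√(A : ℝ)) ((Real.log (√(A : ℝ))) ^ (max B 1 + 1)) (Real.sqrt_nonneg _)
      (Real.rpow_pos_of_pos hls _) (by
        intro M hM
        have hSM : S k₀ ≤ M := by
          have : (S k₀ : ℝ) ≤ M := by linarith
          exact_mod_cast this
        refine (step k₀ M hSM).trans (add_le_add ?_ le_rfl)
        have h3M : 3 ≤ M := hS3.trans hSM
        have hl := one_le_log h3M
        apply div_le_div_of_nonneg_left (Nat.cast_nonneg M) (Real.rpow_pos_of_pos hls _)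
        calc (Real.log (√(A : ℝ))) ^ (max B 1 + 1) ≤ (Real.log M) ^ (max B 1 + 1) := by
              apply Real.rpow_le_rpow hls.le _ (by linarith)
              exact Real.log_le_log (by linarith) hM.le
          _ ≤ (Real.log M) ^ ((k₀ : ℝ) + 1) := by
              apply Real.rpow_le_rpow_of_exponent_le hl
              linarith) A
    refine le_trans (show _ ≤ nE E A from le_rfl) (hb.trans ((hA₁ A hAA).trans ?_))
    have hl := one_le_log h3A
    apply div_le_div_of_nonneg_left (Nat.cast_nonneg A) (Real.rpow_pos_of_pos (by linarith) _)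
    exact Real.rpow_le_rpow_of_exponent_le hl (le_max_left _ _)
  · intro δ ε hδ hε
    obtain ⟨k, hk⟩ := exists_nat_ge (max (1 / δ) (1 / ε))
    refine ⟨(S k : ℝ), fun a ha hSa => ?_⟩
    have hSk : S k ≤ a.natAbs := by
      rw [← habs] at hSa
      exact_mod_cast hSa
    have hG : GdR (1 / ((k : ℝ) + 6)) (1 / ((k : ℝ) + 1)) a := by
      by_contra hc
      exact ha ⟨k, hSk, hc⟩
    have h2a : (2 : ℝ) ≤ |(a : ℝ)| := by
      rw [← habs]
      have := hS2 k
      have h4 : 2 ≤ a.natAbs := by omega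
      exact_mod_cast h4
    have hk1 : 1 / δ ≤ k := (le_max_left _ _).trans hk
    have hk2 : 1 / ε ≤ k := (le_max_right _ _).trans hk
    have hd : 1 / ((k : ℝ) + 6) ≤ δ := by
      rw [div_le_iff₀ (by positivity)]
      rw [div_le_iff₀ hδ] at hk1
      nlinarith
    have he : 1 / ((k : ℝ) + 1) ≤ ε := by
      rw [div_le_iff₀ (by positivity)]
      rw [div_le_iff₀ hε] at hk2
      nlinarith
    obtain ⟨h, hh, hI, hN⟩ := hG.mono hd he h2a
    exact ⟨h, hh, hI, fun N h1 h2 => hN N h1 h2⟩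

end Pool.Agent.Lib.MP391708.U
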