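import Pool.Agent.Lib.MP_391708_nt.U.SpecU

/-!
# Project U (MP_391708): MAINU, one exceptional set
-/

set_option autoImplicit false

namespace Pool.Agent.Lib.MP391708.U

open Finset Filter Topology Pool.Agent.Lib.MP391708.QPA
open scoped Classical

namespace MAINUM

/-- the property of the shift `a` with the parameters `d`, `e` -/
def Gd (d e : ℝ) (a : ℤ) : Prop := ∃ h : ℝ, 0 < h ∧ IsC a h ∧
  ∀ N : ℕ, |(a : ℝ)| ≤ N → (N : ℝ) ≤ |(a : ℝ)| ^ (6 / 5 - d) → Good1 e N N a h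

lemma Gd.mono {d d' e e' : ℝ} {a : ℤ} (hd : d ≤ d') (he : e ≤ e') (ha : (2 : ℝ) ≤ |(a : ℝ)|)
    (h : Gd d e a) : Gd d' e' a := by
  obtain ⟨c, hc, hI, hN⟩ := h
  refine ⟨c, hc, hI, fun N h1 h2 => ?_⟩
  have h3 : |(a : ℝ)| ^ (6 / 5 - d') ≤ |(a : ℝ)| ^ (6 / 5 - d) :=
    Real.rpow_le_rpow_of_exponent_le (by linarith) (by linarith)
  have h4 := hN N h1 (h2.trans h3)
  refine le_trans h4 ?_
  have h5 : 0 ≤ ∫ t in (2 : ℝ)..(N : ℝ), 1 / Real.log t := by
    apply intervalIntegral.integral_nonneg (ha.trans h1)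
    intro u hu
    have : 0 ≤ Real.log u := Real.log_nonneg (by linarith [hu.1])
    positivity
  exact mul_le_mul_of_nonneg_right he (by positivity)

/-- the number of the elements of `E` with `|a| ≤ A` -/
noncomputable def nE (E : Set ℤ) (A : ℕ) : ℝ := (((Icc (-(A : ℤ)) A).filter (fun a => a ∈ E)).card : ℝ)

lemma nE_le (E : Set ℤ) (A : ℕ) : nE E A ≤ 2 * A + 1 := by
  unfold nE
  have h1 : ((Icc (-(A : ℤ)) A).filter (fun a => a ∈ E)).card ≤ (Icc (-(A : ℤ)) A).card :=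
    Finset.card_filter_le _ _
  have h2 : (Icc (-(A : ℤ)) A).card = 2 * A + 1 := by
    rw [Int.card_Icc]; omega
  rw [h2] at h1
  exact_mod_cast h1

/-- halving -/
lemma nE_half (E : Set ℤ) (A : ℕ) (P : ℤ → Prop)
    (hP : ∀ a ∈ E, (A : ℝ) / 2 < |(a : ℝ)| → |(a : ℝ)| ≤ A → ¬ P a) :
    nE E A ≤ exc A P + nE E (A / 2) := by
  unfold nE exc IA
  rw [← Nat.cast_add, Nat.cast_le]
  refine le_trans (Finset.card_le_card ?_) (Finset.card_union_le _ _)
  intro a ha
  rw [Finset.mem_filter, Finset.mem_Icc] at ha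
  obtain ⟨⟨h1, h2⟩, h3⟩ := ha
  rw [Finset.mem_union, Finset.mem_filter, Finset.mem_filter, Finset.mem_Icc, Finset.mem_Icc]
  have habs : |a| ≤ (A : ℤ) := abs_le.mpr ⟨h1, h2⟩
  by_cases h : 2 * |a| ≤ (A : ℤ)
  · right
    refine ⟨abs_le.mp ?_, h3⟩
    push_cast
    omega
  · left
    refine ⟨⟨h1, h2⟩, hP a h3 ?_ ?_⟩
    · have h4 : ((A : ℤ) : ℝ) < ((2 * |a| : ℤ) : ℝ) := by exact_mod_cast (not_le.mp h)
      push_cast at h4
      linarith
    · have h4 : ((|a| : ℤ) : ℝ) ≤ ((A : ℤ) : ℝ) := by exact_mod_cast habs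
      push_cast at h4
      exact h4

/-- the dyadic sum -/
lemma nE_bound (E : Set ℤ) (Y L : ℝ) (hY : 0 ≤ Y) (hL : 0 < L)
    (h : ∀ M : ℕ, Y < M → nE E M ≤ M / L + nE E (M / 2)) :
    ∀ M : ℕ, nE E M ≤ 2 * M / L + (2 * Y + 1) := by
  intro M
  induction M using Nat.strong_induction_on with
  | _ M ih =>
    by_cases hM : (M : ℝ) ≤ Y
    · have h1 := nE_le E M
      have h2 : 0 ≤ 2 * (M : ℝ) / L := by positivity
      linarith
    · rw [not_le] at hM
      have hM0 : 0 < M := by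
        have : (0 : ℝ) < M := lt_of_le_of_lt hY hM
        exact_mod_cast this
      have h1 := h M hM
      have h2 := ih (M / 2) (Nat.div_lt_self hM0 (by norm_num))
      have h3 : ((M / 2 : ℕ) : ℝ) ≤ (M : ℝ) / 2 := by
        have := @Nat.cast_div_le ℝ _ _ _ M 2
        simpa using this
      have h4 : 2 * ((M / 2 : ℕ) : ℝ) / L ≤ M / L := by
        apply div_le_div_of_nonneg_right _ hL.le
        linarith
      have h5 : 2 * (M : ℝ) / L = M / L + M / L := by ring
      linarith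

lemma one_le_log {M : ℕ} (h : 3 ≤ M) : 1 ≤ Real.log M := by
  rw [Real.le_log_iff_exp_le (by positivity)]
  have h1 := Real.exp_one_lt_d9
  have h2 : (3 : ℝ) ≤ M := by exact_mod_cast h
  linarith

/-- growth -/
lemma growth (B : ℝ) : ∃ A₀ : ℕ, ∀ A : ℕ, A₀ ≤ A →
    2 * (A : ℝ) / (Real.log (√(A : ℝ))) ^ (B + 1) + (2 * √(A : ℝ) + 1) ≤ A / (Real.log A) ^ B := by
  have h1 : Tendsto (fun A : ℕ => Real.log (A : ℝ)) atTop atTop :=
    Real.tendsto_log_atTop.comp tendsto_natCast_atTop_atTop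
  have h2 : (fun A : ℕ => (Real.log (A : ℝ)) ^ B) =o[atTop] (fun A : ℕ => (A : ℝ) ^ (1 / 2 : ℝ)) :=
    (isLittleO_log_rpow_rpow_atTop B (by norm_num : (0 : ℝ) < 1 / 2)).comp_tendsto
      tendsto_natCast_atTop_atTop
  have h3 := h2.bound (show (0 : ℝ) < 1 / 8 by norm_num)
  have h4 := h1.eventually_ge_atTop ((2 : ℝ) ^ (B + 3))
  have h6 : ∀ᶠ A : ℕ in atTop, 2 ≤ A := eventually_ge_atTop 2
  have h5 := h3.and (h4.and h6)
  rw [eventually_atTop] at h5
  obtain ⟨A₀, hA₀⟩ := h5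
  refine ⟨A₀, fun A hA => ?_⟩
  obtain ⟨k1, k2, k3⟩ := hA₀ A hA
  have hA2 : (2 : ℝ) ≤ A := by exact_mod_cast k3
  have hA0 : (0 : ℝ) < A := by linarith
  set l := Real.log (A : ℝ) with hl
  have hl0 : 0 < l := Real.log_pos (by linarith)
  have hs : Real.log (√(A : ℝ)) = l / 2 := by
    rw [Real.log_sqrt hA0.le]
  rw [hs]
  have hs1 : (1 : ℝ) ≤ √(A : ℝ) := by
    rw [Real.one_le_sqrt]; linarith
  have hss : √(A : ℝ) * √(A : ℝ) = A := Real.mul_self_sqrt hA0.le
  rw [← Real.sqrt_eq_rpow, Real.norm_of_nonneg (Real.rpow_nonneg hl0.le _),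
    Real.norm_of_nonneg (Real.sqrt_nonneg _)] at k1
  have hlB : 0 < l ^ B := Real.rpow_pos_of_pos hl0 _
  have e1 : 2 * (A : ℝ) / (l / 2) ^ (B + 1) ≤ (1 / 2) * (A / l ^ B) := by
    rw [Real.div_rpow hl0.le (by norm_num), Real.rpow_add_one hl0.ne']
    have h2B : (2 : ℝ) ^ (B + 3) = 4 * 2 ^ (B + 1) := by
      rw [show B + 3 = (B + 1) + 2 by ring, Real.rpow_add (by norm_num : (0 : ℝ) < 2)]
      norm_num
      ring
    have h2p : 0 < (2 : ℝ) ^ (B + 1) := Real.rpow_pos_of_pos (by norm_num) _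
    rw [h2B] at k2
    rw [show 2 * (A : ℝ) / (l ^ B * l / 2 ^ (B + 1)) = (A / l ^ B) * (2 * 2 ^ (B + 1) / l) by
      field_simp]
    rw [show (1 / 2 : ℝ) * (A / l ^ B) = (A / l ^ B) * (1 / 2) by ring]
    apply mul_le_mul_of_nonneg_left _ (by positivity)
    rw [div_le_iff₀ hl0]
    linarith
  have e2 : 2 * √(A : ℝ) + 1 ≤ (1 / 2) * (A / l ^ B) := by
    rw [show (1 / 2 : ℝ) * (A / l ^ B) = (A / 2) / l ^ B by ring, le_div_iff₀ hlB]
    have : (2 * √(A : ℝ) + 1) * l ^ B ≤ (3 * √(A : ℝ)) * (1 / 8 * √(A : ℝ)) := by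
      apply mul_le_mul (by linarith) k1 hlB.le (by positivity)
    nlinarith
  linarith

end MAINUM

open MAINUM in
theorem specMAINU (hU : SpecUNI) : SpecMAINU := by
  -- thresholds
  have hT : ∀ k : ℕ, ∃ A₀ : ℕ, ∀ A : ℕ, A₀ ≤ A →
      exc A (fun a => (A : ℝ) / 2 < |(a : ℝ)| → Gd (1 / ((k : ℝ) + 6)) (1 / ((k : ℝ) + 1)) a)
        ≤ A / (Real.log A) ^ ((k : ℝ) + 1) := by
    intro k
    have h1 : (1 : ℝ) / ((k : ℝ) + 6) < 1 / 5 := by
      apply one_div_lt_one_div_of_lt (by norm_num)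
      have : (0 : ℝ) ≤ k := Nat.cast_nonneg k
      linarith
    exact hU (1 / ((k : ℝ) + 6)) (1 / ((k : ℝ) + 1)) ((k : ℝ) + 1) (by positivity) h1
      (by positivity) (by positivity)
  choose T hT using hT
  -- `S k` is at least `T k` and at least `k + 3`
  let S : ℕ → ℕ := fun k => max (T k) (k + 3)
  have hS1 : ∀ k, T k ≤ S k := fun k => le_max_left _ _
  have hS2 : ∀ k, k + 3 ≤ S k := fun k => le_max_right _ _
  let E : Set ℤ := {a | ∃ k : ℕ, S k ≤ a.natAbs ∧
    ¬ Gd (1 / ((k : ℝ) + 6)) (1 / ((k : ℝ) + 1)) a}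
  have habs : ∀ a : ℤ, ((a.natAbs : ℕ) : ℝ) = |(a : ℝ)| := by
    intro a
    rw [Nat.cast_natAbs]; push_cast; rfl
  refine ⟨E, ?_, ?_⟩
  · intro B
    -- one step
    have step : ∀ k₀ M : ℕ, S k₀ ≤ M → nE E M ≤ M / (Real.log M) ^ ((k₀ : ℝ) + 1) + nE E (M / 2) := by
      intro k₀ M hM
      set K := Nat.findGreatest (fun k => S k ≤ M) M with hK
      have hk₀M : k₀ ≤ M := by have := hS2 k₀; omega
      have hK1 : S K ≤ M := Nat.findGreatest_spec (P := fun k => S k ≤ M) hk₀M hM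
      have hK2 : k₀ ≤ K := Nat.le_findGreatest hk₀M hM
      have h1 := nE_half E M (fun a => (M : ℝ) / 2 < |(a : ℝ)| →
        Gd (1 / ((K : ℝ) + 6)) (1 / ((K : ℝ) + 1)) a) (by
          rintro a ⟨k, hk1, hk2⟩ ha1 ha2 hc
          have hkM : S k ≤ M := by
            have h2 : ((a.natAbs : ℕ) : ℝ) ≤ M := by rw [habs]; exact ha2
            have h3 : a.natAbs ≤ M := by exact_mod_cast h2
            omega
          have hkK : k ≤ K := by
            apply Nat.le_findGreatest (P := fun k => S k ≤ M) _ hkM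
            have := hS2 k
            omega
          apply hk2
          refine Gd.mono ?_ ?_ ?_ (hc ha1)
          · apply one_div_le_one_div_of_le (by positivity)
            have : (k : ℝ) ≤ K := by exact_mod_cast hkK
            linarith
          · apply one_div_le_one_div_of_le (by positivity)
            have : (k : ℝ) ≤ K := by exact_mod_cast hkK
            linarith
          · rw [← habs]
            have := hS2 k
            have h4 : 2 ≤ a.natAbs := by omega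
            exact_mod_cast h4)
      have h2 := hT K M ((hS1 K).trans hK1)
      refine h1.trans (add_le_add (h2.trans ?_) le_rfl)
      have h3M : 3 ≤ M := by have := hS2 k₀; omega
      have hl := one_le_log h3M
      apply div_le_div_of_nonneg_left (Nat.cast_nonneg M) (Real.rpow_pos_of_pos (by linarith) _)
      apply Real.rpow_le_rpow_of_exponent_le hl
      have : (k₀ : ℝ) ≤ K := by exact_mod_cast hK2
      linarith
    obtain ⟨k₀, hk₀⟩ := exists_nat_ge (max B 1)
    obtain ⟨A₁, hA₁⟩ := growth (max B 1)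
    refine ⟨max A₁ ((S k₀ + 1) ^ 2), fun A hA => ?_⟩
    have hAA : A₁ ≤ A := (le_max_left _ _).trans hA
    have hAS : (S k₀ + 1) ^ 2 ≤ A := (le_max_right _ _).trans hA
    have hS3 : 3 ≤ S k₀ := by have := hS2 k₀; omega
    have h3A : 3 ≤ A := by nlinarith
    have hsq : (S k₀ : ℝ) + 1 ≤ √(A : ℝ) := by
      apply Real.le_sqrt_of_sq_le
      exact_mod_cast hAS
    have hS3' : (3 : ℝ) ≤ S k₀ := by exact_mod_cast hS3
    have hB1 : (1 : ℝ) ≤ max B 1 := le_max_right _ _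
    have hls : 0 < Real.log (√(A : ℝ)) := Real.log_pos (by linarith)
    have hb := nE_bound E (√(A : ℝ)) ((Real.log (√(A : ℝ))) ^ (max B 1 + 1)) (Real.sqrt_nonneg _)
      (Real.rpow_pos_of_pos hls _) (by
        intro M hM
        have hSM : S k₀ ≤ M := by
          have : (S k₀ : ℝ) ≤ M := by linarith
          exact_mod_cast this
        refine (step k₀ M hSM).trans (add_le_add ?_ le_rfl)
        have h3M : 3 ≤ M := hS3.trans hSM
        have hl := one_le_log h3M
        apply div_le_div_of_nonneg_left (Nat.cast_nonneg M) (Real.rpow_pos_of_pos hls _)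
        calc (Real.log (√(A : ℝ))) ^ (max B 1 + 1) ≤ (Real.log M) ^ (max B 1 + 1) := by
              apply Real.rpow_le_rpow hls.le _ (by linarith)
              exact Real.log_le_log (by linarith) hM.le
          _ ≤ (Real.log M) ^ ((k₀ : ℝ) + 1) := by
              apply Real.rpow_le_rpow_of_exponent_le hl
              linarith) A
    refine le_trans (show _ ≤ nE E A from le_rfl) (hb.trans ((hA₁ A hAA).trans ?_))
    have hl := one_le_log h3A
    apply div_le_div_of_nonneg_left (Nat.cast_nonneg A) (Real.rpow_pos_of_pos (by linarith) _)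
    exact Real.rpow_le_rpow_of_exponent_le hl (le_max_left _ _)
  · intro δ ε hδ hε
    obtain ⟨k, hk⟩ := exists_nat_ge (max (1 / δ) (1 / ε))
    refine ⟨(S k : ℝ), fun a ha hSa => ?_⟩
    have hSk : S k ≤ a.natAbs := by
      rw [← habs] at hSa
      exact_mod_cast hSa
    have hG : Gd (1 / ((k : ℝ) + 6)) (1 / ((k : ℝ) + 1)) a := by
      by_contra hc
      exact ha ⟨k, hSk, hc⟩
    have h2a : (2 : ℝ) ≤ |(a : ℝ)| := by
      rw [← habs]
      have := hS2 k
      have h4 : 2 ≤ a.natAbs := by omega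
      exact_mod_cast h4
    have hk1 : 1 / δ ≤ k := (le_max_left _ _).trans hk
    have hk2 : 1 / ε ≤ k := (le_max_right _ _).trans hk
    have hd : 1 / ((k : ℝ) + 6) ≤ δ := by
      rw [div_le_iff₀ (by positivity)]
      rw [div_le_iff₀ hδ] at hk1
      nlinarith
    have he : 1 / ((k : ℝ) + 1) ≤ ε := by
      rw [div_le_iff₀ (by positivity)]
      rw [div_le_iff₀ hε] at hk2
      nlinarith
    obtain ⟨h, hh, hI, hN⟩ := hG.mono hd he h2a
    exact ⟨h, hh, hI, fun N h1 h2 => hN N h1 h2⟩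

end Pool.Agent.Lib.MP391708.U
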