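import Pool.Agent.Lib.MP_391708_nt.U.SpecU
import Pool.Agent.Lib.MP_391708_nt.U.DefsR

/-!
# Project U (MP_391708), part U2: the windows (all of them), from ROOTW

Chain: ROOTW (DefsR) → TYA → TYPEI → TYW (Type I estimates for EVERY single `a`, level `N^(1+σ)` in the smooth variable `k`) →
WPT (upper bound sieve for `n² + a = k l`, both `k` and `l` sifted, every `a`) → WMS (its main term, almost all `a`) → WINU.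
Every module file `U/X.lean` proves `theorem specX (h₁ : SpecY) .. : SpecX`, own lemmas in the namespace `XM`.
`τ(n) = n.divisors.card`.  The divisor bound is `Pool.Agent.Lib.MP_391708_nt.Div.card_divisors_le_rpow`.
-/

set_option autoImplicit false

namespace Pool.Agent.Lib.MP391708.U

open Finset Filter Topology Pool.Agent.Lib.MP391708.QPA
open scoped Classical

noncomputable section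

/-- the number of divisors -/
def ta (n : ℕ) : ℝ := (n.divisors.card : ℝ)

/-- the centre of the tent, about `3N/2` -/
def n0 (N : ℕ) : ℕ := N + (N + 1) / 2

/-- the tent of half width `N` around `n0 N` -/
def tn (N n : ℕ) : ℝ := max 0 (1 - |(n : ℝ) - (n0 N : ℝ)| / N)

/-- `|∑_{i<N} e(b i/m)|² / (m N)` -/
def fj (N m : ℕ) (b : ℤ) : ℝ := ‖∑ i ∈ range N, ex ((b : ℝ) * i / m)‖ ^ 2 / ((m : ℝ) * N)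

/-- the weighted number of the `n` with `m ∣ n² + a` -/
def tcnt (N : ℕ) (a : ℤ) (m : ℕ) : ℝ := ∑ n ∈ Icc 1 (4 * N), if m ∣ val a n then tn N n else 0

/-- the error term of the modulus `m` -/
def Ger (N : ℕ) (a : ℤ) (m : ℕ) : ℝ := tcnt N a m - (N : ℝ) * rho a m / m

/-- TNT (100 lines). Elementary properties of the tent, and of its finite Fourier expansion.
Proof. `n0 N - N = ⌊(N+1)/2⌋`, `|n - n0| ≤ N/2` for `N < n ≤ 2N`; `tn N n ≠ 0` means `|n - n0| < N`, i.e.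
`⌊(N+1)/2⌋ < n ≤ 2N + ⌊(N+1)/2⌋ - 1`.  For the Fourier expansion: `N tn N n` is the number of the pairs `(i,j)`,
`i, j < N`, with `n = n0 + i - j` (all these `n` lie in `[1, 4N]`), so with `D(b) = ∑_{i<N} e(b i/m)` and
`1_{m ∣ x} = (1/m) ∑_{b<m} e(b x/m)`: `∑_n N tn(n) 1[m ∣ n - t] = ∑_{i,j} 1[m ∣ n0 + i - j - t]
= (1/m) ∑_b e(b(n0 - t)/m) D(b) conj(D(b))`; it is real, so take the complex conjugate. -/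
def SpecTNT : Prop := ∀ N : ℕ, 1 ≤ N →
  (∀ n, 0 ≤ tn N n ∧ tn N n ≤ 1) ∧ (∀ n ∈ Ioc N (2 * N), 1 / 2 ≤ tn N n) ∧
  (∀ n, tn N n ≠ 0 → N < 2 * n ∧ 2 * n ≤ 5 * N) ∧
  ∀ (m : ℕ) (t : ℤ), 1 ≤ m →
    (((∑ n ∈ Icc 1 (4 * N), if (m : ℤ) ∣ (n : ℤ) - t then tn N n else 0 : ℝ)) : ℂ)
      = ∑ b ∈ range m, (fj N m b : ℂ) * ex ((b : ℝ) * ((t : ℝ) - n0 N) / m)

/-- FJB (80 lines). Proof. `b = 0`: `N²/(mN)`. `|D(b)| ≤ m/(2 min(b, m-b))` is the geometric sum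
(`Pool.Agent.Lib.MP_1446ad_nt.SM.specGEO`, or directly). `D(b-m) = D(b)`, `D(-b) = conj D(b)`; the last formula
is `|D|² = D conj(D)` expanded. -/
def SpecFJB : Prop := ∀ N m : ℕ, 1 ≤ N → 1 ≤ m →
  fj N m 0 = (N : ℝ) / m ∧
  (∀ b : ℕ, 0 < b → b < m → 0 ≤ fj N m b ∧ fj N m b ≤ m / (4 * N * (min (b : ℝ) ((m : ℝ) - b)) ^ 2)) ∧
  (∀ b : ℤ, fj N m (b - m) = fj N m b ∧ fj N m (-b) = fj N m b) ∧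
  (∀ b : ℤ, (fj N m b : ℂ) = 1 / ((m : ℂ) * N) *
    ∑ i ∈ range N, ∑ j ∈ range N, ex ((b : ℝ) * ((i : ℝ) - j) / m))

/-- ABL (80 lines). Partial summation.
Proof. `φ(m) = e(t/m)/m`: `|φ(m) - φ(m+1)| ≤ (1 + 2π|t|/M₁)(1/m - 1/(m+1))` for `m ≥ M₁` (`|e(x) - e(y)| ≤ 2π|x-y|`), so
`∑ φ(m) c_m = φ(M₂) S(M₂) + ∑_{M₁<m<M₂} (φ(m) - φ(m+1)) S(m)` is at most `B (1/M₁ + (1 + 2π|t|/M₁)/M₁)`. -/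
def SpecABL : Prop := ∀ (c : ℕ → ℂ) (M₁ M₂ : ℕ) (B t : ℝ), 1 ≤ M₁ → M₁ ≤ M₂ →
  (∀ M ∈ Icc M₁ M₂, ‖∑ m ∈ Ioc M₁ M, c m‖ ≤ B) →
  ‖∑ m ∈ Ioc M₁ M₂, (1 / (m : ℂ)) * ex (t / m) * c m‖ ≤ B / M₁ * (2 + 2 * Real.pi * |t| / M₁)

/-- RSU (150 lines; from the divisor bound). Proof. `ν² + a ≠ 0` for all `ν`, as `-a` is not a square. (i) `∑_{m ≤ Z} ρ_a(m)` is the number
of the pairs `ν < m ≤ Z`, `m ∣ ν² + a`: for given `ν` at most `τ(|ν²+a|) ≤ C'(Z²+|a|)^(ε/2) ≤ C'(Z+|a|)^ε` of them.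
(ii) `r' = r/gcd(r,2)` is odd, squarefree, `r' ∣ a`; so `m ∣ ν²+a`, `r ∣ m` give `r' ∣ ν²`, `r' ∣ ν`. The pairs with `ν = 0`: `m ≥ r`:
at most `τ(|a|)/r`; the pairs with `ν = r'j`, `1 ≤ j ≤ Z`: `1/m ≤ 1/(r'j)`: at most `∑_j τ/(r'j) ≤ C(1+log Z) max τ/r'`, `r' ≥ r/2`.
(iii) `r ∣ n²+a` gives `r' ∣ n`: at most `Z/r' ≤ 2Z/r` values of `n`. -/
def SpecRSU : Prop := ∀ ε : ℝ, 0 < ε → ∃ C : ℝ, 0 < C ∧ ∀ a : ℤ, ¬ IsSquare (-a) → ∀ Z : ℕ, 1 ≤ Z →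
  (∑ m ∈ Icc 1 Z, (rho a m : ℝ) ≤ C * ((Z : ℝ) + |(a : ℝ)|) ^ ε * Z) ∧
  (∀ r : ℕ, Squarefree r → (r : ℤ) ∣ 2 * a →
    (∑ m ∈ (Icc 1 Z).filter (fun m => r ∣ m), (rho a m : ℝ) / m ≤ C * ((Z : ℝ) + |(a : ℝ)|) ^ ε / r) ∧
    (∑ n ∈ (Icc 1 Z).filter (fun n => r ∣ val a n), ta (val a n)
      ≤ C * ((Z : ℝ) + |(a : ℝ)|) ^ ε * Z / r))

/-- TCE (120 lines; from TNT, FJB). The error term of one modulus.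
Proof. `m ∣ val a n` iff `n ≡ ν` for exactly one root `ν < m`; TNT for `t = ν`, summed over the roots:
`tcnt = ∑_{b<m} fj(b) e(-b n0/m) rs a b m`, the term `b = 0` is `N ρ/m`. For `0 < b ≤ H` this is `h = b`; for `m - H ≤ b < m` it is
`h = b - m` (`rs a b m = rs a (b-m) m`, FJB); the others: `|rs| ≤ ρ` and
`∑_{H<b<m-H} fj ≤ 2 (m/(4N)) ∑_{b>H} 1/b² ≤ m/(N(H+1))` (`∑_{b>H} 1/b² ≤ 2/(H+1)`). -/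
def SpecTCE : Prop := ∀ (N m H : ℕ) (a : ℤ), 1 ≤ N → 1 ≤ m → 2 * H < m →
  ‖((Ger N a m : ℝ) : ℂ) - ∑ h ∈ Icc 1 H, ((fj N m h : ℂ) * ex (-((h : ℝ) * n0 N / m)) * rs a h m
      + (fj N m h : ℂ) * ex ((h : ℝ) * n0 N / m) * rs a (-(h : ℤ)) m)‖
    ≤ (rho a m : ℝ) * m / (N * ((H : ℝ) + 1))

/-- TYA (200 lines; from ROOTW, TCE, FJB, ABL, RSU). One dyadic block of moduli.
Proof. Let `s ≤ 1/2` be an admissible `σ` for ROOTW (its statement is weaker for smaller `σ`), `σ = s/64`, `ε = s/256`,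
`(2M₁+|a|)^ε ≤ (3N^(11/10))^ε ≤ 3N^(s/200)`.
(A) `M₁ ≤ N^(1-s/8)`: TCE with `H = 0`, RSU (i): at most `(2M₁/N) C 3N^(s/200) 2M₁ ≤ 12 C N^(1-s/4+s/200)`.
(B) `M₁ > N^(1-s/8)`: TCE with `H = ⌊N^(s/8)⌋` (`2H < M₁`). For every `h`, `0 < |h| ≤ H`, by the last formula of FJB,
`∑_{m ∈ (M₁,M₂], Q ∣ m} fj(h) e(-h n0/m) rs a h m = (1/N) ∑_{i,j<N} ∑_m (1/m) e((h(i-j) - h n0)/m) rs a h m`, and by ROOTW and ABL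
(`c m = rs a h m` if `Q ∣ m`, else 0; `B = N^(1-s)`; `|t| ≤ 3HN`) its absolute value is at most
`N N^(1-s)/M₁ (2 + 19 H N/M₁) ≤ 21 N^(1-s+3s/8)`; there are `2H ≤ 2N^(s/8)` values of `h`: at most `42 N^(1-s/2)`.
The error of TCE: `(M₂/(N(H+1))) ∑ρ ≤ (M₂²/N^(1+s/8)) 3 C N^(s/200) ≤ 3 C N^(1+2s/64+s/200-s/8)`. -/
def SpecTYA : Prop := ∃ σ : ℝ, 0 < σ ∧ ∃ N₀ : ℕ, ∀ N : ℕ, N₀ ≤ N → ∀ a : ℤ, ¬ IsSquare (-a) →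
  |(a : ℝ)| ≤ (N : ℝ) ^ (11 / 10 : ℝ) → ∀ Q : ℕ, 1 ≤ Q → (Q : ℝ) ≤ (N : ℝ) ^ σ →
  ∀ M₁ M₂ : ℕ, 1 ≤ M₁ → M₁ ≤ M₂ → M₂ ≤ 2 * M₁ → (M₂ : ℝ) ≤ (N : ℝ) ^ (1 + σ) →
    |∑ m ∈ (Ioc M₁ M₂).filter (fun m => Q ∣ m), Ger N a m| ≤ (N : ℝ) ^ (1 - σ)

/-- TYPEI (100 lines; from TYA). Type I estimate for every `a`.
Proof. `m = k d`: the `m ∈ (dK₁, dK₂]` with `q d ∣ m`. `σ = σ(TYA)/2`, `Q = q d`. Dyadic decomposition of `(dK₁, dK₂]`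
(`≤ 4 log N` pieces `(M, min(2M, dK₂)]`, starting at `M = dK₁ ≥ 1`), `d K₂ ≤ 4N N^(σ/2) ≤ N^(1+σ)`. -/
def SpecTYPEI : Prop := ∃ σ : ℝ, 0 < σ ∧ ∃ N₀ : ℕ, ∀ N : ℕ, N₀ ≤ N → ∀ a : ℤ, ¬ IsSquare (-a) →
  |(a : ℝ)| ≤ (N : ℝ) ^ (11 / 10 : ℝ) → ∀ q d : ℕ, 1 ≤ q → 1 ≤ d → (q : ℝ) ≤ (N : ℝ) ^ σ →
  (d : ℝ) ≤ (N : ℝ) ^ σ → ∀ K₁ K₂ : ℕ, 1 ≤ K₁ → K₁ ≤ K₂ → K₂ ≤ 4 * N →
    |∑ k ∈ (Ioc K₁ K₂).filter (fun k => q ∣ k), Ger N a (k * d)| ≤ (N : ℝ) ^ (1 - σ)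

/-- a short divisor sum -/
def sds (I : Finset ℕ) (x : ℕ → ℝ) (k : ℕ) : ℝ := ∑ q ∈ I, if q ∣ k then x q else 0

/-- TYW (180 lines; from TYPEI, RSU, divisor bound). Type I estimate with short divisor sums and the condition `(k,2a) = 1`.
Proof. `σ₀ = σ(TYPEI)`, `σ = σ₀/8`, `R = N^(σ₀/2)`, `1_{(k,2a)=1} = ∑_{r ∣ k, r ∣ 2a} μ(r)`. The `r ≤ R`: for every `q ∈ I` and `r` the sum over the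
`k` with `lcm(q,r) ∣ k` (`lcm ≤ N^(σ+σ₀/2) ≤ N^σ₀`): at most `∑|x_q| R N^(1-σ₀) ≤ N^(σ+σ₀/2+1-σ₀)`. The squarefree `r > R`, `r ∣ 2a`:
`|sds| ≤ N^σ`, `|Ger N a (kd)| ≤ tcnt N a (kd) + N ρ(kd)/(kd)`, and `∑_{k : r ∣ k} tcnt N a (kd) ≤ ∑_{n ≤ 4N, r ∣ val} τ(val a n)` (for given `n` the
`k` are divisors of `val a n`; `val a n ≠ 0`), `∑_{k : r ∣ k} ρ(kd)/(kd) ≤ ∑_{m ≤ 4N N^σ, r ∣ m} ρ(m)/m`; RSU (ii), (iii) with small `ε`: at most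
`N^σ τ(2a) C N^(1+ε')/R`. -/
def SpecTYW : Prop := ∃ σ : ℝ, 0 < σ ∧ ∃ N₀ : ℕ, ∀ N : ℕ, N₀ ≤ N → ∀ a : ℤ, ¬ IsSquare (-a) →
  |(a : ℝ)| ≤ (N : ℝ) ^ (11 / 10 : ℝ) → ∀ (I : Finset ℕ) (x : ℕ → ℝ),
  (∀ q ∈ I, 1 ≤ q ∧ (q : ℝ) ≤ (N : ℝ) ^ σ) → ∑ q ∈ I, |x q| ≤ (N : ℝ) ^ σ →
  ∀ d : ℕ, 1 ≤ d → (d : ℝ) ≤ (N : ℝ) ^ σ → ∀ K₁ K₂ : ℕ, 1 ≤ K₁ → K₁ ≤ K₂ → K₂ ≤ 4 * N →
    |∑ k ∈ (Ioc K₁ K₂).filter (fun k => Nat.Coprime k (2 * a).natAbs), sds I x k * Ger N a (k * d)|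
      ≤ (N : ℝ) ^ (1 - σ)

/-! ## The weights of `k` -/

/-- the truncated sum of Brun: `∑ μ(t)` over the squarefree `t ∣ k` composed of primes `< w`, at most `2b` of them -/
def bru (w : ℝ) (b k : ℕ) : ℝ :=
  ∑ t ∈ k.divisors.filter (fun t => Squarefree t ∧ (∀ p : ℕ, p.Prime → p ∣ t → (p : ℝ) < w) ∧
    t.primeFactors.card ≤ 2 * b), (ArithmeticFunction.moebius t : ℝ)

/-- the number of primes `< w` dividing `k` -/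
def osm (w : ℝ) (k : ℕ) : ℕ := (k.primeFactors.filter (fun p : ℕ => (p : ℝ) < w)).card

/-- the weight of `k` -/
def ck (w : ℝ) (b : ℕ) (lam : ℕ → ℝ) (k : ℕ) : ℝ := bru w b k * Th lam k

/-- BRU (100 lines). Proof. With `j = osm w k` the sum is `∑_{i ≤ 2b} (-1)^i C(j,i)`: `1` for `j = 0`, `C(j-1, 2b) ≥ 0` for `j ≥ 1`
(`Int.alternating_sum_range_choose_eq_choose`), which vanishes for `1 ≤ j ≤ 2b`; and it is at most `2^j ≤ τ(k)`. -/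
def SpecBRU : Prop := ∀ (w : ℝ) (b k : ℕ), 1 ≤ k →
  0 ≤ bru w b k ∧ bru w b k ≤ ta k ∧ (Rough w k → bru w b k = 1) ∧
  (¬ Rough w k → bru w b k ≠ 0 → 2 * b < osm w k)

/-- TAUM (80 lines). Proof. `τ(mn) ≤ τ(m)τ(n)`; `∑_{k≤X} τ(k)^(j+1)/k = ∑_k ∑_{d∣k} τ(k)^j/k ≤ (∑_{d≤X} τ(d)^j/d)²`, induction from
`∑_{k≤X} 1/k ≤ 1 + log X`. For the multiples of `g`: `k = g k'`. -/
def SpecTAUM : Prop := ∀ j X g : ℕ, 1 ≤ X → 1 ≤ g →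
  ∑ k ∈ (Icc 1 X).filter (fun k => g ∣ k), ta k ^ j / (k : ℝ) ≤ ta g ^ j / g * (1 + Real.log X) ^ 2 ^ j

/-- SLM (120 lines; from SELB with `m = 1`). The mean of Selberg's majorant.
Proof. `Th lam k = ∑_{d,e ∣ k} λ_d λ_e`; for `D = lcm(d,e) ≤ y² ≤ K₁`: `∑_{K₁<k≤K₂, D∣k} 1/k = (1/D)(log(K₂/K₁) + O(D/K₁))`, error constant `2`
(`∑_{x₁<j≤x₂} 1/j = log(x₂/x₁) + O(1/x₁)`, `x₁ ≥ 1`). So the sum is at most `QF y lam log(K₂/K₁) + 2y²/K₁`. -/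
def SpecSLM : Prop := ∃ C : ℝ, 0 < C ∧ ∀ y : ℝ, 2 ≤ y → ∃ lam : ℕ → ℝ,
  lam 1 = 1 ∧ (∀ d, |lam d| ≤ 1) ∧ (∀ d, lam d ≠ 0 → 1 ≤ d ∧ (d : ℝ) ≤ y) ∧
  ∀ K₁ K₂ : ℕ, 1 ≤ K₁ → K₁ ≤ K₂ → y ^ 2 ≤ K₁ →
    ∑ k ∈ Ioc K₁ K₂, Th lam k / (k : ℝ) ≤ C * Real.log ((K₂ : ℝ) / K₁) / Real.log y + C * y ^ 2 / K₁

/-- MKF (100 lines; from nothing). The weights `ck` are short divisor sums.
Proof. `bru w b k = ∑_{t ∈ 𝒯, t ∣ k} μ(t)`, `𝒯` the squarefree `t` with primes `< w`, `ω(t) ≤ 2b`: `t ≤ w^(2b)`, so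
`|𝒯| ≤ w^(2b)`; `Th lam k = ∑_{d,e ≤ y, d ∣ k, e ∣ k} λ_d λ_e`. `I` = the lcm's of the triples `(t,d,e)`, `x q` = the sum of the `μ(t)λ_dλ_e` over the triples with
lcm `q`. -/
def SpecMKF : Prop := ∀ (w y : ℝ) (b : ℕ) (lam : ℕ → ℝ), 1 ≤ w → 1 ≤ y → (∀ d, |lam d| ≤ 1) →
  (∀ d, lam d ≠ 0 → 1 ≤ d ∧ (d : ℝ) ≤ y) → ∃ (I : Finset ℕ) (x : ℕ → ℝ),
    (∀ q ∈ I, 1 ≤ q ∧ (q : ℝ) ≤ w ^ (2 * b) * y ^ 2) ∧ ∑ q ∈ I, |x q| ≤ w ^ (2 * b) * y ^ 2 ∧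
    ∀ k, 1 ≤ k → ck w b lam k = sds I x k

/-- RHB (120 lines; from RHOM, RHOS). Proof. For `p ∤ 2a` and `p^j ∣ ν²+a, μ²+a`: `p^j ∣ (ν-μ)(ν+μ)` and `p` does not divide both
factors (else `p ∣ 2ν`, `p ∣ a`), so `ρ_a(p^j) ≤ 2`; RHOM gives `ρ_a(k) ≤ 2^ω(k)`. For `δ` squarefree put
`δ = δ₁δ₂`, `δ₁ = ∏_{p ∣ δ, p ∣ k} p`: `kδ₁` is prime to `2a` and to `δ₂`, so `ρ_a(kδ) = ρ_a(kδ₁) ρ_a(δ₂) ≤ 2^ω(k) 2^ω(δ)` (RHOS). `2^ω ≤ τ`. -/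
def SpecRHB : Prop := ∀ (a : ℤ) (k δ : ℕ), 1 ≤ k → Nat.Coprime k (2 * a).natAbs → Squarefree δ →
  (rho a (k * δ) : ℝ) ≤ ta k * ta δ ∧ (rho a k : ℝ) ≤ ta k ∧ (rho a δ : ℝ) ≤ ta δ

/-- MAI (150 lines; from BRU, TAUM, RHB, RHOM). The part of the `k` not prime to `δ`.
Proof. `|Th| ≤ τ²`, `|ck| ≤ τ(k)³`. The bracket vanishes if `(k,δ) = 1` (RHOM), and is at most `2τ(k)τ(δ)/(kδ)` always (RHB). If `ck ≠ 0` and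
`(k,δ) > 1`: either `k` is `w`-rough, a prime `p ≥ w` divides `k` and `δ`: `∑_{p ∣ δ, p ≥ w} ∑_{p ∣ k} τ(k)⁴/k ≤ ω(δ) (16/w) (1+log 4N)^16`
(TAUM); or `osm w k > 2b` (BRU), then `1 ≤ 2^(ω(k)-2b) ≤ 4^(-b) τ(k)`: `4^(-b) ∑ τ⁵/k`. -/
def SpecMAI : Prop := ∀ (N b δ : ℕ) (w : ℝ) (a : ℤ) (lam : ℕ → ℝ), 1 ≤ N → 1 ≤ w → Squarefree δ →
  (∀ d, |lam d| ≤ 1) →
  ∑ k ∈ (Icc 1 (4 * N)).filter (fun k => Nat.Coprime k (2 * a).natAbs), |ck w b lam k| *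
      |(rho a (k * δ) : ℝ) / (k * δ) - (rho a k : ℝ) * rho a δ / (k * δ)|
    ≤ 2 * ta δ / δ * (16 * ta δ / w * (1 + Real.log (4 * N)) ^ 16
        + (1 / 4 : ℝ) ^ b * (1 + Real.log (4 * N)) ^ 32)

/-! ## Sums of `ρ_a(k) - 1` over rough `k` with arbitrary coefficients -/

/-- RWA (200 lines; from SML, LRG, TAUM, divisor bound). One dyadic block of divisors.
Proof. (i) SML with `e = 1/20`: `∑γ² ≤ (1/E) ∑ τ(e)^(2j)/e ≤ (1+log 2E)^(4^j)/E`, `∑|γ| ≤ (1+log 2E)^(2^j)`, `E^(1.05) ≤ A^0.8`.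
(ii) `S_a = ∑ γ_e χ_a(e)`, `S_a² = ∑_{E²<m≤4E²} Γ_m χ_a(m)`, `Γ_m = ∑_{e e' = m} γ_e γ_e'`, `|Γ_m| ≤ τ(m)^(2j+1)/m ≤ C m^(ε-1)`, `m` odd. Two blocks
`(E²,2E²]`, `(2E²,4E²]` and LRG with `e = 1/100`: `∑_a S_a⁴ ≤ C(4E²√A + A^2.01) C E^(4ε)/E²`, and `E² > A^(3/2)`,
`E ≤ 4N ≤ 4A^(6/5)`: at most `C A^(1/2+0.01+6ε)`. -/
def SpecRWA : Prop := ∀ j : ℕ, ∃ C : ℝ, 0 < C ∧ ∀ (N A E : ℕ) (γ : ℕ → ℝ), 2 ≤ N → (N : ℝ) ^ (5 / 6 : ℝ) ≤ A →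
  (A : ℝ) ≤ (N : ℝ) ^ (11 / 10 : ℝ) → 1 ≤ E → E ≤ 4 * N →
  (∀ e, γ e ≠ 0 → Odd e ∧ Squarefree e) → (∀ e, |γ e| ≤ ta e ^ j / e) →
  ((E : ℝ) ≤ (A : ℝ) ^ (3 / 4 : ℝ) → ∑ a ∈ IA A, (∑ e ∈ Ioc E (2 * E), γ e * (jacobiSym (-a) e : ℝ)) ^ 2
      ≤ C * (A * (1 + Real.log (8 * N)) ^ 4 ^ j / E + (A : ℝ) ^ (9 / 10 : ℝ))) ∧
  ((A : ℝ) ^ (3 / 4 : ℝ) < (E : ℝ) → ∑ a ∈ IA A, (∑ e ∈ Ioc E (2 * E), γ e * (jacobiSym (-a) e : ℝ)) ^ 4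
      ≤ C * (A : ℝ) ^ (3 / 4 : ℝ))

/-- RHOW (180 lines; from RWA, TAUM, RHOD). Proof. `ρ_a(k) - 1 = ∑_{e ∣ k, e > 1} χ_a(e)` (RHOD), so the sum is `∑_{e>1} γ_e χ_a(e)`,
`γ_e = ∑_{e ∣ k} β_k`, `|γ_e| ≤ (log N)^C₀ (τ(e)^j/e) (1+log 4N)^(2^j)` (TAUM); `γ_e = 0` unless `e` is odd, squarefree and
`(log N)^V`-rough, so `e ≥ (log N)^V` for `e > 1`. At most `3 log N` dyadic blocks `(2^i, 2^(i+1)]`, `2^(i+1) > (log N)^V`;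
if `|sum| > (log N)^(-B)` one block has `|S| > (log N)^(-B-2)`; Chebyshev with RWA (scaled by the factor `(log N)^(C₀+2^j+1)`):
at most `(log N)^(C') (A/(log N)^V + A^(9/10) + A^(3/4))` exceptions, `C'` depends on `B, C₀, j` only; `V ≥ V₀ = C' + B + 1`. -/
def SpecRHOW : Prop := ∀ (j : ℕ) (B C₀ : ℝ), 0 < B → 0 < C₀ → ∃ V₀ : ℝ, 0 < V₀ ∧ ∀ V : ℝ, V₀ ≤ V →
  ∃ N₀ : ℕ, ∀ N A : ℕ, N₀ ≤ N → (N : ℝ) ^ (5 / 6 : ℝ) ≤ A → (A : ℝ) ≤ (N : ℝ) ^ (11 / 10 : ℝ) →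
  ∀ β : ℕ → ℝ, (∀ k, β k ≠ 0 → 1 ≤ k ∧ k ≤ 4 * N ∧ Odd k ∧ Squarefree k ∧ Rough ((Real.log N) ^ V) k) →
  (∀ k, |β k| ≤ (Real.log N) ^ C₀ * ta k ^ j / k) →
    exc A (fun a => |∑ k ∈ Icc 1 (4 * N), β k * ((rho a k : ℝ) - 1)| ≤ 1 / (Real.log N) ^ B)
      ≤ A / (Real.log N) ^ B

/-! ## The sieve -/

/-- the level parameter of `bru`: `w^(2b) ≤ N^(σ/4)` -/
def bN (σ V : ℝ) (N : ℕ) : ℕ := ⌊σ / 8 * Real.log N / (V * Real.log (Real.log N))⌋₊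

/-- WPT (250 lines; from FL with `b = 0`, TYW, BRU, MKF, MAI, TAUM, TNT, RHOP, RHO2, RHOM). Upper bound for EVERY `a`, with the main term
left as a sum. `w = (log N)^V`, `b = bN σ V N`, `z = N^e0`, `lam` supported on `d ≤ y = N^(e0/3)`.
Proof. If `val a n` is `z`-rough and `k ∣ val a n` then `k` is `z`-rough, `ck w b lam k = 1` (`z > w`, `z > y`, BRU). The `n` with `(k,2a) > 1`: a prime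
`p ≥ z > 2` divides `a` and `n`: at most `∑_{p ∣ a, p ≥ z} (N/p + 1)` values of `n`, each with `≤ N^(small)` values of `k`: the term `N^(1-e0/2)`.
The others: `1 ≤ 2 tn N n`, so the left side is at most `2 ∑_{l ∈ S} om l · rInd z l + N^(1-e0/2)`, `S = Icc 1 (20N²)`,
`om l = ∑_{k ∈ (K₁,K₂], (k,2a)=1} ck(k) ∑_{n ∈ Icc 1 (4N)} tn N n 1[val a n = k l] ≥ 0`. SpecFL (`b = 0`, `v l = l`, `g p = ρ_a(p)/p` for primes: `≤ 2/p`, `≤ 2/3`,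
`X = N ∑ ck(k) ρ_a(k)/k`, `∏_{p<z}(1-g p) = Wa z a`): at most `(1+C) X Wa + C(1+log z) ∑_{δ ≤ z^16} |R_δ|`,
`R_δ = ∑_k ck(k) tcnt N a (kδ) - X ρ_a(δ)/δ` (`ρ_a(δ) = ∏ρ_a(p)`)
`= ∑_k ck(k) Ger N a (kδ) + N ∑_k ck(k) (ρ_a(kδ)/(kδ) - ρ_a(k)ρ_a(δ)/(kδ))`. The first sum is `≤ N^(1-σ)` by MKF (`w^(2b) y² ≤ N^(σ/4+2e0/3) ≤ N^σ`) and TYW,
number of `δ`: `N^(16 e0) ≤ N^(σ/2)`; the second by MAI, `∑_δ τ(δ)²/δ ≤ (1+log N)^4` (TAUM), `(1/4)^b = exp(-c log N/loglog N)`, `w = (log N)^V`,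
`V ≥ V₀ = B + 60`: in total `≤ N/(log N)^B`. `σ` is that of TYW, `e1 = σ/64`. -/
def SpecWPT : Prop := ∃ σ C : ℝ, 0 < σ ∧ 0 < C ∧ ∀ e0 : ℝ, 0 < e0 → e0 ≤ σ / 64 → ∀ B : ℝ, 0 < B →
  ∃ V₀ : ℝ, 0 < V₀ ∧ ∀ V : ℝ, V₀ ≤ V → ∃ N₀ : ℕ, ∀ N : ℕ, N₀ ≤ N → ∀ a : ℤ, ¬ IsSquare (-a) →
  |(a : ℝ)| ≤ (N : ℝ) ^ (11 / 10 : ℝ) → ∀ lam : ℕ → ℝ, lam 1 = 1 → (∀ d, |lam d| ≤ 1) →
  (∀ d, lam d ≠ 0 → 1 ≤ d ∧ (d : ℝ) ≤ (N : ℝ) ^ (e0 / 3)) → ∀ K₁ K₂ : ℕ, 1 ≤ K₁ → K₁ ≤ K₂ → K₂ ≤ 4 * N →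
    (∑ n ∈ Ioc N (2 * N), if Rough ((N : ℝ) ^ e0) (val a n) ∧ ∃ k ∈ Ioc K₁ K₂, k ∣ val a n then (1 : ℝ) else 0)
      ≤ C * N * Wa ((N : ℝ) ^ e0) a *
          (∑ k ∈ (Ioc K₁ K₂).filter (fun k => Nat.Coprime k (2 * a).natAbs),
            ck ((Real.log N) ^ V) (bN σ V N) lam k * ((rho a k : ℝ) / k))
        + N / (Real.log N) ^ B

/-- WMS (180 lines; from RHOW, SLM, BRU, TAUM, RHB). The main term for almost all `a`.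
Proof. `ρ_a(k) ≤ τ(k)` (RHB). (1) `k` squarefree and `w`-rough (so odd): `ck = Th`, the sum is at most `∑ β_k ρ_a(k)`,
`β_k = Th lam k/k` on the odd squarefree `w`-rough `k ∈ (K₁,K₂]`, `|β_k| ≤ τ(k)²/k`: RHOW (`j = 2`) and `∑ β_k ≤ ∑ Th/k` (given as hypothesis). (2) `k` rough, not squarefree: `p² ∣ k`, `p ≥ w`:
`∑_{p ≥ w} ∑_{p² ∣ k} τ³/k ≤ ∑_{p≥w} (27/p²)(1+log 4N)^8`. (3) not `w`-rough: `osm > 2b`: `≤ (1/4)^b ∑ τ⁵/k` (`ck ρ ≤ τ⁴`).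
The set of exceptions does not depend on `T`, only on `lam, K₁, K₂, V, N`. -/
def SpecWMS : Prop := ∀ σ B : ℝ, 0 < σ → 0 < B → ∃ V₀ : ℝ, 0 < V₀ ∧ ∀ V : ℝ, V₀ ≤ V →
  ∃ N₀ : ℕ, ∀ N A : ℕ, N₀ ≤ N → (N : ℝ) ^ (5 / 6 : ℝ) ≤ A → (A : ℝ) ≤ (N : ℝ) ^ (11 / 10 : ℝ) →
  ∀ lam : ℕ → ℝ, (∀ d, |lam d| ≤ 1) → ∀ K₁ K₂ : ℕ, 1 ≤ K₁ → K₁ ≤ K₂ → K₂ ≤ 4 * N →
    exc A (fun a => ∑ k ∈ (Ioc K₁ K₂).filter (fun k => Nat.Coprime k (2 * a).natAbs),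
        ck ((Real.log N) ^ V) (bN σ V N) lam k * ((rho a k : ℝ) / k)
      ≤ ∑ k ∈ Ioc K₁ K₂, Th lam k / (k : ℝ) + 1 / (Real.log N) ^ B) ≤ A / (Real.log N) ^ B

/-- WIC (80 lines; from nothing). The combinatorics of the windows: `x' = min(x, 2-x)`.
Proof. `N²/2 ≤ val a n ≤ 5N²` for `n ∈ (N,2N]`, `|a| ≤ N²/2`. Let `k ∣ m = val a n`, `N^(x-e) ≤ k ≤ N^(x+e)`, `k' = m/k`. If `x ≤ 1` and `k ≤ 3N` take `k`; if `x ≤ 1` and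
`k > 3N`, then `k' < 2N`, `k' ≥ N^(2-x-e)/2 ≥ N^(x-e)/10` and `k' < 2N ≤ 5N^(x+e)` as `N^(x+e) ≥ k > 3N`. If `x > 1`: `k' ∈ [N^(2-x-e)/2, 5N^(2-x+e)]`, and the
same argument for `2 - x` with `k'` in place of `k` (if `k' > 3N` take `k < 2N`, `k ≥ N^(x-e) ≥ N^(2-x-e)`). -/
def SpecWIC : Prop := ∀ (N n : ℕ) (a : ℤ) (x e : ℝ), 2 ≤ N → n ∈ Ioc N (2 * N) → |(a : ℝ)| ≤ (N : ℝ) ^ 2 / 2 →
  0 < e → Win N x e (val a n) →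
  ∃ k : ℕ, k ∣ val a n ∧ (N : ℝ) ^ (min x (2 - x) - e) / 10 ≤ k ∧ k ≤ 3 * N ∧
    (k : ℝ) ≤ 5 * (N : ℝ) ^ (min x (2 - x) + e)

/-- WINUP (200 lines; from WPT, WMS, SLM, PRODU, WMER, GMAXU, WIC): this is SpecWINU.
Proof. `σ`, `C₁` of WPT, `e1 = min(σ/64, 1/10)`, `e2 = 1/10`. `K₁ = ⌈N^(x'-e)/10⌉ - 1 ≥ N^0.3`, `K₂ = min(3N, ⌊5N^(x'+e)⌋)`, `x' = min(x,2-x) ≥ 1/2`;
`log(K₂/K₁) ≤ 3e log N` for large `N`; `lam` from SLM with `y = N^(e0/3)`: `∑ Th/k ≤ C (3e log N)/((e0/3) log N) + C N^(2e0/3)/K₁ ≤ C'e/e0`. Exceptions: `-a` a square (`≤ √A + 1`),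
WMS and PRODU (`δ = 1`) with exponent `B + 1`. Outside: `cnt ≤ C N Wa (C'e/e0 + (log N)^(-B')) + N/(log N)^(B')`, `Wa ≤ 2 Gw Wp`, `Wp ≤ C/(e0 log N)` (WMER), and the
errors are smaller as `Gw ≥ c/log w` (GMAXU), `B' = 3`; `V` = max of the `V₀` (`V` is a parameter of the proof and has nothing to do with `W`). -/
def SpecWINUP : Prop := SpecWINU

end

end Pool.Agent.Lib.MP391708.U
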