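import Pool.Agent.Lib.MP_391708_nt.U.SpecU
import Pool.Agent.Lib.MP_391708_nt.U.SpecU2
import Pool.Agent.Lib.MP_391708_nt.U.SpecV
import Pool.Agent.Lib.MP_391708_nt.U.UNIR
import Pool.Agent.Lib.MP_391708_nt.QPA.H.SpecH

/-!
# Project UK (MP_391708): one exceptional set for the primes and for the products of `k` primes, all lengths at once

Everything is for `θ > 1/2` and Type II ranges `N^κ ≤ K`, `2/3 ≤ κ`, `θ + κ > 3/2`.  The modules are copies of landed files of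
`U/`, `QPA/`, `QPA/H/` with the changes given in the docstrings.  Module `XXX` is the file `U/K/XXX.lean` with
`theorem specXXX (hYYY : SpecYYY) .. : SpecXXX` in the namespace `Pool.Agent.Lib.MP391708.U.K`, its own lemmas in
`Pool.Agent.Lib.MP391708.U.K.XXXM`.  Every landed file may be imported, and the Specs of `QPA/Spec.lean`, `QPA/Spec2.lean`,
`QPA/H/SpecH.lean`, `U/SpecU.lean`, `U/SpecU2.lean`, `U/SpecU6a.lean` may be used as hypotheses.  `T = log N` in the docstrings.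
-/

set_option autoImplicit false

namespace Pool.Agent.Lib.MP391708.U.K

open Finset Filter Topology Pool.Agent.Lib.MP391708.QPA Pool.Agent.Lib.MP391708.QPA.H
open scoped Classical

noncomputable section

/-! ## Definitions -/

/-- the constant of the lower bound for the primes, `1` for `θ = 5/6`, increasing in `θ` -/
def cP (θ : ℝ) : ℝ := 1 - (5 / 2 - 3 * θ) ^ 2 / (6 * (3 / 2 - θ) ^ 2 * (θ - 1 / 2))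

/-- `|n² + a|` is a prime for at least `c (h/2) Li(N)` of the `n ≤ N` -/
def LowP (c : ℝ) (N : ℕ) (a : ℤ) (h : ℝ) : Prop :=
  c * (1 / 2 * h * ∫ t in (2 : ℝ)..(N : ℝ), 1 / Real.log t)
    ≤ (((Icc 1 N).filter (fun n : ℕ => Nat.Prime ((n : ℤ) ^ 2 + a).natAbs)).card : ℝ)

/-- the number of the `n ∈ (N, 2N]` such that `|n² + a|` is a product of exactly `k` different primes -/
def cntk (k N : ℕ) (a : ℤ) : ℝ := (((Ioc N (2 * N)).filter (fun n : ℕ =>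
  Squarefree ((n : ℤ) ^ 2 + a).natAbs ∧ ((n : ℤ) ^ 2 + a).natAbs.primeFactors.card = k)).card : ℝ)

/-! ## Averages over `a`, `A ≥ N^(1/2)` -/

/-- PRODV (from RHOP, PVA): PRODU with `1/2`. Import `U/PRODU.lean`, copy `specPRODX` and `specPRODU`: the exponent `3/4 - 1/5` becomes
`1/2 - 1/5` (`C(z+1)² ≤ 4C N^(1/5)`). -/
def SpecPRODV : Prop := ∀ δ B : ℝ, 0 < δ → 0 < B → ∃ W₀ : ℝ, 0 < W₀ ∧ ∀ W : ℝ, W₀ ≤ W →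
  ∀ e0 : ℝ, 0 < e0 → e0 ≤ 1 / 10 → ∃ N₀ : ℕ, ∀ N A : ℕ, N₀ ≤ N → (N : ℝ) ^ (1 / 2 : ℝ) ≤ A →
    exc A (fun a => |Wa ((N : ℝ) ^ e0) a - Gw (wN W N) a * Wp ((N : ℝ) ^ e0)|
      ≤ δ * (Gw (wN W N) a * Wp ((N : ℝ) ^ e0))) ≤ A / (Real.log N) ^ B

/-- RWAV (from SML, LRG, TAUM): RWA with `1/2`. Import `U/RWA.lean` (`RWAM.part1` is unchanged), copy `RWAM.part2` and `specRWA` with
`N ≤ A²` in place of `N ≤ A^(6/5)`: `(4E²)^(1/50) ≤ 2 A^(2/25)`, and `51/100 + 2/25 ≤ 3/4`. -/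
def SpecRWAV : Prop := ∀ j : ℕ, ∃ C : ℝ, 0 < C ∧ ∀ (N A E : ℕ) (γ : ℕ → ℝ), 2 ≤ N → (N : ℝ) ^ (1 / 2 : ℝ) ≤ A →
  (A : ℝ) ≤ (N : ℝ) ^ (11 / 10 : ℝ) → 1 ≤ E → E ≤ 4 * N →
  (∀ e, γ e ≠ 0 → Odd e ∧ Squarefree e) → (∀ e, |γ e| ≤ ta e ^ j / e) →
  ((E : ℝ) ≤ (A : ℝ) ^ (3 / 4 : ℝ) → ∑ a ∈ IA A, (∑ e ∈ Ioc E (2 * E), γ e * (jacobiSym (-a) e : ℝ)) ^ 2
      ≤ C * (A * (1 + Real.log (8 * N)) ^ 4 ^ j / E + (A : ℝ) ^ (9 / 10 : ℝ))) ∧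
  ((A : ℝ) ^ (3 / 4 : ℝ) < (E : ℝ) → ∑ a ∈ IA A, (∑ e ∈ Ioc E (2 * E), γ e * (jacobiSym (-a) e : ℝ)) ^ 4
      ≤ C * (A : ℝ) ^ (3 / 4 : ℝ))

/-- RHOWV (from RWAV, TAUM, RHOD): RHOW with `1/2`. Import `U/RHOW.lean`, copy `specRHOW`; the only use of `5/6` is
`N^(1/12) = (N^(5/6))^(1/10) ≤ A^(1/10)`, which becomes `N^(1/20) = (N^(1/2))^(1/10) ≤ A^(1/10)` (change `RHOWM.ev` accordingly). -/
def SpecRHOWV : Prop := ∀ (j : ℕ) (B C₀ : ℝ), 0 < B → 0 < C₀ → ∃ V₀ : ℝ, 0 < V₀ ∧ ∀ V : ℝ, V₀ ≤ V →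
  ∃ N₀ : ℕ, ∀ N A : ℕ, N₀ ≤ N → (N : ℝ) ^ (1 / 2 : ℝ) ≤ A → (A : ℝ) ≤ (N : ℝ) ^ (11 / 10 : ℝ) →
  ∀ β : ℕ → ℝ, (∀ k, β k ≠ 0 → 1 ≤ k ∧ k ≤ 4 * N ∧ Odd k ∧ Squarefree k ∧ Rough ((Real.log N) ^ V) k) →
  (∀ k, |β k| ≤ (Real.log N) ^ C₀ * ta k ^ j / k) →
    exc A (fun a => |∑ k ∈ Icc 1 (4 * N), β k * ((rho a k : ℝ) - 1)| ≤ 1 / (Real.log N) ^ B)
      ≤ A / (Real.log N) ^ B

/-- MOBV (from RHOWV, 60 lines): the Möbius sum for almost all `a`. `β_k = μ(k)/k` for the `N^e0`-rough `k ≤ Y`, `j = 0`, `C₀ = 1`, with an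
exponent `B' = max B 1`: `1/T^B' ≤ δ` for large `N`. `μ(k) ≠ 0` gives squarefree; `z = N^e0 > 2` gives odd; `z ≥ T^V` gives
`T^V`-rough. -/
def SpecMOBV : Prop := ∀ e0 δ B : ℝ, 0 < e0 → e0 ≤ 1 / 10 → 0 < δ → 0 < B →
  ∃ N₀ : ℕ, ∀ N A : ℕ, N₀ ≤ N → (N : ℝ) ^ (1 / 2 : ℝ) ≤ A → (A : ℝ) ≤ (N : ℝ) ^ (11 / 10 : ℝ) →
  ∀ Y : ℝ, 1 ≤ Y → Y ≤ N →
    exc A (fun a => |∑ k ∈ (Icc 1 ⌊Y⌋₊).filter (fun k => Rough ((N : ℝ) ^ e0) k),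
      (ArithmeticFunction.moebius k : ℝ) * ((rho a k : ℝ) - 1) / k| ≤ δ) ≤ A / (Real.log N) ^ B

/-- RHMV (from RHOWV, RAV, RSUM, 150 lines): the mean of `ρ_a` on the rough numbers, for almost all `a`. Squarefree `k`: RHOWV with `β_k = 1/k`
(`j = 0`, `C₀ = 1`) and `∑ 1/k ≤ C/e0` (`TI.sum_rough` of `QPA/TI.lean`, from RSUM). Not squarefree: RAV with exponent `min (θ-1/2) (1/10)`: the mean over
`a` of `ρ_a(k)` is `≤ C` for every `k ≤ N`, and the sum of `1/k` over the rough non-squarefree `k ≤ N` is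
`≤ ∑_{p ≥ z} p⁻² (1 + T) ≤ 2(1+T)/(z-1)` (compare `RHOUM.nsf`, `RHOUM.nonsqf` in `U/RHOU.lean`), Markov. `k = 1` contributes `1 ≤ 1/e0`. -/
def SpecRHMV : Prop := ∃ C : ℝ, 0 < C ∧ ∀ θ e0 B : ℝ, 1 / 2 < θ → 0 < e0 → e0 ≤ 1 / 10 → 0 < B → ∃ N₀ : ℕ,
  ∀ N A : ℕ, N₀ ≤ N → Adm θ N A →
    exc A (fun a => ∑ k ∈ (Icc 1 N).filter (fun k => Rough ((N : ℝ) ^ e0) k), (rho a k : ℝ) / k ≤ C / e0)
      ≤ A / (Real.log N) ^ B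

/-- NSFV (from QG): NSFH with a power saving, `σ = min (e0/2) (τ/5)`, `τ = min (θ-1/2) (1/2)`. Copy `QPA/H/NSFH.lean`; the four terms:
`N ≤ A N^(1/2)`; `2(2A+1)N/z ≤ 6A N^(1-e0)`; `C N^(τ/10) (N(1+T) + B²) ≤ 2C N^(3/2+3τ/5) ≤ 2C A N^(1-2τ/5)`; `105 A x² = 105 A N^(1-τ)`. -/
def SpecNSFV : Prop := ∀ θ e0 : ℝ, 1 / 2 < θ → 0 < e0 → e0 ≤ 1 / 10 → ∃ σ : ℝ, 0 < σ ∧
  ∃ N₀ : ℕ, ∀ N A : ℕ, N₀ ≤ N → Adm θ N A →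
    ∑ a ∈ IA A, cnt N a (fun m => if NSq ((N : ℝ) ^ e0) m then 1 else 0) ≤ A * (N : ℝ) ^ (1 - σ)

/-- WMSV (from RHOWV, BRU, TAUM, RHB): WMS with `1/2`. Import `U/WMS.lean`, copy `specWMS` (only the call of RHOW changes). -/
def SpecWMSV : Prop := ∀ σ B : ℝ, 0 < σ → 0 < B → ∃ V₀ : ℝ, 0 < V₀ ∧ ∀ V : ℝ, V₀ ≤ V →
  ∃ N₀ : ℕ, ∀ N A : ℕ, N₀ ≤ N → (N : ℝ) ^ (1 / 2 : ℝ) ≤ A → (A : ℝ) ≤ (N : ℝ) ^ (11 / 10 : ℝ) →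
  ∀ lam : ℕ → ℝ, (∀ d, |lam d| ≤ 1) → ∀ K₁ K₂ : ℕ, 1 ≤ K₁ → K₁ ≤ K₂ → K₂ ≤ 4 * N →
    exc A (fun a => ∑ k ∈ (Ioc K₁ K₂).filter (fun k => Nat.Coprime k (2 * a).natAbs),
        ck ((Real.log N) ^ V) (bN σ V N) lam k * ((rho a k : ℝ) / k)
      ≤ ∑ k ∈ Ioc K₁ K₂, Th lam k / (k : ℝ) + 1 / (Real.log N) ^ B) ≤ A / (Real.log N) ^ B

/-- WINV (from WPT, WMSV, SLM, PRODV, WMER, GMAXU, WIC): WINU for `θ > 1/2`. Import `U/WINUP.lean`, copy `specWINUP`: `hA5 : N^(1/2) ≤ A`, `hA6` the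
same (PRODV needs only `N^(1/2) ≤ A`); WPT is for every single `a`, `|a| ≤ N^(11/10)`. -/
def SpecWINV : Prop := ∀ θ : ℝ, 1 / 2 < θ → ∃ C e1 e2 : ℝ, 0 < C ∧ 0 < e1 ∧ 0 < e2 ∧
  ∀ e0 e B : ℝ, 0 < e0 → e0 ≤ e1 → 0 < e → e ≤ e2 → 0 < B → ∃ W₀ : ℝ, 0 < W₀ ∧ ∀ W : ℝ, W₀ ≤ W →
  ∃ N₀ : ℕ, ∀ N A : ℕ, N₀ ≤ N → Adm θ N A → ∀ x : ℝ, 1 / 2 ≤ x → x ≤ 3 / 2 →
    exc A (fun a => cnt N a (fun m => if Rough ((N : ℝ) ^ e0) m ∧ ¬ NSq ((N : ℝ) ^ e0) m ∧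
        Win N x e m then 1 else 0)
      ≤ C * (e / e0 ^ 2) * Gw (wN W N) a * N / Real.log N) ≤ A / (Real.log N) ^ B

/-! ## Type II: see `U/SpecV.lean` (helper99): TWOV, MTAV, MTBV, BLK2V, TIIV (namespace `Pool.Agent.Lib.MP391708.U`) -/

/-! ## Type I -/

/-- TIV (from FLAK, FLBK, PRODV, MOBV, RHMV, GMAXU, WMER, RSUM): TIU for `psiK`. Copy `specTIU` of `U/TIU.lean` with `YK N κ` in place of `YY N`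
(`YK N κ ≤ N^(4/5)`), `TIKM.cnt_psiK`, `TIKM.model_psiK` (or their names in `QPA/TIK.lean`), FLAK and FLBK (`e0 (8b+16) ≤ 1/10`, so `b = ⌊1/(200 e0)⌋`, and
adapt `TI.ex_bound`; see how `specTIK` does it), the error `|K| N^(1/8) ≤ N^(37/40)`. `R1/e0` is `C/e0` of RHMV. -/
def SpecTIV : Prop := ∀ θ κ ε : ℝ, 1 / 2 < θ → 2 / 3 ≤ κ → κ ≤ 4 / 5 → 0 < ε → ∃ e1 : ℝ, 0 < e1 ∧
  ∀ e0 B : ℝ, 0 < e0 → e0 ≤ e1 →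
  0 < B → ∃ W₀ : ℝ, 0 < W₀ ∧ ∀ W : ℝ, W₀ ≤ W → ∃ N₀ : ℕ, ∀ N A : ℕ, N₀ ≤ N → Adm θ N A →
    exc A (fun a => |cnt N a (psiK N e0 κ) - Gw (wN W N) a * model N (psiK N e0 κ)|
      ≤ ε * Gw (wN W N) a * N / Real.log N) ≤ A / (Real.log N) ^ B

/-! ## One block -/

/-- BLKV (from TIV, T2K, TIIV, WINV, WINM, NSFV, NSFM, GMAXU): BLKU for `primeInd - 2·p3Ind`. Copy `specBLKU` of `U/BLKU.lean` (import it for `BLKUM`),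
with the lemmas of `QPA/BLKK.lean` (`BLKK.crit_range`, `nearA_of_good`, `adm_ev`, `errK`, `FK`, `pointwise`) in place of those of `QPA/BLK.lean`. -/
def SpecBLKV : Prop := ∀ θ κ ε B : ℝ, 3 / 5 < θ → 2 / 3 ≤ κ → κ ≤ 4 / 5 → 3 / 2 < θ + κ → 0 < ε → 0 < B →
  ∃ W₀ : ℝ, 0 < W₀ ∧ ∀ W : ℝ, W₀ ≤ W → ∃ N₀ : ℕ, ∀ N A : ℕ, N₀ ≤ N → Adm θ N A →
    exc A (fun a => |cnt N a (fun m => primeInd m - 2 * p3Ind (YK N κ) m)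
        - Gw (wN W N) a * model N (fun m => primeInd m - 2 * p3Ind (YK N κ) m)|
      ≤ ε * Gw (wN W N) a * N / Real.log N) ≤ A / (Real.log N) ^ B

/-- BKEV (from T2E, TIIV, WINV, WINM, NSFV, NSFM, GMAXU): the same for `EInd`, without Type I part. Copy `specBLKU` with the lemmas of
`QPA/H/BLKE.lean` (`sum_crit_le`, `crit_range`, `nearA_of_good`, `midK_of_midE`, `adm_ev`, `errE`, ...), `κ = α`. The roughness `N^δ` is given, and WINV needs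
`e0 ≤ e1`: apply WINV with `e' = min δ e1`. If `m` is `N^δ`-rough and not `NSq (N^δ)`, then it is `N^e'`-rough and not
`NSq (N^e')` (`p² ∣ m`, `p ≥ N^e'` give `p ∣ m`, so `p ≥ N^δ`). So
`1[Rough (N^δ) m ∧ Win] ≤ 1[NSq (N^δ) m] + 1[Rough (N^e') m ∧ ¬NSq (N^e') m ∧ Win]`; `e` is small compared with `ε e'²`. -/
def SpecBKEV : Prop := ∀ (k : ℕ) (θ δ α β ε B : ℝ), 1 / 2 < θ → 0 < δ → δ ≤ 1 / 10 → 2 / 3 ≤ α →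
  3 / 2 < θ + α → α < β → β ≤ 1 → 0 < ε → 0 < B → ∃ W₀ : ℝ, 0 < W₀ ∧ ∀ W : ℝ, W₀ ≤ W →
  ∃ N₀ : ℕ, ∀ N A : ℕ, N₀ ≤ N → Adm θ N A →
    exc A (fun a => |cnt N a (EInd N k δ α β) - Gw (wN W N) a * model N (EInd N k δ α β)|
      ≤ ε * Gw (wN W N) a * N / Real.log N) ≤ A / (Real.log N) ^ B

/-! ## One scale -/

/-- TAILV (from FL, RHO1, RHOM, RHOP, RHO2, RHOS, RHOC, WMER, PRODV, GMAXU): rough values in intervals, an upper bound. Copy `U/TAILU.lean`: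
`TAILUM.fl_seg` with `Ioc X (X + H)` in place of `Ioc 0 X` and `H` in place of `X` (RHOC is for intervals `(x, x+X]`: `hC a δ X H`), `z = N^e0`,
`e0 ≤ 1/100`. The exceptional set is that of PRODV with `δ = 1` and does not depend on `X`, `H`:
`≤ C H W_a(z) + C(1+log z) z^32 ≤ (2C C₂/e0) G H/T + N^(2/5)`, `N^(1/2) ≤ G N^(9/10)/T` (GMAXU). -/
def SpecTAILV : Prop := ∀ e0 : ℝ, 0 < e0 → e0 ≤ 1 / 100 → ∃ C : ℝ, 0 < C ∧ ∀ B : ℝ, 0 < B → ∃ W₀ : ℝ, 0 < W₀ ∧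
  ∀ W : ℝ, W₀ ≤ W → ∃ N₀ : ℕ, ∀ N A : ℕ, N₀ ≤ N → (N : ℝ) ^ (1 / 2 : ℝ) ≤ A →
    exc A (fun a => ∀ X H : ℕ, (N : ℝ) ^ (9 / 10 : ℝ) ≤ H →
      ∑ n ∈ Ioc X (X + H), rInd ((N : ℝ) ^ e0) (val a n) ≤ C * Gw (wN W N) a * H / Real.log N)
      ≤ A / (Real.log N) ^ B

/-- FINP (from BLKV, P3M, F6U, MODP, LI, RHOP, RHO2, GMAXU): lower bound for the primes, one scale. Copy `specFINBX` of `U/FINB.lean` (import it; `ev_w` with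
`1/2` in place of `5/6`: `log A ≥ (1/2) log N`, so `l ≤ 2 log A` still holds), without TAILU, with `κ` from `FINK.exists_kappa θ (ε/8)`
(`QPA/FINK.lean`). Outside of the exceptional sets: `h` exists and `|G_{w_i}(a) - h| ≤ (ε/40) h` for the `w_i = wN W N_i`, and, with
`F = 1_P - 2·p3Ind (YK N_i κ)`, `|cnt N_i F - G_{w_i} model N_i F| ≤ ε₁ G_{w_i} N_i/log N_i`. So `cnt N_i 1_P ≥ cnt N_i F ≥ h model N_i F -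
(ε/40) h |model N_i F| - 2ε₁ h N_i/log N_i`, `|model N_i F| ≤ 2 N_i/log N_i`, and
`model N_i F ≥ model N_i 1_P - (cK κ + ε/8) N_i/(2 log N_i)` (P3M). The blocks `(N_i, 2N_i]`, `N_i = ⌊N/2^(i+1)⌋`, are disjoint subsets of `[1,N]`
(as in `specFINK`). Sum over `i < I`: `FIN.ev_model`, `FINK.ev_Lsum`, `FIN.ev_li`; the final inequality is like `FINK.final_ineq`, with all errors relative to
`h L`, `L = N/log N`. -/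
def SpecFINP : Prop := ∀ θ ε B : ℝ, 7 / 10 < θ → θ ≤ 5 / 6 → 0 < ε → 0 < B → ∃ N₀ : ℕ, ∀ N A : ℕ, N₀ ≤ N →
  (N : ℝ) ^ θ ≤ A → (A : ℝ) ≤ N * √(Real.log N) →
    exc A (fun a => ∃ h : ℝ, 0 < h ∧ IsC a h ∧ LowP (cP θ - ε) N a h) ≤ A / (Real.log A) ^ B

/-- FINQ (from BKEV, EKM, TAILV, F6U, RHOP, RHO2, GMAXU, 200 lines): products of `k` primes, one scale `M`. `α = max (2/3) ((3/2-θ+1)/2)` (so `θ + α > 3/2`, `α < 1`),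
`β = (1+α)/2`, EKM: `δ`, `c₁`; BKEV with `ε = c₁/8`; TAILV with `e0 = min δ (1/100)`: `C`. `η = min (1/10) (c₁/(16 C))`, `c = c₁/16`. F6U with
`1/10` for `w = wN W M`, `W` large for all three (sizes of `w` against `log A`: as `ev_w 0` in `U/FINB.lean`, with `1/2` in place of `5/6`).
Here `A ≤ M √(log M) ≤ M log M` (Adm). Outside of the exceptional sets: `cnt M (EInd) ≥ (7/8) c₁ G M/log M`, and the number of the `n ∈ (M, M+H]`, `H = ⌈ηM⌉₊ + 1`, with `M^δ`-rough value is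
`≤ C G H/log M ≤ C G 2ηM/log M ≤ (c₁/8) G M/log M` for large `M`. For `M ≤ N ≤ (1+η)M + 1` the `n ∈ (M,2M]` outside of `(M, M+H]` lie in
`(N, 2N]`, so `cntk k N a ≥ (3/4) c₁ G M/log M ≥ (c₁/2) h M/log M ≥ c h N/log N` (`EInd M k δ α β m = 1` gives squarefree with exactly `k` prime factors,
and rough). -/
def SpecFINQ : Prop := ∀ (k : ℕ) (θ : ℝ), 2 ≤ k → 1 / 2 < θ → θ ≤ 1 → ∃ c η : ℝ, 0 < c ∧ 0 < η ∧ η ≤ 1 / 10 ∧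
  ∀ B : ℝ, 0 < B → ∃ N₀ : ℕ, ∀ M A : ℕ, N₀ ≤ M → (M : ℝ) ^ θ ≤ A → (A : ℝ) ≤ M * √(Real.log M) →
    exc A (fun a => ∃ h : ℝ, 0 < h ∧ IsC a h ∧ ∀ N : ℕ, M ≤ N → (N : ℝ) ≤ (1 + η) * M + 1 →
      c * (h * (N / Real.log N)) ≤ cntk k N a) ≤ A / (Real.log A) ^ B

/-! ## All scales -/

/-- UNIP (from FINP, LI): copy `specUNIR` of `U/UNIR.lean` (imported here). Choose `θ' ∈ (7/10, θ)` with `cP θ' ≥ cP θ - ε/4` (continuity), FINP with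
`θ'`, `ε/4`, `B + 2`; `(2A^(1/θ))^θ' ≤ A` for large `A`. Only the lower grid point `M ≤ N` is used: `P_a(N) ≥ P_a(M)`,
`Li(N) ≤ (1+ν) Li(M)`, `ν ≤ ε/4`, `ν ≤ 1/2`; if `cP θ - ε ≤ 0` there is nothing to prove, otherwise
`(cP θ - ε)(1+ν) ≤ cP θ - ε/2` (`cP ≤ 1`). -/
def SpecUNIP : Prop := ∀ θ ε B : ℝ, 7 / 10 < θ → θ ≤ 5 / 6 → 0 < ε → 0 < B → ∃ A₀ : ℕ, ∀ A : ℕ, A₀ ≤ A →
  exc A (fun a => (A : ℝ) / 2 < |(a : ℝ)| → ∃ h : ℝ, 0 < h ∧ IsC a h ∧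
    ∀ N : ℕ, |(a : ℝ)| ≤ N * (Real.log N) ^ (1 / 4 : ℝ) → (N : ℝ) ≤ |(a : ℝ)| ^ (1 / θ) →
      LowP (cP θ - ε) N a h) ≤ A / (Real.log A) ^ B

/-- UNIQ (from FINQ): copy `specUNIR`, grid `UNIM.G η j` with the `η` of FINQ for `θ = (1/2 + 1/(2-δ))/2` (`θ(2-δ) < 1`); for a given `N` the grid
point `M` with `M ≤ N ≤ (1+η)M + 1` (`UNIM.grid`); `A ≤ M √(log M)` (`UNIRM.ev_log`), `M^θ ≤ (2A^(2-δ))^θ ≤ A`. -/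
def SpecUNIQ : Prop := ∀ (k : ℕ) (δ : ℝ), 2 ≤ k → 0 < δ → δ < 1 → ∃ c : ℝ, 0 < c ∧ ∀ B : ℝ, 0 < B →
  ∃ A₀ : ℕ, ∀ A : ℕ, A₀ ≤ A →
  exc A (fun a => (A : ℝ) / 2 < |(a : ℝ)| → ∃ h : ℝ, 0 < h ∧ IsC a h ∧
    ∀ N : ℕ, |(a : ℝ)| ≤ N * (Real.log N) ^ (1 / 4 : ℝ) → (N : ℝ) ≤ |(a : ℝ)| ^ (2 - δ) →
      c * (h * (N / Real.log N)) ≤ cntk k N a) ≤ A / (Real.log A) ^ B

/-- DIAG (no hypotheses): one exceptional set for countably many properties. Copy `specMAINU` of `U/MAINU.lean` (import it for `MAINUM`), with `P' k a := ∀ j ≤ k, P j a`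
in place of `Gd (1/(k+6)) (1/(k+1)) a`; its exceptional set is bounded by the union over `j ≤ k`, each with the exponent `k + 2`, and
`(k+1)/log A ≤ 1` for large `A`. -/
def SpecDIAG : Prop := ∀ P : ℕ → ℤ → Prop, (∀ (k : ℕ) (B : ℝ), 0 < B → ∃ A₀ : ℕ, ∀ A : ℕ, A₀ ≤ A →
    exc A (fun a => (A : ℝ) / 2 < |(a : ℝ)| → P k a) ≤ A / (Real.log A) ^ B) →
  ∃ E : Set ℤ, (∀ B : ℝ, ∃ A₀ : ℕ, ∀ A : ℕ, A₀ ≤ A →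
    (((Icc (-(A : ℤ)) A).filter (fun a => a ∈ E)).card : ℝ) ≤ A / (Real.log A) ^ B) ∧
  ∀ k : ℕ, ∃ a₀ : ℝ, ∀ a : ℤ, a ∉ E → a₀ ≤ |(a : ℝ)| → P k a

/-- MAINV (from DIAG, UNIR, UNIP, UNIQ, 200 lines): the theorem. DIAG for the countable family (`exists_surjective_nat`) indexed by
`ℕ ⊕ (ℚ × ℚ) ⊕ (ℕ × ℕ)`: `n`: the first property with `δ = 1/(n+6)`, `ε = 1/(n+1)` (UNIR); `(q, r)`: the second one for `θ = q`, `ε = r`, if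
`7/10 < q ≤ 5/6` and `r > 0` (UNIP), `True` otherwise; `(k, n)`: the third one with `δ = 1/(n+2)` and the constant `c(k, 1/(n+2))` of UNIQ if `k ≥ 2`.
For a real `θ` take a rational `q < θ`, `q > 7/10`, with `cP q ≥ cP θ - ε/2` (continuity) and a rational `0 < r < ε/2`: `|a|^(1/θ) ≤ |a|^(1/q)`. The
three constants `h` are equal (uniqueness of limits). Monotonicity in `δ`, `ε`: as in `MAINUM.Gd.mono`. -/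
def SpecMAINV : Prop := ∃ E : Set ℤ,
  (∀ B : ℝ, ∃ A₀ : ℕ, ∀ A : ℕ, A₀ ≤ A →
    (((Icc (-(A : ℤ)) A).filter (fun a => a ∈ E)).card : ℝ) ≤ A / (Real.log A) ^ B) ∧
  ∀ (k : ℕ) (δ : ℝ), 2 ≤ k → 0 < δ → ∃ c : ℝ, 0 < c ∧ ∀ ε θ : ℝ, 0 < ε → 7 / 10 < θ → θ ≤ 5 / 6 →
    ∃ a₀ : ℝ, ∀ a : ℤ, a ∉ E → a₀ ≤ |(a : ℝ)| → ∃ h : ℝ, 0 < h ∧ IsC a h ∧
      ∀ N : ℕ, |(a : ℝ)| ≤ N * (Real.log N) ^ (1 / 4 : ℝ) →
        ((N : ℝ) ≤ |(a : ℝ)| ^ (6 / 5 - δ) → Good1 ε N N a h) ∧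
        ((N : ℝ) ≤ |(a : ℝ)| ^ (1 / θ) → LowP (cP θ - ε) N a h) ∧
        ((N : ℝ) ≤ |(a : ℝ)| ^ (2 - δ) → c * (h * (N / Real.log N)) ≤ cntk k N a)

end

end Pool.Agent.Lib.MP391708.U.K
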