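import Pool.Agent.Lib.MP_391708_nt.U.MTAU
import Pool.Agent.Lib.MP_391708_nt.U.SpecV

/-!
# MTAV: MTAU for `θ > 1/2`
-/

set_option autoImplicit false

namespace Pool.Agent.Lib.MP391708.U

open Finset Filter Topology Pool.Agent.Lib.MP391708.QPA
open scoped Classical

theorem specMTAV (hFL : SpecFL) (hC : SpecRHOC) (hM : SpecRHOM) (hP : SpecRHOP) (h2 : SpecRHO2)
    (hA : SpecRAV) : SpecMTAV := by
  obtain ⟨C, hC0, hFL'⟩ := hFL
  intro θ e e0 B B₁ E H W hθ he he0 hB hB₁ hE hH hW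
  set t : ℝ := min (1 / 10) (θ - 1 / 2) with ht
  have ht0 : 0 < t := lt_min (by norm_num) (by linarith)
  have ht1 : t ≤ 1 / 10 := min_le_left _ _
  have ht2 : 1 / 2 + t ≤ θ := by
    have := min_le_right (1 / 10 : ℝ) (θ - 1 / 2)
    rw [← ht] at this
    linarith
  obtain ⟨C', hC'0, hCr⟩ := hA t ht0
  obtain ⟨CV, hCV0, hCV⟩ := BasM.Vw_le
  set M : ℝ := 2 * B ^ 2 * (5 / 4) * (3 + 2 * C') with hMdef
  have hM0 : 0 < M := by positivity
  have lim2 : ∀ᶠ N : ℕ in atTop, Real.log N ≤ (N : ℝ) / 8 := by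
    have h1 := (isLittleO_log_rpow_atTop (r := 1) one_pos).bound
      (show (0 : ℝ) < 1 / 8 by norm_num)
    have h2 : ∀ᶠ x : ℝ in atTop, Real.log x ≤ x / 8 := by
      filter_upwards [h1, eventually_ge_atTop 1] with x a1 a2
      rw [Real.norm_of_nonneg (Real.log_nonneg a2), Real.rpow_one, Real.norm_of_nonneg (by linarith)]
        at a1
      linarith
    exact tendsto_natCast_atTop_atTop.eventually h2
  have hBs : 0 < B₁ + H + W + 2 := by positivity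
  have hsz := Bas.tendsto_log.eventually (MTAUM.size C (B₁ + H + W + 2) (W + 1) e hC0 hBs
    (by positivity) he)
  have hall : ∀ᶠ N : ℕ in atTop, (∃ b : ℕ, C * Real.exp (-(b : ℝ)) ≤ 1 / (Real.log N) ^ (B₁ + H + W + 2) ∧
      ∀ z : ℝ, 2 ≤ z → z ≤ (Real.log N) ^ (W + 1) → MTAUM.Z C b z ≤ Real.exp (e * Real.log N / 2)) ∧
      ((wN W N : ℝ) + 1 ≤ (Real.log N) ^ (W + 1)) ∧
      (1 * (Real.log N) ^ (W + 1) ≤ (N : ℝ) ^ e0) ∧ (Real.log N ≤ (N : ℝ) / 8) ∧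
      (CV * Real.log ((wN W N : ℝ) + 1) ≤ (Real.log N) ^ (1 : ℝ)) ∧ (3 ≤ wN W N) ∧
      (2 * (Real.log N) ^ (E + H) ≤ (N : ℝ) ^ (1 : ℝ)) ∧
      (5 * (Real.log N) ^ (1 : ℝ) ≤ (N : ℝ) ^ (e / 2)) ∧
      (1 * (Real.log N) ^ (B₁ + H + W + 2) ≤ (N : ℝ) ^ (e / 2)) ∧
      (10 * M ≤ (Real.log N) ^ (W + 1)) ∧ (1 ≤ Real.log N) ∧ (2 ≤ N) := by
    filter_upwards [hsz, Bas.ev_wN_le hW, Bas.ev_lN (W + 1) he0 1, lim2,
      Bas.ev_logw hW one_pos CV, Bas.ev_wN hW 3, Bas.ev_lN (E + H) one_pos 2,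
      Bas.ev_lN 1 (half_pos he) 5, Bas.ev_lN (B₁ + H + W + 2) (half_pos he) 1,
      Bas.ev_lconst (show 0 < W + 1 by positivity) (10 * M), BasM.ev_log 1, eventually_ge_atTop 2]
      with N a1 a2 a3 a4 a5 a6 a7 a8 a9 a10 a11 a12
    exact ⟨a1, a2, a3, a4, a5, a6, a7, a8, a9, a10, a11, a12⟩
  obtain ⟨N₀, hN₀⟩ := eventually_atTop.1 hall
  refine ⟨N₀, fun N A J hN hAdm hJ hJH K L η hηE hη4 hK1 hK2 hKL1 hKL2 α β hα hαs hβ => ?_⟩
  obtain ⟨⟨b, hb1, hb2⟩, hwle, hwz, hlog, hVl, hw3, hNJ, h5L, hLs, hML, hL1, hN2⟩ := hN₀ N hN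
  set w : ℕ := wN W N with hwdef
  set Λ : ℝ := Real.log N with hΛ
  have hΛ0 : 0 < Λ := by linarith
  have hV := Mta.Vw_pos w
  have hJ0 : (0 : ℝ) < J := by exact_mod_cast hJ
  have hη : 0 < η := lt_of_lt_of_le (Real.rpow_pos_of_pos hΛ0 _) hηE
  have hNr : (2 : ℝ) ≤ N := by exact_mod_cast hN2
  have hN0 : (0 : ℝ) < N := by linarith
  have hw1 : 1 ≤ w := by omega
  have hw1' : (1 : ℝ) ≤ w := by exact_mod_cast hw1
  have hVΛ : Vw w ≤ Λ := by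
    have h1 := hCV w hw3
    have h3 : Real.log w ≤ Real.log ((w : ℝ) + 1) := Real.log_le_log (by linarith) (by linarith)
    rw [Real.rpow_one] at hVl
    have := mul_le_mul_of_nonneg_left h3 hCV0.le
    linarith
  have hz : (w : ℝ) + 1 ≤ (N : ℝ) ^ e0 := by linarith
  have hK0 : 0 < K := lt_of_lt_of_le (by positivity) hK1
  have hL0 : 0 < L := by
    by_contra hcon
    rw [not_lt] at hcon
    have : K * L ≤ 0 := mul_nonpos_of_nonneg_of_nonpos hK0.le hcon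
    have : 0 < (N : ℝ) ^ 2 / 2 := by positivity
    linarith
  have hKN : K ≤ N := by
    refine hK2.trans ?_
    calc (N : ℝ) ^ (1 - e) ≤ (N : ℝ) ^ (1 : ℝ) :=
          Real.rpow_le_rpow_of_exponent_le (by linarith) (by linarith)
      _ = N := Real.rpow_one _
  have hLN : (N : ℝ) / 2 ≤ L := by
    have h1 : (N : ℝ) ^ 2 / 2 ≤ N * L := hKL1.trans (mul_le_mul_of_nonneg_right hKN hL0.le)
    nlinarith
  have hLJ : 1 ≤ η * L / J := by
    rw [le_div_iff₀ hJ0, one_mul]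
    rw [Real.rpow_one, Real.rpow_add hΛ0] at hNJ
    have hE0 : 0 < Λ ^ E := Real.rpow_pos_of_pos hΛ0 _
    have h1 : Λ ^ (-E) * Λ ^ E = 1 := by
      rw [← Real.rpow_add hΛ0, neg_add_cancel, Real.rpow_zero]
    have h3 : Λ ^ H ≤ Λ ^ (-E) * L := by
      calc Λ ^ H = Λ ^ (-E) * Λ ^ E * Λ ^ H := by rw [h1, one_mul]
        _ = Λ ^ (-E) * (Λ ^ E * Λ ^ H) := by ring
        _ ≤ Λ ^ (-E) * L := by
            apply mul_le_mul_of_nonneg_left _ (Real.rpow_nonneg hΛ0.le _)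
            linarith
    calc (J : ℝ) ≤ Λ ^ H := hJH
      _ ≤ Λ ^ (-E) * L := h3
      _ ≤ η * L := mul_le_mul_of_nonneg_right hηE hL0.le
  have hA1 : (1 : ℝ) ≤ A := (Real.one_le_rpow (by linarith) (by linarith)).trans hAdm.1
  have hA8 : (A : ℝ) ≤ (N : ℝ) ^ 2 / 8 := by
    refine hAdm.2.trans ?_
    nlinarith
  have hAN : 4 * (A : ℝ) / N ≤ 4 * Real.log N := by
    rw [div_le_iff₀ hN0]
    have := hAdm.2
    linarith
  have hA06 : (N : ℝ) ^ (1 / 2 + t) ≤ A :=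
    (Real.rpow_le_rpow_of_exponent_le (by linarith) ht2).trans hAdm.1
  have hone := MTAUM.hone hC0 hFL' hC hM hP h2 hη hη4 hB hJ hw1 hz hNr hK0 hL0 hKL1 hKL2 hA8 hAN α hα
    hαs b
  set T0 : ℝ := C * Real.exp (-(b : ℝ)) * (8 * N) / K + MTAUM.Z C b ((w : ℝ) + 1) + 1
    + 4 * Real.log N with hT0def
  have hlogw : 0 ≤ 1 + Real.log ((w : ℝ) + 1) := by
    have := Real.log_nonneg (by linarith : (1 : ℝ) ≤ (w : ℝ) + 1)
    linarith
  have hZ0 : 0 ≤ MTAUM.Z C b ((w : ℝ) + 1) := by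
    unfold MTAUM.Z
    exact mul_nonneg (mul_nonneg hC0.le hlogw) (by positivity)
  have hT0 : 0 ≤ T0 := by
    rw [hT0def, ← hΛ]
    positivity
  have hDav : ∀ i, |Dav L η J β i| ≤ 2 * B := Mta.abs_Dav_le hL0 hη hB.le hJ hLJ β hβ
  have ha1 : ∀ a ∈ IA A, |bil (8 * N) a α (sharp w L η J β)
      - Gw w a * ∑ i ∈ range J, Dav L η J β i * ∑ k ∈ Ioc ⌊K⌋₊ ⌊5 / 4 * K⌋₊, α k * ((rho a k : ℝ) / k)
        * (√(k * (L * (1 + η * (i + 1) / J))) - √(k * (L * (1 + η * i / J))))|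
      ≤ ∑ k ∈ Ioc ⌊K⌋₊ ⌊5 / 4 * K⌋₊, 2 * B * J * (B * Vw w * T0) * (rho a k : ℝ) := by
    intro a ha
    rw [Mta.bil_eq hL0.le hη.le hK0.le N a w J α β hαs]
    have e1 : Gw w a * ∑ i ∈ range J, Dav L η J β i * ∑ k ∈ Ioc ⌊K⌋₊ ⌊5 / 4 * K⌋₊,
        α k * ((rho a k : ℝ) / k)
          * (√(k * (L * (1 + η * (i + 1) / J))) - √(k * (L * (1 + η * i / J)))) =
        ∑ i ∈ range J, Dav L η J β i * ∑ k ∈ Ioc ⌊K⌋₊ ⌊5 / 4 * K⌋₊, Gw w a * (α k * ((rho a k : ℝ) / k)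
          * (√(k * (L * (1 + η * (i + 1) / J))) - √(k * (L * (1 + η * i / J))))) := by
      rw [mul_sum]
      refine sum_congr rfl fun i _ => ?_
      rw [← mul_sum]
      ring
    rw [e1, ← sum_sub_distrib]
    have e2 : ∀ i ∈ range J, |Dav L η J β i * ∑ k ∈ Ioc ⌊K⌋₊ ⌊5 / 4 * K⌋₊, α k *
          (Vw w * Mta.Cn N a w k (Mta.xl L η J i) (Mta.xr L η J i)) -
        Dav L η J β i * ∑ k ∈ Ioc ⌊K⌋₊ ⌊5 / 4 * K⌋₊, Gw w a * (α k * ((rho a k : ℝ) / k)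
          * (√(k * (L * (1 + η * (i + 1) / J))) - √(k * (L * (1 + η * i / J)))))| ≤
        2 * B * ∑ k ∈ Ioc ⌊K⌋₊ ⌊5 / 4 * K⌋₊, B * Vw w * T0 * rho a k := by
      intro i hi
      rw [← mul_sub, ← sum_sub_distrib, abs_mul]
      apply mul_le_mul (hDav i) _ (abs_nonneg _) (by positivity)
      exact (abs_sum_le_sum_abs _ _).trans (sum_le_sum fun k hk => hone a ha i hi k hk)
    refine (abs_sum_le_sum_abs _ _).trans ((sum_le_sum e2).trans (le_of_eq ?_))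
    rw [sum_const, card_range, nsmul_eq_mul, mul_sum, mul_sum]
    refine sum_congr rfl fun k _ => ?_
    ring
  refine (sum_le_sum ha1).trans ?_
  rw [sum_comm]
  have hk2 : ∀ k ∈ Ioc ⌊K⌋₊ ⌊5 / 4 * K⌋₊, ∑ a ∈ IA A,
      2 * B * J * (B * Vw w * T0) * (rho a k : ℝ) ≤
      2 * B * J * (B * Vw w * T0) * ((3 + 2 * C') * A) := by
    intro k hk
    rw [mem_Ioc] at hk
    rw [← mul_sum]
    apply mul_le_mul_of_nonneg_left _ (by positivity)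
    have hk1 : 1 ≤ k := by omega
    have h1 := (abs_le.1 (hCr k A hk1)).2
    have hkK : (k : ℝ) ≤ 5 / 4 * K := (Nat.le_floor_iff (by positivity)).1 hk.2
    have h2 : (k : ℝ) ^ (1 / 2 + t) ≤ 2 * A := by
      calc (k : ℝ) ^ (1 / 2 + t) ≤ (2 * N : ℝ) ^ (1 / 2 + t) :=
            Real.rpow_le_rpow (Nat.cast_nonneg _) (by linarith) (by positivity)
        _ = (2 : ℝ) ^ (1 / 2 + t) * (N : ℝ) ^ (1 / 2 + t) :=
            Real.mul_rpow (by norm_num) hN0.le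
        _ ≤ 2 * A := by
            apply mul_le_mul _ hA06 (by positivity) (by norm_num)
            calc (2 : ℝ) ^ (1 / 2 + t) ≤ (2 : ℝ) ^ (1 : ℝ) :=
                  Real.rpow_le_rpow_of_exponent_le (by norm_num) (by linarith)
              _ = 2 := Real.rpow_one _
    have h3 := mul_le_mul_of_nonneg_left h2 hC'0.le
    linarith
  refine (sum_le_sum hk2).trans ?_
  rw [sum_const, nsmul_eq_mul]
  have hcard : ((Ioc ⌊K⌋₊ ⌊5 / 4 * K⌋₊).card : ℝ) ≤ 5 / 4 * K := by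
    rw [Nat.card_Ioc]
    calc ((⌊5 / 4 * K⌋₊ - ⌊K⌋₊ : ℕ) : ℝ) ≤ (⌊5 / 4 * K⌋₊ : ℝ) := by
          exact_mod_cast Nat.sub_le _ _
      _ ≤ _ := Nat.floor_le (by positivity)
  -- `K T0 ≤ 10 N / Λ ^ Bs`
  have hKT : K * T0 ≤ 10 * N / Λ ^ (B₁ + H + W + 2) := by
    have hΛs : 0 < Λ ^ (B₁ + H + W + 2) := Real.rpow_pos_of_pos hΛ0 _
    have hZ := hb2 ((w : ℝ) + 1) (by linarith) hwle
    have hexp : Real.exp (e * Λ / 2) = (N : ℝ) ^ (e / 2) := by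
      rw [Real.rpow_def_of_pos hN0, ← hΛ]
      congr 1
      ring
    rw [hexp] at hZ
    have hNe2 : 0 < (N : ℝ) ^ (e / 2) := Real.rpow_pos_of_pos hN0 _
    have h4 : MTAUM.Z C b ((w : ℝ) + 1) + 1 + 4 * Real.log N ≤ 2 * (N : ℝ) ^ (e / 2) := by
      rw [Real.rpow_one] at h5L
      rw [← hΛ]
      linarith
    have h5 : K * (2 * (N : ℝ) ^ (e / 2)) ≤ 2 * N / Λ ^ (B₁ + H + W + 2) := by
      rw [le_div_iff₀ hΛs]
      have h6 : (N : ℝ) ^ (1 - e) * (N : ℝ) ^ (e / 2) * (N : ℝ) ^ (e / 2) = N := by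
        rw [← Real.rpow_add hN0, ← Real.rpow_add hN0]
        rw [show 1 - e + e / 2 + e / 2 = 1 by ring, Real.rpow_one]
      calc K * (2 * (N : ℝ) ^ (e / 2)) * Λ ^ (B₁ + H + W + 2)
          ≤ (N : ℝ) ^ (1 - e) * (2 * (N : ℝ) ^ (e / 2)) * (N : ℝ) ^ (e / 2) := by
            apply mul_le_mul _ (by linarith) hΛs.le (by positivity)
            exact mul_le_mul_of_nonneg_right hK2 (by positivity)
        _ = 2 * ((N : ℝ) ^ (1 - e) * (N : ℝ) ^ (e / 2) * (N : ℝ) ^ (e / 2)) := by ring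
        _ = 2 * N := by rw [h6]
    have h7 : K * (C * Real.exp (-(b : ℝ)) * (8 * N) / K) ≤ 8 * N / Λ ^ (B₁ + H + W + 2) := by
      have e1 : K * (C * Real.exp (-(b : ℝ)) * (8 * N) / K) = C * Real.exp (-(b : ℝ)) * (8 * N) := by
        field_simp
      rw [e1]
      calc C * Real.exp (-(b : ℝ)) * (8 * N) ≤ 1 / Λ ^ (B₁ + H + W + 2) * (8 * N) :=
            mul_le_mul_of_nonneg_right hb1 (by positivity)
        _ = _ := by ring
    have h8 : K * (MTAUM.Z C b ((w : ℝ) + 1) + 1 + 4 * Real.log N) ≤ K * (2 * (N : ℝ) ^ (e / 2)) :=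
      mul_le_mul_of_nonneg_left h4 hK0.le
    calc K * T0 = K * (C * Real.exp (-(b : ℝ)) * (8 * N) / K) +
          K * (MTAUM.Z C b ((w : ℝ) + 1) + 1 + 4 * Real.log N) := by
          rw [hT0def]
          ring
      _ ≤ 8 * N / Λ ^ (B₁ + H + W + 2) + 2 * N / Λ ^ (B₁ + H + W + 2) := by linarith
      _ = _ := by ring
  have hfin : 10 * M * (J : ℝ) * Vw w * Λ ^ B₁ ≤ Λ ^ (B₁ + H + W + 2) := by
    have e1 : Λ ^ (B₁ + H + W + 2) = Λ ^ (W + 1) * Λ ^ H * Λ * Λ ^ B₁ := by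
      rw [show B₁ + H + W + 2 = (W + 1) + H + 1 + B₁ by ring, Real.rpow_add hΛ0, Real.rpow_add hΛ0,
        Real.rpow_add hΛ0 (W + 1) H, Real.rpow_one]
    rw [e1]
    apply mul_le_mul_of_nonneg_right _ (Real.rpow_nonneg hΛ0.le _)
    apply mul_le_mul _ hVΛ hV.le (by positivity)
    exact mul_le_mul hML hJH hJ0.le (by positivity)
  have hΛ1 : 0 < Λ ^ B₁ := Real.rpow_pos_of_pos hΛ0 _
  have hΛs : 0 < Λ ^ (B₁ + H + W + 2) := Real.rpow_pos_of_pos hΛ0 _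
  calc ((Ioc ⌊K⌋₊ ⌊5 / 4 * K⌋₊).card : ℝ) *
        (2 * B * J * (B * Vw w * T0) * ((3 + 2 * C') * A))
      ≤ (5 / 4 * K) * (2 * B * J * (B * Vw w * T0) * ((3 + 2 * C') * A)) :=
        mul_le_mul_of_nonneg_right hcard (by positivity)
    _ = M * J * Vw w * A * (K * T0) := by
        rw [hMdef]
        ring
    _ ≤ M * J * Vw w * A * (10 * N / Λ ^ (B₁ + H + W + 2)) :=
        mul_le_mul_of_nonneg_left hKT (by positivity)
    _ = (10 * M * J * Vw w) * (A * N) / Λ ^ (B₁ + H + W + 2) := by ring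
    _ ≤ A * N / Λ ^ B₁ := by
        rw [div_le_div_iff₀ hΛs hΛ1]
        calc 10 * M * J * Vw w * (A * N) * Λ ^ B₁ = (10 * M * J * Vw w * Λ ^ B₁) * (A * N) := by ring
          _ ≤ Λ ^ (B₁ + H + W + 2) * (A * N) := mul_le_mul_of_nonneg_right hfin (by positivity)
          _ = _ := by ring

end Pool.Agent.Lib.MP391708.U
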