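import Pool.Agent.Lib.MP_391708_nt.QPA.H.MTBH
import Pool.Agent.Lib.MP_391708_nt.U.SpecV

/-!
# MTBV: the main term of Type II with power saving, for every exponent above 1/2
-/

set_option autoImplicit false

namespace Pool.Agent.Lib.MP391708.U

open Finset Filter Topology Pool.Agent.Lib.MP391708.QPA Pool.Agent.Lib.MP391708.QPA.MTB
open scoped Classical

theorem specMTBV (hB : H.SpecBKH) (hR : SpecRAV) (hD : SpecRHOD) : SpecMTBV := by
  intro θ t e0 Q c hθ ht he0 _ hQ hc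
  obtain ⟨C₁, hC₁, σ, hσ0, h1⟩ := hB e0 t he0 ht
  obtain ⟨C₂, hC₂, h2⟩ := H.MTBHM.nonsqf hR hθ
  set B : ℝ := ((Multiset.card c).factorial : ℝ) with hBdef
  have hB0 : 0 ≤ B := Nat.cast_nonneg _
  set τ := min σ e0 with hτ
  have hτ0 : 0 < τ := lt_min hσ0 he0
  have hτσ : τ ≤ σ := min_le_left _ _
  have hτe : τ ≤ e0 := min_le_right _ _
  refine ⟨τ / 4, by linarith, ?_⟩
  obtain ⟨N₁, hN₁⟩ := small (15 / 2 * B * √(3 * C₁)) (τ / 4) (1 / 2) 1 (by positivity) (by norm_num)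
  obtain ⟨N₂, hN₂⟩ := small (C₂ * B) (3 * τ / 4) (1 / 2) 0 (by positivity) (by norm_num)
  obtain ⟨N₃, hN₃⟩ := small 3 e0 1 0 he0 one_pos
  refine ⟨max 2 (max N₁ (max N₂ N₃)), ?_⟩
  intro N A hN hAdm hnear K η hη hη4 hK1 hK2
  have hN2 : 2 ≤ N := le_trans (le_max_left _ _) hN
  have g1 := hN₁ N (le_trans ((le_max_left _ _).trans (le_max_right _ _)) hN)
  have g2 := hN₂ N (le_trans ((le_max_left _ _).trans ((le_max_right _ _).trans
    (le_max_right _ _))) hN)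
  have g3 := hN₃ N (le_trans ((le_max_right _ _).trans ((le_max_right _ _).trans
    (le_max_right _ _))) hN)
  have hN2' : (2 : ℝ) ≤ N := by exact_mod_cast hN2
  have hN1 : (1 : ℝ) ≤ N := by linarith
  have hN0 : (0 : ℝ) < N := by linarith
  have hlog : 0 < Real.log N := Real.log_pos (by linarith)
  have hz : 3 ≤ (N : ℝ) ^ e0 := by
    rw [pow_zero, mul_one, Real.rpow_neg hN0.le, ← div_eq_mul_inv,
      div_le_one (Real.rpow_pos_of_pos hN0 _)] at g3
    exact g3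
  have hA1 : (N : ℝ) ^ (1 / 2 : ℝ) ≤ A :=
    (Real.rpow_le_rpow_of_exponent_le hN1 hθ.le).trans hAdm.1
  have hA2 : (A : ℝ) ≤ (N : ℝ) ^ 2 := by
    refine hAdm.2.trans ?_
    have : Real.log N ≤ N := (Real.log_le_sub_one_of_pos hN0).trans (by linarith)
    nlinarith
  have hA3 : (1 : ℝ) ≤ A := (Real.one_le_rpow hN1 (by norm_num)).trans hA1
  have hA0 : (0 : ℝ) < A := by linarith
  have hAn : 0 < A := by exact_mod_cast hA0
  have hKK : 1 ≤ K := (Real.one_le_rpow hN1 (by norm_num)).trans hK1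
  have hKN : K ≤ N := by
    refine hK2.trans ?_
    calc (N : ℝ) ^ (1 - t) ≤ (N : ℝ) ^ (1 : ℝ) :=
          Real.rpow_le_rpow_of_exponent_le hN1 (by linarith)
      _ = N := Real.rpow_one _
  have hK0 : 0 < K := by linarith
  have hsK : 0 < √K := Real.sqrt_pos.mpr hK0
  set e2 : ℝ := e0 / Q with he2
  have hQ0 : (0 : ℝ) < Q := by exact_mod_cast hQ
  have he2p : 0 < e2 := by positivity
  have he2Q : e2 * Q = e0 := by rw [he2]; field_simp
  have hrough : ∀ k, FF N e2 c k ≠ 0 → Rough ((N : ℝ) ^ e0) k := by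
    intro k hk
    have := (FFB.FF_support N e2 hN2 c k hk).2.2.2.2 he2p Q hc
    rwa [he2Q] at this
  set I := Ioc ⌊K⌋₊ ⌊(1 + η) * K⌋₊ with hI
  set J := ⌈4 * Real.log N⌉₊ with hJ
  have hIJ : ∀ k ∈ I, k ≤ 2 ^ J := by
    intro k hk
    have hk2 := Finset.mem_Ioc.mp hk
    have h3 : (k : ℝ) ≤ 2 * N := by
      have h4 : (k : ℝ) ≤ (⌊(1 + η) * K⌋₊ : ℝ) := by exact_mod_cast hk2.2
      have h5 : (⌊(1 + η) * K⌋₊ : ℝ) ≤ (1 + η) * K := Nat.floor_le (by positivity)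
      nlinarith
    have h6 : k ≤ 2 * N := by exact_mod_cast h3
    exact h6.trans (pow_large N hN2)
  have hodd : ∀ k ∈ I, FF N e2 c k ≠ 0 → Odd k := by
    intro k _ hk
    by_contra hno
    have h3 : 2 ∣ k := even_iff_two_dvd.mp (Nat.not_odd_iff_even.mp hno)
    have h4 := hrough k hk 2 Nat.prime_two h3
    push_cast at h4
    linarith
  have hexp := expand hD N e2 c I J hIJ hodd
  -- the block estimate
  have hblk : ∀ j ∈ range J, ∑ a ∈ IA A, |∑ f ∈ Ioc (2 ^ j) (2 * 2 ^ j),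
      cf N e2 c I f * (jacobiSym (-a) f : ℝ)| ≤ 5 / 4 * B * √(3 * C₁) * A * √K
        * (N : ℝ) ^ (-(σ / 2)) := by
    intro j _
    have hcard : ((IA A).card : ℝ) ≤ 3 * A := by
      rw [IA, Int.card_Icc]
      have : ((A : ℤ) + 1 - -(A : ℤ)).toNat = 2 * A + 1 := by omega
      rw [this]
      push_cast
      linarith
    have h3 := h1 N A (2 ^ j) (cf N e2 c I) (5 / 4 * B * √K) hN2 Nat.one_le_two_pow
      (by positivity) hA1 hA2 (cf_nonneg N e2 c I)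
      (fun f hf => cf_le N hN2 e2 c K η hKK hη4 hη f hf)
      (fun f hf => by
        obtain ⟨k, hkI, hks, hfk, hk⟩ := cf_ne N e2 c I f hf
        exact ⟨Odd.of_dvd_nat (hodd k hkI hk) hfk, hks.squarefree_of_dvd hfk⟩)
      (fun f hf hf1 => by
        obtain ⟨k, hkI, hks, hfk, hk⟩ := cf_ne N e2 c I f hf
        exact divisor_size N A hN2 hAn e0 e2 t Q he2p he2Q c hc hnear f k hf1 hk hfk)
    refine (cs (IA A) _ _ _ hcard h3).trans (le_of_eq ?_)
    have h4 : 3 * (A : ℝ) * (C₁ * (5 / 4 * B * √K) ^ 2 * A * (N : ℝ) ^ (-σ))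
        = (5 / 4 * B * √K * A * (N : ℝ) ^ (-(σ / 2))) ^ 2 * (3 * C₁) := by
      have h5 : (N : ℝ) ^ (-σ) = ((N : ℝ) ^ (-(σ / 2))) ^ 2 := by
        rw [← Real.rpow_natCast, ← Real.rpow_mul hN0.le]
        congr 1
        push_cast
        ring
      rw [h5]
      ring
    rw [h4, Real.sqrt_mul (sq_nonneg _), Real.sqrt_sq (by positivity)]
    ring
  have hJ6 : (J : ℝ) ≤ 6 * Real.log N := by
    have h3 : (J : ℝ) < 4 * Real.log N + 1 := Nat.ceil_lt_add_one (by positivity)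
    have h4 : Real.log 2 ≤ Real.log N := Real.log_le_log (by norm_num) hN2'
    have h5 := Real.log_two_gt_d9
    linarith
  have hpart1 : ∑ a ∈ IA A, |∑ k ∈ I.filter Squarefree,
      FF N e2 c k * ((rho a k : ℝ) - 1) / √(k : ℝ)|
      ≤ 15 / 2 * B * √(3 * C₁) * Real.log N * A * √K * (N : ℝ) ^ (-(σ / 2)) := by
    calc ∑ a ∈ IA A, |∑ k ∈ I.filter Squarefree, FF N e2 c k * ((rho a k : ℝ) - 1) / √(k : ℝ)|
        ≤ ∑ a ∈ IA A, ∑ j ∈ range J, |∑ f ∈ Ioc (2 ^ j) (2 * 2 ^ j),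
            cf N e2 c I f * (jacobiSym (-a) f : ℝ)| := by
          apply Finset.sum_le_sum
          intro a _
          rw [hexp a]
          exact Finset.abs_sum_le_sum_abs _ _
      _ = ∑ j ∈ range J, ∑ a ∈ IA A, |∑ f ∈ Ioc (2 ^ j) (2 * 2 ^ j),
            cf N e2 c I f * (jacobiSym (-a) f : ℝ)| := Finset.sum_comm
      _ ≤ ∑ j ∈ range J, 5 / 4 * B * √(3 * C₁) * A * √K * (N : ℝ) ^ (-(σ / 2)) :=
          Finset.sum_le_sum hblk
      _ = J * (5 / 4 * B * √(3 * C₁) * A * √K * (N : ℝ) ^ (-(σ / 2))) := by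
          rw [Finset.sum_const, nsmul_eq_mul, Finset.card_range]
      _ ≤ (6 * Real.log N) * (5 / 4 * B * √(3 * C₁) * A * √K * (N : ℝ) ^ (-(σ / 2))) :=
          mul_le_mul_of_nonneg_right hJ6 (by positivity)
      _ = _ := by ring
  have hpart2 := h2 N A e2 ((N : ℝ) ^ e0) K η c hN2 hAdm.1 (by linarith) hKK hKN hη hη4 hrough
  have hsplit : ∀ a : ℤ, |∑ k ∈ I, FF N e2 c k * ((rho a k : ℝ) - 1) / √(k : ℝ)|
      ≤ |∑ k ∈ I.filter Squarefree, FF N e2 c k * ((rho a k : ℝ) - 1) / √(k : ℝ)|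
        + |∑ k ∈ I.filter (fun k => ¬ Squarefree k),
            FF N e2 c k * ((rho a k : ℝ) - 1) / √(k : ℝ)| := by
    intro a
    rw [← Finset.sum_filter_add_sum_filter_not I Squarefree]
    exact abs_add_le _ _
  have e1 : (N : ℝ) ^ (-(σ / 2)) ≤ (N : ℝ) ^ (-(τ / 4)) * (N : ℝ) ^ (-(τ / 4)) := by
    rw [← Real.rpow_add hN0]
    apply Real.rpow_le_rpow_of_exponent_le hN1
    linarith
  have e2' : ((N : ℝ) ^ e0)⁻¹ ≤ (N : ℝ) ^ (-(τ / 4)) * (N : ℝ) ^ (-(3 * τ / 4)) := by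
    rw [← Real.rpow_add hN0, ← Real.rpow_neg hN0.le]
    apply Real.rpow_le_rpow_of_exponent_le hN1
    linarith
  have hpos : 0 < (N : ℝ) ^ (-(τ / 4)) := Real.rpow_pos_of_pos hN0 _
  calc ∑ a ∈ IA A, |∑ k ∈ I, FF N e2 c k * ((rho a k : ℝ) - 1) / √(k : ℝ)|
      ≤ 15 / 2 * B * √(3 * C₁) * Real.log N * A * √K * (N : ℝ) ^ (-(σ / 2))
        + C₂ * B * A * √K / (N : ℝ) ^ e0 := by
        refine (Finset.sum_le_sum (fun a _ => hsplit a)).trans ?_
        rw [Finset.sum_add_distrib]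
        exact add_le_add hpart1 hpart2
    _ ≤ (15 / 2 * B * √(3 * C₁) * (Real.log N) ^ 1 * (N : ℝ) ^ (-(τ / 4)))
          * (A * √K * (N : ℝ) ^ (-(τ / 4)))
        + (C₂ * B * (Real.log N) ^ 0 * (N : ℝ) ^ (-(3 * τ / 4))) * (A * √K * (N : ℝ) ^ (-(τ / 4))) := by
        apply add_le_add
        · calc 15 / 2 * B * √(3 * C₁) * Real.log N * A * √K * (N : ℝ) ^ (-(σ / 2))
              ≤ 15 / 2 * B * √(3 * C₁) * Real.log N * A * √K
                * ((N : ℝ) ^ (-(τ / 4)) * (N : ℝ) ^ (-(τ / 4))) :=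
                mul_le_mul_of_nonneg_left e1 (by positivity)
            _ = _ := by ring
        · rw [div_eq_mul_inv]
          calc C₂ * B * A * √K * ((N : ℝ) ^ e0)⁻¹
              ≤ C₂ * B * A * √K * ((N : ℝ) ^ (-(τ / 4)) * (N : ℝ) ^ (-(3 * τ / 4))) :=
                mul_le_mul_of_nonneg_left e2' (by positivity)
            _ = _ := by ring
    _ ≤ 1 / 2 * (A * √K * (N : ℝ) ^ (-(τ / 4))) + 1 / 2 * (A * √K * (N : ℝ) ^ (-(τ / 4))) :=
        add_le_add (mul_le_mul_of_nonneg_right g1 (by positivity))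
          (mul_le_mul_of_nonneg_right g2 (by positivity))
    _ = A * √K * (N : ℝ) ^ (-(τ / 4)) := by ring

end Pool.Agent.Lib.MP391708.U
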