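import Pool.Agent.Lib.MP_391708_nt.U.SpecU2

/-!
# Module MKF: the weights `ck` are short divisor sums
-/

set_option autoImplicit false

namespace Pool.Agent.Lib.MP391708.U

open Finset Filter Topology Pool.Agent.Lib.MP391708.QPA
open scoped Classical

namespace MKFM

theorem tle {w : ℝ} (hw : 1 ≤ w) {b t : ℕ} (ht : Squarefree t)
    (hp : ∀ p : ℕ, p.Prime → p ∣ t → (p : ℝ) < w) (hc : t.primeFactors.card ≤ 2 * b) :
    1 ≤ t ∧ (t : ℝ) ≤ w ^ (2 * b) := by
  refine ⟨Nat.one_le_iff_ne_zero.2 ht.ne_zero, ?_⟩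
  have h1 : ((∏ p ∈ t.primeFactors, p : ℕ) : ℝ) = t := by
    rw [Nat.prod_primeFactors_of_squarefree ht]
  rw [← h1]
  push_cast
  calc ∏ p ∈ t.primeFactors, (p : ℝ) ≤ ∏ _p ∈ t.primeFactors, w :=
        Finset.prod_le_prod (fun p _ => Nat.cast_nonneg _) fun p hp' =>
          (hp p (Nat.prime_of_mem_primeFactors hp') (Nat.dvd_of_mem_primeFactors hp')).le
    _ = w ^ t.primeFactors.card := by rw [Finset.prod_const]
    _ ≤ w ^ (2 * b) := pow_le_pow_right₀ hw hc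

/-- the property of the divisors in Brun's sum -/
def Pr (w : ℝ) (b t : ℕ) : Prop :=
  Squarefree t ∧ (∀ p : ℕ, p.Prime → p ∣ t → (p : ℝ) < w) ∧ t.primeFactors.card ≤ 2 * b

/-- the divisors in Brun's sum -/
noncomputable def TT (w : ℝ) (b : ℕ) : Finset ℕ :=
  (Icc 1 ⌊w ^ (2 * b)⌋₊).filter (fun t => Pr w b t)

theorem bru_eq {w : ℝ} (hw : 1 ≤ w) (b k : ℕ) (hk : 1 ≤ k) :
    bru w b k = ∑ t ∈ TT w b, if t ∣ k then (ArithmeticFunction.moebius t : ℝ) else 0 := by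
  rw [bru, ← Finset.sum_filter]
  apply Finset.sum_congr _ fun _ _ => rfl
  ext t
  simp only [TT, Finset.mem_filter, Nat.mem_divisors, Finset.mem_Icc]
  constructor
  · rintro ⟨⟨h1, h2⟩, h3⟩
    have h4 := tle hw h3.1 h3.2.1 h3.2.2
    exact ⟨⟨⟨h4.1, Nat.le_floor h4.2⟩, h3⟩, h1⟩
  · rintro ⟨⟨h1, h2⟩, h3⟩
    exact ⟨⟨h3, by omega⟩, h2⟩

theorem lam_eq {y : ℝ} (lam : ℕ → ℝ) (hlam : ∀ d, lam d ≠ 0 → 1 ≤ d ∧ (d : ℝ) ≤ y) (k : ℕ)
    (hk : 1 ≤ k) :
    ∑ d ∈ k.divisors, lam d = ∑ d ∈ Icc 1 ⌊y⌋₊, if d ∣ k then lam d else 0 := by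
  rw [← Finset.sum_filter]
  have h1 : ∑ d ∈ k.divisors, lam d = ∑ d ∈ k.divisors.filter (fun d => lam d ≠ 0), lam d := by
    rw [Finset.sum_filter_ne_zero]
  have h2 : ∑ d ∈ (Icc 1 ⌊y⌋₊).filter (fun d => d ∣ k), lam d =
      ∑ d ∈ ((Icc 1 ⌊y⌋₊).filter (fun d => d ∣ k)).filter (fun d => lam d ≠ 0), lam d := by
    rw [Finset.sum_filter_ne_zero]
  rw [h1, h2]
  apply Finset.sum_congr _ fun _ _ => rfl
  ext d
  simp only [Finset.mem_filter, Nat.mem_divisors, Finset.mem_Icc]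
  constructor
  · rintro ⟨⟨h3, h4⟩, h5⟩
    have h6 := hlam d h5
    exact ⟨⟨⟨h6.1, Nat.le_floor h6.2⟩, h3⟩, h5⟩
  · rintro ⟨⟨h3, h4⟩, h5⟩
    exact ⟨⟨h4, by omega⟩, h5⟩

end MKFM

open MKFM in
theorem specMKF : SpecMKF := by
  intro w y b lam hw hy hl hlam
  set D : Finset ℕ := Icc 1 ⌊y⌋₊ with hD
  set P : Finset (ℕ × ℕ × ℕ) := TT w b ×ˢ D ×ˢ D with hP
  set L : ℕ × ℕ × ℕ → ℕ := fun p => Nat.lcm p.1 (Nat.lcm p.2.1 p.2.2) with hL
  set F : ℕ × ℕ × ℕ → ℝ := fun p =>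
    (ArithmeticFunction.moebius p.1 : ℝ) * (lam p.2.1 * lam p.2.2) with hF
  have hTc : ((TT w b).card : ℝ) ≤ w ^ (2 * b) := by
    have h1 : (TT w b).card ≤ ⌊w ^ (2 * b)⌋₊ := by
      calc (TT w b).card ≤ (Icc 1 ⌊w ^ (2 * b)⌋₊).card := Finset.card_filter_le _ _
        _ = _ := by rw [Nat.card_Icc]; omega
    calc ((TT w b).card : ℝ) ≤ (⌊w ^ (2 * b)⌋₊ : ℕ) := by exact_mod_cast h1
      _ ≤ _ := Nat.floor_le (by positivity)
  have hDc : (D.card : ℝ) ≤ y := by
    rw [hD, Nat.card_Icc, Nat.add_sub_cancel]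
    exact Nat.floor_le (by linarith)
  have hmemD : ∀ d ∈ D, 1 ≤ d ∧ (d : ℝ) ≤ y := by
    intro d hd
    rw [hD, Finset.mem_Icc] at hd
    exact ⟨hd.1, (Nat.cast_le.2 hd.2).trans (Nat.floor_le (by linarith))⟩
  have hmemT : ∀ t ∈ TT w b, 1 ≤ t ∧ (t : ℝ) ≤ w ^ (2 * b) := by
    intro t ht
    rw [TT, Finset.mem_filter, Finset.mem_Icc] at ht
    exact ⟨ht.1.1, (Nat.cast_le.2 ht.1.2).trans (Nat.floor_le (by positivity))⟩
  have hw0 : (0 : ℝ) ≤ w ^ (2 * b) := by positivity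
  refine ⟨P.image L, fun q => ∑ p ∈ P.filter (fun p => L p = q), F p, ?_, ?_, ?_⟩
  · intro q hq
    obtain ⟨p, hp, rfl⟩ := Finset.mem_image.1 hq
    rw [hP, Finset.mem_product, Finset.mem_product] at hp
    obtain ⟨ht, hd, he⟩ := hp
    have ht' := hmemT _ ht
    have hd' := hmemD _ hd
    have he' := hmemD _ he
    constructor
    · exact Nat.one_le_iff_ne_zero.2 (Nat.lcm_ne_zero (by omega)
        (Nat.lcm_ne_zero (by omega) (by omega)))
    · have h1 : L p ≤ p.1 * (p.2.1 * p.2.2) := by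
        have h2 : Nat.lcm p.2.1 p.2.2 ≤ p.2.1 * p.2.2 :=
          Nat.le_of_dvd (Nat.mul_pos (by omega) (by omega)) (Nat.lcm_dvd_mul _ _)
        calc L p ≤ p.1 * Nat.lcm p.2.1 p.2.2 :=
              Nat.le_of_dvd (Nat.mul_pos (by omega) (Nat.pos_of_ne_zero
                (Nat.lcm_ne_zero (by omega) (by omega)))) (Nat.lcm_dvd_mul _ _)
          _ ≤ _ := Nat.mul_le_mul_left _ h2
      calc ((L p : ℕ) : ℝ) ≤ ((p.1 * (p.2.1 * p.2.2) : ℕ) : ℝ) := by exact_mod_cast h1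
        _ = (p.1 : ℝ) * ((p.2.1 : ℝ) * (p.2.2 : ℝ)) := by push_cast; ring
        _ ≤ w ^ (2 * b) * (y * y) := by
            have h3 : (0 : ℝ) ≤ p.2.2 := Nat.cast_nonneg _
            have h4 : (0 : ℝ) ≤ p.2.1 := Nat.cast_nonneg _
            exact mul_le_mul ht'.2 (mul_le_mul hd'.2 he'.2 h3 (by linarith)) (by positivity) hw0
        _ = _ := by ring
  · calc ∑ q ∈ P.image L, |∑ p ∈ P.filter (fun p => L p = q), F p|
        ≤ ∑ q ∈ P.image L, ∑ p ∈ P.filter (fun p => L p = q), |F p| :=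
          Finset.sum_le_sum fun q _ => Finset.abs_sum_le_sum_abs _ _
      _ = ∑ p ∈ P, |F p| :=
          Finset.sum_fiberwise_of_maps_to (fun p hp => Finset.mem_image_of_mem L hp) _
      _ ≤ ∑ _p ∈ P, (1 : ℝ) := by
          apply Finset.sum_le_sum
          intro p _
          rw [hF]
          simp only [abs_mul]
          have h1 : |((ArithmeticFunction.moebius p.1 : ℤ) : ℝ)| ≤ 1 := by
            have := ArithmeticFunction.abs_moebius_le_one (n := p.1)
            exact_mod_cast this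
          have h2 := hl p.2.1
          have h3 := hl p.2.2
          have h4 := abs_nonneg ((ArithmeticFunction.moebius p.1 : ℤ) : ℝ)
          have h5 := abs_nonneg (lam p.2.1)
          have h6 := abs_nonneg (lam p.2.2)
          calc |((ArithmeticFunction.moebius p.1 : ℤ) : ℝ)| * (|lam p.2.1| * |lam p.2.2|)
              ≤ 1 * (1 * 1) := mul_le_mul h1 (mul_le_mul h2 h3 h6 zero_le_one) (by positivity)
                zero_le_one
            _ = 1 := by ring
      _ = (P.card : ℝ) := by rw [Finset.sum_const, nsmul_eq_mul, mul_one]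
      _ = ((TT w b).card : ℝ) * ((D.card : ℝ) * (D.card : ℝ)) := by
          rw [hP, Finset.card_product, Finset.card_product]; push_cast; ring
      _ ≤ w ^ (2 * b) * (y * y) :=
          mul_le_mul hTc (mul_le_mul hDc hDc (Nat.cast_nonneg _) (by linarith)) (by positivity) hw0
      _ = _ := by ring
  · intro k hk
    have h1 : sds (P.image L) (fun q => ∑ p ∈ P.filter (fun p => L p = q), F p) k =
        ∑ p ∈ P, if L p ∣ k then F p else 0 := by
      rw [sds, ← Finset.sum_fiberwise_of_maps_to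
        (fun p hp => Finset.mem_image_of_mem L hp) (fun p => if L p ∣ k then F p else 0)]
      apply Finset.sum_congr rfl
      intro q _
      by_cases hq : q ∣ k
      · rw [if_pos hq]
        apply Finset.sum_congr rfl
        intro p hp
        rw [Finset.mem_filter] at hp
        rw [if_pos (hp.2 ▸ hq)]
      · rw [if_neg hq]
        symm
        apply Finset.sum_eq_zero
        intro p hp
        rw [Finset.mem_filter] at hp
        exact if_neg (fun h => hq (hp.2 ▸ h))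
    rw [h1, ck, bru_eq hw b k hk, Th, lam_eq lam hlam k hk, ← hD, sq, Finset.sum_mul_sum,
      Finset.sum_mul, hP, Finset.sum_product]
    apply Finset.sum_congr rfl
    intro t _
    rw [Finset.sum_product, Finset.mul_sum]
    apply Finset.sum_congr rfl
    intro d _
    rw [Finset.mul_sum]
    apply Finset.sum_congr rfl
    intro e _
    have hiff : L (t, d, e) ∣ k ↔ t ∣ k ∧ d ∣ k ∧ e ∣ k := by
      rw [hL]
      simp only [Nat.lcm_dvd_iff]
    by_cases h2 : t ∣ k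
    · by_cases h3 : d ∣ k
      · by_cases h4 : e ∣ k
        · rw [if_pos h2, if_pos h3, if_pos h4, if_pos (hiff.2 ⟨h2, h3, h4⟩)]
        · rw [if_neg h4, if_neg (fun h => h4 (hiff.1 h).2.2), mul_zero, mul_zero]
      · rw [if_neg h3, if_neg (fun h => h3 (hiff.1 h).2.1), zero_mul, mul_zero]
    · rw [if_neg h2, if_neg (fun h => h2 (hiff.1 h).1), zero_mul]

end Pool.Agent.Lib.MP391708.U
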