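import Pool.Agent.Lib.MP_391708_nt.U.SpecU6a
import Pool.Agent.Lib.MP_391708_nt.QPA.Bt

/-!
# Project U, module RCH: characters and rough numbers, from the fundamental lemma
-/

set_option autoImplicit false

namespace Pool.Agent.Lib.MP391708.U

open Finset Filter Topology Pool.Agent.Lib.MP391708.QPA
open scoped Classical

noncomputable section

namespace RCHM

/-- the density function: `1/p` at the primes not dividing `q` -/
def gq (q p : ℕ) : ℝ := if p ∣ q then 0 else 1 / (p : ℝ)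

lemma gq_bd (q p : ℕ) (hp : p.Prime) : 0 ≤ gq q p ∧ gq q p ≤ 2 / (p : ℝ) ∧ gq q p ≤ 2 / 3 ∧ gq q p ≤ 1 := by
  have hp2 : (2 : ℝ) ≤ p := by exact_mod_cast hp.two_le
  have h1 : 1 / (p : ℝ) ≤ 1 / 2 := one_div_le_one_div_of_le (by norm_num) hp2
  have h2 : 0 ≤ 1 / (p : ℝ) := by positivity
  have h3 : 1 / (p : ℝ) ≤ 2 / (p : ℝ) := by
    apply div_le_div_of_nonneg_right (by norm_num) (by linarith)
  unfold gq
  split_ifs
  · refine ⟨le_refl _, by positivity, by norm_num, by norm_num⟩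
  · refine ⟨h2, h3, by linarith, by linarith⟩

/-- `∏_{p<z, p∤q} (1-1/p)` -/
def Pq (q : ℕ) (z : ℝ) : ℝ := ∏ p ∈ PB z, (1 - gq q p)

lemma Pq_bd (q : ℕ) (z : ℝ) : 0 ≤ Pq q z ∧ Pq q z ≤ 1 := by
  constructor
  · apply Finset.prod_nonneg
    intro p hp
    have := gq_bd q p (Finset.mem_filter.1 hp).2
    linarith [this.2.2.2]
  · apply Finset.prod_le_one
    · intro p hp
      have := gq_bd q p (Finset.mem_filter.1 hp).2
      linarith [this.2.2.2]
    · intro p hp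
      have := gq_bd q p (Finset.mem_filter.1 hp).2
      linarith [this.1]

lemma Pq_one (z : ℝ) : Pq 1 z = Wp z := by
  unfold Pq Wp
  apply Finset.prod_congr rfl
  intro p hp
  have hp' := (Finset.mem_filter.1 hp).2
  have h1 : ¬ p ∣ 1 := by
    intro h
    exact hp'.one_lt.ne' (Nat.dvd_one.1 h)
  unfold gq
  rw [if_neg h1]

/-- the residue class `c` modulo `q` in `(x, x+H]` -/
def Sc (q c x H : ℕ) : Finset ℕ := (Ioc x (x + H)).filter (fun u => u % q = c)

/-- one term of the remainder of the fundamental lemma -/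
lemma term (q c x H δ : ℕ) (hq : 0 < q) (hc : c < q) (hcop : Nat.Coprime c q) (hδ : 1 ≤ δ) (hsq : Squarefree δ) :
    |(∑ i ∈ (Sc q c x H).filter (fun i => δ ∣ id i), (1 : ℝ)) - (H : ℝ) / q * ∏ p ∈ δ.primeFactors, gq q p| ≤ 1 := by
  rw [Finset.sum_const, nsmul_eq_mul, mul_one]
  have hset : (Sc q c x H).filter (fun i => δ ∣ id i)
      = (Ioc x (x + H)).filter (fun u => u % q = c ∧ δ ∣ u) := by
    unfold Sc
    rw [Finset.filter_filter]
    rfl
  rw [hset]
  by_cases hdq : Nat.Coprime δ q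
  · have h1 := BT.count_crt x H q c δ hq hδ hc hdq
    have h2 : ∏ p ∈ δ.primeFactors, gq q p = 1 / (δ : ℝ) := by
      have h3 : ∏ p ∈ δ.primeFactors, gq q p = ∏ p ∈ δ.primeFactors, (1 / (p : ℝ)) := by
        apply Finset.prod_congr rfl
        intro p hp
        have hp1 := Nat.prime_of_mem_primeFactors hp
        have hp2 := Nat.dvd_of_mem_primeFactors hp
        have hn : ¬ p ∣ q := by
          intro h
          have h4 := Nat.dvd_gcd hp2 h
          rw [hdq] at h4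
          exact hp1.one_lt.ne' (Nat.dvd_one.1 h4)
        unfold gq
        rw [if_neg hn]
      rw [h3, Finset.prod_div_distrib, Finset.prod_const_one]
      congr 1
      rw [← Nat.cast_prod, Nat.prod_primeFactors_of_squarefree hsq]
    rw [h2]
    have h4 : (H : ℝ) / q * (1 / (δ : ℝ)) = (H : ℝ) / (δ * q) := by
      rw [div_mul_div_comm, mul_one, mul_comm (q : ℝ) δ]
    rw [h4]
    exact h1
  · obtain ⟨p, hp, hp1, hp2⟩ := Nat.Prime.not_coprime_iff_dvd.1 hdq
    have h1 : (Ioc x (x + H)).filter (fun u => u % q = c ∧ δ ∣ u) = ∅ := by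
      apply Finset.filter_eq_empty_iff.2
      rintro u - ⟨h1, h2⟩
      have h3 : p ∣ u := hp1.trans h2
      have h4 : p ∣ c := by
        rw [← h1]
        exact (Nat.dvd_mod_iff hp2).2 h3
      have h5 := Nat.dvd_gcd h4 hp2
      rw [hcop] at h5
      exact hp.one_lt.ne' (Nat.dvd_one.1 h5)
    have h2 : ∏ p ∈ δ.primeFactors, gq q p = 0 := by
      apply Finset.prod_eq_zero (i := p)
      · exact Nat.mem_primeFactors.2 ⟨hp, hp1, by omega⟩
      · unfold gq
        rw [if_pos hp2]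
    rw [h1, h2]
    simp

/-- rough numbers in a reduced class -/
lemma cls (C : ℝ) (hC : 0 < C) (hFL : ∀ (b : ℕ) (z : ℝ), 2 ≤ z →
    ∀ (S : Finset ℕ) (v : ℕ → ℕ) (om : ℕ → ℝ) (X : ℝ) (g : ℕ → ℝ), 0 ≤ X → (∀ i ∈ S, 0 ≤ om i) →
    (∀ p : ℕ, p.Prime → 0 ≤ g p ∧ g p ≤ 2 / (p : ℝ) ∧ g p ≤ 2 / 3) →
    |(∑ i ∈ S, om i * rInd z (v i)) - X * ∏ p ∈ PB z, (1 - g p)|
      ≤ C * Real.exp (-(b : ℝ)) * X * (∏ p ∈ PB z, (1 - g p))
        + C * (1 + Real.log z) *
          ∑ δ ∈ (Icc 1 ⌊z ^ (8 * b + 16)⌋₊).filter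
            (fun δ => Squarefree δ ∧ ∀ p : ℕ, p.Prime → p ∣ δ → (p : ℝ) < z),
            |(∑ i ∈ S.filter (fun i => δ ∣ v i), om i) - X * ∏ p ∈ δ.primeFactors, g p|)
    (b : ℕ) (z : ℝ) (hz : 2 ≤ z) (q c x H : ℕ) (hq : 0 < q) (hc : c < q) (hcop : Nat.Coprime c q) :
    |(∑ l ∈ Sc q c x H, rInd z l) - (H : ℝ) / q * Pq q z|
      ≤ C * Real.exp (-(b : ℝ)) * ((H : ℝ) / q) + C * (1 + Real.log z) * z ^ (8 * b + 16) := by
  have hX : (0 : ℝ) ≤ (H : ℝ) / q := by positivity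
  have h := hFL b z hz (Sc q c x H) id (fun _ => 1) ((H : ℝ) / q) (gq q) hX (fun _ _ => zero_le_one)
    (fun p hp => ⟨(gq_bd q p hp).1, (gq_bd q p hp).2.1, (gq_bd q p hp).2.2.1⟩)
  have e1 : (∑ i ∈ Sc q c x H, (1 : ℝ) * rInd z (id i)) = ∑ l ∈ Sc q c x H, rInd z l := by
    apply Finset.sum_congr rfl
    intro i _
    rw [one_mul]
    rfl
  beta_reduce at h
  rw [e1] at h
  refine h.trans ?_
  have hP := Pq_bd q z
  have hlog : 0 ≤ Real.log z := Real.log_nonneg (by linarith)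
  apply add_le_add
  · have h1 : C * Real.exp (-(b : ℝ)) * ((H : ℝ) / q) * Pq q z ≤ C * Real.exp (-(b : ℝ)) * ((H : ℝ) / q) * 1 :=
      mul_le_mul_of_nonneg_left hP.2 (by positivity)
    rw [mul_one] at h1
    exact h1
  · apply mul_le_mul_of_nonneg_left _ (by positivity)
    have h2 : (∑ δ ∈ (Icc 1 ⌊z ^ (8 * b + 16)⌋₊).filter
            (fun δ => Squarefree δ ∧ ∀ p : ℕ, p.Prime → p ∣ δ → (p : ℝ) < z),
            |(∑ i ∈ (Sc q c x H).filter (fun i => δ ∣ id i), (1 : ℝ)) - (H : ℝ) / q * ∏ p ∈ δ.primeFactors, gq q p|)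
        ≤ ∑ δ ∈ (Icc 1 ⌊z ^ (8 * b + 16)⌋₊).filter
            (fun δ => Squarefree δ ∧ ∀ p : ℕ, p.Prime → p ∣ δ → (p : ℝ) < z), (1 : ℝ) := by
      apply Finset.sum_le_sum
      intro δ hδ
      rw [Finset.mem_filter, Finset.mem_Icc] at hδ
      exact term q c x H δ hq hc hcop hδ.1.1 hδ.2.1
    refine h2.trans ?_
    rw [Finset.sum_const, nsmul_eq_mul, mul_one]
    have h3 : (((Icc 1 ⌊z ^ (8 * b + 16)⌋₊).filter
            (fun δ => Squarefree δ ∧ ∀ p : ℕ, p.Prime → p ∣ δ → (p : ℝ) < z)).card : ℝ)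
        ≤ ((Icc 1 ⌊z ^ (8 * b + 16)⌋₊).card : ℝ) := by
      exact_mod_cast Finset.card_filter_le _ _
    refine h3.trans ?_
    rw [Nat.card_Icc, Nat.add_sub_cancel]
    exact Nat.floor_le (by positivity)

/-- the sum of a character over `range q` -/
lemma sum_char (r : ℕ) (ψ : DirichletCharacter ℂ (r + 1)) (hψ : ψ ≠ 1) :
    ∑ c ∈ range (r + 1), ψ (c : ZMod (r + 1)) = 0 := by
  have h1 : ∑ a : ZMod (r + 1), ψ a = 0 := by
    rw [MulChar.sum_eq_zero_of_ne_one hψ]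
  rw [← h1]
  refine Finset.sum_bij (fun c _ => (c : ZMod (r + 1))) (fun _ _ => Finset.mem_univ _) ?_ ?_ (fun _ _ => rfl)
  · intro a ha b hb hab
    rw [Finset.mem_range] at ha hb
    rw [ZMod.natCast_eq_natCast_iff] at hab
    exact Nat.ModEq.eq_of_lt_of_lt hab ha hb
  · intro a _
    refine ⟨a.val, Finset.mem_range.2 (ZMod.val_lt a), ?_⟩
    exact ZMod.natCast_zmod_val a

/-- twisted sums from the sums over the reduced classes -/
lemma twist (z : ℝ) (r x H : ℕ) (ψ : DirichletCharacter ℂ (r + 1)) (hψ : ψ ≠ 1) (M E : ℝ) (hE : 0 ≤ E)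
    (h : ∀ c : ℕ, c < r + 1 → Nat.Coprime c (r + 1) → |(∑ l ∈ Sc (r + 1) c x H, rInd z l) - M| ≤ E) :
    ‖∑ l ∈ Ioc x (x + H), (rInd z l : ℂ) * ψ (l : ZMod (r + 1))‖ ≤ ((r : ℝ) + 1) * E := by
  have h1 : ∑ l ∈ Ioc x (x + H), (rInd z l : ℂ) * ψ (l : ZMod (r + 1))
      = ∑ c ∈ range (r + 1), ∑ l ∈ Sc (r + 1) c x H, (rInd z l : ℂ) * ψ (l : ZMod (r + 1)) := by
    unfold Sc
    rw [Finset.sum_fiberwise_of_maps_to]
    intro l _
    exact Finset.mem_range.2 (Nat.mod_lt _ (Nat.succ_pos r))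
  have h2 : ∀ c ∈ range (r + 1), ∑ l ∈ Sc (r + 1) c x H, (rInd z l : ℂ) * ψ (l : ZMod (r + 1))
      = ((∑ l ∈ Sc (r + 1) c x H, rInd z l : ℝ) : ℂ) * ψ (c : ZMod (r + 1)) := by
    intro c _
    push_cast
    rw [Finset.sum_mul]
    apply Finset.sum_congr rfl
    intro l hl
    have hl2 : l % (r + 1) = c := (Finset.mem_filter.1 hl).2
    have h3 : (l : ZMod (r + 1)) = (c : ZMod (r + 1)) := by
      rw [← hl2, ZMod.natCast_mod]
    rw [h3]
  rw [h1, Finset.sum_congr rfl h2]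
  have h4 : ∑ c ∈ range (r + 1), ((∑ l ∈ Sc (r + 1) c x H, rInd z l : ℝ) : ℂ) * ψ (c : ZMod (r + 1))
      = ∑ c ∈ range (r + 1), (((∑ l ∈ Sc (r + 1) c x H, rInd z l) - M : ℝ) : ℂ) * ψ (c : ZMod (r + 1)) := by
    have h5 : ∑ c ∈ range (r + 1), (((∑ l ∈ Sc (r + 1) c x H, rInd z l) - M : ℝ) : ℂ) * ψ (c : ZMod (r + 1))
        = ∑ c ∈ range (r + 1), ((∑ l ∈ Sc (r + 1) c x H, rInd z l : ℝ) : ℂ) * ψ (c : ZMod (r + 1))
          - (M : ℂ) * ∑ c ∈ range (r + 1), ψ (c : ZMod (r + 1)) := by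
      rw [Finset.mul_sum, ← Finset.sum_sub_distrib]
      apply Finset.sum_congr rfl
      intro c _
      rw [Complex.ofReal_sub, sub_mul]
    rw [h5, sum_char r ψ hψ, mul_zero, sub_zero]
  rw [h4]
  refine (norm_sum_le _ _).trans ?_
  have h6 : ∀ c ∈ range (r + 1), ‖(((∑ l ∈ Sc (r + 1) c x H, rInd z l) - M : ℝ) : ℂ) * ψ (c : ZMod (r + 1))‖ ≤ E := by
    intro c hc
    rw [Finset.mem_range] at hc
    by_cases hcop : Nat.Coprime c (r + 1)
    · rw [norm_mul, Complex.norm_real, Real.norm_eq_abs]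
      have h7 := ψ.norm_le_one (c : ZMod (r + 1))
      calc |(∑ l ∈ Sc (r + 1) c x H, rInd z l) - M| * ‖ψ (c : ZMod (r + 1))‖
          ≤ |(∑ l ∈ Sc (r + 1) c x H, rInd z l) - M| * 1 := mul_le_mul_of_nonneg_left h7 (abs_nonneg _)
        _ ≤ E := by rw [mul_one]; exact h c hc hcop
    · have h8 : ψ (c : ZMod (r + 1)) = 0 := by
        apply MulChar.map_nonunit
        rw [ZMod.isUnit_iff_coprime]
        exact hcop
      rw [h8, mul_zero, norm_zero]
      exact hE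
  refine (Finset.sum_le_sum h6).trans ?_
  rw [Finset.sum_const, nsmul_eq_mul, Finset.card_range]
  push_cast
  exact le_refl _

/-- the size of the error terms -/
lemma evT (K : ℝ) : ∀ᶠ T : ℝ in atTop, Real.log T * (K * (Real.log T + 1)) ≤ T / 10 := by
  have h1 := (Real.isLittleO_pow_log_id_atTop (n := 2)).bound (show (0 : ℝ) < 1 / (20 * (|K| + 1)) by positivity)
  have h2 := (Real.isLittleO_pow_log_id_atTop (n := 1)).bound (show (0 : ℝ) < 1 / (20 * (|K| + 1)) by positivity)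
  filter_upwards [h1, h2, eventually_ge_atTop (1 : ℝ)] with T hT1 hT2 hT3
  have hl : 0 ≤ Real.log T := Real.log_nonneg hT3
  rw [Real.norm_eq_abs, Real.norm_eq_abs, id, abs_of_nonneg (by linarith : (0 : ℝ) ≤ T), abs_of_nonneg (by positivity)] at hT1 hT2
  have hK : K ≤ |K| := le_abs_self K
  have hK0 : 0 ≤ |K| := abs_nonneg K
  have e1 : |K| * Real.log T ^ 2 ≤ T / 20 := by
    calc |K| * Real.log T ^ 2 ≤ |K| * (1 / (20 * (|K| + 1)) * T) := mul_le_mul_of_nonneg_left hT1 hK0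
      _ = (|K| / (|K| + 1)) * (T / 20) := by field_simp
      _ ≤ 1 * (T / 20) := by
        apply mul_le_mul_of_nonneg_right _ (by positivity)
        rw [div_le_one (by positivity)]
        linarith
      _ = T / 20 := one_mul _
  have e2 : |K| * Real.log T ≤ T / 20 := by
    rw [pow_one] at hT2
    calc |K| * Real.log T ≤ |K| * (1 / (20 * (|K| + 1)) * T) := mul_le_mul_of_nonneg_left hT2 hK0
      _ = (|K| / (|K| + 1)) * (T / 20) := by field_simp
      _ ≤ 1 * (T / 20) := by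
        apply mul_le_mul_of_nonneg_right _ (by positivity)
        rw [div_le_one (by positivity)]
        linarith
      _ = T / 20 := one_mul _
  have e3 : Real.log T * (K * (Real.log T + 1)) ≤ Real.log T * (|K| * (Real.log T + 1)) := by
    apply mul_le_mul_of_nonneg_left _ hl
    apply mul_le_mul_of_nonneg_right hK (by linarith)
  calc Real.log T * (K * (Real.log T + 1)) ≤ Real.log T * (|K| * (Real.log T + 1)) := e3
    _ = |K| * Real.log T ^ 2 + |K| * Real.log T := by ring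
    _ ≤ T / 20 + T / 20 := add_le_add e1 e2
    _ = T / 10 := by ring

/-- the choice of `b` -/
lemma size (C B W : ℝ) (hC : 0 < C) (hB : 0 < B) (hW : 0 < W) : ∀ᶠ T : ℝ in atTop, ∃ b : ℕ,
    C * Real.exp (-(b : ℝ)) ≤ 1 / T ^ B ∧
    ∀ q z : ℝ, 0 ≤ q → q ≤ T ^ W → 2 ≤ z → z ≤ T ^ W + 1 →
      q * (C * (1 + Real.log z) * z ^ (8 * b + 16)) ≤ Real.exp (T / 10) := by
  filter_upwards [evT (1 + W + (W + 1) + (W + 1) * (8 * (B + 1) + 24)), eventually_ge_atTop (Real.exp 1),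
    eventually_ge_atTop C, eventually_ge_atTop (2 : ℝ)] with T h1 h2 h3 h4
  have hT0 : 0 < T := by linarith
  have hT1 : 1 ≤ T := by linarith
  have hl : 1 ≤ Real.log T := by
    rw [Real.le_log_iff_exp_le hT0]
    exact h2
  have hTW : 1 ≤ T ^ W := Real.one_le_rpow hT1 hW.le
  refine ⟨⌈(B + 1) * Real.log T⌉₊, ?_, ?_⟩
  · have hb : (B + 1) * Real.log T ≤ (⌈(B + 1) * Real.log T⌉₊ : ℝ) := Nat.le_ceil _
    have e1 : Real.exp (-(⌈(B + 1) * Real.log T⌉₊ : ℝ)) ≤ Real.exp (-((B + 1) * Real.log T)) :=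
      Real.exp_le_exp.2 (by linarith)
    have e2 : Real.exp (-((B + 1) * Real.log T)) = T ^ (-(B + 1)) := by
      rw [Real.rpow_def_of_pos hT0]
      congr 1
      ring
    rw [e2] at e1
    calc C * Real.exp (-(⌈(B + 1) * Real.log T⌉₊ : ℝ)) ≤ T * T ^ (-(B + 1)) :=
          mul_le_mul h3 e1 (Real.exp_pos _).le hT0.le
      _ = 1 / T ^ B := by
          rw [neg_add, Real.rpow_add hT0, Real.rpow_neg_one, Real.rpow_neg hT0.le]
          field_simp
  · intro q z hq0 hq hz hz2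
    have hbu : (⌈(B + 1) * Real.log T⌉₊ : ℝ) < (B + 1) * Real.log T + 1 :=
      Nat.ceil_lt_add_one (by positivity)
    obtain ⟨b, hb⟩ : ∃ b, b = ⌈(B + 1) * Real.log T⌉₊ := ⟨_, rfl⟩
    rw [← hb] at hbu ⊢
    have hz3 : z ≤ T ^ (W + 1) := by
      rw [Real.rpow_add hT0, Real.rpow_one]
      nlinarith
    have hz0 : 0 < z := by linarith
    have hlz : 1 + Real.log z ≤ T ^ (W + 1) := by
      have := Real.log_le_sub_one_of_pos hz0
      linarith
    have hlz0 : 0 ≤ 1 + Real.log z := by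
      have := Real.log_nonneg (by linarith : (1 : ℝ) ≤ z)
      linarith
    have hpw : z ^ (8 * b + 16) ≤ T ^ ((W + 1) * (8 * b + 16)) := by
      calc z ^ (8 * b + 16) ≤ (T ^ (W + 1)) ^ (8 * b + 16) := pow_le_pow_left₀ hz0.le hz3 _
        _ = T ^ ((W + 1) * (8 * b + 16)) := by
          rw [← Real.rpow_natCast, ← Real.rpow_mul hT0.le]
          push_cast
          rfl
    have hpw2 : T ^ ((W + 1) * (8 * b + 16)) ≤ T ^ ((W + 1) * (8 * (B + 1) * Real.log T + 24)) := by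
      apply Real.rpow_le_rpow_of_exponent_le hT1
      apply mul_le_mul_of_nonneg_left _ (by linarith)
      linarith
    have hall : q * (C * (1 + Real.log z) * z ^ (8 * b + 16))
        ≤ T ^ W * (T * T ^ (W + 1) * T ^ ((W + 1) * (8 * (B + 1) * Real.log T + 24))) := by
      apply mul_le_mul hq _ (by positivity) (by positivity)
      apply mul_le_mul _ (hpw.trans hpw2) (by positivity) (by positivity)
      exact mul_le_mul h3 hlz hlz0 hT0.le
    refine hall.trans ?_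
    have e1 : T ^ W * (T * T ^ (W + 1) * T ^ ((W + 1) * (8 * (B + 1) * Real.log T + 24)))
        = T ^ (W + (1 + (W + 1) + (W + 1) * (8 * (B + 1) * Real.log T + 24))) := by
      rw [Real.rpow_add hT0 W (1 + (W + 1) + (W + 1) * (8 * (B + 1) * Real.log T + 24)),
        Real.rpow_add hT0 (1 + (W + 1)) ((W + 1) * (8 * (B + 1) * Real.log T + 24)),
        Real.rpow_add hT0 1 (W + 1), Real.rpow_one]
    rw [e1, Real.rpow_def_of_pos hT0]
    apply Real.exp_le_exp.2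
    refine le_trans ?_ h1
    apply mul_le_mul_of_nonneg_left _ (by linarith)
    have hl0 : 0 ≤ Real.log T := by linarith
    have hBW : 0 ≤ (W + 1) * (8 * (B + 1)) := by positivity
    have hWW : 0 ≤ W * Real.log T := by positivity
    nlinarith

end RCHM

theorem specRCH (h : QPA.SpecFL) : SpecRCH := by
  obtain ⟨C, hC, hFL⟩ := h
  intro B W hB hW
  have ht : Tendsto (fun N : ℕ => Real.log N) atTop atTop :=
    Real.tendsto_log_atTop.comp tendsto_natCast_atTop_atTop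
  obtain ⟨N₀, hN₀⟩ := Filter.eventually_atTop.1 ((ht.eventually (RCHM.size C B W hC hB hW)).and
    (eventually_ge_atTop 1))
  refine ⟨N₀, ?_⟩
  intro N w hN hw2 hw x H
  obtain ⟨⟨b, hb1, hb2⟩, hN1⟩ := hN₀ N hN
  have hN0 : (0 : ℝ) < N := by exact_mod_cast hN1
  have hexp : Real.exp (Real.log N / 10) = (N : ℝ) ^ (1 / 10 : ℝ) := by
    rw [Real.rpow_def_of_pos hN0]
    congr 1
    ring
  rw [hexp] at hb2
  have hw' : (2 : ℝ) ≤ w := by exact_mod_cast hw2
  have hz : (2 : ℝ) ≤ (w : ℝ) + 1 := by linarith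
  have hT1 : (1 : ℝ) ≤ (Real.log N) ^ W := by linarith
  have hCe : 0 ≤ C * Real.exp (-(b : ℝ)) := by positivity
  have hH : (0 : ℝ) ≤ H := Nat.cast_nonneg H
  have hHB : C * Real.exp (-(b : ℝ)) * H ≤ H / (Real.log N) ^ B := by
    have := mul_le_mul_of_nonneg_right hb1 hH
    rwa [one_div, inv_mul_eq_div] at this
  constructor
  · have h1 := RCHM.cls C hC hFL b ((w : ℝ) + 1) hz 1 0 x H Nat.one_pos Nat.one_pos (Nat.coprime_one_right 0)
    have e1 : RCHM.Sc 1 0 x H = Ioc x (x + H) := by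
      unfold RCHM.Sc
      apply Finset.filter_true_of_mem
      intro u _
      exact Nat.mod_one u
    rw [e1, Nat.cast_one, div_one, RCHM.Pq_one] at h1
    refine h1.trans (add_le_add hHB ?_)
    have h2 := hb2 1 ((w : ℝ) + 1) zero_le_one hT1 hz (by linarith)
    rwa [one_mul] at h2
  · intro r hr ψ hψ
    have hlog : 0 ≤ 1 + Real.log ((w : ℝ) + 1) := by
      have := Real.log_nonneg (by linarith : (1 : ℝ) ≤ (w : ℝ) + 1)
      linarith
    have hr0 : (0 : ℝ) < (r : ℝ) + 1 := by positivity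
    have h1 := RCHM.twist ((w : ℝ) + 1) r x H ψ hψ ((H : ℝ) / ((r + 1 : ℕ) : ℝ) * RCHM.Pq (r + 1) ((w : ℝ) + 1))
      (C * Real.exp (-(b : ℝ)) * ((H : ℝ) / ((r + 1 : ℕ) : ℝ))
        + C * (1 + Real.log ((w : ℝ) + 1)) * ((w : ℝ) + 1) ^ (8 * b + 16)) (by positivity)
      (fun c hc hcop => RCHM.cls C hC hFL b ((w : ℝ) + 1) hz (r + 1) c x H (Nat.succ_pos r) hc hcop)
    refine h1.trans ?_
    rw [mul_add]
    apply add_le_add
    · refine le_trans (le_of_eq ?_) hHB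
      push_cast
      field_simp
    · exact hb2 ((r : ℝ) + 1) ((w : ℝ) + 1) hr0.le hr hz (by linarith)

end

end Pool.Agent.Lib.MP391708.U
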