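import Pool.Agent.Lib.MP_391708_nt.U.SpecU
import Pool.Agent.Lib.MP_391708_nt.QPA.F6b

/-!
# Project U, part 5: the constant, with `w` a power of the logarithm

The modules PROD, F6, GMAX of QPA with `w` of the size `(log A)^K` and an exceptional set of size
`A / (log A)^B`, `B` arbitrary.  Every module file `U/X.lean` proves
`theorem specX (h₁ : SpecU) ... : SpecX`, auxiliary lemmas in the namespace `...U.XM`.

The Props GMAXU, WLOW, PRODU, F6U of the interface `SpecU.lean` follow.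

* GMAXU (uses RHO2, RHOP). By `F6.Gw_eq`, `Gw w a = ∏_{p ∈ SP w} (1 - χ(p)/(p-1))`, `χ(p) = (-a|p)`,
  `SP w` the odd primes `≤ w`. As `|χ(p)| ≤ 1` every factor is at most `1 + 1/(p-1) = (1-1/p)⁻¹` and at
  least `1 - 1/(p-1) = (1-1/p)(1-1/(p-1)²) > 0`. So `Gw w a ≤ Vw w = 2 ∏_{p ∈ SP w} (1-1/p)⁻¹`, and
  `Gw w a ≥ (∏_{p ∈ SP w} (1-1/p)) ∏_{m=3}^w (1-1/(m-1)²) ≥ (2/Vw w)(1/2)`, because
  `∏_{m=3}^w (1-1/(m-1)²) = w/(2(w-1)) ≥ 1/2` and the factors are `≤ 1`. Finally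
  `Vw w ≤ C log w` for `w ≥ 3` (`BasM.Vw_le`), and `Vw` is monotone (for `w = 2`).
* WLOW. Let `w = max 3 ⌈z⌉₊`. All the primes `< z` are `≤ w`, so `Wp z ≥ 1/Vw w ≥ 1/(C log w)`, and
  `w ≤ z + 2 ≤ z²`, so `log w ≤ 2 log z` (`z ≥ 2`).
* PRODU: PRODX with `W₀ = B + 1`, `w = wN W N`: `w ≥ (log N)^W ≥ (log N)^(B+1)` and
  `w + 1 ≤ (log N)^W + 2 ≤ N^e0` for `N` large.
* F6U: F6X with `W₀ = 2B + 1`, `K = W + 2`.
-/

set_option autoImplicit false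

namespace Pool.Agent.Lib.MP391708.U

open Finset Filter Topology
open Pool.Agent.Lib.MP391708.QPA
open scoped Classical

noncomputable section

/-- MODULE PRODX (uses RHOP, PVA; file `U/PRODU.lean`, 120 lines). `W_a(z) ≈ G_w(a) W(z)`, `z = N^e0`.

Proof. `QPA/Prod.lean` has everything. `t := min δ 1 / 4`. By `Prod.Wa_eq`,
`Wa z a = Gw w a * Wp z * R`, `R = ∏_{p ∈ P w z} fac a p`; by `Prod.log_prod` (`w ≥ 4`, as
`(log N)^(B+1) ≤ w`, `N` large) `|log R + S w z a| ≤ 3/(w-1) ≤ t` (`w ≥ 3/t + 1` for `N` large). So if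
`|S w z a| ≤ t`, then `|log R| ≤ 2t ≤ 1` and `|R - 1| ≤ 4t ≤ δ` (`Real.abs_exp_sub_one_le`). The
exceptional set is contained in `{a ∈ IA A | t < |S w z a|}`, and by `Prod.moment` (PVA with `e = 1/2`)
its cardinality times `t²` is `≤ (2A+1)/(w-1) + C (z+1)²`. Here `(2A+1)/(w-1) ≤ 6A/w ≤
6A/(log N)^(B+1) ≤ (t²/2) A/(log N)^B` as soon as `log N ≥ 12/t²`, and `C(z+1)² ≤ 4C z² ≤ 4C N^(1/5) ≤
(t²/2) N^(3/4)/(log N)^B ≤ (t²/2) A/(log N)^B` for `N` large. This is the proof of `specPROD`, with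
the last two estimates changed. -/
def SpecPRODX : Prop := ∀ δ B e0 : ℝ, 0 < δ → 0 < B → 0 < e0 → e0 ≤ 1 / 10 →
  ∃ N₀ : ℕ, ∀ N A w : ℕ, N₀ ≤ N → (N : ℝ) ^ (3 / 4 : ℝ) ≤ A → (Real.log N) ^ (B + 1) ≤ w →
    (w : ℝ) + 1 ≤ (N : ℝ) ^ e0 →
    (((IA A).filter (fun a => ¬ |Wa ((N : ℝ) ^ e0) a - Gw w a * Wp ((N : ℝ) ^ e0)|
      ≤ δ * (Gw w a * Wp ((N : ℝ) ^ e0)))).card : ℝ) ≤ A / (Real.log N) ^ B

/-- MODULE IEU (file `U/IEU.lean`, 70 lines). Inclusion and exclusion over the products of the primes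
of `S` (`F6.Fr S k`: `k` is odd and not divisible by the primes of `S`).

Proof. Induction on `S` (`Finset.induction_on`, for all `f`, `x`, `y`). `S = ∅`: `Fr ∅ k ↔ Odd k`.
`insert p S`: by `F6.split`, `∑_{(x,y], Fr (insert p S)} f k = ∑_{(x,y], Fr S} f k -
∑_{(x/p,y/p], Fr S} f (p m)`; apply the induction hypothesis to `f`, `x`, `y` and to `f (p ·)`, `x/p`,
`y/p`, and `Finset.sum_powerset_insert` (for `T ⊆ S`: `(insert p T).card = T.card + 1`,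
`∏_{insert p T} = p ∏_T`, `Nat.div_div_eq_div_mul`). -/
def SpecIEU : Prop := ∀ (S : Finset ℕ), (∀ p ∈ S, p.Prime ∧ p ≠ 2) → ∀ (f : ℕ → ℝ) (x y : ℕ),
  ∑ k ∈ (Ioc x y).filter (F6.Fr S), f k = ∑ T ∈ S.powerset, (-1) ^ T.card *
    ∑ m ∈ (Ioc (x / ∏ p ∈ T, p) (y / ∏ p ∈ T, p)).filter Odd, f ((∏ p ∈ T, p) * m)

/-- MODULE TLU (uses IEU; file `U/TLU.lean`, 200 lines). The tail of the sifted sum.

Proof. `χ(k) = (n₀|k)`, `R(x,y) = ∑_{x<m≤y, m odd} χ(m)/m`. (i) For `x ≤ y`: `|R(x,y)| ≤ B/(x+1)`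
(`F6.abel`). (ii) For all `x ≤ y`: `|R(x,y)| ≤ 3 + log(B+1)`: with `b = ⌈B⌉`: the part `m ≤ b` is
`≤ ∑_{m≤b} 1/m ≤ 1 + log b ≤ 1 + log(B+1)` (`harmonic_le_one_add_log`), the part `m > b` (if it is not
empty) is `≤ B/(b+1) ≤ 1` by (i). (iii) By IEU with `f k = χ(k)/k`, `d = ∏_{p∈T} p`,
`f(d m) = (χ(d)/d) (χ(m)/m)` (`F6.jac_mul`), so the sum is at most
`∑_{T ⊆ SP w} (1/d) |R(Y/d, X/d)|`. For `d ≤ D` use (i): `⌊Y/d⌋ + 1 ≥ Y/d`, so the term is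
`≤ (1/d)(B d/Y) = B/Y ≤ (B D/Y) (1/d)`, and `∑_T 1/d = ∏_{p∈SP w} (1+1/p)` (`Finset.prod_one_add` or
`Finset.prod_add`). For `d > D` use (ii) and Rankin: with `κ = 1/log w`,
`1 ≤ (d/D)^κ = exp(-log D/log w) d^κ` and `∑_T d^κ/d = ∏_{p∈SP w} (1+p^κ/p)`, `p^κ ≤ e`
(`p ≤ w`). (iv) `∏_{p∈SP w} (1+c/p) ≤ exp(c ∑_{n≤w} 1/n) ≤ exp(c(1+log w)) = (e w)^c`, used for `c = 1`
and `c = e ≤ 3`; `e w ≤ 3 w` and `(e w)^e ≤ (3 w)^3`. (To avoid real exponents for `p^κ`, write it as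
`exp(κ log p)` and `d^κ` as `exp(κ log d) = ∏_{p∈T} exp(κ log p)`.) -/
def SpecTLU : Prop := ∀ (n₀ : ℤ) (B : ℝ), 0 < B →
  (∀ x y : ℕ, |∑ k ∈ (Ioc x y).filter Odd, (jacobiSym n₀ k : ℝ)| ≤ B) →
  ∀ (w : ℕ) (D : ℝ) (Y X : ℕ), 3 ≤ w → 1 ≤ D → 1 ≤ Y → Y ≤ X →
    |∑ k ∈ (Ioc Y X).filter (F6.Fr (F6.SP w)), (jacobiSym n₀ k : ℝ) / k|
      ≤ B * D / Y * (3 * w) + (3 + Real.log (B + 1)) * Real.exp (-(Real.log D / Real.log w))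
        * (3 * w) ^ 3

/-- MODULE F6X (uses EUL, CONV, PVA, PVE, RHOP, RHO2, TLU; file `U/F6U.lean`, 300 lines, a copy of
`specF6` in `QPA/F6.lean`).

Proof. `η = min δ 1 / 8`, `Y = ⌊A^(7/10)⌋`. PVE with `e = 1/16`: `B' = C₂ A^(9/16)` for all `|a| ≤ A`, `-a`
not a square. TLU with `D = A^(1/10)`: the first term is `≤ C₂ A^(9/16+1/10) 3w/Y ≤ 6 C₂ w A^(-3/80)`
(`Y ≥ A^(7/10)/2`), the second one is `≤ (3 + log(C₂ A + 1)) exp(-log A/(10 log w)) 27 w³`. As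
`w ≤ (log A)^K`, `log w ≤ K log log A ≤ (log A)^(1/2)` for `A` large, so `exp(-log A/(10 log w)) ≤
exp(-(log A)^(1/2)/10)`, which is smaller than any power of `log A`; the sum of the two terms is
`≤ η` for `A ≥ A₀`. The rest is as in `specF6`: for `a` not in the exceptional set
`{-a a square} ∪ {|S a| > η}`, `S a = ∑_{n ∈ RY w Y} χ(n)/n`, one gets `|L - 1| ≤ 2η` and by
`F6.compare` (`w ≥ 16`, `16/(w+1) ≤ η` for `A` large, because `w ≥ (log A)^(2B+1)`) the claim.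
Cardinalities: the squares are `≤ √A + 1 ≤ (1/2) A/(log A)^B`; `F6.body`: `#{|S a| > η} η² ≤
C (A/√w + Y^(5/4)(1+log Y)²) ≤ C A/(log A)^(B+1/2) + C A^(15/16) ≤ (η²/2) A/(log A)^B` for `A` large. -/
def SpecF6X : Prop := ∀ δ B K : ℝ, 0 < δ → 0 < B → 0 < K → ∃ A₀ : ℕ, ∀ A w : ℕ, A₀ ≤ A →
  (Real.log A) ^ (2 * B + 1) ≤ w → (w : ℝ) ≤ (Real.log A) ^ K →
  (((IA A).filter (fun a => ¬ ∃ h : ℝ, 0 < h ∧ Tendsto (fun v : ℕ => Gw v a) atTop (𝓝 h) ∧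
    |Gw w a - h| ≤ δ * h)).card : ℝ) ≤ A / (Real.log A) ^ B

end

end Pool.Agent.Lib.MP391708.U
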