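import Pool.Agent.Lib.MP_391708_nt.U.SpecU2

/-! # Project U, module TNT: the tent and its finite Fourier expansion -/

set_option autoImplicit false

namespace Pool.Agent.Lib.MP391708.U

open Finset Filter Topology Pool.Agent.Lib.MP391708.QPA
open scoped Classical

noncomputable section

namespace TNTM

theorem ex_add (x y : ℝ) : ex (x + y) = ex x * ex y := by
  unfold ex
  rw [← Complex.exp_add]
  congr 1
  push_cast
  ring

theorem ex_int (k : ℤ) : ex (k : ℝ) = 1 := by
  unfold ex
  rw [Complex.exp_eq_one_iff]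
  exact ⟨k, by push_cast; ring⟩

theorem ex_nat_mul (b : ℕ) (x : ℝ) : ex ((b : ℝ) * x) = ex x ^ b := by
  unfold ex
  rw [← Complex.exp_nat_mul]
  congr 1
  push_cast
  ring

theorem ex_conj (x : ℝ) : (starRingEnd ℂ) (ex x) = ex (-x) := by
  unfold ex
  rw [← Complex.exp_conj]
  congr 1
  rw [map_mul, map_mul, map_mul, Complex.conj_ofReal, Complex.conj_ofReal, Complex.conj_I,
    map_ofNat]
  push_cast
  ring

/-- orthogonality -/
theorem orth (m : ℕ) (hm : 1 ≤ m) (x : ℤ) :
    ∑ b ∈ range m, ex ((b : ℝ) * ((x : ℝ) / m)) = if (m : ℤ) ∣ x then (m : ℂ) else 0 := by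
  have hm0 : (m : ℝ) ≠ 0 := by positivity
  simp only [ex_nat_mul]
  split_ifs with h
  · obtain ⟨k, hk⟩ := h
    have h1 : (x : ℝ) / m = (k : ℤ) := by
      rw [hk]
      push_cast
      field_simp
    rw [h1, ex_int]
    simp
  · have h1 : ex ((x : ℝ) / m) ≠ 1 := by
      intro h2
      unfold ex at h2
      rw [Complex.exp_eq_one_iff] at h2
      obtain ⟨k, hk⟩ := h2
      have h3 : (2 * Real.pi * Complex.I : ℂ) ≠ 0 := by
        simp [Real.pi_ne_zero]
      have h4 : (((x : ℝ) / m : ℝ) : ℂ) = (k : ℂ) := by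
        have : (2 * Real.pi * Complex.I : ℂ) * (((x : ℝ) / m : ℝ) : ℂ)
            = (2 * Real.pi * Complex.I : ℂ) * (k : ℂ) := by
          rw [hk]
          ring
        exact mul_left_cancel₀ h3 this
      have h5 : (x : ℝ) / m = k := by exact_mod_cast h4
      apply h
      refine ⟨k, ?_⟩
      have h6 : (x : ℝ) = m * k := by
        field_simp at h5
        linarith
      exact_mod_cast h6
    have h2 : ex ((x : ℝ) / m) ^ m = 1 := by
      rw [← ex_nat_mul]
      have : (m : ℝ) * ((x : ℝ) / m) = (x : ℤ) := by field_simp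
      rw [this, ex_int]
    have h3 := geom_sum_mul (ex ((x : ℝ) / m)) m
    rw [h2, sub_self] at h3
    rcases mul_eq_zero.1 h3 with h4 | h4
    · exact h4
    · exact absurd (sub_eq_zero.1 h4) h1

/-- the number of the pairs -/
theorem card_pairs (N n : ℕ) (hN : 1 ≤ N) :
    ((((range N) ×ˢ (range N)).filter
      (fun p : ℕ × ℕ => (n : ℤ) = (n0 N : ℤ) + p.1 - p.2)).card : ℝ) = N * tn N n := by
  have hN0 : (0 : ℝ) < N := by exact_mod_cast hN
  rcases le_total (n0 N) n with h | h
  · obtain ⟨d, rfl⟩ := Nat.exists_eq_add_of_le h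
    have h1 : ((range N) ×ˢ (range N)).filter
        (fun p : ℕ × ℕ => ((n0 N + d : ℕ) : ℤ) = (n0 N : ℤ) + p.1 - p.2)
        = (range (N - d)).image (fun j => (j + d, j)) := by
      ext ⟨i, j⟩
      simp only [mem_filter, mem_product, mem_range, mem_image, Prod.mk.injEq]
      constructor
      · rintro ⟨⟨h2, h3⟩, h4⟩
        push_cast at h4
        exact ⟨j, by omega, by omega, rfl⟩
      · rintro ⟨k, hk, h2, h3⟩
        push_cast
        omega
    rw [h1, card_image_of_injective _ (fun a b hab => by simpa using congrArg Prod.snd hab),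
      card_range]
    unfold tn
    push_cast
    rw [add_sub_cancel_left, abs_of_nonneg (by positivity : (0 : ℝ) ≤ (d : ℝ)),
      mul_max_of_nonneg _ _ hN0.le]
    rcases le_total d N with h2 | h2
    · have h3 : ((N - d : ℕ) : ℝ) = (N : ℝ) - d := by push_cast [Nat.cast_sub h2]; ring
      have h4 : (d : ℝ) ≤ N := by exact_mod_cast h2
      rw [h3, max_eq_right]
      · field_simp
      · have : (N : ℝ) * (1 - d / N) = N - d := by field_simp
        rw [this]
        linarith
    · have h3 : N - d = 0 := by omega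
      have h4 : (N : ℝ) ≤ d := by exact_mod_cast h2
      rw [h3, max_eq_left]
      · simp
      · have : (N : ℝ) * (1 - d / N) = N - d := by field_simp
        rw [this]
        linarith
  · obtain ⟨d, hd⟩ := Nat.exists_eq_add_of_le h
    have h1 : ((range N) ×ˢ (range N)).filter
        (fun p : ℕ × ℕ => (n : ℤ) = (n0 N : ℤ) + p.1 - p.2)
        = (range (N - d)).image (fun i => (i, i + d)) := by
      ext ⟨i, j⟩
      simp only [mem_filter, mem_product, mem_range, mem_image, Prod.mk.injEq]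
      constructor
      · rintro ⟨⟨h2, h3⟩, h4⟩
        exact ⟨i, by omega, rfl, by omega⟩
      · rintro ⟨k, hk, h2, h3⟩
        omega
    rw [h1, card_image_of_injective _ (fun a b hab => by simpa using congrArg Prod.fst hab),
      card_range]
    unfold tn
    have h5 : (n : ℝ) - (n0 N : ℝ) = -(d : ℝ) := by
      rw [hd]
      push_cast
      ring
    rw [h5, abs_neg, abs_of_nonneg (by positivity : (0 : ℝ) ≤ (d : ℝ)),
      mul_max_of_nonneg _ _ hN0.le]
    rcases le_total d N with h2 | h2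
    · have h3 : ((N - d : ℕ) : ℝ) = (N : ℝ) - d := by push_cast [Nat.cast_sub h2]; ring
      have h4 : (d : ℝ) ≤ N := by exact_mod_cast h2
      rw [h3, max_eq_right]
      · field_simp
      · have : (N : ℝ) * (1 - d / N) = N - d := by field_simp
        rw [this]
        linarith
    · have h3 : N - d = 0 := by omega
      have h4 : (N : ℝ) ≤ d := by exact_mod_cast h2
      rw [h3, max_eq_left]
      · simp
      · have : (N : ℝ) * (1 - d / N) = N - d := by field_simp
        rw [this]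
        linarith

/-- summation over the pairs -/
theorem sum_pairs (N : ℕ) (hN : 1 ≤ N) (g : ℤ → ℂ) :
    ∑ i ∈ range N, ∑ j ∈ range N, g ((n0 N : ℤ) + i - j)
      = ∑ n ∈ Icc 1 (4 * N), ((N : ℂ) * (tn N n : ℂ)) * g (n : ℤ) := by
  rw [← sum_product']
  have h1 : ∀ p ∈ (range N) ×ˢ (range N), g ((n0 N : ℤ) + (p.1 : ℤ) - (p.2 : ℤ))
      = ∑ n ∈ Icc 1 (4 * N),
        if (n : ℤ) = (n0 N : ℤ) + (p.1 : ℤ) - (p.2 : ℤ) then g (n : ℤ) else 0 := by
    rintro ⟨i, j⟩ hp
    rw [mem_product, mem_range, mem_range] at hp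
    simp only at hp ⊢
    have hn0 : n0 N = N + (N + 1) / 2 := rfl
    have h2 : ((n0 N + i - j : ℕ) : ℤ) = (n0 N : ℤ) + i - j := by omega
    rw [sum_eq_single (n0 N + i - j)]
    · rw [if_pos h2, h2]
    · intro b _ hb
      rw [if_neg]
      intro h3
      apply hb
      omega
    · intro h3
      exfalso
      apply h3
      rw [mem_Icc]
      omega
  rw [sum_congr rfl h1, sum_comm]
  refine sum_congr rfl fun n _ => ?_
  rw [← sum_filter, sum_const, nsmul_eq_mul]
  congr 1
  have h2 := card_pairs N n hN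
  exact_mod_cast congrArg (fun x : ℝ => (x : ℂ)) h2

theorem fj_eq (N m : ℕ) (b : ℤ) :
    (fj N m b : ℂ) = 1 / ((m : ℂ) * N) *
      ∑ i ∈ range N, ∑ j ∈ range N, ex ((b : ℝ) * ((j : ℝ) - i) / m) := by
  have h1 : ((‖∑ i ∈ range N, ex ((b : ℝ) * i / m)‖ ^ 2 : ℝ) : ℂ)
      = ∑ i ∈ range N, ∑ j ∈ range N, ex ((b : ℝ) * ((j : ℝ) - i) / m) := by
    rw [← Complex.normSq_eq_norm_sq, Complex.normSq_eq_conj_mul_self, map_sum, sum_mul_sum]
    refine sum_congr rfl fun i _ => sum_congr rfl fun j _ => ?_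
    rw [ex_conj, ← ex_add]
    congr 1
    ring
  unfold fj
  rw [Complex.ofReal_div, h1]
  push_cast
  ring

theorem fourier (N : ℕ) (hN : 1 ≤ N) (m : ℕ) (t : ℤ) (hm : 1 ≤ m) :
    (((∑ n ∈ Icc 1 (4 * N), if (m : ℤ) ∣ (n : ℤ) - t then tn N n else 0 : ℝ)) : ℂ)
      = ∑ b ∈ range m, (fj N m b : ℂ) * ex ((b : ℝ) * ((t : ℝ) - n0 N) / m) := by
  have hN0 : (N : ℂ) ≠ 0 := by
    have : N ≠ 0 := by omega
    exact_mod_cast this
  have hm0 : (m : ℂ) ≠ 0 := by
    have : m ≠ 0 := by omega
    exact_mod_cast this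
  have h1 : ∀ b ∈ range m, (fj N m b : ℂ) * ex ((b : ℝ) * ((t : ℝ) - n0 N) / m)
      = 1 / ((m : ℂ) * N) * ∑ i ∈ range N, ∑ j ∈ range N,
        ex ((b : ℝ) * (((t - ((n0 N : ℤ) + i - j) : ℤ) : ℝ) / m)) := by
    intro b _
    rw [fj_eq, mul_assoc, sum_mul]
    congr 1
    refine sum_congr rfl fun i _ => ?_
    rw [sum_mul]
    refine sum_congr rfl fun j _ => ?_
    rw [← ex_add]
    congr 1
    push_cast
    ring
  rw [sum_congr rfl h1, ← mul_sum, sum_comm]
  have h2 : ∀ i ∈ range N, ∑ b ∈ range m, ∑ j ∈ range N,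
      ex ((b : ℝ) * (((t - ((n0 N : ℤ) + i - j) : ℤ) : ℝ) / m))
      = ∑ j ∈ range N,
        (fun x : ℤ => if (m : ℤ) ∣ t - x then (m : ℂ) else 0) ((n0 N : ℤ) + i - j) := by
    intro i _
    rw [sum_comm]
    exact sum_congr rfl fun j _ => orth m hm _
  rw [sum_congr rfl h2, sum_pairs N hN (fun x : ℤ => if (m : ℤ) ∣ t - x then (m : ℂ) else 0),
    mul_sum]
  push_cast
  refine sum_congr rfl fun n _ => ?_
  have h3 : ((m : ℤ) ∣ (n : ℤ) - t) ↔ ((m : ℤ) ∣ t - (n : ℤ)) := by
    rw [← dvd_neg, neg_sub]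
  by_cases h4 : (m : ℤ) ∣ (n : ℤ) - t
  · rw [if_pos h4, if_pos (h3.1 h4)]
    field_simp
  · rw [if_neg h4, if_neg (fun h5 => h4 (h3.2 h5))]
    simp

end TNTM

open TNTM in
/-- TNT: the tent. -/
theorem specTNT : SpecTNT := by
  intro N hN
  have hN0 : (0 : ℝ) < N := by exact_mod_cast hN
  have hn0 : n0 N = N + (N + 1) / 2 := rfl
  refine ⟨?_, ?_, ?_, fun m t hm => fourier N hN m t hm⟩
  · intro n
    unfold tn
    refine ⟨le_max_left _ _, max_le zero_le_one ?_⟩
    have : 0 ≤ |(n : ℝ) - (n0 N : ℝ)| / N := by positivity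
    linarith
  · intro n hn
    rw [mem_Ioc] at hn
    unfold tn
    refine le_trans ?_ (le_max_right _ _)
    have h1 : |(n : ℝ) - (n0 N : ℝ)| ≤ N / 2 := by
      rw [abs_le]
      have h2 : 2 * n ≤ 2 * n0 N + N := by omega
      have h3 : 2 * n0 N ≤ 2 * n + N := by omega
      have h2' : (2 : ℝ) * n ≤ 2 * n0 N + N := by exact_mod_cast h2
      have h3' : (2 : ℝ) * n0 N ≤ 2 * n + N := by exact_mod_cast h3
      constructor <;> linarith
    have h2 : |(n : ℝ) - (n0 N : ℝ)| / N ≤ 1 / 2 := by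
      rw [div_le_iff₀ hN0]
      linarith
    linarith
  · intro n hn
    have h1 : |(n : ℝ) - (n0 N : ℝ)| < N := by
      by_contra h2
      apply hn
      unfold tn
      rw [max_eq_left]
      have h3 : 1 ≤ |(n : ℝ) - (n0 N : ℝ)| / N := by
        rw [le_div_iff₀ hN0]
        linarith
      linarith
    rw [abs_lt] at h1
    have h2 : n0 N < n + N := by
      have : (n0 N : ℝ) < n + N := by linarith
      exact_mod_cast this
    have h3 : n < n0 N + N := by
      have : (n : ℝ) < n0 N + N := by linarith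
      exact_mod_cast this
    omega

end

end Pool.Agent.Lib.MP391708.U
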