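import Pool.Agent.Lib.MP_391708_nt.U.SpecU

/-!
# Project U (MP_391708): UNI, all the scales at once
-/

set_option autoImplicit false

namespace Pool.Agent.Lib.MP391708.U

open Finset Filter Topology Pool.Agent.Lib.MP391708.QPA
open scoped Classical

namespace UNIM

lemma exc_mono (A : ℕ) {P Q : ℤ → Prop} (h : ∀ a ∈ IA A, P a → Q a) : exc A Q ≤ exc A P := by
  unfold exc
  rw [Nat.cast_le]
  apply Finset.card_le_card
  intro a ha
  rw [Finset.mem_filter] at ha ⊢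
  exact ⟨ha.1, fun hc => ha.2 (h a ha.1 hc)⟩

lemma exc_zero (A : ℕ) {P : ℤ → Prop} (h : ∀ a ∈ IA A, P a) : exc A P = 0 := by
  unfold exc
  rw [Finset.filter_eq_empty_iff.mpr]
  · simp
  · intro a ha hc
    exact hc (h a ha)

lemma exc_union (A : ℕ) (s : Finset ℕ) {P : ℤ → Prop} {Q : ℕ → ℤ → Prop}
    (h : ∀ a ∈ IA A, (∀ j ∈ s, Q j a) → P a) : exc A P ≤ ∑ j ∈ s, exc A (Q j) := by
  unfold exc
  rw [← Nat.cast_sum, Nat.cast_le]
  refine le_trans (Finset.card_le_card ?_) Finset.card_biUnion_le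
  intro a ha
  rw [Finset.mem_filter] at ha
  rw [Finset.mem_biUnion]
  by_contra hcon
  apply ha.2
  apply h a ha.1
  intro j hj
  by_contra hc
  exact hcon ⟨j, hj, Finset.mem_filter.mpr ⟨ha.1, hc⟩⟩

/-- the grid -/
noncomputable def G (η : ℝ) (j : ℕ) : ℕ := ⌈(1 + η) ^ j⌉₊

lemma grid {η : ℝ} (hη : 0 < η) {N : ℕ} (hN : 1 ≤ N) :
    ∃ j : ℕ, G η j ≤ N ∧ N ≤ G η (j + 1) ∧ (G η (j + 1) : ℝ) ≤ (1 + η) * G η j + 1 := by
  have h1 : (1 : ℝ) < 1 + η := by linarith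
  have hex : ∃ n : ℕ, N < G η n := by
    obtain ⟨n, hn⟩ := pow_unbounded_of_one_lt (N : ℝ) h1
    refine ⟨n, ?_⟩
    have : (N : ℝ) < (G η n : ℝ) := lt_of_lt_of_le hn (Nat.le_ceil _)
    exact_mod_cast this
  have h0 : G η 0 = 1 := by simp [G]
  have hpos : Nat.find hex ≠ 0 := by
    intro h
    have := Nat.find_spec hex
    rw [h, h0] at this
    omega
  obtain ⟨j, hj⟩ := Nat.exists_eq_succ_of_ne_zero hpos
  refine ⟨j, ?_, ?_, ?_⟩
  · have := Nat.find_min hex (m := j) (by omega)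
    omega
  · have := Nat.find_spec hex
    rw [hj] at this
    exact this.le
  · have h2 : (G η (j + 1) : ℝ) < (1 + η) ^ (j + 1) + 1 := Nat.ceil_lt_add_one (by positivity)
    have h3 : (1 + η) ^ j ≤ (G η j : ℝ) := Nat.le_ceil _
    have h4 : (1 + η) ^ (j + 1) = (1 + η) * (1 + η) ^ j := by ring
    have h5 : (1 + η) * (1 + η) ^ j ≤ (1 + η) * (G η j : ℝ) :=
      mul_le_mul_of_nonneg_left h3 (by linarith)
    linarith

/-- the logarithmic integral of the problem -/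
noncomputable def Li (N : ℕ) : ℝ := ∫ t in (2 : ℝ)..(N : ℝ), 1 / Real.log t

lemma Li_nonneg {N : ℕ} (h : 2 ≤ N) : 0 ≤ Li N := by
  apply intervalIntegral.integral_nonneg (by exact_mod_cast h)
  intro u hu
  have : 0 ≤ Real.log u := Real.log_nonneg (by linarith [hu.1])
  positivity

lemma Li_mono {M N : ℕ} (h : 2 ≤ M) (hMN : M ≤ N) : Li M ≤ Li N := by
  have h2 : (2 : ℝ) ≤ M := by exact_mod_cast h
  have h3 : (M : ℝ) ≤ N := by exact_mod_cast hMN
  have hi : ∀ a b : ℝ, 2 ≤ a → a ≤ b →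
      IntervalIntegrable (fun t : ℝ => 1 / Real.log t) MeasureTheory.volume a b := by
    intro a b ha hab
    apply ContinuousOn.intervalIntegrable
    rw [Set.uIcc_of_le hab]
    intro t ht
    have ht2 : 2 ≤ t := ha.trans ht.1
    apply ContinuousAt.continuousWithinAt
    apply ContinuousAt.div continuousAt_const (Real.continuousAt_log (by linarith))
    exact (Real.log_pos (by linarith)).ne'
  have h4 : Li N = Li M + ∫ t in (M : ℝ)..(N : ℝ), 1 / Real.log t := by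
    unfold Li
    rw [intervalIntegral.integral_add_adjacent_intervals (hi 2 M le_rfl h2) (hi M N h2 h3)]
  rw [h4]
  have h5 : 0 ≤ ∫ t in (M : ℝ)..(N : ℝ), 1 / Real.log t := by
    apply intervalIntegral.integral_nonneg h3
    intro u hu
    have : 0 ≤ Real.log u := Real.log_nonneg (by linarith [hu.1])
    positivity
  linarith

/-- the counting function -/
noncomputable def Pc (a : ℤ) (M : ℕ) : ℝ :=
  (((Icc 1 M).filter (fun n : ℕ => Nat.Prime ((n : ℤ) ^ 2 + a).natAbs)).card : ℝ)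

lemma Pc_mono (a : ℤ) {M N : ℕ} (h : M ≤ N) : Pc a M ≤ Pc a N := by
  unfold Pc
  rw [Nat.cast_le]
  apply Finset.card_le_card
  intro n hn
  rw [Finset.mem_filter, Finset.mem_Icc] at hn ⊢
  exact ⟨⟨hn.1.1, hn.1.2.trans h⟩, hn.2⟩

lemma good_iff (ε : ℝ) (N : ℕ) (a : ℤ) (h : ℝ) :
    Good1 ε N N a h ↔ |Pc a N - 1 / 2 * h * Li N| ≤ ε * (h * Li N) := Iff.rfl

/-- interpolation -/
lemma interp {ε : ℝ} (hε : 0 < ε) {ν : ℝ} (hν : ν ≤ ε / 2) (hν1 : ν ≤ 1 / 2) {a : ℤ} {h : ℝ}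
    (hh : 0 < h) {M N K : ℕ} (hM : 2 ≤ M) (hMN : M ≤ N) (hNK : N ≤ K) (hL : Li K ≤ (1 + ν) * Li M)
    (h1 : Good1 (ε / 4) M M a h) (h2 : Good1 (ε / 4) K K a h) : Good1 ε N N a h := by
  rw [good_iff, abs_le] at h1 h2 ⊢
  have p1 := Pc_mono a hMN
  have p2 := Pc_mono a hNK
  have l0 := Li_nonneg hM
  have l1 := Li_mono hM hMN
  have l2 := Li_mono (hM.trans hMN) hNK
  set x := h * Li M with hx
  set y := h * Li N with hy
  set z := h * Li K with hz
  have x0 : 0 ≤ x := by positivity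
  have xy : x ≤ y := mul_le_mul_of_nonneg_left l1 hh.le
  have yz : y ≤ z := mul_le_mul_of_nonneg_left l2 hh.le
  have zx : z ≤ (1 + ν) * x := by
    rw [hz, hx]
    calc h * Li K ≤ h * ((1 + ν) * Li M) := mul_le_mul_of_nonneg_left hL hh.le
      _ = (1 + ν) * (h * Li M) := by ring
  have e1 : 1 / 2 * h * Li M = 1 / 2 * x := by rw [hx]; ring
  have e2 : 1 / 2 * h * Li N = 1 / 2 * y := by rw [hy]; ring
  have e3 : 1 / 2 * h * Li K = 1 / 2 * z := by rw [hz]; ring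
  rw [e1] at h1
  rw [e3] at h2
  rw [e2]
  obtain ⟨h1a, h1b⟩ := h1
  obtain ⟨h2a, h2b⟩ := h2
  have q1 : ν * x ≤ ε / 2 * y := mul_le_mul hν xy x0 (by positivity)
  have q2 : ν * (ε * x) ≤ 1 / 2 * (ε * y) := by
    apply mul_le_mul hν1 _ (by positivity) (by norm_num)
    exact mul_le_mul_of_nonneg_left xy hε.le
  constructor
  · have : ε / 4 * x ≤ ε / 4 * y := mul_le_mul_of_nonneg_left xy (by positivity)
    nlinarith
  · have : ε / 4 * z ≤ ε / 4 * ((1 + ν) * x) := mul_le_mul_of_nonneg_left zx (by positivity)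
    nlinarith

lemma isC_unique {a : ℤ} {h h' : ℝ} (h1 : IsC a h) (h2 : IsC a h') : h = h' :=
  tendsto_nhds_unique h1 h2

/-- ratio of the logarithmic integrals -/
lemma Li_ratio (hLI : SpecLI) {ν : ℝ} (hν0 : 0 < ν) (hν1 : ν ≤ 1 / 2) : ∃ N₁ : ℕ, ∀ M K : ℕ,
    N₁ ≤ M → M ≤ K → (K : ℝ) ≤ (1 + ν / 10) * M + 1 → Li K ≤ (1 + ν) * Li M := by
  obtain ⟨N₀, hN₀⟩ := hLI (ν / 10) (by positivity)
  refine ⟨max N₀ (max 3 ⌈10 / ν⌉₊), fun M K hM hMK hK => ?_⟩
  have hM0 : N₀ ≤ M := (le_max_left _ _).trans hM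
  have hM3 : 3 ≤ M := (le_max_left _ _).trans ((le_max_right _ _).trans hM)
  have hMν : ⌈10 / ν⌉₊ ≤ M := (le_max_right _ _).trans ((le_max_right _ _).trans hM)
  have hMν' : 10 / ν ≤ (M : ℝ) := (Nat.le_ceil _).trans (by exact_mod_cast hMν)
  have hM3' : (3 : ℝ) ≤ M := by exact_mod_cast hM3
  have hMK' : (M : ℝ) ≤ K := by exact_mod_cast hMK
  have a1 := hN₀ M hM0
  have a2 := hN₀ K (hM0.trans hMK)
  rw [abs_le] at a1 a2
  change _ ≤ Li M - _ ∧ _ at a1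
  change _ ∧ Li K - _ ≤ _ at a2
  have lM : 0 < Real.log M := Real.log_pos (by linarith)
  have lK : Real.log M ≤ Real.log K := Real.log_le_log (by linarith) hMK'
  set x := (M : ℝ) / Real.log M with hx
  set z := (K : ℝ) / Real.log K with hz
  have x0 : 0 < x := by positivity
  have hK2 : (K : ℝ) ≤ (1 + ν / 5) * M := by
    rw [div_le_iff₀ hν0] at hMν'
    nlinarith
  have zx : z ≤ (1 + ν / 5) * x := by
    calc z ≤ K / Real.log M := div_le_div_of_nonneg_left (Nat.cast_nonneg K) lM lK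
      _ ≤ (1 + ν / 5) * M / Real.log M := div_le_div_of_nonneg_right hK2 lM.le
      _ = (1 + ν / 5) * x := by rw [hx]; ring
  have b1 : (1 - ν / 10) * x ≤ Li M := by
    have := a1.1
    rw [mul_div_assoc] at this
    nlinarith
  have b2 : Li K ≤ (1 + ν / 10) * z := by
    have := a2.2
    rw [mul_div_assoc] at this
    nlinarith
  have b3 : (1 + ν / 10) * z ≤ (1 + ν / 10) * ((1 + ν / 5) * x) :=
    mul_le_mul_of_nonneg_left zx (by positivity)
  have b4 : (1 + ν / 10) * ((1 + ν / 5) * x) ≤ (1 + ν) * ((1 - ν / 10) * x) := by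
    have : (1 + ν / 10) * (1 + ν / 5) ≤ (1 + ν) * (1 - ν / 10) := by nlinarith
    calc (1 + ν / 10) * ((1 + ν / 5) * x) = ((1 + ν / 10) * (1 + ν / 5)) * x := by ring
      _ ≤ ((1 + ν) * (1 - ν / 10)) * x := mul_le_mul_of_nonneg_right this x0.le
      _ = _ := by ring
  have b5 : (1 + ν) * ((1 - ν / 10) * x) ≤ (1 + ν) * Li M :=
    mul_le_mul_of_nonneg_left b1 (by positivity)
  linarith

/-- the number of the grid points -/
lemma grid_card {η : ℝ} (hη : 0 < η) : ∃ A₁ : ℕ, ∀ A : ℕ, A₁ ≤ A → ∃ J : ℕ,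
    ((J : ℝ) + 1) ≤ (Real.log A) ^ (2 : ℝ) ∧ ∀ j : ℕ, (G η j : ℝ) ≤ 2 * (A : ℝ) ^ (2 : ℝ) → j ≤ J := by
  have hc : 0 < Real.log (1 + η) := Real.log_pos (by linarith)
  set c := Real.log (1 + η) with hcd
  have h1 : Tendsto (fun A : ℕ => Real.log (A : ℝ)) atTop atTop :=
    Real.tendsto_log_atTop.comp tendsto_natCast_atTop_atTop
  have h2 := (h1.eventually_ge_atTop (3 / c + 2)).and (eventually_ge_atTop 2)
  rw [eventually_atTop] at h2
  obtain ⟨A₁, hA₁⟩ := h2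
  refine ⟨A₁, fun A hA => ⟨⌊(1 + 2 * Real.log A) / c⌋₊, ?_, fun j hj => ?_⟩⟩
  · obtain ⟨k1, -⟩ := hA₁ A hA
    set l := Real.log (A : ℝ) with hl
    have hl2 : 2 ≤ l := by
      have : 0 < 3 / c := by positivity
      linarith
    have e1 : ((⌊(1 + 2 * l) / c⌋₊ : ℕ) : ℝ) ≤ (1 + 2 * l) / c :=
      Nat.floor_le (by positivity)
    have e2 : (1 + 2 * l) / c ≤ (3 / c) * l := by
      rw [div_mul_eq_mul_div]
      apply div_le_div_of_nonneg_right _ hc.le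
      linarith
    have e3 : (3 / c) * l ≤ (l - 2) * l := mul_le_mul_of_nonneg_right (by linarith) (by linarith)
    rw [Real.rpow_two]
    nlinarith
  · obtain ⟨k1, k2⟩ := hA₁ A hA
    have hA2 : (2 : ℝ) ≤ A := by exact_mod_cast k2
    apply Nat.le_floor
    rw [le_div_iff₀ hc]
    have e1 : (1 + η) ^ j ≤ 2 * (A : ℝ) ^ (2 : ℝ) := (Nat.le_ceil _).trans hj
    have e2 := Real.log_le_log (by positivity) e1
    rw [Real.log_pow, Real.log_mul (by norm_num) (by positivity), Real.log_rpow (by linarith)] at e2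
    have e3 : Real.log 2 ≤ 1 := by
      have := Real.log_two_lt_d9
      linarith
    linarith

end UNIM

open UNIM in
theorem specUNI (hFINB : SpecFINB) (hLI : SpecLI) : SpecUNI := by
  intro δ ε B hδ hδ5 hε hB
  -- parameters
  set τ : ℝ := 6 / 5 - δ with hτ
  have hτ1 : 1 < τ := by rw [hτ]; linarith
  have hτ2 : τ < 6 / 5 := by rw [hτ]; linarith
  set θ : ℝ := (5 / 6 + 1 / τ) / 2 with hθ
  have hτi : 5 / 6 < 1 / τ := by
    rw [lt_div_iff₀ (by linarith)]; linarith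
  have hθ1 : 5 / 6 < θ := by rw [hθ]; linarith
  have hθ2 : θ < 1 / τ := by rw [hθ]; linarith
  have hθτ : τ * θ < 1 := by
    rw [lt_div_iff₀ (by linarith)] at hθ2; linarith
  set ν : ℝ := min ε 1 / 2 with hν
  have hν0 : 0 < ν := by rw [hν]; positivity
  have hν1 : ν ≤ 1 / 2 := by rw [hν]; have := min_le_right ε 1; linarith
  have hν2 : ν ≤ ε / 2 := by rw [hν]; have := min_le_left ε 1; linarith
  set η : ℝ := ν / 10 with hη
  have hη0 : 0 < η := by rw [hη]; positivity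
  have hη1 : η ≤ 1 / 20 := by rw [hη]; linarith
  obtain ⟨N₀, hN₀⟩ := hFINB θ (ε / 4) (B + 2) hθ1 (by positivity) (by linarith)
  obtain ⟨N₁, hN₁⟩ := Li_ratio hLI hν0 hν1
  obtain ⟨A₁, hA₁⟩ := grid_card hη0
  -- `(2 A^τ)^θ ≤ A` for large `A`
  have hpow : ∀ᶠ A : ℕ in atTop, (2 * (A : ℝ) ^ τ) ^ θ ≤ A := by
    have h1 : Tendsto (fun A : ℕ => (A : ℝ) ^ (1 - τ * θ)) atTop atTop :=
      (tendsto_rpow_atTop (by linarith)).comp tendsto_natCast_atTop_atTop
    filter_upwards [h1.eventually_ge_atTop ((2 : ℝ) ^ θ), eventually_ge_atTop 1] with A h2 h3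
    have hA1 : (1 : ℝ) ≤ A := by exact_mod_cast h3
    have hA0 : (0 : ℝ) < A := by linarith
    rw [Real.mul_rpow (by norm_num) (by positivity), ← Real.rpow_mul hA0.le]
    calc (2 : ℝ) ^ θ * (A : ℝ) ^ (τ * θ) ≤ (A : ℝ) ^ (1 - τ * θ) * (A : ℝ) ^ (τ * θ) :=
          mul_le_mul_of_nonneg_right h2 (by positivity)
      _ = A := by rw [← Real.rpow_add hA0]; simp
  rw [eventually_atTop] at hpow
  obtain ⟨A₂, hA₂⟩ := hpow
  refine ⟨max A₁ (max A₂ (max (3 * N₀) (max (3 * N₁) 100))), fun A hA => ?_⟩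
  have g1 : A₁ ≤ A := (le_max_left _ _).trans hA
  have hA' := (le_max_right _ _).trans hA
  have g2 : A₂ ≤ A := (le_max_left _ _).trans hA'
  have hA'' := (le_max_right _ _).trans hA'
  have g3 : 3 * N₀ ≤ A := (le_max_left _ _).trans hA''
  have hA''' := (le_max_right _ _).trans hA''
  have g4 : 3 * N₁ ≤ A := (le_max_left _ _).trans hA'''
  have g5 : 100 ≤ A := (le_max_right _ _).trans hA'''
  obtain ⟨J, hJ1, hJ2⟩ := hA₁ A g1
  have hAR : (100 : ℝ) ≤ A := by exact_mod_cast g5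
  have hAτ : (A : ℝ) ≤ (A : ℝ) ^ τ := by
    calc (A : ℝ) = (A : ℝ) ^ (1 : ℝ) := (Real.rpow_one _).symm
      _ ≤ _ := Real.rpow_le_rpow_of_exponent_le (by linarith) hτ1.le
  have hAτ2 : (A : ℝ) ^ τ ≤ (A : ℝ) ^ (2 : ℝ) :=
    Real.rpow_le_rpow_of_exponent_le (by linarith) (by linarith)
  -- the bad sets
  let Q : ℕ → ℤ → Prop := fun j a => (A ≤ 3 * G η j ∧ (G η j : ℝ) ≤ 2 * (A : ℝ) ^ τ) →
    ∃ h : ℝ, 0 < h ∧ IsC a h ∧ Good1 (ε / 4) (G η j) (G η j) a h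
  have hQ : ∀ j, exc A (Q j) ≤ A / (Real.log A) ^ (B + 2) := by
    intro j
    have hl : 0 < Real.log (A : ℝ) := Real.log_pos (by linarith)
    by_cases hc : A ≤ 3 * G η j ∧ (G η j : ℝ) ≤ 2 * (A : ℝ) ^ τ
    · have h1 := hN₀ (G η j) A (by omega) (by
        refine le_trans (Real.rpow_le_rpow (Nat.cast_nonneg _) hc.2 (by linarith)) (hA₂ A g2))
        (by exact_mod_cast hc.1)
      exact le_trans (exc_mono A (fun a _ h _ => h)) h1
    · rw [exc_zero A (P := Q j) (fun a _ h' => absurd h' hc)]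
      positivity
  -- the union
  have hU : exc A (fun a => (A : ℝ) / 2 < |(a : ℝ)| → ∃ h : ℝ, 0 < h ∧ IsC a h ∧
      ∀ N : ℕ, |(a : ℝ)| ≤ N → (N : ℝ) ≤ |(a : ℝ)| ^ (6 / 5 - δ) → Good1 ε N N a h)
      ≤ ∑ j ∈ range (J + 1), exc A (Q j) := by
    apply exc_union
    intro a haI hall ha2
    have haA : |(a : ℝ)| ≤ A := by
      have h1 := haI
      unfold IA at h1
      rw [Finset.mem_Icc] at h1
      rw [abs_le]
      exact ⟨by exact_mod_cast h1.1, by exact_mod_cast h1.2⟩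
    -- the two grid points around `N`
    have key : ∀ N : ℕ, |(a : ℝ)| ≤ N → (N : ℝ) ≤ |(a : ℝ)| ^ (6 / 5 - δ) → ∃ M K : ℕ, 2 ≤ M ∧ M ≤ N ∧
        N ≤ K ∧ Li K ≤ (1 + ν) * Li M ∧ (∃ h : ℝ, 0 < h ∧ IsC a h ∧ Good1 (ε / 4) M M a h) ∧
        (∃ h : ℝ, 0 < h ∧ IsC a h ∧ Good1 (ε / 4) K K a h) := by
      intro N hN1 hN2
      have hNA : (A : ℝ) / 2 < N := lt_of_lt_of_le ha2 hN1
      have hN1' : 1 ≤ N := by
        have : (0 : ℝ) < N := by linarith
        exact_mod_cast this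
      have hNτ : (N : ℝ) ≤ (A : ℝ) ^ τ :=
        hN2.trans (Real.rpow_le_rpow (abs_nonneg _) haA (by rw [← hτ]; linarith))
      obtain ⟨j, hj1, hj2, hj3⟩ := grid hη0 hN1'
      have hj2' : (N : ℝ) ≤ G η (j + 1) := by exact_mod_cast hj2
      have hj1' : (G η j : ℝ) ≤ N := by exact_mod_cast hj1
      have hG3 : (A : ℝ) ≤ 3 * G η j := by nlinarith
      have hG3n : A ≤ 3 * G η j := by exact_mod_cast hG3
      have hGK : (G η (j + 1) : ℝ) ≤ 2 * (A : ℝ) ^ τ := by nlinarith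
      have hGM : (G η j : ℝ) ≤ 2 * (A : ℝ) ^ τ := by linarith
      refine ⟨G η j, G η (j + 1), by omega, hj1, hj2, ?_, ?_, ?_⟩
      · exact hN₁ _ _ (by omega) (hj1.trans hj2) hj3
      · exact hall j (Finset.mem_range_succ_iff.mpr (hJ2 j (hGM.trans (by linarith)))) ⟨hG3n, hGM⟩
      · refine hall (j + 1) (Finset.mem_range_succ_iff.mpr (hJ2 (j + 1) (hGK.trans (by linarith)))) ⟨?_, hGK⟩
        have := hj1.trans hj2
        omega
    -- the constant
    have habs : ((a.natAbs : ℕ) : ℝ) = |(a : ℝ)| := by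
      rw [Nat.cast_natAbs]; push_cast; rfl
    have ha1 : (1 : ℝ) ≤ |(a : ℝ)| := by linarith
    obtain ⟨-, -, -, -, -, -, ⟨h, hh, hI, -⟩, -⟩ := key a.natAbs habs.ge (by
      rw [habs]
      calc |(a : ℝ)| = |(a : ℝ)| ^ (1 : ℝ) := (Real.rpow_one _).symm
        _ ≤ _ := Real.rpow_le_rpow_of_exponent_le ha1 (by rw [← hτ]; linarith))
    refine ⟨h, hh, hI, fun N hN1 hN2 => ?_⟩
    obtain ⟨M, K, hM2, hMN, hNK, hL, ⟨h', -, hI', hg'⟩, ⟨h'', -, hI'', hg''⟩⟩ := key N hN1 hN2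
    obtain rfl := isC_unique hI hI'
    obtain rfl := isC_unique hI hI''
    exact interp hε hν2 hν1 hh hM2 hMN hNK hL hg' hg''
  refine hU.trans ((Finset.sum_le_sum (fun j _ => hQ j)).trans ?_)
  rw [Finset.sum_const, Finset.card_range, nsmul_eq_mul]
  have hl : 0 < Real.log (A : ℝ) := Real.log_pos (by linarith)
  rw [Real.rpow_add hl]
  have hlB : 0 < (Real.log (A : ℝ)) ^ B := Real.rpow_pos_of_pos hl _
  have hl2 : 0 < (Real.log (A : ℝ)) ^ (2 : ℝ) := Real.rpow_pos_of_pos hl _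
  push_cast
  calc ((J : ℝ) + 1) * (A / ((Real.log A) ^ B * (Real.log A) ^ (2 : ℝ)))
      ≤ (Real.log A) ^ (2 : ℝ) * (A / ((Real.log A) ^ B * (Real.log A) ^ (2 : ℝ))) :=
        mul_le_mul_of_nonneg_right hJ1 (by positivity)
    _ = A / (Real.log A) ^ B := by field_simp

end Pool.Agent.Lib.MP391708.U
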